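import Pool.Agent.Helper107.ARa

set_option autoImplicit false
open Filter Topology MeasureTheory

namespace Pool.Agent.Helper107.AR


/-- Integrable.comp_sub_left gives integrability of x ↦ f (t-x) / (1+(t-x)^2); multiply by the bounded measurable function (1+(t-x)^2)/(1+x^2) ≤ 2 (1+t^2) (Integrable.mul_bdd / bdd_mul). -/
theorem integrable_shift (f : ℝ → ℝ) (hf : Integrable (fun t => f t / (1 + t ^ 2))) (t : ℝ) :
    Integrable (fun x => f (t - x) / (1 + x ^ 2)) := by
  have h1 : Integrable (fun x => f (t - x) / (1 + (t - x) ^ 2)) := hf.comp_sub_left t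
  have h2 : Continuous (fun x : ℝ => (1 + (t - x) ^ 2) / (1 + x ^ 2)) :=
    Continuous.div (by fun_prop) (by fun_prop) (fun x => by positivity)
  have h3 : Integrable (fun x => (1 + (t - x) ^ 2) / (1 + x ^ 2) * (f (t - x) / (1 + (t - x) ^ 2))) := by
    refine h1.bdd_mul (c := 2 * (1 + t ^ 2)) h2.aestronglyMeasurable (Filter.Eventually.of_forall fun x => ?_)
    rw [Real.norm_of_nonneg (by positivity), div_le_iff₀ (by positivity)]
    nlinarith [sq_nonneg (t + x), sq_nonneg (t * x), sq_nonneg t, sq_nonneg x]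
  refine h3.congr (Filter.Eventually.of_forall fun x => ?_)
  have e1 : (1 + (t - x) ^ 2) ≠ 0 := by positivity
  have e2 : (1 + x ^ 2) ≠ 0 := by positivity
  simp only
  field_simp

end Pool.Agent.Helper107.AR
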