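import Pool.Agent.Helper107.ARa

set_option autoImplicit false
open Filter Topology MeasureTheory

namespace Pool.Agent.Helper107.AR


/-- Write w * f/(x^2+w^2) = w * ∫ f/(x^2+w^2) and use hasDerivAt_integral_of_dominated_loc_of_deriv_le for w ↦ ∫ (f(t-x)) * (x^2+w^2)⁻¹ on the ball around w0 of radius (Re w0)/2: derivative -2 w f (x^2+w^2)^(-2), dominated by 2 (|w0|+Re w0) (C (1+|w|)^2)^2 |f(t-x)|/(1+x^2)^2 ≤ const * |f(t-x)/(1+x^2)|. AEStronglyMeasurable of x ↦ f(t-x) comes from hf times (1+x^2). -/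
theorem Phi_diff (f : ℝ → ℝ) (t : ℝ) (hf : Integrable (fun x => f (t - x) / (1 + x ^ 2)))
    (hk : ∀ ε : ℝ, 0 < ε → ∃ C : ℝ, 0 < C ∧ ∀ (x : ℝ) (w : ℂ), ε ≤ w.re →
      (x : ℂ) ^ 2 + w ^ 2 ≠ 0 ∧
      ‖((x : ℂ) ^ 2 + w ^ 2)⁻¹‖ ≤ C * (1 + ‖w‖) ^ 2 / (1 + x ^ 2)) :
    DifferentiableOn ℂ (Phi f t) {w : ℂ | 0 < w.re} := by
  intro w0 hw0
  have hw0' : 0 < w0.re := hw0
  set r : ℝ := w0.re / 2 with hr
  have hr0 : 0 < r := by positivity
  obtain ⟨C, hC0, hC⟩ := hk r hr0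
  set F : ℂ → ℝ → ℂ := fun w x => (f (t - x) : ℂ) * ((x : ℂ) ^ 2 + w ^ 2)⁻¹ with hF
  set F' : ℂ → ℝ → ℂ := fun w x =>
    (f (t - x) : ℂ) * (-(2 * w) / ((x : ℂ) ^ 2 + w ^ 2) ^ 2) with hF'
  -- measurability
  have hg : AEStronglyMeasurable (fun x => f (t - x)) volume := by
    have h1 := hf.aestronglyMeasurable.mul
      ((by fun_prop : Continuous (fun x : ℝ => 1 + x ^ 2)).aestronglyMeasurable (μ := volume))
    refine h1.congr (Filter.Eventually.of_forall fun x => ?_)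
    have : (1 + x ^ 2 : ℝ) ≠ 0 := by positivity
    simp only [Pi.mul_apply]
    field_simp
  have hgc : AEStronglyMeasurable (fun x => (f (t - x) : ℂ)) volume :=
    Complex.continuous_ofReal.comp_aestronglyMeasurable hg
  have hball : ∀ w ∈ Metric.ball w0 r, r ≤ w.re ∧ ‖w‖ ≤ ‖w0‖ + r := by
    intro w hw
    rw [Metric.mem_ball, dist_eq_norm] at hw
    constructor
    · have h1 : |(w - w0).re| ≤ ‖w - w0‖ := Complex.abs_re_le_norm _
      rw [Complex.sub_re] at h1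
      have h2 := (abs_le.mp (h1.trans hw.le)).1
      have h3 : w0.re = 2 * r := by rw [hr]; ring
      linarith
    · calc ‖w‖ = ‖w0 + (w - w0)‖ := by congr 1; ring
        _ ≤ ‖w0‖ + ‖w - w0‖ := norm_add_le _ _
        _ ≤ _ := by linarith
  have hw0ball : w0 ∈ Metric.ball w0 r := Metric.mem_ball_self hr0
  have hmeasF : ∀ w ∈ Metric.ball w0 r, AEStronglyMeasurable (F w) volume := by
    intro w hw
    refine hgc.mul (Continuous.aestronglyMeasurable ?_)
    refine Continuous.inv₀ (by fun_prop) fun x => (hC x w (hball w hw).1).1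
  have hmeasF' : AEStronglyMeasurable (F' w0) volume := by
    refine hgc.mul (Continuous.aestronglyMeasurable ?_)
    refine Continuous.div (by fun_prop) (by fun_prop) fun x =>
      pow_ne_zero _ (hC x w0 (hball w0 hw0ball).1).1
  have habs : ∀ x, ‖f (t - x) / (1 + x ^ 2)‖ = |f (t - x)| / (1 + x ^ 2) := by
    intro x
    have : (0:ℝ) < 1 + x ^ 2 := by positivity
    rw [norm_div, Real.norm_eq_abs, Real.norm_of_nonneg this.le]
  have hintF : Integrable (F w0) volume := by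
    refine Integrable.mono' (hf.norm.mul_const (C * (1 + ‖w0‖) ^ 2)) (hmeasF w0 hw0ball)
      (Filter.Eventually.of_forall fun x => ?_)
    simp only [hF]
    rw [norm_mul, habs, Complex.norm_real, Real.norm_eq_abs]
    have h2 := (hC x w0 (hball w0 hw0ball).1).2
    calc |f (t - x)| * ‖((x : ℂ) ^ 2 + w0 ^ 2)⁻¹‖
        ≤ |f (t - x)| * (C * (1 + ‖w0‖) ^ 2 / (1 + x ^ 2)) :=
          mul_le_mul_of_nonneg_left h2 (abs_nonneg _)
      _ = |f (t - x)| / (1 + x ^ 2) * (C * (1 + ‖w0‖) ^ 2) := by ring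
  set K : ℝ := 2 * (‖w0‖ + r) * (C * (1 + (‖w0‖ + r)) ^ 2) ^ 2 with hK
  have hbound : ∀ x : ℝ, ∀ w ∈ Metric.ball w0 r,
      ‖F' w x‖ ≤ ‖f (t - x) / (1 + x ^ 2)‖ * K := by
    intro x w hw
    obtain ⟨hw1, hw2⟩ := hball w hw
    have hp : (0:ℝ) < 1 + x ^ 2 := by positivity
    have h2 := (hC x w hw1).2
    have h3 : ‖((x : ℂ) ^ 2 + w ^ 2)⁻¹‖ ≤ C * (1 + (‖w0‖ + r)) ^ 2 / (1 + x ^ 2) := by
      refine h2.trans ?_
      gcongr
    simp only [hF']
    rw [norm_mul, habs, Complex.norm_real, Real.norm_eq_abs]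
    have h4 : ‖-(2 * w) / ((x : ℂ) ^ 2 + w ^ 2) ^ 2‖
        = 2 * ‖w‖ * ‖((x : ℂ) ^ 2 + w ^ 2)⁻¹‖ ^ 2 := by
      rw [div_eq_mul_inv, norm_mul, norm_neg, norm_mul, ← inv_pow, norm_pow]
      simp
    rw [h4]
    have h5 : 2 * ‖w‖ * ‖((x : ℂ) ^ 2 + w ^ 2)⁻¹‖ ^ 2
        ≤ 2 * (‖w0‖ + r) * (C * (1 + (‖w0‖ + r)) ^ 2 / (1 + x ^ 2)) ^ 2 := by
      gcongr
    have h6 : 2 * (‖w0‖ + r) * (C * (1 + (‖w0‖ + r)) ^ 2 / (1 + x ^ 2)) ^ 2
        ≤ K / (1 + x ^ 2) := by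
      rw [hK, div_pow, mul_div_assoc']
      apply div_le_div_of_nonneg_left (by positivity) hp
      nlinarith [sq_nonneg x]
    calc |f (t - x)| * (2 * ‖w‖ * ‖((x : ℂ) ^ 2 + w ^ 2)⁻¹‖ ^ 2)
        ≤ |f (t - x)| * (K / (1 + x ^ 2)) :=
          mul_le_mul_of_nonneg_left (h5.trans h6) (abs_nonneg _)
      _ = |f (t - x)| / (1 + x ^ 2) * K := by ring
  have hdiff : ∀ x : ℝ, ∀ w ∈ Metric.ball w0 r, HasDerivAt (fun w => F w x) (F' w x) w := by
    intro x w hw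
    have hne := (hC x w (hball w hw).1).1
    have h1 : HasDerivAt (fun w : ℂ => (x : ℂ) ^ 2 + w ^ 2) (2 * w) w := by
      have := (hasDerivAt_pow 2 w).const_add ((x : ℂ) ^ 2)
      simpa using this
    have h2 := (h1.inv hne).const_mul (f (t - x) : ℂ)
    exact h2
  have key := hasDerivAt_integral_of_dominated_loc_of_deriv_le (μ := volume) (F := F) (F' := F')
    (bound := fun x => ‖f (t - x) / (1 + x ^ 2)‖ * K)
    (Metric.ball_mem_nhds w0 hr0)
    (by
      filter_upwards [Metric.ball_mem_nhds w0 hr0] with w hw using hmeasF w hw)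
    hintF hmeasF' (Filter.Eventually.of_forall hbound) (hf.norm.mul_const K)
    (Filter.Eventually.of_forall hdiff)
  have hd : DifferentiableAt ℂ (fun w => ∫ x, F w x) w0 := key.2.differentiableAt
  have hPhi : Phi f t = fun w => 1 / (Real.pi : ℂ) * (w * ∫ x, F w x) := by
    funext w
    unfold Phi
    congr 1
    rw [← integral_const_mul]
    refine integral_congr_ae (Filter.Eventually.of_forall fun x => ?_)
    simp only [hF]
    rw [div_eq_mul_inv]; ring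
  rw [hPhi]
  exact ((differentiableAt_id.mul hd).const_mul _).differentiableWithinAt

end Pool.Agent.Helper107.AR
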