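import Pool.Agent.Helper107.ARa

set_option autoImplicit false
open Filter Topology MeasureTheory

namespace Pool.Agent.Helper107.AR


/-- unfold; push_cast; integral_ofReal (the integrand is the cast of the real integrand). -/
theorem Phi_real (f : ℝ → ℝ) (t y : ℝ) : Phi f t (y : ℂ) = (poi f t y : ℂ) := by
  unfold Phi poi
  rw [Complex.ofReal_mul, ← integral_complex_ofReal]
  congr 1
  · push_cast; rfl
  · apply integral_congr_ae
    filter_upwards with x
    push_cast
    rfl

end Pool.Agent.Helper107.AR
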