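import Pool.Agent.Helper107.ARa

set_option autoImplicit false
open Filter Topology MeasureTheory

namespace Pool.Agent.Helper107.AR


/-- Apply PhragmenLindelof.eq_zero_on_right_half_plane_of_superexponential_decay to G w = F (w + y) / (w + 1)^3 (take ε = y): it is differentiable in a neighbourhood of {0 ≤ re} (w + y has positive real part), bounded on {0 ≤ re} because ‖w+1‖ ≥ 1 and ‖w+1‖ ≥ ‖w‖, so hexp holds with c = 1, B = 0, him is the same bound, and hre: exp(x)^n ‖G x‖ ≤ exp(x+y)^n ‖F (x+y)‖ → 0. Conclude at w = 0. -/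
theorem pl (F : ℂ → ℂ) (hd : DifferentiableOn ℂ F {w : ℂ | 0 < w.re})
    (hb : ∀ ε : ℝ, 0 < ε → ∃ C : ℝ, ∀ w : ℂ, ε ≤ w.re → ‖F w‖ ≤ C * (1 + ‖w‖) ^ 3)
    (hs : ∀ n : ℕ, Tendsto (fun y : ℝ => Real.exp y ^ n * ‖F (y : ℂ)‖) atTop (𝓝 0))
    (y : ℝ) (hy : 0 < y) : F (y : ℂ) = 0 := by
  obtain ⟨C, hC⟩ := hb y hy
  set G : ℂ → ℂ := fun w => F (w + y) / (w + 1) ^ 3 with hG
  have hnorm1 : ∀ w : ℂ, 0 ≤ w.re → 1 ≤ ‖w + 1‖ := by
    intro w hw
    have h1 : (w + 1).re ≤ ‖w + 1‖ := Complex.re_le_norm _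
    simp only [Complex.add_re, Complex.one_re] at h1
    linarith
  have hnorm2 : ∀ w : ℂ, 0 ≤ w.re → ‖w‖ ≤ ‖w + 1‖ := by
    intro w hw
    rw [Complex.norm_eq_sqrt_sq_add_sq, Complex.norm_eq_sqrt_sq_add_sq]
    apply Real.sqrt_le_sqrt
    simp only [Complex.add_re, Complex.one_re, Complex.add_im, Complex.one_im]
    nlinarith
  have hbound : ∀ w : ℂ, 0 ≤ w.re → ‖G w‖ ≤ |C| * (2 + y) ^ 3 := by
    intro w hw
    have h1 := hnorm1 w hw
    have h2 := hnorm2 w hw
    have h3 : ‖F (w + y)‖ ≤ C * (1 + ‖w + y‖) ^ 3 := by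
      apply hC
      simp only [Complex.add_re, Complex.ofReal_re]
      linarith
    have h4 : ‖w + (y : ℂ)‖ ≤ ‖w‖ + y := by
      refine (norm_add_le _ _).trans ?_
      rw [Complex.norm_real, Real.norm_eq_abs, abs_of_pos hy]
    have h5 : 1 + ‖w + (y : ℂ)‖ ≤ (2 + y) * ‖w + 1‖ := by nlinarith
    have h6 : (1 + ‖w + (y : ℂ)‖) ^ 3 ≤ ((2 + y) * ‖w + 1‖) ^ 3 :=
      pow_le_pow_left₀ (by positivity) h5 3
    have h7 : C * (1 + ‖w + (y : ℂ)‖) ^ 3 ≤ |C| * ((2 + y) * ‖w + 1‖) ^ 3 :=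
      (mul_le_mul_of_nonneg_right (le_abs_self C) (by positivity)).trans
        (mul_le_mul_of_nonneg_left h6 (abs_nonneg C))
    simp only [hG]
    rw [norm_div, norm_pow, div_le_iff₀ (by positivity)]
    calc ‖F (w + y)‖ ≤ C * (1 + ‖w + (y : ℂ)‖) ^ 3 := h3
      _ ≤ |C| * ((2 + y) * ‖w + 1‖) ^ 3 := h7
      _ = |C| * (2 + y) ^ 3 * ‖w + 1‖ ^ 3 := by ring
  have hdiff : DifferentiableOn ℂ G {w : ℂ | 0 ≤ w.re} := by
    intro w hw
    have hw' : 0 ≤ w.re := hw
    have hne : (w + 1) ^ 3 ≠ 0 := by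
      have h1 := hnorm1 w hw'
      have : w + 1 ≠ 0 := by
        intro h
        rw [h, norm_zero] at h1
        linarith
      exact pow_ne_zero 3 this
    have hFd : DifferentiableAt ℂ F (w + y) := by
      apply hd.differentiableAt
      apply (isOpen_lt continuous_const Complex.continuous_re).mem_nhds
      show 0 < (w + (y : ℂ)).re
      simp only [Complex.add_re, Complex.ofReal_re]
      linarith
    have h1 : DifferentiableAt ℂ (fun w : ℂ => F (w + y)) w := by
      have : DifferentiableAt ℂ (fun w : ℂ => w + (y : ℂ)) w := differentiableAt_id.add_const _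
      exact DifferentiableAt.comp w hFd this
    have h2 : DifferentiableAt ℂ (fun w : ℂ => (w + 1) ^ 3) w :=
      (differentiableAt_id.add_const _).pow 3
    exact (h1.div h2 hne).differentiableWithinAt
  have hcl : closure {z : ℂ | 0 < z.re} ⊆ {z : ℂ | 0 ≤ z.re} :=
    closure_minimal (fun z (hz : 0 < z.re) => show 0 ≤ z.re from hz.le) (isClosed_le continuous_const Complex.continuous_re)
  have key := PhragmenLindelof.eq_zero_on_right_half_plane_of_superexponential_decay (f := G)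
    ((hdiff.mono hcl).diffContOnCl)
    ⟨1, by norm_num, 0, by
      refine Asymptotics.IsBigO.of_bound (|C| * (2 + y) ^ 3) ?_
      have hmem : ∀ᶠ z : ℂ in (Bornology.cobounded ℂ ⊓ 𝓟 {z : ℂ | 0 < z.re}), 0 < z.re :=
        Filter.mem_inf_of_right (Filter.mem_principal_self _)
      filter_upwards [hmem] with z hz
      simpa using hbound z hz.le⟩
    (by
      intro n
      have h1 : Tendsto (fun x : ℝ => Real.exp (x + y) ^ n * ‖F ((x + y : ℝ) : ℂ)‖) atTop (𝓝 0) :=
        (hs n).comp (tendsto_atTop_add_const_right atTop y tendsto_id)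
      refine squeeze_zero' ?_ ?_ h1
      · exact Eventually.of_forall fun x => by positivity
      · filter_upwards [eventually_ge_atTop (0 : ℝ)] with x hx
        have h2 := hnorm1 (x : ℂ) (by simpa using hx)
        have h3 : ‖G (x : ℂ)‖ ≤ ‖F ((x + y : ℝ) : ℂ)‖ := by
          simp only [hG]
          rw [norm_div, norm_pow, Complex.ofReal_add]
          apply div_le_self (norm_nonneg _)
          exact one_le_pow₀ h2
        have h4 : Real.exp x ^ n ≤ Real.exp (x + y) ^ n :=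
          pow_le_pow_left₀ (Real.exp_pos _).le (Real.exp_le_exp.2 (by linarith)) n
        exact mul_le_mul h4 h3 (norm_nonneg _) (by positivity))
    ⟨|C| * (2 + y) ^ 3, fun x => hbound _ (by simp)⟩
  have h0 := key (show (0 : ℂ) ∈ {z : ℂ | 0 ≤ z.re} by simp)
  simpa [hG] using h0

end Pool.Agent.Helper107.AR
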