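import Pool.Agent.Helper107.ARa

set_option autoImplicit false
open Filter Topology MeasureTheory

namespace Pool.Agent.Helper107.AR


/-- For y>0 and |x-t| ≤ b y: ofReal |poi f t y| ≤ ntm b f x (take z = x - t in the supremum). So with M = the finite integral, ofReal|poi f t y|^p * ∫⁻_{|x-t| ≤ by} ofReal U ≤ M, and for y ≥ 2|t|/b the set contains Icc (-r) r with r = b y - |t|, so Growth with c = (n+1) p * 2 / b (r ≥ b y/2) gives exp((n+1) p y) ≤ exp(c r) ≤ ∫_{-r}^r U for large y. Hence |poi f t y|^p exp((n+1) p y) ≤ M.toReal, |poi| ≤ M^(1/p) exp(-(n+1) y), and exp y^n |poi| ≤ M^(1/p) exp(-y) → 0. -/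
theorem decay (b p : ℝ) (hb : 0 < b) (hp : 0 < p) (U : ℝ → ℝ) (hU : LocallyIntegrable U)
    (hU0 : ∀ x, 0 ≤ U x) (hg : Growth U) (f : ℝ → ℝ)
    (hfin : ∫⁻ x, (ntm b f x) ^ p * ENNReal.ofReal (U x) ≠ ⊤) (t : ℝ) (n : ℕ) :
    Tendsto (fun y : ℝ => Real.exp y ^ n * |poi f t y|) atTop (𝓝 0) := by
  set M : ENNReal := ∫⁻ x, (ntm b f x) ^ p * ENNReal.ofReal (U x) with hM
  set c : ℝ := (n+1) * p * 2 / b with hc
  have hcpos : 0 < c := by positivity
  obtain ⟨R, hR⟩ := hg c
  set K : ℝ := M.toReal ^ (1/p) with hK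
  have hKnn : 0 ≤ K := by positivity
  have key : ∀ y : ℝ, 0 < y → 2 * |t| / b ≤ y → R ≤ b * y - |t| → Real.exp y ^ n * |poi f t y| ≤ Real.exp (-y) * K := by
    intro y hy h1 h2
    have h1' : 2 * |t| ≤ b * y := by
      rw [div_le_iff₀ hb] at h1
      linarith
    set r : ℝ := b * y - |t| with hr
    have h3 : Real.exp (c * r) ≤ ∫ x in Set.Icc (-r) r, U x := hR r h2
    have h4 : (n+1) * p * y ≤ c * r := by
      have : c * (b * y / 2) = (n+1) * p * y := by
        rw [hc]; field_simp
      rw [← this]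
      apply mul_le_mul_of_nonneg_left _ hcpos.le
      rw [hr]; linarith
    have h5 : Real.exp ((n+1) * p * y) ≤ ∫ x in Set.Icc (-r) r, U x :=
      (Real.exp_le_exp.mpr h4).trans h3
    have hUi : IntegrableOn U (Set.Icc (-r) r) := hU.integrableOn_isCompact isCompact_Icc
    have h6 : ENNReal.ofReal (∫ x in Set.Icc (-r) r, U x) = ∫⁻ x in Set.Icc (-r) r, ENNReal.ofReal (U x) :=
      ofReal_integral_eq_lintegral_ofReal hUi (Eventually.of_forall hU0)
    have h7 : ENNReal.ofReal |poi f t y| ^ p * ∫⁻ x in Set.Icc (-r) r, ENNReal.ofReal (U x) ≤ M := by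
      rw [← lintegral_const_mul' _ _ (ENNReal.rpow_ne_top_of_nonneg hp.le ENNReal.ofReal_ne_top)]
      calc ∫⁻ x in Set.Icc (-r) r, ENNReal.ofReal |poi f t y| ^ p * ENNReal.ofReal (U x)
          ≤ ∫⁻ x in Set.Icc (-r) r, (ntm b f x) ^ p * ENNReal.ofReal (U x) := by
            apply setLIntegral_mono' measurableSet_Icc
            intro x hx
            apply mul_le_mul_left
            apply ENNReal.rpow_le_rpow _ hp.le
            have hz : |x - t| ≤ b * y := by
              have e1 : |x - t| ≤ |x| + |t| := abs_sub x t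
              have e2 : |x| ≤ r := abs_le.mpr ⟨hx.1, hx.2⟩
              linarith
            have e3 : ENNReal.ofReal |poi f (x - (x - t)) y| ≤ ntm b f x := by
              unfold ntm
              exact le_iSup₂_of_le y hy (le_iSup₂_of_le (x - t) hz le_rfl)
            simpa using e3
        _ ≤ M := setLIntegral_le_lintegral _ _
    rw [← h6] at h7
    have h8 : ENNReal.ofReal (|poi f t y| ^ p * Real.exp ((n+1) * p * y)) ≤ M := by
      rw [ENNReal.ofReal_mul (by positivity), ← ENNReal.ofReal_rpow_of_nonneg (abs_nonneg _) hp.le]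
      refine le_trans ?_ h7
      exact mul_le_mul_right (ENNReal.ofReal_le_ofReal h5) _
    have h9 : |poi f t y| ^ p * Real.exp ((n+1) * p * y) ≤ M.toReal :=
      (ENNReal.ofReal_le_iff_le_toReal hfin).mp h8
    have h10 : (|poi f t y| * Real.exp ((n+1) * y)) ^ p ≤ M.toReal := by
      rw [Real.mul_rpow (abs_nonneg _) (Real.exp_pos _).le, ← Real.exp_mul]
      have : ((n:ℝ)+1) * y * p = (n+1) * p * y := by ring
      rw [this]; exact h9
    have h11 : |poi f t y| * Real.exp ((n+1) * y) ≤ K := by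
      have h12 : 0 ≤ |poi f t y| * Real.exp ((n+1) * y) := by positivity
      have h13 := Real.rpow_le_rpow (by positivity) h10 (by positivity : 0 ≤ 1/p)
      rw [← Real.rpow_mul h12, mul_one_div_cancel hp.ne', Real.rpow_one] at h13
      exact h13
    calc Real.exp y ^ n * |poi f t y| = Real.exp (-y) * (|poi f t y| * Real.exp ((n+1) * y)) := by
          rw [← Real.exp_nat_mul]
          have : Real.exp (n * y) = Real.exp (-y) * Real.exp ((n+1) * y) := by
            rw [← Real.exp_add]; congr 1; ring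
          rw [this]; ring
      _ ≤ Real.exp (-y) * K := mul_le_mul_of_nonneg_left h11 (Real.exp_pos _).le
  have hlim : Tendsto (fun y : ℝ => Real.exp (-y) * K) atTop (𝓝 0) := by
    have := (Real.tendsto_exp_neg_atTop_nhds_zero).mul_const K
    simpa using this
  refine squeeze_zero' (Eventually.of_forall fun y => by positivity) ?_ hlim
  have hev : ∀ᶠ y : ℝ in atTop, R ≤ b * y - |t| := by
    filter_upwards [eventually_ge_atTop ((R + |t|) / b)] with y hy
    rw [div_le_iff₀ hb] at hy
    linarith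
  filter_upwards [eventually_gt_atTop 0, eventually_ge_atTop (2 * |t| / b), hev] with y h1 h2 h3
  exact key y h1 h2 h3

end Pool.Agent.Helper107.AR
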