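import Pool.Agent.Helper107.ARa

set_option autoImplicit false
open Filter Topology MeasureTheory

namespace Pool.Agent.Helper107.AR


/-- Given C, ε: choose θ in (0,1) with C θ^ε ≤ 1/2. For r>0 put r1 = r/(1-θ), I = Icc (-r1) r1, E = I \ Icc (-r) r: |E|/|I| = θ, so U(I) - U(Icc (-r) r) = U(E) ≤ U(I)/2, i.e. G(r/(1-θ)) ≤ 2 G(r) for G(r) = ∫ x in Icc (-r) r, U x and all r>0. Iterating G(q^k) ≤ 2^k G(1) with q = 1/(1-θ) > 1, while Growth (c = 1) gives G(q^k) ≥ exp(q^k) for large k; since exp(q^k)/2^k → ∞ this is a contradiction (2^k ≤ (q^k)^s with s = log 2/log q, and exp beats powers; or exp(q^k) ≥ exp(1 + k (q-1)) applied with a larger c: use c with c (q-1) ≥ 1: G(q^k) ≥ exp(c q^k) ≥ exp(c (1 + k (q-1))) ≥ exp(c) exp(k) (Bernoulli) and (e/2)^k → ∞). -/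
theorem not_AInfty (U : ℝ → ℝ) (hU : LocallyIntegrable U) (hU0 : ∀ x, 0 ≤ U x) (hg : Growth U) :
    ¬ AInfty U := by
  rintro ⟨C, ε, hC, hε, hA⟩
  obtain ⟨θ, hθ0, hθ1, hθ⟩ : ∃ θ : ℝ, 0 < θ ∧ θ < 1 ∧ C * θ ^ ε ≤ 1 / 2 := by
    refine ⟨min (1 / 2) ((1 / (2 * C)) ^ (1 / ε)), ?_, ?_, ?_⟩
    · exact lt_min (by norm_num) (by positivity)
    · exact lt_of_le_of_lt (min_le_left _ _) (by norm_num)
    · have h1 : (min (1 / 2 : ℝ) ((1 / (2 * C)) ^ (1 / ε))) ^ ε ≤ ((1 / (2 * C)) ^ (1 / ε)) ^ ε :=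
        Real.rpow_le_rpow (le_min (by norm_num) (by positivity)) (min_le_right _ _) hε.le
      rw [← Real.rpow_mul (by positivity), one_div_mul_cancel hε.ne', Real.rpow_one] at h1
      calc C * _ ≤ C * (1 / (2 * C)) := mul_le_mul_of_nonneg_left h1 hC.le
        _ = 1 / 2 := by field_simp
  have hint : ∀ a b : ℝ, IntegrableOn U (Set.Icc a b) := fun a b =>
    hU.integrableOn_isCompact isCompact_Icc
  have hstep : ∀ r : ℝ, 0 < r →
      ∫ x in Set.Icc (-(r / (1 - θ))) (r / (1 - θ)), U x ≤ 2 * ∫ x in Set.Icc (-r) r, U x := by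
    intro r hr
    have h1θ : 0 < 1 - θ := by linarith
    set r1 := r / (1 - θ) with hr1
    have hrr1 : r = r1 * (1 - θ) := by rw [hr1]; field_simp
    have hr1pos : 0 < r1 := by positivity
    have hlt : r < r1 := by rw [hrr1]; nlinarith
    have hsub : Set.Icc (-r) r ⊆ Set.Icc (-r1) r1 := Set.Icc_subset_Icc (by linarith) hlt.le
    have h := hA (-r1) r1 (by linarith) (Set.Icc (-r1) r1 \ Set.Icc (-r) r)
      (measurableSet_Icc.diff measurableSet_Icc) Set.sdiff_subset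
    rw [setIntegral_sdiff measurableSet_Icc (hint _ _) hsub] at h
    have hvol : volume.real (Set.Icc (-r1) r1 \ Set.Icc (-r) r) = 2 * r1 - 2 * r := by
      rw [measureReal_sdiff hsub measurableSet_Icc (h₁ := measure_Icc_lt_top.ne)]
      rw [Real.volume_real_Icc_of_le (by linarith), Real.volume_real_Icc_of_le (by linarith)]
      ring
    rw [hvol] at h
    have hratio : (2 * r1 - 2 * r) / (r1 - -r1) = θ := by
      rw [hrr1]; field_simp; ring
    rw [hratio] at h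
    have hG0 : 0 ≤ ∫ x in Set.Icc (-r1) r1, U x := integral_nonneg hU0
    nlinarith
  set q : ℝ := 1 / (1 - θ) with hq
  have h1θ : 0 < 1 - θ := by linarith
  have hq1 : 1 < q := by rw [hq, lt_div_iff₀ h1θ]; linarith
  have hiter : ∀ k : ℕ, ∫ x in Set.Icc (-(q ^ k)) (q ^ k), U x ≤
      2 ^ k * ∫ x in Set.Icc (-(1 : ℝ)) 1, U x := by
    intro k
    induction k with
    | zero => simp
    | succ k ih =>
      have h := hstep (q ^ k) (by positivity)
      have e : q ^ k / (1 - θ) = q ^ (k + 1) := by rw [pow_succ, hq]; ring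
      rw [e] at h
      calc _ ≤ 2 * ∫ x in Set.Icc (-(q ^ k)) (q ^ k), U x := h
        _ ≤ 2 * (2 ^ k * ∫ x in Set.Icc (-(1 : ℝ)) 1, U x) := by linarith
        _ = _ := by rw [pow_succ]; ring
  obtain ⟨R, hR⟩ := hg (1 / (q - 1))
  have hlim1 : Tendsto (fun k : ℕ => q ^ k) atTop atTop := tendsto_pow_atTop_atTop_of_one_lt hq1
  have he : (1 : ℝ) < Real.exp 1 / 2 := by
    have := Real.exp_one_gt_d9
    linarith
  have hlim2 : Tendsto (fun k : ℕ => (Real.exp 1 / 2) ^ k) atTop atTop :=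
    tendsto_pow_atTop_atTop_of_one_lt he
  obtain ⟨k, hk1, hk2⟩ := ((hlim1.eventually_ge_atTop R).and
    (hlim2.eventually_gt_atTop (∫ x in Set.Icc (-(1 : ℝ)) 1, U x))).exists
  have h3 := (hR (q ^ k) hk1).trans (hiter k)
  have hbern : 1 + (k : ℝ) * (q - 1) ≤ q ^ k := by
    have := one_add_mul_le_pow (a := q - 1) (by linarith) k
    simpa using this
  have hq10 : 0 < q - 1 := by linarith
  have h4 : (k : ℝ) ≤ 1 / (q - 1) * q ^ k := by
    have : (k : ℝ) = 1 / (q - 1) * ((k : ℝ) * (q - 1)) := by field_simp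
    rw [this]
    apply mul_le_mul_of_nonneg_left _ (by positivity)
    linarith
  have h5 : Real.exp k ≤ 2 ^ k * ∫ x in Set.Icc (-(1 : ℝ)) 1, U x :=
    (Real.exp_le_exp.2 h4).trans h3
  have h6 : Real.exp k = 2 ^ k * (Real.exp 1 / 2) ^ k := by
    rw [div_pow, ← Real.exp_nat_mul, mul_one]; field_simp
  rw [h6] at h5
  have h7 := le_of_mul_le_mul_left h5 (by positivity : (0 : ℝ) < 2 ^ k)
  linarith

end Pool.Agent.Helper107.AR
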