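import Pool.Agent.Helper107.ARa

set_option autoImplicit false
open Filter Topology MeasureTheory

namespace Pool.Agent.Helper107.AR


/-- For r ≥ 1: ∫_{-r}^{r} exp(x^2) ≥ ∫_{r-1}^{r} exp(x^2) ≥ exp((r-1)^2) (setIntegral_mono_set + constant lower bound), and (r-1)^2 ≥ c r for r ≥ |c| + 3. -/
theorem growth_example : Growth (fun x : ℝ => Real.exp (x ^ 2)) := by
  intro c
  refine ⟨|c| + 3, fun r hr => ?_⟩
  have hc0 : 0 ≤ |c| := abs_nonneg c
  have hcc : c ≤ |c| := le_abs_self c
  have hcont : Continuous (fun x : ℝ => Real.exp (x ^ 2)) := by fun_prop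
  have h1 : ∫ x in Set.Icc (r - 1) r, Real.exp (x ^ 2) ≤ ∫ x in Set.Icc (-r) r, Real.exp (x ^ 2) := by
    apply setIntegral_mono_set
    · exact hcont.continuousOn.integrableOn_Icc
    · exact Filter.Eventually.of_forall (fun x => (Real.exp_pos _).le)
    · apply Filter.Eventually.of_forall
      intro x hx
      exact Set.Icc_subset_Icc (by linarith) le_rfl hx
  have h2 : ∫ x in Set.Icc (r - 1) r, Real.exp ((r - 1) ^ 2) ≤ ∫ x in Set.Icc (r - 1) r, Real.exp (x ^ 2) := by
    apply setIntegral_mono_on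
    · exact (continuous_const).continuousOn.integrableOn_Icc
    · exact hcont.continuousOn.integrableOn_Icc
    · exact measurableSet_Icc
    · intro x hx
      apply Real.exp_le_exp.2
      have := hx.1
      have h0 : 0 ≤ r - 1 := by linarith
      nlinarith
  have h3 : ∫ x in Set.Icc (r - 1) r, Real.exp ((r - 1) ^ 2) = Real.exp ((r - 1) ^ 2) := by
    rw [setIntegral_const]
    simp
  have h4 : Real.exp (c * r) ≤ Real.exp ((r - 1) ^ 2) := by
    apply Real.exp_le_exp.2
    nlinarith
  show Real.exp (c * r) ≤ ∫ x in Set.Icc (-r) r, Real.exp (x ^ 2)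
  linarith

end Pool.Agent.Helper107.AR
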