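import Pool.Agent.Helper107.ARA1
import Pool.Agent.Helper107.ARA2
import Pool.Agent.Helper107.ARA3
import Pool.Agent.Helper107.ARA4
import Pool.Agent.Helper107.ARA5
import Pool.Agent.Helper107.ARA6
import Pool.Agent.Helper107.ARA7
import Pool.Agent.Helper107.ARA8

set_option autoImplicit false
open Filter Topology MeasureTheory

namespace Pool.Agent.Helper107.AR

lemma Phi_bound (f : ℝ → ℝ) (t : ℝ) (hf : Integrable (fun x => f (t - x) / (1 + x ^ 2)))
    (ε : ℝ) (hε : 0 < ε) : ∃ C : ℝ, ∀ w : ℂ, ε ≤ w.re → ‖Phi f t w‖ ≤ C * (1 + ‖w‖) ^ 3 := by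
  obtain ⟨C, hC, hk⟩ := ker_bound ε hε
  set I : ℝ := ∫ x, |f (t - x) / (1 + x ^ 2)| with hI
  have hI0 : 0 ≤ I := integral_nonneg (fun x => abs_nonneg _)
  refine ⟨1 / Real.pi * (C * I), fun w hw => ?_⟩
  have hw0 := norm_nonneg w
  have h1 : ‖∫ x : ℝ, w * (f (t - x) : ℂ) / ((x : ℂ) ^ 2 + w ^ 2)‖ ≤
      ∫ x : ℝ, (C * (1 + ‖w‖) ^ 3) * |f (t - x) / (1 + x ^ 2)| := by
    refine norm_integral_le_of_norm_le (hf.norm.const_mul _) (Eventually.of_forall (fun x => ?_))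
    obtain ⟨h2, h3⟩ := hk x w hw
    have hx : (0:ℝ) < 1 + x ^ 2 := by positivity
    rw [div_eq_mul_inv, norm_mul, norm_mul, Complex.norm_real, abs_div, abs_of_pos hx,
      Real.norm_eq_abs]
    calc ‖w‖ * |f (t - x)| * ‖((x : ℂ) ^ 2 + w ^ 2)⁻¹‖
        ≤ (1 + ‖w‖) * |f (t - x)| * (C * (1 + ‖w‖) ^ 2 / (1 + x ^ 2)) := by
          refine mul_le_mul ?_ h3 (norm_nonneg _) (by positivity)
          exact mul_le_mul_of_nonneg_right (by linarith) (abs_nonneg _)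
      _ = (C * (1 + ‖w‖) ^ 3) * (|f (t - x)| / (1 + x ^ 2)) := by ring
  rw [integral_const_mul] at h1
  unfold Phi
  rw [norm_mul, norm_div, norm_one, Complex.norm_real, Real.norm_of_nonneg Real.pi_pos.le]
  calc 1 / Real.pi * ‖∫ x : ℝ, w * (f (t - x) : ℂ) / ((x : ℂ) ^ 2 + w ^ 2)‖
      ≤ 1 / Real.pi * (C * (1 + ‖w‖) ^ 3 * I) :=
        mul_le_mul_of_nonneg_left h1 (by positivity)
    _ = _ := by ring

lemma poi_zero (b p : ℝ) (hb : 0 < b) (hp : 0 < p) (U : ℝ → ℝ) (hU : LocallyIntegrable U)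
    (hU0 : ∀ x, 0 ≤ U x) (hg : Growth U) (f : ℝ → ℝ)
    (hf : Integrable (fun t => f t / (1 + t ^ 2)))
    (hfin : ∫⁻ x, (ntm b f x) ^ p * ENNReal.ofReal (U x) ≠ ⊤) (t y : ℝ) (hy : 0 < y) :
    poi f t y = 0 := by
  have hft := integrable_shift f hf t
  have h := pl (Phi f t) (Phi_diff f t hft ker_bound) (fun ε hε => Phi_bound f t hft ε hε)
    (fun n => by
      have := decay b p hb hp U hU hU0 hg f hfin t n
      refine this.congr (fun y => ?_)
      rw [Phi_real, Complex.norm_real, Real.norm_eq_abs]) y hy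
  rw [Phi_real] at h
  exact_mod_cast h

lemma area_zero (lam : ℝ) (f : ℝ → ℝ) (h : ∀ t y : ℝ, 0 < y → poi f t y = 0) (x : ℝ) :
    area lam f x = 0 := by
  unfold area
  have hs : MeasurableSet {q : ℝ × ℝ | |x - q.1| ≤ lam * q.2 ∧ 0 < q.2} := by
    have h1 : MeasurableSet {q : ℝ × ℝ | |x - q.1| ≤ lam * q.2} :=
      measurableSet_le (by fun_prop) (by fun_prop)
    have h2 : MeasurableSet {q : ℝ × ℝ | 0 < q.2} :=
      measurableSet_lt measurable_const measurable_snd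
    exact h1.inter h2
  have h1 : ∫⁻ q in {q : ℝ × ℝ | |x - q.1| ≤ lam * q.2 ∧ 0 < q.2},
      ENNReal.ofReal ((deriv (fun z => poi f z q.2) q.1) ^ 2 +
      (deriv (fun y => poi f q.1 y) q.2) ^ 2) =
      ∫⁻ q in {q : ℝ × ℝ | |x - q.1| ≤ lam * q.2 ∧ 0 < q.2}, 0 := by
    refine setLIntegral_congr_fun hs (fun q hq => ?_)
    have h2 : deriv (fun z => poi f z q.2) q.1 = 0 := by
      have : (fun z => poi f z q.2) = fun _ => (0:ℝ) := by
        ext z; exact h z q.2 hq.2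
      rw [this]; simp
    have h3 : deriv (fun y => poi f q.1 y) q.2 = 0 := by
      have : (fun y => poi f q.1 y) =ᶠ[𝓝 q.2] fun _ => (0:ℝ) := by
        filter_upwards [lt_mem_nhds hq.2] with y hy
        exact h q.1 y hy
      rw [this.deriv_eq]; simp
    rw [h2, h3]; simp
  rw [h1]
  simp

theorem star_of_growth (lam b p : ℝ) (hb : 0 < b) (hp : 0 < p) (U : ℝ → ℝ)
    (hU : LocallyIntegrable U) (hU0 : ∀ x, 0 ≤ U x) (hg : Growth U) : Star lam b p U := by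
  refine ⟨1, fun f hf => ?_⟩
  rw [ENNReal.ofReal_one, one_mul]
  by_cases hfin : ∫⁻ x, (ntm b f x) ^ p * ENNReal.ofReal (U x) = ⊤
  · rw [hfin]; exact le_top
  · have h0 : ∀ x, area lam f x = 0 :=
      area_zero lam f (fun t y hy => poi_zero b p hb hp U hU hU0 hg f hf hfin t y hy)
    have h1 : ∫⁻ x, (area lam f x) ^ p * ENNReal.ofReal (U x) = 0 := by
      simp [h0, ENNReal.zero_rpow_of_pos hp]
    rw [h1]
    exact zero_le

end Pool.Agent.Helper107.AR
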