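import Pool.Agent.Helper107.ARa

set_option autoImplicit false
open Filter Topology MeasureTheory

namespace Pool.Agent.Helper107.AR


/-- x^2+w^2 = (x - i w)(x + i w), each factor has imaginary part ∓ Re w, so modulus ≥ ε, hence |x^2+w^2| ≥ ε^2. If |x| ≥ 2‖w‖ then |x^2+w^2| ≥ x^2 - ‖w‖^2 ≥ (3/4) x^2 and x^2 ≥ 4 ε^2. If |x| < 2‖w‖ then 1+x^2 ≤ 1+4‖w‖^2 ≤ 4 (1+‖w‖)^2. Any explicit C such as 10 + 10/ε^2 works. -/
theorem ker_bound (ε : ℝ) (hε : 0 < ε) : ∃ C : ℝ, 0 < C ∧ ∀ (x : ℝ) (w : ℂ), ε ≤ w.re →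
    (x : ℂ) ^ 2 + w ^ 2 ≠ 0 ∧
    ‖((x : ℂ) ^ 2 + w ^ 2)⁻¹‖ ≤ C * (1 + ‖w‖) ^ 2 / (1 + x ^ 2) := by
  refine ⟨10 + 10 / ε ^ 2, by positivity, fun x w hw => ?_⟩
  have hfac : (x : ℂ) ^ 2 + w ^ 2 = ((x : ℂ) - Complex.I * w) * ((x : ℂ) + Complex.I * w) := by
    linear_combination (w ^ 2) * Complex.I_sq
  have h1 : ε ≤ ‖(x : ℂ) - Complex.I * w‖ := by
    have h := Complex.abs_im_le_norm ((x : ℂ) - Complex.I * w)
    rw [Complex.sub_im, Complex.ofReal_im, Complex.I_mul_im, zero_sub, abs_neg] at h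
    exact hw.trans ((le_abs_self _).trans h)
  have h2 : ε ≤ ‖(x : ℂ) + Complex.I * w‖ := by
    have h := Complex.abs_im_le_norm ((x : ℂ) + Complex.I * w)
    rw [Complex.add_im, Complex.ofReal_im, Complex.I_mul_im, zero_add] at h
    exact hw.trans ((le_abs_self _).trans h)
  have hD : ε ^ 2 ≤ ‖(x : ℂ) ^ 2 + w ^ 2‖ := by
    rw [hfac, norm_mul, sq]
    exact mul_le_mul h1 h2 hε.le (norm_nonneg _)
  have hDpos : 0 < ‖(x : ℂ) ^ 2 + w ^ 2‖ := lt_of_lt_of_le (by positivity) hD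
  refine ⟨norm_pos_iff.mp hDpos, ?_⟩
  rw [norm_inv, le_div_iff₀ (by positivity), inv_mul_le_iff₀ hDpos]
  have hw0 : 0 ≤ ‖w‖ := norm_nonneg w
  have hwe : ε ≤ ‖w‖ := hw.trans ((le_abs_self _).trans (Complex.abs_re_le_norm w))
  set D := ‖(x : ℂ) ^ 2 + w ^ 2‖ with hDdef
  have hε2 : 0 < ε ^ 2 := by positivity
  have hC1 : (1 : ℝ) ≤ (1 + ‖w‖) ^ 2 := by nlinarith
  rcases le_or_gt (2 * ‖w‖) |x| with hx | hx
  · have hx2 : 4 * ‖w‖ ^ 2 ≤ x ^ 2 := by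
      have h := mul_self_le_mul_self (by positivity) hx
      rw [abs_mul_abs_self] at h
      nlinarith
    have h3 : x ^ 2 - ‖w‖ ^ 2 ≤ D := by
      have h := norm_sub_le_norm_add ((x : ℂ) ^ 2) (w ^ 2)
      rw [norm_pow, norm_pow, Complex.norm_real, Real.norm_eq_abs, sq_abs] at h
      exact h
    have h4 : 4 * ε ^ 2 ≤ x ^ 2 := by nlinarith
    have h5 : 3 / 4 * x ^ 2 ≤ D := by linarith
    have h6 : 1 ≤ x ^ 2 / (4 * ε ^ 2) := by
      rw [le_div_iff₀ (by positivity)]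
      linarith
    have h7 : x ^ 2 / (4 * ε ^ 2) ≤ D / (3 * ε ^ 2) := by
      rw [div_le_div_iff₀ (by positivity) (by positivity)]
      nlinarith
    have h8 : 1 + x ^ 2 ≤ D * (10 + 10 / ε ^ 2) := by
      have h9 : D / (3 * ε ^ 2) ≤ D * (10 / ε ^ 2) := by
        rw [div_le_iff₀ (by positivity)]
        have : D * (10 / ε ^ 2) * (3 * ε ^ 2) = 30 * D := by
          field_simp
          ring
        rw [this]
        linarith
      have h10 : D * (10 + 10 / ε ^ 2) = 10 * D + D * (10 / ε ^ 2) := by ring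
      rw [h10]
      linarith
    have h11 : 0 ≤ D * (10 + 10 / ε ^ 2) := by positivity
    calc 1 + x ^ 2 ≤ D * (10 + 10 / ε ^ 2) * 1 := by rw [mul_one]; exact h8
      _ ≤ D * (10 + 10 / ε ^ 2) * (1 + ‖w‖) ^ 2 := mul_le_mul_of_nonneg_left hC1 h11
      _ = D * ((10 + 10 / ε ^ 2) * (1 + ‖w‖) ^ 2) := by ring
  · have hx2 : x ^ 2 ≤ 4 * ‖w‖ ^ 2 := by
      have h := mul_self_le_mul_self (abs_nonneg x) hx.le
      rw [abs_mul_abs_self] at h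
      nlinarith
    have h3 : 1 + x ^ 2 ≤ 4 * (1 + ‖w‖) ^ 2 := by nlinarith
    have h4 : 4 ≤ D * (10 + 10 / ε ^ 2) := by
      have h5 : 1 ≤ D * (1 / ε ^ 2) := by
        rw [mul_one_div, le_div_iff₀ hε2]
        linarith
      have h6 : D * (10 + 10 / ε ^ 2) = 10 * D + 10 * (D * (1 / ε ^ 2)) := by ring
      rw [h6]
      linarith
    calc 1 + x ^ 2 ≤ 4 * (1 + ‖w‖) ^ 2 := h3
      _ ≤ D * (10 + 10 / ε ^ 2) * (1 + ‖w‖) ^ 2 := mul_le_mul_of_nonneg_right h4 (by positivity)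
      _ = D * ((10 + 10 / ε ^ 2) * (1 + ‖w‖) ^ 2) := by ring

end Pool.Agent.Helper107.AR
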