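import Pool.Agent.Helper107.ARb

set_option autoImplicit false
open Filter Topology MeasureTheory

namespace Pool.Agent.Helper107.AR


/-- indicator (z-x) = 1 iff z-b ≤ x < z-a; the integral of y/(x^2+y^2) over [z-b, z-a] is arctan((z-a)/y) - arctan((z-b)/y) (integral_eq_sub_of_hasDerivAt with x ↦ arctan (x/y)). -/
theorem poi_ind (a b z y : ℝ) (hab : a ≤ b) (hy : 0 < y) :
    poi (Set.indicator (Set.Ioc a b) (fun _ => (1:ℝ))) z y =
      1 / Real.pi * (Real.arctan ((z - a) / y) - Real.arctan ((z - b) / y)) := by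
  unfold poi
  congr 1
  have h1 : (fun x : ℝ => y * (Set.indicator (Set.Ioc a b) (fun _ => (1:ℝ))) (z - x) / (x ^ 2 + y ^ 2))
      = Set.indicator (Set.Ico (z - b) (z - a)) (fun x : ℝ => y / (x ^ 2 + y ^ 2)) := by
    funext x
    by_cases hx : x ∈ Set.Ico (z - b) (z - a)
    · have hx' : z - x ∈ Set.Ioc a b := ⟨by linarith [hx.2], by linarith [hx.1]⟩
      rw [Set.indicator_of_mem hx, Set.indicator_of_mem hx', mul_one]
    · have hx' : z - x ∉ Set.Ioc a b := by
        intro h
        exact hx ⟨by linarith [h.2], by linarith [h.1]⟩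
      rw [Set.indicator_of_notMem hx, Set.indicator_of_notMem hx', mul_zero, zero_div]
  rw [h1, MeasureTheory.integral_indicator measurableSet_Ico,
    MeasureTheory.integral_Ico_eq_integral_Ioo, ← MeasureTheory.integral_Ioc_eq_integral_Ioo,
    ← intervalIntegral.integral_of_le (by linarith)]
  have hcont : Continuous (fun x : ℝ => y / (x ^ 2 + y ^ 2)) := by
    apply Continuous.div continuous_const (by fun_prop)
    intro x
    positivity
  have hderiv : ∀ x ∈ Set.uIcc (z - b) (z - a),
      HasDerivAt (fun x : ℝ => Real.arctan (x / y)) (y / (x ^ 2 + y ^ 2)) x := by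
    intro x _
    have h2 : HasDerivAt (fun x : ℝ => x / y) (1 / y) x := (hasDerivAt_id x).div_const y
    have h3 := h2.arctan
    convert h3 using 1
    have hy' : y ≠ 0 := hy.ne'
    have h4 : x ^ 2 + y ^ 2 ≠ 0 := by positivity
    have h5 : 1 + (x / y) ^ 2 ≠ 0 := by positivity
    field_simp
    ring
  rw [intervalIntegral.integral_eq_sub_of_hasDerivAt hderiv (hcont.intervalIntegrable _ _)]

end Pool.Agent.Helper107.AR
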