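import Pool.Agent.Helper107.ARb

set_option autoImplicit false
open Filter Topology MeasureTheory

namespace Pool.Agent.Helper107.AR


theorem ntm_ind_mvt (A B M : ℝ) (hBA : B ≤ A) (hM : ∀ s, B ≤ s → s ≤ A → 1 / (1 + s ^ 2) ≤ M) :
    Real.arctan A - Real.arctan B ≤ M * (A - B) := by
  refine Convex.image_sub_le_mul_sub_of_deriv_le (convex_Icc B A)
    Real.continuous_arctan.continuousOn Real.differentiable_arctan.differentiableOn
    (fun s hs => ?_) B (Set.left_mem_Icc.2 hBA) A (Set.right_mem_Icc.2 hBA) hBA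
  have h1 : deriv Real.arctan s = 1 / (1 + s ^ 2) := (Real.hasDerivAt_arctan s).deriv
  rw [h1]
  have := interior_subset hs
  exact hM s this.1 this.2

theorem ntm_ind_bd (b : ℝ) (hb : 0 < b) (x0 R x y z : ℝ) (hR : 0 < R) (hy : 0 < y)
    (hz : |z| ≤ b * y) :
    |1 / Real.pi * (Real.arctan ((x - z - (x0 - R)) / y) - Real.arctan ((x - z - x0) / y))|
      ≤ (3 + 8 * b) * (R / (R + |x - x0|)) := by
  obtain ⟨D, hD⟩ : ∃ D, D = |x - x0| := ⟨_, rfl⟩
  have hD0 : 0 ≤ D := by rw [hD]; exact abs_nonneg _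
  rw [← hD]
  obtain ⟨A, hA⟩ : ∃ A, A = (x - z - (x0 - R)) / y := ⟨_, rfl⟩
  obtain ⟨B, hB⟩ : ∃ B, B = (x - z - x0) / y := ⟨_, rfl⟩
  rw [← hA, ← hB]
  have hAy : A * y = x - z - (x0 - R) := by rw [hA]; field_simp
  have hBy : B * y = x - z - x0 := by rw [hB]; field_simp
  have hABy : (A - B) * y = R := by rw [sub_mul, hAy, hBy]; ring
  have hBA : B ≤ A := by
    by_contra hcon
    push Not at hcon
    nlinarith
  obtain ⟨v, hv⟩ : ∃ v, v = Real.arctan A - Real.arctan B := ⟨_, rfl⟩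
  rw [← hv]
  have hpi := Real.pi_gt_three
  have hv0 : 0 ≤ v := by rw [hv]; exact sub_nonneg.2 (Real.arctan_mono hBA)
  have hvpi : v ≤ Real.pi := by
    rw [hv]
    have h1 := Real.arctan_lt_pi_div_two A
    have h2 := Real.neg_pi_div_two_lt_arctan B
    linarith
  have hpi0 : 0 < Real.pi := Real.pi_pos
  have hu0 : 0 ≤ 1 / Real.pi * v := mul_nonneg (by positivity) hv0
  rw [abs_of_nonneg hu0, ← mul_div_assoc, le_div_iff₀ (by positivity)]
  have hu1 : 1 / Real.pi * v ≤ 1 := by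
    rw [one_div, inv_mul_le_iff₀ hpi0, mul_one]; exact hvpi
  have huv : 1 / Real.pi * v ≤ v := by
    rw [one_div, inv_mul_le_iff₀ hpi0]
    nlinarith
  obtain ⟨u, hu⟩ : ∃ u, u = 1 / Real.pi * v := ⟨_, rfl⟩
  rw [← hu] at hu0 hu1 huv ⊢
  by_cases hc1 : D ≤ 2 * R
  · have h1 : u * (R + D) ≤ 1 * (3 * R) := mul_le_mul hu1 (by linarith) (by positivity) one_pos.le
    nlinarith [mul_pos hb hR]
  push Not at hc1
  have hDpos : 0 < D := by linarith
  by_cases hc2 : b * y ≤ D / 4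
  · have hzabs : |z| ≤ D / 4 := hz.trans hc2
    have hw : 3 * D / 4 ≤ |x - z - x0| := by
      have h1 : |x - x0| ≤ |x - z - x0| + |z| := by
        have := abs_add_le (x - z - x0) z
        rwa [show x - z - x0 + z = x - x0 by ring] at this
      rw [← hD] at h1
      linarith
    have hM : ∀ s, B ≤ s → s ≤ A → 1 / (1 + s ^ 2) ≤ 16 * y ^ 2 / (16 * y ^ 2 + D ^ 2) := by
      intro s hs1 hs2
      have h1 : x - z - x0 ≤ s * y := by rw [← hBy]; exact mul_le_mul_of_nonneg_right hs1 hy.le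
      have h2 : s * y ≤ x - z - x0 + R := by
        have := mul_le_mul_of_nonneg_right hs2 hy.le
        rw [hAy] at this
        linarith
      have h3 : D / 4 ≤ |s * y| := by
        rcases le_total 0 (x - z - x0) with h4 | h4
        · rw [abs_of_nonneg h4] at hw
          rw [abs_of_nonneg (by linarith)]
          linarith
        · rw [abs_of_nonpos h4] at hw
          rw [abs_of_nonpos (by linarith)]
          linarith
      have h4 : (D / 4) ^ 2 ≤ s ^ 2 * y ^ 2 := by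
        have := pow_le_pow_left₀ (by positivity) h3 2
        rw [sq_abs] at this
        calc (D / 4) ^ 2 ≤ (s * y) ^ 2 := this
          _ = s ^ 2 * y ^ 2 := by ring
      rw [div_le_div_iff₀ (by positivity) (by positivity)]
      nlinarith
    have h5 := ntm_ind_mvt A B _ hBA hM
    rw [← hv] at h5
    have h6 : v * D ≤ 2 * R := by
      have h7 : v * y * (16 * y ^ 2 + D ^ 2) ≤ 16 * y ^ 2 * R := by
        calc v * y * (16 * y ^ 2 + D ^ 2)
            ≤ (16 * y ^ 2 / (16 * y ^ 2 + D ^ 2) * (A - B)) * y * (16 * y ^ 2 + D ^ 2) := by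
              gcongr
          _ = 16 * y ^ 2 * ((A - B) * y) := by field_simp
          _ = 16 * y ^ 2 * R := by rw [hABy]
      have h8 : 8 * y * D ≤ 16 * y ^ 2 + D ^ 2 := by nlinarith [sq_nonneg (4 * y - D)]
      have h9 : v * y * (8 * y * D) ≤ 16 * y ^ 2 * R :=
        (mul_le_mul_of_nonneg_left h8 (by positivity)).trans h7
      have h10 : 8 * y ^ 2 * (v * D) ≤ 8 * y ^ 2 * (2 * R) := by nlinarith
      exact le_of_mul_le_mul_left h10 (by positivity)
    have h11 : u * (R + D) ≤ v * (3 / 2 * D) :=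
      mul_le_mul huv (by linarith) (by positivity) hv0
    nlinarith [mul_pos hb hR]
  · push Not at hc2
    have h5 := ntm_ind_mvt A B 1 hBA (fun s _ _ => by
      rw [div_le_one (by positivity)]; nlinarith [sq_nonneg s])
    rw [← hv, one_mul] at h5
    have h6 : v * y ≤ R := by
      calc v * y ≤ (A - B) * y := mul_le_mul_of_nonneg_right h5 hy.le
        _ = R := hABy
    have h7 : v * D ≤ 4 * b * R := by
      have h8 : v * D ≤ v * (4 * (b * y)) := mul_le_mul_of_nonneg_left (by linarith) hv0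
      calc v * D ≤ v * (4 * (b * y)) := h8
        _ = 4 * b * (v * y) := by ring
        _ ≤ 4 * b * R := mul_le_mul_of_nonneg_left h6 (by positivity)
    have h11 : u * (R + D) ≤ v * (3 / 2 * D) :=
      mul_le_mul huv (by linarith) (by positivity) hv0
    nlinarith [mul_pos hb hR]

/-- u = poi (ff x0 R) w y = (1/π)(arctan A - arctan B) with A = (w-x0+R)/y, B = (w-x0)/y, A-B = R/y, so 0 ≤ u ≤ 1 and (mean value theorem, arctan has derivative 1/(1+s^2)) u ≤ (1/π) (R/y) sup_{s in [B,A]} 1/(1+s^2). Put D = |x-x0|, w = x - z, |z| ≤ b y. If D ≤ 2R: u ≤ 1 ≤ 3 R/(R+D). If D > 2R and b y ≤ D/4: |s y| ≥ D/4 for s in [B,A], so u ≤ (1/π) R y/(y^2+(D/4)^2) ≤ (1/π) 2 R/D. If D > 2R and b y > D/4: u ≤ (1/π) R/y ≤ (4 b/π) R/D. And 1/D ≤ 2/(R+D) (as D>R). C = 3 + 4 + 8 b works. -/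
theorem ntm_ind (b : ℝ) (hb : 0 < b)
    (hpoi : ∀ a b z y : ℝ, a ≤ b → 0 < y → poi (Set.indicator (Set.Ioc a b) (fun _ => (1:ℝ))) z y =
      1 / Real.pi * (Real.arctan ((z - a) / y) - Real.arctan ((z - b) / y)))
    : ∃ C : ℝ, 0 < C ∧ ∀ x0 R x : ℝ, 0 < R →
      ntm b (ff x0 R) x ≤ ENNReal.ofReal (C * (R / (R + |x - x0|))) := by
  refine ⟨3 + 8 * b, by positivity, fun x0 R x hR => ?_⟩
  refine iSup_le fun y => iSup_le fun hy => iSup_le fun z => iSup_le fun hz => ?_
  refine ENNReal.ofReal_le_ofReal ?_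
  have h1 : poi (ff x0 R) (x - z) y = 1 / Real.pi * (Real.arctan ((x - z - (x0 - R)) / y) -
      Real.arctan ((x - z - x0) / y)) := hpoi (x0 - R) x0 (x - z) y (by linarith) hy
  rw [h1]
  exact ntm_ind_bd b hb x0 R x y z hR hy hz

end Pool.Agent.Helper107.AR
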