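import Pool.Agent.Helper107.ARb

set_option autoImplicit false
open Filter Topology MeasureTheory

namespace Pool.Agent.Helper107.AR



theorem area_ind_aux1 (lam x0 R x z y L : ℝ) (hl : 0 < lam) (hL : L = 1 + (lam + 1) ^ 2) (hR : 0 < R)
    (hpoi : ∀ a b z y : ℝ, a ≤ b → 0 < y → poi (Set.indicator (Set.Ioc a b) (fun _ => (1:ℝ))) z y =
      1 / Real.pi * (Real.arctan ((z - a) / y) - Real.arctan ((z - b) / y)))
    (hy : 0 < y) (h1 : |x - x0| ≤ y) (h2 : y ≤ 1 / (8 * L) * R) (h3 : |x - z| ≤ lam * y) :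
    (1 / (2 * Real.pi * L * y)) ^ 2 ≤ (deriv (fun z => poi (ff x0 R) z y) z) ^ 2 := by
  have hLpos : 1 ≤ L := by rw [hL]; nlinarith [sq_nonneg (lam+1)]
  have hL0 : 0 < L := by linarith
  have hLl : lam + 1 ≤ L := by rw [hL]; nlinarith [sq_nonneg (lam+1)]
  have hfun : (fun z => poi (ff x0 R) z y) = fun z => 1 / Real.pi * (Real.arctan ((z - (x0 - R)) / y) - Real.arctan ((z - x0) / y)) := by
    funext z'
    exact hpoi (x0 - R) x0 z' y (by linarith) hy
  have hd : HasDerivAt (fun z => 1 / Real.pi * (Real.arctan ((z - (x0 - R)) / y) - Real.arctan ((z - x0) / y)))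
      (1 / Real.pi * ((1 / (1 + ((z - (x0 - R)) / y) ^ 2)) * (1 / y) - (1 / (1 + ((z - x0) / y) ^ 2)) * (1 / y))) z := by
    have e1 : HasDerivAt (fun z : ℝ => (z - (x0 - R)) / y) (1 / y) z := by
      simpa using ((hasDerivAt_id z).sub_const (x0 - R)).div_const y
    have e2 : HasDerivAt (fun z : ℝ => (z - x0) / y) (1 / y) z := by
      simpa using ((hasDerivAt_id z).sub_const x0).div_const y
    exact ((e1.arctan).sub (e2.arctan)).const_mul (1 / Real.pi)
  rw [hfun, hd.deriv]
  set A := (1 / (1 + ((z - (x0 - R)) / y) ^ 2)) * (1 / y) with hA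
  set B := (1 / (1 + ((z - x0) / y) ^ 2)) * (1 / y) with hB
  have hzx : |z - x0| ≤ (lam + 1) * y := by
    have : |z - x0| ≤ |x - z| + |x - x0| := by
      have := abs_sub_le z x x0
      rw [abs_sub_comm z x] at this
      exact this
    linarith
  have hBl : 1 / (L * y) ≤ B := by
    rw [hB, ← one_div_mul_one_div]
    apply mul_le_mul_of_nonneg_right _ (by positivity)
    apply one_div_le_one_div_of_le (by positivity)
    have : ((z - x0) / y) ^ 2 ≤ (lam + 1) ^ 2 := by
      rw [← sq_abs, abs_div, abs_of_pos hy]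
      have h0 : 0 ≤ |z - x0| / y := by positivity
      have h5 : |z - x0| / y ≤ lam + 1 := by rw [div_le_iff₀ hy]; exact hzx
      nlinarith
    rw [hL]; linarith
  have hAu : A ≤ 1 / (2 * L * y) := by
    rw [hA, ← one_div_mul_one_div]
    apply mul_le_mul_of_nonneg_right _ (by positivity)
    apply one_div_le_one_div_of_le (by positivity)
    have h6 : 4 * L ≤ (z - (x0 - R)) / y := by
      rw [le_div_iff₀ hy]
      have h7 := (abs_le.mp hzx).1
      have h8 : 8 * L * y ≤ R := by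
        have : 1 / (8 * L) * R = R / (8 * L) := by ring
        rw [this, le_div_iff₀ (by positivity)] at h2
        linarith
      nlinarith
    nlinarith
  have hdiff : 1 / (2 * L * y) ≤ B - A := by
    have : 1 / (L * y) = 1 / (2 * L * y) + 1 / (2 * L * y) := by field_simp; ring
    linarith
  have hpi := Real.pi_pos
  have hkey : 1 / (2 * Real.pi * L * y) ≤ 1 / Real.pi * (B - A) := by
    have : 1 / (2 * Real.pi * L * y) = 1 / Real.pi * (1 / (2 * L * y)) := by field_simp
    rw [this]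
    exact mul_le_mul_of_nonneg_left hdiff (by positivity)
  have h0 : 0 ≤ 1 / (2 * Real.pi * L * y) := by positivity
  calc (1 / (2 * Real.pi * L * y)) ^ 2 ≤ (1 / Real.pi * (B - A)) ^ 2 := by
        exact pow_le_pow_left₀ h0 hkey 2
    _ = (1 / Real.pi * (A - B)) ^ 2 := by ring

theorem area_ind_aux2 (lam x d K c0 : ℝ) (hl : 0 < lam) (hd : 0 < d) (hdK : d ≤ K) (hc0 : 0 ≤ c0) :
    ENNReal.ofReal (2 * lam * c0 * Real.log (K / d)) ≤
      ∫⁻ q in {q : ℝ × ℝ | d ≤ q.2 ∧ q.2 ≤ K ∧ |x - q.1| ≤ lam * q.2},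
        ENNReal.ofReal (c0 / q.2 ^ 2) := by
  set S : Set (ℝ × ℝ) := {q : ℝ × ℝ | d ≤ q.2 ∧ q.2 ≤ K ∧ |x - q.1| ≤ lam * q.2} with hS
  have hSm : MeasurableSet S := by
    apply MeasurableSet.inter
    · exact measurableSet_le measurable_const measurable_snd
    apply MeasurableSet.inter
    · exact measurableSet_le measurable_snd measurable_const
    · exact measurableSet_le ((measurable_const.sub measurable_fst).abs) (measurable_snd.const_mul lam)
  have hfm : Measurable (fun q : ℝ × ℝ => ENNReal.ofReal (c0 / q.2 ^ 2)) :=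
    (measurable_const.div (measurable_snd.pow_const 2)).ennreal_ofReal
  rw [← lintegral_indicator hSm, Measure.volume_eq_prod,
    lintegral_prod_symm _ ((hfm.indicator hSm).aemeasurable)]
  have hinner : ∀ y ∈ Set.Icc d K, ENNReal.ofReal (2 * lam * c0 * (1 / y)) ≤
      ∫⁻ z, S.indicator (fun q : ℝ × ℝ => ENNReal.ofReal (c0 / q.2 ^ 2)) (z, y) := by
    intro y hy
    have hy0 : 0 < y := lt_of_lt_of_le hd hy.1
    have : ∀ z, (Set.Icc (x - lam * y) (x + lam * y)).indicator (fun _ => ENNReal.ofReal (c0 / y ^ 2)) z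
        ≤ S.indicator (fun q : ℝ × ℝ => ENNReal.ofReal (c0 / q.2 ^ 2)) (z, y) := by
      intro z
      by_cases hz : z ∈ Set.Icc (x - lam * y) (x + lam * y)
      · have hzS : (z, y) ∈ S := by
          refine ⟨hy.1, hy.2, ?_⟩
          rw [abs_le]; constructor <;> simp <;> linarith [hz.1, hz.2]
        rw [Set.indicator_of_mem hz, Set.indicator_of_mem hzS]
      · rw [Set.indicator_of_notMem hz]; exact bot_le
    calc ENNReal.ofReal (2 * lam * c0 * (1 / y))
        = ∫⁻ z, (Set.Icc (x - lam * y) (x + lam * y)).indicator (fun _ => ENNReal.ofReal (c0 / y ^ 2)) z := by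
          rw [lintegral_indicator measurableSet_Icc, setLIntegral_const, Real.volume_Icc,
            ← ENNReal.ofReal_mul (by positivity)]
          congr 1
          field_simp
          ring
      _ ≤ _ := lintegral_mono this
  have hint : IntegrableOn (fun y : ℝ => 2 * lam * c0 * (1 / y)) (Set.Icc d K) := by
    apply ContinuousOn.integrableOn_Icc
    apply ContinuousOn.mul continuousOn_const
    apply ContinuousOn.div continuousOn_const continuousOn_id
    intro y hy
    exact (lt_of_lt_of_le hd hy.1).ne'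
  calc ENNReal.ofReal (2 * lam * c0 * Real.log (K / d))
      = ENNReal.ofReal (∫ y in Set.Icc d K, 2 * lam * c0 * (1 / y)) := by
        congr 1
        rw [MeasureTheory.integral_Icc_eq_integral_Ioc, ← intervalIntegral.integral_of_le hdK,
          intervalIntegral.integral_const_mul, integral_one_div_of_pos hd (lt_of_lt_of_le hd hdK)]
    _ = ∫⁻ y in Set.Icc d K, ENNReal.ofReal (2 * lam * c0 * (1 / y)) := by
        apply ofReal_integral_eq_lintegral_ofReal hint
        filter_upwards [ae_restrict_mem measurableSet_Icc] with y hy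
        have hy0 : 0 < y := lt_of_lt_of_le hd hy.1
        show (0:ℝ) ≤ 2 * lam * c0 * (1 / y)
        positivity
    _ ≤ ∫⁻ y in Set.Icc d K, ∫⁻ z, S.indicator (fun q : ℝ × ℝ => ENNReal.ofReal (c0 / q.2 ^ 2)) (z, y) := by
        apply setLIntegral_mono' measurableSet_Icc
        intro y hy; exact hinner y hy
    _ ≤ ∫⁻ y, ∫⁻ z, S.indicator (fun q : ℝ × ℝ => ENNReal.ofReal (c0 / q.2 ^ 2)) (z, y) :=
        setLIntegral_le_lintegral _ _

/-- area^2 is the inner lintegral (ENNReal.rpow_mul). Let d = |x-x0|, L = 1+(lam+1)^2, κ small: κ (lam+1) ≤ 1/4 and 4 κ^2 L ≤ 1/2. Restrict to q=(z,y) with d ≤ y ≤ κR, |x-z| ≤ lam y; then |z-x0| ≤ (lam+1) y ≤ R/4. By hpoi, near q.1 the function z ↦ poi (ff x0 R) z y equals (1/π)(arctan((z-x0+R)/y) - arctan((z-x0)/y)), derivative (1/π)(y/(y^2+(z-x0+R)^2) - y/(y^2+(z-x0)^2)); the first term is ≤ y/(R/2)^2 = 4y/R^2, the second is ≥ 1/(y L), and 4y/R^2 ≤ 4κ^2/y ≤ 1/(2 y L). So the squared derivative is ≥ (1/(2πL y))^2, and ∫⁻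 over the region (Tonelli: setLIntegral over the product, use Measure.volume_eq_prod, lintegral_prod or lintegral_prod_symm) ≥ ∫_{y=d}^{κR} 2 lam y (1/(2πL))^2/y^2 dy = 2 lam/(2πL)^2 log(κR/d). -/
theorem area_ind (lam : ℝ) (hl : 0 < lam)
    (hpoi : ∀ a b z y : ℝ, a ≤ b → 0 < y → poi (Set.indicator (Set.Ioc a b) (fun _ => (1:ℝ))) z y =
      1 / Real.pi * (Real.arctan ((z - a) / y) - Real.arctan ((z - b) / y)))
    : ∃ c κ : ℝ, 0 < c ∧ 0 < κ ∧ κ ≤ 1 ∧ ∀ x0 R x : ℝ, 0 < R → x ≠ x0 → |x - x0| ≤ κ * R →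
      ENNReal.ofReal (c * Real.log (κ * R / |x - x0|)) ≤ (area lam (ff x0 R) x) ^ (2 : ℝ) := by
  set L : ℝ := 1 + (lam + 1) ^ 2 with hL
  have hLpos : 1 ≤ L := by rw [hL]; nlinarith [sq_nonneg (lam+1)]
  have hL0 : 0 < L := by linarith
  have hpi := Real.pi_pos
  refine ⟨2 * lam * (1 / (2 * Real.pi * L)) ^ 2, 1 / (8 * L), by positivity, by positivity, ?_, ?_⟩
  · rw [div_le_one (by positivity)]; linarith
  intro x0 R x hR hx hxR
  have hd : 0 < |x - x0| := abs_pos.mpr (sub_ne_zero.mpr hx)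
  have hsq : (area lam (ff x0 R) x) ^ (2 : ℝ) = ∫⁻ q in {q : ℝ × ℝ | |x - q.1| ≤ lam * q.2 ∧ 0 < q.2},
      ENNReal.ofReal ((deriv (fun z => poi (ff x0 R) z q.2) q.1) ^ 2 +
        (deriv (fun y => poi (ff x0 R) q.1 y) q.2) ^ 2) := by
    rw [area, ← ENNReal.rpow_mul]
    norm_num
  rw [hsq]
  set S : Set (ℝ × ℝ) := {q : ℝ × ℝ | |x - x0| ≤ q.2 ∧ q.2 ≤ 1 / (8 * L) * R ∧ |x - q.1| ≤ lam * q.2} with hS
  have hSm : MeasurableSet S := by
    apply MeasurableSet.inter
    · exact measurableSet_le measurable_const measurable_snd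
    apply MeasurableSet.inter
    · exact measurableSet_le measurable_snd measurable_const
    · exact measurableSet_le ((measurable_const.sub measurable_fst).abs) (measurable_snd.const_mul lam)
  calc ENNReal.ofReal (2 * lam * (1 / (2 * Real.pi * L)) ^ 2 * Real.log (1 / (8 * L) * R / |x - x0|))
      ≤ ∫⁻ q in S, ENNReal.ofReal ((1 / (2 * Real.pi * L)) ^ 2 / q.2 ^ 2) :=
        area_ind_aux2 lam x (|x - x0|) (1 / (8 * L) * R) ((1 / (2 * Real.pi * L)) ^ 2) hl hd hxR (by positivity)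
    _ ≤ ∫⁻ q in S, ENNReal.ofReal ((deriv (fun z => poi (ff x0 R) z q.2) q.1) ^ 2 +
        (deriv (fun y => poi (ff x0 R) q.1 y) q.2) ^ 2) := by
        apply setLIntegral_mono' hSm
        intro q hq
        apply ENNReal.ofReal_le_ofReal
        have hq2 : 0 < q.2 := lt_of_lt_of_le hd hq.1
        have := area_ind_aux1 lam x0 R x q.1 q.2 L hl hL hR hpoi hq2 hq.1 hq.2.1 hq.2.2
        have e : (1 / (2 * Real.pi * L)) ^ 2 / q.2 ^ 2 = (1 / (2 * Real.pi * L * q.2)) ^ 2 := by
          field_simp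
        rw [e]
        linarith [sq_nonneg (deriv (fun y => poi (ff x0 R) q.1 y) q.2)]
    _ ≤ _ := by
        apply lintegral_mono_set
        intro q hq
        exact ⟨hq.2.2, lt_of_lt_of_le hd hq.1⟩

end Pool.Agent.Helper107.AR
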