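import Pool.Agent.Helper107.ARb

set_option autoImplicit false
open Filter Topology MeasureTheory

namespace Pool.Agent.Helper107.AR


/-- ff x0 R is integrable against 1/(1+t^2). Case r ≤ κ^2 R: for x ≠ x0, |x-x0| ≤ r, κR/|x-x0| ≥ κR/r ≥ (R/r)^(1/2) so c log(κR/|x-x0|) ≥ (c/2) log(R/r), hence area^p = (area^2)^(p/2) ≥ ofReal(((c/2) log(R/r))^(p/2)) on the interval (a.e.), and Star gives the claim with constant (2/c)^(p/2) C^p C0 (C0 = Star constant, use max C0 0). Case r > κ^2 R: log(R/r) ≤ 2 log(1/κ) =: m, and R/(R+|x-x0|) ≥ 1/2 on the interval (r ≤ R), so the left side is ≤ m^(p/2) 2^p ∫⁻ (R/(R+|x-x0|))^p U. K = sum of the two constants + 1. -/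
theorem necessary (lam b p : ℝ) (hl : 0 < lam) (hb : 0 < b) (hp : 0 < p)
    (hN : ∃ C : ℝ, 0 < C ∧ ∀ x0 R x : ℝ, 0 < R →
      ntm b (ff x0 R) x ≤ ENNReal.ofReal (C * (R / (R + |x - x0|))))
    (hS : ∃ c κ : ℝ, 0 < c ∧ 0 < κ ∧ κ ≤ 1 ∧ ∀ x0 R x : ℝ, 0 < R → x ≠ x0 → |x - x0| ≤ κ * R →
      ENNReal.ofReal (c * Real.log (κ * R / |x - x0|)) ≤ (area lam (ff x0 R) x) ^ (2 : ℝ))
    (U : ℝ → ℝ) (hU : LocallyIntegrable U) (hU0 : ∀ x, 0 ≤ U x) (hs : Star lam b p U) :
    ∃ K : ℝ, 0 < K ∧ ∀ x0 r R : ℝ, 0 < r → r ≤ R →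
      ENNReal.ofReal (Real.log (R / r) ^ (p / 2)) * ∫⁻ x in Set.Icc (x0 - r) (x0 + r), ENNReal.ofReal (U x) ≤
        ENNReal.ofReal K * ∫⁻ x, ENNReal.ofReal ((R / (R + |x - x0|)) ^ p * U x) := by
  obtain ⟨C, hC, hN⟩ := hN
  obtain ⟨c, κ, hc, hκ, hκ1, hS⟩ := hS
  obtain ⟨C0, hC0⟩ := hs
  set A1 : ℝ := (2 / c) ^ (p / 2) * max C0 0 * C ^ p with hA1
  set A2 : ℝ := (2 * Real.log (1 / κ)) ^ (p / 2) * 2 ^ p with hA2
  have hA1n : 0 ≤ A1 := by positivity
  have hlogκ : 0 ≤ Real.log (1 / κ) := Real.log_nonneg (by rw [le_div_iff₀ hκ]; linarith)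
  have hA2n : 0 ≤ A2 := by positivity
  refine ⟨A1 + A2 + 1, by positivity, ?_⟩
  intro x0 r R hr hrR
  have hR : 0 < R := lt_of_lt_of_le hr hrR
  have hL : 0 ≤ Real.log (R / r) := Real.log_nonneg (by rw [le_div_iff₀ hr]; linarith)
  have hρ : ∀ x, 0 ≤ R / (R + |x - x0|) := fun x => by positivity
  set I : ENNReal := ∫⁻ x, ENNReal.ofReal ((R / (R + |x - x0|)) ^ p * U x) with hI
  have key : ENNReal.ofReal (Real.log (R / r) ^ (p / 2)) *
      ∫⁻ x in Set.Icc (x0 - r) (x0 + r), ENNReal.ofReal (U x) ≤ ENNReal.ofReal A1 * I ∨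
      ENNReal.ofReal (Real.log (R / r) ^ (p / 2)) *
      ∫⁻ x in Set.Icc (x0 - r) (x0 + r), ENNReal.ofReal (U x) ≤ ENNReal.ofReal A2 * I := by
    by_cases hcase : r ≤ κ ^ 2 * R
    · left
      -- integrability of the test function
      have hint : Integrable (fun t => ff x0 R t / (1 + t ^ 2)) := by
        have h1 : (fun t => ff x0 R t / (1 + t ^ 2)) =
            Set.indicator (Set.Ioc (x0 - R) x0) (fun t : ℝ => 1 / (1 + t ^ 2)) := by
          funext t
          unfold ff
          by_cases ht : t ∈ Set.Ioc (x0 - R) x0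
          · simp [Set.indicator_of_mem ht]
          · simp [Set.indicator_of_notMem ht]
        rw [h1, integrable_indicator_iff measurableSet_Ioc]
        have hcont : Continuous (fun t : ℝ => 1 / (1 + t ^ 2)) := by
          apply Continuous.div continuous_const (by fun_prop)
          intro t
          positivity
        exact (hcont.integrableOn_Icc (a := x0 - R) (b := x0)).mono_set Set.Ioc_subset_Icc_self
      have hst := hC0 (ff x0 R) hint
      -- lower bound for the area integral
      have hlow : ENNReal.ofReal ((c / 2 * Real.log (R / r)) ^ (p / 2)) *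
          ∫⁻ x in Set.Icc (x0 - r) (x0 + r), ENNReal.ofReal (U x) ≤
          ∫⁻ x, (area lam (ff x0 R) x) ^ p * ENNReal.ofReal (U x) := by
        rw [← lintegral_const_mul' _ _ ENNReal.ofReal_ne_top]
        refine le_trans ?_ (setLIntegral_le_lintegral (Set.Icc (x0 - r) (x0 + r)) _)
        apply lintegral_mono_ae
        have hae : ∀ᵐ x ∂(volume.restrict (Set.Icc (x0 - r) (x0 + r))), x ≠ x0 := by
          apply ae_restrict_of_ae
          exact Measure.ae_ne volume x0
        filter_upwards [hae, ae_restrict_mem measurableSet_Icc] with x hx hxI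
        gcongr
        have hd : 0 < |x - x0| := abs_pos.mpr (sub_ne_zero.mpr hx)
        have hdr : |x - x0| ≤ r := abs_le.mpr ⟨by linarith [hxI.1], by linarith [hxI.2]⟩
        have hκκ : κ ^ 2 * R ≤ κ * R := by
          apply mul_le_mul_of_nonneg_right _ hR.le
          nlinarith
        have h1 := hS x0 R x hR hx (hdr.trans (hcase.trans hκκ))
        have h2 : c / 2 * Real.log (R / r) ≤ c * Real.log (κ * R / |x - x0|) := by
          have h3 : Real.log (R / r) ≤ 2 * Real.log (κ * R / |x - x0|) := by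
            have h4 : R / r ≤ (κ * R / |x - x0|) ^ 2 := by
              have h5 : κ * R / r ≤ κ * R / |x - x0| := by gcongr
              have h6 : (κ * R / r) ^ 2 ≤ (κ * R / |x - x0|) ^ 2 := by gcongr
              refine le_trans ?_ h6
              rw [div_pow, div_le_div_iff₀ hr (by positivity)]
              have : 0 ≤ R * r * (κ ^ 2 * R - r) := by
                apply mul_nonneg (by positivity)
                linarith
              nlinarith
            calc Real.log (R / r) ≤ Real.log ((κ * R / |x - x0|) ^ 2) :=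
                  Real.log_le_log (by positivity) h4
              _ = 2 * Real.log (κ * R / |x - x0|) := by rw [Real.log_pow]; norm_num
          nlinarith
        calc ENNReal.ofReal ((c / 2 * Real.log (R / r)) ^ (p / 2))
            = (ENNReal.ofReal (c / 2 * Real.log (R / r))) ^ (p / 2) :=
              (ENNReal.ofReal_rpow_of_nonneg (by positivity) (by positivity)).symm
          _ ≤ (ENNReal.ofReal (c * Real.log (κ * R / |x - x0|))) ^ (p / 2) := by
              gcongr
          _ ≤ ((area lam (ff x0 R) x) ^ (2 : ℝ)) ^ (p / 2) := by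
              gcongr
          _ = (area lam (ff x0 R) x) ^ p := by
              rw [← ENNReal.rpow_mul]
              congr 1
              ring
      -- upper bound for the maximal function
      have hup : ∫⁻ x, (ntm b (ff x0 R) x) ^ p * ENNReal.ofReal (U x) ≤ ENNReal.ofReal (C ^ p) * I := by
        rw [hI, ← lintegral_const_mul' _ _ ENNReal.ofReal_ne_top]
        apply lintegral_mono
        intro x
        simp only
        have h1 := hN x0 R x hR
        calc (ntm b (ff x0 R) x) ^ p * ENNReal.ofReal (U x)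
            ≤ (ENNReal.ofReal (C * (R / (R + |x - x0|)))) ^ p * ENNReal.ofReal (U x) := by
              gcongr
          _ = ENNReal.ofReal (C ^ p) * ENNReal.ofReal ((R / (R + |x - x0|)) ^ p * U x) := by
              rw [ENNReal.ofReal_rpow_of_nonneg (mul_nonneg hC.le (hρ x)) hp.le,
                Real.mul_rpow hC.le (hρ x), ENNReal.ofReal_mul (by positivity),
                ENNReal.ofReal_mul (Real.rpow_nonneg (hρ x) p), mul_assoc]
      have hcc : ENNReal.ofReal (Real.log (R / r) ^ (p / 2)) =
          ENNReal.ofReal ((2 / c) ^ (p / 2)) * ENNReal.ofReal ((c / 2 * Real.log (R / r)) ^ (p / 2)) := by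
        rw [← ENNReal.ofReal_mul (by positivity), ← Real.mul_rpow (by positivity) (by positivity)]
        congr 2
        field_simp
      calc ENNReal.ofReal (Real.log (R / r) ^ (p / 2)) *
            ∫⁻ x in Set.Icc (x0 - r) (x0 + r), ENNReal.ofReal (U x)
          = ENNReal.ofReal ((2 / c) ^ (p / 2)) * (ENNReal.ofReal ((c / 2 * Real.log (R / r)) ^ (p / 2)) *
            ∫⁻ x in Set.Icc (x0 - r) (x0 + r), ENNReal.ofReal (U x)) := by
            rw [hcc, mul_assoc]
        _ ≤ ENNReal.ofReal ((2 / c) ^ (p / 2)) * (ENNReal.ofReal (max C0 0) * (ENNReal.ofReal (C ^ p) * I)) := by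
            refine mul_le_mul' le_rfl (hlow.trans (hst.trans (mul_le_mul' ?_ hup)))
            exact ENNReal.ofReal_le_ofReal (le_max_left _ _)
        _ = ENNReal.ofReal A1 * I := by
            rw [hA1, ENNReal.ofReal_mul (by positivity), ENNReal.ofReal_mul (by positivity)]
            ring
    · right
      push Not at hcase
      have hm : Real.log (R / r) ≤ 2 * Real.log (1 / κ) := by
        have h1 : R / r ≤ (1 / κ) ^ 2 := by
          rw [div_pow, one_pow, div_le_div_iff₀ hr (by positivity)]
          nlinarith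
        calc Real.log (R / r) ≤ Real.log ((1 / κ) ^ 2) := Real.log_le_log (by positivity) h1
          _ = 2 * Real.log (1 / κ) := by rw [Real.log_pow]; norm_num
      have hset : ∫⁻ x in Set.Icc (x0 - r) (x0 + r), ENNReal.ofReal (U x) ≤ ENNReal.ofReal (2 ^ p) * I := by
        rw [hI, ← lintegral_const_mul' _ _ ENNReal.ofReal_ne_top]
        refine le_trans ?_ (setLIntegral_le_lintegral (Set.Icc (x0 - r) (x0 + r)) _)
        apply setLIntegral_mono' measurableSet_Icc
        intro x hx
        rw [← ENNReal.ofReal_mul (by positivity)]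
        apply ENNReal.ofReal_le_ofReal
        have hdr : |x - x0| ≤ R := (abs_le.mpr ⟨by linarith [hx.1], by linarith [hx.2]⟩)
        have h2 : 1 ≤ 2 * (R / (R + |x - x0|)) := by
          rw [mul_div_assoc', le_div_iff₀ (by positivity)]
          linarith
        have h3 : 1 ≤ (2 * (R / (R + |x - x0|))) ^ p := Real.one_le_rpow h2 hp.le
        rw [Real.mul_rpow (by norm_num) (hρ x)] at h3
        calc U x = 1 * U x := (one_mul _).symm
          _ ≤ (2 ^ p * (R / (R + |x - x0|)) ^ p) * U x := mul_le_mul_of_nonneg_right h3 (hU0 x)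
          _ = 2 ^ p * ((R / (R + |x - x0|)) ^ p * U x) := by ring
      calc ENNReal.ofReal (Real.log (R / r) ^ (p / 2)) *
            ∫⁻ x in Set.Icc (x0 - r) (x0 + r), ENNReal.ofReal (U x)
          ≤ ENNReal.ofReal ((2 * Real.log (1 / κ)) ^ (p / 2)) * (ENNReal.ofReal (2 ^ p) * I) := by
            gcongr
        _ = ENNReal.ofReal A2 * I := by
            rw [hA2, ENNReal.ofReal_mul (by positivity), mul_assoc]
  rcases key with h | h
  · refine h.trans ?_
    gcongr
    linarith
  · refine h.trans ?_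
    gcongr
    linarith

end Pool.Agent.Helper107.AR
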