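import Mathlib

set_option autoImplicit false
open Filter Topology MeasureTheory

namespace Pool.Agent.Helper107.AR

/-- the Poisson integral of `f` at the point `(z, y)` of the upper half plane -/
noncomputable def poi (f : ℝ → ℝ) (z y : ℝ) : ℝ :=
  1 / Real.pi * ∫ x, y * f (z - x) / (x ^ 2 + y ^ 2)

/-- the area function -/
noncomputable def area (lam : ℝ) (f : ℝ → ℝ) (x : ℝ) : ENNReal :=
  (∫⁻ q in {q : ℝ × ℝ | |x - q.1| ≤ lam * q.2 ∧ 0 < q.2},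
    ENNReal.ofReal ((deriv (fun z => poi f z q.2) q.1) ^ 2 +
      (deriv (fun y => poi f q.1 y) q.2) ^ 2)) ^ (1 / 2 : ℝ)

/-- the non-tangential maximal function -/
noncomputable def ntm (b : ℝ) (f : ℝ → ℝ) (x : ℝ) : ENNReal :=
  ⨆ (y : ℝ) (_ : 0 < y) (z : ℝ) (_ : |z| ≤ b * y), ENNReal.ofReal |poi f (x - z) y|

/-- inequality (star) for the weight `U` -/
def Star (lam b p : ℝ) (U : ℝ → ℝ) : Prop :=
  ∃ C : ℝ, ∀ f : ℝ → ℝ, Integrable (fun t => f t / (1 + t ^ 2)) →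
    ∫⁻ x, (area lam f x) ^ p * ENNReal.ofReal (U x) ≤
      ENNReal.ofReal C * ∫⁻ x, (ntm b f x) ^ p * ENNReal.ofReal (U x)

/-- the class of weights `A_∞` -/
def AInfty (U : ℝ → ℝ) : Prop :=
  ∃ C ε : ℝ, 0 < C ∧ 0 < ε ∧ ∀ a b : ℝ, a < b → ∀ E : Set ℝ, MeasurableSet E → E ⊆ Set.Icc a b →
    ∫ x in E, U x ≤ C * (volume.real E / (b - a)) ^ ε * ∫ x in Set.Icc a b, U x

/-- growth faster than every exponential -/
def Growth (U : ℝ → ℝ) : Prop :=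
  ∀ c : ℝ, ∃ R : ℝ, ∀ r : ℝ, R ≤ r → Real.exp (c * r) ≤ ∫ x in Set.Icc (-r) r, U x

/-- the complex extension in the variable `y` -/
noncomputable def Phi (f : ℝ → ℝ) (t : ℝ) (w : ℂ) : ℂ :=
  1 / (Real.pi : ℂ) * ∫ x : ℝ, w * (f (t - x) : ℂ) / ((x : ℂ) ^ 2 + w ^ 2)

end Pool.Agent.Helper107.AR
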