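import Pool.Agent.Helper107.ARa

set_option autoImplicit false
open Filter Topology MeasureTheory

namespace Pool.Agent.Helper107.AR

/-- the test function: the indicator of `(x0 - R, x0]` -/
noncomputable def ff (x0 R : ℝ) : ℝ → ℝ := Set.indicator (Set.Ioc (x0 - R) x0) (fun _ => (1:ℝ))

end Pool.Agent.Helper107.AR
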