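import Pool.Agent.Helper107.ARb

set_option autoImplicit false
open Filter Topology MeasureTheory

namespace Pool.Agent.Helper107.AR

/-- consequence of the necessary condition for integrable weights -/
lemma integrable_zero (p : ℝ) (hp : 0 < p) (U : ℝ → ℝ) (hU0 : ∀ x, 0 ≤ U x) (hi : Integrable U)
    (K : ℝ) (h : ∀ x0 r R : ℝ, 0 < r → r ≤ R →
      ENNReal.ofReal (Real.log (R / r) ^ (p / 2)) *
          ∫⁻ x in Set.Icc (x0 - r) (x0 + r), ENNReal.ofReal (U x) ≤
        ENNReal.ofReal K * ∫⁻ x, ENNReal.ofReal ((R / (R + |x - x0|)) ^ p * U x)) :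
    U =ᵐ[volume] 0 := by
  set T : ENNReal := ∫⁻ x, ENNReal.ofReal (U x) with hT
  have hTfin : T ≠ ⊤ := hi.lintegral_lt_top.ne
  have hm : ∀ r : ℝ, 0 < r → ∫⁻ x in Set.Icc (0 - r) (0 + r), ENNReal.ofReal (U x) = 0 := by
    intro r hr
    by_contra hne
    set m : ENNReal := ∫⁻ x in Set.Icc (0 - r) (0 + r), ENNReal.ofReal (U x) with hmdef
    have hmfin : m ≠ ⊤ := ne_top_of_le_ne_top hTfin (setLIntegral_le_lintegral _ _)
    have h1 : ∀ s : ℝ, 0 ≤ s → ENNReal.ofReal (s ^ (p / 2)) * m ≤ ENNReal.ofReal K * T := by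
      intro s hs
      have h2 := h 0 r (r * Real.exp s) hr (by
        have := Real.one_le_exp hs
        nlinarith)
      have e1 : r * Real.exp s / r = Real.exp s := by field_simp
      rw [e1, Real.log_exp] at h2
      refine h2.trans (mul_le_mul_right (lintegral_mono (fun x => ?_)) _)
      refine ENNReal.ofReal_le_ofReal ?_
      have hR : 0 < r * Real.exp s := mul_pos hr (Real.exp_pos s)
      have h3 : (r * Real.exp s / (r * Real.exp s + |x - 0|)) ^ p ≤ 1 := by
        refine Real.rpow_le_one (by positivity) ?_ hp.le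
        rw [div_le_one (by positivity)]
        linarith [abs_nonneg (x - 0)]
      calc _ ≤ 1 * U x := mul_le_mul_of_nonneg_right h3 (hU0 x)
        _ = U x := one_mul _
    set Q : ENNReal := ENNReal.ofReal K * T / m with hQ
    have hQfin : Q ≠ ⊤ :=
      ENNReal.div_ne_top (ENNReal.mul_ne_top ENNReal.ofReal_ne_top hTfin) hne
    have h4 : ∀ s : ℝ, 0 ≤ s → ENNReal.ofReal (s ^ (p / 2)) ≤ Q := by
      intro s hs
      rw [hQ, ENNReal.le_div_iff_mul_le (Or.inl hne) (Or.inl hmfin)]
      exact h1 s hs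
    have h5 := h4 ((Q.toReal + 1) ^ (2 / p)) (by positivity)
    rw [← Real.rpow_mul (by positivity), show 2 / p * (p / 2) = 1 by field_simp, Real.rpow_one] at h5
    have h6 := ENNReal.ofReal_le_iff_le_toReal hQfin |>.1 h5
    linarith
  have hae : ∀ n : ℕ, ∀ᵐ x ∂(volume : Measure ℝ), x ∈ Set.Icc (0 - ((n:ℝ) + 1)) (0 + ((n:ℝ) + 1)) →
      U x = 0 := by
    intro n
    have h7 := hm ((n:ℝ) + 1) (by positivity)
    rw [lintegral_eq_zero_iff' hi.aemeasurable.restrict.ennreal_ofReal] at h7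
    rw [← ae_restrict_iff' measurableSet_Icc]
    filter_upwards [h7] with x hx
    have h8 : ENNReal.ofReal (U x) = 0 := hx
    exact le_antisymm (ENNReal.ofReal_eq_zero.1 h8) (hU0 x)
  filter_upwards [ae_all_iff.2 hae] with x hx
  obtain ⟨n, hn⟩ := exists_nat_ge |x|
  refine hx n ?_
  have := abs_le.1 hn
  exact ⟨by linarith [this.1], by linarith [this.2]⟩

end Pool.Agent.Helper107.AR
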