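import Mathlib

set_option autoImplicit false

namespace Pool.Agent.Helper107.CP

open Finset

/-- `car a i k = ∑_{Q' ⊆ Q} a(Q') |Q'|`, the sum over dyadic `Q'` contained in `Q = [k 2^i, (k+1) 2^i)`
(down to singletons, scale `0`). -/
noncomputable def car (a : ℕ → ℤ → ℝ) : ℕ → ℤ → ℝ
  | 0, k => a 0 k
  | (i + 1), k => a (i + 1) k * 2 ^ (i + 1) + car a i (2 * k) + car a i (2 * k + 1)

/-- the points of the dyadic interval `(i,k)` -/
noncomputable def dy (i : ℕ) (k : ℤ) : Finset ℤ := Finset.Ico (k * 2 ^ i) ((k + 1) * 2 ^ i)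

/-- pointwise sum over dyadic intervals of scale `≤ n` containing `x` -/
noncomputable def pt (a : ℕ → ℤ → ℝ) (n : ℕ) (x : ℤ) : ℝ :=
  ∑ i ∈ Finset.range (n + 1), a i (x / 2 ^ i)

lemma Ico_one (k : ℤ) : Finset.Ico k (k + 1) = {k} := by
  ext x; simp only [Finset.mem_Ico, Finset.mem_singleton]; omega

lemma mem_dy {i : ℕ} {k x : ℤ} : x ∈ dy i k ↔ x / 2 ^ i = k := by
  unfold dy
  rw [Finset.mem_Ico]
  have hp : (0 : ℤ) < 2 ^ i := by positivity
  constructor
  · rintro ⟨h1, h2⟩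
    have h3 : k ≤ x / 2 ^ i := (Int.le_ediv_iff_mul_le hp).2 h1
    have h4 : x / 2 ^ i < k + 1 := (Int.ediv_lt_iff_lt_mul hp).2 h2
    omega
  · intro h
    have h3 : k ≤ x / 2 ^ i := by omega
    have h4 : x / 2 ^ i < k + 1 := by omega
    exact ⟨(Int.le_ediv_iff_mul_le hp).1 h3, (Int.ediv_lt_iff_lt_mul hp).1 h4⟩

lemma card_dy (i : ℕ) (k : ℤ) : (dy i k).card = 2 ^ i := by
  unfold dy
  rw [Int.card_Ico]
  have : (k + 1) * 2 ^ i - k * 2 ^ i = ((2 ^ i : ℕ) : ℤ) := by push_cast; ring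
  rw [this, Int.toNat_natCast]

lemma dy_succ_union (i : ℕ) (k : ℤ) : dy (i + 1) k = dy i (2 * k) ∪ dy i (2 * k + 1) := by
  unfold dy
  ext x
  simp only [Finset.mem_union, Finset.mem_Ico]
  have hp : (0 : ℤ) < 2 ^ i := by positivity
  have e1 : (k : ℤ) * 2 ^ (i + 1) = 2 * k * 2 ^ i := by ring
  have e2 : (k + 1 : ℤ) * 2 ^ (i + 1) = (2 * k + 1 + 1) * 2 ^ i := by ring
  rw [e1, e2]
  have e3 : (2 * k + 1 : ℤ) * 2 ^ i = 2 * k * 2 ^ i + 2 ^ i := by ring
  have e4 : (2 * k + 1 + 1 : ℤ) * 2 ^ i = 2 * k * 2 ^ i + 2 ^ i + 2 ^ i := by ring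
  rw [e3, e4]
  constructor
  · rintro ⟨h1, h2⟩
    by_cases h : x < 2 * k * 2 ^ i + 2 ^ i
    · left; exact ⟨h1, h⟩
    · right; exact ⟨not_lt.1 h, h2⟩
  · rintro (⟨h1, h2⟩ | ⟨h1, h2⟩)
    · exact ⟨h1, by linarith⟩
    · exact ⟨by linarith, h2⟩

lemma dy_disj (i : ℕ) {k k' : ℤ} (h : k ≠ k') : Disjoint (dy i k) (dy i k') := by
  rw [Finset.disjoint_left]
  intro x hx hx'
  rw [mem_dy] at hx hx'
  exact h (hx.symm.trans hx')

lemma sum_dy_succ (φ : ℤ → ℝ) (i : ℕ) (k : ℤ) :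
    ∑ x ∈ dy (i + 1) k, φ x = ∑ x ∈ dy i (2 * k), φ x + ∑ x ∈ dy i (2 * k + 1), φ x := by
  rw [dy_succ_union, Finset.sum_union (dy_disj i (by omega))]

lemma div_child {i : ℕ} {k x : ℤ} (h : x ∈ dy (i + 1) k) : x / 2 ^ (i + 1) = k := mem_dy.1 h

lemma mem_dy_succ_left {i : ℕ} {k x : ℤ} (h : x ∈ dy i (2 * k)) : x ∈ dy (i + 1) k := by
  rw [dy_succ_union]; exact Finset.mem_union_left _ h

lemma mem_dy_succ_right {i : ℕ} {k x : ℤ} (h : x ∈ dy i (2 * k + 1)) : x ∈ dy (i + 1) k := by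
  rw [dy_succ_union]; exact Finset.mem_union_right _ h

lemma ediv_pow_succ (x : ℤ) (i : ℕ) : x / 2 ^ (i + 1) = (x / 2 ^ i) / 2 := by
  rw [pow_succ, Int.ediv_ediv_of_nonneg (by positivity)]

lemma ediv_pow_add (x : ℤ) (i j : ℕ) : x / 2 ^ (i + j) = (x / 2 ^ i) / 2 ^ j := by
  rw [pow_add, Int.ediv_ediv_of_nonneg (by positivity)]

lemma car_nonneg {a : ℕ → ℤ → ℝ} (h : ∀ i k, 0 ≤ a i k) : ∀ i k, 0 ≤ car a i k
  | 0, k => h 0 k
  | (i + 1), k => by
      have := car_nonneg h i (2 * k)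
      have := car_nonneg h i (2 * k + 1)
      have := h (i + 1) k
      simp only [car]; positivity

lemma car_mono {a b : ℕ → ℤ → ℝ} (h : ∀ i k, a i k ≤ b i k) : ∀ i k, car a i k ≤ car b i k
  | 0, k => h 0 k
  | (i + 1), k => by
      have h1 := car_mono h i (2 * k)
      have h2 := car_mono h i (2 * k + 1)
      have h3 := h (i + 1) k
      simp only [car]
      have : a (i + 1) k * 2 ^ (i + 1) ≤ b (i + 1) k * 2 ^ (i + 1) :=
        mul_le_mul_of_nonneg_right h3 (by positivity)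
      linarith

lemma car_smul (c : ℝ) (a : ℕ → ℤ → ℝ) : ∀ i k, car (fun i k => c * a i k) i k = c * car a i k
  | 0, k => rfl
  | (i + 1), k => by
      have h1 := car_smul c a i (2 * k)
      have h2 := car_smul c a i (2 * k + 1)
      simp only [car]
      rw [h1, h2]; ring

lemma car_sum {ι : Type*} (s : Finset ι) (a : ι → ℕ → ℤ → ℝ) : ∀ i k,
    car (fun i k => ∑ j ∈ s, a j i k) i k = ∑ j ∈ s, car (a j) i k
  | 0, k => rfl
  | (i + 1), k => by
      have h1 := car_sum s a i (2 * k)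
      have h2 := car_sum s a i (2 * k + 1)
      simp only [car]
      rw [h1, h2, Finset.sum_add_distrib, Finset.sum_add_distrib, Finset.sum_mul]

lemma car_zero : ∀ i k, car (fun _ _ => (0 : ℝ)) i k = 0
  | 0, _ => rfl
  | (i + 1), k => by simp only [car]; rw [car_zero, car_zero]; ring

/-- a localized comparison: only the subintervals of `(n,k0)` matter -/
lemma car_congr_sub {a b : ℕ → ℤ → ℝ} : ∀ (n : ℕ) (k0 : ℤ),
    (∀ i ≤ n, ∀ k : ℤ, k / 2 ^ (n - i) = k0 → a i k ≤ b i k) → car a n k0 ≤ car b n k0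
  | 0, k0, h => h 0 le_rfl k0 (by simp)
  | (n + 1), k0, h => by
      have h0 : a (n + 1) k0 ≤ b (n + 1) k0 := h (n + 1) le_rfl k0 (by simp)
      have key : ∀ k1 : ℤ, k1 / 2 = k0 → car a n k1 ≤ car b n k1 := by
        intro k1 hk1
        apply car_congr_sub n k1
        intro i hi k hk
        apply h i (by omega) k
        have : n + 1 - i = (n - i) + 1 := by omega
        rw [this, ediv_pow_succ, hk, hk1]
      have h1 := key (2 * k0) (by omega)
      have h2 := key (2 * k0 + 1) (by omega)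
      simp only [car]
      have : a (n + 1) k0 * 2 ^ (n + 1) ≤ b (n + 1) k0 * 2 ^ (n + 1) :=
        mul_le_mul_of_nonneg_right h0 (by positivity)
      linarith

lemma dy_sub_iff {i n : ℕ} (hi : i ≤ n) {k k0 : ℤ} (h : k / 2 ^ (n - i) = k0) : dy i k ⊆ dy n k0 := by
  intro x hx
  rw [mem_dy] at hx ⊢
  have : n = i + (n - i) := by omega
  rw [this, ediv_pow_add, hx, h]

/-- explicit formula for `car` -/
lemma car_eq (a : ℕ → ℤ → ℝ) : ∀ (n : ℕ) (k0 : ℤ), car a n k0 =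
    ∑ i ∈ Finset.range (n + 1), ∑ k ∈ Finset.Ico (k0 * 2 ^ (n - i)) ((k0 + 1) * 2 ^ (n - i)), a i k * 2 ^ i
  | 0, k0 => by
      simp [car, Ico_one]
  | (n + 1), k0 => by
      have e : ∀ i ∈ Finset.range (n + 1),
          ∑ k ∈ Finset.Ico (k0 * 2 ^ (n + 1 - i)) ((k0 + 1) * 2 ^ (n + 1 - i)), a i k * 2 ^ i =
          ∑ k ∈ Finset.Ico ((2 * k0) * 2 ^ (n - i)) ((2 * k0 + 1) * 2 ^ (n - i)), a i k * 2 ^ i +
          ∑ k ∈ Finset.Ico ((2 * k0 + 1) * 2 ^ (n - i)) ((2 * k0 + 1 + 1) * 2 ^ (n - i)), a i k * 2 ^ i := by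
        intro i hi
        rw [Finset.mem_range] at hi
        have h1 : n + 1 - i = (n - i) + 1 := by omega
        rw [h1]
        exact sum_dy_succ (fun k => a i k * 2 ^ i) (n - i) k0
      rw [Finset.sum_range_succ, Finset.sum_congr rfl e, Finset.sum_add_distrib]
      simp only [car]
      rw [car_eq a n (2 * k0), car_eq a n (2 * k0 + 1)]
      have h2 : Finset.Ico (k0 * 2 ^ (n + 1 - (n + 1))) ((k0 + 1) * 2 ^ (n + 1 - (n + 1))) = {k0} := by
        simp [Ico_one]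
      rw [h2, Finset.sum_singleton]
      ring

/-- John–Nirenberg on the dyadic tree. -/
theorem JN (a : ℕ → ℤ → ℝ) (h0 : ∀ i k, 0 ≤ a i k) (h1 : ∀ i k, a i k ≤ 1)
    (h2 : ∀ i k, car a i k ≤ 2 ^ i) : ∀ (i : ℕ) (k : ℤ),
    ∑ x ∈ dy i k, (3 / 2 : ℝ) ^ (pt a i x) ≤ 2 ^ i + car a i k
  | 0, k => by
      have : dy 0 k = {k} := by simp [dy, Ico_one]
      rw [this, Finset.sum_singleton]
      simp only [pt, car, zero_add, Finset.range_one, Finset.sum_singleton, pow_zero, Int.ediv_one]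
      have hb := rpow_one_add_le_one_add_mul_self (s := 1 / 2) (p := a 0 k) (by norm_num) (h0 0 k) (h1 0 k)
      have e : (3 / 2 : ℝ) = 1 + 1 / 2 := by norm_num
      rw [e]
      have := h0 0 k
      linarith
  | (i + 1), k => by
      have IH1 := JN a h0 h1 h2 i (2 * k)
      have IH2 := JN a h0 h1 h2 i (2 * k + 1)
      have e1 : ∀ x ∈ dy (i + 1) k, (3 / 2 : ℝ) ^ (pt a (i + 1) x) =
          (3 / 2 : ℝ) ^ (a (i + 1) k) * (3 / 2 : ℝ) ^ (pt a i x) := by
        intro x hx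
        rw [← Real.rpow_add (by norm_num)]
        congr 1
        unfold pt
        rw [Finset.sum_range_succ _ (i + 1), mem_dy.1 hx]
        ring
      rw [Finset.sum_congr rfl e1, ← Finset.mul_sum, sum_dy_succ]
      have hb := rpow_one_add_le_one_add_mul_self (s := 1 / 2) (p := a (i + 1) k) (by norm_num)
        (h0 _ _) (h1 _ _)
      have e : (3 / 2 : ℝ) = 1 + 1 / 2 := by norm_num
      rw [← e] at hb
      have hc1 := car_nonneg h0 i (2 * k)
      have hc2 := car_nonneg h0 i (2 * k + 1)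
      have hcar := h2 (i + 1) k
      simp only [car] at hcar ⊢
      set M := car a i (2 * k) + car a i (2 * k + 1) with hM
      have ha := h0 (i + 1) k
      have hM0 : 0 ≤ M := by positivity
      have hpow : (2 : ℝ) ^ (i + 1) = 2 ^ i + 2 ^ i := by ring
      have hS : ∑ x ∈ dy i (2 * k), (3 / 2 : ℝ) ^ (pt a i x) + ∑ x ∈ dy i (2 * k + 1), (3 / 2 : ℝ) ^ (pt a i x)
          ≤ 2 ^ (i + 1) + M := by rw [hpow]; linarith
      have hP : (0 : ℝ) < 2 ^ (i + 1) := by positivity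
      have hML : M ≤ 2 ^ (i + 1) := by nlinarith
      calc (3 / 2 : ℝ) ^ (a (i + 1) k) * (∑ x ∈ dy i (2 * k), (3 / 2 : ℝ) ^ (pt a i x) +
              ∑ x ∈ dy i (2 * k + 1), (3 / 2 : ℝ) ^ (pt a i x))
          ≤ (1 + a (i + 1) k * (1 / 2)) * (2 ^ (i + 1) + M) := by
            apply mul_le_mul hb hS
            · apply add_nonneg <;> exact Finset.sum_nonneg (fun x _ => by positivity)
            · positivity
        _ ≤ 2 ^ (i + 1) + (a (i + 1) k * 2 ^ (i + 1) + car a i (2 * k) + car a i (2 * k + 1)) := by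
            nlinarith

/-- distributional consequence, with the Carleson mass in the numerator -/
theorem JN_dist (a : ℕ → ℤ → ℝ) (h0 : ∀ i k, 0 ≤ a i k) (h1 : ∀ i k, a i k ≤ 1)
    (h2 : ∀ i k, car a i k ≤ 2 ^ i) (i : ℕ) (k : ℤ) (t : ℝ) :
    (((dy i k).filter (fun x => t < pt a i x)).card : ℝ) * ((3 / 2 : ℝ) ^ t - 1) ≤ car a i k := by
  have h := JN a h0 h1 h2 i k
  have hpt : ∀ x, 0 ≤ pt a i x := fun x => Finset.sum_nonneg (fun j _ => h0 _ _)
  have e : ∑ x ∈ dy i k, (((3 / 2 : ℝ) ^ (pt a i x)) - 1) ≤ car a i k := by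
    rw [Finset.sum_sub_distrib]
    simp only [Finset.sum_const, nsmul_eq_mul, mul_one]
    rw [card_dy]
    push_cast
    linarith
  refine le_trans ?_ e
  rw [← nsmul_eq_mul, ← Finset.sum_const]
  calc ∑ x ∈ (dy i k).filter (fun x => t < pt a i x), ((3 / 2 : ℝ) ^ t - 1)
      ≤ ∑ x ∈ (dy i k).filter (fun x => t < pt a i x), ((3 / 2 : ℝ) ^ (pt a i x) - 1) := by
        apply Finset.sum_le_sum
        intro x hx
        rw [Finset.mem_filter] at hx
        have := Real.rpow_le_rpow_of_exponent_le (x := (3 / 2 : ℝ)) (by norm_num) hx.2.le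
        linarith
    _ ≤ ∑ x ∈ dy i k, ((3 / 2 : ℝ) ^ (pt a i x) - 1) := by
        apply Finset.sum_le_sum_of_subset_of_nonneg (Finset.filter_subset _ _)
        intro x _ _
        have := Real.one_le_rpow (x := (3 / 2 : ℝ)) (by norm_num) (hpt x)
        linarith

end Pool.Agent.Helper107.CP
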