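import Mathlib
import Pool.Agent.Helper107.CPa

set_option autoImplicit false

namespace Pool.Agent.Helper107.CP

open Finset

/-- powers of two with integer exponent -/
noncomputable def e (n : ℤ) : ℝ := (2 : ℝ) ^ n

lemma e_pos (n : ℤ) : 0 < e n := by unfold e; positivity
lemma e_add (a b : ℤ) : e (a + b) = e a * e b := by unfold e; exact zpow_add₀ (by norm_num) a b
lemma e_sub (a b : ℤ) : e (a - b) = e a / e b := by unfold e; exact zpow_sub₀ (by norm_num) a b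
lemma e_neg (a : ℤ) : e (-a) = (e a)⁻¹ := by unfold e; exact zpow_neg _ a
lemma e_nat (n : ℕ) : e (n : ℤ) = 2 ^ n := by unfold e; exact zpow_natCast _ n
lemma e_zero : e 0 = 1 := by unfold e; simp
lemma e_one : e 1 = 2 := by unfold e; simp
lemma e_le {a b : ℤ} (h : a ≤ b) : e a ≤ e b := by
  unfold e; exact zpow_le_zpow_right₀ (by norm_num) h
lemma e_lt {a b : ℤ} (h : a < b) : e a < e b := by
  unfold e; exact zpow_lt_zpow_right₀ (by norm_num) h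
lemma e_le_iff {a b : ℤ} : e a ≤ e b ↔ a ≤ b := by
  constructor
  · intro h
    by_contra hc
    exact absurd (e_lt (not_le.1 hc)) (not_lt.2 h)
  · exact e_le
lemma e_succ (a : ℤ) : e (a + 1) = 2 * e a := by rw [e_add, e_one]; ring

/-- the data: a finitely supported nonnegative mass distribution on `ℤ`, and the dilation constant -/
structure Dat where
  m : ℤ → ℝ
  F : Finset ℤ
  m0 : ∀ n, 0 ≤ m n
  mF : ∀ n, n ∉ F → m n = 0
  pos : 0 < ∑ n ∈ F, m n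
  c0 : ℕ
  hc0 : 4 ≤ c0

variable (d : Dat)

namespace Dat

/-- mass of `[a,b)` -/
noncomputable def mI (a b : ℤ) : ℝ := ∑ v ∈ Finset.Ico a b, d.m v

noncomputable def tot : ℝ := ∑ n ∈ d.F, d.m n

lemma mI_nonneg (a b : ℤ) : 0 ≤ d.mI a b := Finset.sum_nonneg (fun v _ => d.m0 v)

lemma mI_mono {a b a' b' : ℤ} (h1 : a' ≤ a) (h2 : b ≤ b') : d.mI a b ≤ d.mI a' b' :=
  Finset.sum_le_sum_of_subset_of_nonneg (Finset.Ico_subset_Ico h1 h2) (fun v _ _ => d.m0 v)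

lemma tot_pos : 0 < d.tot := d.pos

lemma mI_le_tot (a b : ℤ) : d.mI a b ≤ d.tot := by
  unfold mI tot
  have h1 : ∑ v ∈ Finset.Ico a b, d.m v = ∑ v ∈ (Finset.Ico a b).filter (· ∈ d.F), d.m v := by
    rw [Finset.sum_filter_of_ne]
    intro v _ hv
    by_contra hc
    exact hv (d.mF v hc)
  rw [h1]
  apply Finset.sum_le_sum_of_subset_of_nonneg
  · intro v hv
    exact (Finset.mem_filter.1 hv).2
  · intro v _ _; exact d.m0 v

lemma mI_eq_tot {a b : ℤ} (h : ∀ v ∈ d.F, a ≤ v ∧ v < b) : d.mI a b = d.tot := by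
  apply le_antisymm (d.mI_le_tot a b)
  unfold mI tot
  apply Finset.sum_le_sum_of_subset_of_nonneg
  · intro v hv
    rw [Finset.mem_Ico]; exact h v hv
  · intro v _ _; exact d.m0 v

/-- level predicate -/
def L (i : ℕ) (k l : ℤ) : Prop :=
  ∃ (u : ℤ) (t : ℕ), u ≤ k * 2 ^ i - 2 ^ (i + d.c0) ∧ k * 2 ^ i + 2 ^ (i + d.c0) ≤ u + 2 ^ t ∧
    e (l + t) ≤ d.mI u (u + 2 ^ t)

lemma L_anti {i : ℕ} {k l l' : ℤ} (h : d.L i k l) (hl : l' ≤ l) : d.L i k l' := by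
  obtain ⟨u, t, h1, h2, h3⟩ := h
  exact ⟨u, t, h1, h2, le_trans (e_le (by omega)) h3⟩

lemma L_mono {i i' : ℕ} {k k' l : ℤ} (h : d.L i k l)
    (h1 : k * 2 ^ i - 2 ^ (i + d.c0) ≤ k' * 2 ^ i' - 2 ^ (i' + d.c0))
    (h2 : k' * 2 ^ i' + 2 ^ (i' + d.c0) ≤ k * 2 ^ i + 2 ^ (i + d.c0)) : d.L i' k' l := by
  obtain ⟨u, t, h3, h4, h5⟩ := h
  exact ⟨u, t, by omega, by omega, h5⟩

lemma L_scale {u : ℤ} {t i : ℕ} {c : ℤ} (h1 : u ≤ c - 2 ^ (i + d.c0)) (h2 : c + 2 ^ (i + d.c0) ≤ u + 2 ^ t) :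
    i + d.c0 + 1 ≤ t := by
  have h : (2 : ℤ) ^ (i + d.c0 + 1) ≤ 2 ^ t := by
    rw [pow_succ]; omega
  exact (pow_le_pow_iff_right₀ (by norm_num : (1 : ℤ) < 2)).1 h

lemma L_bdd {i : ℕ} {k l : ℤ} (h : d.L i k l) : e l ≤ d.tot := by
  obtain ⟨u, t, h1, h2, h3⟩ := h
  have := d.mI_le_tot u (u + 2 ^ t)
  exact le_trans (le_trans (e_le (by omega)) h3) this

lemma L_bdd' {i : ℕ} {k l : ℤ} (h : d.L i k l) : e (l + i) ≤ d.tot := by
  obtain ⟨u, t, h1, h2, h3⟩ := h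
  have := d.mI_le_tot u (u + 2 ^ t)
  have h4 := d.L_scale h1 h2
  exact le_trans (le_trans (e_le (by omega)) h3) this

/-- a bound for the support -/
lemma exists_R : ∃ R : ℕ, ∀ v ∈ d.F, -(2 : ℤ) ^ R ≤ v ∧ v < 2 ^ R := by
  obtain ⟨N, hN⟩ : ∃ N : ℕ, ∀ v ∈ d.F, v.natAbs ≤ N :=
    ⟨d.F.sup Int.natAbs, fun v hv => Finset.le_sup (f := Int.natAbs) hv⟩
  refine ⟨N, fun v hv => ?_⟩
  have h1 := hN v hv
  have h2 : N < 2 ^ N := Nat.lt_two_pow_self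
  have h3 : (N : ℤ) < 2 ^ N := by exact_mod_cast h2
  omega

lemma exists_e_le {x : ℝ} (hx : 0 < x) : ∃ n : ℤ, e n ≤ x := by
  obtain ⟨n, hn⟩ := exists_pow_lt_of_lt_one hx (by norm_num : (1 / 2 : ℝ) < 1)
  refine ⟨-(n : ℤ), ?_⟩
  rw [e_neg, e_nat]
  have : ((1 : ℝ) / 2) ^ n = (2 ^ n)⁻¹ := by rw [one_div, inv_pow]
  rw [← this]; exact hn.le

lemma exists_lt_e (x : ℝ) : ∃ n : ℤ, x < e n := by
  obtain ⟨n, hn⟩ := pow_unbounded_of_one_lt x (by norm_num : (1 : ℝ) < 2)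
  exact ⟨n, by rw [e_nat]; exact hn⟩

/-- a common exhausting window -/
lemma exists_window (c : ℤ) (w : ℕ) : ∃ t : ℕ, ∀ t' : ℕ, t ≤ t' →
    -(2 : ℤ) ^ t' ≤ c - 2 ^ w ∧ c + 2 ^ w ≤ 2 ^ t' ∧ d.mI (-(2 : ℤ) ^ t') (2 ^ t') = d.tot := by
  obtain ⟨R, hR⟩ := d.exists_R
  refine ⟨max R (c.natAbs + 2 ^ w), fun t' ht' => ?_⟩
  have h1 : c.natAbs + 2 ^ w ≤ t' := le_trans (le_max_right _ _) ht'
  have h2 : t' < 2 ^ t' := Nat.lt_two_pow_self
  have h3 : ((c.natAbs + 2 ^ w : ℕ) : ℤ) < ((2 ^ t' : ℕ) : ℤ) := by exact_mod_cast lt_of_le_of_lt h1 h2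
  push_cast at h3
  have h4 : (2 : ℤ) ^ R ≤ 2 ^ t' := pow_le_pow_right₀ (by norm_num) (le_trans (le_max_left _ _) ht')
  refine ⟨?_, ?_, ?_⟩
  · have := neg_abs_le c; omega
  · have := le_abs_self c; omega
  · apply d.mI_eq_tot
    intro v hv
    have := hR v hv
    constructor <;> omega

lemma L_exists (i : ℕ) (k : ℤ) : ∃ l : ℤ, d.L i k l := by
  obtain ⟨t, ht⟩ := d.exists_window (k * 2 ^ i) (i + d.c0)
  obtain ⟨h1, h2, h3⟩ := ht t le_rfl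
  obtain ⟨n, hn⟩ := exists_e_le d.tot_pos
  refine ⟨n - (t + 1), -(2 : ℤ) ^ t, t + 1, h1, ?_, ?_⟩
  · rw [pow_succ]; omega
  · have e1 : -(2 : ℤ) ^ t + 2 ^ (t + 1) = 2 ^ t := by rw [pow_succ]; ring
    rw [e1, h3]
    have e2 : n - (↑t + 1) + ((t + 1 : ℕ) : ℤ) = n := by push_cast; ring
    rw [e2]; exact hn

noncomputable def lev (i : ℕ) (k : ℤ) : ℤ := sSup {l : ℤ | d.L i k l}

lemma L_bddAbove (i : ℕ) (k : ℤ) : BddAbove {l : ℤ | d.L i k l} := by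
  obtain ⟨n, hn⟩ := exists_lt_e d.tot
  refine ⟨n, fun l hl => ?_⟩
  have := d.L_bdd hl
  exact e_le_iff.1 (le_trans this hn.le)

lemma L_lev (i : ℕ) (k : ℤ) : d.L i k (d.lev i k) :=
  Int.csSup_mem (d.L_exists i k) (d.L_bddAbove i k)

lemma L_iff {i : ℕ} {k l : ℤ} : d.L i k l ↔ l ≤ d.lev i k := by
  constructor
  · intro h; exact le_csSup (d.L_bddAbove i k) h
  · intro h; exact d.L_anti (d.L_lev i k) h

lemma not_L (i : ℕ) (k : ℤ) : ¬ d.L i k (d.lev i k + 1) := by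
  rw [L_iff]; omega

/-- extension to a comparable neighbouring interval costs two levels -/
lemma L_ext {i i' : ℕ} {k k' l : ℤ} (h : d.L i k l)
    (h1 : k * 2 ^ i - 3 * 2 ^ (i + d.c0) ≤ k' * 2 ^ i' - 2 ^ (i' + d.c0))
    (h2 : k' * 2 ^ i' + 2 ^ (i' + d.c0) ≤ k * 2 ^ i + 3 * 2 ^ (i + d.c0)) : d.L i' k' (l - 2) := by
  obtain ⟨u, t, h3, h4, h5⟩ := h
  have h6 := d.L_scale h3 h4
  have h7 : (2 : ℤ) ^ (i + d.c0 + 1) ≤ 2 ^ t := pow_le_pow_right₀ (by norm_num) h6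
  rw [pow_succ] at h7
  have e1 : (2 : ℤ) ^ (t + 2) = 4 * 2 ^ t := by ring
  have hpt : (0 : ℤ) < 2 ^ t := by positivity
  refine ⟨u - 2 ^ t, t + 2, by omega, by rw [e1]; omega, ?_⟩
  have e2 : l - 2 + ((t + 2 : ℕ) : ℤ) = l + t := by push_cast; ring
  rw [e2]
  refine le_trans h5 (d.mI_mono (by omega) (by rw [e1]; omega))

/-- ball masses above level -/
lemma mI_lt {i : ℕ} {k l : ℤ} (h : ¬ d.L i k (l + 1)) {t : ℕ} (ht : i + d.c0 ≤ t) :
    d.mI (k * 2 ^ i - 2 ^ t) (k * 2 ^ i + 2 ^ t) < e (l + t + 2) := by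
  by_contra hc
  apply h
  have hp : (2 : ℤ) ^ (i + d.c0) ≤ 2 ^ t := pow_le_pow_right₀ (by norm_num) ht
  refine ⟨k * 2 ^ i - 2 ^ t, t + 1, by omega, by rw [pow_succ]; omega, ?_⟩
  have e1 : k * 2 ^ i - 2 ^ t + 2 ^ (t + 1) = k * 2 ^ i + 2 ^ t := by rw [pow_succ]; ring
  have e2 : l + 1 + ((t + 1 : ℕ) : ℤ) = l + t + 2 := by push_cast; ring
  rw [e1, e2]; exact not_lt.1 hc

/-- set of masses defining `D` -/
def DS (y l : ℤ) : Set ℝ :=
  {r | ∃ (u : ℤ) (t : ℕ), u ≤ y ∧ y < u + 2 ^ t ∧ e (l + t) ≤ d.mI u (u + 2 ^ t) ∧ r = d.mI u (u + 2 ^ t)}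

noncomputable def D (y l : ℤ) : ℝ := sSup (d.DS y l)

lemma DS_bdd (y l : ℤ) : BddAbove (d.DS y l) := by
  refine ⟨d.tot, ?_⟩
  rintro r ⟨u, t, _, _, _, rfl⟩
  exact d.mI_le_tot _ _

lemma D_nonneg (y l : ℤ) : 0 ≤ d.D y l := by
  apply Real.sSup_nonneg
  rintro r ⟨u, t, _, _, _, rfl⟩
  exact d.mI_nonneg _ _

lemma D_le_tot (y l : ℤ) : d.D y l ≤ d.tot := by
  apply Real.sSup_le _ d.tot_pos.le
  rintro r ⟨u, t, _, _, _, rfl⟩
  exact d.mI_le_tot _ _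

lemma le_D {y l u : ℤ} {t : ℕ} (h1 : u ≤ y) (h2 : y < u + 2 ^ t) (h3 : e (l + t) ≤ d.mI u (u + 2 ^ t)) :
    d.mI u (u + 2 ^ t) ≤ d.D y l :=
  le_csSup (d.DS_bdd y l) ⟨u, t, h1, h2, h3, rfl⟩

lemma D_le {y l : ℤ} {X : ℝ} (hX : 0 ≤ X)
    (h : ∀ (u : ℤ) (t : ℕ), u ≤ y → y < u + 2 ^ t → e (l + t) ≤ d.mI u (u + 2 ^ t) →
      d.mI u (u + 2 ^ t) ≤ X) : d.D y l ≤ X := by
  apply Real.sSup_le _ hX
  rintro r ⟨u, t, h1, h2, h3, rfl⟩
  exact h u t h1 h2 h3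

lemma D_anti {y l l' : ℤ} (h : l ≤ l') : d.D y l' ≤ d.D y l := by
  apply d.D_le (d.D_nonneg y l)
  intro u t h1 h2 h3
  exact d.le_D h1 h2 (le_trans (e_le (by omega)) h3)

lemma D_lower {i : ℕ} {k l y : ℤ} (h : d.L i k l) (h1 : k * 2 ^ i - 2 ^ (i + d.c0) ≤ y)
    (h2 : y < k * 2 ^ i + 2 ^ (i + d.c0)) : e (l + i) ≤ d.D y l := by
  obtain ⟨u, t, h3, h4, h5⟩ := h
  have h6 := d.L_scale h3 h4
  have h7 := d.le_D (y := y) (l := l) (by omega) (by omega) h5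
  exact le_trans (le_trans (e_le (by omega)) h5) h7

lemma D_upper {i : ℕ} {k l y : ℤ} (h : ¬ d.L i k (l + 1)) {w : ℕ} (hw : i + d.c0 ≤ w)
    (h1 : k * 2 ^ i - 2 ^ w ≤ y) (h2 : y < k * 2 ^ i + 2 ^ w) : d.D y (l + 2) ≤ e (l + w + 4) := by
  apply d.D_le (e_pos _).le
  intro u t h3 h4 h5
  have hw' : (2 : ℤ) ^ (i + d.c0) ≤ 2 ^ w := pow_le_pow_right₀ (by norm_num) hw
  have ht : t ≤ w + 1 := by
    by_contra hc
    obtain ⟨r, hr⟩ : ∃ r, t = r + 1 := ⟨t - 1, by omega⟩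
    have hr' : (2 : ℤ) ^ (w + 1) ≤ 2 ^ r := pow_le_pow_right₀ (by norm_num) (by omega)
    have e1 : (2 : ℤ) ^ t = 2 * 2 ^ r := by rw [hr]; ring
    have e3 : (2 : ℤ) ^ (t + 1) = 4 * 2 ^ r := by rw [hr]; ring
    have e4 : (2 : ℤ) ^ (w + 1) = 2 * 2 ^ w := by ring
    apply h
    refine ⟨u - 2 ^ r, t + 1, by omega, by omega, ?_⟩
    have e2 : l + 1 + ((t + 1 : ℕ) : ℤ) = l + 2 + t := by push_cast; ring
    rw [e2]
    exact le_trans h5 (d.mI_mono (by omega) (by omega))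
  have ht' : (2 : ℤ) ^ t ≤ 2 ^ (w + 1) := pow_le_pow_right₀ (by norm_num) ht
  have e4 : (2 : ℤ) ^ (w + 1) = 2 * 2 ^ w := by ring
  have e5 : (2 : ℤ) ^ (w + 2) = 4 * 2 ^ w := by ring
  have h6 := d.mI_lt h (t := w + 2) (by omega)
  have e6 : l + ((w + 2 : ℕ) : ℤ) + 2 = l + w + 4 := by push_cast; ring
  rw [e6] at h6
  exact le_trans (d.mI_mono (by omega) (by omega)) h6.le

/-! ### the scale function -/

lemma L_chain {i : ℕ} {y l : ℤ} (h : d.L (i + 1) (y / 2 ^ (i + 1)) l) : d.L i (y / 2 ^ i) l := by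
  apply d.L_mono h
  · rw [ediv_pow_succ]
    have h1 : y / 2 ^ i / 2 * 2 ≤ y / 2 ^ i := by omega
    have h2 := mul_le_mul_of_nonneg_right h1 (show (0 : ℤ) ≤ 2 ^ i by positivity)
    have e1 : y / 2 ^ i / 2 * 2 ^ (i + 1) = y / 2 ^ i / 2 * 2 * 2 ^ i := by ring
    have e2 : (2 : ℤ) ^ (i + 1 + d.c0) = 2 * 2 ^ (i + d.c0) := by ring
    have h3 : (0 : ℤ) < 2 ^ (i + d.c0) := by positivity
    rw [e1, e2]; omega
  · rw [ediv_pow_succ]
    have h1 : y / 2 ^ i ≤ y / 2 ^ i / 2 * 2 + 1 := by omega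
    have h2 := mul_le_mul_of_nonneg_right h1 (show (0 : ℤ) ≤ 2 ^ i by positivity)
    have e1 : y / 2 ^ i / 2 * 2 ^ (i + 1) = y / 2 ^ i / 2 * 2 * 2 ^ i := by ring
    have e2 : (2 : ℤ) ^ (i + 1 + d.c0) = 2 * 2 ^ (i + d.c0) := by ring
    have e3 : (y / 2 ^ i / 2 * 2 + 1) * 2 ^ i = y / 2 ^ i / 2 * 2 * 2 ^ i + 2 ^ i := by ring
    have h3 : (2 : ℤ) ^ i ≤ 2 ^ (i + d.c0) := pow_le_pow_right₀ (by norm_num) (by omega)
    rw [e3] at h2
    rw [e1, e2]; omega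

lemma L_chain' {i j : ℕ} {y l : ℤ} (hij : j ≤ i) (h : d.L i (y / 2 ^ i) l) : d.L j (y / 2 ^ j) l := by
  induction i with
  | zero => have : j = 0 := by omega
            subst this; exact h
  | succ i ih =>
    by_cases hj : j = i + 1
    · subst hj; exact h
    · exact ih (by omega) (d.L_chain h)

/-- largest scale at which the dyadic interval around `y` has level `≥ l` -/
noncomputable def isc (y l : ℤ) : ℕ := sSup {i : ℕ | d.L i (y / 2 ^ i) l}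

lemma isc_bdd (y l : ℤ) : BddAbove {i : ℕ | d.L i (y / 2 ^ i) l} := by
  obtain ⟨n, hn⟩ := exists_lt_e d.tot
  refine ⟨(n - l).toNat, fun i hi => ?_⟩
  have h := e_le_iff.1 (le_trans (d.L_bdd' hi) hn.le)
  omega

lemma isc_iff {y l : ℤ} (h : l ≤ d.lev 0 y) (i : ℕ) : d.L i (y / 2 ^ i) l ↔ i ≤ d.isc y l := by
  have h0 : d.L 0 (y / 2 ^ 0) l := by
    rw [pow_zero, Int.ediv_one]; exact d.L_iff.2 h
  constructor
  · intro hi; exact le_csSup (d.isc_bdd y l) hi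
  · intro hi
    have hm : d.L (d.isc y l) (y / 2 ^ (d.isc y l)) l :=
      Nat.sSup_mem (s := {i : ℕ | d.L i (y / 2 ^ i) l}) ⟨0, h0⟩ (d.isc_bdd y l)
    exact d.L_chain' hi hm

lemma lev_chain {i : ℕ} (y : ℤ) : d.lev (i + 1) (y / 2 ^ (i + 1)) ≤ d.lev i (y / 2 ^ i) :=
  d.L_iff.1 (d.L_chain (d.L_lev _ _))

lemma lev_chain' {i j : ℕ} (hij : j ≤ i) (y : ℤ) : d.lev i (y / 2 ^ i) ≤ d.lev j (y / 2 ^ j) :=
  d.L_iff.1 (d.L_chain' hij (d.L_lev _ _))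

/-! ### drops -/

open Classical in
noncomputable def dr (y k : ℤ) : ℝ := if 2 * d.D y (k + 2) ≤ d.D y k then 1 else 0

lemma dr_nonneg (y k : ℤ) : 0 ≤ d.dr y k := by unfold dr; split_ifs <;> norm_num
lemma dr_le_one (y k : ℤ) : d.dr y k ≤ 1 := by unfold dr; split_ifs <;> norm_num

noncomputable def dl (y l : ℤ) : ℝ := ∑' n : ℕ, (1 / 2 : ℝ) ^ n * d.dr y (l - n)

lemma dl_summable (y l : ℤ) : Summable (fun n : ℕ => (1 / 2 : ℝ) ^ n * d.dr y (l - n)) := by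
  apply Summable.of_nonneg_of_le (fun n => mul_nonneg (by positivity) (d.dr_nonneg _ _))
    (fun n => ?_) summable_geometric_two
  have := d.dr_le_one y (l - n)
  have h2 : (0 : ℝ) ≤ (1 / 2) ^ n := by positivity
  nlinarith

lemma dl_nonneg (y l : ℤ) : 0 ≤ d.dl y l :=
  tsum_nonneg (fun n => mul_nonneg (by positivity) (d.dr_nonneg _ _))

lemma dl_le_two (y l : ℤ) : d.dl y l ≤ 2 := by
  rw [← tsum_geometric_two]
  apply Summable.tsum_le_tsum _ (d.dl_summable y l) summable_geometric_two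
  intro n
  have := d.dr_le_one y (l - n)
  have h2 : (0 : ℝ) ≤ (1 / 2) ^ n := by positivity
  nlinarith

lemma dl_succ (y l : ℤ) : d.dl y (l + 1) = d.dr y (l + 1) + (1 / 2) * d.dl y l := by
  have h1 := (d.dl_summable y (l + 1)).tsum_eq_zero_add
  unfold dl
  rw [h1, ← tsum_mul_left]
  congr 1
  · simp
  · apply tsum_congr
    intro n
    have : l + 1 - ((n + 1 : ℕ) : ℤ) = l - n := by push_cast; ring
    rw [this]; ring

lemma dl_ge {y l : ℤ} (n : ℕ) (h : d.dr y (l - n) = 1) : (1 / 2 : ℝ) ^ n ≤ d.dl y l := by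
  have := (d.dl_summable y l).le_tsum n (fun j _ => mul_nonneg (by positivity) (d.dr_nonneg _ _))
  rw [h, mul_one] at this
  exact this

/-- summation of charges -/
lemma dl_sum (s : ℝ) (hs : 0 < s) (y l0 : ℤ) : ∀ l1 : ℤ, l0 ≤ l1 →
    ∑ l ∈ Finset.Icc l0 l1, (d.D y l) ^ s * d.dl y l ≤
      (4 + 4 * (1 - (2 : ℝ) ^ (-s))⁻¹) * (d.D y l0) ^ s := by
  obtain ⟨c, hc⟩ : ∃ c : ℝ, c = (1 - (2 : ℝ) ^ (-s))⁻¹ := ⟨_, rfl⟩
  have h2s : (2 : ℝ) ^ (-s) < 1 := Real.rpow_lt_one_of_one_lt_of_neg (by norm_num) (by linarith)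
  have h2p : (0 : ℝ) < (2 : ℝ) ^ (-s) := by positivity
  have hc0 : 0 < c := by rw [hc]; apply inv_pos.2; linarith
  have hc1 : c * (1 - (2 : ℝ) ^ (-s)) = 1 := by
    rw [hc]; exact inv_mul_cancel₀ (by linarith)
  rw [← hc]
  have hD : ∀ l, 0 ≤ d.D y l := fun l => d.D_nonneg y l
  have hmono : ∀ l l', l ≤ l' → (d.D y l') ^ s ≤ (d.D y l) ^ s := fun l l' h =>
    Real.rpow_le_rpow (hD l') (d.D_anti h) hs.le
  have hpn : ∀ l, 0 ≤ (d.D y l) ^ s := fun l => Real.rpow_nonneg (hD l) s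
  have hdrop : ∀ l, (d.D y l) ^ s * d.dr y l ≤ c * ((d.D y l) ^ s - (d.D y (l + 2)) ^ s) := by
    intro l
    unfold dr
    split_ifs with h
    · have h1 : d.D y (l + 2) ≤ d.D y l / 2 := by linarith
      have h2 : (d.D y (l + 2)) ^ s ≤ (2 : ℝ) ^ (-s) * (d.D y l) ^ s := by
        have h3 := Real.rpow_le_rpow (hD (l + 2)) h1 hs.le
        rw [Real.div_rpow (hD l) (by norm_num)] at h3
        rw [Real.rpow_neg (by norm_num)]
        calc (d.D y (l + 2)) ^ s ≤ (d.D y l) ^ s / 2 ^ s := h3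
          _ = ((2 : ℝ) ^ s)⁻¹ * (d.D y l) ^ s := by ring
      rw [mul_one]
      calc (d.D y l) ^ s = c * (1 - (2 : ℝ) ^ (-s)) * (d.D y l) ^ s := by rw [hc1, one_mul]
        _ = c * ((d.D y l) ^ s - (2 : ℝ) ^ (-s) * (d.D y l) ^ s) := by ring
        _ ≤ c * ((d.D y l) ^ s - (d.D y (l + 2)) ^ s) := by
            apply mul_le_mul_of_nonneg_left _ hc0.le; linarith
    · rw [mul_zero]
      apply mul_nonneg hc0.le
      have := hmono l (l + 2) (by omega)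
      linarith
  have key : ∀ l1 : ℤ, l0 ≤ l1 →
      ∑ l ∈ Finset.Icc l0 l1, (d.D y l) ^ s * d.dl y l + (d.D y l1) ^ s * d.dl y l1 +
        2 * c * ((d.D y (l1 + 1)) ^ s + (d.D y (l1 + 2)) ^ s) ≤ (4 + 4 * c) * (d.D y l0) ^ s := by
    intro l1 hl1
    induction l1, hl1 using Int.leInduction with
    | base =>
      rw [Finset.Icc_self, Finset.sum_singleton]
      have h1 := d.dl_le_two y l0
      have h2 := hpn l0
      have h3 := hmono l0 (l0 + 1) (by omega)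
      have h4 := hmono l0 (l0 + 2) (by omega)
      have h5 := d.dl_nonneg y l0
      nlinarith [mul_nonneg h2 h5]
    | succ l hl ih =>
      have hI : Finset.Icc l0 (l + 1) = insert (l + 1) (Finset.Icc l0 l) := by
        ext x; simp only [Finset.mem_Icc, Finset.mem_insert]; omega
      rw [hI, Finset.sum_insert (by simp)]
      have h1 := hdrop (l + 1)
      have h2 : (d.D y (l + 1)) ^ s * d.dl y (l + 1) ≤
          c * ((d.D y (l + 1)) ^ s - (d.D y (l + 1 + 2)) ^ s) + (1 / 2) * ((d.D y l) ^ s * d.dl y l) := by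
        rw [dl_succ]
        have h3 := hmono l (l + 1) (by omega)
        have h4 := d.dl_nonneg y l
        have h5 := mul_le_mul_of_nonneg_right h3 h4
        calc (d.D y (l + 1)) ^ s * (d.dr y (l + 1) + 1 / 2 * d.dl y l)
            = (d.D y (l + 1)) ^ s * d.dr y (l + 1) + (1 / 2) * ((d.D y (l + 1)) ^ s * d.dl y l) := by ring
          _ ≤ _ := by linarith
      have e1 : l + 1 + 1 = l + 2 := by ring
      rw [e1]
      nlinarith
  intro l1 hl1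
  have h := key l1 hl1
  have h1 := mul_nonneg (hpn l1) (d.dl_nonneg y l1)
  have h2 : 0 ≤ 2 * c * ((d.D y (l1 + 1)) ^ s + (d.D y (l1 + 2)) ^ s) := by
    have := hpn (l1 + 1)
    have := hpn (l1 + 2)
    positivity
  linarith

/-- no drops at very negative levels -/
lemma exists_no_drop : ∃ k0 : ℤ, ∀ y ∈ d.F, ∀ l ≤ k0, d.dl y l = 0 := by
  obtain ⟨t, ht⟩ := d.exists_window 0 0
  obtain ⟨R, hR⟩ := d.exists_R
  obtain ⟨n, hn⟩ := exists_e_le d.tot_pos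
  obtain ⟨_, _, h3⟩ := ht (max t R) (le_max_left _ _)
  obtain ⟨T, hT⟩ : ∃ T, T = max t R := ⟨_, rfl⟩
  rw [← hT] at h3
  have hRT : (2 : ℤ) ^ R ≤ 2 ^ T := pow_le_pow_right₀ (by norm_num) (by rw [hT]; exact le_max_right _ _)
  have hfull : ∀ y ∈ d.F, ∀ l : ℤ, l ≤ n - (T + 1) → d.D y l = d.tot := by
    intro y hy l hl
    apply le_antisymm (d.D_le_tot y l)
    have hy' := hR y hy
    have e1 : -(2 : ℤ) ^ T + 2 ^ (T + 1) = 2 ^ T := by rw [pow_succ]; ring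
    have h4 := d.le_D (y := y) (l := l) (u := -(2 : ℤ) ^ T) (t := T + 1) (by omega) (by rw [e1]; omega)
      (by rw [e1, h3]; exact le_trans (e_le (by push_cast; omega)) hn)
    rw [e1, h3] at h4
    exact h4
  refine ⟨n - (T + 1) - 2, fun y hy l hl => ?_⟩
  unfold dl
  have : ∀ j : ℕ, (1 / 2 : ℝ) ^ j * d.dr y (l - j) = 0 := by
    intro j
    have h1 := hfull y hy (l - j) (by omega)
    have h2 := hfull y hy (l - j + 2) (by omega)
    unfold dr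
    rw [h1, h2, if_neg, mul_zero]
    have := d.tot_pos
    linarith
  simp only [this, tsum_zero]

end Dat

end Pool.Agent.Helper107.CP
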