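import Mathlib
import Pool.Agent.Helper107.CPb

set_option autoImplicit false

namespace Pool.Agent.Helper107.CP

open Finset

namespace Dat

variable (d : Dat)

/-- Poisson-like average of the mass at the dyadic interval `(i,k)` -/
noncomputable def om (i : ℕ) (k : ℤ) : ℝ :=
  ∑ n ∈ d.F, d.m n * (2 ^ i / (2 ^ i + |(n : ℝ) - k * 2 ^ i|) ^ 2)

lemma om_nonneg (i : ℕ) (k : ℤ) : 0 ≤ d.om i k :=
  Finset.sum_nonneg (fun n _ => mul_nonneg (d.m0 n) (by positivity))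

lemma om_pos (i : ℕ) (k : ℤ) : 0 < d.om i k := by
  obtain ⟨n, hn, hn'⟩ : ∃ n ∈ d.F, 0 < d.m n := by
    by_contra hc
    push Not at hc
    have := Finset.sum_nonpos hc
    exact absurd d.pos (not_lt.2 this)
  apply Finset.sum_pos' (fun n _ => mul_nonneg (d.m0 n) (by positivity))
  exact ⟨n, hn, mul_pos hn' (by positivity)⟩

/-- tail estimate -/
lemma tail {i : ℕ} {k l : ℤ} (h : ¬ d.L i k (l + 1)) {u : ℕ} (hu : i + d.c0 ≤ u) :
    ∑ n ∈ d.F.filter (fun n => (2 : ℤ) ^ u ≤ |n - k * 2 ^ i|),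
      d.m n * (2 ^ i / (2 ^ i + |(n : ℝ) - k * 2 ^ i|) ^ 2) ≤ e (i + l + 4 - u) := by
  classical
  obtain ⟨c, hc⟩ : ∃ c : ℤ, c = k * 2 ^ i := ⟨_, rfl⟩
  have hcR : (k : ℝ) * 2 ^ i = (c : ℝ) := by rw [hc]; push_cast; ring
  -- choose a large scale
  obtain ⟨T, hT⟩ : ∃ T : ℕ, ∀ n ∈ d.F, |n - c| < 2 ^ T := by
    obtain ⟨N, hN⟩ : ∃ N : ℕ, ∀ v ∈ d.F, (v - c).natAbs ≤ N :=
      ⟨d.F.sup (fun v => (v - c).natAbs), fun v hv => Finset.le_sup (f := fun v => (v - c).natAbs) hv⟩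
    refine ⟨N, fun v hv => ?_⟩
    have h1 := hN v hv
    have h2 : N < 2 ^ N := Nat.lt_two_pow_self
    have h3 : (N : ℤ) < 2 ^ N := by exact_mod_cast h2
    have h4 : |v - c| = ((v - c).natAbs : ℤ) := Int.abs_eq_natAbs _
    omega
  rw [hcR, ← hc]
  have hpt : ∀ n ∈ d.F.filter (fun n => (2 : ℤ) ^ u ≤ |n - c|),
      d.m n * (2 ^ i / (2 ^ i + |(n : ℝ) - c|) ^ 2) ≤
        ∑ t ∈ Finset.Ico u T, e (i - 2 * t) * (if |n - c| < 2 ^ (t + 1) then d.m n else 0) := by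
    intro n hn
    rw [Finset.mem_filter] at hn
    obtain ⟨hnF, hnu⟩ := hn
    obtain ⟨a, ha⟩ : ∃ a : ℕ, (a : ℤ) = |n - c| := ⟨(n - c).natAbs, (Int.abs_eq_natAbs _).symm⟩
    have ha0 : a ≠ 0 := by
      rintro rfl
      have : (0 : ℤ) < 2 ^ u := by positivity
      push_cast at ha; omega
    obtain ⟨t, ht⟩ : ∃ t, t = Nat.log 2 a := ⟨_, rfl⟩
    have h1 : 2 ^ t ≤ a := by rw [ht]; exact Nat.pow_log_le_self 2 ha0
    have h2 : a < 2 ^ (t + 1) := by rw [ht]; exact Nat.lt_pow_succ_log_self (by norm_num) a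
    have h1' : (2 : ℤ) ^ t ≤ |n - c| := by rw [← ha]; exact_mod_cast h1
    have h2' : |n - c| < (2 : ℤ) ^ (t + 1) := by rw [← ha]; exact_mod_cast h2
    have htu : u ≤ t := by
      by_contra hcon
      have h3 : (2 : ℤ) ^ (t + 1) ≤ 2 ^ u := pow_le_pow_right₀ (by norm_num) (by omega)
      omega
    have htT : t < T := by
      by_contra hcon
      have h3 : (2 : ℤ) ^ T ≤ 2 ^ t := pow_le_pow_right₀ (by norm_num) (by omega)
      have := hT n hnF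
      omega
    refine le_trans ?_ (Finset.single_le_sum (f := fun t : ℕ => e (i - 2 * t) *
      (if |n - c| < 2 ^ (t + 1) then d.m n else 0)) (fun t _ => ?_) (Finset.mem_Ico.2 ⟨htu, htT⟩))
    · simp only [if_pos h2']
      have h4 : (2 : ℝ) ^ t ≤ |(n : ℝ) - c| := by
        have : ((2 ^ t : ℤ) : ℝ) ≤ ((|n - c| : ℤ) : ℝ) := by exact_mod_cast h1'
        push_cast at this; exact this
      have h5 : (2 : ℝ) ^ i / (2 ^ i + |(n : ℝ) - c|) ^ 2 ≤ e (i - 2 * t) := by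
        rw [e_sub, e_nat]
        have e1 : e (2 * (t : ℤ)) = (2 ^ t) ^ 2 := by
          have : 2 * (t : ℤ) = ((t + t : ℕ) : ℤ) := by push_cast; ring
          rw [this, e_nat, pow_add]; ring
        rw [e1]
        apply div_le_div_of_nonneg_left (by positivity) (by positivity)
        apply pow_le_pow_left₀ (by positivity)
        have : (0 : ℝ) < 2 ^ i := by positivity
        linarith
      rw [mul_comm]
      exact mul_le_mul_of_nonneg_right h5 (d.m0 n)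
    · have := d.m0 n
      have := (e_pos (i - 2 * t)).le
      split_ifs
      · positivity
      · simp
  refine le_trans (Finset.sum_le_sum hpt) ?_
  rw [Finset.sum_comm]
  have hin : ∀ t ∈ Finset.Ico u T, ∑ n ∈ d.F.filter (fun n => (2 : ℤ) ^ u ≤ |n - c|),
      e (i - 2 * t) * (if |n - c| < 2 ^ (t + 1) then d.m n else 0) ≤ e (i + l + 3 - t) := by
    intro t ht
    rw [Finset.mem_Ico] at ht
    rw [← Finset.mul_sum]
    have h1 : ∑ n ∈ d.F.filter (fun n => (2 : ℤ) ^ u ≤ |n - c|), (if |n - c| < 2 ^ (t + 1) then d.m n else 0)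
        ≤ d.mI (c - 2 ^ (t + 1)) (c + 2 ^ (t + 1)) := by
      rw [← Finset.sum_filter]
      unfold mI
      apply Finset.sum_le_sum_of_subset_of_nonneg
      · intro n hn
        rw [Finset.mem_filter] at hn
        have := abs_lt.1 hn.2
        rw [Finset.mem_Ico]; constructor <;> omega
      · intro v _ _; exact d.m0 v
    have h2 := d.mI_lt h (t := t + 1) (by omega)
    rw [← hc] at h2
    have e2 : i + l + 3 - (t : ℤ) = (i - 2 * t) + (l + ((t + 1 : ℕ) : ℤ) + 2) := by push_cast; ring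
    rw [e2, e_add]
    exact mul_le_mul_of_nonneg_left (le_trans h1 h2.le) (e_pos _).le
  refine le_trans (Finset.sum_le_sum hin) ?_
  -- geometric sum
  have hgeo : ∀ T' : ℕ, ∑ t ∈ Finset.Ico u (u + T'), e (i + l + 3 - t) ≤ e (i + l + 4 - u) - e (i + l + 4 - (u + T' : ℕ)) := by
    intro T'
    induction T' with
    | zero => simp
    | succ r ih =>
      rw [← add_assoc, Finset.sum_Ico_succ_top (by omega)]
      have e3 : i + l + 4 - ((u + r : ℕ) : ℤ) = (i + l + 4 - ((u + r + 1 : ℕ) : ℤ)) + 1 := by push_cast; ring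
      have e4 : i + l + 3 - ((u + r : ℕ) : ℤ) = (i + l + 4 - ((u + r + 1 : ℕ) : ℤ)) := by push_cast; ring
      rw [e3, e_succ] at ih
      rw [e4]
      linarith
  by_cases hTu : u ≤ T
  · obtain ⟨T', rfl⟩ := Nat.exists_eq_add_of_le hTu
    have := hgeo T'
    have := (e_pos (i + l + 4 - (u + T' : ℕ))).le
    linarith
  · rw [Finset.Ico_eq_empty (by omega), Finset.sum_empty]; exact (e_pos _).le

/-- near part -/
lemma near (i : ℕ) (k : ℤ) (u : ℕ) :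
    ∑ n ∈ d.F.filter (fun n => ¬ ((2 : ℤ) ^ u ≤ |n - k * 2 ^ i|)),
      d.m n * (2 ^ i / (2 ^ i + |(n : ℝ) - k * 2 ^ i|) ^ 2) ≤
      e (-(i : ℤ)) * d.mI (k * 2 ^ i - 2 ^ u) (k * 2 ^ i + 2 ^ u) := by
  have h1 : ∀ n ∈ d.F.filter (fun n => ¬ ((2 : ℤ) ^ u ≤ |n - k * 2 ^ i|)),
      d.m n * (2 ^ i / (2 ^ i + |(n : ℝ) - k * 2 ^ i|) ^ 2) ≤ e (-(i : ℤ)) * d.m n := by
    intro n _
    rw [mul_comm]
    apply mul_le_mul_of_nonneg_right _ (d.m0 n)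
    rw [e_neg, e_nat]
    have hp : (0 : ℝ) < 2 ^ i := by positivity
    rw [div_le_iff₀ (by positivity), pow_two, inv_mul_eq_div, le_div_iff₀ hp]
    have := abs_nonneg ((n : ℝ) - k * 2 ^ i)
    nlinarith
  refine le_trans (Finset.sum_le_sum h1) ?_
  rw [← Finset.mul_sum]
  apply mul_le_mul_of_nonneg_left _ (e_pos _).le
  unfold mI
  apply Finset.sum_le_sum_of_subset_of_nonneg
  · intro n hn
    rw [Finset.mem_filter] at hn
    have := abs_lt.1 (not_le.1 hn.2)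
    rw [Finset.mem_Ico]; constructor <;> omega
  · intro v _ _; exact d.m0 v

lemma om_split {i : ℕ} {k l : ℤ} (h : ¬ d.L i k (l + 1)) {u : ℕ} (hu : i + d.c0 ≤ u) :
    d.om i k ≤ e (-(i : ℤ)) * d.mI (k * 2 ^ i - 2 ^ u) (k * 2 ^ i + 2 ^ u) + e (i + l + 4 - u) := by
  have h1 := d.tail h hu
  have h2 := d.near i k u
  have h3 := Finset.sum_filter_add_sum_filter_not d.F (fun n => (2 : ℤ) ^ u ≤ |n - k * 2 ^ i|)
    (fun n => d.m n * (2 ^ i / (2 ^ i + |(n : ℝ) - k * 2 ^ i|) ^ 2))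
  unfold om
  linarith

/-- (ω4) -/
lemma om_le (i : ℕ) (k : ℤ) : d.om i k ≤ e (d.lev i k + d.c0 + 3) := by
  have h1 := d.om_split (d.not_L i k) (u := i + d.c0) le_rfl
  have h2 := d.mI_lt (d.not_L i k) (t := i + d.c0) le_rfl
  have h3 := d.hc0
  have h4 : e (-(i : ℤ)) * d.mI (k * 2 ^ i - 2 ^ (i + d.c0)) (k * 2 ^ i + 2 ^ (i + d.c0)) ≤
      e (d.lev i k + d.c0 + 2) := by
    have e1 : d.lev i k + d.c0 + 2 = -(i : ℤ) + (d.lev i k + ((i + d.c0 : ℕ) : ℤ) + 2) := by push_cast; ring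
    rw [e1, e_add]
    exact mul_le_mul_of_nonneg_left h2.le (e_pos _).le
  have h5 : e (i + d.lev i k + 4 - ((i + d.c0 : ℕ) : ℤ)) ≤ e (d.lev i k + d.c0 + 2) := by
    apply e_le; push_cast; omega
  have e2 : d.lev i k + d.c0 + 3 = (d.lev i k + d.c0 + 2) + 1 := by ring
  rw [e2, e_succ]
  linarith

/-- the defect index -/
noncomputable def jj (i : ℕ) (k : ℤ) : ℕ := sSup {j : ℕ | d.om i k ≤ e (d.lev i k + d.c0 + 3 - j)}

lemma jj_bdd (i : ℕ) (k : ℤ) : BddAbove {j : ℕ | d.om i k ≤ e (d.lev i k + d.c0 + 3 - j)} := by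
  obtain ⟨n, hn⟩ := exists_e_le (d.om_pos i k)
  refine ⟨(d.lev i k + d.c0 + 3 - n).toNat, fun j hj => ?_⟩
  have h := e_le_iff.1 (le_trans hn hj)
  omega

lemma jj_spec (i : ℕ) (k : ℤ) : d.om i k ≤ e (d.lev i k + d.c0 + 3 - d.jj i k) := by
  have h0 : (0 : ℕ) ∈ {j : ℕ | d.om i k ≤ e (d.lev i k + d.c0 + 3 - j)} := by
    have := d.om_le i k
    simpa using this
  exact Nat.sSup_mem ⟨0, h0⟩ (d.jj_bdd i k)

lemma jj_spec' (i : ℕ) (k : ℤ) : e (d.lev i k + d.c0 + 2 - d.jj i k) < d.om i k := by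
  by_contra hc
  have h1 : d.jj i k + 1 ∈ {j : ℕ | d.om i k ≤ e (d.lev i k + d.c0 + 3 - j)} := by
    show d.om i k ≤ e (d.lev i k + d.c0 + 3 - ((d.jj i k + 1 : ℕ) : ℤ))
    have e1 : d.lev i k + d.c0 + 3 - ((d.jj i k + 1 : ℕ) : ℤ) = d.lev i k + d.c0 + 2 - d.jj i k := by
      push_cast; ring
    rw [e1]; exact not_lt.1 hc
  have h2 := le_csSup (d.jj_bdd i k) h1
  unfold jj at h2
  omega

/-- (ω5) -/
lemma mass_R (i : ℕ) (k : ℤ) : e (i + d.lev i k + d.c0 + 1 - d.jj i k) ≤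
    d.mI (k * 2 ^ i - 2 ^ (i + d.c0 + d.jj i k)) (k * 2 ^ i + 2 ^ (i + d.c0 + d.jj i k)) := by
  have h1 := d.om_split (d.not_L i k) (u := i + d.c0 + d.jj i k) (by omega)
  have h2 := d.jj_spec' i k
  have h3 := d.hc0
  have h4 : e (i + d.lev i k + 4 - ((i + d.c0 + d.jj i k : ℕ) : ℤ)) ≤ e (d.lev i k + d.c0 + 1 - d.jj i k) := by
    apply e_le; push_cast; omega
  have e1 : d.lev i k + d.c0 + 2 - d.jj i k = (d.lev i k + d.c0 + 1 - d.jj i k) + 1 := by ring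
  rw [e1, e_succ] at h2
  have h5 : e (d.lev i k + d.c0 + 1 - d.jj i k) ≤ e (-(i : ℤ)) *
      d.mI (k * 2 ^ i - 2 ^ (i + d.c0 + d.jj i k)) (k * 2 ^ i + 2 ^ (i + d.c0 + d.jj i k)) := by linarith
  have e2 : i + d.lev i k + d.c0 + 1 - d.jj i k = (i : ℤ) + (d.lev i k + d.c0 + 1 - d.jj i k) := by ring
  rw [e2, e_add]
  calc e i * e (d.lev i k + d.c0 + 1 - d.jj i k)
      ≤ e i * (e (-(i : ℤ)) * d.mI (k * 2 ^ i - 2 ^ (i + d.c0 + d.jj i k)) (k * 2 ^ i + 2 ^ (i + d.c0 + d.jj i k))) :=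
        mul_le_mul_of_nonneg_left h5 (e_pos _).le
    _ = _ := by
        rw [← mul_assoc, ← e_add, add_neg_cancel, e_zero, one_mul]

/-- (ω6) -/
lemma mI_le_om (i : ℕ) (k : ℤ) (a : ℕ) :
    d.mI (k * 2 ^ i - 2 ^ (i + a)) (k * 2 ^ i + 2 ^ (i + a)) ≤ d.om i k * (2 ^ i * (2 ^ (a + 1)) ^ 2) := by
  unfold mI om
  have h1 : ∑ v ∈ Finset.Ico (k * 2 ^ i - 2 ^ (i + a)) (k * 2 ^ i + 2 ^ (i + a)), d.m v =
      ∑ v ∈ (Finset.Ico (k * 2 ^ i - 2 ^ (i + a)) (k * 2 ^ i + 2 ^ (i + a))).filter (· ∈ d.F), d.m v := by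
    rw [Finset.sum_filter_of_ne]
    intro v _ hv
    by_contra hc
    exact hv (d.mF v hc)
  rw [h1, Finset.sum_mul]
  have h2 : ∀ v ∈ (Finset.Ico (k * 2 ^ i - 2 ^ (i + a)) (k * 2 ^ i + 2 ^ (i + a))).filter (· ∈ d.F),
      d.m v ≤ d.m v * (2 ^ i / (2 ^ i + |(v : ℝ) - k * 2 ^ i|) ^ 2) * (2 ^ i * (2 ^ (a + 1)) ^ 2) := by
    intro v hv
    rw [Finset.mem_filter, Finset.mem_Ico] at hv
    have h3 : |(v : ℝ) - k * 2 ^ i| ≤ 2 ^ (i + a) := by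
      rw [abs_le]
      have h4 : ((k * 2 ^ i - 2 ^ (i + a) : ℤ) : ℝ) ≤ v := by exact_mod_cast hv.1.1
      have h5 : (v : ℝ) ≤ ((k * 2 ^ i + 2 ^ (i + a) : ℤ) : ℝ) := by exact_mod_cast hv.1.2.le
      push_cast at h4 h5
      constructor <;> linarith
    have hp : (0 : ℝ) < 2 ^ i := by positivity
    have ha : (1 : ℝ) ≤ 2 ^ a := one_le_pow₀ (by norm_num)
    have h6 : (2 ^ i + |(v : ℝ) - k * 2 ^ i|) ^ 2 ≤ 2 ^ i * (2 ^ i * (2 ^ (a + 1)) ^ 2) := by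
      have h7 : 2 ^ i + |(v : ℝ) - k * 2 ^ i| ≤ 2 ^ i * 2 ^ (a + 1) := by
        have : (2 : ℝ) ^ (i + a) = 2 ^ i * 2 ^ a := by ring
        have e3 : (2 : ℝ) ^ (a + 1) = 2 ^ a * 2 := by ring
        rw [e3]
        nlinarith
      calc (2 ^ i + |(v : ℝ) - k * 2 ^ i|) ^ 2 ≤ (2 ^ i * 2 ^ (a + 1)) ^ 2 :=
            pow_le_pow_left₀ (by positivity) h7 2
        _ = _ := by ring
    have h8 : (1 : ℝ) ≤ (2 ^ i / (2 ^ i + |(v : ℝ) - k * 2 ^ i|) ^ 2) * (2 ^ i * (2 ^ (a + 1)) ^ 2) := by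
      rw [div_mul_eq_mul_div, le_div_iff₀ (by positivity), one_mul]; exact h6
    have := d.m0 v
    nlinarith
  refine le_trans (Finset.sum_le_sum h2) ?_
  apply Finset.sum_le_sum_of_subset_of_nonneg
  · intro v hv; exact (Finset.mem_filter.1 hv).2
  · intro v _ _
    have := d.m0 v
    positivity

/-- (ω3) -/
lemma om_parent (i : ℕ) (k : ℤ) : d.om (i + 1) (k / 2) ≤ 2 * d.om i k := by
  unfold om
  rw [Finset.mul_sum]
  apply Finset.sum_le_sum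
  intro n _
  have h1 : |((k / 2 : ℤ) : ℝ) * 2 ^ (i + 1) - k * 2 ^ i| ≤ 2 ^ i := by
    have hp : (0 : ℝ) < 2 ^ i := by positivity
    have h2 : (k / 2) * 2 ≤ k := by omega
    have h3 : k ≤ (k / 2) * 2 + 1 := by omega
    have h2' : ((k / 2 : ℤ) : ℝ) * 2 ≤ k := by exact_mod_cast h2
    have h3' : (k : ℝ) ≤ ((k / 2 : ℤ) : ℝ) * 2 + 1 := by exact_mod_cast h3
    rw [abs_le, pow_succ]
    constructor <;> nlinarith
  have h4 : |(n : ℝ) - k * 2 ^ i| ≤ |(n : ℝ) - ((k / 2 : ℤ) : ℝ) * 2 ^ (i + 1)| + 2 ^ i := by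
    have := abs_add_le ((n : ℝ) - ((k / 2 : ℤ) : ℝ) * 2 ^ (i + 1)) (((k / 2 : ℤ) : ℝ) * 2 ^ (i + 1) - k * 2 ^ i)
    rw [show (n : ℝ) - ((k / 2 : ℤ) : ℝ) * 2 ^ (i + 1) + (((k / 2 : ℤ) : ℝ) * 2 ^ (i + 1) - k * 2 ^ i) =
      n - k * 2 ^ i by ring] at this
    linarith
  have hm := d.m0 n
  have h5 : (2 : ℝ) ^ (i + 1) / (2 ^ (i + 1) + |(n : ℝ) - ((k / 2 : ℤ) : ℝ) * 2 ^ (i + 1)|) ^ 2 ≤
      2 * (2 ^ i / (2 ^ i + |(n : ℝ) - k * 2 ^ i|) ^ 2) := by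
    rw [← mul_div_assoc, show (2 : ℝ) * 2 ^ i = 2 ^ (i + 1) by ring]
    apply div_le_div_of_nonneg_left (by positivity) (by positivity)
    apply pow_le_pow_left₀ (by positivity)
    have e5 : (2 : ℝ) ^ (i + 1) = 2 ^ i + 2 ^ i := by ring
    linarith
  calc d.m n * (2 ^ (i + 1) / (2 ^ (i + 1) + |(n : ℝ) - ((k / 2 : ℤ) : ℝ) * 2 ^ (i + 1)|) ^ 2)
      ≤ d.m n * (2 * (2 ^ i / (2 ^ i + |(n : ℝ) - k * 2 ^ i|) ^ 2)) := mul_le_mul_of_nonneg_left h5 hm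
    _ = _ := by ring

end Dat

end Pool.Agent.Helper107.CP
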