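import Mathlib
import Pool.Agent.Helper107.CPc

set_option autoImplicit false

namespace Pool.Agent.Helper107.CP

open Finset

/-- a weight system with constant `Ca` -/
structure WS (d : Dat) (Ca : ℝ) (a : ℕ → ℤ → ℝ) : Prop where
  nn : ∀ i k, 0 ≤ a i k
  w1 : ∀ i k, a i k ≤ Ca * (1 / 2 : ℝ) ^ (d.jj i k)
  w2 : ∀ (l : ℤ) (j : ℕ) (i : ℕ) (k : ℤ),
    car (fun i k => if d.lev i k = l ∧ d.jj i k = j then a i k else 0) i k ≤ Ca * (1 / 2 : ℝ) ^ j * 2 ^ i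

/-- the part of a weight system at level `l` -/
noncomputable def atl (d : Dat) (a : ℕ → ℤ → ℝ) (l : ℤ) : ℕ → ℤ → ℝ :=
  fun i k => if d.lev i k = l then a i k else 0

/-- the charge density at level `l` near `(n,k0)` -/
noncomputable def chg (d : Dat) (l : ℤ) (n : ℕ) (k0 : ℤ) : ℝ :=
  ∑ y ∈ d.F.filter (fun y => |y - k0 * 2 ^ n| ≤ 2 ^ (n + d.c0 - 3)), d.m y * d.dl y l

/-- the excess estimate (statement) -/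
def Excess : Prop := ∀ Ca : ℝ, 1 ≤ Ca → ∃ (n0 : ℕ) (ρ Cx : ℝ), 0 < ρ ∧ ρ < 1 ∧ 0 < Cx ∧ Ca ≤ n0 ∧
  ∀ (d : Dat) (a : ℕ → ℤ → ℝ), WS d Ca a → ∀ (l : ℤ) (n : ℕ) (k0 : ℤ) (lam : ℕ), n0 ≤ lam →
    (((dy n k0).filter (fun x => (lam : ℝ) < pt (atl d a l) n x)).card : ℝ) ≤ Cx * ρ ^ lam * 2 ^ n ∧
    (((dy n k0).filter (fun x => (lam : ℝ) < pt (atl d a l) n x)).card : ℝ) ≤
      Cx * ρ ^ lam * (e (-l) * chg d l n k0)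

/-- the potential weight system -/
noncomputable def gsys (d : Dat) (p : ℝ) (lo hi : ℤ) (i : ℕ) (k : ℤ) : ℝ :=
  (e (-(d.lev i k))) ^ p * ((2 : ℝ) ^ i) ^ (-p) *
    ∑ y ∈ d.F.filter (fun y => |y - k * 2 ^ i| ≤ 2 ^ (i + 1)),
      d.m y * ∑ l' ∈ (Finset.Icc lo hi).filter (fun l' => l' ≤ d.lev 0 y ∧ d.isc y l' ≤ i),
        d.dl y l' * (e (l' + d.isc y l')) ^ (p - 1)

def GsysWS : Prop := ∀ p : ℝ, 1 < p → ∀ c0 : ℕ, ∃ Cg : ℝ, 1 ≤ Cg ∧ ∀ d : Dat, d.c0 = c0 →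
  ∀ lo hi : ℤ, WS d Cg (gsys d p lo hi)

/-- weights satisfying the discrete `C_p` condition -/
structure CpW (p C ε : ℝ) (U : ℤ → ℝ) : Prop where
  nn : ∀ n, 0 ≤ U n
  sm : Summable (fun n : ℤ => U n * (1 / (1 + |(n : ℝ)|)) ^ p)
  cp : ∀ (i : ℕ) (k : ℤ) (E : Finset ℤ), E ⊆ Finset.Ico (k * 2 ^ i) ((k + 1) * 2 ^ i) →
        ∑ n ∈ E, U n ≤ C * ((E.card : ℝ) / 2 ^ i) ^ ε *
          ∑' n : ℤ, U n * ((2 : ℝ) ^ i / (2 ^ i + |(n : ℝ) - k * 2 ^ i|)) ^ p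

open Classical in
/-- `t ↦ t^r 1_{t > λ₀}` -/
noncomputable def Phi (lam0 r : ℕ) (t : ℝ) : ℝ := if (lam0 : ℝ) < t then t ^ r else 0

/-- the statement of the weight lemma on one interval -/
def WeightD : Prop := ∀ (C ε κ q : ℝ), 0 < C → 0 < ε → 0 < κ → 1 < q →
    ∃ C' ε' : ℝ, 0 < C' ∧ 0 < ε' ∧
    ∀ (n : ℕ) (k0 : ℤ) (u : ℤ → ℝ) (a b : ℕ → ℤ → ℝ) (B : ℝ), (∀ x, 0 ≤ u x) →
      (∀ i k, 0 ≤ a i k) → (∀ i k, 0 ≤ b i k) → 0 ≤ B →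
      (∀ (i : ℕ) (k : ℤ) (E : Finset ℤ), E ⊆ Finset.Ico (k * 2 ^ i) ((k + 1) * 2 ^ i) →
        ∑ x ∈ E, u x ≤ C * ((E.card : ℝ) / 2 ^ i) ^ ε * a i k) →
      (∀ (i : ℕ) (k : ℤ), b (i + 1) k < κ * a (i + 1) k →
        a i (2 * k) ≤ (2 : ℝ) ^ (-q) * a (i + 1) k ∧ a i (2 * k + 1) ≤ (2 : ℝ) ^ (-q) * a (i + 1) k) →
      (∀ i ≤ n, ∑ k ∈ Finset.Ico (k0 * 2 ^ (n - i)) ((k0 + 1) * 2 ^ (n - i)), b i k ≤ C * B) →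
      ∀ E : Finset ℤ, E ⊆ Finset.Ico (k0 * 2 ^ n) ((k0 + 1) * 2 ^ n) →
        ∑ x ∈ E, u x ≤ C' * (((E.card : ℝ) / 2 ^ n) ^ ε' * B + ((E.card : ℝ) / 2 ^ n) * a n k0)

/-- consequence for weights: with `A = 2^(c0-4)`, on one dyadic interval -/
def LocalD : Prop := ∀ p : ℝ, 1 < p → ∀ C ε : ℝ, 0 < C → 0 < ε → ∃ (c0 : ℕ) (C' ε' : ℝ), 4 ≤ c0 ∧ 0 < C' ∧ 0 < ε' ∧
  ∀ U : ℤ → ℝ, CpW p C ε U → ∀ (n : ℕ) (k0 : ℤ) (E : Finset ℤ), E ⊆ dy n k0 →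
    ∑ x ∈ E, U x ≤ C' * (((E.card : ℝ) / 2 ^ n) ^ ε' *
        (∑ x ∈ Finset.Icc (k0 * 2 ^ n - 2 ^ (n + c0 - 3)) (k0 * 2 ^ n + 2 ^ (n + c0 - 3)), U x) +
      ((E.card : ℝ) / 2 ^ n) * ∑' x : ℤ, U x * ((2 : ℝ) ^ n / (2 ^ n + |(x : ℝ) - k0 * 2 ^ n|)) ^ p)

/-- main weight lemma (one level) -/
def MainW : Prop := ∀ p : ℝ, 1 < p → ∀ (c0 : ℕ) (C' ε' : ℝ), 4 ≤ c0 → 0 < C' → 0 < ε' →
  ∀ (Ca : ℝ) (r : ℕ), 1 ≤ Ca → 1 ≤ r → ∃ (n0 : ℕ) (ρ K : ℝ), 0 < ρ ∧ ρ < 1 ∧ 0 < K ∧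
  ∀ (d : Dat), d.c0 = c0 → ∀ U : ℤ → ℝ, (∀ n, 0 ≤ U n) →
    Summable (fun n : ℤ => U n * (1 / (1 + |(n : ℝ)|)) ^ p) →
    (∀ (n : ℕ) (k0 : ℤ) (E : Finset ℤ), E ⊆ dy n k0 →
      ∑ x ∈ E, U x ≤ C' * (((E.card : ℝ) / 2 ^ n) ^ ε' *
        (∑ x ∈ Finset.Icc (k0 * 2 ^ n - 2 ^ (n + c0 - 3)) (k0 * 2 ^ n + 2 ^ (n + c0 - 3)), U x) +
      ((E.card : ℝ) / 2 ^ n) * ∑' x : ℤ, U x * ((2 : ℝ) ^ n / (2 ^ n + |(x : ℝ) - k0 * 2 ^ n|)) ^ p)) →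
    ∀ a : ℕ → ℤ → ℝ, WS d Ca a → ∀ (lam0 : ℕ), n0 ≤ lam0 → ∀ (l : ℤ) (X : Finset ℤ) (T : ℕ),
      ∑ x ∈ X, ENNReal.ofReal (U x * Phi lam0 r (pt (atl d a l) T x)) ≤
        ENNReal.ofReal K * ∑' x : ℤ, ENNReal.ofReal (if l ≤ d.lev 0 x then U x else 0) +
        ENNReal.ofReal (K * ρ ^ lam0) * ENNReal.ofReal ((e (-l)) ^ p) *
          ∑ y ∈ d.F, ENNReal.ofReal (if l ≤ d.lev 0 y then d.m y * d.dl y l * (e (l + d.isc y l)) ^ (p - 1) else 0) *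
            ∑' x : ℤ, ENNReal.ofReal (U x * ((2 : ℝ) ^ (d.isc y l) + |(x : ℝ) - y|) ^ (-p))

/-- the singular integral part (statement) -/
def HPart : Prop := ∀ c0 : ℕ, ∃ KH : ℝ, 0 < KH ∧ ∀ d : Dat, d.c0 = c0 → ∀ f : ℤ → ℝ, (∀ n, |f n| = d.m n) →
  ∀ G : ℤ → ℝ, (∀ (n u : ℤ) (t : ℕ), u ≤ n → n < u + 2 ^ t →
          ∑ v ∈ Finset.Ico u (u + 2 ^ t), |f v| ≤ 2 ^ t * G n) →
  ∀ X : Finset ℤ, ∃ T0 : ℕ, ∀ T : ℕ, T0 ≤ T → ∃ s : ℕ → ℤ → ℝ, (∀ i k, s i k = 0 ∨ s i k = 1) ∧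
    (∀ i k, car s i k ≤ 3 * 2 ^ i) ∧
    ∀ x ∈ X, |∑ v ∈ d.F.erase x, f v / ((x : ℝ) - (v : ℝ))| ≤
      KH * (G x + ∑ i ∈ Finset.range (T + 1), s i (x / 2 ^ i) * d.om i (x / 2 ^ i))

end Pool.Agent.Helper107.CP
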