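import Mathlib
import Pool.Agent.Helper107.CPd

set_option autoImplicit false

namespace Pool.Agent.Helper107.CP

open Finset

/-- the charges -/
noncomputable def qch (d : Dat) (p : ℝ) (y l : ℤ) : ℝ :=
  if l ≤ d.lev 0 y then d.m y * d.dl y l * (e (l + d.isc y l)) ^ (p - 1) else 0

/-- the potential -/
noncomputable def Xi (d : Dat) (p : ℝ) (lo hi : ℤ) (x : ℤ) : ℝ :=
  ∑ y ∈ d.F, ∑ l ∈ Finset.Icc lo hi, qch d p y l * ((2 : ℝ) ^ (d.isc y l) + |(x : ℝ) - y|) ^ (-p)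

noncomputable def UU (U φ : ℤ → ℝ) : ENNReal := ∑' x : ℤ, ENNReal.ofReal (U x * φ x)

lemma qch_nonneg (d : Dat) (p : ℝ) (y l : ℤ) : 0 ≤ qch d p y l := by
  unfold qch
  split_ifs
  · have := d.m0 y
    have := d.dl_nonneg y l
    have := (e_pos (l + d.isc y l)).le
    positivity
  · exact le_rfl

lemma Xi_nonneg (d : Dat) (p : ℝ) (lo hi x : ℤ) : 0 ≤ Xi d p lo hi x :=
  Finset.sum_nonneg (fun y _ => Finset.sum_nonneg (fun l _ =>
    mul_nonneg (qch_nonneg d p y l) (by positivity)))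

lemma sum_e_le (Λ : Finset ℤ) (K : ℤ) : ∑ l ∈ Λ, (if l ≤ K then e (l - K) else 0) ≤ 2 := by
  classical
  rw [← Finset.sum_filter]
  have h1 : ∑ l ∈ Λ.filter (fun l => l ≤ K), e (l - K) =
      ∑ n ∈ (Λ.filter (fun l => l ≤ K)).image (fun l => (K - l).toNat), (1 / 2 : ℝ) ^ n := by
    rw [Finset.sum_image]
    · apply Finset.sum_congr rfl
      intro l hl
      rw [Finset.mem_filter] at hl
      have : l - K = -(((K - l).toNat : ℕ) : ℤ) := by
        rw [Int.toNat_of_nonneg (by omega)]; ring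
      conv_lhs => rw [this]
      rw [e_neg, e_nat, one_div, inv_pow]
    · intro l hl l' hl' h
      rw [Finset.mem_coe, Finset.mem_filter] at hl hl'
      simp only at h
      omega
  rw [h1]
  calc _ ≤ ∑' n : ℕ, (1 / 2 : ℝ) ^ n := summable_geometric_two.sum_le_tsum _ (fun n _ => by positivity)
    _ = 2 := tsum_geometric_two

lemma e_rpow_le {p : ℝ} (hp : 1 ≤ p) {l K : ℤ} (h : l ≤ K) : (e l) ^ p ≤ (e K) ^ p * e (l - K) := by
  have h1 : e l = e K * e (l - K) := by rw [← e_add]; congr 1; ring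
  rw [h1, Real.mul_rpow (e_pos _).le (e_pos _).le]
  apply mul_le_mul_of_nonneg_left _ (Real.rpow_nonneg (e_pos _).le _)
  have h2 : e (l - K) ≤ 1 := by rw [← e_zero]; exact e_le (by omega)
  have h3 := Real.rpow_le_rpow_of_exponent_ge (e_pos (l - K)) h2 hp
  rwa [Real.rpow_one] at h3

lemma sum_ep_le {p : ℝ} (hp : 1 ≤ p) (Λ : Finset ℤ) (K : ℤ) :
    ∑ l ∈ Λ, (if l ≤ K then (e l) ^ p else 0) ≤ 2 * (e K) ^ p := by
  have h1 : ∑ l ∈ Λ, (if l ≤ K then (e l) ^ p else 0) ≤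
      ∑ l ∈ Λ, (e K) ^ p * (if l ≤ K then e (l - K) else 0) := by
    apply Finset.sum_le_sum
    intro l _
    split_ifs with h
    · exact e_rpow_le hp h
    · simp
  rw [← Finset.mul_sum] at h1
  have h2 := sum_e_le Λ K
  have h3 : 0 ≤ (e K) ^ p := Real.rpow_nonneg (e_pos _).le _
  nlinarith

/-- the weak form of the one-level estimate summed over levels -/
lemma sum_levels {p : ℝ} (hp : 1 < p) (d : Dat) (U : ℤ → ℝ) (hU : ∀ n, 0 ≤ U n) (G : ℤ → ℝ)
    (hG : ∀ x, e (d.lev 0 x) ≤ G x) (lo hi : ℤ) (hlo : ∀ y ∈ d.F, ∀ l < lo, d.dl y l = 0)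
    (hhi : ∀ y ∈ d.F, d.lev 0 y ≤ hi) (φ : ℤ → ℤ → ℝ) (hφ : ∀ l x, 0 ≤ φ l x) (X : Finset ℤ) (K κ : ℝ) (hK : 0 ≤ K)
    (hκ : 0 ≤ κ)
    (h : ∀ l : ℤ, ∑ x ∈ X, ENNReal.ofReal (U x * φ l x) ≤
        ENNReal.ofReal K * ∑' x : ℤ, ENNReal.ofReal (if l ≤ d.lev 0 x then U x else 0) +
        ENNReal.ofReal κ * ENNReal.ofReal ((e (-l)) ^ p) *
          ∑ y ∈ d.F, ENNReal.ofReal (if l ≤ d.lev 0 y then d.m y * d.dl y l * (e (l + d.isc y l)) ^ (p - 1) else 0) *
            ∑' x : ℤ, ENNReal.ofReal (U x * ((2 : ℝ) ^ (d.isc y l) + |(x : ℝ) - y|) ^ (-p))) (Λ : Finset ℤ) :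
    ∑ x ∈ X, ENNReal.ofReal (U x * ∑ l ∈ Λ, (e l) ^ p * φ l x) ≤
      ENNReal.ofReal (2 * K) * UU U (fun x => (G x) ^ p) + ENNReal.ofReal κ * UU U (Xi d p lo hi) := by
  classical
  have hep : ∀ l, 0 ≤ (e l) ^ p := fun l => Real.rpow_nonneg (e_pos _).le _
  have h1 : ∑ x ∈ X, ENNReal.ofReal (U x * ∑ l ∈ Λ, (e l) ^ p * φ l x) =
      ∑ l ∈ Λ, ENNReal.ofReal ((e l) ^ p) * ∑ x ∈ X, ENNReal.ofReal (U x * φ l x) := by
    simp_rw [Finset.mul_sum]
    rw [Finset.sum_comm]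
    apply Finset.sum_congr rfl
    intro x _
    rw [ENNReal.ofReal_sum_of_nonneg (fun l _ => mul_nonneg (hU x) (mul_nonneg (hep l) (hφ l x)))]
    apply Finset.sum_congr rfl
    intro l _
    rw [← ENNReal.ofReal_mul (hep l)]
    congr 1; ring
  rw [h1]
  have h2 : ∑ l ∈ Λ, ENNReal.ofReal ((e l) ^ p) * ∑ x ∈ X, ENNReal.ofReal (U x * φ l x) ≤
      ∑ l ∈ Λ, (ENNReal.ofReal K * (ENNReal.ofReal ((e l) ^ p) * ∑' x : ℤ, ENNReal.ofReal (if l ≤ d.lev 0 x then U x else 0)) +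
        ENNReal.ofReal κ * ∑ y ∈ d.F, ENNReal.ofReal (qch d p y l) *
            ∑' x : ℤ, ENNReal.ofReal (U x * ((2 : ℝ) ^ (d.isc y l) + |(x : ℝ) - y|) ^ (-p))) := by
    apply Finset.sum_le_sum
    intro l _
    refine le_trans (mul_le_mul_right (h l) _) (le_of_eq ?_)
    have e1 : ENNReal.ofReal ((e l) ^ p) * ENNReal.ofReal ((e (-l)) ^ p) = 1 := by
      rw [← ENNReal.ofReal_mul (hep l), ← Real.mul_rpow (e_pos _).le (e_pos _).le, ← e_add, add_neg_cancel,
        e_zero, Real.one_rpow, ENNReal.ofReal_one]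
    rw [mul_add]
    congr 1
    · ring
    · unfold qch
      calc _ = (ENNReal.ofReal ((e l) ^ p) * ENNReal.ofReal ((e (-l)) ^ p)) * (ENNReal.ofReal κ *
            ∑ y ∈ d.F, ENNReal.ofReal (if l ≤ d.lev 0 y then d.m y * d.dl y l * (e (l + d.isc y l)) ^ (p - 1) else 0) *
            ∑' x : ℤ, ENNReal.ofReal (U x * ((2 : ℝ) ^ (d.isc y l) + |(x : ℝ) - y|) ^ (-p))) := by ring
        _ = _ := by rw [e1, one_mul]
  refine le_trans h2 ?_
  rw [Finset.sum_add_distrib, ← Finset.mul_sum, ← Finset.mul_sum]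
  apply add_le_add
  · rw [show 2 * K = K * 2 by ring, ENNReal.ofReal_mul hK, mul_assoc]
    gcongr
    have e2 : ∀ l, ENNReal.ofReal ((e l) ^ p) * ∑' x : ℤ, ENNReal.ofReal (if l ≤ d.lev 0 x then U x else 0) =
        ∑' x : ℤ, ENNReal.ofReal (U x * (if l ≤ d.lev 0 x then (e l) ^ p else 0)) := by
      intro l
      rw [← ENNReal.tsum_mul_left]
      apply tsum_congr
      intro x
      rw [← ENNReal.ofReal_mul (hep l)]
      split_ifs <;> ring_nf
    simp_rw [e2]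
    rw [← (Summable.tsum_finsetSum (fun l _ => ENNReal.summable))]
    unfold UU
    rw [← ENNReal.tsum_mul_left]
    apply ENNReal.tsum_le_tsum
    intro x
    rw [← ENNReal.ofReal_sum_of_nonneg (fun l _ => mul_nonneg (hU x) (by split_ifs <;> [exact hep l; exact le_rfl])),
      ← Finset.mul_sum, ← ENNReal.ofReal_mul (by norm_num)]
    apply ENNReal.ofReal_le_ofReal
    have h3 := sum_ep_le hp.le Λ (d.lev 0 x)
    have h4 : (e (d.lev 0 x)) ^ p ≤ (G x) ^ p := Real.rpow_le_rpow (e_pos _).le (hG x) (by linarith)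
    have h5 := hU x
    calc U x * ∑ l ∈ Λ, (if l ≤ d.lev 0 x then (e l) ^ p else 0) ≤ U x * (2 * (e (d.lev 0 x)) ^ p) :=
          mul_le_mul_of_nonneg_left h3 h5
      _ ≤ U x * (2 * (G x) ^ p) := by
          apply mul_le_mul_of_nonneg_left _ h5; linarith
      _ = _ := by ring
  · gcongr
    have e3 : UU U (Xi d p lo hi) = ∑ l ∈ Finset.Icc lo hi, ∑ y ∈ d.F, ENNReal.ofReal (qch d p y l) *
            ∑' x : ℤ, ENNReal.ofReal (U x * ((2 : ℝ) ^ (d.isc y l) + |(x : ℝ) - y|) ^ (-p)) := by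
      unfold UU Xi
      simp_rw [← ENNReal.tsum_mul_left]
      rw [Finset.sum_comm]
      simp_rw [← (Summable.tsum_finsetSum (fun l _ => ENNReal.summable))]
      apply tsum_congr
      intro x
      rw [Finset.mul_sum, ENNReal.ofReal_sum_of_nonneg]
      · apply Finset.sum_congr rfl
        intro y _
        rw [Finset.mul_sum, ENNReal.ofReal_sum_of_nonneg]
        · apply Finset.sum_congr rfl
          intro l _
          rw [← ENNReal.ofReal_mul (qch_nonneg d p y l)]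
          congr 1; ring
        · intro l _
          have := qch_nonneg d p y l
          have := hU x
          positivity
      · intro y _
        apply mul_nonneg (hU x)
        apply Finset.sum_nonneg
        intro l _
        have := qch_nonneg d p y l
        positivity
    rw [e3]
    have e4 : ∀ l, l ∉ Finset.Icc lo hi → ∑ y ∈ d.F, ENNReal.ofReal (qch d p y l) *
            ∑' x : ℤ, ENNReal.ofReal (U x * ((2 : ℝ) ^ (d.isc y l) + |(x : ℝ) - y|) ^ (-p)) = 0 := by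
      intro l hl
      apply Finset.sum_eq_zero
      intro y hy
      have : qch d p y l = 0 := by
        unfold qch
        split_ifs with h6
        · have h7 : l < lo := by
            by_contra hc
            exact hl (Finset.mem_Icc.2 ⟨not_lt.1 hc, le_trans h6 (hhi y hy)⟩)
          rw [hlo y hy l h7]; ring
        · rfl
      rw [this]; simp
    calc ∑ l ∈ Λ, ∑ y ∈ d.F, ENNReal.ofReal (qch d p y l) *
            ∑' x : ℤ, ENNReal.ofReal (U x * ((2 : ℝ) ^ (d.isc y l) + |(x : ℝ) - y|) ^ (-p))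
        = ∑ l ∈ Λ.filter (· ∈ Finset.Icc lo hi), ∑ y ∈ d.F, ENNReal.ofReal (qch d p y l) *
            ∑' x : ℤ, ENNReal.ofReal (U x * ((2 : ℝ) ^ (d.isc y l) + |(x : ℝ) - y|) ^ (-p)) := by
          rw [Finset.sum_filter_of_ne]
          intro l _ hne
          by_contra hc
          exact hne (e4 l hc)
      _ ≤ _ := Finset.sum_le_sum_of_subset (fun l hl => (Finset.mem_filter.1 hl).2)

end Pool.Agent.Helper107.CP
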