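import Mathlib
import Pool.Agent.Helper107.CPd

set_option autoImplicit false

namespace Pool.Agent.Helper107.CP

open Finset

/-! ## TARGET -/

section x7

open Classical in
private lemma x7_car_le_card {b : ℕ → ℤ → ℝ} {Q : ℕ → ℤ → Prop} (hb2 : ∀ i k, car b i k ≤ 2 ^ i)
    (hbQ : ∀ i k, ¬ Q i k → b i k = 0) : ∀ (i : ℕ) (k : ℤ), car b i k ≤
      (((dy i k).filter (fun x => ∃ i', i' ≤ i ∧ Q i' (x / 2 ^ i'))).card : ℝ)
  | 0, k => by
      by_cases hQ : Q 0 k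
      · have h1 : (dy 0 k).filter (fun x => ∃ i', i' ≤ 0 ∧ Q i' (x / 2 ^ i')) = dy 0 k := by
          rw [Finset.filter_eq_self]
          intro x hx
          exact ⟨0, le_rfl, by rw [mem_dy.1 hx]; exact hQ⟩
        rw [h1, card_dy]
        have := hb2 0 k
        push_cast
        exact this
      · have h1 : car b 0 k = 0 := hbQ 0 k hQ
        rw [h1]
        positivity
  | (i + 1), k => by
      by_cases hQ : Q (i + 1) k
      · have h1 : (dy (i + 1) k).filter (fun x => ∃ i', i' ≤ i + 1 ∧ Q i' (x / 2 ^ i')) =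
            dy (i + 1) k := by
          rw [Finset.filter_eq_self]
          intro x hx
          exact ⟨i + 1, le_rfl, by rw [mem_dy.1 hx]; exact hQ⟩
        rw [h1, card_dy]
        have := hb2 (i + 1) k
        push_cast
        exact this
      · have h1 := x7_car_le_card hb2 hbQ i (2 * k)
        have h2 := x7_car_le_card hb2 hbQ i (2 * k + 1)
        have h3 : car b (i + 1) k = car b i (2 * k) + car b i (2 * k + 1) := by
          simp only [car]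
          rw [hbQ _ _ hQ]
          ring
        rw [h3]
        have h4 : ((dy i (2 * k)).filter (fun x => ∃ i', i' ≤ i ∧ Q i' (x / 2 ^ i'))) ∪
            ((dy i (2 * k + 1)).filter (fun x => ∃ i', i' ≤ i ∧ Q i' (x / 2 ^ i'))) ⊆
            (dy (i + 1) k).filter (fun x => ∃ i', i' ≤ i + 1 ∧ Q i' (x / 2 ^ i')) := by
          intro x hx
          rw [Finset.mem_union, Finset.mem_filter, Finset.mem_filter] at hx
          rw [Finset.mem_filter]
          rcases hx with ⟨h, i', hi', hq⟩ | ⟨h, i', hi', hq⟩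
          · exact ⟨mem_dy_succ_left h, i', by omega, hq⟩
          · exact ⟨mem_dy_succ_right h, i', by omega, hq⟩
        have h5 := Finset.card_le_card h4
        rw [Finset.card_union_of_disjoint (Finset.disjoint_filter_filter (dy_disj i (by omega)))] at h5
        have h6 : ((((dy i (2 * k)).filter (fun x => ∃ i', i' ≤ i ∧ Q i' (x / 2 ^ i'))).card +
            ((dy i (2 * k + 1)).filter (fun x => ∃ i', i' ≤ i ∧ Q i' (x / 2 ^ i'))).card : ℕ) : ℝ) ≤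
            (((dy (i + 1) k).filter (fun x => ∃ i', i' ≤ i + 1 ∧ Q i' (x / 2 ^ i'))).card : ℝ) := by
          exact_mod_cast h5
        push_cast at h6
        linarith

open Classical in
private lemma x7_pt_le {b : ℕ → ℤ → ℝ} (hb1 : ∀ i k, b i k ≤ 1) (hb0 : ∀ i k, 0 ≤ b i k)
    (G : ℕ → ℤ → Prop) (hG : ∀ i k, ¬ G i k → b i k = 0) (N n : ℕ) (x : ℤ) :
    pt b n x ≤ N + pt (fun i k => if ∃ i1, i + N ≤ i1 ∧ i1 ≤ n ∧ G i1 (k / 2 ^ (i1 - i))
      then b i k else 0) n x := by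
  by_cases hex : ∃ i, i ≤ n ∧ G i (x / 2 ^ i)
  swap
  · push Not at hex
    have h1 : pt b n x = 0 := by
      unfold pt
      refine Finset.sum_eq_zero fun i hi => ?_
      rw [Finset.mem_range] at hi
      exact hG _ _ (hex i (by omega))
    rw [h1]
    have h2 : 0 ≤ pt (fun i k => if ∃ i1, i + N ≤ i1 ∧ i1 ≤ n ∧ G i1 (k / 2 ^ (i1 - i))
      then b i k else 0) n x := by
      unfold pt
      refine Finset.sum_nonneg fun i _ => ?_
      beta_reduce
      split_ifs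
      · exact hb0 _ _
      · exact le_rfl
    positivity
  obtain ⟨i0, hi0, hGi0⟩ := hex
  obtain ⟨M, hM⟩ : ∃ M, M = Nat.findGreatest (fun i => G i (x / 2 ^ i)) n := ⟨_, rfl⟩
  have hMG : G M (x / 2 ^ M) := by
    rw [hM]
    exact Nat.findGreatest_spec (P := fun i => G i (x / 2 ^ i)) hi0 hGi0
  have hMn : M ≤ n := by rw [hM]; exact Nat.findGreatest_le n
  have hMle : ∀ i ≤ n, G i (x / 2 ^ i) → i ≤ M := by
    intro i hi hGi
    rw [hM]
    exact Nat.le_findGreatest (P := fun i => G i (x / 2 ^ i)) hi hGi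
  have hterm : ∀ i ∈ Finset.range (n + 1), b i (x / 2 ^ i) ≤
      (if M < i + N ∧ i ≤ M then (1 : ℝ) else 0) +
      (if ∃ i1, i + N ≤ i1 ∧ i1 ≤ n ∧ G i1 (x / 2 ^ i / 2 ^ (i1 - i)) then b i (x / 2 ^ i) else 0) := by
    intro i hi
    rw [Finset.mem_range] at hi
    have hn2 : (0 : ℝ) ≤ (if ∃ i1, i + N ≤ i1 ∧ i1 ≤ n ∧ G i1 (x / 2 ^ i / 2 ^ (i1 - i))
        then b i (x / 2 ^ i) else 0) := by
      split_ifs
      · exact hb0 _ _
      · exact le_rfl
    by_cases h1 : i ≤ M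
    · by_cases h2 : M < i + N
      · rw [if_pos ⟨h2, h1⟩]
        have := hb1 i (x / 2 ^ i)
        linarith
      · have h3 : ∃ i1, i + N ≤ i1 ∧ i1 ≤ n ∧ G i1 (x / 2 ^ i / 2 ^ (i1 - i)) := by
          refine ⟨M, by omega, hMn, ?_⟩
          rw [← ediv_pow_add]
          have : i + (M - i) = M := by omega
          rw [this]
          exact hMG
        rw [if_neg (fun h => h2 h.1), if_pos h3]
        linarith
    · have h2 : ¬ G i (x / 2 ^ i) := fun h => h1 (hMle i (by omega) h)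
      rw [hG _ _ h2] at hn2 ⊢
      have h3 : (0 : ℝ) ≤ (if M < i + N ∧ i ≤ M then (1 : ℝ) else 0) := by
        split_ifs <;> norm_num
      linarith
  have h1 : pt b n x ≤ ∑ i ∈ Finset.range (n + 1), ((if M < i + N ∧ i ≤ M then (1 : ℝ) else 0) +
      (if ∃ i1, i + N ≤ i1 ∧ i1 ≤ n ∧ G i1 (x / 2 ^ i / 2 ^ (i1 - i)) then b i (x / 2 ^ i) else 0)) :=
    Finset.sum_le_sum hterm
  rw [Finset.sum_add_distrib] at h1
  have h2 : ∑ i ∈ Finset.range (n + 1), (if M < i + N ∧ i ≤ M then (1 : ℝ) else 0) ≤ N := by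
    rw [← Finset.sum_filter, Finset.sum_const, nsmul_eq_mul, mul_one]
    have h3 : (Finset.range (n + 1)).filter (fun i => M < i + N ∧ i ≤ M) ⊆
        Finset.Ico (M + 1 - N) (M + 1) := by
      intro i hi
      rw [Finset.mem_filter] at hi
      rw [Finset.mem_Ico]
      omega
    have h4 := Finset.card_le_card h3
    rw [Nat.card_Ico] at h4
    have h5 : ((Finset.range (n + 1)).filter (fun i => M < i + N ∧ i ≤ M)).card ≤ N := by omega
    exact_mod_cast h5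
  have h3 : pt (fun i k => if ∃ i1, i + N ≤ i1 ∧ i1 ≤ n ∧ G i1 (k / 2 ^ (i1 - i))
      then b i k else 0) n x = ∑ i ∈ Finset.range (n + 1),
      (if ∃ i1, i + N ≤ i1 ∧ i1 ≤ n ∧ G i1 (x / 2 ^ i / 2 ^ (i1 - i)) then b i (x / 2 ^ i) else 0) := rfl
  rw [h3]
  linarith

private lemma x7_dl (d : Dat) {i i1 j : ℕ} {k l y : ℤ} (h1 : d.lev i k = l)
    (h3 : i + (3 * j + 4) ≤ i1) (h4 : d.lev i1 (k / 2 ^ (i1 - i)) = l)
    (h5 : d.jj i1 (k / 2 ^ (i1 - i)) = j) (hy1 : k * 2 ^ i - 2 ^ (i + d.c0 + j) ≤ y)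
    (hy2 : y < k * 2 ^ i + 2 ^ (i + d.c0 + j)) : (1 / 4 : ℝ) ^ j ≤ d.dl y l := by
  have hc0 := d.hc0
  obtain ⟨k1, hk1⟩ : ∃ k1, k1 = k / 2 ^ (i1 - i) := ⟨_, rfl⟩
  rw [← hk1] at h4 h5
  have hnL := d.not_L i k
  rw [h1] at hnL
  have hDu := d.D_upper hnL (w := i + d.c0 + j) (by omega) hy1 hy2
  -- positions
  have hpi : (0 : ℤ) < 2 ^ i := by positivity
  have hp : (0 : ℤ) < 2 ^ (i1 - i) := by positivity
  have e1 : (2 : ℤ) ^ i1 = 2 ^ (i1 - i) * 2 ^ i := by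
    rw [← pow_add]; congr 1; omega
  have hlow : k1 * 2 ^ i1 ≤ k * 2 ^ i := by
    have := Int.ediv_mul_le k hp.ne'
    rw [← hk1] at this
    rw [e1, ← mul_assoc]
    exact mul_le_mul_of_nonneg_right this hpi.le
  have hup : k * 2 ^ i ≤ k1 * 2 ^ i1 + 2 ^ i1 := by
    have h6 : k < (k1 + 1) * 2 ^ (i1 - i) := by
      rw [hk1]
      exact Int.lt_ediv_add_one_mul_self k hp
    have h7 := mul_le_mul_of_nonneg_right h6.le hpi.le
    rw [e1]
    calc k * 2 ^ i ≤ (k1 + 1) * 2 ^ (i1 - i) * 2 ^ i := h7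
      _ = _ := by ring
  have hpw : (2 : ℤ) ^ i1 + 2 ^ (i + d.c0 + j) ≤ 2 ^ (i1 + d.c0 + j) := by
    have h6 : (2 : ℤ) ^ i1 ≤ 2 ^ (i1 + d.c0 + j - 1) := pow_le_pow_right₀ (by norm_num) (by omega)
    have h7 : (2 : ℤ) ^ (i + d.c0 + j) ≤ 2 ^ (i1 + d.c0 + j - 1) :=
      pow_le_pow_right₀ (by norm_num) (by omega)
    have h8 : (2 : ℤ) ^ (i1 + d.c0 + j) = 2 * 2 ^ (i1 + d.c0 + j - 1) := by
      rw [← pow_succ']; congr 1; omega
    omega
  have hmass := d.mass_R i1 k1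
  rw [h4, h5] at hmass
  have e2 : k1 * 2 ^ i1 - 2 ^ (i1 + d.c0 + j) + 2 ^ (i1 + d.c0 + j + 1) =
      k1 * 2 ^ i1 + 2 ^ (i1 + d.c0 + j) := by rw [pow_succ]; ring
  have hle := d.le_D (y := y) (l := l - 2 * j) (u := k1 * 2 ^ i1 - 2 ^ (i1 + d.c0 + j))
    (t := i1 + d.c0 + j + 1) (by omega) (by rw [e2]; omega) (by
      rw [e2]
      refine le_trans (e_le ?_) hmass
      push_cast
      omega)
  rw [e2] at hle
  have hDl : e (i1 + l + d.c0 + 1 - j) ≤ d.D y (l - 2 * j) := le_trans hmass hle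
  -- some drop
  by_contra hcon
  push Not at hcon
  have hdr : ∀ r : ℕ, r ≤ j → d.D y (l - 2 * r) < 2 * d.D y (l - 2 * r + 2) := by
    intro r hr
    by_contra h6
    push Not at h6
    have h7 : d.dr y (l - (2 * r : ℕ)) = 1 := by
      unfold Dat.dr
      rw [if_pos]
      push_cast
      exact h6
    have h8 := d.dl_ge (2 * r) h7
    have h9 : (1 / 4 : ℝ) ^ j ≤ (1 / 2 : ℝ) ^ (2 * r) := by
      rw [pow_mul]
      have : ((1 : ℝ) / 2) ^ 2 = 1 / 4 := by norm_num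
      rw [this]
      exact pow_le_pow_of_le_one (by norm_num) (by norm_num) hr
    linarith
  have hchain : ∀ r : ℕ, r ≤ j → d.D y (l - 2 * r) < 2 ^ (r + 1) * d.D y (l + 2) := by
    intro r
    induction r with
    | zero =>
      intro _
      have := hdr 0 (Nat.zero_le _)
      simp only [Nat.cast_zero, mul_zero, sub_zero] at this ⊢
      rw [zero_add, pow_one]
      linarith
    | succ r ih =>
      intro hr
      have h6 := ih (by omega)
      have h7 := hdr (r + 1) hr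
      have e3 : l - 2 * ((r + 1 : ℕ) : ℤ) + 2 = l - 2 * r := by push_cast; ring
      rw [e3] at h7
      calc d.D y (l - 2 * ((r + 1 : ℕ) : ℤ)) < 2 * d.D y (l - 2 * r) := h7
        _ < 2 * (2 ^ (r + 1) * d.D y (l + 2)) := by linarith
        _ = _ := by ring
  have h6 := hchain j le_rfl
  have h7 : e (i1 + l + d.c0 + 1 - j) < e ((j + 1 : ℕ) + (l + (i + d.c0 + j : ℕ) + 4)) := by
    rw [e_add ((j + 1 : ℕ) : ℤ), e_nat]
    calc e (i1 + l + d.c0 + 1 - j) ≤ d.D y (l - 2 * j) := hDl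
      _ < 2 ^ (j + 1) * d.D y (l + 2) := h6
      _ ≤ 2 ^ (j + 1) * e (l + (i + d.c0 + j : ℕ) + 4) :=
          mul_le_mul_of_nonneg_left hDu (by positivity)
  have h8 : ¬ (((j + 1 : ℕ) : ℤ) + (l + (i + d.c0 + j : ℕ) + 4) ≤ i1 + l + d.c0 + 1 - j) :=
    fun h => absurd (e_le h) (not_le.2 h7)
  push_cast at h8
  omega

/-- the selection rule -/
private def x7q (d : Dat) (l : ℤ) (j n : ℕ) (i : ℕ) (k : ℤ) : Prop :=
  (d.lev i k = l ∧ d.jj i k = j) ∧ ∃ i1, i + (3 * j + 4) ≤ i1 ∧ i1 ≤ n ∧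
    (d.lev i1 (k / 2 ^ (i1 - i)) = l ∧ d.jj i1 (k / 2 ^ (i1 - i)) = j)

open Classical in
private lemma x7_vitali (d : Dat) (l : ℤ) (j n : ℕ) (k0 : ℤ) :
    (((dy n k0).filter (fun x => ∃ i, i ≤ n ∧ x7q d l j n i (x / 2 ^ i))).card : ℝ) ≤
      3 * 16 ^ j * (e (-l) * chg d l n k0) := by
  have hc0 := d.hc0
  obtain ⟨PF, hPF⟩ : ∃ PF : Finset (ℕ × ℤ), PF = (((Finset.range (n + 1)) ×ˢ (dy n k0)).image
    (fun p => (p.1, p.2 / 2 ^ p.1))).filter (fun p => x7q d l j n p.1 p.2) := ⟨_, rfl⟩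
  have hPFmem : ∀ p ∈ PF, p.1 ≤ n ∧ p.2 / 2 ^ (n - p.1) = k0 ∧ x7q d l j n p.1 p.2 := by
    intro p hp
    rw [hPF, Finset.mem_filter, Finset.mem_image] at hp
    obtain ⟨⟨⟨i, x⟩, hq, rfl⟩, hx7⟩ := hp
    rw [Finset.mem_product, Finset.mem_range] at hq
    have hi : i ≤ n := by have := hq.1; simp only at this; omega
    refine ⟨hi, ?_, hx7⟩
    show x / 2 ^ i / 2 ^ (n - i) = k0
    rw [← ediv_pow_add]
    have : i + (n - i) = n := by omega
    rw [this]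
    exact mem_dy.1 hq.2
  let cen : ℕ × ℤ → ℤ := fun p => p.2 * 2 ^ p.1
  let uu : ℕ × ℤ → ℕ := fun p => p.1 + d.c0 + j
  let R : ℕ × ℤ → Finset ℤ := fun p => Finset.Ico (cen p - 2 ^ (uu p)) (cen p + 2 ^ (uu p))
  have hcenR : ∀ p, cen p ∈ R p := by
    intro p
    simp only [R, Finset.mem_Ico]
    have : (0 : ℤ) < 2 ^ (uu p) := by positivity
    constructor <;> omega
  obtain ⟨W, hWt, hWd, hWc⟩ := Vitali.exists_disjoint_subfamily_covering_enlargement
    (fun p => (R p : Set ℤ)) (PF : Set (ℕ × ℤ)) (fun p => (2 : ℝ) ^ (uu p)) (3 / 2) (by norm_num)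
    (fun p _ => by positivity) (∑ p ∈ PF, (2 : ℝ) ^ (uu p))
    (fun p hp => Finset.single_le_sum (f := fun p => (2 : ℝ) ^ (uu p)) (fun q _ => by positivity)
      (Finset.mem_coe.1 hp)) (fun p _ => ⟨cen p, Finset.mem_coe.2 (hcenR p)⟩)
  have hWfin : W.Finite := PF.finite_toSet.subset hWt
  obtain ⟨V, hV⟩ : ∃ V : Finset (ℕ × ℤ), (V : Set (ℕ × ℤ)) = W := ⟨hWfin.toFinset, hWfin.coe_toFinset⟩
  have hVPF : ∀ p ∈ V, p ∈ PF := fun p hp => by
    have : p ∈ W := by rw [← hV]; exact Finset.mem_coe.2 hp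
    exact Finset.mem_coe.1 (hWt this)
  -- covering
  have hcov : (dy n k0).filter (fun x => ∃ i, i ≤ n ∧ x7q d l j n i (x / 2 ^ i)) ⊆
      V.biUnion (fun p => Finset.Ico (cen p - 3 * 2 ^ (uu p)) (cen p + 3 * 2 ^ (uu p))) := by
    intro x hx
    rw [Finset.mem_filter] at hx
    obtain ⟨hxd, i, hi, hq⟩ := hx
    have hp : (i, x / 2 ^ i) ∈ PF := by
      rw [hPF, Finset.mem_filter, Finset.mem_image]
      refine ⟨⟨(i, x), ?_, rfl⟩, hq⟩
      rw [Finset.mem_product, Finset.mem_range]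
      exact ⟨by show i < n + 1; omega, hxd⟩
    obtain ⟨p', hp'W, ⟨z, hz1, hz2⟩, hδ⟩ := hWc (i, x / 2 ^ i) (Finset.mem_coe.2 hp)
    have hp'V : p' ∈ V := by rw [← Finset.mem_coe, hV]; exact hp'W
    have huu : uu (i, x / 2 ^ i) ≤ uu p' := by
      by_contra hcon
      push Not at hcon
      have h1 : (2 : ℝ) ^ (uu p' + 1) ≤ 2 ^ (uu (i, x / 2 ^ i)) :=
        pow_le_pow_right₀ (by norm_num) hcon
      rw [pow_succ] at h1
      have h2 : (0 : ℝ) < 2 ^ (uu p') := by positivity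
      linarith
    rw [Finset.mem_coe, Finset.mem_Ico] at hz1 hz2
    have h3 : (2 : ℤ) ^ (uu (i, x / 2 ^ i)) ≤ 2 ^ (uu p') := pow_le_pow_right₀ (by norm_num) huu
    have h4 : (2 : ℤ) ^ i ≤ 2 ^ (uu p') :=
      (pow_le_pow_right₀ (by norm_num) (show i ≤ uu (i, x / 2 ^ i) by simp only [uu]; omega)).trans h3
    have h5 : cen (i, x / 2 ^ i) ≤ x ∧ x < cen (i, x / 2 ^ i) + 2 ^ i := by
      have hx2 : x ∈ dy i (x / 2 ^ i) := mem_dy.2 rfl
      unfold dy at hx2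
      rw [Finset.mem_Ico] at hx2
      refine ⟨hx2.1, ?_⟩
      have := hx2.2
      have e1 : (x / 2 ^ i + 1) * 2 ^ i = x / 2 ^ i * 2 ^ i + 2 ^ i := by ring
      rw [e1] at this
      exact this
    rw [Finset.mem_biUnion]
    refine ⟨p', hp'V, ?_⟩
    rw [Finset.mem_Ico]
    constructor <;> omega
  -- cardinality
  have hcard : (((dy n k0).filter (fun x => ∃ i, i ≤ n ∧ x7q d l j n i (x / 2 ^ i))).card : ℝ) ≤
      ∑ p ∈ V, 6 * (2 : ℝ) ^ (uu p) := by
    have h1 := (Finset.card_le_card hcov).trans Finset.card_biUnion_le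
    have h2 : ∀ p ∈ V, (Finset.Ico (cen p - 3 * 2 ^ (uu p)) (cen p + 3 * 2 ^ (uu p))).card =
        6 * 2 ^ (uu p) := by
      intro p _
      rw [Int.card_Ico]
      have : cen p + 3 * 2 ^ uu p - (cen p - 3 * 2 ^ uu p) = ((6 * 2 ^ (uu p) : ℕ) : ℤ) := by
        push_cast; ring
      rw [this, Int.toNat_natCast]
    rw [Finset.sum_congr rfl h2] at h1
    have h3 : (((dy n k0).filter (fun x => ∃ i, i ≤ n ∧ x7q d l j n i (x / 2 ^ i))).card : ℝ) ≤
        ((∑ p ∈ V, 6 * 2 ^ (uu p) : ℕ) : ℝ) := by exact_mod_cast h1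
    push_cast at h3
    exact h3
  -- mass of each R
  have hmass : ∀ p ∈ V, (2 : ℝ) ^ (uu p) ≤ e (2 * j - l - 1) * ∑ y ∈ R p, d.m y := by
    intro p hp
    obtain ⟨_, _, ⟨hl, hj⟩, _⟩ := hPFmem p (hVPF p hp)
    have h1 := d.mass_R p.1 p.2
    rw [hl, hj] at h1
    have h2 : d.mI (p.2 * 2 ^ p.1 - 2 ^ (p.1 + d.c0 + j)) (p.2 * 2 ^ p.1 + 2 ^ (p.1 + d.c0 + j)) =
        ∑ y ∈ R p, d.m y := rfl
    rw [h2] at h1
    have h3 : (2 : ℝ) ^ (uu p) = e (2 * j - l - 1) * e (p.1 + l + d.c0 + 1 - j) := by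
      rw [← e_add, ← e_nat]
      congr 1
      simp only [uu]
      push_cast
      ring
    rw [h3]
    exact mul_le_mul_of_nonneg_left h1 (e_pos _).le
  -- claims A and B
  have hA : ∀ p ∈ V, ∀ y ∈ R p, (1 / 4 : ℝ) ^ j ≤ d.dl y l := by
    intro p hp y hy
    obtain ⟨_, _, ⟨hl, hj⟩, i1, hi1, hi1n, hl1, hj1⟩ := hPFmem p (hVPF p hp)
    simp only [R, cen, uu, Finset.mem_Ico] at hy
    exact x7_dl d hl hi1 hl1 hj1 hy.1 hy.2
  have hB : ∀ p ∈ V, ∀ y ∈ R p, |y - k0 * 2 ^ n| ≤ 2 ^ (n + d.c0 - 3) := by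
    intro p hp y hy
    obtain ⟨hpn, hpk, ⟨hl, hj⟩, i1, hi1, hi1n, hl1, hj1⟩ := hPFmem p (hVPF p hp)
    simp only [R, cen, uu, Finset.mem_Ico] at hy
    have hpi : (0 : ℤ) < 2 ^ p.1 := by positivity
    have hpp : (0 : ℤ) < 2 ^ (n - p.1) := by positivity
    have e1 : (2 : ℤ) ^ n = 2 ^ (n - p.1) * 2 ^ p.1 := by
      rw [← pow_add]; congr 1; omega
    have hlow : k0 * 2 ^ n ≤ p.2 * 2 ^ p.1 := by
      have := Int.ediv_mul_le p.2 hpp.ne'
      rw [hpk] at this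
      rw [e1, ← mul_assoc]
      exact mul_le_mul_of_nonneg_right this hpi.le
    have hup : p.2 * 2 ^ p.1 ≤ k0 * 2 ^ n + 2 ^ n := by
      have h6 : p.2 < (k0 + 1) * 2 ^ (n - p.1) := by
        rw [← hpk]
        exact Int.lt_ediv_add_one_mul_self p.2 hpp
      have h7 := mul_le_mul_of_nonneg_right h6.le hpi.le
      rw [e1]
      calc p.2 * 2 ^ p.1 ≤ (k0 + 1) * 2 ^ (n - p.1) * 2 ^ p.1 := h7
        _ = _ := by ring
    have h1 : (2 : ℤ) ^ (p.1 + d.c0 + j) ≤ 2 ^ (n + d.c0 - 4) :=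
      pow_le_pow_right₀ (by norm_num) (by omega)
    have h2 : (2 : ℤ) ^ n ≤ 2 ^ (n + d.c0 - 4) := pow_le_pow_right₀ (by norm_num) (by omega)
    have h3 : (2 : ℤ) ^ (n + d.c0 - 3) = 2 * 2 ^ (n + d.c0 - 4) := by
      rw [← pow_succ']; congr 1; omega
    rw [abs_le]
    constructor <;> omega
  -- sum
  have hsum : ∑ p ∈ V, ∑ y ∈ R p, d.m y ≤ 4 ^ j * chg d l n k0 := by
    have hdisj : (V : Set (ℕ × ℤ)).PairwiseDisjoint R := by
      intro p hp q hq hpq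
      rw [hV] at hp hq
      have := hWd hp hq hpq
      exact Finset.disjoint_coe.1 this
    rw [← Finset.sum_biUnion hdisj]
    have h4 : (0 : ℝ) < 4 ^ j := by positivity
    calc ∑ y ∈ V.biUnion R, d.m y ≤ ∑ y ∈ V.biUnion R, 4 ^ j * (d.m y * d.dl y l) := by
          refine Finset.sum_le_sum fun y hy => ?_
          obtain ⟨p, hp, hyp⟩ := Finset.mem_biUnion.1 hy
          have h5 := hA p hp y hyp
          have h6 := d.m0 y
          have h7 : (1 : ℝ) ≤ 4 ^ j * d.dl y l := by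
            calc (1 : ℝ) = 4 ^ j * (1 / 4) ^ j := by rw [← mul_pow]; norm_num
              _ ≤ _ := mul_le_mul_of_nonneg_left h5 h4.le
          calc d.m y = d.m y * 1 := (mul_one _).symm
            _ ≤ d.m y * (4 ^ j * d.dl y l) := mul_le_mul_of_nonneg_left h7 h6
            _ = _ := by ring
      _ = 4 ^ j * ∑ y ∈ V.biUnion R, d.m y * d.dl y l := by rw [Finset.mul_sum]
      _ ≤ 4 ^ j * chg d l n k0 := by
          refine mul_le_mul_of_nonneg_left ?_ h4.le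
          unfold chg
          have h8 : ∑ y ∈ V.biUnion R, d.m y * d.dl y l =
              ∑ y ∈ (V.biUnion R).filter (· ∈ d.F), d.m y * d.dl y l := by
            rw [Finset.sum_filter_of_ne]
            intro y _ hy
            by_contra hc
            exact hy (by rw [d.mF y hc, zero_mul])
          rw [h8]
          apply Finset.sum_le_sum_of_subset_of_nonneg
          · intro y hy
            rw [Finset.mem_filter] at hy ⊢
            obtain ⟨p, hp, hyp⟩ := Finset.mem_biUnion.1 hy.1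
            exact ⟨hy.2, hB p hp y hyp⟩
          · intro y _ _
            exact mul_nonneg (d.m0 y) (d.dl_nonneg y l)
  calc (((dy n k0).filter (fun x => ∃ i, i ≤ n ∧ x7q d l j n i (x / 2 ^ i))).card : ℝ)
      ≤ ∑ p ∈ V, 6 * (2 : ℝ) ^ (uu p) := hcard
    _ ≤ ∑ p ∈ V, 6 * (e (2 * j - l - 1) * ∑ y ∈ R p, d.m y) := by
        refine Finset.sum_le_sum fun p hp => ?_
        exact mul_le_mul_of_nonneg_left (hmass p hp) (by norm_num)
    _ = 6 * e (2 * j - l - 1) * ∑ p ∈ V, ∑ y ∈ R p, d.m y := by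
        rw [Finset.mul_sum]
        refine Finset.sum_congr rfl fun p _ => ?_
        ring
    _ ≤ 6 * e (2 * j - l - 1) * (4 ^ j * chg d l n k0) :=
        mul_le_mul_of_nonneg_left hsum (by have := e_pos (2 * j - l - 1); positivity)
    _ = _ := by
        have h9 : e (2 * j - l - 1) = 4 ^ j * e (-l) / 2 := by
          have e1 : (2 * j - l - 1 : ℤ) = ((2 * j : ℕ) : ℤ) + (-l) - 1 := by push_cast; ring
          rw [e1, e_sub, e_add, e_nat, e_one, pow_mul]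
          norm_num
        rw [h9]
        have h10 : (16 : ℝ) ^ j = 4 ^ j * 4 ^ j := by rw [← mul_pow]; norm_num
        rw [h10]
        ring

/-- the `j`-part, normalised -/
private noncomputable def x7a (d : Dat) (Ca : ℝ) (a : ℕ → ℤ → ℝ) (l : ℤ) (j : ℕ) : ℕ → ℤ → ℝ :=
  fun i k => (2 ^ j / Ca) * (if d.lev i k = l ∧ d.jj i k = j then a i k else 0)

private lemma x7a_nonneg {d : Dat} {Ca : ℝ} (hCa : 1 ≤ Ca) {a : ℕ → ℤ → ℝ} (hW : WS d Ca a) (l : ℤ)
    (j i : ℕ) (k : ℤ) : 0 ≤ x7a d Ca a l j i k := by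
  unfold x7a
  have := hW.nn i k
  split_ifs
  · positivity
  · simp

private lemma x7a_le_one {d : Dat} {Ca : ℝ} (hCa : 1 ≤ Ca) {a : ℕ → ℤ → ℝ} (hW : WS d Ca a) (l : ℤ)
    (j i : ℕ) (k : ℤ) : x7a d Ca a l j i k ≤ 1 := by
  unfold x7a
  have hCa0 : 0 < Ca := by linarith
  split_ifs with h
  · have h1 := hW.w1 i k
    rw [h.2] at h1
    calc 2 ^ j / Ca * a i k ≤ 2 ^ j / Ca * (Ca * (1 / 2) ^ j) :=
          mul_le_mul_of_nonneg_left h1 (by positivity)
      _ = (2 * (1 / 2)) ^ j := by rw [mul_pow]; field_simp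
      _ = 1 := by norm_num
  · simp

private lemma x7a_car {d : Dat} {Ca : ℝ} (hCa : 1 ≤ Ca) {a : ℕ → ℤ → ℝ} (hW : WS d Ca a) (l : ℤ)
    (j i : ℕ) (k : ℤ) : car (x7a d Ca a l j) i k ≤ 2 ^ i := by
  have hCa0 : 0 < Ca := by linarith
  have h1 := hW.w2 l j i k
  have h2 : car (x7a d Ca a l j) i k = (2 ^ j / Ca) *
      car (fun i k => if d.lev i k = l ∧ d.jj i k = j then a i k else 0) i k :=
    car_smul _ _ _ _
  rw [h2]
  calc _ ≤ 2 ^ j / Ca * (Ca * (1 / 2) ^ j * 2 ^ i) := mul_le_mul_of_nonneg_left h1 (by positivity)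
    _ = (2 * (1 / 2)) ^ j * 2 ^ i := by rw [mul_pow]; field_simp
    _ = 2 ^ i := by norm_num

private lemma x7a_zero {d : Dat} {Ca : ℝ} {a : ℕ → ℤ → ℝ} {l : ℤ} {j i : ℕ} {k : ℤ}
    (h : ¬ (d.lev i k = l ∧ d.jj i k = j)) : x7a d Ca a l j i k = 0 := by
  unfold x7a
  rw [if_neg h, mul_zero]

/-- numerical facts about `t_j` -/
private lemma x7_num {Ca lam : ℝ} (hCa : 1 ≤ Ca) (hlam : 144 * Ca ≤ lam) (j : ℕ) :
    36 * (1 + (j : ℝ) / 2) ≤ lam * (3 / 2) ^ j / (4 * Ca) ∧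
    (3 / 2 : ℝ) ^ (-(lam * (3 / 2) ^ j / (4 * Ca) / 2)) ≤
      ((3 / 2 : ℝ) ^ (-(1 / (8 * Ca)))) ^ lam * (1 / 32) ^ j := by
  have hCa0 : 0 < Ca := by linarith
  have hb : 1 + (j : ℝ) / 2 ≤ (3 / 2 : ℝ) ^ j := by
    have := one_add_mul_le_pow (a := (1 / 2 : ℝ)) (by norm_num) j
    have e1 : (1 : ℝ) + 1 / 2 = 3 / 2 := by norm_num
    rw [e1] at this
    linarith
  have h36 : 36 ≤ lam / (4 * Ca) := by
    rw [le_div_iff₀ (by positivity)]
    linarith
  have hj : (0 : ℝ) ≤ (j : ℝ) := Nat.cast_nonneg _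
  have h1 : lam * (3 / 2) ^ j / (4 * Ca) = lam / (4 * Ca) * (3 / 2) ^ j := by ring
  have h2 : lam / (4 * Ca) * (1 + (j : ℝ) / 2) ≤ lam / (4 * Ca) * (3 / 2) ^ j :=
    mul_le_mul_of_nonneg_left hb (by linarith)
  refine ⟨?_, ?_⟩
  · rw [h1]
    refine le_trans ?_ h2
    exact mul_le_mul_of_nonneg_right h36 (by positivity)
  · rw [h1, ← Real.rpow_mul (by norm_num)]
    have h3 : (1 / 32 : ℝ) ^ j = ((1 : ℝ) / 32) ^ (j : ℝ) := (Real.rpow_natCast _ _).symm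
    have h4 : (3 / 2 : ℝ) ^ (-(9 : ℝ)) ≤ 1 / 32 := by
      rw [Real.rpow_neg (by norm_num)]
      have : (3 / 2 : ℝ) ^ (9 : ℝ) = (3 / 2) ^ 9 := by exact_mod_cast Real.rpow_natCast (3 / 2) 9
      rw [this]
      norm_num
    have h5 : (3 / 2 : ℝ) ^ (-(lam / (4 * Ca) * (3 / 2) ^ j / 2)) ≤
        (3 / 2 : ℝ) ^ (-(1 / (8 * Ca)) * lam + (-(9 : ℝ)) * j) := by
      apply Real.rpow_le_rpow_of_exponent_le (by norm_num)
      have e2 : -(1 / (8 * Ca)) * lam = -(lam / (4 * Ca)) / 2 := by field_simp; ring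
      rw [e2]
      nlinarith
    refine h5.trans ?_
    rw [Real.rpow_add (by norm_num), Real.rpow_mul (by norm_num) (-(9 : ℝ)), h3]
    apply mul_le_mul_of_nonneg_left _ (by positivity)
    exact Real.rpow_le_rpow (by positivity) h4 hj

open Classical in
/-- the estimate for one `j` -/
private lemma x7_one {d : Dat} {Ca : ℝ} (hCa : 1 ≤ Ca) {a : ℕ → ℤ → ℝ} (hW : WS d Ca a) (l : ℤ)
    (n : ℕ) (k0 : ℤ) {lam : ℝ} (hlam : 144 * Ca ≤ lam) (j : ℕ) :
    (((dy n k0).filter (fun x => lam * (3 / 2) ^ j / (4 * Ca) < pt (x7a d Ca a l j) n x)).card : ℝ) ≤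
      2 * (((3 / 2 : ℝ) ^ (-(1 / (8 * Ca)))) ^ lam * (1 / 32) ^ j) * 2 ^ n ∧
    (((dy n k0).filter (fun x => lam * (3 / 2) ^ j / (4 * Ca) < pt (x7a d Ca a l j) n x)).card : ℝ) ≤
      2 * (((3 / 2 : ℝ) ^ (-(1 / (8 * Ca)))) ^ lam * (1 / 32) ^ j) *
        (3 * 16 ^ j * (e (-l) * chg d l n k0)) := by
  obtain ⟨hn1, hn2⟩ := x7_num hCa hlam j
  obtain ⟨t, ht⟩ : ∃ t, t = lam * (3 / 2) ^ j / (4 * Ca) := ⟨_, rfl⟩
  rw [← ht] at hn1 hn2 ⊢
  have hj : (0 : ℝ) ≤ (j : ℝ) := Nat.cast_nonneg _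
  have ht36 : 36 ≤ t := by nlinarith
  have hbase : ∀ s : ℝ, 18 ≤ s → (3 / 2 : ℝ) ^ s / 2 ≤ (3 / 2 : ℝ) ^ s - 1 := by
    intro s hs
    have h1 : (3 / 2 : ℝ) ^ (2 : ℝ) ≤ (3 / 2 : ℝ) ^ s :=
      Real.rpow_le_rpow_of_exponent_le (by norm_num) (by linarith)
    have h2 : (3 / 2 : ℝ) ^ (2 : ℝ) = (3 / 2) ^ 2 := by exact_mod_cast Real.rpow_natCast (3 / 2) 2
    rw [h2] at h1
    linarith
  have hfin : ∀ (N s M : ℝ), 0 ≤ N → 18 ≤ s → t / 2 ≤ s → N * ((3 / 2 : ℝ) ^ s - 1) ≤ M →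
      N ≤ 2 * (((3 / 2 : ℝ) ^ (-(1 / (8 * Ca)))) ^ lam * (1 / 32) ^ j) * M := by
    intro N s M hN hs hts hM
    have hsp : (0 : ℝ) < (3 / 2 : ℝ) ^ s := by positivity
    have h1 : N * ((3 / 2 : ℝ) ^ s / 2) ≤ M :=
      (mul_le_mul_of_nonneg_left (hbase s hs) hN).trans hM
    have hM0 : 0 ≤ M := le_trans (by positivity) h1
    have h2 : N ≤ 2 * (3 / 2 : ℝ) ^ (-s) * M := by
      rw [Real.rpow_neg (by norm_num)]
      calc N = 2 * ((3 / 2 : ℝ) ^ s)⁻¹ * (N * ((3 / 2 : ℝ) ^ s / 2)) := by field_simp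
        _ ≤ _ := mul_le_mul_of_nonneg_left h1 (by positivity)
    have h3 : (3 / 2 : ℝ) ^ (-s) ≤ (3 / 2 : ℝ) ^ (-(t / 2)) :=
      Real.rpow_le_rpow_of_exponent_le (by norm_num) (by linarith)
    calc N ≤ 2 * (3 / 2 : ℝ) ^ (-s) * M := h2
      _ ≤ 2 * (((3 / 2 : ℝ) ^ (-(1 / (8 * Ca)))) ^ lam * (1 / 32) ^ j) * M := by
          apply mul_le_mul_of_nonneg_right _ hM0
          have := h3.trans hn2
          linarith
  refine ⟨?_, ?_⟩
  · have h1 := JN_dist (x7a d Ca a l j) (x7a_nonneg hCa hW l j) (x7a_le_one hCa hW l j)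
      (x7a_car hCa hW l j) n k0 t
    refine hfin _ t _ (by positivity) (by linarith) (by linarith) ?_
    exact h1.trans (x7a_car hCa hW l j n k0)
  · obtain ⟨b, hb⟩ : ∃ b : ℕ → ℤ → ℝ, b = fun i k =>
      if ∃ i1, i + (3 * j + 4) ≤ i1 ∧ i1 ≤ n ∧
        (d.lev i1 (k / 2 ^ (i1 - i)) = l ∧ d.jj i1 (k / 2 ^ (i1 - i)) = j)
      then x7a d Ca a l j i k else 0 := ⟨_, rfl⟩
    have hb_le : ∀ i k, b i k ≤ x7a d Ca a l j i k := by
      intro i k
      rw [hb]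
      beta_reduce
      split_ifs
      · exact le_rfl
      · exact x7a_nonneg hCa hW l j i k
    have hb0 : ∀ i k, 0 ≤ b i k := by
      intro i k
      rw [hb]
      beta_reduce
      split_ifs
      · exact x7a_nonneg hCa hW l j i k
      · exact le_rfl
    have hb1 : ∀ i k, b i k ≤ 1 := fun i k => (hb_le i k).trans (x7a_le_one hCa hW l j i k)
    have hb2 : ∀ i k, car b i k ≤ 2 ^ i := fun i k => (car_mono hb_le i k).trans (x7a_car hCa hW l j i k)
    have hbQ : ∀ i k, ¬ x7q d l j n i k → b i k = 0 := by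
      intro i k hq
      rw [hb]
      beta_reduce
      split_ifs with h
      · apply x7a_zero
        intro h'
        exact hq ⟨h', h⟩
      · rfl
    have hsub : (dy n k0).filter (fun x => t < pt (x7a d Ca a l j) n x) ⊆
        (dy n k0).filter (fun x => t / 2 < pt b n x) := by
      intro x hx
      rw [Finset.mem_filter] at hx ⊢
      refine ⟨hx.1, ?_⟩
      have h1 := x7_pt_le (x7a_le_one hCa hW l j) (x7a_nonneg hCa hW l j)
        (fun i k => d.lev i k = l ∧ d.jj i k = j) (fun i k h => x7a_zero h) (3 * j + 4) n x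
      have h2 : pt (fun i k => if ∃ i1, i + (3 * j + 4) ≤ i1 ∧ i1 ≤ n ∧
          (fun i k => d.lev i k = l ∧ d.jj i k = j) i1 (k / 2 ^ (i1 - i))
          then x7a d Ca a l j i k else 0) n x = pt b n x := by rw [hb]
      rw [h2] at h1
      push_cast at h1
      have h3 := hx.2
      nlinarith
    have h1 := JN_dist b hb0 hb1 hb2 n k0 (t / 2)
    have h2 := x7_car_le_card hb2 hbQ n k0
    have h3 := x7_vitali d l j n k0
    have h4 : (((dy n k0).filter (fun x => t < pt (x7a d Ca a l j) n x)).card : ℝ) ≤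
        (((dy n k0).filter (fun x => t / 2 < pt b n x)).card : ℝ) := by
      exact_mod_cast Finset.card_le_card hsub
    refine h4.trans ?_
    exact hfin _ (t / 2) _ (by positivity) (by linarith) le_rfl ((h1.trans h2).trans h3)

private lemma x7_geo (r : ℝ) (hr : 0 ≤ r) (hr1 : r < 1) (J : ℕ) : ∑ j ∈ Finset.range J, r ^ j ≤ 1 / (1 - r) := by
  have h1 : (0 : ℝ) < 1 - r := by linarith
  rw [le_div_iff₀ h1]
  have h2 : (∑ j ∈ Finset.range J, r ^ j) * (1 - r) = 1 - r ^ J := by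
    have := geom_sum_mul r J
    linarith
  rw [h2]
  have := pow_nonneg hr J
  linarith

private lemma x7_pt_split {d : Dat} {Ca : ℝ} (hCa : 1 ≤ Ca) (a : ℕ → ℤ → ℝ) (l : ℤ) (n : ℕ) (x : ℤ) (J : ℕ)
    (hJ : ∀ i ≤ n, d.jj i (x / 2 ^ i) < J) :
    pt (atl d a l) n x = ∑ j ∈ Finset.range J, Ca * (1 / 2) ^ j * pt (x7a d Ca a l j) n x := by
  unfold pt
  simp_rw [Finset.mul_sum]
  rw [Finset.sum_comm]
  refine Finset.sum_congr rfl fun i hi => ?_
  rw [Finset.mem_range] at hi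
  have hJi := hJ i (by omega)
  rw [Finset.sum_eq_single_of_mem (d.jj i (x / 2 ^ i)) (Finset.mem_range.2 hJi)]
  · unfold atl x7a
    by_cases h : d.lev i (x / 2 ^ i) = l
    · rw [if_pos h, if_pos ⟨h, rfl⟩]
      have hCa0 : Ca ≠ 0 := by linarith
      have h1 : Ca * (1 / 2) ^ d.jj i (x / 2 ^ i) * (2 ^ d.jj i (x / 2 ^ i) / Ca * a i (x / 2 ^ i)) =
          ((1 / 2) * 2) ^ d.jj i (x / 2 ^ i) * a i (x / 2 ^ i) * (Ca / Ca) := by
        rw [mul_pow]; ring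
      rw [h1, div_self hCa0]
      norm_num
    · rw [if_neg h, if_neg (fun h' => h h'.1)]
      ring
  · intro j _ hj
    rw [x7a_zero (fun h' => hj h'.2.symm), mul_zero]

open Classical in
private lemma x7_cover {d : Dat} {Ca : ℝ} (hCa : 1 ≤ Ca) {a : ℕ → ℤ → ℝ} (l : ℤ)
    (n : ℕ) (k0 : ℤ) {lam : ℝ} (hlam : 0 < lam) : ∃ J : ℕ,
    (((dy n k0).filter (fun x => lam < pt (atl d a l) n x)).card : ℝ) ≤ ∑ j ∈ Finset.range J,
      (((dy n k0).filter (fun x => lam * (3 / 2) ^ j / (4 * Ca) < pt (x7a d Ca a l j) n x)).card : ℝ) := by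
  have hCa0 : 0 < Ca := by linarith
  obtain ⟨J, hJ⟩ : ∃ J : ℕ, J = (∑ x ∈ dy n k0, ∑ i ∈ Finset.range (n + 1), d.jj i (x / 2 ^ i)) + 1 := ⟨_, rfl⟩
  refine ⟨J, ?_⟩
  have hJx : ∀ x ∈ dy n k0, ∀ i ≤ n, d.jj i (x / 2 ^ i) < J := by
    intro x hx i hi
    have h1 : d.jj i (x / 2 ^ i) ≤ ∑ i ∈ Finset.range (n + 1), d.jj i (x / 2 ^ i) :=
      Finset.single_le_sum (f := fun i => d.jj i (x / 2 ^ i)) (fun _ _ => Nat.zero_le _)
        (Finset.mem_range.2 (by omega))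
    have h2 : ∑ i ∈ Finset.range (n + 1), d.jj i (x / 2 ^ i) ≤
        ∑ x ∈ dy n k0, ∑ i ∈ Finset.range (n + 1), d.jj i (x / 2 ^ i) :=
      Finset.single_le_sum (f := fun x => ∑ i ∈ Finset.range (n + 1), d.jj i (x / 2 ^ i))
        (fun _ _ => Nat.zero_le _) hx
    omega
  have hsub : (dy n k0).filter (fun x => lam < pt (atl d a l) n x) ⊆ (Finset.range J).biUnion
      (fun j => (dy n k0).filter (fun x => lam * (3 / 2) ^ j / (4 * Ca) < pt (x7a d Ca a l j) n x)) := by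
    intro x hx
    rw [Finset.mem_filter] at hx
    obtain ⟨hxd, hxl⟩ := hx
    rw [Finset.mem_biUnion]
    by_contra hcon
    push Not at hcon
    have h1 : ∀ j ∈ Finset.range J, Ca * (1 / 2) ^ j * pt (x7a d Ca a l j) n x ≤
        lam / 4 * (3 / 4) ^ j := by
      intro j hj
      have h2 := hcon j hj
      rw [Finset.mem_filter] at h2
      have h3 : pt (x7a d Ca a l j) n x ≤ lam * (3 / 2) ^ j / (4 * Ca) := by
        by_contra h4
        exact h2 ⟨hxd, not_le.1 h4⟩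
      calc Ca * (1 / 2) ^ j * pt (x7a d Ca a l j) n x ≤
            Ca * (1 / 2) ^ j * (lam * (3 / 2) ^ j / (4 * Ca)) :=
            mul_le_mul_of_nonneg_left h3 (by positivity)
        _ = lam / 4 * ((1 / 2) * (3 / 2)) ^ j * (Ca / Ca) := by rw [mul_pow]; field_simp
        _ = lam / 4 * (3 / 4) ^ j := by rw [div_self hCa0.ne']; norm_num
    have h2 := Finset.sum_le_sum h1
    rw [← x7_pt_split hCa a l n x J (hJx x hxd), ← Finset.mul_sum] at h2
    have h3 := x7_geo (3 / 4) (by norm_num) (by norm_num) J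
    have h4 : lam / 4 * ∑ j ∈ Finset.range J, (3 / 4 : ℝ) ^ j ≤ lam / 4 * (1 / (1 - 3 / 4)) :=
      mul_le_mul_of_nonneg_left h3 (by positivity)
    have h5 : lam / 4 * (1 / (1 - 3 / 4)) = lam := by norm_num
    linarith
  have h1 := (Finset.card_le_card hsub).trans Finset.card_biUnion_le
  exact_mod_cast h1

private lemma x7_chg_nonneg (d : Dat) (l : ℤ) (n : ℕ) (k0 : ℤ) : 0 ≤ chg d l n k0 := by
  unfold chg
  exact Finset.sum_nonneg fun y _ => mul_nonneg (d.m0 y) (d.dl_nonneg y l)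

end x7

theorem excess : Excess := by
  intro Ca hCa
  have hCa0 : 0 < Ca := by linarith
  refine ⟨⌈144 * Ca⌉₊, (3 / 2 : ℝ) ^ (-(1 / (8 * Ca))), 12, by positivity, ?_, by norm_num, ?_, ?_⟩
  · apply Real.rpow_lt_one_of_one_lt_of_neg (by norm_num)
    have : 0 < 1 / (8 * Ca) := by positivity
    linarith
  · refine le_trans ?_ (Nat.le_ceil _)
    linarith
  intro d a hW l n k0 lam hlam
  have hlam' : 144 * Ca ≤ (lam : ℝ) := (Nat.le_ceil _).trans (by exact_mod_cast hlam)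
  obtain ⟨J, hJ⟩ := x7_cover (d := d) (a := a) hCa l n k0 (lam := (lam : ℝ)) (by linarith)
  have hone := fun j : ℕ => x7_one hCa hW l n k0 hlam' j
  obtain ⟨ρ, hρ⟩ : ∃ ρ, ρ = (3 / 2 : ℝ) ^ (-(1 / (8 * Ca))) := ⟨_, rfl⟩
  rw [← hρ] at hone ⊢
  have hρ0 : 0 < ρ := by rw [hρ]; positivity
  simp only [Real.rpow_natCast] at hone
  constructor
  · have h1 : (((dy n k0).filter (fun x => (lam : ℝ) < pt (atl d a l) n x)).card : ℝ) ≤
        ∑ j ∈ Finset.range J, 2 * ρ ^ lam * 2 ^ n * (1 / 32) ^ j := by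
      refine le_trans (le_trans (le_of_eq ?_) hJ) (Finset.sum_le_sum fun j _ => ?_)
      · congr 2
      · refine ((hone j).1).trans (le_of_eq ?_)
        ring
    rw [← Finset.mul_sum] at h1
    refine h1.trans ?_
    have h2 := x7_geo (1 / 32) (by norm_num) (by norm_num) J
    have h3 : 2 * ρ ^ lam * 2 ^ n * ∑ j ∈ Finset.range J, (1 / 32 : ℝ) ^ j ≤
        2 * ρ ^ lam * 2 ^ n * (1 / (1 - 1 / 32)) := mul_le_mul_of_nonneg_left h2 (by positivity)
    refine h3.trans ?_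
    have h4 : 0 ≤ ρ ^ lam * 2 ^ n := by positivity
    have h5 : (1 : ℝ) / (1 - 1 / 32) ≤ 2 := by norm_num
    nlinarith
  · have hC0 := x7_chg_nonneg d l n k0
    have he0 := (e_pos (-l)).le
    have h1 : (((dy n k0).filter (fun x => (lam : ℝ) < pt (atl d a l) n x)).card : ℝ) ≤
        ∑ j ∈ Finset.range J, 6 * ρ ^ lam * (e (-l) * chg d l n k0) * (1 / 2) ^ j := by
      refine le_trans (le_trans (le_of_eq ?_) hJ) (Finset.sum_le_sum fun j _ => ?_)
      · congr 2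
      · refine ((hone j).2).trans (le_of_eq ?_)
        have h2 : (1 / 2 : ℝ) ^ j = (1 / 32) ^ j * 16 ^ j := by rw [← mul_pow]; norm_num
        rw [h2]
        ring
    rw [← Finset.mul_sum] at h1
    refine h1.trans ?_
    have h2 := x7_geo (1 / 2) (by norm_num) (by norm_num) J
    have h3 : 6 * ρ ^ lam * (e (-l) * chg d l n k0) * ∑ j ∈ Finset.range J, (1 / 2 : ℝ) ^ j ≤
        6 * ρ ^ lam * (e (-l) * chg d l n k0) * (1 / (1 - 1 / 2)) :=
      mul_le_mul_of_nonneg_left h2 (by positivity)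
    refine h3.trans (le_of_eq ?_)
    ring

end Pool.Agent.Helper107.CP
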