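import Mathlib
import Pool.Agent.Helper107.CPe

set_option autoImplicit false

namespace Pool.Agent.Helper107.CP

open Finset

/-- domination of the potential by the dyadic system -/
lemma Xi_dom {p : ℝ} (hp : 1 < p) (d : Dat) (lo hi : ℤ) (X : Finset ℤ) : ∃ T : ℕ, ∀ x ∈ X,
    Xi d p lo hi x ≤ 2 ^ p * ∑ i ∈ Finset.range (T + 1), (e (d.lev i (x / 2 ^ i))) ^ p *
      gsys d p lo hi i (x / 2 ^ i) := by
  classical
  -- for each (x,y,l) a scale
  have hsc : ∀ (x y l : ℤ), ∃ i : ℕ, d.isc y l ≤ i ∧ |x - y| ≤ 2 ^ i ∧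
      (2 : ℝ) ^ i ≤ 2 * ((2 : ℝ) ^ (d.isc y l) + |(x : ℝ) - y|) := by
    intro x y l
    have hex : ∃ i : ℕ, d.isc y l ≤ i ∧ |x - y| ≤ 2 ^ i := by
      refine ⟨d.isc y l + (x - y).natAbs, by omega, ?_⟩
      have h1 : (x - y).natAbs < 2 ^ (x - y).natAbs := Nat.lt_two_pow_self
      have h2 : ((x - y).natAbs : ℤ) < 2 ^ (x - y).natAbs := by exact_mod_cast h1
      have h3 : (2 : ℤ) ^ (x - y).natAbs ≤ 2 ^ (d.isc y l + (x - y).natAbs) :=
        pow_le_pow_right₀ (by norm_num) (by omega)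
      rw [Int.abs_eq_natAbs]; omega
    refine ⟨Nat.find hex, (Nat.find_spec hex).1, (Nat.find_spec hex).2, ?_⟩
    obtain ⟨i, hi⟩ : ∃ i, i = Nat.find hex := ⟨_, rfl⟩
    rw [← hi]
    have hmin := fun j hj => Nat.find_min hex (m := j) hj
    rw [← hi] at hmin
    have hA : 0 ≤ |(x : ℝ) - y| := abs_nonneg _
    by_cases h0 : i ≤ d.isc y l
    · have : (2 : ℝ) ^ i ≤ 2 ^ (d.isc y l) := pow_le_pow_right₀ (by norm_num) h0
      have : (0 : ℝ) < 2 ^ (d.isc y l) := by positivity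
      linarith
    · have h1 := hmin (i - 1) (by omega)
      have h2 : ¬ (|x - y| ≤ 2 ^ (i - 1)) := fun hc => h1 ⟨by omega, hc⟩
      have h3 : (2 : ℝ) ^ (i - 1) < |(x : ℝ) - y| := by
        have : ((2 ^ (i - 1) : ℤ) : ℝ) < ((|x - y| : ℤ) : ℝ) := by exact_mod_cast not_le.1 h2
        push_cast at this; exact this
      have h4 : (2 : ℝ) ^ i = 2 * 2 ^ (i - 1) := by
        conv_lhs => rw [show i = (i - 1) + 1 by omega]
        ring
      have : (0 : ℝ) < 2 ^ (d.isc y l) := by positivity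
      rw [h4]; linarith
  choose sc hsc1 hsc2 hsc3 using hsc
  refine ⟨X.sup (fun x => d.F.sup (fun y => (Finset.Icc lo hi).sup (fun l => sc x y l))), fun x hx => ?_⟩
  obtain ⟨T, hT⟩ : ∃ T, T = X.sup (fun x => d.F.sup (fun y => (Finset.Icc lo hi).sup (fun l => sc x y l))) := ⟨_, rfl⟩
  rw [← hT]
  have hscT : ∀ y ∈ d.F, ∀ l ∈ Finset.Icc lo hi, sc x y l ∈ Finset.range (T + 1) := by
    intro y hy l hl
    rw [Finset.mem_range]
    have h1 : sc x y l ≤ (Finset.Icc lo hi).sup (fun l => sc x y l) := Finset.le_sup (f := fun l => sc x y l) hl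
    have h2 : (Finset.Icc lo hi).sup (fun l => sc x y l) ≤ d.F.sup (fun y => (Finset.Icc lo hi).sup (fun l => sc x y l)) :=
      Finset.le_sup (f := fun y => (Finset.Icc lo hi).sup (fun l => sc x y l)) hy
    have h3 : d.F.sup (fun y => (Finset.Icc lo hi).sup (fun l => sc x y l)) ≤ T := by
      rw [hT]
      exact Finset.le_sup (f := fun x => d.F.sup (fun y => (Finset.Icc lo hi).sup (fun l => sc x y l))) hx
    omega
  -- rewrite the right side
  have hR : ∀ i : ℕ, (e (d.lev i (x / 2 ^ i))) ^ p * gsys d p lo hi i (x / 2 ^ i) =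
      ∑ y ∈ d.F, ∑ l ∈ Finset.Icc lo hi, (if |y - x / 2 ^ i * 2 ^ i| ≤ 2 ^ (i + 1) ∧ d.isc y l ≤ i then
        qch d p y l * ((2 : ℝ) ^ i) ^ (-p) else 0) := by
    intro i
    unfold gsys
    have e1 : (e (d.lev i (x / 2 ^ i))) ^ p * (e (-(d.lev i (x / 2 ^ i)))) ^ p = 1 := by
      rw [← Real.mul_rpow (e_pos _).le (e_pos _).le, ← e_add, add_neg_cancel, e_zero, Real.one_rpow]
    calc _ = ((e (d.lev i (x / 2 ^ i))) ^ p * (e (-(d.lev i (x / 2 ^ i)))) ^ p) * (((2 : ℝ) ^ i) ^ (-p) *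
          ∑ y ∈ d.F.filter (fun y => |y - x / 2 ^ i * 2 ^ i| ≤ 2 ^ (i + 1)),
          d.m y * ∑ l' ∈ (Finset.Icc lo hi).filter (fun l' => l' ≤ d.lev 0 y ∧ d.isc y l' ≤ i),
          d.dl y l' * (e (l' + d.isc y l')) ^ (p - 1)) := by ring
      _ = _ := by
          rw [e1, one_mul, Finset.sum_filter, Finset.mul_sum]
          apply Finset.sum_congr rfl
          intro y _
          split_ifs with h1
          · rw [Finset.sum_filter, Finset.mul_sum, Finset.mul_sum]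
            apply Finset.sum_congr rfl
            intro l _
            unfold qch
            by_cases h2 : l ≤ d.lev 0 y <;> by_cases h3 : d.isc y l ≤ i <;> simp [h1, h2, h3] <;> ring
          · rw [mul_zero]
            symm
            apply Finset.sum_eq_zero
            intro l _
            rw [if_neg (fun hc => h1 hc.1)]
  simp_rw [hR]
  rw [Finset.sum_comm]
  unfold Xi
  rw [Finset.mul_sum]
  apply Finset.sum_le_sum
  intro y hy
  rw [Finset.sum_comm, Finset.mul_sum]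
  apply Finset.sum_le_sum
  intro l hl
  have hq := qch_nonneg d p y l
  have h1 : qch d p y l * ((2 : ℝ) ^ (sc x y l)) ^ (-p) ≤ ∑ i ∈ Finset.range (T + 1),
      (if |y - x / 2 ^ i * 2 ^ i| ≤ 2 ^ (i + 1) ∧ d.isc y l ≤ i then qch d p y l * ((2 : ℝ) ^ i) ^ (-p) else 0) := by
    have h2 : |y - x / 2 ^ (sc x y l) * 2 ^ (sc x y l)| ≤ 2 ^ (sc x y l + 1) ∧ d.isc y l ≤ sc x y l := by
      refine ⟨?_, hsc1 x y l⟩
      have h3 := hsc2 x y l
      have h4 := Int.emod_add_mul_ediv x (2 ^ (sc x y l))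
      have h5 := Int.emod_nonneg x (show (2 : ℤ) ^ (sc x y l) ≠ 0 by positivity)
      have h6 := Int.emod_lt_of_pos x (show (0 : ℤ) < 2 ^ (sc x y l) by positivity)
      have e2 : x / 2 ^ (sc x y l) * 2 ^ (sc x y l) = x - x % 2 ^ (sc x y l) := by
        rw [mul_comm]; omega
      rw [e2, pow_succ, abs_le]
      rw [abs_le] at h3
      constructor <;> omega
    have h3 := Finset.single_le_sum (f := fun i : ℕ => (if |y - x / 2 ^ i * 2 ^ i| ≤ 2 ^ (i + 1) ∧ d.isc y l ≤ i then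
      qch d p y l * ((2 : ℝ) ^ i) ^ (-p) else 0)) (fun i _ => by
        split_ifs
        · positivity
        · exact le_rfl) (hscT y hy l hl)
    simp only [if_pos h2] at h3
    exact h3
  refine le_trans ?_ (mul_le_mul_of_nonneg_left h1 (by positivity))
  have h4 : ((2 : ℝ) ^ (d.isc y l) + |(x : ℝ) - y|) ^ (-p) ≤ 2 ^ p * ((2 : ℝ) ^ (sc x y l)) ^ (-p) := by
    have h5 := hsc3 x y l
    have hpos : (0 : ℝ) < (2 : ℝ) ^ (d.isc y l) + |(x : ℝ) - y| := by positivity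
    have h6 : (0 : ℝ) < (2 : ℝ) ^ (sc x y l) := by positivity
    have h7 : (2 * ((2 : ℝ) ^ (d.isc y l) + |(x : ℝ) - y|)) ^ (-p) ≤ ((2 : ℝ) ^ (sc x y l)) ^ (-p) :=
      Real.rpow_le_rpow_of_nonpos h6 h5 (by linarith)
    rw [Real.mul_rpow (by norm_num) hpos.le] at h7
    have h8 : (2 : ℝ) ^ p * (2 : ℝ) ^ (-p) = 1 := by
      rw [← Real.rpow_add (by norm_num)]; simp
    calc ((2 : ℝ) ^ (d.isc y l) + |(x : ℝ) - y|) ^ (-p)
        = (2 : ℝ) ^ p * ((2 : ℝ) ^ (-p) * ((2 : ℝ) ^ (d.isc y l) + |(x : ℝ) - y|) ^ (-p)) := by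
          rw [← mul_assoc, h8, one_mul]
      _ ≤ _ := mul_le_mul_of_nonneg_left h7 (by positivity)
  calc qch d p y l * ((2 : ℝ) ^ (d.isc y l) + |(x : ℝ) - y|) ^ (-p)
      ≤ qch d p y l * (2 ^ p * ((2 : ℝ) ^ (sc x y l)) ^ (-p)) := mul_le_mul_of_nonneg_left h4 hq
    _ = _ := by ring

/-- finiteness of the potential -/
lemma UU_Xi_ne_top {p : ℝ} (hp : 1 < p) (d : Dat) (lo hi : ℤ) (U : ℤ → ℝ) (hU : ∀ n, 0 ≤ U n)
    (hs : Summable (fun n : ℤ => U n * (1 / (1 + |(n : ℝ)|)) ^ p)) : UU U (Xi d p lo hi) ≠ ⊤ := by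
  unfold UU
  apply Summable.tsum_ofReal_ne_top
  obtain ⟨C, hC⟩ : ∃ C : ℝ, C = ∑ y ∈ d.F, ∑ l ∈ Finset.Icc lo hi, qch d p y l * (1 + |(y : ℝ)|) ^ p := ⟨_, rfl⟩
  apply Summable.of_nonneg_of_le (fun x => mul_nonneg (hU x) (Xi_nonneg d p lo hi x)) (fun x => ?_) (hs.mul_left C)
  have h1 : Xi d p lo hi x ≤ C * (1 / (1 + |(x : ℝ)|)) ^ p := by
    rw [hC, Finset.sum_mul]
    unfold Xi
    apply Finset.sum_le_sum
    intro y _
    rw [Finset.sum_mul]
    apply Finset.sum_le_sum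
    intro l _
    rw [mul_assoc]
    apply mul_le_mul_of_nonneg_left _ (qch_nonneg d p y l)
    have hpos : (0 : ℝ) < (2 : ℝ) ^ (d.isc y l) + |(x : ℝ) - y| := by positivity
    rw [Real.rpow_neg hpos.le, ← Real.inv_rpow hpos.le, ← Real.mul_rpow (by positivity) (by positivity)]
    apply Real.rpow_le_rpow (by positivity) _ (by linarith)
    rw [mul_one_div, inv_eq_one_div, div_le_div_iff₀ hpos (by positivity), one_mul]
    have h2 : (1 : ℝ) ≤ 2 ^ (d.isc y l) := one_le_pow₀ (by norm_num)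
    have h3 : |(x : ℝ)| ≤ |(x : ℝ) - y| + |(y : ℝ)| := by
      have := abs_add_le ((x : ℝ) - y) y
      rwa [sub_add_cancel] at this
    have h4 := abs_nonneg (y : ℝ)
    have h5 := abs_nonneg ((x : ℝ) - y)
    nlinarith
  calc U x * Xi d p lo hi x ≤ U x * (C * (1 / (1 + |(x : ℝ)|)) ^ p) := mul_le_mul_of_nonneg_left h1 (hU x)
    _ = _ := by ring

end Pool.Agent.Helper107.CP
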