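import Mathlib
import Pool.Agent.Helper107.CPf

set_option autoImplicit false

namespace Pool.Agent.Helper107.CP

open Finset

/-- splitting a sum over scales by levels -/
lemma sum_by_level (d : Dat) (a : ℕ → ℤ → ℝ) (w : ℤ → ℝ) (T : ℕ) (Λ : Finset ℤ) (x : ℤ)
    (hΛ : ∀ i ∈ Finset.range (T + 1), d.lev i (x / 2 ^ i) ∈ Λ) :
    ∑ i ∈ Finset.range (T + 1), w (d.lev i (x / 2 ^ i)) * a i (x / 2 ^ i) =
      ∑ l ∈ Λ, w l * pt (atl d a l) T x := by
  unfold pt atl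
  simp_rw [Finset.mul_sum]
  rw [Finset.sum_comm]
  apply Finset.sum_congr rfl
  intro i hi
  rw [Finset.sum_eq_single (d.lev i (x / 2 ^ i))]
  · simp
  · intro l _ hl
    rw [if_neg (fun h => hl h.symm), mul_zero]
  · intro h; exact absurd (hΛ i hi) h

lemma pt_atl_zero (d : Dat) (a : ℕ → ℤ → ℝ) (T : ℕ) (x l : ℤ) (h : d.lev 0 x < l) :
    pt (atl d a l) T x = 0 := by
  unfold pt atl
  apply Finset.sum_eq_zero
  intro i _
  rw [if_neg]
  have h1 := d.lev_chain' (Nat.zero_le i) x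
  rw [pow_zero, Int.ediv_one] at h1
  omega

lemma pt_atl_nonneg (d : Dat) {a : ℕ → ℤ → ℝ} (h : ∀ i k, 0 ≤ a i k) (T : ℕ) (x l : ℤ) :
    0 ≤ pt (atl d a l) T x := by
  unfold pt atl
  apply Finset.sum_nonneg
  intro i _
  split_ifs
  · exact h _ _
  · exact le_rfl

lemma Phi_nonneg (lam0 r : ℕ) {t : ℝ} : 0 ≤ Phi lam0 r t := by
  unfold Phi
  split_ifs with h
  · have : (0 : ℝ) ≤ lam0 := Nat.cast_nonneg _
    exact pow_nonneg (by linarith) r
  · exact le_rfl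

/-- the levels occurring -/
noncomputable def levs (d : Dat) (X : Finset ℤ) (T : ℕ) : Finset ℤ := by
  classical
  exact (X ×ˢ Finset.range (T + 1)).image (fun q => d.lev q.2 (q.1 / 2 ^ q.2))

lemma mem_levs (d : Dat) {X : Finset ℤ} {T : ℕ} {x : ℤ} (hx : x ∈ X) :
    ∀ i ∈ Finset.range (T + 1), d.lev i (x / 2 ^ i) ∈ levs d X T := by
  intro i hi
  unfold levs
  rw [Finset.mem_image]
  exact ⟨(x, i), Finset.mem_product.2 ⟨hx, hi⟩, rfl⟩

lemma ennreal_absorb {x a : ENNReal} (hx : x ≠ ⊤) (h : x ≤ a + ENNReal.ofReal (1 / 2) * x) :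
    x ≤ 2 * a := by
  by_cases ha : a = ⊤
  · rw [ha]; simp
  · have h1 : x.toReal ≤ a.toReal + (1 / 2) * x.toReal := by
      have h2 := ENNReal.toReal_mono (by
        apply ENNReal.add_ne_top.2 ⟨ha, ENNReal.mul_ne_top ENNReal.ofReal_ne_top hx⟩) h
      rwa [ENNReal.toReal_add ha (ENNReal.mul_ne_top ENNReal.ofReal_ne_top hx), ENNReal.toReal_mul,
        ENNReal.toReal_ofReal (by norm_num)] at h2
    have h3 : x.toReal ≤ 2 * a.toReal := by linarith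
    rw [← ENNReal.ofReal_toReal hx]
    calc ENNReal.ofReal x.toReal ≤ ENNReal.ofReal (2 * a.toReal) := ENNReal.ofReal_le_ofReal h3
      _ = 2 * a := by
        rw [ENNReal.ofReal_mul (by norm_num), ENNReal.ofReal_toReal ha]
        norm_num

/-- the self-improving potential estimate -/
theorem potential {p : ℝ} (hp : 1 < p) (c0 : ℕ) (Cg : ℝ)
    (hg : ∀ d : Dat, d.c0 = c0 → ∀ lo hi : ℤ, WS d Cg (gsys d p lo hi))
    (n0 : ℕ) (ρ K C' ε' : ℝ) (hρ : 0 < ρ) (hρ1 : ρ < 1) (hK : 0 < K)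
    (hM : ∀ (d : Dat), d.c0 = c0 → ∀ U : ℤ → ℝ, (∀ n, 0 ≤ U n) →
    Summable (fun n : ℤ => U n * (1 / (1 + |(n : ℝ)|)) ^ p) →
    (∀ (n : ℕ) (k0 : ℤ) (E : Finset ℤ), E ⊆ dy n k0 →
      ∑ x ∈ E, U x ≤ C' * (((E.card : ℝ) / 2 ^ n) ^ ε' *
        (∑ x ∈ Finset.Icc (k0 * 2 ^ n - 2 ^ (n + c0 - 3)) (k0 * 2 ^ n + 2 ^ (n + c0 - 3)), U x) +
      ((E.card : ℝ) / 2 ^ n) * ∑' x : ℤ, U x * ((2 : ℝ) ^ n / (2 ^ n + |(x : ℝ) - k0 * 2 ^ n|)) ^ p)) →
    ∀ a : ℕ → ℤ → ℝ, WS d Cg a → ∀ (lam0 : ℕ), n0 ≤ lam0 → ∀ (l : ℤ) (X : Finset ℤ) (T : ℕ),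
      ∑ x ∈ X, ENNReal.ofReal (U x * Phi lam0 1 (pt (atl d a l) T x)) ≤
        ENNReal.ofReal K * ∑' x : ℤ, ENNReal.ofReal (if l ≤ d.lev 0 x then U x else 0) +
        ENNReal.ofReal (K * ρ ^ lam0) * ENNReal.ofReal ((e (-l)) ^ p) *
          ∑ y ∈ d.F, ENNReal.ofReal (if l ≤ d.lev 0 y then d.m y * d.dl y l * (e (l + d.isc y l)) ^ (p - 1) else 0) *
            ∑' x : ℤ, ENNReal.ofReal (U x * ((2 : ℝ) ^ (d.isc y l) + |(x : ℝ) - y|) ^ (-p))) :
    ∃ K2 : ℝ, 0 < K2 ∧ ∀ (d : Dat), d.c0 = c0 → ∀ U : ℤ → ℝ, (∀ n, 0 ≤ U n) →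
    Summable (fun n : ℤ => U n * (1 / (1 + |(n : ℝ)|)) ^ p) →
    (∀ (n : ℕ) (k0 : ℤ) (E : Finset ℤ), E ⊆ dy n k0 →
      ∑ x ∈ E, U x ≤ C' * (((E.card : ℝ) / 2 ^ n) ^ ε' *
        (∑ x ∈ Finset.Icc (k0 * 2 ^ n - 2 ^ (n + c0 - 3)) (k0 * 2 ^ n + 2 ^ (n + c0 - 3)), U x) +
      ((E.card : ℝ) / 2 ^ n) * ∑' x : ℤ, U x * ((2 : ℝ) ^ n / (2 ^ n + |(x : ℝ) - k0 * 2 ^ n|)) ^ p)) →
    ∀ G : ℤ → ℝ, (∀ x, e (d.lev 0 x) ≤ G x) → ∀ lo hi : ℤ, (∀ y ∈ d.F, ∀ l < lo, d.dl y l = 0) →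
    (∀ y ∈ d.F, d.lev 0 y ≤ hi) →
    UU U (Xi d p lo hi) ≤ ENNReal.ofReal K2 * UU U (fun x => (G x) ^ p) := by
  -- choose lam0
  obtain ⟨N, hN⟩ : ∃ N : ℕ, ρ ^ N < 1 / (2 * (2 ^ p * K)) :=
    exists_pow_lt_of_lt_one (by positivity) hρ1
  obtain ⟨lam0, hlam0⟩ : ∃ lam0 : ℕ, lam0 = max n0 N := ⟨_, rfl⟩
  have hlam : 2 ^ p * (K * ρ ^ lam0) ≤ 1 / 2 := by
    have h1 : ρ ^ lam0 ≤ ρ ^ N := pow_le_pow_of_le_one hρ.le hρ1.le (by rw [hlam0]; exact le_max_right _ _)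
    have h2 : (0 : ℝ) < 2 ^ p * K := by positivity
    have h3 : ρ ^ lam0 ≤ 1 / (2 * (2 ^ p * K)) := le_trans h1 hN.le
    calc 2 ^ p * (K * ρ ^ lam0) = (2 ^ p * K) * ρ ^ lam0 := by ring
      _ ≤ (2 ^ p * K) * (1 / (2 * (2 ^ p * K))) := mul_le_mul_of_nonneg_left h3 h2.le
      _ = 1 / 2 := by field_simp
  refine ⟨2 * (2 ^ p * lam0 * 2 + 2 ^ p * (2 * K)), by positivity, ?_⟩
  intro d hd U hU hs hloc G hG lo hi hlo hhi
  have hG0 : ∀ x, 0 ≤ G x := fun x => le_trans (e_pos _).le (hG x)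
  have hfin := UU_Xi_ne_top hp d lo hi U hU hs
  rw [ENNReal.ofReal_mul (by norm_num), mul_assoc, show ENNReal.ofReal 2 = 2 by norm_num]
  apply ennreal_absorb hfin
  have hgws := hg d hd lo hi
  -- finite partial sums
  have hpart : ∀ X : Finset ℤ, ∑ x ∈ X, ENNReal.ofReal (U x * Xi d p lo hi x) ≤
      ENNReal.ofReal (2 ^ p * lam0 * 2 + 2 ^ p * (2 * K)) * UU U (fun x => (G x) ^ p) +
      ENNReal.ofReal (1 / 2) * UU U (Xi d p lo hi) := by
    intro X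
    obtain ⟨T, hT⟩ := Xi_dom hp d lo hi X
    have hlev := sum_levels hp d U hU G hG lo hi hlo hhi
      (fun l x => Phi lam0 1 (pt (atl d (gsys d p lo hi) l) T x)) (fun l x => Phi_nonneg _ _) X K (K * ρ ^ lam0)
      hK.le (by positivity)
      (fun l => hM d hd U hU hs hloc (gsys d p lo hi) hgws lam0 (by rw [hlam0]; exact le_max_left _ _) l X T)
      (levs d X T)
    have hpt : ∀ x ∈ X, ENNReal.ofReal (U x * Xi d p lo hi x) ≤
        ENNReal.ofReal (2 ^ p * lam0 * 2) * ENNReal.ofReal (U x * (G x) ^ p) +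
        ENNReal.ofReal (2 ^ p) * ENNReal.ofReal (U x * ∑ l ∈ levs d X T, (e l) ^ p *
          Phi lam0 1 (pt (atl d (gsys d p lo hi) l) T x)) := by
      intro x hx
      rw [← ENNReal.ofReal_mul (by positivity), ← ENNReal.ofReal_mul (by positivity), ← ENNReal.ofReal_add]
      · apply ENNReal.ofReal_le_ofReal
        have h1 := hT x hx
        rw [sum_by_level d (gsys d p lo hi) (fun l => (e l) ^ p) T (levs d X T) x (mem_levs d hx)] at h1
        have h2 : ∑ l ∈ levs d X T, (e l) ^ p * pt (atl d (gsys d p lo hi) l) T x ≤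
            lam0 * (∑ l ∈ levs d X T, (if l ≤ d.lev 0 x then (e l) ^ p else 0)) +
            ∑ l ∈ levs d X T, (e l) ^ p * Phi lam0 1 (pt (atl d (gsys d p lo hi) l) T x) := by
          rw [Finset.mul_sum, ← Finset.sum_add_distrib]
          apply Finset.sum_le_sum
          intro l _
          have hep : 0 ≤ (e l) ^ p := Real.rpow_nonneg (e_pos _).le _
          by_cases hl : l ≤ d.lev 0 x
          · rw [if_pos hl]
            by_cases ht : (lam0 : ℝ) < pt (atl d (gsys d p lo hi) l) T x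
            · have : Phi lam0 1 (pt (atl d (gsys d p lo hi) l) T x) = pt (atl d (gsys d p lo hi) l) T x := by
                unfold Phi; rw [if_pos ht, pow_one]
              rw [this]
              have : 0 ≤ (lam0 : ℝ) * (e l) ^ p := by positivity
              linarith
            · have h3 := mul_le_mul_of_nonneg_left (not_lt.1 ht) hep
              have h4 := mul_nonneg hep (Phi_nonneg lam0 1 (t := pt (atl d (gsys d p lo hi) l) T x))
              linarith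
          · rw [if_neg hl, pt_atl_zero d _ T x l (not_le.1 hl)]
            have h4 := mul_nonneg hep (Phi_nonneg lam0 1 (t := (0 : ℝ)))
            linarith
        have h3 := sum_ep_le hp.le (levs d X T) (d.lev 0 x)
        have h4 : (e (d.lev 0 x)) ^ p ≤ (G x) ^ p := Real.rpow_le_rpow (e_pos _).le (hG x) (by linarith)
        have h5 : (0 : ℝ) ≤ lam0 := Nat.cast_nonneg _
        have h6 : (0 : ℝ) < 2 ^ p := by positivity
        obtain ⟨S, hS⟩ : ∃ S, S = ∑ l ∈ levs d X T, (e l) ^ p * Phi lam0 1 (pt (atl d (gsys d p lo hi) l) T x) := ⟨_, rfl⟩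
        rw [← hS] at h2 ⊢
        have h7 : Xi d p lo hi x ≤ 2 ^ p * (lam0 * (2 * (G x) ^ p) + S) := by
          refine le_trans h1 (mul_le_mul_of_nonneg_left ?_ h6.le)
          refine le_trans h2 ?_
          have h8 : (lam0 : ℝ) * (∑ l ∈ levs d X T, (if l ≤ d.lev 0 x then (e l) ^ p else 0)) ≤
            lam0 * (2 * (G x) ^ p) := mul_le_mul_of_nonneg_left (by linarith) h5
          linarith
        calc U x * Xi d p lo hi x ≤ U x * (2 ^ p * (lam0 * (2 * (G x) ^ p) + S)) :=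
              mul_le_mul_of_nonneg_left h7 (hU x)
          _ = _ := by ring
      · have := hU x
        have := Real.rpow_nonneg (hG0 x) p
        positivity
      · have := hU x
        have h9 : 0 ≤ ∑ l ∈ levs d X T, (e l) ^ p * Phi lam0 1 (pt (atl d (gsys d p lo hi) l) T x) :=
          Finset.sum_nonneg (fun l _ => mul_nonneg (Real.rpow_nonneg (e_pos _).le _) (Phi_nonneg _ _))
        positivity
    refine le_trans (Finset.sum_le_sum hpt) ?_
    rw [Finset.sum_add_distrib, ← Finset.mul_sum, ← Finset.mul_sum]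
    have hA : ∑ x ∈ X, ENNReal.ofReal (U x * (G x) ^ p) ≤ UU U (fun x => (G x) ^ p) :=
      ENNReal.sum_le_tsum X
    calc ENNReal.ofReal (2 ^ p * lam0 * 2) * ∑ x ∈ X, ENNReal.ofReal (U x * (G x) ^ p) +
          ENNReal.ofReal (2 ^ p) * ∑ x ∈ X, ENNReal.ofReal (U x * ∑ l ∈ levs d X T, (e l) ^ p *
          Phi lam0 1 (pt (atl d (gsys d p lo hi) l) T x))
        ≤ ENNReal.ofReal (2 ^ p * lam0 * 2) * UU U (fun x => (G x) ^ p) +
          ENNReal.ofReal (2 ^ p) * (ENNReal.ofReal (2 * K) * UU U (fun x => (G x) ^ p) +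
            ENNReal.ofReal (K * ρ ^ lam0) * UU U (Xi d p lo hi)) := by gcongr
      _ = (ENNReal.ofReal (2 ^ p * lam0 * 2) + ENNReal.ofReal (2 ^ p) * ENNReal.ofReal (2 * K)) *
            UU U (fun x => (G x) ^ p) +
            (ENNReal.ofReal (2 ^ p) * ENNReal.ofReal (K * ρ ^ lam0)) * UU U (Xi d p lo hi) := by ring
      _ ≤ _ := by
          rw [← ENNReal.ofReal_mul (by positivity), ← ENNReal.ofReal_mul (by positivity),
            ← ENNReal.ofReal_add (by positivity) (by positivity)]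
          gcongr
  have e1 : UU U (Xi d p lo hi) = ⨆ X : Finset ℤ, ∑ x ∈ X, ENNReal.ofReal (U x * Xi d p lo hi x) :=
    ENNReal.tsum_eq_iSup_sum
  calc UU U (Xi d p lo hi) = ⨆ X : Finset ℤ, ∑ x ∈ X, ENNReal.ofReal (U x * Xi d p lo hi x) := e1
    _ ≤ _ := iSup_le hpart

end Pool.Agent.Helper107.CP
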