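import Mathlib
import Pool.Agent.Helper107.CPd

set_option autoImplicit false

namespace Pool.Agent.Helper107.CP

open Finset

namespace G

lemma geo (s : ℝ) (hs : 0 < s) (X : ℝ) (hX : 0 < X) (S : Finset ℕ) (h : ∀ i ∈ S, X ≤ 2 ^ i) :
    ∑ i ∈ S, ((2 : ℝ) ^ i) ^ (-s) ≤ (1 - (2 : ℝ) ^ (-s))⁻¹ * X ^ (-s) := by
  have h2s : (2 : ℝ) ^ (-s) < 1 := Real.rpow_lt_one_of_one_lt_of_neg (by norm_num) (by linarith)
  have h2p : (0 : ℝ) < (2 : ℝ) ^ (-s) := by positivity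
  have hpos : 0 < (1 - (2 : ℝ) ^ (-s))⁻¹ := inv_pos.2 (by linarith)
  rcases S.eq_empty_or_nonempty with rfl | hne
  · rw [Finset.sum_empty]; positivity
  · obtain ⟨i0, hi0, hmin⟩ := S.exists_min_image id hne
    have e1 : ∀ i : ℕ, ((2 : ℝ) ^ i) ^ (-s) = ((2 : ℝ) ^ (-s)) ^ i := by
      intro i
      rw [← Real.rpow_natCast, ← Real.rpow_natCast, ← Real.rpow_mul (by norm_num),
        ← Real.rpow_mul (by norm_num), mul_comm]
    have hsub : S ⊆ Finset.Ico i0 (S.sup id + 1) := by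
      intro i hi
      rw [Finset.mem_Ico]
      exact ⟨hmin i hi, Nat.lt_succ_of_le (Finset.le_sup (f := id) hi)⟩
    calc ∑ i ∈ S, ((2 : ℝ) ^ i) ^ (-s) = ∑ i ∈ S, ((2 : ℝ) ^ (-s)) ^ i :=
          Finset.sum_congr rfl (fun i _ => e1 i)
      _ ≤ ∑ i ∈ Finset.Ico i0 (S.sup id + 1), ((2 : ℝ) ^ (-s)) ^ i :=
          Finset.sum_le_sum_of_subset_of_nonneg hsub (fun _ _ _ => by positivity)
      _ ≤ ((2 : ℝ) ^ (-s)) ^ i0 / (1 - (2 : ℝ) ^ (-s)) := geom_sum_Ico_le_of_lt_one h2p.le h2s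
      _ = (1 - (2 : ℝ) ^ (-s))⁻¹ * ((2 : ℝ) ^ i0) ^ (-s) := by rw [e1, div_eq_inv_mul]
      _ ≤ _ := by
          apply mul_le_mul_of_nonneg_left _ hpos.le
          exact Real.rpow_le_rpow_of_nonpos hX (h i0 hi0) (by linarith)

open Classical in
lemma count5 (i : ℕ) (y : ℤ) (K : Finset ℤ) (P : ℤ → Prop)
    (hP : ∀ k, P k → |y - k * 2 ^ i| ≤ 2 ^ (i + 1)) : (K.filter P).card ≤ 5 := by
  have hsub : K.filter P ⊆ Finset.Icc (y / 2 ^ i - 2) (y / 2 ^ i + 2) := by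
    intro k hk
    rw [Finset.mem_filter] at hk
    have h1 := abs_le.1 (hP k hk.2)
    have hp : (0 : ℤ) < 2 ^ i := by positivity
    have e1 : (2 : ℤ) ^ (i + 1) = 2 * 2 ^ i := by ring
    rw [e1] at h1
    have h2 : (y / 2 ^ i) * 2 ^ i ≤ y := Int.ediv_mul_le y hp.ne'
    have h3 : y < (y / 2 ^ i + 1) * 2 ^ i := Int.lt_ediv_add_one_mul_self y hp
    rw [Finset.mem_Icc]
    constructor
    · by_contra hc
      have h4 : k + 1 ≤ y / 2 ^ i - 2 := by omega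
      have := mul_le_mul_of_nonneg_right h4 hp.le
      nlinarith
    · by_contra hc
      have h4 : y / 2 ^ i + 3 ≤ k := by omega
      have := mul_le_mul_of_nonneg_right h4 hp.le
      nlinarith
  calc _ ≤ (Finset.Icc (y / 2 ^ i - 2) (y / 2 ^ i + 2)).card := Finset.card_le_card hsub
    _ = 5 := by rw [Int.card_Icc]; omega

open Classical in
lemma inner (s : ℝ) (hs : 0 < s) (X W : ℝ) (hX : 0 < X) (hW : 0 ≤ W) (n : ℕ) (k0 y : ℤ)
    (P : ℕ → ℤ → Prop)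
    (hP : ∀ i k, P i k → |y - k * 2 ^ i| ≤ 2 ^ (i + 1)) (h : ∀ i k, P i k → X ≤ 2 ^ i) :
    ∑ i ∈ Finset.range (n + 1), ∑ k ∈ Finset.Ico (k0 * 2 ^ (n - i)) ((k0 + 1) * 2 ^ (n - i)),
      (if P i k then W * ((2 : ℝ) ^ i) ^ (-s) else 0) ≤
      5 * W * ((1 - (2 : ℝ) ^ (-s))⁻¹ * X ^ (-s)) := by
  have h1 : ∀ i ∈ Finset.range (n + 1), ∑ k ∈ Finset.Ico (k0 * 2 ^ (n - i)) ((k0 + 1) * 2 ^ (n - i)),
      (if P i k then W * ((2 : ℝ) ^ i) ^ (-s) else 0) ≤
      (if ∃ k, P i k then 5 * W * ((2 : ℝ) ^ i) ^ (-s) else 0) := by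
    intro i _
    split_ifs with he
    · rw [← Finset.sum_filter, Finset.sum_const, nsmul_eq_mul]
      have := count5 i y (Finset.Ico (k0 * 2 ^ (n - i)) ((k0 + 1) * 2 ^ (n - i))) (P i) (hP i)
      have h2 : (((Finset.Ico (k0 * 2 ^ (n - i)) ((k0 + 1) * 2 ^ (n - i))).filter (P i)).card : ℝ) ≤ 5 := by
        exact_mod_cast this
      have h3 : 0 ≤ W * ((2 : ℝ) ^ i) ^ (-s) := by positivity
      calc _ ≤ 5 * (W * ((2 : ℝ) ^ i) ^ (-s)) := mul_le_mul_of_nonneg_right h2 h3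
        _ = _ := by ring
    · apply le_of_eq
      apply Finset.sum_eq_zero
      intro k _
      rw [if_neg]
      intro hk; exact he ⟨k, hk⟩
  refine le_trans (Finset.sum_le_sum h1) ?_
  rw [← Finset.sum_filter, ← Finset.mul_sum]
  apply mul_le_mul_of_nonneg_left _ (by positivity)
  apply geo s hs X hX
  intro i hi
  obtain ⟨k, hk⟩ := (Finset.mem_filter.1 hi).2
  exact h i k hk

structure Adm (d : Dat) (l : ℤ) (i : ℕ) (k y l' : ℤ) : Prop where
  hl : d.lev i k = l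
  hy : |y - k * 2 ^ i| ≤ 2 ^ (i + 1)
  h0 : l' ≤ d.lev 0 y
  hi : d.isc y l' ≤ i

lemma c0_pow (d : Dat) (i : ℕ) : 16 * (2 : ℤ) ^ i ≤ 2 ^ (i + d.c0) := by
  have h1 : (2 : ℤ) ^ (i + 4) ≤ 2 ^ (i + d.c0) := pow_le_pow_right₀ (by norm_num) (by have := d.hc0; omega)
  have h2 : (2 : ℤ) ^ (i + 4) = 16 * 2 ^ i := by ring
  omega

lemma adm_a {d : Dat} {l : ℤ} {i : ℕ} {k y l' : ℤ} (h : Adm d l i k y l') : l - 1 ≤ l' := by
  by_contra hc
  have hL : d.L i k l := by rw [← h.hl]; exact d.L_lev i k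
  have hp : (0 : ℤ) < 2 ^ (i + 1) := by positivity
  have h1 := abs_le.1 h.hy
  have h2 : (y / 2 ^ (i + 1)) * 2 ^ (i + 1) ≤ y := Int.ediv_mul_le y hp.ne'
  have h3 : y < (y / 2 ^ (i + 1) + 1) * 2 ^ (i + 1) := Int.lt_ediv_add_one_mul_self y hp
  have h4 := c0_pow d i
  have e1 : (2 : ℤ) ^ (i + 1) = 2 * 2 ^ i := by ring
  have e2 : (2 : ℤ) ^ (i + 1 + d.c0) = 2 * 2 ^ (i + d.c0) := by ring
  have e3 : (y / 2 ^ (i + 1) + 1) * 2 ^ (i + 1) = (y / 2 ^ (i + 1)) * 2 ^ (i + 1) + 2 ^ (i + 1) := by ring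
  obtain ⟨Z, hZ⟩ : ∃ Z : ℤ, Z = (y / 2 ^ (i + 1)) * 2 ^ (i + 1) := ⟨_, rfl⟩
  have hi0 : (0 : ℤ) < 2 ^ i := by positivity
  have hE := d.L_ext (i' := i + 1) (k' := y / 2 ^ (i + 1)) hL
    (by rw [← hZ, e2]; rw [e3, ← hZ, e1] at h3; rw [e1] at h1; linarith)
    (by rw [← hZ, e2]; rw [← hZ] at h2; rw [e1] at h1; linarith)
  have h5 := d.L_anti hE (l' := l') (by omega)
  have h6 := (d.isc_iff h.h0 (i + 1)).1 h5
  have := h.hi
  omega

lemma adm_b {d : Dat} {y l' : ℤ} (h : l' ≤ d.lev 0 y) : e (l' + d.isc y l') ≤ d.D y l' := by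
  have h1 := (d.isc_iff h (d.isc y l')).2 le_rfl
  have hp : (0 : ℤ) < 2 ^ (d.isc y l') := by positivity
  have h2 : (y / 2 ^ (d.isc y l')) * 2 ^ (d.isc y l') ≤ y := Int.ediv_mul_le y hp.ne'
  have h3 : y < (y / 2 ^ (d.isc y l') + 1) * 2 ^ (d.isc y l') := Int.lt_ediv_add_one_mul_self y hp
  have h4 := c0_pow d (d.isc y l')
  have e3 : (y / 2 ^ (d.isc y l') + 1) * 2 ^ (d.isc y l') =
    (y / 2 ^ (d.isc y l')) * 2 ^ (d.isc y l') + 2 ^ (d.isc y l') := by ring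
  rw [e3] at h3
  exact d.D_lower h1 (by linarith) (by linarith)

lemma adm_c {d : Dat} {l : ℤ} {i : ℕ} {k y l' : ℤ} (h : Adm d l i k y l') :
    d.D y (l + 2) * e (-l - d.c0 - 4) ≤ 2 ^ i := by
  have hL : ¬ d.L i k (l + 1) := by rw [← h.hl]; exact d.not_L i k
  have h1 := abs_le.1 h.hy
  have e1 : (2 : ℤ) ^ (i + 1) = 2 * 2 ^ i := by ring
  rw [e1] at h1
  have h4 := c0_pow d i
  have hi0 : (0 : ℤ) < 2 ^ i := by positivity
  have h2 := d.D_upper hL (w := i + d.c0) le_rfl (y := y) (by linarith) (by linarith)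
  calc d.D y (l + 2) * e (-l - d.c0 - 4) ≤ e (l + (i + d.c0 : ℕ) + 4) * e (-l - d.c0 - 4) :=
        mul_le_mul_of_nonneg_right h2 (e_pos _).le
    _ = 2 ^ i := by
        rw [← e_add, ← e_nat]; congr 1; push_cast; ring

noncomputable def Cs (p : ℝ) : ℝ := (1 - (2 : ℝ) ^ (-(p - 1)))⁻¹

lemma Cs_pos {p : ℝ} (hp : 1 < p) : 0 < Cs p := by
  have h2s : (2 : ℝ) ^ (-(p - 1)) < 1 := Real.rpow_lt_one_of_one_lt_of_neg (by norm_num) (by linarith)
  exact inv_pos.2 (by linarith)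

noncomputable def K1 (p : ℝ) : ℝ := 10 * Cs p * (2 : ℝ) ^ (p - 1)
noncomputable def K2 (p : ℝ) (c0 : ℕ) : ℝ := 5 * Cs p * (e (c0 + 4)) ^ (p - 1)

lemma K1_pos {p : ℝ} (hp : 1 < p) : 0 < K1 p := by
  have := Cs_pos hp
  unfold K1; positivity

lemma K2_pos {p : ℝ} (hp : 1 < p) (c0 : ℕ) : 0 < K2 p c0 := by
  have := Cs_pos hp
  have := e_pos (c0 + 4)
  unfold K2; positivity

lemma e_rpow_cancel (p : ℝ) (l : ℤ) : (e (-l)) ^ p * (e l) ^ (p - 1) = e (-l) := by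
  have h1 : e l = (e (-l))⁻¹ := by rw [e_neg, inv_inv]
  have h2 := e_pos (-l)
  rw [h1, Real.inv_rpow h2.le, ← Real.rpow_neg h2.le, ← Real.rpow_add h2]
  have : p + -(p - 1) = 1 := by ring
  rw [this, Real.rpow_one]

open Classical in
lemma per (d : Dat) (p : ℝ) (hp : 1 < p) (l : ℤ) (n : ℕ) (k0 y l' : ℤ) :
    ∑ i ∈ Finset.range (n + 1), ∑ k ∈ Finset.Ico (k0 * 2 ^ (n - i)) ((k0 + 1) * 2 ^ (n - i)),
      (if Adm d l i k y l' then (d.m y * (d.dl y l' * (e (l' + d.isc y l')) ^ (p - 1)) * (e (-l)) ^ p) *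
        ((2 : ℝ) ^ i) ^ (-(p - 1)) else 0) ≤
    (if l + 2 ≤ l' then K2 p d.c0 * (d.m y * e (-l)) * ((d.D y l') ^ (p - 1) * d.dl y l') *
        (d.D y (l + 2)) ^ (-(p - 1)) else if l - 1 ≤ l' then K1 p * (d.m y * e (-l)) else 0) := by
  have hs : 0 < p - 1 := by linarith
  have hm := d.m0 y
  have hdl := d.dl_nonneg y l'
  have hdl2 := d.dl_le_two y l'
  have he := e_pos (-l)
  have hCs := Cs_pos hp
  have hK1 := K1_pos hp
  have hK2 := K2_pos hp d.c0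
  have hee := e_pos (l' + d.isc y l')
  have hW : 0 ≤ d.m y * (d.dl y l' * (e (l' + d.isc y l')) ^ (p - 1)) * (e (-l)) ^ p := by positivity
  have hD1 := d.D_nonneg y l'
  have hD2 := d.D_nonneg y (l + 2)
  by_cases hex : ∃ i k, Adm d l i k y l'
  · obtain ⟨i1, k1, h1⟩ := hex
    have hb := adm_b h1.h0
    split_ifs with hc1 hc2
    · have hDD : d.D y l' ≤ d.D y (l + 2) := d.D_anti hc1
      have hDpos : 0 < d.D y (l + 2) := lt_of_lt_of_le hee (le_trans hb hDD)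
      refine le_trans (inner (p - 1) hs (d.D y (l + 2) * e (-l - d.c0 - 4)) _
        (mul_pos hDpos (e_pos _)) hW n k0 y (fun i k => Adm d l i k y l') (fun i k h => h.hy)
        (fun i k h => adm_c h)) ?_
      have h2 : (e (l' + d.isc y l')) ^ (p - 1) ≤ (d.D y l') ^ (p - 1) :=
        Real.rpow_le_rpow hee.le hb hs.le
      have h3 : (d.D y (l + 2) * e (-l - d.c0 - 4)) ^ (-(p - 1)) =
          (d.D y (l + 2)) ^ (-(p - 1)) * ((e l) ^ (p - 1) * (e (d.c0 + 4)) ^ (p - 1)) := by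
        rw [Real.mul_rpow hDpos.le (e_pos _).le]
        congr 1
        rw [← Real.mul_rpow (e_pos _).le (e_pos _).le, ← e_add, Real.rpow_neg (e_pos _).le,
          ← Real.inv_rpow (e_pos _).le, ← e_neg]
        congr 2
        ring
      rw [h3]
      have h4 := e_rpow_cancel p l
      have h5 : (0 : ℝ) ≤ (d.D y (l + 2)) ^ (-(p - 1)) := Real.rpow_nonneg hD2 _
      have h6 : (0 : ℝ) ≤ (e l) ^ (p - 1) := Real.rpow_nonneg (e_pos _).le _
      have h7 : (0 : ℝ) ≤ (e (d.c0 + 4)) ^ (p - 1) := Real.rpow_nonneg (e_pos _).le _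
      calc 5 * (d.m y * (d.dl y l' * (e (l' + d.isc y l')) ^ (p - 1)) * (e (-l)) ^ p) *
            ((1 - (2 : ℝ) ^ (-(p - 1)))⁻¹ * ((d.D y (l + 2)) ^ (-(p - 1)) *
              ((e l) ^ (p - 1) * (e (d.c0 + 4)) ^ (p - 1))))
          = (5 * Cs p * (e (d.c0 + 4)) ^ (p - 1)) * (d.m y * ((e (-l)) ^ p * (e l) ^ (p - 1))) *
              ((e (l' + d.isc y l')) ^ (p - 1) * d.dl y l') * (d.D y (l + 2)) ^ (-(p - 1)) := by
            unfold Cs; ring
        _ = K2 p d.c0 * (d.m y * e (-l)) *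
              ((e (l' + d.isc y l')) ^ (p - 1) * d.dl y l') * (d.D y (l + 2)) ^ (-(p - 1)) := by
            rw [h4]; rfl
        _ ≤ _ := by
            apply mul_le_mul_of_nonneg_right _ h5
            apply mul_le_mul_of_nonneg_left _ (by positivity)
            exact mul_le_mul_of_nonneg_right h2 hdl
    · refine le_trans (inner (p - 1) hs ((2 : ℝ) ^ (d.isc y l')) _
        (by positivity) hW n k0 y (fun i k => Adm d l i k y l') (fun i k h => h.hy)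
        (fun i k h => pow_le_pow_right₀ (by norm_num) h.hi)) ?_
      have h3 : (e (l' + d.isc y l')) ^ (p - 1) * ((2 : ℝ) ^ (d.isc y l')) ^ (-(p - 1)) = (e l') ^ (p - 1) := by
        rw [e_add, e_nat, Real.mul_rpow (e_pos _).le (by positivity), mul_assoc,
          ← Real.rpow_add (by positivity)]
        rw [add_neg_cancel, Real.rpow_zero, mul_one]
      have h4 := e_rpow_cancel p l
      have h5 : (e l') ^ (p - 1) ≤ (2 : ℝ) ^ (p - 1) * (e l) ^ (p - 1) := by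
        rw [← Real.mul_rpow (by norm_num) (e_pos _).le, ← e_succ]
        exact Real.rpow_le_rpow (e_pos _).le (e_le (by omega)) hs.le
      have h6 : (0 : ℝ) ≤ (e l') ^ (p - 1) := Real.rpow_nonneg (e_pos _).le _
      calc 5 * (d.m y * (d.dl y l' * (e (l' + d.isc y l')) ^ (p - 1)) * (e (-l)) ^ p) *
            ((1 - (2 : ℝ) ^ (-(p - 1)))⁻¹ * ((2 : ℝ) ^ (d.isc y l')) ^ (-(p - 1)))
          = 5 * Cs p * d.m y * (e (-l)) ^ p * ((e (l' + d.isc y l')) ^ (p - 1) *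
            ((2 : ℝ) ^ (d.isc y l')) ^ (-(p - 1))) * d.dl y l' := by
            unfold Cs; ring
        _ = 5 * Cs p * d.m y * (e (-l)) ^ p * (e l') ^ (p - 1) * d.dl y l' := by rw [h3]
        _ ≤ 5 * Cs p * d.m y * (e (-l)) ^ p * (e l') ^ (p - 1) * 2 :=
            mul_le_mul_of_nonneg_left hdl2 (by positivity)
        _ = 10 * Cs p * d.m y * (e (-l)) ^ p * (e l') ^ (p - 1) := by ring
        _ ≤ 10 * Cs p * d.m y * (e (-l)) ^ p * ((2 : ℝ) ^ (p - 1) * (e l) ^ (p - 1)) :=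
            mul_le_mul_of_nonneg_left h5 (by positivity)
        _ = 10 * Cs p * (2 : ℝ) ^ (p - 1) * (d.m y * ((e (-l)) ^ p * (e l) ^ (p - 1))) := by ring
        _ = K1 p * (d.m y * e (-l)) := by rw [h4]; rfl
    · exact absurd (adm_a h1) hc2
  · have h0 : ∀ i k, ¬ Adm d l i k y l' := fun i k h => hex ⟨i, k, h⟩
    have h2 : ∑ i ∈ Finset.range (n + 1), ∑ k ∈ Finset.Ico (k0 * 2 ^ (n - i)) ((k0 + 1) * 2 ^ (n - i)),
      (if Adm d l i k y l' then (d.m y * (d.dl y l' * (e (l' + d.isc y l')) ^ (p - 1)) * (e (-l)) ^ p) *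
        ((2 : ℝ) ^ i) ^ (-(p - 1)) else 0) = 0 := by
      apply Finset.sum_eq_zero
      intro i _
      apply Finset.sum_eq_zero
      intro k _
      rw [if_neg (h0 i k)]
    rw [h2]
    have h5 : (0 : ℝ) ≤ (d.D y (l + 2)) ^ (-(p - 1)) := Real.rpow_nonneg hD2 _
    have h6 : (0 : ℝ) ≤ (d.D y l') ^ (p - 1) := Real.rpow_nonneg hD1 _
    split_ifs <;> positivity

noncomputable def K3 (p : ℝ) (c0 : ℕ) : ℝ := K2 p c0 * (4 + 4 * Cs p) + 3 * K1 p

lemma K3_pos {p : ℝ} (hp : 1 < p) (c0 : ℕ) : 0 < K3 p c0 := by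
  have := Cs_pos hp
  have := K1_pos hp
  have := K2_pos hp c0
  unfold K3; positivity

lemma sum_l (d : Dat) (p : ℝ) (hp : 1 < p) (l : ℤ) (y lo hi : ℤ) :
    ∑ l' ∈ Finset.Icc lo hi, (if l + 2 ≤ l' then K2 p d.c0 * (d.m y * e (-l)) *
        ((d.D y l') ^ (p - 1) * d.dl y l') *
        (d.D y (l + 2)) ^ (-(p - 1)) else if l - 1 ≤ l' then K1 p * (d.m y * e (-l)) else 0) ≤
      K3 p d.c0 * (d.m y * e (-l)) := by
  have hs : 0 < p - 1 := by linarith
  have hm := d.m0 y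
  have he := e_pos (-l)
  have hCs := Cs_pos hp
  have hK1 := K1_pos hp
  have hK2 := K2_pos hp d.c0
  have hD2 := d.D_nonneg y (l + 2)
  obtain ⟨B, hB⟩ : ∃ B : ℝ, B = K1 p * (d.m y * e (-l)) := ⟨_, rfl⟩
  have hB0 : 0 ≤ B := by rw [hB]; positivity
  obtain ⟨A, hA⟩ : ∃ A : ℤ → ℝ, A = fun l' => K2 p d.c0 * (d.m y * e (-l)) *
        ((d.D y l') ^ (p - 1) * d.dl y l') * (d.D y (l + 2)) ^ (-(p - 1)) := ⟨_, rfl⟩
  have hA0 : ∀ l', 0 ≤ A l' := by
    intro l'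
    rw [hA]
    have hdl := d.dl_nonneg y l'
    have h5 : (0 : ℝ) ≤ (d.D y (l + 2)) ^ (-(p - 1)) := Real.rpow_nonneg hD2 _
    have h6 : (0 : ℝ) ≤ (d.D y l') ^ (p - 1) := Real.rpow_nonneg (d.D_nonneg _ _) _
    simp only
    positivity
  have h1 : ∀ l' ∈ Finset.Icc lo hi, (if l + 2 ≤ l' then K2 p d.c0 * (d.m y * e (-l)) *
        ((d.D y l') ^ (p - 1) * d.dl y l') *
        (d.D y (l + 2)) ^ (-(p - 1)) else if l - 1 ≤ l' then K1 p * (d.m y * e (-l)) else 0) ≤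
      (if l + 2 ≤ l' then A l' else 0) + (if l - 1 ≤ l' ∧ l' ≤ l + 1 then B else 0) := by
    intro l' _
    have := hA0 l'
    split_ifs with c1 c2 c3 c4 c5
    · omega
    · rw [hA]; simp
    · rw [hB]; simp
    · omega
    · linarith
    · simp
  refine le_trans (Finset.sum_le_sum h1) ?_
  rw [Finset.sum_add_distrib, ← Finset.sum_filter, ← Finset.sum_filter]
  have h2 : ∑ l' ∈ (Finset.Icc lo hi).filter (fun l' => l + 2 ≤ l'), A l' ≤
      K2 p d.c0 * (4 + 4 * Cs p) * (d.m y * e (-l)) := by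
    calc ∑ l' ∈ (Finset.Icc lo hi).filter (fun l' => l + 2 ≤ l'), A l'
        ≤ ∑ l' ∈ Finset.Icc (l + 2) (max hi (l + 2)), A l' := by
          apply Finset.sum_le_sum_of_subset_of_nonneg
          · intro x hx
            rw [Finset.mem_filter, Finset.mem_Icc] at hx
            rw [Finset.mem_Icc]
            exact ⟨hx.2, le_trans hx.1.2 (le_max_left _ _)⟩
          · intro x _ _; exact hA0 x
      _ = K2 p d.c0 * (d.m y * e (-l)) * (d.D y (l + 2)) ^ (-(p - 1)) *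
            ∑ l' ∈ Finset.Icc (l + 2) (max hi (l + 2)), ((d.D y l') ^ (p - 1) * d.dl y l') := by
          rw [hA, Finset.mul_sum]
          apply Finset.sum_congr rfl
          intro x _
          ring
      _ ≤ K2 p d.c0 * (d.m y * e (-l)) * (d.D y (l + 2)) ^ (-(p - 1)) *
            ((4 + 4 * Cs p) * (d.D y (l + 2)) ^ (p - 1)) := by
          have h5 : (0 : ℝ) ≤ (d.D y (l + 2)) ^ (-(p - 1)) := Real.rpow_nonneg hD2 _
          apply mul_le_mul_of_nonneg_left _ (by positivity)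
          exact d.dl_sum (p - 1) hs y (l + 2) _ (le_max_right _ _)
      _ = K2 p d.c0 * (4 + 4 * Cs p) * (d.m y * e (-l)) *
            ((d.D y (l + 2)) ^ (-(p - 1)) * (d.D y (l + 2)) ^ (p - 1)) := by ring
      _ ≤ K2 p d.c0 * (4 + 4 * Cs p) * (d.m y * e (-l)) * 1 := by
          apply mul_le_mul_of_nonneg_left _ (by positivity)
          rcases hD2.eq_or_lt with h0 | h0
          · rw [← h0, Real.zero_rpow hs.ne', mul_zero]; norm_num
          · rw [← Real.rpow_add h0, neg_add_cancel, Real.rpow_zero]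
      _ = _ := by rw [mul_one]
  have h3 : ∑ l' ∈ (Finset.Icc lo hi).filter (fun l' => l - 1 ≤ l' ∧ l' ≤ l + 1), B ≤ 3 * B := by
    rw [Finset.sum_const, nsmul_eq_mul]
    apply mul_le_mul_of_nonneg_right _ hB0
    have h4 : ((Finset.Icc lo hi).filter (fun l' => l - 1 ≤ l' ∧ l' ≤ l + 1)).card ≤ 3 := by
      calc _ ≤ (Finset.Icc (l - 1) (l + 1)).card := by
            apply Finset.card_le_card
            intro x hx
            rw [Finset.mem_filter] at hx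
            rw [Finset.mem_Icc]; exact hx.2
        _ = 3 := by rw [Int.card_Icc]; omega
    exact_mod_cast h4
  have h4 : K3 p d.c0 * (d.m y * e (-l)) = K2 p d.c0 * (4 + 4 * Cs p) * (d.m y * e (-l)) + 3 * B := by
    rw [hB]; unfold K3; ring
  rw [h4]
  exact add_le_add h2 h3

lemma gsys_nonneg (d : Dat) (p : ℝ) (lo hi : ℤ) (i : ℕ) (k : ℤ) : 0 ≤ gsys d p lo hi i k := by
  unfold gsys
  apply mul_nonneg
  · apply mul_nonneg (Real.rpow_nonneg (e_pos _).le _)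
    positivity
  · apply Finset.sum_nonneg
    intro y _
    apply mul_nonneg (d.m0 y)
    apply Finset.sum_nonneg
    intro l' _
    exact mul_nonneg (d.dl_nonneg _ _) (Real.rpow_nonneg (e_pos _).le _)

open Classical in
lemma atl_eq (d : Dat) (p : ℝ) (lo hi l : ℤ) (i : ℕ) (k : ℤ) :
    atl d (gsys d p lo hi) l i k * 2 ^ i = ∑ y ∈ d.F, ∑ l' ∈ Finset.Icc lo hi,
      (if Adm d l i k y l' then (d.m y * (d.dl y l' * (e (l' + d.isc y l')) ^ (p - 1)) * (e (-l)) ^ p) *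
        ((2 : ℝ) ^ i) ^ (-(p - 1)) else 0) := by
  unfold atl
  split_ifs with hl
  · unfold gsys
    rw [Finset.sum_filter, Finset.mul_sum, Finset.sum_mul]
    apply Finset.sum_congr rfl
    intro y _
    split_ifs with hy
    · rw [Finset.sum_filter, Finset.mul_sum, Finset.mul_sum, Finset.sum_mul]
      apply Finset.sum_congr rfl
      intro l' _
      by_cases h2 : l' ≤ d.lev 0 y ∧ d.isc y l' ≤ i
      · rw [if_pos h2, if_pos ⟨hl, hy, h2.1, h2.2⟩, hl]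
        have h3 : ((2 : ℝ) ^ i) ^ (-(p - 1)) = ((2 : ℝ) ^ i) ^ (-p) * 2 ^ i := by
          have : -(p - 1) = -p + 1 := by ring
          rw [this, Real.rpow_add (by positivity), Real.rpow_one]
        rw [h3]; ring
      · rw [if_neg h2, if_neg (fun h => h2 ⟨h.h0, h.hi⟩)]; ring
    · rw [mul_zero, zero_mul]
      symm
      apply Finset.sum_eq_zero
      intro l' _
      rw [if_neg (fun h => hy h.hy)]
  · rw [zero_mul]
    symm
    apply Finset.sum_eq_zero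
    intro y _
    apply Finset.sum_eq_zero
    intro l' _
    rw [if_neg (fun h => hl h.hl)]

lemma adm_supp {d : Dat} {l : ℤ} {n i : ℕ} (hi : i ≤ n) {k0 k y l' : ℤ}
    (hk : k ∈ Finset.Ico (k0 * 2 ^ (n - i)) ((k0 + 1) * 2 ^ (n - i))) (h : Adm d l i k y l') :
    y ∈ Finset.Ico (k0 * 2 ^ n - 2 ^ (n + 2)) (k0 * 2 ^ n + 2 ^ (n + 2)) := by
  rw [Finset.mem_Ico] at hk ⊢
  have h1 := abs_le.1 h.hy
  have hp : (0 : ℤ) < 2 ^ i := by positivity
  have hle : (2 : ℤ) ^ i ≤ 2 ^ n := pow_le_pow_right₀ (by norm_num) hi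
  have e1 : (2 : ℤ) ^ (n - i) * 2 ^ i = 2 ^ n := by rw [← pow_add]; congr 1; omega
  have h2 := mul_le_mul_of_nonneg_right hk.1 hp.le
  have h3 := mul_le_mul_of_nonneg_right hk.2.le hp.le
  have e2 : k0 * 2 ^ (n - i) * 2 ^ i = k0 * 2 ^ n := by rw [mul_assoc, e1]
  have e3 : (k0 + 1) * 2 ^ (n - i) * 2 ^ i = k0 * 2 ^ n + 2 ^ n := by rw [mul_assoc, e1]; ring
  rw [e2] at h2
  rw [e3] at h3
  have e4 : (2 : ℤ) ^ (i + 1) = 2 * 2 ^ i := by ring
  have e5 : (2 : ℤ) ^ (n + 2) = 4 * 2 ^ n := by ring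
  rw [e4] at h1
  rw [e5]
  constructor <;> linarith

theorem G1 (d : Dat) (p : ℝ) (hp : 1 < p) (lo hi l : ℤ) (n : ℕ) (k0 : ℤ) :
    car (atl d (gsys d p lo hi) l) n k0 ≤
      K3 p d.c0 * (e (-l) * d.mI (k0 * 2 ^ n - 2 ^ (n + 2)) (k0 * 2 ^ n + 2 ^ (n + 2))) := by
  classical
  rw [car_eq]
  obtain ⟨T, hT⟩ : ∃ T : ℕ → ℤ → ℤ → ℤ → ℝ, T = fun i k y l' =>
    (if Adm d l i k y l' then (d.m y * (d.dl y l' * (e (l' + d.isc y l')) ^ (p - 1)) * (e (-l)) ^ p) *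
        ((2 : ℝ) ^ i) ^ (-(p - 1)) else 0) := ⟨_, rfl⟩
  have h1 : ∑ i ∈ Finset.range (n + 1), ∑ k ∈ Finset.Ico (k0 * 2 ^ (n - i)) ((k0 + 1) * 2 ^ (n - i)),
      atl d (gsys d p lo hi) l i k * 2 ^ i =
      ∑ y ∈ d.F, ∑ l' ∈ Finset.Icc lo hi, ∑ i ∈ Finset.range (n + 1),
        ∑ k ∈ Finset.Ico (k0 * 2 ^ (n - i)) ((k0 + 1) * 2 ^ (n - i)), T i k y l' := by
    have h2 : ∀ i k, atl d (gsys d p lo hi) l i k * 2 ^ i =
        ∑ y ∈ d.F, ∑ l' ∈ Finset.Icc lo hi, T i k y l' := by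
      intro i k
      rw [hT]; exact atl_eq d p lo hi l i k
    simp only [h2]
    have h3 : ∀ i ∈ Finset.range (n + 1), ∑ k ∈ Finset.Ico (k0 * 2 ^ (n - i)) ((k0 + 1) * 2 ^ (n - i)),
        ∑ y ∈ d.F, ∑ l' ∈ Finset.Icc lo hi, T i k y l' =
        ∑ y ∈ d.F, ∑ l' ∈ Finset.Icc lo hi,
          ∑ k ∈ Finset.Ico (k0 * 2 ^ (n - i)) ((k0 + 1) * 2 ^ (n - i)), T i k y l' := by
      intro i _
      rw [Finset.sum_comm]
      apply Finset.sum_congr rfl
      intro y _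
      rw [Finset.sum_comm]
    rw [Finset.sum_congr rfl h3, Finset.sum_comm]
    apply Finset.sum_congr rfl
    intro y _
    rw [Finset.sum_comm]
  rw [h1]
  have h4 : ∀ y ∈ d.F, ∑ l' ∈ Finset.Icc lo hi, ∑ i ∈ Finset.range (n + 1),
        ∑ k ∈ Finset.Ico (k0 * 2 ^ (n - i)) ((k0 + 1) * 2 ^ (n - i)), T i k y l' ≤
      (if y ∈ Finset.Ico (k0 * 2 ^ n - 2 ^ (n + 2)) (k0 * 2 ^ n + 2 ^ (n + 2)) then
        K3 p d.c0 * (d.m y * e (-l)) else 0) := by
    intro y _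
    split_ifs with hy
    · refine le_trans (Finset.sum_le_sum (fun l' _ => ?_)) (sum_l d p hp l y lo hi)
      rw [hT]
      exact per d p hp l n k0 y l'
    · apply le_of_eq
      apply Finset.sum_eq_zero
      intro l' _
      apply Finset.sum_eq_zero
      intro i hi'
      apply Finset.sum_eq_zero
      intro k hk
      rw [hT]
      simp only
      rw [if_neg]
      intro h
      exact hy (adm_supp (by rw [Finset.mem_range] at hi'; omega) hk h)
  refine le_trans (Finset.sum_le_sum h4) ?_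
  rw [← Finset.sum_filter, ← Finset.mul_sum]
  apply mul_le_mul_of_nonneg_left _ (K3_pos hp d.c0).le
  rw [← Finset.sum_mul, mul_comm]
  apply mul_le_mul_of_nonneg_left _ (e_pos _).le
  unfold Dat.mI
  apply Finset.sum_le_sum_of_subset_of_nonneg
  · intro v hv
    exact (Finset.mem_filter.1 hv).2
  · intro v _ _; exact d.m0 v

noncomputable def K4 (p : ℝ) (c0 : ℕ) : ℝ := K3 p c0 * (64 * e (c0 + 3))

lemma K4_pos {p : ℝ} (hp : 1 < p) (c0 : ℕ) : 0 < K4 p c0 := by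
  have := K3_pos hp c0
  have := e_pos (c0 + 3)
  unfold K4; positivity

theorem star (d : Dat) (p : ℝ) (hp : 1 < p) (lo hi : ℤ) (n : ℕ) (k0 : ℤ) :
    car (atl d (gsys d p lo hi) (d.lev n k0)) n k0 ≤ K4 p d.c0 * (1 / 2 : ℝ) ^ (d.jj n k0) * 2 ^ n := by
  refine le_trans (G1 d p hp lo hi (d.lev n k0) n k0) ?_
  have h1 := d.mI_le_om n k0 2
  have h2 := d.jj_spec n k0
  have hK := K3_pos hp d.c0
  have he := e_pos (-(d.lev n k0))
  have h3 : d.mI (k0 * 2 ^ n - 2 ^ (n + 2)) (k0 * 2 ^ n + 2 ^ (n + 2)) ≤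
      e (d.lev n k0 + d.c0 + 3 - d.jj n k0) * (2 ^ n * (2 ^ (2 + 1)) ^ 2) :=
    le_trans h1 (mul_le_mul_of_nonneg_right h2 (by positivity))
  have h4 : e (-(d.lev n k0)) * e (d.lev n k0 + d.c0 + 3 - d.jj n k0) = e (d.c0 + 3) * (1 / 2 : ℝ) ^ (d.jj n k0) := by
    rw [← e_add]
    have : -(d.lev n k0) + (d.lev n k0 + d.c0 + 3 - d.jj n k0) = (d.c0 + 3) - (d.jj n k0 : ℤ) := by ring
    rw [this, e_sub, e_nat, one_div, inv_pow]; rfl
  calc K3 p d.c0 * (e (-(d.lev n k0)) * d.mI (k0 * 2 ^ n - 2 ^ (n + 2)) (k0 * 2 ^ n + 2 ^ (n + 2)))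
      ≤ K3 p d.c0 * (e (-(d.lev n k0)) * (e (d.lev n k0 + d.c0 + 3 - d.jj n k0) * (2 ^ n * (2 ^ (2 + 1)) ^ 2))) := by
        apply mul_le_mul_of_nonneg_left _ hK.le
        exact mul_le_mul_of_nonneg_left h3 he.le
    _ = K3 p d.c0 * ((e (-(d.lev n k0)) * e (d.lev n k0 + d.c0 + 3 - d.jj n k0)) * (2 ^ n * 64)) := by ring
    _ = _ := by rw [h4]; unfold K4; ring

lemma le_car {a : ℕ → ℤ → ℝ} (h : ∀ i k, 0 ≤ a i k) : ∀ i k, a i k * 2 ^ i ≤ car a i k
  | 0, k => by simp [car]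
  | (i + 1), k => by
      have h1 := car_nonneg h i (2 * k)
      have h2 := car_nonneg h i (2 * k + 1)
      simp only [car]
      linarith

end G

theorem gsysWS : GsysWS := by
  intro p hp c0
  refine ⟨max 1 (G.K4 p c0), le_max_left _ _, ?_⟩
  rintro d rfl lo hi
  have hC : G.K4 p d.c0 ≤ max 1 (G.K4 p d.c0) := le_max_right _ _
  have hstar : ∀ (i : ℕ) (k : ℤ), car (atl d (gsys d p lo hi) (d.lev i k)) i k ≤
      max 1 (G.K4 p d.c0) * (1 / 2 : ℝ) ^ (d.jj i k) * 2 ^ i := by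
    intro i k
    refine le_trans (G.star d p hp lo hi i k) ?_
    apply mul_le_mul_of_nonneg_right _ (by positivity)
    exact mul_le_mul_of_nonneg_right hC (by positivity)
  have hnn : ∀ l i k, 0 ≤ atl d (gsys d p lo hi) l i k := by
    intro l i k
    unfold atl
    split_ifs
    · exact G.gsys_nonneg d p lo hi i k
    · exact le_rfl
  constructor
  · exact G.gsys_nonneg d p lo hi
  · intro i k
    have h1 := G.le_car (hnn (d.lev i k)) i k
    have h2 : atl d (gsys d p lo hi) (d.lev i k) i k = gsys d p lo hi i k := by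
      unfold atl; rw [if_pos rfl]
    rw [h2] at h1
    have h3 := le_trans h1 (hstar i k)
    exact le_of_mul_le_mul_right h3 (by positivity)
  · intro l j i
    have hcond : ∀ (i : ℕ) (k : ℤ), d.lev i k = l ∧ d.jj i k = j →
        car (fun i k => if d.lev i k = l ∧ d.jj i k = j then gsys d p lo hi i k else 0) i k ≤
          max 1 (G.K4 p d.c0) * (1 / 2 : ℝ) ^ j * 2 ^ i := by
      intro i k hk
      have h1 : car (fun i k => if d.lev i k = l ∧ d.jj i k = j then gsys d p lo hi i k else 0) i k ≤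
          car (atl d (gsys d p lo hi) l) i k := by
        apply car_mono
        intro i' k'
        unfold atl
        have := G.gsys_nonneg d p lo hi i' k'
        split_ifs with c1 c2 c3
        · exact le_rfl
        · exact absurd c1.1 c2
        · exact this
        · exact le_rfl
      have h2 := hstar i k
      rw [hk.1, hk.2] at h2
      exact le_trans h1 h2
    induction i with
    | zero =>
      intro k
      by_cases hk : d.lev 0 k = l ∧ d.jj 0 k = j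
      · exact hcond 0 k hk
      · simp only [car]
        rw [if_neg hk]
        positivity
    | succ i ih =>
      intro k
      by_cases hk : d.lev (i + 1) k = l ∧ d.jj (i + 1) k = j
      · exact hcond (i + 1) k hk
      · have h1 := ih (2 * k)
        have h2 := ih (2 * k + 1)
        simp only [car]
        rw [if_neg hk, zero_mul, zero_add]
        calc _ ≤ max 1 (G.K4 p d.c0) * (1 / 2 : ℝ) ^ j * 2 ^ i + max 1 (G.K4 p d.c0) * (1 / 2 : ℝ) ^ j * 2 ^ i :=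
              add_le_add h1 h2
          _ = _ := by ring

end Pool.Agent.Helper107.CP
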