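import Mathlib
import Pool.Agent.Helper107.CPg

set_option autoImplicit false

namespace Pool.Agent.Helper107.CP

open Finset

lemma sum_geo_le (q : ℝ) (hq : 0 < q) (hq1 : q < 1) (Λ : Finset ℤ) (K : ℤ) :
    ∑ l ∈ Λ, (if l ≤ K then q ^ (K - l).toNat else 0) ≤ (1 - q)⁻¹ := by
  classical
  rw [← Finset.sum_filter]
  have h1 : ∑ l ∈ Λ.filter (fun l => l ≤ K), q ^ (K - l).toNat =
      ∑ n ∈ (Λ.filter (fun l => l ≤ K)).image (fun l => (K - l).toNat), q ^ n := by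
    rw [Finset.sum_image]
    intro l hl l' hl' h
    rw [Finset.mem_coe, Finset.mem_filter] at hl hl'
    simp only at h
    omega
  rw [h1, ← tsum_geometric_of_lt_one hq.le hq1]
  exact (summable_geometric_of_lt_one hq.le hq1).sum_le_tsum _ (fun n _ => by positivity)

lemma e_toNat {l K : ℤ} (h : l ≤ K) : e l = e K * (1 / 2) ^ (K - l).toNat := by
  have h1 : l = K + -(((K - l).toNat : ℕ) : ℤ) := by
    rw [Int.toNat_of_nonneg (by omega)]; ring
  conv_lhs => rw [h1]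
  rw [e_add, e_neg, e_nat, one_div, inv_pow]

/-- the sum over levels is controlled by its excess parts -/
lemma level_ineq {p : ℝ} (hp : 1 < p) (lam0 r : ℕ) (hl0 : 1 ≤ lam0) (hr : 2 * p ≤ r) (Λ : Finset ℤ) (K : ℤ)
    (b : ℤ → ℝ) (hb : ∀ l, 0 ≤ b l) (hbK : ∀ l, K < l → b l = 0) :
    (∑ l ∈ Λ, e l * b l) ^ p ≤ 2 ^ p * ((2 * lam0 + 4) ^ p * (e K) ^ p + 3 ^ p * ∑ l ∈ Λ, (e l) ^ p * Phi lam0 r (b l)) := by
  classical
  have hK := e_pos K
  obtain ⟨P, hP⟩ : ∃ P, P = ∑ l ∈ Λ, (e l) ^ p * Phi lam0 r (b l) := ⟨_, rfl⟩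
  rw [← hP]
  have hPt : ∀ l, 0 ≤ (e l) ^ p * Phi lam0 r (b l) := fun l =>
    mul_nonneg (Real.rpow_nonneg (e_pos _).le _) (Phi_nonneg _ _)
  have hP0 : 0 ≤ P := by rw [hP]; exact Finset.sum_nonneg (fun l _ => hPt l)
  -- M
  obtain ⟨M, hM⟩ : ∃ M : ℝ, M = P ^ (1 / p) := ⟨_, rfl⟩
  have hM0 : 0 ≤ M := by rw [hM]; exact Real.rpow_nonneg hP0 _
  have hMp : M ^ p = P := by
    rw [hM, ← Real.rpow_mul hP0, one_div, inv_mul_cancel₀ (by linarith), Real.rpow_one]
  have hterm : ∀ l ∈ Λ, (lam0 : ℝ) < b l → e l * (b l) ^ 2 ≤ M := by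
    intro l hl hlt
    have hb1 : 1 ≤ b l := by
      have : (1 : ℝ) ≤ lam0 := by exact_mod_cast hl0
      linarith
    have h1 : (e l) ^ p * Phi lam0 r (b l) ≤ P := by
      rw [hP]; exact Finset.single_le_sum (f := fun l => (e l) ^ p * Phi lam0 r (b l)) (fun l _ => hPt l) hl
    have h2 : Phi lam0 r (b l) = (b l) ^ r := by unfold Phi; rw [if_pos hlt]
    rw [h2] at h1
    have h3 : ((b l) ^ 2) ^ p ≤ (b l) ^ r := by
      rw [← Real.rpow_natCast (b l) 2, ← Real.rpow_mul (by linarith), ← Real.rpow_natCast (b l) r]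
      apply Real.rpow_le_rpow_of_exponent_le hb1
      push_cast; linarith
    have h4 : (e l * (b l) ^ 2) ^ p ≤ P := by
      rw [Real.mul_rpow (e_pos _).le (by positivity)]
      exact le_trans (mul_le_mul_of_nonneg_left h3 (Real.rpow_nonneg (e_pos _).le _)) h1
    rw [← hMp] at h4
    exact (Real.rpow_le_rpow_iff (by have := e_pos l; positivity) hM0 (by linarith)).1 h4
  have hS : ∑ l ∈ Λ, e l * b l ≤ (2 * lam0 + 4) * e K + 3 * M := by
    have hpt : ∀ l ∈ Λ, e l * b l ≤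
        (e K * lam0) * (if l ≤ K then (1 / 2 : ℝ) ^ (K - l).toNat else 0) +
        e K * (if l ≤ K then (3 / 4 : ℝ) ^ (K - l).toNat else 0) +
        M * (if l ≤ K then (2 / 3 : ℝ) ^ (K - l).toNat else 0) := by
      intro l hl
      by_cases hlK : l ≤ K
      · rw [if_pos hlK, if_pos hlK, if_pos hlK]
        obtain ⟨n, hn⟩ : ∃ n, n = (K - l).toNat := ⟨_, rfl⟩
        have he := e_toNat hlK
        rw [← hn] at he ⊢
        by_cases hlt : (lam0 : ℝ) < b l
        · have h1 := hterm l hl hlt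
          have h2 : b l ≤ (3 / 2 : ℝ) ^ n + (b l) ^ 2 * (2 / 3 : ℝ) ^ n := by
            have h3 : (3 / 2 : ℝ) ^ n * (2 / 3 : ℝ) ^ n = 1 := by rw [← mul_pow]; norm_num
            have h4 : (0 : ℝ) < (3 / 2 : ℝ) ^ n := by positivity
            have h5 : (0 : ℝ) < (2 / 3 : ℝ) ^ n := by positivity
            by_cases hc : b l ≤ (3 / 2 : ℝ) ^ n
            · have := mul_nonneg (sq_nonneg (b l)) h5.le
              linarith
            · push Not at hc
              have h6 : 1 ≤ b l * (2 / 3 : ℝ) ^ n := by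
                rw [← h3]; exact mul_le_mul_of_nonneg_right hc.le h5.le
              have h7 : b l * 1 ≤ b l * (b l * (2 / 3 : ℝ) ^ n) := mul_le_mul_of_nonneg_left h6 (hb l)
              nlinarith
          have h8 : e l * b l ≤ e l * ((3 / 2 : ℝ) ^ n + (b l) ^ 2 * (2 / 3 : ℝ) ^ n) :=
            mul_le_mul_of_nonneg_left h2 (e_pos _).le
          have h9 : e l * (3 / 2 : ℝ) ^ n = e K * (3 / 4 : ℝ) ^ n := by
            rw [he, mul_assoc, ← mul_pow]; norm_num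
          have h10 : e l * ((b l) ^ 2 * (2 / 3 : ℝ) ^ n) ≤ M * (2 / 3 : ℝ) ^ n := by
            rw [← mul_assoc]; exact mul_le_mul_of_nonneg_right h1 (by positivity)
          have h11 : 0 ≤ (e K * lam0) * (1 / 2 : ℝ) ^ n := by positivity
          rw [mul_add] at h8
          linarith
        · have h1 : e l * b l ≤ e l * lam0 := mul_le_mul_of_nonneg_left (not_lt.1 hlt) (e_pos _).le
          have h2 : e l * lam0 = (e K * lam0) * (1 / 2 : ℝ) ^ n := by rw [he]; ring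
          have h3 : 0 ≤ e K * (3 / 4 : ℝ) ^ n := by positivity
          have h4 : 0 ≤ M * (2 / 3 : ℝ) ^ n := by positivity
          linarith
      · rw [if_neg hlK, if_neg hlK, if_neg hlK, hbK l (not_le.1 hlK)]; simp
    refine le_trans (Finset.sum_le_sum hpt) ?_
    rw [Finset.sum_add_distrib, Finset.sum_add_distrib, ← Finset.mul_sum, ← Finset.mul_sum, ← Finset.mul_sum]
    have h1 := sum_geo_le (1 / 2) (by norm_num) (by norm_num) Λ K
    have h2 := sum_geo_le (3 / 4) (by norm_num) (by norm_num) Λ K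
    have h3 := sum_geo_le (2 / 3) (by norm_num) (by norm_num) Λ K
    norm_num at h1 h2 h3
    have h4 : 0 ≤ e K * lam0 := by positivity
    have h5 := mul_le_mul_of_nonneg_left h1 h4
    have h6 := mul_le_mul_of_nonneg_left h2 hK.le
    have h7 := mul_le_mul_of_nonneg_left h3 hM0
    norm_num
    linarith
  have hS0 : 0 ≤ ∑ l ∈ Λ, e l * b l := Finset.sum_nonneg (fun l _ => mul_nonneg (e_pos _).le (hb l))
  have hA0 : 0 ≤ (2 * lam0 + 4) * e K := by positivity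
  have h1 : (∑ l ∈ Λ, e l * b l) ^ p ≤ ((2 * lam0 + 4) * e K + 3 * M) ^ p :=
    Real.rpow_le_rpow hS0 hS (by linarith)
  have h2 : ((2 * lam0 + 4) * e K + 3 * M) ^ p ≤ (2 * max ((2 * lam0 + 4) * e K) (3 * M)) ^ p := by
    apply Real.rpow_le_rpow (by positivity) _ (by linarith)
    have := le_max_left ((2 * lam0 + 4) * e K) (3 * M)
    have := le_max_right ((2 * lam0 + 4) * e K) (3 * M)
    linarith
  have h3 : (2 * max ((2 * lam0 + 4) * e K) (3 * M)) ^ p ≤ 2 ^ p * (((2 * lam0 + 4) * e K) ^ p + (3 * M) ^ p) := by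
    rw [Real.mul_rpow (by norm_num) (le_trans hA0 (le_max_left _ _))]
    apply mul_le_mul_of_nonneg_left _ (by positivity)
    have q1 : 0 ≤ ((2 * lam0 + 4) * e K) ^ p := Real.rpow_nonneg hA0 _
    have q2 : 0 ≤ (3 * M) ^ p := Real.rpow_nonneg (by positivity) _
    rcases le_total ((2 * lam0 + 4) * e K) (3 * M) with h | h
    · rw [max_eq_right h]; linarith
    · rw [max_eq_left h]; linarith
  refine le_trans h1 (le_trans h2 (le_trans h3 (le_of_eq ?_)))
  rw [Real.mul_rpow (by positivity) hK.le, Real.mul_rpow (by norm_num) hM0, hMp]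

/-- the statement transferred to the real line -/
def DiscreteMain : Prop :=
  ∀ p : ℝ, 1 < p → ∀ C ε : ℝ, 0 < C → 0 < ε → ∃ K : ℝ, 0 < K ∧
    ∀ U : ℤ → ℝ, (∀ n, 0 ≤ U n) →
      Summable (fun n : ℤ => U n * (1 / (1 + |(n : ℝ)|)) ^ p) →
      (∀ (i : ℕ) (k : ℤ) (E : Finset ℤ), E ⊆ Finset.Ico (k * 2 ^ i) ((k + 1) * 2 ^ i) →
        ∑ n ∈ E, U n ≤ C * ((E.card : ℝ) / 2 ^ i) ^ ε *
          ∑' n : ℤ, U n * ((2 : ℝ) ^ i / (2 ^ i + |(n : ℝ) - k * 2 ^ i|)) ^ p) →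
      ∀ (f : ℤ → ℝ) (F : Finset ℤ), (∀ n, n ∉ F → f n = 0) →
      ∀ G : ℤ → ℝ, (∀ (n u : ℤ) (t : ℕ), u ≤ n → n < u + 2 ^ t →
          ∑ v ∈ Finset.Ico u (u + 2 ^ t), |f v| ≤ 2 ^ t * G n) →
        ∑' n : ℤ, ENNReal.ofReal (|∑ m ∈ F.erase n, f m / ((n : ℝ) - (m : ℝ))| ^ p * U n) ≤
          ENNReal.ofReal K * ∑' n : ℤ, ENNReal.ofReal (G n ^ p * U n)

/-- the weight system coming from the singular integral -/
lemma ws_of_sparse (d : Dat) (s : ℕ → ℤ → ℝ) (hs : ∀ i k, s i k = 0 ∨ s i k = 1)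
    (hcar : ∀ i k, car s i k ≤ 3 * 2 ^ i) :
    WS d (3 * 2 ^ (d.c0 + 3)) (fun i k => s i k * d.om i k * e (-(d.lev i k))) := by
  have hb : ∀ i k, d.om i k * e (-(d.lev i k)) ≤ 2 ^ (d.c0 + 3) * (1 / 2 : ℝ) ^ (d.jj i k) := by
    intro i k
    have h1 := d.jj_spec i k
    have h2 : e (d.lev i k + d.c0 + 3 - d.jj i k) * e (-(d.lev i k)) = 2 ^ (d.c0 + 3) * (1 / 2 : ℝ) ^ (d.jj i k) := by
      rw [← e_add]
      have e1 : d.lev i k + d.c0 + 3 - d.jj i k + -(d.lev i k) = ((d.c0 + 3 : ℕ) : ℤ) - (d.jj i k : ℤ) := by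
        push_cast; ring
      rw [e1, e_sub, e_nat, e_nat, one_div, inv_pow, div_eq_mul_inv]
    rw [← h2]
    exact mul_le_mul_of_nonneg_right h1 (e_pos _).le
  have hs0 : ∀ i k, 0 ≤ s i k := by
    intro i k; rcases hs i k with h | h <;> rw [h] <;> norm_num
  have hs1 : ∀ i k, s i k ≤ 1 := by
    intro i k; rcases hs i k with h | h <;> rw [h] <;> norm_num
  have hB : ∀ i k, 0 ≤ d.om i k * e (-(d.lev i k)) := fun i k => mul_nonneg (d.om_nonneg i k) (e_pos _).le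
  constructor
  · intro i k
    rw [mul_assoc]; exact mul_nonneg (hs0 i k) (hB i k)
  · intro i k
    have h1 := hb i k
    have h2 := hB i k
    have h3 : (0 : ℝ) ≤ 2 ^ (d.c0 + 3) * (1 / 2 : ℝ) ^ (d.jj i k) := by positivity
    calc s i k * d.om i k * e (-(d.lev i k)) = s i k * (d.om i k * e (-(d.lev i k))) := by ring
      _ ≤ 1 * (2 ^ (d.c0 + 3) * (1 / 2 : ℝ) ^ (d.jj i k)) := mul_le_mul (hs1 i k) h1 h2 (by norm_num)
      _ ≤ _ := by linarith
  · intro l j i k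
    have h1 : car (fun i k => if d.lev i k = l ∧ d.jj i k = j then s i k * d.om i k * e (-(d.lev i k)) else 0) i k ≤
        car (fun i k => (2 ^ (d.c0 + 3) * (1 / 2 : ℝ) ^ j) * s i k) i k := by
      apply car_mono
      intro i k
      split_ifs with h
      · have h2 := hb i k
        rw [h.2] at h2
        calc s i k * d.om i k * e (-(d.lev i k)) = s i k * (d.om i k * e (-(d.lev i k))) := by ring
          _ ≤ s i k * (2 ^ (d.c0 + 3) * (1 / 2 : ℝ) ^ j) := mul_le_mul_of_nonneg_left h2 (hs0 i k)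
          _ = _ := by ring
      · have := hs0 i k
        positivity
    rw [car_smul] at h1
    have h2 : (2 ^ (d.c0 + 3) * (1 / 2 : ℝ) ^ j) * car s i k ≤ (2 ^ (d.c0 + 3) * (1 / 2 : ℝ) ^ j) * (3 * 2 ^ i) :=
      mul_le_mul_of_nonneg_left (hcar i k) (by positivity)
    calc _ ≤ _ := h1
      _ ≤ _ := h2
      _ = _ := by ring

theorem discreteMain (hLD : LocalD) (hGs : GsysWS) (hMW : MainW) (hH : HPart) : DiscreteMain := by
  intro p hp C ε hC hε
  obtain ⟨c0, C', ε', hc0, hC', hε', hloc⟩ := hLD p hp C ε hC hε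
  obtain ⟨Cg, hCg, hg⟩ := hGs p hp c0
  obtain ⟨KH, hKH, hHp⟩ := hH c0
  obtain ⟨n0, ρ, K, hρ, hρ1, hK, hM⟩ := hMW p hp c0 C' ε' hc0 hC' hε' Cg 1 hCg le_rfl
  obtain ⟨K2, hK2, hpot⟩ := potential hp c0 Cg hg n0 ρ K C' ε' hρ hρ1 hK hM
  obtain ⟨r, hr⟩ := exists_nat_ge (2 * p)
  have hr1 : 1 ≤ r := by
    have : (1 : ℝ) ≤ r := by linarith
    exact_mod_cast this
  have hCa : (1 : ℝ) ≤ 3 * 2 ^ (c0 + 3) := by
    have : (1 : ℝ) ≤ 2 ^ (c0 + 3) := one_le_pow₀ (by norm_num)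
    linarith
  obtain ⟨n1, ρ1, K1, hρ1', hρ11, hK1, hM1⟩ := hMW p hp c0 C' ε' hc0 hC' hε' (3 * 2 ^ (c0 + 3)) r hCa hr1
  obtain ⟨lam0, hlam0⟩ : ∃ lam0 : ℕ, lam0 = max n1 1 := ⟨_, rfl⟩
  have hl1 : 1 ≤ lam0 := by rw [hlam0]; exact le_max_right _ _
  have hl2 : n1 ≤ lam0 := by rw [hlam0]; exact le_max_left _ _
  -- constants
  obtain ⟨A1, hA1⟩ : ∃ A1 : ℝ, A1 = (2 * KH) ^ p * (1 + 2 ^ p * (2 * lam0 + 4) ^ p) := ⟨_, rfl⟩
  obtain ⟨A2, hA2⟩ : ∃ A2 : ℝ, A2 = (2 * KH) ^ p * (2 ^ p * 3 ^ p) := ⟨_, rfl⟩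
  have hA1p : 0 < A1 := by rw [hA1]; positivity
  have hA2p : 0 < A2 := by rw [hA2]; positivity
  refine ⟨A1 + A2 * (2 * K1) + A2 * (K1 * ρ1 ^ lam0) * K2, by positivity, ?_⟩
  intro U hU hsum hcp f F hF G hG
  have hG0 : ∀ n, 0 ≤ G n := by
    intro n
    have := hG n n 0 le_rfl (by simp)
    have h2 : 0 ≤ ∑ v ∈ Finset.Ico n (n + 2 ^ 0), |f v| := Finset.sum_nonneg (fun v _ => abs_nonneg _)
    simp only [pow_zero, one_mul] at this h2
    linarith
  by_cases hpos : 0 < ∑ n ∈ F, |f n|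
  swap
  · -- trivial case
    have hf0 : ∀ n, f n = 0 := by
      intro n
      by_cases hn : n ∈ F
      · have h1 : ∑ n ∈ F, |f n| = 0 := le_antisymm (not_lt.1 hpos) (Finset.sum_nonneg (fun v _ => abs_nonneg _))
        have h2 := (Finset.sum_eq_zero_iff_of_nonneg (fun v _ => abs_nonneg _)).1 h1 n hn
        exact abs_eq_zero.1 h2
      · exact hF n hn
    have h0 : ∀ n : ℤ, ENNReal.ofReal (|∑ m ∈ F.erase n, f m / ((n : ℝ) - (m : ℝ))| ^ p * U n) = 0 := by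
      intro n
      have : ∑ m ∈ F.erase n, f m / ((n : ℝ) - (m : ℝ)) = 0 := Finset.sum_eq_zero (fun m _ => by rw [hf0 m, zero_div])
      rw [this, abs_zero, Real.zero_rpow (by linarith), zero_mul, ENNReal.ofReal_zero]
    simp only [h0, tsum_zero]
    exact zero_le
  let d : Dat := ⟨fun n => |f n|, F, fun n => abs_nonneg _, fun n hn => by rw [hF n hn, abs_zero], hpos, c0, hc0⟩
  have hd : d.c0 = c0 := rfl
  have hdm : ∀ n, |f n| = d.m n := fun n => rfl
  have hGe : ∀ x, e (d.lev 0 x) ≤ G x := by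
    intro x
    obtain ⟨u, t, h1, h2, h3⟩ := d.L_lev 0 x
    have hp0 : (0 : ℤ) < 2 ^ (0 + d.c0) := by positivity
    have h4 := hG x u t (by rw [pow_zero, mul_one] at h1; omega) (by rw [pow_zero, mul_one] at h2; omega)
    have h5 : e (d.lev 0 x + t) ≤ 2 ^ t * G x := le_trans h3 h4
    rw [e_add, e_nat] at h5
    have h6 : (0 : ℝ) < 2 ^ t := by positivity
    nlinarith
  obtain ⟨lo', hlo'⟩ := d.exists_no_drop
  obtain ⟨lo, hlo0⟩ : ∃ lo, lo = lo' + 1 := ⟨_, rfl⟩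
  have hlo : ∀ y ∈ d.F, ∀ l < lo, d.dl y l = 0 := fun y hy l hl => hlo' y hy l (by omega)
  obtain ⟨hi, hhi⟩ : ∃ hi : ℤ, ∀ y ∈ d.F, d.lev 0 y ≤ hi := by
    refine ⟨∑ y ∈ d.F, |d.lev 0 y|, fun y hy => ?_⟩
    exact le_trans (le_abs_self _) (Finset.single_le_sum (f := fun y => |d.lev 0 y|) (fun y _ => abs_nonneg _) hy)
  have hcpw : CpW p C ε U := ⟨hU, hsum, hcp⟩
  have hlocU := hloc U hcpw
  have hXi := hpot d hd U hU hsum hlocU G hGe lo hi hlo hhi
  -- partial sums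
  have hpart : ∀ X : Finset ℤ, ∑ n ∈ X, ENNReal.ofReal (|∑ m ∈ F.erase n, f m / ((n : ℝ) - (m : ℝ))| ^ p * U n) ≤
      ENNReal.ofReal (A1 + A2 * (2 * K1) + A2 * (K1 * ρ1 ^ lam0) * K2) * UU U (fun x => (G x) ^ p) := by
    intro X
    obtain ⟨T, hT⟩ := hHp d hd f hdm G hG X
    obtain ⟨s, hs, hcar, hsp⟩ := hT T le_rfl
    have hws := ws_of_sparse d s hs hcar
    rw [hd] at hws
    obtain ⟨N, hN⟩ : ∃ N : ℕ → ℤ → ℝ, N = fun i k => s i k * d.om i k * e (-(d.lev i k)) := ⟨_, rfl⟩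
    rw [← hN] at hws
    have hlev := sum_levels hp d U hU G hGe lo hi hlo hhi
      (fun l x => Phi lam0 r (pt (atl d N l) T x)) (fun l x => Phi_nonneg _ _) X K1 (K1 * ρ1 ^ lam0)
      hK1.le (by positivity) (fun l => hM1 d hd U hU hsum hlocU N hws lam0 hl2 l X T) (levs d X T)
    have hpt : ∀ x ∈ X, ENNReal.ofReal (|∑ m ∈ F.erase x, f m / ((x : ℝ) - (m : ℝ))| ^ p * U x) ≤
        ENNReal.ofReal A1 * ENNReal.ofReal (U x * (G x) ^ p) +
        ENNReal.ofReal A2 * ENNReal.ofReal (U x * ∑ l ∈ levs d X T, (e l) ^ p *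
          Phi lam0 r (pt (atl d N l) T x)) := by
      intro x hx
      have hGp : 0 ≤ (G x) ^ p := Real.rpow_nonneg (hG0 x) p
      have hPsum : 0 ≤ ∑ l ∈ levs d X T, (e l) ^ p * Phi lam0 r (pt (atl d N l) T x) :=
        Finset.sum_nonneg (fun l _ => mul_nonneg (Real.rpow_nonneg (e_pos _).le _) (Phi_nonneg _ _))
      rw [← ENNReal.ofReal_mul hA1p.le, ← ENNReal.ofReal_mul hA2p.le,
        ← ENNReal.ofReal_add (mul_nonneg hA1p.le (mul_nonneg (hU x) hGp)) (mul_nonneg hA2p.le (mul_nonneg (hU x) hPsum))]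
      apply ENNReal.ofReal_le_ofReal
      have h1 := hsp x hx
      have h2 : ∑ i ∈ Finset.range (T + 1), s i (x / 2 ^ i) * d.om i (x / 2 ^ i) =
          ∑ l ∈ levs d X T, e l * pt (atl d N l) T x := by
        rw [← sum_by_level d N e T (levs d X T) x (mem_levs d hx)]
        apply Finset.sum_congr rfl
        intro i _
        rw [hN]
        simp only
        have : e (d.lev i (x / 2 ^ i)) * e (-(d.lev i (x / 2 ^ i))) = 1 := by
          rw [← e_add, add_neg_cancel, e_zero]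
        calc s i (x / 2 ^ i) * d.om i (x / 2 ^ i) = s i (x / 2 ^ i) * d.om i (x / 2 ^ i) * 1 := by ring
          _ = _ := by rw [← this]; ring
      rw [h2] at h1
      have h3 := level_ineq hp lam0 r hl1 hr (levs d X T) (d.lev 0 x) (fun l => pt (atl d N l) T x)
        (fun l => pt_atl_nonneg d hws.nn T x l) (fun l hl => pt_atl_zero d N T x l hl)
      obtain ⟨S, hS⟩ : ∃ S, S = ∑ l ∈ levs d X T, e l * pt (atl d N l) T x := ⟨_, rfl⟩
      obtain ⟨P, hP⟩ : ∃ P, P = ∑ l ∈ levs d X T, (e l) ^ p * Phi lam0 r (pt (atl d N l) T x) := ⟨_, rfl⟩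
      have hS0 : 0 ≤ S := by
        rw [hS]; exact Finset.sum_nonneg (fun l _ => mul_nonneg (e_pos _).le (pt_atl_nonneg d hws.nn T x l))
      rw [← hS] at h1 h3
      rw [← hP] at h3 hPsum ⊢
      have h4 : (e (d.lev 0 x)) ^ p ≤ (G x) ^ p := Real.rpow_le_rpow (e_pos _).le (hGe x) (by linarith)
      have h5 : S ^ p ≤ 2 ^ p * ((2 * lam0 + 4) ^ p * (G x) ^ p + 3 ^ p * P) := by
        refine le_trans h3 ?_
        gcongr
      have h6 : |∑ v ∈ F.erase x, f v / ((x : ℝ) - (v : ℝ))| ^ p ≤ (2 * KH) ^ p * ((G x) ^ p + S ^ p) := by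
        have h7 : |∑ v ∈ F.erase x, f v / ((x : ℝ) - (v : ℝ))| ≤ (2 * KH) * max (G x) S := by
          refine le_trans h1 ?_
          have := le_max_left (G x) S
          have := le_max_right (G x) S
          nlinarith
        refine le_trans (Real.rpow_le_rpow (abs_nonneg _) h7 (by linarith)) ?_
        rw [Real.mul_rpow (by positivity) (le_trans hS0 (le_max_right _ _))]
        apply mul_le_mul_of_nonneg_left _ (by positivity)
        have q2 : 0 ≤ S ^ p := Real.rpow_nonneg hS0 _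
        rcases le_total (G x) S with h | h
        · rw [max_eq_right h]; linarith
        · rw [max_eq_left h]; linarith
      have h8 : |∑ v ∈ F.erase x, f v / ((x : ℝ) - (v : ℝ))| ^ p ≤ A1 * (G x) ^ p + A2 * P := by
        have h9 : (0 : ℝ) ≤ (2 * KH) ^ p := by positivity
        have h10 := mul_le_mul_of_nonneg_left (add_le_add_right h5 ((G x) ^ p)) h9
        refine le_trans h6 (le_trans h10 (le_of_eq ?_))
        rw [hA1, hA2]; ring
      calc |∑ v ∈ F.erase x, f v / ((x : ℝ) - (v : ℝ))| ^ p * U x ≤ (A1 * (G x) ^ p + A2 * P) * U x :=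
            mul_le_mul_of_nonneg_right h8 (hU x)
        _ = _ := by ring
    refine le_trans (Finset.sum_le_sum hpt) ?_
    rw [Finset.sum_add_distrib, ← Finset.mul_sum, ← Finset.mul_sum]
    have hA : ∑ x ∈ X, ENNReal.ofReal (U x * (G x) ^ p) ≤ UU U (fun x => (G x) ^ p) :=
      ENNReal.sum_le_tsum X
    have hlev' : ∑ x ∈ X, ENNReal.ofReal (U x * ∑ l ∈ levs d X T, (e l) ^ p *
          Phi lam0 r (pt (atl d N l) T x)) ≤ (ENNReal.ofReal (2 * K1) * UU U (fun x => (G x) ^ p) +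
            ENNReal.ofReal (K1 * ρ1 ^ lam0) * (ENNReal.ofReal K2 * UU U (fun x => (G x) ^ p))) := by
      refine le_trans hlev ?_
      gcongr
    calc ENNReal.ofReal A1 * ∑ x ∈ X, ENNReal.ofReal (U x * (G x) ^ p) +
          ENNReal.ofReal A2 * ∑ x ∈ X, ENNReal.ofReal (U x * ∑ l ∈ levs d X T, (e l) ^ p *
          Phi lam0 r (pt (atl d N l) T x))
        ≤ ENNReal.ofReal A1 * UU U (fun x => (G x) ^ p) +
          ENNReal.ofReal A2 * (ENNReal.ofReal (2 * K1) * UU U (fun x => (G x) ^ p) +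
            ENNReal.ofReal (K1 * ρ1 ^ lam0) * (ENNReal.ofReal K2 * UU U (fun x => (G x) ^ p))) := by gcongr
      _ = (ENNReal.ofReal A1 + ENNReal.ofReal A2 * ENNReal.ofReal (2 * K1) +
            ENNReal.ofReal A2 * ENNReal.ofReal (K1 * ρ1 ^ lam0) * ENNReal.ofReal K2) *
            UU U (fun x => (G x) ^ p) := by ring
      _ = _ := by
          rw [← ENNReal.ofReal_mul hA2p.le, ← ENNReal.ofReal_mul hA2p.le, ← ENNReal.ofReal_mul (by positivity),
            ← ENNReal.ofReal_add hA1p.le (by positivity), ← ENNReal.ofReal_add (by positivity) (by positivity)]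
  have e1 : UU U (fun x => (G x) ^ p) = ∑' n : ℤ, ENNReal.ofReal (G n ^ p * U n) := by
    unfold UU
    apply tsum_congr
    intro n; rw [mul_comm]
  rw [← e1]
  rw [ENNReal.tsum_eq_iSup_sum]
  exact iSup_le hpart

end Pool.Agent.Helper107.CP
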