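import Mathlib
import Pool.Agent.Helper107.CPd

set_option autoImplicit false

namespace Pool.Agent.Helper107.CP

open Finset

/-- (given; proved elsewhere) -/
def Weak11 : Prop := ∃ C : ℝ, 0 < C ∧ ∀ (g : ℤ → ℝ) (F : Finset ℤ) (lam : ℝ), 0 < lam →
    ∀ A : Finset ℤ, (∀ n ∈ A, lam < |∑ m ∈ F.erase n, g m / ((n : ℝ) - (m : ℝ))|) →
      (A.card : ℝ) ≤ C * (∑ m ∈ F, |g m|) / lam

/-- (given; proved elsewhere) -/
def Sparse : Prop := ∀ (K1 : ℝ) (_ : 1 ≤ K1), ∃ K : ℝ, 0 < K ∧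
    ∀ (T : ℕ) (F : ℤ → ℝ) (c ω : ℕ → ℤ → ℝ), (∀ i k, 0 ≤ ω i k) →
      (∀ i ≤ T, ∀ k : ℤ, 4 * (((Finset.Ico (k * 2 ^ i) ((k + 1) * 2 ^ i)).filter
          (fun x => K1 * ω i k < |F x - c i k|)).card : ℝ) ≤ 2 ^ i) →
      (∀ i < T, ∀ k : ℤ, |c i k - c (i + 1) (k / 2)| ≤ K1 * ω (i + 1) (k / 2)) →
      (∀ i < T, ∀ k : ℤ, ω (i + 1) (k / 2) ≤ K1 * ω i k) →
      ∃ s : ℕ → ℤ → ℝ, (∀ i k, s i k = 0 ∨ s i k = 1) ∧
        (∀ i k, car s i k ≤ 3 * 2 ^ i) ∧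
        ∀ x : ℤ, |F x - c T (x / 2 ^ T)| ≤
          K * (ω 0 x + ∑ i ∈ Finset.range (T + 1), s i (x / 2 ^ i) * ω i (x / 2 ^ i))

/-- pointwise kernel comparison, far from the interval -/
lemma far_pt {P c v x : ℝ} (hP : 0 < P) (hx : |x - c| ≤ P) (hv : 3 * P ≤ |v - c|) :
    |1 / (x - v) - 1 / (c - v)| ≤ 3 * (P / (P + |v - c|) ^ 2) := by
  obtain ⟨r, hr⟩ : ∃ r, r = |v - c| := ⟨_, rfl⟩
  rw [← hr] at hv ⊢
  have hr0 : 0 < r := by linarith
  have h1 : |c - v| = r := by rw [hr, abs_sub_comm]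
  have h2 : r - P ≤ |x - v| := by
    have := abs_sub_abs_le_abs_sub (c - v) (c - x)
    have e1 : c - v - (c - x) = x - v := by ring
    rw [e1, h1, abs_sub_comm c x] at this
    linarith
  have hcv : c - v ≠ 0 := by
    intro h; rw [h, abs_zero] at h1; linarith
  have hxv : x - v ≠ 0 := by
    intro h; rw [h, abs_zero] at h2; linarith
  have e1 : 1 / (x - v) - 1 / (c - v) = (c - x) / ((x - v) * (c - v)) := by
    field_simp; ring
  rw [e1, abs_div, abs_mul, h1, abs_sub_comm c x]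
  have h3 : 2 / 3 * r ≤ |x - v| := by linarith
  have h4 : 0 < |x - v| := by linarith
  rw [← mul_div_assoc, div_le_div_iff₀ (by positivity) (by positivity)]
  have h5 : (P + r) ^ 2 ≤ (4 / 3 * r) ^ 2 := pow_le_pow_left₀ (by positivity) (by linarith) 2
  have h6 : |x - c| * (P + r) ^ 2 ≤ P * (4 / 3 * r) ^ 2 :=
    mul_le_mul hx h5 (by positivity) hP.le
  have h7 : 3 * P * (2 / 3 * r * r) ≤ 3 * P * (|x - v| * r) := by
    apply mul_le_mul_of_nonneg_left _ (by positivity)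
    exact mul_le_mul_of_nonneg_right h3 hr0.le
  have h8 : P * (4 / 3 * r) ^ 2 ≤ 3 * P * (2 / 3 * r * r) := by
    nlinarith [mul_pos hP (mul_pos hr0 hr0)]
  linarith

/-- pointwise comparison of the truncated kernels at consecutive scales -/
lemma step_pt {P c c' v : ℝ} (hP : 0 < P) (hc : |c - c'| ≤ P) :
    |(if 3 * P ≤ |v - c| then 1 / (c - v) else 0) - (if 3 * (2 * P) ≤ |v - c'| then 1 / (c' - v) else 0)|
      ≤ 11 * ((2 * P) / (2 * P + |v - c'|) ^ 2) := by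
  have hP2 : 0 < 2 * P := by linarith
  have hRHS : 0 ≤ 11 * ((2 * P) / (2 * P + |v - c'|) ^ 2) := by positivity
  have htri : |v - c'| ≤ |v - c| + |c - c'| := by
    have := abs_add_le (v - c) (c - c')
    rwa [show v - c + (c - c') = v - c' by ring] at this
  by_cases h2 : 3 * (2 * P) ≤ |v - c'|
  · have h1 : 3 * P ≤ |v - c| := by linarith
    rw [if_pos h1, if_pos h2]
    have h3 := far_pt hP2 (le_trans hc (by linarith : P ≤ 2 * P)) h2
    refine le_trans h3 ?_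
    have : 0 ≤ (2 * P) / (2 * P + |v - c'|) ^ 2 := by positivity
    linarith
  · rw [if_neg h2, sub_zero]
    split_ifs with h1
    · rw [abs_div, abs_one, abs_sub_comm c v]
      have h3 : |v - c'| < 3 * (2 * P) := not_le.1 h2
      have h4 : (2 * P + |v - c'|) ^ 2 ≤ (8 * P) ^ 2 :=
        pow_le_pow_left₀ (by positivity) (by linarith) 2
      have h5 : 0 < |v - c| := by linarith
      have h6 : 0 < 2 * P + |v - c'| := by positivity
      rw [← mul_div_assoc, div_le_div_iff₀ h5 (by positivity)]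
      nlinarith [mul_le_mul_of_nonneg_left h1 hP.le]
    · rw [abs_zero]; exact hRHS

/-- the centre values -/
noncomputable def cc (d : Dat) (f : ℤ → ℝ) (i : ℕ) (k : ℤ) : ℝ :=
  ∑ v ∈ d.F, f v * (if 3 * (2 : ℝ) ^ i ≤ |(v : ℝ) - k * 2 ^ i| then 1 / ((k : ℝ) * 2 ^ i - v) else 0)

/-- the discrete Hilbert transform -/
noncomputable def HH (d : Dat) (f : ℤ → ℝ) (x : ℤ) : ℝ := ∑ v ∈ d.F.erase x, f v / ((x : ℝ) - (v : ℝ))

lemma cc_step (d : Dat) (f : ℤ → ℝ) (hf : ∀ n, |f n| = d.m n) (i : ℕ) (k : ℤ) :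
    |cc d f i k - cc d f (i + 1) (k / 2)| ≤ 11 * d.om (i + 1) (k / 2) := by
  unfold cc Dat.om
  rw [← Finset.sum_sub_distrib, Finset.mul_sum]
  refine le_trans (Finset.abs_sum_le_sum_abs _ _) ?_
  apply Finset.sum_le_sum
  intro v _
  have hp : (0 : ℝ) < 2 ^ i := by positivity
  have hc : |(k : ℝ) * 2 ^ i - ((k / 2 : ℤ) : ℝ) * 2 ^ (i + 1)| ≤ 2 ^ i := by
    have h2 : (k / 2) * 2 ≤ k := by omega
    have h3 : k ≤ (k / 2) * 2 + 1 := by omega
    have h2' : ((k / 2 : ℤ) : ℝ) * 2 ≤ k := by exact_mod_cast h2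
    have h3' : (k : ℝ) ≤ ((k / 2 : ℤ) : ℝ) * 2 + 1 := by exact_mod_cast h3
    rw [abs_le, pow_succ]
    constructor <;> nlinarith
  have h := step_pt (v := (v : ℝ)) hp hc
  have e1 : (2 : ℝ) ^ (i + 1) = 2 * 2 ^ i := by ring
  rw [← mul_sub, abs_mul, hf]
  rw [e1] at h ⊢
  calc _ ≤ d.m v * (11 * (2 * 2 ^ i / (2 * 2 ^ i + |(v : ℝ) - ((k / 2 : ℤ) : ℝ) * (2 * 2 ^ i)|) ^ 2)) :=
        mul_le_mul_of_nonneg_left h (d.m0 v)
    _ = _ := by ring

/-- splitting of the Hilbert transform -/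
lemma HH_split (d : Dat) (f : ℤ → ℝ) (hf : ∀ n, |f n| = d.m n) (i : ℕ) (k x : ℤ)
    (hx : x ∈ Finset.Ico (k * 2 ^ i) ((k + 1) * 2 ^ i)) :
    |HH d f x - cc d f i k| ≤ |∑ v ∈ (d.F.filter (fun v : ℤ => ¬ (3 * (2 : ℝ) ^ i ≤ |(v : ℝ) - k * 2 ^ i|))).erase x,
      f v / ((x : ℝ) - (v : ℝ))| + 3 * d.om i k := by
  classical
  have hp : (0 : ℝ) < 2 ^ i := by positivity
  rw [Finset.mem_Ico] at hx
  have hx1 : (k : ℝ) * 2 ^ i ≤ x := by
    have := hx.1
    have h2 : ((k * 2 ^ i : ℤ) : ℝ) ≤ x := by exact_mod_cast this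
    push_cast at h2; exact h2
  have hx2 : (x : ℝ) < (k + 1) * 2 ^ i := by
    have := hx.2
    have h2 : (x : ℝ) < (((k + 1) * 2 ^ i : ℤ) : ℝ) := by exact_mod_cast this
    push_cast at h2; exact h2
  have hxc : |(x : ℝ) - k * 2 ^ i| ≤ 2 ^ i := by
    rw [abs_le]; constructor <;> linarith
  have hfar : ∀ v : ℤ, 3 * (2 : ℝ) ^ i ≤ |(v : ℝ) - k * 2 ^ i| → v ≠ x := by
    rintro v hv rfl
    linarith
  have e1 : HH d f x = ∑ v ∈ (d.F.filter (fun v : ℤ => ¬ (3 * (2 : ℝ) ^ i ≤ |(v : ℝ) - k * 2 ^ i|))).erase x,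
      f v / ((x : ℝ) - (v : ℝ)) + ∑ v ∈ d.F.filter (fun v : ℤ => 3 * (2 : ℝ) ^ i ≤ |(v : ℝ) - k * 2 ^ i|),
      f v / ((x : ℝ) - (v : ℝ)) := by
    unfold HH
    rw [← Finset.sum_filter_not_add_sum_filter (d.F.erase x) (fun v : ℤ => 3 * (2 : ℝ) ^ i ≤ |(v : ℝ) - k * 2 ^ i|)]
    congr 1
    · apply Finset.sum_congr _ (fun _ _ => rfl)
      ext v; simp only [Finset.mem_filter, Finset.mem_erase]; tauto
    · apply Finset.sum_congr _ (fun _ _ => rfl)
      ext v; simp only [Finset.mem_filter, Finset.mem_erase]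
      constructor
      · rintro ⟨⟨_, h2⟩, h3⟩; exact ⟨h2, h3⟩
      · rintro ⟨h2, h3⟩; exact ⟨⟨hfar v h3, h2⟩, h3⟩
  have e2 : cc d f i k = ∑ v ∈ d.F.filter (fun v : ℤ => 3 * (2 : ℝ) ^ i ≤ |(v : ℝ) - k * 2 ^ i|),
      f v * (1 / ((k : ℝ) * 2 ^ i - v)) := by
    unfold cc
    rw [Finset.sum_filter]
    apply Finset.sum_congr rfl
    intro v _
    split_ifs <;> simp
  rw [e1, e2, add_sub_assoc]
  refine le_trans (abs_add_le _ _) ?_
  apply add_le_add le_rfl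
  rw [← Finset.sum_sub_distrib]
  refine le_trans (Finset.abs_sum_le_sum_abs _ _) ?_
  unfold Dat.om
  rw [Finset.mul_sum]
  refine le_trans (Finset.sum_le_sum (g := fun v : ℤ => 3 * (d.m v * (2 ^ i / (2 ^ i + |(v : ℝ) - k * 2 ^ i|) ^ 2))) ?_) ?_
  · intro v hv
    rw [Finset.mem_filter] at hv
    have h := far_pt hp hxc hv.2
    have e3 : f v / ((x : ℝ) - v) - f v * (1 / ((k : ℝ) * 2 ^ i - v)) =
        f v * (1 / ((x : ℝ) - v) - 1 / ((k : ℝ) * 2 ^ i - v)) := by ring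
    rw [e3, abs_mul, hf]
    calc _ ≤ d.m v * (3 * (2 ^ i / (2 ^ i + |(v : ℝ) - k * 2 ^ i|) ^ 2)) :=
          mul_le_mul_of_nonneg_left h (d.m0 v)
      _ = _ := by ring
  · apply Finset.sum_le_sum_of_subset_of_nonneg (Finset.filter_subset _ _)
    intro v _ _
    have := d.m0 v
    positivity

lemma near_mass (d : Dat) (i : ℕ) (k : ℤ) :
    ∑ v ∈ d.F.filter (fun v : ℤ => ¬ (3 * (2 : ℝ) ^ i ≤ |(v : ℝ) - k * 2 ^ i|)), d.m v ≤
      16 * 2 ^ i * d.om i k := by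
  unfold Dat.om
  have hp : (0 : ℝ) < 2 ^ i := by positivity
  rw [Finset.mul_sum]
  refine le_trans (Finset.sum_le_sum (g := fun v : ℤ => 16 * 2 ^ i * (d.m v * (2 ^ i / (2 ^ i + |(v : ℝ) - k * 2 ^ i|) ^ 2))) ?_) ?_
  · intro v hv
    rw [Finset.mem_filter] at hv
    have h1 := not_le.1 hv.2
    have h2 : (2 ^ i + |(v : ℝ) - k * 2 ^ i|) ^ 2 ≤ (4 * 2 ^ i) ^ 2 :=
      pow_le_pow_left₀ (by positivity) (by linarith) 2
    have h3 : (1 : ℝ) ≤ 16 * 2 ^ i * (2 ^ i / (2 ^ i + |(v : ℝ) - k * 2 ^ i|) ^ 2) := by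
      rw [← mul_div_assoc, le_div_iff₀ (by positivity), one_mul]
      nlinarith
    have h4 := d.m0 v
    calc d.m v = d.m v * 1 := by ring
      _ ≤ d.m v * (16 * 2 ^ i * (2 ^ i / (2 ^ i + |(v : ℝ) - k * 2 ^ i|) ^ 2)) :=
          mul_le_mul_of_nonneg_left h3 h4
      _ = _ := by ring
  · apply Finset.sum_le_sum_of_subset_of_nonneg (Finset.filter_subset _ _)
    intro v _ _
    have := d.m0 v
    positivity

lemma e_lev_le (d : Dat) (f : ℤ → ℝ) (hf : ∀ n, |f n| = d.m n) (G : ℤ → ℝ)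
    (hG : ∀ (n u : ℤ) (t : ℕ), u ≤ n → n < u + 2 ^ t →
          ∑ v ∈ Finset.Ico u (u + 2 ^ t), |f v| ≤ 2 ^ t * G n) (x : ℤ) :
    e (d.lev 0 x) ≤ G x := by
  obtain ⟨u, t, h1, h2, h3⟩ := d.L_lev 0 x
  rw [pow_zero, mul_one] at h1 h2
  have hp : (0 : ℤ) < 2 ^ (0 + d.c0) := by positivity
  have h4 := hG x u t (by omega) (by omega)
  have h5 : d.mI u (u + 2 ^ t) = ∑ v ∈ Finset.Ico u (u + 2 ^ t), |f v| := by
    unfold Dat.mI
    exact Finset.sum_congr rfl (fun v _ => (hf v).symm)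
  rw [← h5] at h4
  rw [e_add, e_nat] at h3
  have h6 : (0 : ℝ) < 2 ^ t := by positivity
  have h7 := le_trans h3 h4
  rw [mul_comm] at h7
  exact le_of_mul_le_mul_left h7 h6

theorem hPart (hW : Weak11) (hS : Sparse) : HPart := by
  classical
  obtain ⟨C, hC, hW⟩ := hW
  obtain ⟨K1, hK1⟩ : ∃ K1 : ℝ, K1 = 64 * C + 11 := ⟨_, rfl⟩
  obtain ⟨K, hK, hS⟩ := hS K1 (by rw [hK1]; linarith)
  intro c0
  refine ⟨K * 2 ^ (c0 + 3) + K + 1, by positivity, ?_⟩
  intro d hdc f hf G hG X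
  obtain ⟨R, hR⟩ := d.exists_R
  obtain ⟨N, hN⟩ : ∃ N : ℕ, ∀ v ∈ X, v.natAbs ≤ N :=
    ⟨X.sup Int.natAbs, fun v hv => Finset.le_sup (f := Int.natAbs) hv⟩
  refine ⟨max R N, fun T hT => ?_⟩
  have hRT : (2 : ℤ) ^ R ≤ 2 ^ T := pow_le_pow_right₀ (by norm_num) (le_trans (le_max_left _ _) hT)
  have hNT : (N : ℤ) < 2 ^ T := by
    have h1 : N < 2 ^ N := Nat.lt_two_pow_self
    have h2 : (2 : ℕ) ^ N ≤ 2 ^ T := pow_le_pow_right₀ (by norm_num) (le_trans (le_max_right _ _) hT)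
    have h3 : N < 2 ^ T := lt_of_lt_of_le h1 h2
    exact_mod_cast h3
  obtain ⟨s, hs1, hs2, hs3⟩ := hS T (HH d f) (cc d f) d.om d.om_nonneg
    (by
      intro i _ k
      have hp : (0 : ℝ) < 2 ^ i := by positivity
      have hom := d.om_pos i k
      have hlam : 0 < (64 * C) * d.om i k := by positivity
      have h := hW f (d.F.filter (fun v : ℤ => ¬ (3 * (2 : ℝ) ^ i ≤ |(v : ℝ) - k * 2 ^ i|)))
        ((64 * C) * d.om i k) hlam
        ((Finset.Ico (k * 2 ^ i) ((k + 1) * 2 ^ i)).filter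
          (fun x => K1 * d.om i k < |HH d f x - cc d f i k|))
        (by
          intro x hx
          rw [Finset.mem_filter] at hx
          have h1 := HH_split d f hf i k x hx.1
          have h2 := hx.2
          rw [hK1] at h2
          nlinarith)
      have h1 : ∑ v ∈ d.F.filter (fun v : ℤ => ¬ (3 * (2 : ℝ) ^ i ≤ |(v : ℝ) - k * 2 ^ i|)), |f v| ≤
          16 * 2 ^ i * d.om i k := by
        rw [Finset.sum_congr rfl (fun v _ => hf v)]
        exact near_mass d i k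
      have h2 := le_trans h (div_le_div_of_nonneg_right (mul_le_mul_of_nonneg_left h1 hC.le) hlam.le)
      have h3 : C * (16 * 2 ^ i * d.om i k) / (64 * C * d.om i k) = 2 ^ i / 4 := by
        have := hC.ne'
        have := hom.ne'
        field_simp
        norm_num
      rw [h3] at h2
      linarith)
    (by
      intro i _ k
      have h := cc_step d f hf i k
      have hom := d.om_pos (i + 1) (k / 2)
      rw [hK1]
      nlinarith [mul_pos hC hom])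
    (by
      intro i _ k
      have h := d.om_parent i k
      have hom := d.om_pos i k
      rw [hK1]
      nlinarith [mul_pos hC hom])
  refine ⟨s, hs1, hs2, fun x hx => ?_⟩
  have h1 := hs3 x
  have hxN := hN x hx
  have hlev := e_lev_le d f hf G hG x
  have hG0 : 0 < G x := lt_of_lt_of_le (e_pos _) hlev
  -- the mass
  have e1 : -(2 : ℤ) ^ T + 2 ^ (T + 1) = 2 ^ T := by rw [pow_succ]; ring
  have hmass : d.tot ≤ 2 ^ (T + 1) * G x := by
    have h2 := hG x (-(2 : ℤ) ^ T) (T + 1) (by omega) (by rw [e1]; omega)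
    have h3 : d.mI (-(2 : ℤ) ^ T) (-(2 : ℤ) ^ T + 2 ^ (T + 1)) = d.tot := by
      apply d.mI_eq_tot
      intro v hv
      have := hR v hv
      rw [e1]
      constructor <;> omega
    rw [← h3]
    unfold Dat.mI
    rw [Finset.sum_congr rfl (fun v _ => (hf v).symm)]
    exact h2
  have hcT : |cc d f T (x / 2 ^ T)| ≤ G x := by
    have hp : (0 : ℝ) < 2 ^ T := by positivity
    have h4 : |cc d f T (x / 2 ^ T)| ≤ d.tot * (1 / (3 * 2 ^ T)) := by
      unfold cc Dat.tot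
      refine le_trans (Finset.abs_sum_le_sum_abs _ _) ?_
      rw [Finset.sum_mul]
      apply Finset.sum_le_sum
      intro v _
      rw [abs_mul, hf]
      apply mul_le_mul_of_nonneg_left _ (d.m0 v)
      split_ifs with h5
      · rw [abs_div, abs_one, abs_sub_comm]
        exact one_div_le_one_div_of_le (by positivity) h5
      · rw [abs_zero]; positivity
    refine le_trans h4 ?_
    rw [mul_one_div, div_le_iff₀ (by positivity)]
    have e2 : (2 : ℝ) ^ (T + 1) = 2 * 2 ^ T := by ring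
    rw [e2] at hmass
    nlinarith [mul_pos hp hG0]
  have hom0 : d.om 0 x ≤ 2 ^ (c0 + 3) * G x := by
    have h5 := d.om_le 0 x
    have e3 : d.lev 0 x + d.c0 + 3 = d.lev 0 x + ((c0 + 3 : ℕ) : ℤ) := by rw [hdc]; push_cast; ring
    rw [e3, e_add, e_nat] at h5
    have h6 : (0 : ℝ) < 2 ^ (c0 + 3) := by positivity
    nlinarith
  have hsum0 : 0 ≤ ∑ i ∈ Finset.range (T + 1), s i (x / 2 ^ i) * d.om i (x / 2 ^ i) := by
    apply Finset.sum_nonneg
    intro i _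
    apply mul_nonneg _ (d.om_nonneg _ _)
    rcases hs1 i (x / 2 ^ i) with h | h <;> rw [h] <;> norm_num
  obtain ⟨S, hSd⟩ : ∃ S, S = ∑ i ∈ Finset.range (T + 1), s i (x / 2 ^ i) * d.om i (x / 2 ^ i) := ⟨_, rfl⟩
  rw [← hSd] at h1 hsum0 ⊢
  have h7 : |HH d f x| ≤ |HH d f x - cc d f T (x / 2 ^ T)| + |cc d f T (x / 2 ^ T)| := by
    have := abs_add_le (HH d f x - cc d f T (x / 2 ^ T)) (cc d f T (x / 2 ^ T))
    rwa [sub_add_cancel] at this
  have h8 : |HH d f x| ≤ K * (2 ^ (c0 + 3) * G x + S) + G x := by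
    have := mul_le_mul_of_nonneg_left hom0 hK.le
    nlinarith
  have h9 : (∑ v ∈ d.F.erase x, f v / ((x : ℝ) - (v : ℝ))) = HH d f x := rfl
  rw [h9]
  refine le_trans h8 ?_
  have h10 : (0 : ℝ) < 2 ^ (c0 + 3) := by positivity
  have h11 : 0 ≤ K * 2 ^ (c0 + 3) * S := by positivity
  have h12 : 0 ≤ K * G x := by positivity
  nlinarith

end Pool.Agent.Helper107.CP
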