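import Mathlib
import Pool.Agent.Helper107.CPd

set_option autoImplicit false

namespace Pool.Agent.Helper107.CP

open Finset

lemma ptw (p : ℝ) (hp : 0 < p) (a i : ℕ) (x c c' : ℝ) (hc : |c' - c| ≤ 2 ^ i) :
    ((2 : ℝ) ^ i / (2 ^ i + |x - c'|)) ^ p ≤
      ((2 : ℝ) ^ (-p) * (1 + (1 / 2) ^ a) ^ p) * ((2 : ℝ) ^ (i + 1) / (2 ^ (i + 1) + |x - c|)) ^ p +
        (if |x - c| ≤ 2 ^ (i + 1 + a) then 1 else 0) := by
  have h2i : (0 : ℝ) < 2 ^ i := by positivity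
  have hx' := abs_nonneg (x - c')
  have hx := abs_nonneg (x - c)
  split_ifs with h
  · have h1 : ((2 : ℝ) ^ i / (2 ^ i + |x - c'|)) ^ p ≤ 1 := by
      apply Real.rpow_le_one (by positivity) _ hp.le
      rw [div_le_one (by positivity)]
      linarith
    have h2 : 0 ≤ ((2 : ℝ) ^ (-p) * (1 + (1 / 2) ^ a) ^ p) * ((2 : ℝ) ^ (i + 1) / (2 ^ (i + 1) + |x - c|)) ^ p := by
      positivity
    linarith
  · push Not at h
    rw [add_zero]
    have hpos : 0 < |x - c| := lt_trans (by positivity) h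
    have h1 : |x - c| ≤ 2 ^ i + |x - c'| := by
      have := abs_sub_le x c' c
      linarith
    have h3 : (2 : ℝ) ^ i / (2 ^ i + |x - c'|) ≤ 2 ^ i / |x - c| :=
      div_le_div_of_nonneg_left h2i.le hpos h1
    have h4 : (2 : ℝ) ^ i / |x - c| ≤
        (1 / 2) * (1 + (1 / 2) ^ a) * ((2 : ℝ) ^ (i + 1) / (2 ^ (i + 1) + |x - c|)) := by
      have h5 : (2 : ℝ) ^ (i + 1) + |x - c| ≤ (1 + (1 / 2) ^ a) * |x - c| := by
        have h6 : (2 : ℝ) ^ (i + 1) ≤ (1 / 2) ^ a * |x - c| := by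
          have h7 : (2 : ℝ) ^ (i + 1) = (1 / 2) ^ a * 2 ^ (i + 1 + a) := by
            rw [pow_add _ (i + 1) a, one_div, inv_pow]
            field_simp
          rw [h7]
          exact mul_le_mul_of_nonneg_left h.le (by positivity)
        linarith
      rw [mul_div_assoc', div_le_div_iff₀ hpos (by positivity)]
      have h8 : (2 : ℝ) ^ (i + 1) = 2 * 2 ^ i := by rw [pow_succ]; ring
      calc (2 : ℝ) ^ i * (2 ^ (i + 1) + |x - c|) ≤ 2 ^ i * ((1 + (1 / 2) ^ a) * |x - c|) :=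
            mul_le_mul_of_nonneg_left h5 h2i.le
        _ = 1 / 2 * (1 + (1 / 2) ^ a) * 2 ^ (i + 1) * |x - c| := by rw [h8]; ring
    calc ((2 : ℝ) ^ i / (2 ^ i + |x - c'|)) ^ p
        ≤ ((1 / 2) * (1 + (1 / 2) ^ a) * ((2 : ℝ) ^ (i + 1) / (2 ^ (i + 1) + |x - c|))) ^ p :=
          Real.rpow_le_rpow (by positivity) (h3.trans h4) hp.le
      _ = ((2 : ℝ) ^ (-p) * (1 + (1 / 2) ^ a) ^ p) * ((2 : ℝ) ^ (i + 1) / (2 ^ (i + 1) + |x - c|)) ^ p := by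
          rw [Real.mul_rpow (by positivity) (by positivity), Real.mul_rpow (by positivity) (by positivity)]
          congr 2
          rw [one_div, Real.inv_rpow (by norm_num), Real.rpow_neg (by norm_num)]

lemma summ (p : ℝ) (hp : 0 < p) (U : ℤ → ℝ) (h0 : ∀ n, 0 ≤ U n)
    (hs : Summable (fun n : ℤ => U n * (1 / (1 + |(n : ℝ)|)) ^ p)) (i : ℕ) (c : ℝ) :
    Summable (fun n : ℤ => U n * ((2 : ℝ) ^ i / (2 ^ i + |(n : ℝ) - c|)) ^ p) := by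
  have h2i : (1 : ℝ) ≤ 2 ^ i := one_le_pow₀ (by norm_num)
  refine Summable.of_nonneg_of_le (fun n => ?_) (fun n => ?_) (hs.mul_left (((2:ℝ) ^ i * (1 + |c|)) ^ p))
  · exact mul_nonneg (h0 n) (by positivity)
  · have h1 : (2 : ℝ) ^ i / (2 ^ i + |(n : ℝ) - c|) ≤ (2 ^ i * (1 + |c|)) * (1 / (1 + |(n : ℝ)|)) := by
      rw [mul_one_div, div_le_div_iff₀ (by positivity) (by positivity)]
      have h3 : |(n : ℝ)| ≤ |c| + |(n : ℝ) - c| := by
        have := abs_add_le c ((n : ℝ) - c)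
        rwa [add_sub_cancel] at this
      have h4 := abs_nonneg c
      have h5 := abs_nonneg ((n : ℝ) - c)
      have h6 : 1 + |(n : ℝ)| ≤ (1 + |c|) * (2 ^ i + |(n : ℝ) - c|) := by
        nlinarith [mul_nonneg h4 h5, mul_nonneg h4 (sub_nonneg.2 h2i)]
      have h7 : (0:ℝ) ≤ 2 ^ i := by positivity
      calc (2 : ℝ) ^ i * (1 + |(n : ℝ)|) ≤ 2 ^ i * ((1 + |c|) * (2 ^ i + |(n : ℝ) - c|)) :=
            mul_le_mul_of_nonneg_left h6 h7
        _ = 2 ^ i * (1 + |c|) * (2 ^ i + |(n : ℝ) - c|) := by ring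
    calc U n * ((2 : ℝ) ^ i / (2 ^ i + |(n : ℝ) - c|)) ^ p
        ≤ U n * ((2 ^ i * (1 + |c|)) * (1 / (1 + |(n : ℝ)|))) ^ p :=
          mul_le_mul_of_nonneg_left (Real.rpow_le_rpow (by positivity) h1 hp.le) (h0 n)
      _ = ((2:ℝ) ^ i * (1 + |c|)) ^ p * (U n * (1 / (1 + |(n : ℝ)|)) ^ p) := by
          rw [Real.mul_rpow (by positivity) (by positivity)]
          ring

lemma childA (p : ℝ) (hp : 0 < p) (U : ℤ → ℝ) (h0 : ∀ n, 0 ≤ U n)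
    (hs : Summable (fun n : ℤ => U n * (1 / (1 + |(n : ℝ)|)) ^ p)) (a i : ℕ) (k : ℤ) (c' : ℝ)
    (hc : |c' - k * 2 ^ (i + 1)| ≤ 2 ^ i) :
    ∑' n : ℤ, U n * ((2 : ℝ) ^ i / (2 ^ i + |(n : ℝ) - c'|)) ^ p ≤
      ((2 : ℝ) ^ (-p) * (1 + (1 / 2) ^ a) ^ p) *
        ∑' n : ℤ, U n * ((2 : ℝ) ^ (i + 1) / (2 ^ (i + 1) + |(n : ℝ) - k * 2 ^ (i + 1)|)) ^ p +
      ∑ x ∈ Finset.Icc (k * 2 ^ (i + 1) - 2 ^ (i + 1 + a)) (k * 2 ^ (i + 1) + 2 ^ (i + 1 + a)), U x := by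
  classical
  set J : Finset ℤ := Finset.Icc (k * 2 ^ (i + 1) - 2 ^ (i + 1 + a)) (k * 2 ^ (i + 1) + 2 ^ (i + 1 + a)) with hJ
  set ρ : ℝ := (2 : ℝ) ^ (-p) * (1 + (1 / 2) ^ a) ^ p with hρ
  have hs1 := summ p hp U h0 hs i c'
  have hs2 := summ p hp U h0 hs (i + 1) (k * 2 ^ (i + 1))
  have hs3 : Summable (fun x : ℤ => if x ∈ J then U x else 0) :=
    summable_of_ne_finset_zero (s := J) (fun x hx => if_neg hx)
  have hs4 : Summable (fun x : ℤ => ρ * (U x * ((2 : ℝ) ^ (i + 1) / (2 ^ (i + 1) + |(x : ℝ) - k * 2 ^ (i + 1)|)) ^ p)) :=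
    hs2.mul_left ρ
  have e3 : ∑' x : ℤ, (if x ∈ J then U x else 0) = ∑ x ∈ J, U x := by
    rw [tsum_eq_sum (s := J) (fun x hx => if_neg hx)]
    exact Finset.sum_congr rfl (fun x hx => if_pos hx)
  rw [← e3, ← tsum_mul_left, ← hs4.tsum_add hs3]
  refine hs1.tsum_le_tsum (fun x => ?_) (hs4.add hs3)
  have h1 := ptw p hp a i (x : ℝ) (k * 2 ^ (i + 1)) c' hc
  have h2 := mul_le_mul_of_nonneg_left h1 (h0 x)
  refine h2.trans (le_of_eq ?_)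
  have h3 : (|(x : ℝ) - k * 2 ^ (i + 1)| ≤ 2 ^ (i + 1 + a)) ↔ x ∈ J := by
    rw [hJ, Finset.mem_Icc, abs_le]
    constructor
    · rintro ⟨g1, g2⟩
      constructor
      · have : ((k * 2 ^ (i + 1) - 2 ^ (i + 1 + a) : ℤ) : ℝ) ≤ (x : ℝ) := by push_cast; linarith
        exact_mod_cast this
      · have : (x : ℝ) ≤ ((k * 2 ^ (i + 1) + 2 ^ (i + 1 + a) : ℤ) : ℝ) := by push_cast; linarith
        exact_mod_cast this
    · rintro ⟨g1, g2⟩
      have g1' : ((k * 2 ^ (i + 1) - 2 ^ (i + 1 + a) : ℤ) : ℝ) ≤ (x : ℝ) := by exact_mod_cast g1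
      have g2' : (x : ℝ) ≤ ((k * 2 ^ (i + 1) + 2 ^ (i + 1 + a) : ℤ) : ℝ) := by exact_mod_cast g2
      push_cast at g1' g2'
      constructor <;> linarith
  by_cases hx : x ∈ J
  · rw [if_pos hx, if_pos (h3.2 hx)]; ring
  · rw [if_neg hx, if_neg (fun h => hx (h3.1 h))]; ring

lemma count_le (a i : ℕ) (x : ℤ) (S : Finset ℤ) :
    ((S.filter (fun k => x ∈ Finset.Icc (k * 2 ^ i - 2 ^ (i + a)) (k * 2 ^ i + 2 ^ (i + a)))).card : ℝ) ≤
      2 ^ (a + 1) + 1 := by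
  classical
  have hp : (0 : ℤ) < 2 ^ i := by positivity
  have hsub : S.filter (fun k => x ∈ Finset.Icc (k * 2 ^ i - 2 ^ (i + a)) (k * 2 ^ i + 2 ^ (i + a))) ⊆
      Finset.Icc (x / 2 ^ i - 2 ^ a) (x / 2 ^ i + 2 ^ a) := by
    intro k hk
    rw [Finset.mem_filter, Finset.mem_Icc] at hk
    obtain ⟨-, g1, g2⟩ := hk
    rw [pow_add] at g1 g2
    rw [Finset.mem_Icc]
    have e1 : x / 2 ^ i * 2 ^ i ≤ x := Int.ediv_mul_le x hp.ne'
    have e2 : x < (x / 2 ^ i + 1) * 2 ^ i := Int.lt_ediv_add_one_mul_self x hp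
    constructor
    · have h1 : x / 2 ^ i * 2 ^ i ≤ (k + 2 ^ a) * 2 ^ i := by linarith
      have := le_of_mul_le_mul_right h1 hp
      linarith
    · have h1 : (k - 2 ^ a) * 2 ^ i < (x / 2 ^ i + 1) * 2 ^ i := by linarith
      have := lt_of_mul_lt_mul_right h1 hp.le
      linarith
  have h1 := Finset.card_le_card hsub
  rw [Int.card_Icc] at h1
  have h2 : (x / 2 ^ i + 2 ^ a + 1 - (x / 2 ^ i - 2 ^ a)).toNat = 2 ^ (a + 1) + 1 := by
    have : x / 2 ^ i + 2 ^ a + 1 - (x / 2 ^ i - 2 ^ a) = ((2 ^ (a + 1) + 1 : ℕ) : ℤ) := by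
      push_cast; ring
    rw [this, Int.toNat_natCast]
  rw [h2] at h1
  exact_mod_cast h1

lemma sum_b_le (U : ℤ → ℝ) (h0 : ∀ n, 0 ≤ U n) (a n i : ℕ) (hi : i ≤ n) (k0 : ℤ) :
    ∑ k ∈ Finset.Ico (k0 * 2 ^ (n - i)) ((k0 + 1) * 2 ^ (n - i)),
      ∑ x ∈ Finset.Icc (k * 2 ^ i - 2 ^ (i + a)) (k * 2 ^ i + 2 ^ (i + a)), U x ≤
    (2 ^ (a + 1) + 1) * ∑ x ∈ Finset.Icc (k0 * 2 ^ n - 2 ^ (n + a + 1)) (k0 * 2 ^ n + 2 ^ (n + a + 1)), U x := by
  classical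
  set S := Finset.Ico (k0 * 2 ^ (n - i)) ((k0 + 1) * 2 ^ (n - i)) with hS
  set J := Finset.Icc (k0 * 2 ^ n - 2 ^ (n + a + 1)) (k0 * 2 ^ n + 2 ^ (n + a + 1)) with hJ
  have hp : (0 : ℤ) < 2 ^ i := by positivity
  have hsub : ∀ k ∈ S, Finset.Icc (k * 2 ^ i - 2 ^ (i + a)) (k * 2 ^ i + 2 ^ (i + a)) ⊆ J := by
    intro k hk x hx
    rw [hS, Finset.mem_Ico] at hk
    rw [Finset.mem_Icc] at hx
    rw [hJ, Finset.mem_Icc]
    have e1 : (k0 * 2 ^ (n - i)) * 2 ^ i = k0 * 2 ^ n := by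
      rw [mul_assoc, ← pow_add]; congr 2; omega
    have e2 : ((k0 + 1) * 2 ^ (n - i)) * 2 ^ i = (k0 + 1) * 2 ^ n := by
      rw [mul_assoc, ← pow_add]; congr 2; omega
    have g1 : k0 * 2 ^ n ≤ k * 2 ^ i := by rw [← e1]; exact mul_le_mul_of_nonneg_right hk.1 hp.le
    have g2 : k * 2 ^ i ≤ (k0 + 1) * 2 ^ n := by rw [← e2]; exact mul_le_mul_of_nonneg_right hk.2.le hp.le
    have g3 : (2 : ℤ) ^ (i + a) ≤ 2 ^ (n + a) := pow_le_pow_right₀ (by norm_num) (by omega)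
    have g4 : (2 : ℤ) ^ n ≤ 2 ^ (n + a) := pow_le_pow_right₀ (by norm_num) (by omega)
    have g5 : (2 : ℤ) ^ (n + a + 1) = 2 ^ (n + a) + 2 ^ (n + a) := by rw [pow_succ]; ring
    have g6 : (0 : ℤ) < 2 ^ (n + a) := by positivity
    rw [g5]
    constructor
    · linarith [hx.1]
    · have := hx.2
      linarith
  have h1 : ∀ k ∈ S, ∑ x ∈ Finset.Icc (k * 2 ^ i - 2 ^ (i + a)) (k * 2 ^ i + 2 ^ (i + a)), U x =
      ∑ x ∈ J, (if x ∈ Finset.Icc (k * 2 ^ i - 2 ^ (i + a)) (k * 2 ^ i + 2 ^ (i + a)) then U x else 0) := by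
    intro k hk
    rw [← Finset.sum_filter]
    apply Finset.sum_congr _ (fun _ _ => rfl)
    ext x
    rw [Finset.mem_filter]
    exact ⟨fun h => ⟨hsub k hk h, h⟩, fun h => h.2⟩
  rw [Finset.sum_congr rfl h1, Finset.sum_comm, Finset.mul_sum]
  apply Finset.sum_le_sum
  intro x _
  rw [← Finset.sum_filter, Finset.sum_const, nsmul_eq_mul]
  exact mul_le_mul_of_nonneg_right (count_le a i x S) (h0 x)

theorem localD (hW : WeightD) : LocalD := by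
  intro p hp C ε hC hε
  have hp0 : 0 < p := by linarith
  set q : ℝ := (1 + p) / 2 with hq
  have hq1 : 1 < q := by rw [hq]; linarith
  have hqp : q < p := by rw [hq]; linarith
  -- the choice of `a`
  obtain ⟨a, ha⟩ : ∃ a : ℕ, (2 : ℝ) ^ (-p) * (1 + (1 / 2) ^ a) ^ p < (2 : ℝ) ^ (-q) := by
    have h1 : Filter.Tendsto (fun a : ℕ => (2 : ℝ) ^ (-p) * (1 + (1 / 2 : ℝ) ^ a) ^ p) Filter.atTop
        (nhds ((2 : ℝ) ^ (-p) * (1 + 0) ^ p)) := by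
      apply Filter.Tendsto.const_mul
      have h2 : Filter.Tendsto (fun a : ℕ => 1 + (1 / 2 : ℝ) ^ a) Filter.atTop (nhds (1 + 0)) :=
        (tendsto_pow_atTop_nhds_zero_of_lt_one (by norm_num) (by norm_num)).const_add 1
      exact h2.rpow_const (Or.inl (by norm_num))
    have h3 : (2 : ℝ) ^ (-p) * (1 + 0) ^ p < (2 : ℝ) ^ (-q) := by
      rw [add_zero, Real.one_rpow, mul_one]
      exact Real.rpow_lt_rpow_of_exponent_lt (by norm_num) (by linarith)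
    exact (h1.eventually (gt_mem_nhds h3)).exists
  set ρ : ℝ := (2 : ℝ) ^ (-p) * (1 + (1 / 2) ^ a) ^ p with hρ
  set κ : ℝ := (2 : ℝ) ^ (-q) - ρ with hκ
  have hκ0 : 0 < κ := by rw [hκ]; linarith
  set C1 : ℝ := max C (2 ^ (a + 1) + 1) with hC1
  have hC10 : 0 < C1 := lt_of_lt_of_le hC (le_max_left _ _)
  obtain ⟨C', ε', hC', hε', hmain⟩ := hW C1 ε κ q hC10 hε hκ0 hq1
  refine ⟨a + 4, C', ε', by omega, hC', hε', ?_⟩
  intro U hU n k0 E hE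
  have e0 : n + (a + 4) - 3 = n + a + 1 := by omega
  rw [e0]
  refine hmain n k0 U
    (fun i k => ∑' x : ℤ, U x * ((2 : ℝ) ^ i / (2 ^ i + |(x : ℝ) - k * 2 ^ i|)) ^ p)
    (fun i k => ∑ x ∈ Finset.Icc (k * 2 ^ i - 2 ^ (i + a)) (k * 2 ^ i + 2 ^ (i + a)), U x)
    _ hU.nn ?_ ?_ ?_ ?_ ?_ ?_ E hE
  · intro i k
    exact tsum_nonneg (fun x => mul_nonneg (hU.nn x) (by positivity))
  · intro i k
    exact Finset.sum_nonneg (fun x _ => hU.nn x)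
  · exact Finset.sum_nonneg (fun x _ => hU.nn x)
  · intro i k E' hE'
    refine (hU.cp i k E' hE').trans ?_
    apply mul_le_mul_of_nonneg_right
    · exact mul_le_mul_of_nonneg_right (le_max_left _ _) (by positivity)
    · exact tsum_nonneg (fun x => mul_nonneg (hU.nn x) (by positivity))
  · intro i k hb
    have hlin : ∀ S : ℝ, S ≤ ρ * ∑' x : ℤ, U x * ((2 : ℝ) ^ (i + 1) / (2 ^ (i + 1) + |(x : ℝ) - k * 2 ^ (i + 1)|)) ^ p +
        ∑ x ∈ Finset.Icc (k * 2 ^ (i + 1) - 2 ^ (i + 1 + a)) (k * 2 ^ (i + 1) + 2 ^ (i + 1 + a)), U x →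
        S ≤ (2 : ℝ) ^ (-q) * ∑' x : ℤ, U x * ((2 : ℝ) ^ (i + 1) / (2 ^ (i + 1) + |(x : ℝ) - k * 2 ^ (i + 1)|)) ^ p := by
      intro S hS
      have e1 : (2 : ℝ) ^ (-q) = ρ + κ := by rw [hκ]; ring
      rw [e1, add_mul]
      linarith
    constructor
    · apply hlin
      apply childA p hp0 U hU.nn hU.sm a i k
      push_cast
      have : (2 * (k:ℝ) * 2 ^ i - k * 2 ^ (i + 1)) = 0 := by rw [pow_succ]; ring
      rw [this, abs_zero]; positivity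
    · apply hlin
      apply childA p hp0 U hU.nn hU.sm a i k
      push_cast
      have : ((2 * (k:ℝ) + 1) * 2 ^ i - k * 2 ^ (i + 1)) = 2 ^ i := by rw [pow_succ]; ring
      rw [this, abs_of_pos (by positivity)]
  · intro i hi
    refine (sum_b_le U hU.nn a n i hi k0).trans ?_
    exact mul_le_mul_of_nonneg_right (le_max_right _ _) (Finset.sum_nonneg (fun x _ => hU.nn x))

end Pool.Agent.Helper107.CP
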