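import Mathlib
import Pool.Agent.Helper107.CPd

set_option autoImplicit false

namespace Pool.Agent.Helper107.CP

open Finset

theorem j1739_ov (d : Dat) {n : ℕ} {k0 l x : ℤ} (hn : 1 ≤ n) (h1 : d.L n k0 l)
    (h2 : ¬ d.L (n + 1) (k0 / 2) l) (hx : |x - k0 * 2 ^ n| ≤ 2 ^ (n + d.c0 - 3)) :
    l ≤ d.lev 0 x ∧ n ≤ d.isc x l + 1 ∧ d.isc x l ≤ n + 1 := by
  obtain ⟨m, rfl⟩ : ∃ m, n = m + 1 := ⟨n - 1, by omega⟩
  obtain ⟨c, hc⟩ : ∃ c, d.c0 = c + 4 := ⟨d.c0 - 4, by have := d.hc0; omega⟩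
  have e0 : m + 1 + d.c0 - 3 = m + c + 2 := by omega
  rw [e0] at hx
  obtain ⟨P, hP⟩ : ∃ P : ℤ, P = 2 ^ m := ⟨_, rfl⟩
  obtain ⟨R, hR⟩ : ∃ R : ℤ, R = 2 ^ (m + c) := ⟨_, rfl⟩
  have hP0 : 0 < P := by rw [hP]; positivity
  have hPR : P ≤ R := by rw [hP, hR]; exact pow_le_pow_right₀ (by norm_num) (by omega)
  have p0 : (2 : ℤ) ^ m = P := hP.symm
  have p1 : (2 : ℤ) ^ (m + 1) = 2 * P := by rw [hP]; ring
  have p2 : (2 : ℤ) ^ (m + 1 + 1) = 4 * P := by rw [hP]; ring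
  have p3 : (2 : ℤ) ^ (m + 1 + 2) = 8 * P := by rw [hP]; ring
  have q0 : (2 : ℤ) ^ (m + c + 2) = 4 * R := by rw [hR]; ring
  have q1 : (2 : ℤ) ^ (m + d.c0) = 16 * R := by rw [hR, hc]; ring
  have q2 : (2 : ℤ) ^ (m + 1 + d.c0) = 32 * R := by rw [hR, hc]; ring
  have q3 : (2 : ℤ) ^ (m + 1 + 1 + d.c0) = 64 * R := by rw [hR, hc]; ring
  have q4 : (2 : ℤ) ^ (m + 1 + 2 + d.c0) = 128 * R := by rw [hR, hc]; ring
  rw [p1, q0] at hx
  obtain ⟨hx1, hx2⟩ := abs_le.1 hx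
  have hL : d.L m (x / 2 ^ m) l := by
    have a1 : x / P * P ≤ x := Int.ediv_mul_le x hP0.ne'
    have a2 : x < (x / P + 1) * P := Int.lt_ediv_add_one_mul_self x hP0
    rw [add_mul, one_mul] at a2
    apply d.L_mono h1
    · rw [p0, p1, q1, q2]; omega
    · rw [p0, p1, q1, q2]; omega
  have hl : l ≤ d.lev 0 x := by
    have h := d.L_chain' (Nat.zero_le m) hL
    rw [pow_zero, Int.ediv_one] at h
    exact d.L_iff.1 h
  refine ⟨hl, ?_, ?_⟩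
  · have := (d.isc_iff hl m).1 hL
    omega
  · by_contra hcon
    have hL3 : d.L (m + 1 + 2) (x / 2 ^ (m + 1 + 2)) l := (d.isc_iff hl _).2 (by omega)
    apply h2
    have h8 : 0 < 8 * P := by omega
    have a1 : x / (8 * P) * (8 * P) ≤ x := Int.ediv_mul_le x h8.ne'
    have a2 : x < (x / (8 * P) + 1) * (8 * P) := Int.lt_ediv_add_one_mul_self x h8
    rw [add_mul, one_mul] at a2
    have b1 : k0 / 2 * 2 ≤ k0 := by omega
    have b2 : k0 ≤ k0 / 2 * 2 + 1 := by omega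
    have b3 : k0 / 2 * 2 * (2 * P) ≤ k0 * (2 * P) := mul_le_mul_of_nonneg_right b1 (by omega)
    have b4 : k0 * (2 * P) ≤ (k0 / 2 * 2 + 1) * (2 * P) := mul_le_mul_of_nonneg_right b2 (by omega)
    have b5 : k0 / 2 * 2 * (2 * P) = k0 / 2 * (4 * P) := by ring
    have b6 : (k0 / 2 * 2 + 1) * (2 * P) = k0 / 2 * (4 * P) + 2 * P := by ring
    rw [b5] at b3
    rw [b6] at b4
    apply d.L_mono hL3
    · rw [p2, p3, q3, q4]; omega
    · rw [p2, p3, q3, q4]; omega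

theorem j1739_Phi_nonneg (lam0 r : ℕ) (t : ℝ) : 0 ≤ Phi lam0 r t := by
  unfold Phi
  split_ifs with h
  · have : 0 ≤ t := le_trans (Nat.cast_nonneg _) h.le
    positivity
  · exact le_rfl

theorem j1739_Phi_mono (lam0 r : ℕ) {t t' : ℝ} (h : t ≤ t') : Phi lam0 r t ≤ Phi lam0 r t' := by
  unfold Phi
  split_ifs with h1 h2 h2
  · have : 0 ≤ t := le_trans (Nat.cast_nonneg _) h1.le
    exact pow_le_pow_left₀ this h r
  · exact absurd (lt_of_lt_of_le h1 h) h2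
  · have : 0 ≤ t' := le_trans (Nat.cast_nonneg _) h2.le
    positivity
  · exact le_rfl

open Classical in
theorem j1739_layer (lam0 r M : ℕ) (t : ℝ) (ht : t ≤ M) :
    Phi lam0 r t ≤ ∑ lam ∈ Finset.Ico lam0 M, ((lam : ℝ) + 1) ^ r * (if (lam : ℝ) < t then 1 else 0) := by
  have hnn : ∀ lam ∈ Finset.Ico lam0 M,
      0 ≤ ((lam : ℝ) + 1) ^ r * (if (lam : ℝ) < t then (1 : ℝ) else 0) := by
    intro lam _
    split_ifs <;> positivity
  by_cases h : (lam0 : ℝ) < t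
  · have ht0 : 0 ≤ t := le_trans (Nat.cast_nonneg _) h.le
    obtain ⟨j, hj⟩ : ∃ j : ℕ, ⌈t⌉₊ = j + 1 := by
      have : 0 < ⌈t⌉₊ := Nat.ceil_pos.2 (lt_of_le_of_lt (Nat.cast_nonneg _) h)
      exact ⟨⌈t⌉₊ - 1, by omega⟩
    have hjt : (j : ℝ) < t := by
      apply Nat.lt_ceil.1; omega
    have htj : t ≤ (j : ℝ) + 1 := by
      have := Nat.le_ceil t
      rw [hj] at this
      push_cast at this; exact this
    have hlj : lam0 ≤ j := by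
      have : (lam0 : ℝ) < (j : ℝ) + 1 := lt_of_lt_of_le h htj
      have : lam0 < j + 1 := by exact_mod_cast this
      omega
    have hjM : j < M := by
      have : (j : ℝ) < M := lt_of_lt_of_le hjt ht
      exact_mod_cast this
    refine le_trans ?_ (Finset.single_le_sum hnn (Finset.mem_Ico.2 ⟨hlj, hjM⟩))
    simp only [if_pos hjt, mul_one]
    unfold Phi
    rw [if_pos h]
    exact pow_le_pow_left₀ ht0 htj r
  · unfold Phi
    rw [if_neg h]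
    exact Finset.sum_nonneg hnn

theorem j1739_series (r : ℕ) (s : ℝ) (h0 : 0 < s) (h1 : s < 1) :
    ∃ S : ℝ, 0 < S ∧ ∀ A : Finset ℕ, ∑ lam ∈ A, ((lam : ℝ) + 1) ^ r * s ^ lam ≤ S := by
  have hs : Summable (fun n : ℕ => ((n : ℝ)) ^ r * s ^ n) :=
    summable_pow_mul_geometric_of_norm_lt_one r (by rw [Real.norm_eq_abs, abs_of_pos h0]; exact h1)
  have hs2 : Summable (fun n : ℕ => ((n : ℝ) + 1) ^ r * s ^ n) := by
    have h3 := ((summable_nat_add_iff 1).2 hs).mul_left s⁻¹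
    refine h3.congr ?_
    intro n
    push_cast
    rw [pow_succ]
    field_simp
  refine ⟨∑' n : ℕ, ((n : ℝ) + 1) ^ r * s ^ n, ?_, ?_⟩
  · exact hs2.tsum_pos (fun n => by positivity) 0 (by positivity)
  · intro A
    exact hs2.sum_le_tsum A (fun n _ => by positivity)

theorem j1739_pt_le {d : Dat} {Ca : ℝ} {a : ℕ → ℤ → ℝ} (hw : WS d Ca a) (l : ℤ) (n : ℕ) (x : ℤ) :
    pt (atl d a l) n x ≤ (n + 1) * Ca := by
  have hCa : 0 ≤ Ca := by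
    have h1 := hw.nn 0 0
    have h2 := hw.w1 0 0
    have h3 : (0 : ℝ) < (1 / 2) ^ d.jj 0 0 := by positivity
    by_contra hcon
    push Not at hcon
    nlinarith
  have : ∀ i k, atl d a l i k ≤ Ca := by
    intro i k
    unfold atl
    split_ifs
    · refine (hw.w1 i k).trans ?_
      have : ((1 : ℝ) / 2) ^ d.jj i k ≤ 1 := pow_le_one₀ (by norm_num) (by norm_num)
      nlinarith
    · exact hCa
  unfold pt
  calc ∑ i ∈ Finset.range (n + 1), atl d a l i (x / 2 ^ i) ≤ ∑ i ∈ Finset.range (n + 1), Ca :=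
        Finset.sum_le_sum (fun i _ => this i _)
    _ = (n + 1) * Ca := by simp

theorem j1739_eid (l : ℤ) (n : ℕ) (p : ℝ) :
    e (-l) * ((2 : ℝ) ^ n) ^ p / 2 ^ n = (e (-l)) ^ p * (e (l + n)) ^ (p - 1) := by
  have hQ : (0 : ℝ) < 2 ^ n := by positivity
  have he := e_pos l
  rw [e_add, e_nat, Real.mul_rpow he.le hQ.le, e_neg, Real.inv_rpow he.le, Real.rpow_sub_one he.ne',
    Real.rpow_sub_one hQ.ne']
  have h1 : (e l) ^ p ≠ 0 := (Real.rpow_pos_of_pos he p).ne'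
  field_simp

open Classical in
theorem j1739_perZ {Ca : ℝ} {p : ℝ} {r n0 : ℕ} {ρ0 Cx : ℝ} (h0 : 0 < ρ0) (h1 : ρ0 < 1)
    (hCx : 0 < Cx) (d : Dat) (a : ℕ → ℤ → ℝ) (hw : WS d Ca a) (l : ℤ) (n : ℕ) (k0 : ℤ)
    (hE : ∀ lam : ℕ, n0 ≤ lam →
      (((dy n k0).filter (fun x => (lam : ℝ) < pt (atl d a l) n x)).card : ℝ) ≤ Cx * ρ0 ^ lam * 2 ^ n ∧
      (((dy n k0).filter (fun x => (lam : ℝ) < pt (atl d a l) n x)).card : ℝ) ≤
        Cx * ρ0 ^ lam * (e (-l) * chg d l n k0))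
    (U : ℤ → ℝ) (hU : ∀ n, 0 ≤ U n) (C' ε' : ℝ) (hC' : 0 < C') (hε : 0 < ε') (B : ℝ) (hB : 0 ≤ B)
    (hyp : ∀ E : Finset ℤ, E ⊆ dy n k0 →
      ∑ x ∈ E, U x ≤ C' * (((E.card : ℝ) / 2 ^ n) ^ ε' * B +
      ((E.card : ℝ) / 2 ^ n) * ∑' x : ℤ, U x * ((2 : ℝ) ^ n / (2 ^ n + |(x : ℝ) - k0 * 2 ^ n|)) ^ p))
    (lam0 : ℕ) (hlam : n0 ≤ lam0) (S1 S2 : ℝ)
    (hS1 : ∀ A : Finset ℕ, ∑ lam ∈ A, ((lam : ℝ) + 1) ^ r * (ρ0 ^ ε') ^ lam ≤ S1)
    (hS2 : ∀ A : Finset ℕ, ∑ lam ∈ A, ((lam : ℝ) + 1) ^ r * (√ρ0) ^ lam ≤ S2) :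
    ∑ x ∈ dy n k0, U x * Phi lam0 r (pt (atl d a l) n x) ≤
      (C' * Cx ^ ε' * S1) * B + (C' * Cx * S2 * (√ρ0) ^ lam0) * ((e (-l)) ^ p *
        (chg d l n k0 * (e (l + n)) ^ (p - 1) *
          ∑' x : ℤ, U x * ((2 : ℝ) ^ n + |(x : ℝ) - k0 * 2 ^ n|) ^ (-p))) := by
  have hQ : (0 : ℝ) < 2 ^ n := by positivity
  obtain ⟨W, hW⟩ : ∃ W, W = ∑' x : ℤ, U x * ((2 : ℝ) ^ n + |(x : ℝ) - k0 * 2 ^ n|) ^ (-p) := ⟨_, rfl⟩
  have hW0 : 0 ≤ W := by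
    rw [hW]; exact tsum_nonneg (fun x => mul_nonneg (hU x) (by positivity))
  have haZ : ∑' x : ℤ, U x * ((2 : ℝ) ^ n / (2 ^ n + |(x : ℝ) - k0 * 2 ^ n|)) ^ p =
      ((2 : ℝ) ^ n) ^ p * W := by
    rw [hW, ← tsum_mul_left]
    apply tsum_congr
    intro x
    rw [Real.div_rpow hQ.le (by positivity), Real.rpow_neg (by positivity)]
    ring
  have hchg : 0 ≤ chg d l n k0 :=
    Finset.sum_nonneg (fun y _ => mul_nonneg (d.m0 y) (d.dl_nonneg y l))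
  rw [haZ] at hyp
  rw [← hW]
  obtain ⟨M, hM⟩ := exists_nat_ge (((n : ℝ) + 1) * Ca)
  have hsq : 0 < √ρ0 := Real.sqrt_pos.2 h0
  have hsq1 : √ρ0 ≤ 1 := Real.sqrt_le_one.2 h1.le
  calc ∑ x ∈ dy n k0, U x * Phi lam0 r (pt (atl d a l) n x)
      ≤ ∑ x ∈ dy n k0, U x * ∑ lam ∈ Finset.Ico lam0 M,
          ((lam : ℝ) + 1) ^ r * (if (lam : ℝ) < pt (atl d a l) n x then 1 else 0) := by
        apply Finset.sum_le_sum
        intro x _
        apply mul_le_mul_of_nonneg_left _ (hU x)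
        exact j1739_layer lam0 r M _ ((j1739_pt_le hw l n x).trans hM)
    _ = ∑ lam ∈ Finset.Ico lam0 M, ((lam : ℝ) + 1) ^ r *
          ∑ x ∈ (dy n k0).filter (fun x => (lam : ℝ) < pt (atl d a l) n x), U x := by
        simp_rw [Finset.mul_sum]
        rw [Finset.sum_comm]
        apply Finset.sum_congr rfl
        intro lam _
        rw [Finset.sum_filter]
        apply Finset.sum_congr rfl
        intro x _
        split_ifs <;> ring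
    _ ≤ ∑ lam ∈ Finset.Ico lam0 M, ((C' * Cx ^ ε' * B) * (((lam : ℝ) + 1) ^ r * (ρ0 ^ ε') ^ lam) +
          (C' * Cx * (√ρ0) ^ lam0 * ((e (-l)) ^ p * (chg d l n k0 * (e (l + n)) ^ (p - 1) * W))) *
            (((lam : ℝ) + 1) ^ r * (√ρ0) ^ lam)) := by
        apply Finset.sum_le_sum
        intro lam hmem
        rw [Finset.mem_Ico] at hmem
        obtain ⟨hE1, hE2⟩ := hE lam (hlam.trans hmem.1)
        have hyp' := hyp ((dy n k0).filter (fun x => (lam : ℝ) < pt (atl d a l) n x))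
          (Finset.filter_subset _ _)
        obtain ⟨cd, hcd⟩ : ∃ cd : ℝ, cd = (((dy n k0).filter
          (fun x => (lam : ℝ) < pt (atl d a l) n x)).card : ℝ) := ⟨_, rfl⟩
        rw [← hcd] at hE1 hE2 hyp'
        have hcd0 : 0 ≤ cd := by rw [hcd]; positivity
        have hg1 : (cd / 2 ^ n) ^ ε' ≤ Cx ^ ε' * (ρ0 ^ ε') ^ lam := by
          have : cd / 2 ^ n ≤ Cx * ρ0 ^ lam := by rw [div_le_iff₀ hQ]; exact hE1
          refine (Real.rpow_le_rpow (by positivity) this hε.le).trans (le_of_eq ?_)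
          rw [Real.mul_rpow hCx.le (by positivity), ← Real.rpow_natCast, ← Real.rpow_natCast,
            ← Real.rpow_mul h0.le, ← Real.rpow_mul h0.le, mul_comm (lam : ℝ)]
        have hg2 : (cd / 2 ^ n) * (((2 : ℝ) ^ n) ^ p * W) ≤ Cx * (√ρ0) ^ lam0 * (√ρ0) ^ lam *
            ((e (-l)) ^ p * (chg d l n k0 * (e (l + n)) ^ (p - 1) * W)) := by
          have hr : ρ0 ^ lam ≤ (√ρ0) ^ lam0 * (√ρ0) ^ lam := by
            have : ρ0 ^ lam = (√ρ0) ^ lam * (√ρ0) ^ lam := by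
              rw [← mul_pow, Real.mul_self_sqrt h0.le]
            rw [this]
            apply mul_le_mul_of_nonneg_right _ (by positivity)
            exact pow_le_pow_of_le_one hsq.le hsq1 hmem.1
          have hpp : 0 ≤ e (-l) * chg d l n k0 := mul_nonneg (e_pos _).le hchg
          have h5 : cd ≤ Cx * ((√ρ0) ^ lam0 * (√ρ0) ^ lam) * (e (-l) * chg d l n k0) := by
            refine hE2.trans ?_
            apply mul_le_mul_of_nonneg_right _ hpp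
            exact mul_le_mul_of_nonneg_left hr hCx.le
          have h6 : 0 ≤ ((2 : ℝ) ^ n) ^ p * W / 2 ^ n := by positivity
          calc (cd / 2 ^ n) * (((2 : ℝ) ^ n) ^ p * W) = cd * (((2 : ℝ) ^ n) ^ p * W / 2 ^ n) := by ring
            _ ≤ (Cx * ((√ρ0) ^ lam0 * (√ρ0) ^ lam) * (e (-l) * chg d l n k0)) *
                (((2 : ℝ) ^ n) ^ p * W / 2 ^ n) := mul_le_mul_of_nonneg_right h5 h6
            _ = Cx * (√ρ0) ^ lam0 * (√ρ0) ^ lam * chg d l n k0 * W *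
                (e (-l) * ((2 : ℝ) ^ n) ^ p / 2 ^ n) := by ring
            _ = _ := by rw [j1739_eid]; ring
        have hlp : (0 : ℝ) ≤ ((lam : ℝ) + 1) ^ r := by positivity
        calc ((lam : ℝ) + 1) ^ r * ∑ x ∈ (dy n k0).filter
              (fun x => (lam : ℝ) < pt (atl d a l) n x), U x
            ≤ ((lam : ℝ) + 1) ^ r * (C' * ((cd / 2 ^ n) ^ ε' * B +
              (cd / 2 ^ n) * (((2 : ℝ) ^ n) ^ p * W))) := mul_le_mul_of_nonneg_left hyp' hlp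
          _ ≤ ((lam : ℝ) + 1) ^ r * (C' * ((Cx ^ ε' * (ρ0 ^ ε') ^ lam) * B +
              Cx * (√ρ0) ^ lam0 * (√ρ0) ^ lam *
              ((e (-l)) ^ p * (chg d l n k0 * (e (l + n)) ^ (p - 1) * W)))) := by
                apply mul_le_mul_of_nonneg_left _ hlp
                apply mul_le_mul_of_nonneg_left _ hC'.le
                exact add_le_add (mul_le_mul_of_nonneg_right hg1 hB) hg2
          _ = _ := by ring
    _ = (C' * Cx ^ ε' * B) * ∑ lam ∈ Finset.Ico lam0 M, (((lam : ℝ) + 1) ^ r * (ρ0 ^ ε') ^ lam) +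
          (C' * Cx * (√ρ0) ^ lam0 * ((e (-l)) ^ p * (chg d l n k0 * (e (l + n)) ^ (p - 1) * W))) *
            ∑ lam ∈ Finset.Ico lam0 M, (((lam : ℝ) + 1) ^ r * (√ρ0) ^ lam) := by
        rw [Finset.sum_add_distrib, Finset.mul_sum, Finset.mul_sum]
    _ ≤ (C' * Cx ^ ε' * B) * S1 +
          (C' * Cx * (√ρ0) ^ lam0 * ((e (-l)) ^ p * (chg d l n k0 * (e (l + n)) ^ (p - 1) * W))) *
            S2 := by
        have := e_pos (-l)
        have := e_pos (l + n)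
        apply add_le_add
        · exact mul_le_mul_of_nonneg_left (hS1 _) (by positivity)
        · exact mul_le_mul_of_nonneg_left (hS2 _) (by positivity)
    _ = _ := by ring

theorem j1739_ofReal_tsum {f : ℤ → ℝ} (hf : ∀ x, 0 ≤ f x) :
    ENNReal.ofReal (∑' x, f x) ≤ ∑' x, ENNReal.ofReal (f x) := by
  by_cases h : Summable f
  · rw [ENNReal.ofReal_tsum_of_nonneg hf h]
  · rw [tsum_eq_zero_of_not_summable h]; simp


theorem j1739_count (d : Dat) (l : ℤ) (Zs : Finset (ℕ × ℤ))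
    (hZ : ∀ Z ∈ Zs, 1 ≤ Z.1 ∧ d.L Z.1 Z.2 l ∧ ¬ d.L (Z.1 + 1) (Z.2 / 2) l) (x : ℤ) :
    (Zs.filter (fun Z => |x - Z.2 * 2 ^ Z.1| ≤ 2 ^ (Z.1 + d.c0 - 3))).card ≤
      3 * (2 ^ (d.c0 - 2) + 1) := by
  classical
  have hsub : Zs.filter (fun Z => |x - Z.2 * 2 ^ Z.1| ≤ 2 ^ (Z.1 + d.c0 - 3)) ⊆
      (Finset.Icc (d.isc x l - 1) (d.isc x l + 1)).biUnion (fun n =>
        (Finset.Icc (x / 2 ^ n - 2 ^ (d.c0 - 3)) (x / 2 ^ n + 2 ^ (d.c0 - 3))).image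
          (fun k => (n, k))) := by
    intro Z hmem
    rw [Finset.mem_filter] at hmem
    obtain ⟨hZm, hx⟩ := hmem
    obtain ⟨h1, h2, h3⟩ := hZ Z hZm
    obtain ⟨_, h4, h5⟩ := j1739_ov d h1 h2 h3 hx
    rw [Finset.mem_biUnion]
    refine ⟨Z.1, Finset.mem_Icc.2 ⟨by omega, by omega⟩, ?_⟩
    rw [Finset.mem_image]
    refine ⟨Z.2, ?_, rfl⟩
    obtain ⟨c, hc⟩ : ∃ c, d.c0 = c + 3 := ⟨d.c0 - 3, by have := d.hc0; omega⟩
    have e0 : Z.1 + d.c0 - 3 = Z.1 + c := by omega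
    have e1 : d.c0 - 3 = c := by omega
    rw [e0, pow_add] at hx
    rw [e1]
    obtain ⟨Q, hQ⟩ : ∃ Q : ℤ, Q = 2 ^ Z.1 := ⟨_, rfl⟩
    have hQ0 : 0 < Q := by rw [hQ]; positivity
    rw [← hQ] at hx ⊢
    obtain ⟨hx1, hx2⟩ := abs_le.1 hx
    rw [Finset.mem_Icc]
    have a1 : x / Q * Q ≤ x := Int.ediv_mul_le x hQ0.ne'
    have a2 : x < (x / Q + 1) * Q := Int.lt_ediv_add_one_mul_self x hQ0
    constructor
    · have : (x / Q) * Q ≤ (Z.2 + 2 ^ c) * Q := by linarith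
      have := le_of_mul_le_mul_right this hQ0
      omega
    · have : Z.2 * Q < (x / Q + 1 + 2 ^ c) * Q := by linarith
      have := lt_of_mul_lt_mul_right this hQ0.le
      omega
  refine (Finset.card_le_card hsub).trans (Finset.card_biUnion_le.trans ?_)
  have hc : ∀ n ∈ Finset.Icc (d.isc x l - 1) (d.isc x l + 1),
      ((Finset.Icc (x / 2 ^ n - 2 ^ (d.c0 - 3)) (x / 2 ^ n + 2 ^ (d.c0 - 3))).image
          (fun k => (n, k))).card ≤ 2 ^ (d.c0 - 2) + 1 := by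
    intro n _
    refine Finset.card_image_le.trans ?_
    rw [Int.card_Icc]
    have e1 : (2 : ℤ) ^ (d.c0 - 2) = 2 * 2 ^ (d.c0 - 3) := by
      have : d.c0 - 2 = (d.c0 - 3) + 1 := by have := d.hc0; omega
      rw [this]; ring
    have e2 : (((2 ^ (d.c0 - 2) + 1 : ℕ)) : ℤ) = 2 * 2 ^ (d.c0 - 3) + 1 := by
      push_cast; rw [e1]
    have e3 : (0 : ℤ) < 2 ^ (d.c0 - 3) := by positivity
    omega
  refine (Finset.sum_le_sum hc).trans ?_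
  rw [Finset.sum_const, smul_eq_mul]
  apply Nat.mul_le_mul_right
  rw [Nat.card_Icc]
  omega

theorem j1739_partI (d : Dat) (l : ℤ) (Zs : Finset (ℕ × ℤ))
    (hZ : ∀ Z ∈ Zs, 1 ≤ Z.1 ∧ d.L Z.1 Z.2 l ∧ ¬ d.L (Z.1 + 1) (Z.2 / 2) l) (U : ℤ → ℝ) :
    ∑ Z ∈ Zs, ∑ x ∈ Finset.Icc (Z.2 * 2 ^ Z.1 - 2 ^ (Z.1 + d.c0 - 3))
      (Z.2 * 2 ^ Z.1 + 2 ^ (Z.1 + d.c0 - 3)), ENNReal.ofReal (U x) ≤
    ((3 * (2 ^ (d.c0 - 2) + 1) : ℕ) : ENNReal) *
      ∑' x : ℤ, ENNReal.ofReal (if l ≤ d.lev 0 x then U x else 0) := by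
  classical
  have hsw : ∑ Z ∈ Zs, ∑ x ∈ Finset.Icc (Z.2 * 2 ^ Z.1 - 2 ^ (Z.1 + d.c0 - 3))
      (Z.2 * 2 ^ Z.1 + 2 ^ (Z.1 + d.c0 - 3)), ENNReal.ofReal (U x) =
      ∑ x ∈ Zs.biUnion (fun Z => Finset.Icc (Z.2 * 2 ^ Z.1 - 2 ^ (Z.1 + d.c0 - 3))
      (Z.2 * 2 ^ Z.1 + 2 ^ (Z.1 + d.c0 - 3))),
      ∑ Z ∈ Zs.filter (fun Z => |x - Z.2 * 2 ^ Z.1| ≤ 2 ^ (Z.1 + d.c0 - 3)),
        ENNReal.ofReal (U x) := by
    apply Finset.sum_comm'
    intro Z x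
    rw [Finset.mem_filter, Finset.mem_biUnion, abs_le, Finset.mem_Icc]
    constructor
    · rintro ⟨h1, h2, h3⟩
      exact ⟨⟨h1, by omega, by omega⟩, Z, h1, Finset.mem_Icc.2 ⟨h2, h3⟩⟩
    · rintro ⟨⟨h1, h2, h3⟩, _⟩
      exact ⟨h1, by omega, by omega⟩
  rw [hsw, ← ENNReal.tsum_mul_left]
  refine le_trans (Finset.sum_le_sum ?_) (ENNReal.sum_le_tsum _)
  intro x _
  rw [Finset.sum_const, nsmul_eq_mul]
  by_cases hx : l ≤ d.lev 0 x
  · rw [if_pos hx]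
    gcongr
    exact j1739_count d l Zs hZ x
  · have : Zs.filter (fun Z => |x - Z.2 * 2 ^ Z.1| ≤ 2 ^ (Z.1 + d.c0 - 3)) = ∅ := by
      rw [Finset.filter_eq_empty_iff]
      intro Z hZm hcon
      obtain ⟨h1, h2, h3⟩ := hZ Z hZm
      exact hx (j1739_ov d h1 h2 h3 hcon).1
    rw [this]; simp

theorem j1739_term (d : Dat) (l : ℤ) (p : ℝ) (hp : 1 < p) (U : ℤ → ℝ) (hU : ∀ x, 0 ≤ U x)
    {n : ℕ} {k0 y : ℤ} (hn : 1 ≤ n) (h1 : d.L n k0 l)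
    (h2 : ¬ d.L (n + 1) (k0 / 2) l) (hy : |y - k0 * 2 ^ n| ≤ 2 ^ (n + d.c0 - 3)) :
    ENNReal.ofReal (d.m y * d.dl y l * (e (l + n)) ^ (p - 1)) *
      ∑' x : ℤ, ENNReal.ofReal (U x * ((2 : ℝ) ^ n + |(x : ℝ) - k0 * 2 ^ n|) ^ (-p)) ≤
    ENNReal.ofReal ((2 : ℝ) ^ (p - 1) * ((2 : ℝ) ^ d.c0) ^ p) *
      (ENNReal.ofReal (if l ≤ d.lev 0 y then d.m y * d.dl y l * (e (l + d.isc y l)) ^ (p - 1) else 0) *
      ∑' x : ℤ, ENNReal.ofReal (U x * ((2 : ℝ) ^ (d.isc y l) + |(x : ℝ) - y|) ^ (-p))) := by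
  obtain ⟨hl, h4, h5⟩ := j1739_ov d hn h1 h2 hy
  rw [if_pos hl]
  have hm := d.m0 y
  have hdl := d.dl_nonneg y l
  have f1 : ENNReal.ofReal (d.m y * d.dl y l * (e (l + n)) ^ (p - 1)) ≤
      ENNReal.ofReal ((2 : ℝ) ^ (p - 1)) *
        ENNReal.ofReal (d.m y * d.dl y l * (e (l + d.isc y l)) ^ (p - 1)) := by
    rw [← ENNReal.ofReal_mul (by positivity)]
    apply ENNReal.ofReal_le_ofReal
    have h6 : e (l + n) ≤ 2 * e (l + d.isc y l) := by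
      rw [← e_succ]; apply e_le; omega
    have h7 : (e (l + n)) ^ (p - 1) ≤ (2 : ℝ) ^ (p - 1) * (e (l + d.isc y l)) ^ (p - 1) := by
      rw [← Real.mul_rpow (by norm_num) (e_pos _).le]
      exact Real.rpow_le_rpow (e_pos _).le h6 (by linarith)
    calc d.m y * d.dl y l * (e (l + n)) ^ (p - 1) ≤
        d.m y * d.dl y l * ((2 : ℝ) ^ (p - 1) * (e (l + d.isc y l)) ^ (p - 1)) := by gcongr
      _ = _ := by ring
  have f2 : ∑' x : ℤ, ENNReal.ofReal (U x * ((2 : ℝ) ^ n + |(x : ℝ) - k0 * 2 ^ n|) ^ (-p)) ≤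
      ENNReal.ofReal (((2 : ℝ) ^ d.c0) ^ p) *
        ∑' x : ℤ, ENNReal.ofReal (U x * ((2 : ℝ) ^ (d.isc y l) + |(x : ℝ) - y|) ^ (-p)) := by
    rw [← ENNReal.tsum_mul_left]
    apply ENNReal.tsum_le_tsum
    intro x
    rw [← ENNReal.ofReal_mul (by positivity)]
    apply ENNReal.ofReal_le_ofReal
    obtain ⟨c, hc⟩ : ∃ c, d.c0 = c + 4 := ⟨d.c0 - 4, by have := d.hc0; omega⟩
    have hyR : |(y : ℝ) - k0 * 2 ^ n| ≤ 2 ^ (n + d.c0 - 3) := by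
      have : ((|y - k0 * 2 ^ n| : ℤ) : ℝ) ≤ ((2 ^ (n + d.c0 - 3) : ℤ) : ℝ) := by exact_mod_cast hy
      push_cast at this; exact this
    have e1 : (2 : ℝ) ^ (n + d.c0 - 3) = 2 ^ n * (2 ^ c * 2) := by
      have : n + d.c0 - 3 = n + (c + 1) := by omega
      rw [this, pow_add, pow_succ]
    have e2 : (2 : ℝ) ^ d.c0 = 2 ^ c * 16 := by rw [hc, pow_add]; norm_num
    have h6 : (2 : ℝ) ^ (d.isc y l) ≤ 2 * 2 ^ n := by
      have : (2 : ℝ) ^ (d.isc y l) ≤ 2 ^ (n + 1) := pow_le_pow_right₀ (by norm_num) h5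
      rw [pow_succ] at this; linarith
    have hQ : (0 : ℝ) < 2 ^ n := by positivity
    have hc1 : (1 : ℝ) ≤ 2 ^ c := one_le_pow₀ (by norm_num)
    have h7 : |(x : ℝ) - y| ≤ |(x : ℝ) - k0 * 2 ^ n| + |(y : ℝ) - k0 * 2 ^ n| := by
      have := abs_sub_le (x : ℝ) (k0 * 2 ^ n) y
      rw [abs_sub_comm (k0 * 2 ^ n : ℝ) (y : ℝ)] at this
      exact this
    have h8 : (2 : ℝ) ^ (d.isc y l) + |(x : ℝ) - y| ≤
        (2 : ℝ) ^ d.c0 * (2 ^ n + |(x : ℝ) - k0 * 2 ^ n|) := by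
      rw [e1] at hyR
      rw [e2]
      have := abs_nonneg ((x : ℝ) - k0 * 2 ^ n)
      nlinarith [mul_nonneg (sub_nonneg.2 hc1) hQ.le, mul_nonneg (sub_nonneg.2 hc1) this]
    have h9 : ((2 : ℝ) ^ n + |(x : ℝ) - k0 * 2 ^ n|) ^ (-p) ≤
        ((2 : ℝ) ^ d.c0) ^ p * ((2 : ℝ) ^ (d.isc y l) + |(x : ℝ) - y|) ^ (-p) := by
      have h10 := Real.rpow_le_rpow_of_nonpos (z := -p) (by positivity) h8 (by linarith)
      rw [Real.mul_rpow (by positivity) (by positivity)] at h10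
      have h11 : ((2 : ℝ) ^ d.c0) ^ p * ((2 : ℝ) ^ d.c0) ^ (-p) = 1 := by
        rw [← Real.rpow_add (by positivity)]; simp
      calc ((2 : ℝ) ^ n + |(x : ℝ) - k0 * 2 ^ n|) ^ (-p)
          = ((2 : ℝ) ^ d.c0) ^ p * (((2 : ℝ) ^ d.c0) ^ (-p) *
              ((2 : ℝ) ^ n + |(x : ℝ) - k0 * 2 ^ n|) ^ (-p)) := by
            rw [← mul_assoc, h11, one_mul]
        _ ≤ _ := mul_le_mul_of_nonneg_left h10 (by positivity)
    calc U x * ((2 : ℝ) ^ n + |(x : ℝ) - k0 * 2 ^ n|) ^ (-p) ≤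
        U x * (((2 : ℝ) ^ d.c0) ^ p * ((2 : ℝ) ^ (d.isc y l) + |(x : ℝ) - y|) ^ (-p)) :=
          mul_le_mul_of_nonneg_left h9 (hU x)
      _ = _ := by ring
  have f3 : ENNReal.ofReal ((2 : ℝ) ^ (p - 1) * ((2 : ℝ) ^ d.c0) ^ p) =
      ENNReal.ofReal ((2 : ℝ) ^ (p - 1)) * ENNReal.ofReal (((2 : ℝ) ^ d.c0) ^ p) :=
    ENNReal.ofReal_mul (by positivity)
  rw [f3]
  refine (mul_le_mul' f1 f2).trans (le_of_eq ?_)
  rw [mul_mul_mul_comm]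

theorem j1739_partII (d : Dat) (l : ℤ) (Zs : Finset (ℕ × ℤ))
    (hZ : ∀ Z ∈ Zs, 1 ≤ Z.1 ∧ d.L Z.1 Z.2 l ∧ ¬ d.L (Z.1 + 1) (Z.2 / 2) l) (p : ℝ) (hp : 1 < p)
    (U : ℤ → ℝ) (hU : ∀ x, 0 ≤ U x) :
    ∑ Z ∈ Zs, ∑ y ∈ d.F.filter (fun y => |y - Z.2 * 2 ^ Z.1| ≤ 2 ^ (Z.1 + d.c0 - 3)),
      ENNReal.ofReal (d.m y * d.dl y l * (e (l + Z.1)) ^ (p - 1)) *
      ∑' x : ℤ, ENNReal.ofReal (U x * ((2 : ℝ) ^ Z.1 + |(x : ℝ) - Z.2 * 2 ^ Z.1|) ^ (-p)) ≤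
    ((3 * (2 ^ (d.c0 - 2) + 1) : ℕ) : ENNReal) *
      ENNReal.ofReal ((2 : ℝ) ^ (p - 1) * ((2 : ℝ) ^ d.c0) ^ p) *
      ∑ y ∈ d.F, ENNReal.ofReal
        (if l ≤ d.lev 0 y then d.m y * d.dl y l * (e (l + d.isc y l)) ^ (p - 1) else 0) *
      ∑' x : ℤ, ENNReal.ofReal (U x * ((2 : ℝ) ^ (d.isc y l) + |(x : ℝ) - y|) ^ (-p)) := by
  classical
  have hsw : ∑ Z ∈ Zs, ∑ y ∈ d.F.filter (fun y => |y - Z.2 * 2 ^ Z.1| ≤ 2 ^ (Z.1 + d.c0 - 3)),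
      ENNReal.ofReal (d.m y * d.dl y l * (e (l + Z.1)) ^ (p - 1)) *
      ∑' x : ℤ, ENNReal.ofReal (U x * ((2 : ℝ) ^ Z.1 + |(x : ℝ) - Z.2 * 2 ^ Z.1|) ^ (-p)) =
      ∑ y ∈ d.F, ∑ Z ∈ Zs.filter (fun Z => |y - Z.2 * 2 ^ Z.1| ≤ 2 ^ (Z.1 + d.c0 - 3)),
      ENNReal.ofReal (d.m y * d.dl y l * (e (l + Z.1)) ^ (p - 1)) *
      ∑' x : ℤ, ENNReal.ofReal (U x * ((2 : ℝ) ^ Z.1 + |(x : ℝ) - Z.2 * 2 ^ Z.1|) ^ (-p)) := by
    apply Finset.sum_comm'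
    intro Z y
    rw [Finset.mem_filter, Finset.mem_filter]
    tauto
  rw [hsw, Finset.mul_sum]
  apply Finset.sum_le_sum
  intro y _
  calc _ ≤ ∑ Z ∈ Zs.filter (fun Z => |y - Z.2 * 2 ^ Z.1| ≤ 2 ^ (Z.1 + d.c0 - 3)),
        ENNReal.ofReal ((2 : ℝ) ^ (p - 1) * ((2 : ℝ) ^ d.c0) ^ p) *
        (ENNReal.ofReal
          (if l ≤ d.lev 0 y then d.m y * d.dl y l * (e (l + d.isc y l)) ^ (p - 1) else 0) *
        ∑' x : ℤ, ENNReal.ofReal (U x * ((2 : ℝ) ^ (d.isc y l) + |(x : ℝ) - y|) ^ (-p))) := by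
        apply Finset.sum_le_sum
        intro Z hmem
        rw [Finset.mem_filter] at hmem
        obtain ⟨h1, h2, h3⟩ := hZ Z hmem.1
        exact j1739_term d l p hp U hU h1 h2 h3 hmem.2
    _ ≤ _ := by
        rw [Finset.sum_const, nsmul_eq_mul, mul_assoc ((3 * (2 ^ (d.c0 - 2) + 1) : ℕ) : ENNReal)]
        apply mul_le_mul' _ le_rfl
        exact_mod_cast j1739_count d l Zs hZ y

theorem j1739_pt_isc (d : Dat) {Ca : ℝ} {a : ℕ → ℤ → ℝ} (hw : WS d Ca a) (l : ℤ) (T : ℕ) (x : ℤ)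
    (hpos : 0 < pt (atl d a l) T x) :
    l ≤ d.lev 0 x ∧ pt (atl d a l) T x ≤ pt (atl d a l) (d.isc x l) x := by
  classical
  have hnn : ∀ i k, 0 ≤ atl d a l i k := by
    intro i k; unfold atl; split_ifs
    · exact hw.nn i k
    · exact le_rfl
  have hl : l ≤ d.lev 0 x := by
    obtain ⟨i, _, hi⟩ : ∃ i ∈ Finset.range (T + 1), 0 < atl d a l i (x / 2 ^ i) := by
      by_contra hcon
      push Not at hcon
      exact absurd hpos (not_lt.2 (Finset.sum_nonpos hcon))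
    have hlev : d.lev i (x / 2 ^ i) = l := by
      by_contra hne
      unfold atl at hi
      rw [if_neg hne] at hi
      exact lt_irrefl _ hi
    have := d.lev_chain' (Nat.zero_le i) x
    rw [pow_zero, Int.ediv_one, hlev] at this
    exact this
  refine ⟨hl, ?_⟩
  unfold pt
  have h1 : ∑ i ∈ Finset.range (T + 1), atl d a l i (x / 2 ^ i) =
      ∑ i ∈ (Finset.range (T + 1)).filter (fun i => i ≤ d.isc x l), atl d a l i (x / 2 ^ i) := by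
    symm
    apply Finset.sum_filter_of_ne
    intro i _ hne
    have hlev : d.lev i (x / 2 ^ i) = l := by
      by_contra hne'
      unfold atl at hne
      rw [if_neg hne'] at hne
      exact hne rfl
    exact (d.isc_iff hl i).1 (d.L_iff.2 hlev.ge)
  rw [h1]
  apply Finset.sum_le_sum_of_subset_of_nonneg
  · intro i hi
    rw [Finset.mem_filter] at hi
    rw [Finset.mem_range]; omega
  · intro i _ _; exact hnn _ _

/-! ## TARGET -/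

theorem mainW (hX : Excess) : MainW := by
  classical
  intro p hp c0 C' ε' hc0 hC' hε' Ca r hCa hr
  obtain ⟨n0, ρ0, Cx, hρ0, hρ1, hCx, hCn, hEx⟩ := hX Ca hCa
  obtain ⟨S1, hS1p, hS1⟩ := j1739_series r (ρ0 ^ ε') (by positivity)
    (Real.rpow_lt_one hρ0.le hρ1 hε')
  have hsq : 0 < √ρ0 := Real.sqrt_pos.2 hρ0
  have hsq1 : √ρ0 < 1 := by
    rw [Real.sqrt_lt' one_pos]; simpa using hρ1
  obtain ⟨S2, hS2p, hS2⟩ := j1739_series r (√ρ0) hsq hsq1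
  obtain ⟨N0, hN0⟩ : ∃ N0 : ℕ, N0 = 3 * (2 ^ (c0 - 2) + 1) := ⟨_, rfl⟩
  have hN0p : 0 < N0 := by rw [hN0]; positivity
  obtain ⟨K1, hK1⟩ : ∃ K1 : ℝ, K1 = C' * Cx ^ ε' * S1 := ⟨_, rfl⟩
  obtain ⟨K2, hK2⟩ : ∃ K2 : ℝ, K2 = C' * Cx * S2 := ⟨_, rfl⟩
  obtain ⟨E, hE⟩ : ∃ E : ℝ, E = (2 : ℝ) ^ (p - 1) * ((2 : ℝ) ^ c0) ^ p := ⟨_, rfl⟩
  have hK1p : 0 < K1 := by rw [hK1]; positivity
  have hK2p : 0 < K2 := by rw [hK2]; positivity
  have hEp : 0 < E := by rw [hE]; positivity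
  refine ⟨n0, √ρ0, K1 * N0 + K2 * (N0 * E), hsq, hsq1, by positivity, ?_⟩
  intro d hd U hU _ hyp a hw lam0 hlam l X T
  subst hd
  -- the set of stopping intervals
  obtain ⟨X', hX'⟩ : ∃ X' : Finset ℤ, X' = X.filter (fun x => (lam0 : ℝ) < pt (atl d a l) T x) :=
    ⟨_, rfl⟩
  obtain ⟨φ, hφ⟩ : ∃ φ : ℤ → ℕ × ℤ, φ = fun x => (d.isc x l, x / 2 ^ (d.isc x l)) := ⟨_, rfl⟩
  obtain ⟨Zs, hZs⟩ : ∃ Zs : Finset (ℕ × ℤ), Zs = X'.image φ := ⟨_, rfl⟩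
  have hX'f : ∀ x ∈ X', l ≤ d.lev 0 x ∧ pt (atl d a l) T x ≤ pt (atl d a l) (d.isc x l) x ∧
      (lam0 : ℝ) < pt (atl d a l) T x := by
    intro x hx
    rw [hX', Finset.mem_filter] at hx
    have h := j1739_pt_isc d hw l T x (lt_of_le_of_lt (Nat.cast_nonneg _) hx.2)
    exact ⟨h.1, h.2, hx.2⟩
  have hZ : ∀ Z ∈ Zs, 1 ≤ Z.1 ∧ d.L Z.1 Z.2 l ∧ ¬ d.L (Z.1 + 1) (Z.2 / 2) l := by
    intro Z hZm
    rw [hZs, Finset.mem_image] at hZm
    obtain ⟨x, hx, rfl⟩ := hZm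
    obtain ⟨hl, h1, h2⟩ := hX'f x hx
    rw [hφ]
    refine ⟨?_, (d.isc_iff hl _).2 le_rfl, ?_⟩
    · show 1 ≤ d.isc x l
      by_contra hcon
      have h3 : d.isc x l = 0 := by omega
      rw [h3] at h1
      have h4 : pt (atl d a l) 0 x ≤ Ca := by
        have := j1739_pt_le hw l 0 x
        simpa using this
      have h5 : Ca ≤ lam0 := hCn.trans (by exact_mod_cast hlam)
      linarith
    · show ¬ d.L (d.isc x l + 1) (x / 2 ^ (d.isc x l) / 2) l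
      rw [← ediv_pow_succ]
      intro hcon
      have := (d.isc_iff hl _).1 hcon
      omega
  have hstep1 : ∑ x ∈ X, ENNReal.ofReal (U x * Phi lam0 r (pt (atl d a l) T x)) ≤
      ∑ Z ∈ Zs, ∑ x ∈ dy Z.1 Z.2, ENNReal.ofReal (U x * Phi lam0 r (pt (atl d a l) Z.1 x)) := by
    have h1 : ∑ x ∈ X, ENNReal.ofReal (U x * Phi lam0 r (pt (atl d a l) T x)) =
        ∑ x ∈ X', ENNReal.ofReal (U x * Phi lam0 r (pt (atl d a l) T x)) := by
      rw [hX']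
      symm
      apply Finset.sum_filter_of_ne
      intro x _ hne
      by_contra hcon
      apply hne
      unfold Phi
      rw [if_neg hcon]; simp
    rw [h1, ← Finset.sum_fiberwise_of_maps_to (s := X') (t := Zs) (g := φ)
      (fun x hx => by rw [hZs]; exact Finset.mem_image_of_mem _ hx)]
    apply Finset.sum_le_sum
    intro Z _
    calc _ ≤ ∑ x ∈ X'.filter (fun x => φ x = Z),
          ENNReal.ofReal (U x * Phi lam0 r (pt (atl d a l) Z.1 x)) := by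
          apply Finset.sum_le_sum
          intro x hx
          rw [Finset.mem_filter] at hx
          have h2 : d.isc x l = Z.1 := by rw [← hx.2, hφ]
          apply ENNReal.ofReal_le_ofReal
          apply mul_le_mul_of_nonneg_left _ (hU x)
          apply j1739_Phi_mono
          rw [← h2]
          exact (hX'f x hx.1).2.1
      _ ≤ _ := by
          apply Finset.sum_le_sum_of_subset
          intro x hx
          rw [Finset.mem_filter] at hx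
          rw [mem_dy, ← hx.2, hφ]
  refine hstep1.trans ?_
  have hstep2 : ∀ Z ∈ Zs, ∑ x ∈ dy Z.1 Z.2, ENNReal.ofReal (U x * Phi lam0 r (pt (atl d a l) Z.1 x)) ≤
      ENNReal.ofReal K1 * ∑ x ∈ Finset.Icc (Z.2 * 2 ^ Z.1 - 2 ^ (Z.1 + d.c0 - 3))
        (Z.2 * 2 ^ Z.1 + 2 ^ (Z.1 + d.c0 - 3)), ENNReal.ofReal (U x) +
      ENNReal.ofReal (K2 * (√ρ0) ^ lam0) * ENNReal.ofReal ((e (-l)) ^ p) *
      ∑ y ∈ d.F.filter (fun y => |y - Z.2 * 2 ^ Z.1| ≤ 2 ^ (Z.1 + d.c0 - 3)),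
      ENNReal.ofReal (d.m y * d.dl y l * (e (l + Z.1)) ^ (p - 1)) *
      ∑' x : ℤ, ENNReal.ofReal (U x * ((2 : ℝ) ^ Z.1 + |(x : ℝ) - Z.2 * 2 ^ Z.1|) ^ (-p)) := by
    intro Z _
    have h1 := j1739_perZ (p := p) (r := r) (n0 := n0) hρ0 hρ1 hCx d a hw l Z.1 Z.2
      (fun lam hl => hEx d a hw l Z.1 Z.2 lam hl) U hU C' ε' hC' hε'
      (∑ x ∈ Finset.Icc (Z.2 * 2 ^ Z.1 - 2 ^ (Z.1 + d.c0 - 3))
        (Z.2 * 2 ^ Z.1 + 2 ^ (Z.1 + d.c0 - 3)), U x) (Finset.sum_nonneg (fun x _ => hU x))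
      (hyp Z.1 Z.2) lam0 hlam S1 S2 hS1 hS2
    rw [← hK1, ← hK2] at h1
    rw [← ENNReal.ofReal_sum_of_nonneg (fun x _ => mul_nonneg (hU x) (j1739_Phi_nonneg _ _ _))]
    refine (ENNReal.ofReal_le_ofReal h1).trans ?_
    have hB : 0 ≤ ∑ x ∈ Finset.Icc (Z.2 * 2 ^ Z.1 - 2 ^ (Z.1 + d.c0 - 3))
        (Z.2 * 2 ^ Z.1 + 2 ^ (Z.1 + d.c0 - 3)), U x := Finset.sum_nonneg (fun x _ => hU x)
    have hchg : 0 ≤ chg d l Z.1 Z.2 :=
      Finset.sum_nonneg (fun y _ => mul_nonneg (d.m0 y) (d.dl_nonneg y l))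
    have hel := e_pos (-l)
    have heln := e_pos (l + Z.1)
    have hW : 0 ≤ ∑' x : ℤ, U x * ((2 : ℝ) ^ Z.1 + |(x : ℝ) - Z.2 * 2 ^ Z.1|) ^ (-p) :=
      tsum_nonneg (fun x => mul_nonneg (hU x) (by positivity))
    rw [ENNReal.ofReal_add (by positivity) (by positivity)]
    apply add_le_add
    · rw [ENNReal.ofReal_mul hK1p.le, ENNReal.ofReal_sum_of_nonneg (fun x _ => hU x)]
    · have g1 : 0 ≤ K2 * (√ρ0) ^ lam0 := by positivity
      have g2 : 0 ≤ (e (-l)) ^ p := by positivity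
      have g3 : 0 ≤ chg d l Z.1 Z.2 * (e (l + Z.1)) ^ (p - 1) := by positivity
      rw [ENNReal.ofReal_mul g1, ENNReal.ofReal_mul g2, ENNReal.ofReal_mul g3,
        mul_assoc (ENNReal.ofReal (K2 * (√ρ0) ^ lam0))]
      apply mul_le_mul' le_rfl
      apply mul_le_mul' le_rfl
      rw [← Finset.sum_mul]
      apply mul_le_mul'
      · unfold chg
        rw [Finset.sum_mul, ENNReal.ofReal_sum_of_nonneg]
        intro y _
        have := d.m0 y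
        have := d.dl_nonneg y l
        positivity
      · exact j1739_ofReal_tsum (fun x => mul_nonneg (hU x) (by positivity))
  refine (Finset.sum_le_sum hstep2).trans ?_
  rw [Finset.sum_add_distrib, ← Finset.mul_sum, ← Finset.mul_sum]
  apply add_le_add
  · refine (mul_le_mul' le_rfl (j1739_partI d l Zs hZ U)).trans ?_
    rw [← mul_assoc, ← hN0]
    apply mul_le_mul' _ le_rfl
    rw [← ENNReal.ofReal_natCast, ← ENNReal.ofReal_mul hK1p.le]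
    apply ENNReal.ofReal_le_ofReal
    have : 0 ≤ K2 * (N0 * E) := by positivity
    linarith
  · refine (mul_le_mul' le_rfl (j1739_partII d l Zs hZ p hp U hU)).trans ?_
    rw [← hN0, ← hE, ← mul_assoc]
    apply mul_le_mul' _ le_rfl
    have g1 : (N0 : ENNReal) * ENNReal.ofReal E = ENNReal.ofReal (N0 * E) := by
      rw [ENNReal.ofReal_mul (by positivity), ENNReal.ofReal_natCast]
    have g2 : 0 ≤ K2 * (√ρ0) ^ lam0 := by positivity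
    rw [g1, mul_right_comm, ← ENNReal.ofReal_mul g2]
    apply mul_le_mul' _ le_rfl
    apply ENNReal.ofReal_le_ofReal
    have h1 : 0 < (√ρ0) ^ lam0 := by positivity
    have : 0 ≤ K1 * N0 * (√ρ0) ^ lam0 := by positivity
    nlinarith

end Pool.Agent.Helper107.CP
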