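import Mathlib

set_option autoImplicit false

namespace Pool.Agent.Helper107.CP.Sp

/-- `car a i k = ∑_{Q' ⊆ Q} a(Q') |Q'|`, the sum over dyadic `Q'` contained in `Q = [k 2^i, (k+1) 2^i)`
(down to singletons, scale `0`). -/
noncomputable def car (a : ℕ → ℤ → ℝ) : ℕ → ℤ → ℝ
  | 0, k => a 0 k
  | (i + 1), k => a (i + 1) k * 2 ^ (i + 1) + car a i (2 * k) + car a i (2 * k + 1)

open Classical in
/-- the stopping ancestor of the interval `(T - d, k)` -/
noncomputable def stopA (K1 : ℝ) (T : ℕ) (c ω : ℕ → ℤ → ℝ) : ℕ → ℤ → ℕ × ℤ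
  | 0, k => (T, k)
  | (d + 1), k =>
    if 2 * K1 * max (ω (T - (d + 1)) k) (ω (stopA K1 T c ω d (k / 2)).1 (stopA K1 T c ω d (k / 2)).2) <
        |c (T - (d + 1)) k - c (stopA K1 T c ω d (k / 2)).1 (stopA K1 T c ω d (k / 2)).2|
      then (T - (d + 1), k) else stopA K1 T c ω d (k / 2)

theorem stopA_fst (K1 : ℝ) (T : ℕ) (c ω : ℕ → ℤ → ℝ) (d : ℕ) (k : ℤ) :
    T - d ≤ (stopA K1 T c ω d k).1 := by
  induction d generalizing k with
  | zero => simp [stopA]
  | succ d ih =>
    rw [stopA]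
    split_ifs
    · simp
    · have := ih (k / 2)
      omega

open Classical in
/-- the indicator of the stopping intervals -/
noncomputable def stopS (K1 : ℝ) (T : ℕ) (c ω : ℕ → ℤ → ℝ) (i : ℕ) (k : ℤ) : ℝ :=
  if i ≤ T ∧ stopA K1 T c ω (T - i) k = (i, k) then 1 else 0

theorem stopS_cases (K1 : ℝ) (T : ℕ) (c ω : ℕ → ℤ → ℝ) (i : ℕ) (k : ℤ) (hi : i < T) :
    (stopS K1 T c ω i k = 0 ∧ stopA K1 T c ω (T - i) k = stopA K1 T c ω (T - (i + 1)) (k / 2)) ∨
    (stopS K1 T c ω i k = 1 ∧ stopA K1 T c ω (T - i) k = (i, k) ∧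
      2 * K1 * max (ω i k) (ω (stopA K1 T c ω (T - (i + 1)) (k / 2)).1 (stopA K1 T c ω (T - (i + 1)) (k / 2)).2) <
        |c i k - c (stopA K1 T c ω (T - (i + 1)) (k / 2)).1 (stopA K1 T c ω (T - (i + 1)) (k / 2)).2|) := by
  classical
  obtain ⟨d, hd⟩ : ∃ d, T - i = d + 1 := ⟨T - i - 1, by omega⟩
  have hd' : T - (i + 1) = d := by omega
  have hi' : T - (d + 1) = i := by omega
  have hf := stopA_fst K1 T c ω d (k / 2)
  have hrec : stopA K1 T c ω (d + 1) k =
    if 2 * K1 * max (ω i k) (ω (stopA K1 T c ω d (k / 2)).1 (stopA K1 T c ω d (k / 2)).2) <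
        |c i k - c (stopA K1 T c ω d (k / 2)).1 (stopA K1 T c ω d (k / 2)).2|
      then (i, k) else stopA K1 T c ω d (k / 2) := by
    rw [stopA, hi']
  rw [hd, hd']
  by_cases h : 2 * K1 * max (ω i k) (ω (stopA K1 T c ω d (k / 2)).1 (stopA K1 T c ω d (k / 2)).2) <
        |c i k - c (stopA K1 T c ω d (k / 2)).1 (stopA K1 T c ω d (k / 2)).2|
  · right
    rw [if_pos h] at hrec
    refine ⟨?_, hrec, h⟩
    rw [stopS, if_pos]
    exact ⟨hi.le, by rw [hd]; exact hrec⟩
  · left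
    rw [if_neg h] at hrec
    refine ⟨?_, hrec⟩
    rw [stopS, if_neg]
    rintro ⟨-, h2⟩
    rw [hd, hrec] at h2
    rw [h2] at hf
    simp only at hf
    omega

theorem stopA_dist (K1 : ℝ) (hK1 : 1 ≤ K1) (T : ℕ) (c ω : ℕ → ℤ → ℝ) (hω : ∀ i k, 0 ≤ ω i k) (i : ℕ) (k : ℤ) (hi : i ≤ T) :
    |c i k - c (stopA K1 T c ω (T - i) k).1 (stopA K1 T c ω (T - i) k).2| ≤
      2 * K1 * (ω i k + ω (stopA K1 T c ω (T - i) k).1 (stopA K1 T c ω (T - i) k).2) := by
  classical
  rcases Nat.lt_or_ge i T with h | h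
  · rcases Nat.lt_or_ge 0 1 with _ | h0
    · obtain ⟨d, hd⟩ : ∃ d, T - i = d + 1 := ⟨T - i - 1, by omega⟩
      have hi' : T - (d + 1) = i := by omega
      have hrec : stopA K1 T c ω (d + 1) k =
        if 2 * K1 * max (ω i k) (ω (stopA K1 T c ω d (k / 2)).1 (stopA K1 T c ω d (k / 2)).2) <
            |c i k - c (stopA K1 T c ω d (k / 2)).1 (stopA K1 T c ω d (k / 2)).2|
          then (i, k) else stopA K1 T c ω d (k / 2) := by
        rw [stopA, hi']
      rw [hd]
      by_cases h : 2 * K1 * max (ω i k) (ω (stopA K1 T c ω d (k / 2)).1 (stopA K1 T c ω d (k / 2)).2) <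
            |c i k - c (stopA K1 T c ω d (k / 2)).1 (stopA K1 T c ω d (k / 2)).2|
      · rw [if_pos h] at hrec
        rw [hrec]
        simp only [sub_self, abs_zero]
        have := hω i k
        positivity
      · rw [if_neg h] at hrec
        rw [hrec]
        rw [not_lt] at h
        refine le_trans h ?_
        apply mul_le_mul_of_nonneg_left _ (by linarith)
        exact max_le_add_of_nonneg (hω _ _) (hω _ _)
    · omega
  · have : i = T := le_antisymm hi h
    subst this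
    rw [Nat.sub_self, stopA]
    simp only [sub_self, abs_zero]
    have := hω i k
    positivity

theorem carleson_aux (K1 : ℝ) (hK1 : 1 ≤ K1) (T : ℕ) (F : ℤ → ℝ) (c ω : ℕ → ℤ → ℝ) (hω : ∀ i k, 0 ≤ ω i k)
    (hB : ∀ i ≤ T, ∀ k : ℤ, 4 * (((Finset.Ico (k * 2 ^ i) ((k + 1) * 2 ^ i)).filter
          (fun x => K1 * ω i k < |F x - c i k|)).card : ℝ) ≤ 2 ^ i) (i : ℕ) (hi : i ≤ T) (k : ℤ) :
    car (stopS K1 T c ω) i k ≤ stopS K1 T c ω i k * 2 ^ i +
      2 * (((Finset.Ico (k * 2 ^ i) ((k + 1) * 2 ^ i)).filter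
          (fun x => K1 * ω (stopA K1 T c ω (T - i) k).1 (stopA K1 T c ω (T - i) k).2 <
            |F x - c (stopA K1 T c ω (T - i) k).1 (stopA K1 T c ω (T - i) k).2|)).card : ℝ) := by
  classical
  induction i generalizing k with
  | zero =>
    rw [car]
    simp only [pow_zero, mul_one]
    have : (0 : ℝ) ≤ 2 * (((Finset.Ico k (k + 1)).filter
          (fun x => K1 * ω (stopA K1 T c ω (T - 0) k).1 (stopA K1 T c ω (T - 0) k).2 <
            |F x - c (stopA K1 T c ω (T - 0) k).1 (stopA K1 T c ω (T - 0) k).2|)).card : ℝ) := by positivity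
    linarith
  | succ i ih =>
    have hiT : i < T := hi
    have child : ∀ k' : ℤ, k' / 2 = k → car (stopS K1 T c ω) i k' ≤
        2 * (((Finset.Ico (k' * 2 ^ i) ((k' + 1) * 2 ^ i)).filter
          (fun x => K1 * ω (stopA K1 T c ω (T - (i + 1)) k).1 (stopA K1 T c ω (T - (i + 1)) k).2 <
            |F x - c (stopA K1 T c ω (T - (i + 1)) k).1 (stopA K1 T c ω (T - (i + 1)) k).2|)).card : ℝ) := by
      intro k' hk'
      have h1 := ih hiT.le k'
      rcases stopS_cases K1 T c ω i k' hiT with ⟨hs, hA⟩ | ⟨hs, hA, hsel⟩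
      · rw [hs, hA, hk'] at h1
        linarith
      · rw [hs, hA] at h1
        simp only at h1
        rw [hk'] at hsel
        have h2 := hB i hiT.le k'
        set p := stopA K1 T c ω (T - (i + 1)) k with hp
        set J := Finset.Ico (k' * 2 ^ i) ((k' + 1) * 2 ^ i) with hJ
        have hJc : (J.card : ℝ) = 2 ^ i := by
          rw [hJ, Int.card_Ico]
          have : (k' + 1) * 2 ^ i - k' * 2 ^ i = ((2 ^ i : ℕ) : ℤ) := by push_cast; ring
          rw [this, Int.toNat_natCast]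
          push_cast
          ring
        have hcov : J ⊆ (J.filter (fun x => K1 * ω i k' < |F x - c i k'|)) ∪
            (J.filter (fun x => K1 * ω p.1 p.2 < |F x - c p.1 p.2|)) := by
          intro x hx
          by_contra hcon
          rw [Finset.mem_union, not_or, Finset.mem_filter, Finset.mem_filter, not_and, not_and] at hcon
          have ha := hcon.1 hx
          have hb := hcon.2 hx
          rw [not_lt] at ha hb
          have h3 : |c i k' - c p.1 p.2| ≤ |F x - c i k'| + |F x - c p.1 p.2| := by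
            have : c i k' - c p.1 p.2 = (F x - c p.1 p.2) - (F x - c i k') := by ring
            rw [this]
            have := abs_sub (F x - c p.1 p.2) (F x - c i k')
            linarith
          have h4 : ω i k' ≤ max (ω i k') (ω p.1 p.2) := le_max_left _ _
          have h5 : ω p.1 p.2 ≤ max (ω i k') (ω p.1 p.2) := le_max_right _ _
          have h6 : K1 * ω i k' ≤ K1 * max (ω i k') (ω p.1 p.2) := mul_le_mul_of_nonneg_left h4 (by linarith)
          have h7 : K1 * ω p.1 p.2 ≤ K1 * max (ω i k') (ω p.1 p.2) := mul_le_mul_of_nonneg_left h5 (by linarith)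
          linarith
        have h8 : (J.card : ℝ) ≤ ((J.filter (fun x => K1 * ω i k' < |F x - c i k'|)).card : ℝ) +
            ((J.filter (fun x => K1 * ω p.1 p.2 < |F x - c p.1 p.2|)).card : ℝ) := by
          have h9 := le_trans (Finset.card_le_card hcov) (Finset.card_union_le _ _)
          exact_mod_cast h9
        linarith
    have h1 := child (2 * k) (by omega)
    have h2 := child (2 * k + 1) (by omega)
    rw [car]
    set p := stopA K1 T c ω (T - (i + 1)) k with hp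
    have h3 : (((Finset.Ico ((2 * k) * 2 ^ i) ((2 * k + 1) * 2 ^ i)).filter
          (fun x => K1 * ω p.1 p.2 < |F x - c p.1 p.2|)).card : ℝ) +
          (((Finset.Ico ((2 * k + 1) * 2 ^ i) ((2 * k + 1 + 1) * 2 ^ i)).filter
          (fun x => K1 * ω p.1 p.2 < |F x - c p.1 p.2|)).card : ℝ) ≤
          (((Finset.Ico (k * 2 ^ (i + 1)) ((k + 1) * 2 ^ (i + 1))).filter
          (fun x => K1 * ω p.1 p.2 < |F x - c p.1 p.2|)).card : ℝ) := by
      have h2i : (0 : ℤ) < 2 ^ i := by positivity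
      have hd : Disjoint ((Finset.Ico ((2 * k) * 2 ^ i) ((2 * k + 1) * 2 ^ i)).filter
          (fun x => K1 * ω p.1 p.2 < |F x - c p.1 p.2|)) ((Finset.Ico ((2 * k + 1) * 2 ^ i) ((2 * k + 1 + 1) * 2 ^ i)).filter
          (fun x => K1 * ω p.1 p.2 < |F x - c p.1 p.2|)) := by
        rw [Finset.disjoint_left]
        intro x hx hx'
        rw [Finset.mem_filter, Finset.mem_Ico] at hx hx'
        exact absurd hx.1.2 (not_lt.2 hx'.1.1)
      have h4 : ((Finset.Ico ((2 * k) * 2 ^ i) ((2 * k + 1) * 2 ^ i)).filter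
          (fun x => K1 * ω p.1 p.2 < |F x - c p.1 p.2|)).card + ((Finset.Ico ((2 * k + 1) * 2 ^ i) ((2 * k + 1 + 1) * 2 ^ i)).filter
          (fun x => K1 * ω p.1 p.2 < |F x - c p.1 p.2|)).card ≤ ((Finset.Ico (k * 2 ^ (i + 1)) ((k + 1) * 2 ^ (i + 1))).filter
          (fun x => K1 * ω p.1 p.2 < |F x - c p.1 p.2|)).card := by
        rw [← Finset.card_union_of_disjoint hd]
        apply Finset.card_le_card
        intro x hx
        rw [Finset.mem_union, Finset.mem_filter, Finset.mem_filter, Finset.mem_Ico, Finset.mem_Ico] at hx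
        rw [Finset.mem_filter, Finset.mem_Ico]
        have e1 : k * 2 ^ (i + 1) = 2 * k * 2 ^ i := by rw [pow_succ]; ring
        have e2 : (k + 1) * 2 ^ (i + 1) = (2 * k + 1 + 1) * 2 ^ i := by rw [pow_succ]; ring
        rw [e1, e2]
        have e3 : 2 * k * 2 ^ i < (2 * k + 1) * 2 ^ i := by
          apply mul_lt_mul_of_pos_right _ h2i; omega
        have e4 : (2 * k + 1) * 2 ^ i < (2 * k + 1 + 1) * 2 ^ i := by
          apply mul_lt_mul_of_pos_right _ h2i; omega
        rcases hx with ⟨⟨ha, hb⟩, hc⟩ | ⟨⟨ha, hb⟩, hc⟩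
        · exact ⟨⟨ha, lt_trans hb e4⟩, hc⟩
        · exact ⟨⟨le_trans e3.le ha, hb⟩, hc⟩
      exact_mod_cast h4
    linarith

/-- Abstract sparse domination.  `(i,k)` is the dyadic interval `[k 2^i, (k+1) 2^i)`; the one of scale `i`
containing `x` is `(i, x / 2^i)`. -/
theorem sparse (K1 : ℝ) (hK1 : 1 ≤ K1) : ∃ K : ℝ, 0 < K ∧
    ∀ (T : ℕ) (F : ℤ → ℝ) (c ω : ℕ → ℤ → ℝ), (∀ i k, 0 ≤ ω i k) →
      (∀ i ≤ T, ∀ k : ℤ, 4 * (((Finset.Ico (k * 2 ^ i) ((k + 1) * 2 ^ i)).filter
          (fun x => K1 * ω i k < |F x - c i k|)).card : ℝ) ≤ 2 ^ i) →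
      (∀ i < T, ∀ k : ℤ, |c i k - c (i + 1) (k / 2)| ≤ K1 * ω (i + 1) (k / 2)) →
      (∀ i < T, ∀ k : ℤ, ω (i + 1) (k / 2) ≤ K1 * ω i k) →
      ∃ s : ℕ → ℤ → ℝ, (∀ i k, s i k = 0 ∨ s i k = 1) ∧
        (∀ i k, car s i k ≤ 3 * 2 ^ i) ∧
        ∀ x : ℤ, |F x - c T (x / 2 ^ T)| ≤
          K * (ω 0 x + ∑ i ∈ Finset.range (T + 1), s i (x / 2 ^ i) * ω i (x / 2 ^ i)) := by
  classical
  refine ⟨6 * K1 ^ 2, by positivity, ?_⟩
  intro T F c ω hω hB hc hωc
  refine ⟨stopS K1 T c ω, ?_, ?_, ?_⟩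
  · intro i k
    rw [stopS]
    split_ifs
    · right; rfl
    · left; rfl
  · intro i
    induction i with
    | zero =>
      intro k
      have : car (stopS K1 T c ω) 0 k = stopS K1 T c ω 0 k := rfl
      rw [this, stopS]
      split_ifs <;> norm_num
    | succ i ih =>
      intro k
      rcases Nat.lt_or_ge T (i + 1) with h | h
      · have hs : stopS K1 T c ω (i + 1) k = 0 := by
          rw [stopS, if_neg]
          rintro ⟨h1, -⟩
          omega
        rw [car, hs]
        have h1 := ih (2 * k)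
        have h2 := ih (2 * k + 1)
        rw [pow_succ]
        linarith
      · have h1 := carleson_aux K1 hK1 T F c ω hω hB (i + 1) h k
        have h2 : stopS K1 T c ω (i + 1) k ≤ 1 := by
          rw [stopS]
          split_ifs <;> norm_num
        have h3 : (((Finset.Ico (k * 2 ^ (i + 1)) ((k + 1) * 2 ^ (i + 1))).filter
          (fun x => K1 * ω (stopA K1 T c ω (T - (i + 1)) k).1 (stopA K1 T c ω (T - (i + 1)) k).2 <
            |F x - c (stopA K1 T c ω (T - (i + 1)) k).1 (stopA K1 T c ω (T - (i + 1)) k).2|)).card : ℝ) ≤ 2 ^ (i + 1) := by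
          have h4 := Finset.card_filter_le (Finset.Ico (k * 2 ^ (i + 1)) ((k + 1) * 2 ^ (i + 1)))
            (fun x => K1 * ω (stopA K1 T c ω (T - (i + 1)) k).1 (stopA K1 T c ω (T - (i + 1)) k).2 <
            |F x - c (stopA K1 T c ω (T - (i + 1)) k).1 (stopA K1 T c ω (T - (i + 1)) k).2|)
          have h5 : (Finset.Ico (k * 2 ^ (i + 1)) ((k + 1) * 2 ^ (i + 1))).card = 2 ^ (i + 1) := by
            rw [Int.card_Ico]
            have : (k + 1) * 2 ^ (i + 1) - k * 2 ^ (i + 1) = ((2 ^ (i + 1) : ℕ) : ℤ) := by push_cast; ring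
            rw [this, Int.toNat_natCast]
          rw [h5] at h4
          exact_mod_cast h4
        have h6 : stopS K1 T c ω (i + 1) k * 2 ^ (i + 1) ≤ 1 * 2 ^ (i + 1) :=
          mul_le_mul_of_nonneg_right h2 (by positivity)
        linarith
  · intro x
    have hx2 : ∀ i : ℕ, x / 2 ^ i / 2 = x / 2 ^ (i + 1) := by
      intro i
      have h : ¬ ((2:ℤ) ^ i < 0) := not_lt.2 (by positivity)
      rw [Int.ediv_ediv, if_neg (fun hh => h hh.1), sub_zero, ← pow_succ]
    have main : ∀ d : ℕ, d ≤ T →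
        |c (stopA K1 T c ω d (x / 2 ^ (T - d))).1 (stopA K1 T c ω d (x / 2 ^ (T - d))).2 - c T (x / 2 ^ T)| +
          3 * K1 ^ 2 * ω (stopA K1 T c ω d (x / 2 ^ (T - d))).1 (stopA K1 T c ω d (x / 2 ^ (T - d))).2 ≤
          6 * K1 ^ 2 * ∑ i ∈ Finset.Icc (T - d) T, stopS K1 T c ω i (x / 2 ^ i) * ω i (x / 2 ^ i) := by
      intro d
      induction d with
      | zero =>
        intro _
        rw [Nat.sub_zero, Finset.Icc_self, Finset.sum_singleton]
        have hs : stopS K1 T c ω T (x / 2 ^ T) = 1 := by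
          rw [stopS, if_pos]
          refine ⟨le_rfl, ?_⟩
          rw [Nat.sub_self, stopA]
        rw [hs, stopA]
        simp only [sub_self, abs_zero]
        have := hω T (x / 2 ^ T)
        have h2 : 0 ≤ K1 ^ 2 * ω T (x / 2 ^ T) := by positivity
        linarith
      | succ d ih =>
        intro hd
        have ih' := ih (by omega)
        obtain ⟨i, hi⟩ : ∃ i, T - (d + 1) = i := ⟨_, rfl⟩
        have hi1 : T - d = i + 1 := by omega
        have hiT : i < T := by omega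
        have hdi : d + 1 = T - i := by omega
        have hdi' : d = T - (i + 1) := by omega
        rw [hi, hdi]
        rw [hi1, hdi'] at ih'
        have hsum : ∑ j ∈ Finset.Icc i T, stopS K1 T c ω j (x / 2 ^ j) * ω j (x / 2 ^ j) =
            stopS K1 T c ω i (x / 2 ^ i) * ω i (x / 2 ^ i) +
            ∑ j ∈ Finset.Icc (i + 1) T, stopS K1 T c ω j (x / 2 ^ j) * ω j (x / 2 ^ j) := by
          rw [← Finset.insert_Icc_add_one_left_eq_Icc hiT.le, Finset.sum_insert (by simp)]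
        rw [hsum]
        rcases stopS_cases K1 T c ω i (x / 2 ^ i) hiT with ⟨hs, hA⟩ | ⟨hs, hA, hsel⟩
        · rw [hs, hA, hx2, zero_mul, zero_add]
          exact ih'
        · rw [hs, hA, one_mul]
          simp only
          set p := stopA K1 T c ω (T - (i + 1)) (x / 2 ^ (i + 1)) with hp
          have h1 := stopA_dist K1 hK1 T c ω hω (i + 1) (x / 2 ^ (i + 1)) hiT
          rw [← hp] at h1
          have h2 := hc i hiT (x / 2 ^ i)
          rw [hx2] at h2
          have h3 := hωc i hiT (x / 2 ^ i)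
          rw [hx2] at h3
          have h4 : |c i (x / 2 ^ i) - c T (x / 2 ^ T)| ≤ |c i (x / 2 ^ i) - c (i + 1) (x / 2 ^ (i + 1))| +
              |c (i + 1) (x / 2 ^ (i + 1)) - c p.1 p.2| + |c p.1 p.2 - c T (x / 2 ^ T)| := by
            have h5 := abs_sub_le (c i (x / 2 ^ i)) (c (i + 1) (x / 2 ^ (i + 1))) (c T (x / 2 ^ T))
            have h6 := abs_sub_le (c (i + 1) (x / 2 ^ (i + 1))) (c p.1 p.2) (c T (x / 2 ^ T))
            linarith
          have h5 : 0 ≤ ω p.1 p.2 := hω _ _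
          have h6 : 0 ≤ ω i (x / 2 ^ i) := hω _ _
          have h7 : 0 ≤ ω (i + 1) (x / 2 ^ (i + 1)) := hω _ _
          have h8 : K1 * ω (i + 1) (x / 2 ^ (i + 1)) ≤ K1 * (K1 * ω i (x / 2 ^ i)) :=
            mul_le_mul_of_nonneg_left h3 (by linarith)
          have h9 : 2 * K1 * ω p.1 p.2 ≤ 3 * K1 ^ 2 * ω p.1 p.2 := by
            apply mul_le_mul_of_nonneg_right _ h5
            nlinarith
          have h10 : K1 * (K1 * ω i (x / 2 ^ i)) = K1 ^ 2 * ω i (x / 2 ^ i) := by ring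
          have h11 : 6 * K1 ^ 2 * (ω i (x / 2 ^ i) + ∑ j ∈ Finset.Icc (i + 1) T, stopS K1 T c ω j (x / 2 ^ j) * ω j (x / 2 ^ j)) =
            6 * (K1 ^ 2 * ω i (x / 2 ^ i)) + 6 * K1 ^ 2 * ∑ j ∈ Finset.Icc (i + 1) T, stopS K1 T c ω j (x / 2 ^ j) * ω j (x / 2 ^ j) := by ring
          rw [h11]
          linarith
    have h1 := main T le_rfl
    have h2 := stopA_dist K1 hK1 T c ω hω 0 (x / 2 ^ 0) (Nat.zero_le _)
    rw [Nat.sub_self] at h1
    rw [Nat.sub_zero] at h2
    set p := stopA K1 T c ω T (x / 2 ^ 0) with hp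
    have h3 : |F x - c 0 x| ≤ K1 * ω 0 x := by
      by_contra hcon
      rw [not_le] at hcon
      have h4 := hB 0 (Nat.zero_le _) x
      have h5 : 1 ≤ ((Finset.Ico (x * 2 ^ 0) ((x + 1) * 2 ^ 0)).filter
          (fun y => K1 * ω 0 x < |F y - c 0 x|)).card := by
        apply Finset.card_pos.2
        refine ⟨x, ?_⟩
        rw [Finset.mem_filter, Finset.mem_Ico]
        refine ⟨⟨by simp, by simp⟩, hcon⟩
      have h6 : (1 : ℝ) ≤ (((Finset.Ico (x * 2 ^ 0) ((x + 1) * 2 ^ 0)).filter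
          (fun y => K1 * ω 0 x < |F y - c 0 x|)).card : ℝ) := by exact_mod_cast h5
      simp only [pow_zero, mul_one] at h4 h6
      linarith
    have hx0 : x / 2 ^ 0 = x := by simp
    rw [hx0] at h2
    have hr : Finset.Icc 0 T = Finset.range (T + 1) := by
      ext j
      rw [Finset.mem_Icc, Finset.mem_range]
      omega
    rw [hr] at h1
    have h5 : 0 ≤ ω p.1 p.2 := hω _ _
    have h6 : 0 ≤ ω 0 x := hω _ _
    have h9 : 2 * K1 * ω p.1 p.2 ≤ 3 * K1 ^ 2 * ω p.1 p.2 := by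
      apply mul_le_mul_of_nonneg_right _ h5
      nlinarith
    have h10 : 3 * K1 * ω 0 x ≤ 6 * K1 ^ 2 * ω 0 x := by
      apply mul_le_mul_of_nonneg_right _ h6
      nlinarith
    have h7 : |F x - c T (x / 2 ^ T)| ≤ |F x - c 0 x| + |c 0 x - c p.1 p.2| + |c p.1 p.2 - c T (x / 2 ^ T)| := by
      have h5 := abs_sub_le (F x) (c 0 x) (c T (x / 2 ^ T))
      have h6 := abs_sub_le (c 0 x) (c p.1 p.2) (c T (x / 2 ^ T))
      linarith
    rw [mul_add]
    linarith

end Pool.Agent.Helper107.CP.Sp
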