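import Mathlib

set_option autoImplicit false
open Filter Topology MeasureTheory

namespace Pool.Agent.Helper107.CP.Tr

/-- The discrete theorem (to be used as a hypothesis). -/
def DiscreteMain : Prop :=
  ∀ p : ℝ, 1 < p → ∀ C ε : ℝ, 0 < C → 0 < ε → ∃ K : ℝ, 0 < K ∧
    ∀ U : ℤ → ℝ, (∀ n, 0 ≤ U n) →
      Summable (fun n : ℤ => U n * (1 / (1 + |(n : ℝ)|)) ^ p) →
      (∀ (i : ℕ) (k : ℤ) (E : Finset ℤ), E ⊆ Finset.Ico (k * 2 ^ i) ((k + 1) * 2 ^ i) →
        ∑ n ∈ E, U n ≤ C * ((E.card : ℝ) / 2 ^ i) ^ ε *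
          ∑' n : ℤ, U n * ((2 : ℝ) ^ i / (2 ^ i + |(n : ℝ) - k * 2 ^ i|)) ^ p) →
      ∀ (f : ℤ → ℝ) (F : Finset ℤ), (∀ n, n ∉ F → f n = 0) →
      ∀ G : ℤ → ℝ, (∀ (n u : ℤ) (t : ℕ), u ≤ n → n < u + 2 ^ t →
          ∑ v ∈ Finset.Ico u (u + 2 ^ t), |f v| ≤ 2 ^ t * G n) →
        ∑' n : ℤ, ENNReal.ofReal (|∑ m ∈ F.erase n, f m / ((n : ℝ) - (m : ℝ))| ^ p * U n) ≤
          ENNReal.ofReal K * ∑' n : ℤ, ENNReal.ofReal (G n ^ p * U n)

/-- cells of the grid of mesh `δ` -/
def cell (δ : ℝ) (n : ℤ) : Set ℝ := Set.Ico ((n : ℝ) * δ) (((n : ℝ) + 1) * δ)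

theorem mem_cell_iff {δ : ℝ} (hδ : 0 < δ) (n : ℤ) (x : ℝ) : x ∈ cell δ n ↔ ⌊x / δ⌋ = n := by
  rw [Int.floor_eq_iff, cell, Set.mem_Ico, le_div_iff₀ hδ, div_lt_iff₀ hδ]

theorem measurableSet_cell (δ : ℝ) (n : ℤ) : MeasurableSet (cell δ n) := measurableSet_Ico

theorem disjoint_cell {δ : ℝ} (hδ : 0 < δ) : Pairwise (Function.onFun Disjoint (cell δ)) := by
  intro m n hmn
  rw [Function.onFun, Set.disjoint_left]
  intro x hx hx'
  exact hmn (((mem_cell_iff hδ m x).1 hx).symm.trans ((mem_cell_iff hδ n x).1 hx'))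

theorem iUnion_cell {δ : ℝ} (hδ : 0 < δ) : ⋃ n : ℤ, cell δ n = Set.univ := by
  rw [Set.eq_univ_iff_forall]
  intro x
  exact Set.mem_iUnion.2 ⟨⌊x / δ⌋, (mem_cell_iff hδ _ x).2 rfl⟩

theorem volume_cell {δ : ℝ} (n : ℤ) : volume (cell δ n) = ENNReal.ofReal δ := by
  rw [cell, Real.volume_Ico]
  congr 1
  ring

theorem lintegral_cells {δ : ℝ} (hδ : 0 < δ) (g : ℝ → ENNReal) :
    ∫⁻ x, g x = ∑' n : ℤ, ∫⁻ x in cell δ n, g x := by
  rw [← lintegral_iUnion (measurableSet_cell δ) (disjoint_cell hδ), iUnion_cell hδ,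
    Measure.restrict_univ]

theorem lintegral_step {δ : ℝ} (hδ : 0 < δ) (g : ℤ → ENNReal) (u : ℝ → ENNReal)
    (hu : Measurable u) :
    ∫⁻ x, g ⌊x / δ⌋ * u x = ∑' n : ℤ, g n * ∫⁻ x in cell δ n, u x := by
  rw [lintegral_cells hδ]
  congr 1
  funext n
  rw [← lintegral_const_mul _ hu]
  apply setLIntegral_congr_fun (measurableSet_cell δ n)
  intro x hx
  simp only [(mem_cell_iff hδ n x).1 hx]

/-- the basic weight: on a cell, `1/(1+|n|)` is comparable with `1/(1+|x|)` -/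
theorem cell_abs_le {δ : ℝ} (hδ : 0 < δ) (n : ℤ) (x : ℝ) (hx : x ∈ cell δ n) :
    |x - n * δ| ≤ δ := by
  obtain ⟨h1, h2⟩ := hx
  rw [abs_le]
  constructor <;> nlinarith

theorem step1 {p δ : ℝ} (hp : 0 < p) (hδ : 0 < δ) (n : ℤ) (x : ℝ) (hx : x ∈ cell δ n) :
    (1 / (1 + |(n : ℝ)|)) ^ p ≤ (1 + δ) ^ p * (1 / (1 + |x|)) ^ p := by
  have h1 := cell_abs_le hδ n x hx
  have h2 : |x| ≤ |(n : ℝ)| * δ + δ := by
    calc |x| = |(x - n * δ) + n * δ| := by ring_nf
      _ ≤ |x - n * δ| + |n * δ| := abs_add_le _ _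
      _ ≤ δ + |(n : ℝ)| * δ := by
          rw [abs_mul, abs_of_pos hδ]; gcongr
      _ = _ := by ring
  have h3 : 0 < 1 + |(n : ℝ)| := by positivity
  have h4 : 0 < 1 + |x| := by positivity
  rw [← Real.mul_rpow (by positivity) (by positivity)]
  apply Real.rpow_le_rpow (by positivity) _ hp.le
  rw [mul_one_div, div_le_div_iff₀ h3 h4]
  nlinarith [abs_nonneg (n : ℝ), abs_nonneg x]

/-- the discretised weight -/
noncomputable def wt (u : ℝ → ENNReal) (δ : ℝ) (n : ℤ) : ENNReal := ∫⁻ x in cell δ n, u x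

theorem sum_wt_lt_top {p δ : ℝ} (hp : 0 < p) (hδ : 0 < δ) (u : ℝ → ENNReal) (hu : Measurable u)
    (hfin : ∫⁻ x, ENNReal.ofReal ((1 / (1 + |x|)) ^ p) * u x < ⊤) :
    ∑' n : ℤ, ENNReal.ofReal ((1 / (1 + |(n : ℝ)|)) ^ p) * wt u δ n < ⊤ := by
  have h1 : ∑' n : ℤ, ENNReal.ofReal ((1 / (1 + |(n : ℝ)|)) ^ p) * wt u δ n =
      ∫⁻ x, ENNReal.ofReal ((1 / (1 + |(⌊x / δ⌋ : ℝ)|)) ^ p) * u x :=
    (lintegral_step hδ (fun n => ENNReal.ofReal ((1 / (1 + |(n : ℝ)|)) ^ p)) u hu).symm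
  rw [h1]
  calc ∫⁻ x, ENNReal.ofReal ((1 / (1 + |(⌊x / δ⌋ : ℝ)|)) ^ p) * u x
      ≤ ∫⁻ x, ENNReal.ofReal ((1 + δ) ^ p) * (ENNReal.ofReal ((1 / (1 + |x|)) ^ p) * u x) := by
        apply lintegral_mono
        intro x
        simp only
        rw [← mul_assoc, ← ENNReal.ofReal_mul (by positivity)]
        gcongr
        exact step1 hp hδ _ x ((mem_cell_iff hδ _ x).2 rfl)
    _ = ENNReal.ofReal ((1 + δ) ^ p) * ∫⁻ x, ENNReal.ofReal ((1 / (1 + |x|)) ^ p) * u x := by
        rw [lintegral_const_mul _ (by fun_prop)]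
    _ < ⊤ := ENNReal.mul_lt_top ENNReal.ofReal_lt_top hfin

theorem wt_ne_top {p δ : ℝ} (hp : 0 < p) (hδ : 0 < δ) (u : ℝ → ENNReal) (hu : Measurable u)
    (hfin : ∫⁻ x, ENNReal.ofReal ((1 / (1 + |x|)) ^ p) * u x < ⊤) (n : ℤ) : wt u δ n ≠ ⊤ := by
  have h1 := (ENNReal.le_tsum n).trans_lt (sum_wt_lt_top hp hδ u hu hfin)
  intro h2
  rw [h2] at h1
  rw [ENNReal.mul_top] at h1
  · exact absurd h1 (lt_irrefl _)
  · rw [Ne, ENNReal.ofReal_eq_zero, not_le]
    positivity

/-- summability in ℝ -/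
theorem summable_wt {p δ : ℝ} (hp : 0 < p) (hδ : 0 < δ) (u : ℝ → ENNReal) (hu : Measurable u)
    (hfin : ∫⁻ x, ENNReal.ofReal ((1 / (1 + |x|)) ^ p) * u x < ⊤) :
    Summable (fun n : ℤ => (wt u δ n).toReal * (1 / (1 + |(n : ℝ)|)) ^ p) := by
  have h1 := ENNReal.summable_toReal (sum_wt_lt_top hp hδ u hu hfin).ne
  refine h1.congr ?_
  intro n
  rw [ENNReal.toReal_mul, ENNReal.toReal_ofReal (by positivity), mul_comm]

/-- comparison of the kernels -/
theorem step2 {p δ : ℝ} (hp : 0 < p) (hδ : 0 < δ) (i : ℕ) (k n : ℤ) (x : ℝ)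
    (hx : x ∈ cell δ n) :
    (3 * 2 ^ i * δ) ^ p / ((3 * 2 ^ i * δ) ^ p + |x - (k + 1 / 2) * 2 ^ i * δ| ^ p) ≤
      6 ^ p * ((2 : ℝ) ^ i / (2 ^ i + |(n : ℝ) - k * 2 ^ i|)) ^ p := by
  have h1 := cell_abs_le hδ n x hx
  set s : ℝ := 2 ^ i with hs
  have hs1 : 1 ≤ s := one_le_pow₀ (by norm_num)
  have hs0 : 0 < s := by linarith
  set y : ℝ := |x - (k + 1 / 2) * s * δ| with hy
  have hy0 : 0 ≤ y := abs_nonneg _
  set D : ℝ := 3 * s * δ with hD
  have hD0 : 0 < D := by positivity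
  -- `|n - k s| δ ≤ y + 3/2 s δ`
  have h2 : |(n : ℝ) - k * s| * δ ≤ y + 3 / 2 * s * δ := by
    calc |(n : ℝ) - k * s| * δ = |((n : ℝ) - k * s) * δ| := by rw [abs_mul, abs_of_pos hδ]
      _ = |(x - (k + 1 / 2) * s * δ) + (1 / 2 * s * δ - (x - n * δ))| := by
          congr 1; ring
      _ ≤ |x - (k + 1 / 2) * s * δ| + |1 / 2 * s * δ - (x - n * δ)| := abs_add_le _ _
      _ ≤ y + (|1 / 2 * s * δ| + |x - n * δ|) := by
          gcongr; exact abs_sub _ _
      _ ≤ y + (1 / 2 * s * δ + s * δ) := by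
          rw [abs_of_pos (by positivity)]
          gcongr
          exact h1.trans (by nlinarith)
      _ = _ := by ring
  have h3 : s + |(n : ℝ) - k * s| ≤ (D + y) / δ := by
    rw [le_div_iff₀ hδ]
    have : s * δ > 0 := by positivity
    nlinarith
  have h4 : 0 < s + |(n : ℝ) - k * s| := by positivity
  -- `(D + y)^p ≤ 2^p (D^p + y^p)`
  have h5 : (D + y) ^ p ≤ 2 ^ p * (D ^ p + y ^ p) := by
    rcases le_total D y with h | h
    · calc (D + y) ^ p ≤ (2 * y) ^ p := Real.rpow_le_rpow (by positivity) (by linarith) hp.le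
        _ = 2 ^ p * y ^ p := Real.mul_rpow (by norm_num) hy0
        _ ≤ 2 ^ p * (D ^ p + y ^ p) := by
            gcongr
            have : 0 ≤ D ^ p := by positivity
            linarith
    · calc (D + y) ^ p ≤ (2 * D) ^ p := Real.rpow_le_rpow (by positivity) (by linarith) hp.le
        _ = 2 ^ p * D ^ p := Real.mul_rpow (by norm_num) hD0.le
        _ ≤ 2 ^ p * (D ^ p + y ^ p) := by
            gcongr
            have : 0 ≤ y ^ p := by positivity
            linarith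
  have h6 : 0 < D ^ p + y ^ p := by positivity
  calc D ^ p / (D ^ p + y ^ p) ≤ 2 ^ p * (D / (D + y)) ^ p := by
        rw [Real.div_rpow hD0.le (by positivity), div_le_iff₀ h6]
        have h7 : 0 < (D + y) ^ p := by positivity
        rw [mul_div_assoc', div_mul_eq_mul_div, le_div_iff₀ h7]
        nlinarith [Real.rpow_pos_of_pos hD0 p]
    _ ≤ 2 ^ p * (3 * (s / (s + |(n : ℝ) - k * s|))) ^ p := by
        gcongr
        rw [mul_div_assoc', div_le_div_iff₀ (by positivity) h4]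
        have h8 : (s + |(n : ℝ) - k * s|) * δ ≤ D + y := (le_div_iff₀ hδ).1 h3
        calc D * (s + |(n : ℝ) - k * s|) = 3 * s * ((s + |(n : ℝ) - k * s|) * δ) := by
              rw [hD]; ring
          _ ≤ 3 * s * (D + y) := by gcongr
    _ = 6 ^ p * (s / (s + |(n : ℝ) - k * s|)) ^ p := by
        rw [Real.mul_rpow (by norm_num) (by positivity), ← mul_assoc,
          ← Real.mul_rpow (by norm_num) (by norm_num)]
        norm_num

theorem step3 {p : ℝ} (hp : 0 < p) (i : ℕ) (k n : ℤ) :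
    ((2 : ℝ) ^ i / (2 ^ i + |(n : ℝ) - k * 2 ^ i|)) ^ p ≤
      ((1 + |(k : ℝ)| * 2 ^ i) * 2 ^ i) ^ p * (1 / (1 + |(n : ℝ)|)) ^ p := by
  set s : ℝ := 2 ^ i with hs
  have hs1 : 1 ≤ s := one_le_pow₀ (by norm_num)
  have hs0 : 0 < s := by linarith
  rw [← Real.mul_rpow (by positivity) (by positivity)]
  apply Real.rpow_le_rpow (by positivity) _ hp.le
  rw [mul_one_div, div_le_div_iff₀ (by positivity) (by positivity)]
  have h1 : |(n : ℝ)| ≤ |(n : ℝ) - k * s| + |(k : ℝ)| * s := by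
    calc |(n : ℝ)| = |((n : ℝ) - k * s) + k * s| := by ring_nf
      _ ≤ |(n : ℝ) - k * s| + |(k : ℝ) * s| := abs_add_le _ _
      _ = _ := by rw [abs_mul (k : ℝ), abs_of_pos hs0]
  have h2 : 1 + |(n : ℝ)| ≤ (1 + |(k : ℝ)| * s) * (s + |(n : ℝ) - k * s|) := by
    have h3 : 0 ≤ |(n : ℝ) - k * s| := abs_nonneg _
    have h4 : 0 ≤ |(k : ℝ)| := abs_nonneg _
    have h5 : 0 ≤ |(k : ℝ)| * s := by positivity
    nlinarith [mul_nonneg h5 h3, mul_nonneg h5 (sub_nonneg.2 hs1)]
  calc s * (1 + |(n : ℝ)|) ≤ s * ((1 + |(k : ℝ)| * s) * (s + |(n : ℝ) - k * s|)) := by gcongr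
    _ = _ := by ring

/-- the C_p condition of the discretised weight -/
theorem discrete_cp {p δ : ℝ} (hp : 0 < p) (hδ : 0 < δ) (U : ℝ → ℝ) (hU : Measurable U)
    (hfin : ∫⁻ x, ENNReal.ofReal ((1 / (1 + |x|)) ^ p) * ENNReal.ofReal (U x) < ⊤)
    (hU0 : ∀ x, 0 ≤ U x)
    (C ε : ℝ) (hC : 0 < C) (hε : 0 < ε)
    (hcp : ∀ a b : ℝ, a < b → ∀ E : Set ℝ, MeasurableSet E → E ⊆ Set.Ioo a b →
          ∫⁻ x in E, ENNReal.ofReal (U x) ≤
            ENNReal.ofReal C * ENNReal.ofReal (((volume E).toReal / (b - a)) ^ ε) *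
              ∫⁻ x, ENNReal.ofReal ((b - a) ^ p / ((b - a) ^ p + |x - (a + b) / 2| ^ p) * U x))
    (i : ℕ) (k : ℤ) (E : Finset ℤ) (hE : E ⊆ Finset.Ico (k * 2 ^ i) ((k + 1) * 2 ^ i)) :
    ∑ n ∈ E, (wt (fun x => ENNReal.ofReal (U x)) δ n).toReal ≤
      (C * 6 ^ p) * ((E.card : ℝ) / 2 ^ i) ^ ε *
        ∑' n : ℤ, (wt (fun x => ENNReal.ofReal (U x)) δ n).toReal *
          ((2 : ℝ) ^ i / (2 ^ i + |(n : ℝ) - k * 2 ^ i|)) ^ p := by
  set u : ℝ → ENNReal := fun x => ENNReal.ofReal (U x) with hu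
  have hum : Measurable u := hU.ennreal_ofReal
  have hne := wt_ne_top hp hδ u hum hfin
  have hsum : Summable (fun n : ℤ => (wt u δ n).toReal *
      ((2 : ℝ) ^ i / (2 ^ i + |(n : ℝ) - k * 2 ^ i|)) ^ p) := by
    refine Summable.of_nonneg_of_le (fun n => by positivity) (fun n => ?_)
      ((summable_wt hp hδ u hum hfin).mul_left (((1 + |(k : ℝ)| * 2 ^ i) * 2 ^ i) ^ p))
    calc (wt u δ n).toReal * ((2 : ℝ) ^ i / (2 ^ i + |(n : ℝ) - k * 2 ^ i|)) ^ p
        ≤ (wt u δ n).toReal *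
          (((1 + |(k : ℝ)| * 2 ^ i) * 2 ^ i) ^ p * (1 / (1 + |(n : ℝ)|)) ^ p) := by
          gcongr; exact step3 hp i k n
      _ = _ := by ring
  set s : ℝ := 2 ^ i with hs
  have hs1 : 1 ≤ s := one_le_pow₀ (by norm_num)
  have hs0 : 0 < s := by linarith
  -- the set
  set A : Set ℝ := ⋃ n ∈ E, cell δ n with hA
  have hAm : MeasurableSet A := Finset.measurableSet_biUnion _ fun n _ => measurableSet_cell δ n
  have hd : Set.PairwiseDisjoint (↑E) (cell δ) := fun m _ n _ hmn => disjoint_cell hδ hmn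
  have hvol : (volume A).toReal = E.card * δ := by
    rw [hA, measure_biUnion_finset hd fun n _ => measurableSet_cell δ n,
      Finset.sum_congr rfl (fun n _ => volume_cell n), Finset.sum_const, nsmul_eq_mul,
      ENNReal.toReal_mul, ENNReal.toReal_ofReal hδ.le]
    simp
  have hAsub : A ⊆ Set.Ioo ((k - 1) * s * δ) ((k + 2) * s * δ) := by
    intro x hx
    simp only [hA, Set.mem_iUnion] at hx
    obtain ⟨n, hn, hx⟩ := hx
    have h1 := Finset.mem_Ico.1 (hE hn)
    obtain ⟨hx1, hx2⟩ := hx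
    have h2 : (k : ℝ) * s ≤ n := by
      have := h1.1
      have h3 : ((k * 2 ^ i : ℤ) : ℝ) ≤ (n : ℝ) := by exact_mod_cast this
      push_cast at h3
      exact h3
    have h3 : (n : ℝ) + 1 ≤ (k + 1) * s := by
      have := h1.2
      have h3 : ((n + 1 : ℤ) : ℝ) ≤ (((k + 1) * 2 ^ i : ℤ) : ℝ) := by exact_mod_cast this
      push_cast at h3
      exact h3
    constructor
    · calc ((k : ℝ) - 1) * s * δ < k * s * δ := by
            have : 0 < s * δ := by positivity
            nlinarith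
        _ ≤ n * δ := by gcongr
        _ ≤ x := hx1
    · calc x < (n + 1) * δ := hx2
        _ ≤ ((k + 1) * s) * δ := by gcongr
        _ < (k + 2) * s * δ := by
            have : 0 < s * δ := by positivity
            nlinarith
  have hsd : 0 < s * δ := by positivity
  have hab : ((k : ℝ) - 1) * s * δ < (k + 2) * s * δ := by nlinarith
  have hmain := hcp _ _ hab A hAm hAsub
  have hba : ((k : ℝ) + 2) * s * δ - (k - 1) * s * δ = 3 * s * δ := by ring
  have hmid : (((k : ℝ) - 1) * s * δ + (k + 2) * s * δ) / 2 = (k + 1 / 2) * s * δ := by ring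
  rw [hvol, hba] at hmain
  simp only [hmid] at hmain
  have hL : ∫⁻ x in A, ENNReal.ofReal (U x) = ∑ n ∈ E, wt u δ n := by
    rw [hA, lintegral_biUnion_finset hd (fun n _ => measurableSet_cell δ n)]
    rfl
  have hR : ∫⁻ x, ENNReal.ofReal ((3 * s * δ) ^ p /
        ((3 * s * δ) ^ p + |x - (k + 1 / 2) * s * δ| ^ p) * U x) ≤
      ENNReal.ofReal (6 ^ p) * ∑' n : ℤ,
        ENNReal.ofReal ((s / (s + |(n : ℝ) - k * s|)) ^ p) * wt u δ n := by
    unfold wt
    rw [← lintegral_step hδ (fun n : ℤ => ENNReal.ofReal ((s / (s + |(n : ℝ) - k * s|)) ^ p)) u hum,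
      ← lintegral_const_mul']
    · apply lintegral_mono
      intro x
      simp only
      rw [← mul_assoc, ← ENNReal.ofReal_mul (by positivity), ENNReal.ofReal_mul (by positivity)]
      gcongr
      exact step2 hp hδ i k _ x ((mem_cell_iff hδ _ x).2 rfl)
    · exact ENNReal.ofReal_ne_top
  rw [hL] at hmain
  have hnn : ∀ n : ℤ, 0 ≤ (wt u δ n).toReal * (s / (s + |(n : ℝ) - k * s|)) ^ p := fun n => by
    positivity
  have hT : ∑' n : ℤ, ENNReal.ofReal ((s / (s + |(n : ℝ) - k * s|)) ^ p) * wt u δ n =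
      ENNReal.ofReal (∑' n : ℤ, (wt u δ n).toReal * (s / (s + |(n : ℝ) - k * s|)) ^ p) := by
    rw [ENNReal.ofReal_tsum_of_nonneg hnn hsum]
    congr 1
    funext n
    rw [ENNReal.ofReal_mul (by positivity), ENNReal.ofReal_toReal (hne n), mul_comm]
  rw [hT] at hR
  have hS : ∑ n ∈ E, wt u δ n = ENNReal.ofReal (∑ n ∈ E, (wt u δ n).toReal) := by
    rw [ENNReal.ofReal_sum_of_nonneg (fun n _ => by positivity)]
    apply Finset.sum_congr rfl
    intro n _
    rw [ENNReal.ofReal_toReal (hne n)]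
  rw [hS] at hmain
  have hTnn : 0 ≤ ∑' n : ℤ, (wt u δ n).toReal * (s / (s + |(n : ℝ) - k * s|)) ^ p :=
    tsum_nonneg hnn
  have hfinal : ENNReal.ofReal (∑ n ∈ E, (wt u δ n).toReal) ≤
      ENNReal.ofReal ((C * 6 ^ p) * ((E.card : ℝ) / s) ^ ε *
        ∑' n : ℤ, (wt u δ n).toReal * (s / (s + |(n : ℝ) - k * s|)) ^ p) := by
    refine hmain.trans ?_
    calc ENNReal.ofReal C * ENNReal.ofReal ((E.card * δ / (3 * s * δ)) ^ ε) *
          ∫⁻ x, ENNReal.ofReal ((3 * s * δ) ^ p /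
            ((3 * s * δ) ^ p + |x - (k + 1 / 2) * s * δ| ^ p) * U x)
        ≤ ENNReal.ofReal C * ENNReal.ofReal (((E.card : ℝ) / s) ^ ε) *
          (ENNReal.ofReal (6 ^ p) *
            ENNReal.ofReal (∑' n : ℤ, (wt u δ n).toReal * (s / (s + |(n : ℝ) - k * s|)) ^ p)) := by
          have hfrac : (E.card : ℝ) * δ / (3 * s * δ) ≤ (E.card : ℝ) / s := by
            rw [div_le_div_iff₀ (by positivity) (by positivity)]
            have : (0 : ℝ) ≤ E.card := by positivity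
            nlinarith [mul_nonneg this hsd.le]
          have hpow : ENNReal.ofReal (((E.card : ℝ) * δ / (3 * s * δ)) ^ ε) ≤
              ENNReal.ofReal (((E.card : ℝ) / s) ^ ε) :=
            ENNReal.ofReal_le_ofReal (Real.rpow_le_rpow (by positivity) hfrac hε.le)
          exact mul_le_mul' (mul_le_mul' le_rfl hpow) hR
      _ = _ := by
          rw [← ENNReal.ofReal_mul (by positivity), ← ENNReal.ofReal_mul (by positivity),
            ← ENNReal.ofReal_mul (by positivity)]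
          congr 1
          ring
  exact (ENNReal.ofReal_le_ofReal_iff (by positivity)).1 hfinal

/-! Part B -/

/-- the maximal function -/
noncomputable def MM (f : ℝ → ℝ) (x : ℝ) : ENNReal :=
  ⨆ a : ℝ, ⨆ b : ℝ, ⨆ (_ : a < x ∧ x < b),
    ENNReal.ofReal ((b - a)⁻¹) * ∫⁻ y in Set.Ioo a b, ‖f y‖ₑ

theorem MM_le (f : ℝ → ℝ) (B : ℝ) (hB : ∀ y, |f y| ≤ B) (x : ℝ) : MM f x ≤ ENNReal.ofReal B := by
  unfold MM
  refine iSup_le fun a => iSup_le fun b => iSup_le fun h => ?_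
  have hab : 0 < b - a := by linarith [h.1, h.2]
  calc ENNReal.ofReal ((b - a)⁻¹) * ∫⁻ y in Set.Ioo a b, ‖f y‖ₑ
      ≤ ENNReal.ofReal ((b - a)⁻¹) * ∫⁻ _ in Set.Ioo a b, ENNReal.ofReal B := by
        gcongr with y
        rw [Real.enorm_eq_ofReal_abs]
        exact ENNReal.ofReal_le_ofReal (hB y)
    _ = ENNReal.ofReal ((b - a)⁻¹) * (ENNReal.ofReal B * ENNReal.ofReal (b - a)) := by
        rw [setLIntegral_const, Real.volume_Ioo]
    _ = ENNReal.ofReal B := by
        rw [mul_comm (ENNReal.ofReal B), ← mul_assoc, ← ENNReal.ofReal_mul (by positivity),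
          inv_mul_cancel₀ hab.ne']
        simp

theorem MM_ge (f : ℝ → ℝ) (x a b : ℝ) (ha : a < x) (hb : x < b) :
    ∫⁻ y in Set.Ioo a b, ‖f y‖ₑ ≤ ENNReal.ofReal (b - a) * MM f x := by
  have hab : 0 < b - a := by linarith
  have h1 : ENNReal.ofReal ((b - a)⁻¹) * ∫⁻ y in Set.Ioo a b, ‖f y‖ₑ ≤ MM f x := by
    unfold MM
    refine le_iSup_of_le a (le_iSup_of_le b (le_iSup_of_le ⟨ha, hb⟩ le_rfl))
  calc ∫⁻ y in Set.Ioo a b, ‖f y‖ₑ
      = ENNReal.ofReal (b - a) * (ENNReal.ofReal ((b - a)⁻¹) * ∫⁻ y in Set.Ioo a b, ‖f y‖ₑ) := by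
        rw [← mul_assoc, ← ENNReal.ofReal_mul hab.le, mul_inv_cancel₀ hab.ne']
        simp
    _ ≤ _ := by gcongr

theorem MM_ge_real (f : ℝ → ℝ) (hf : Integrable f) (x : ℝ) (hx : MM f x ≠ ⊤) (a b : ℝ)
    (ha : a < x) (hb : x < b) :
    ∫ y in Set.Ioo a b, |f y| ≤ (b - a) * (MM f x).toReal := by
  have hab : 0 < b - a := by linarith
  have h1 := MM_ge f x a b ha hb
  have h2 : ∫⁻ y in Set.Ioo a b, ‖f y‖ₑ = ENNReal.ofReal (∫ y in Set.Ioo a b, |f y|) := by
    rw [← ofReal_integral_norm_eq_lintegral_enorm hf.integrableOn]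
    rfl
  rw [h2] at h1
  rw [← ENNReal.ofReal_toReal hx, ← ENNReal.ofReal_mul hab.le] at h1
  have h3 := (ENNReal.ofReal_le_ofReal_iff (by positivity)).1 h1
  exact h3

theorem integrable_of_supp (f : ℝ → ℝ) (hf : Continuous f) (R : ℝ)
    (hsupp : ∀ x, R ≤ |x| → f x = 0) : Integrable f := by
  apply hf.integrable_of_hasCompactSupport
  apply HasCompactSupport.intro (isCompact_Icc (a := -R) (b := R))
  intro x hx
  apply hsupp
  by_contra h
  push Not at h
  exact hx ⟨(abs_lt.1 h).1.le, (abs_lt.1 h).2.le⟩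

theorem cell_riemann (f : ℝ → ℝ) (hf : Continuous f) (Λ δ : ℝ) (hΛ : 0 ≤ Λ) (hδ : 0 < δ)
    (hint : Integrable f)
    (hlip : ∀ x y, |f x - f y| ≤ Λ * |x - y|) (v : ℤ) :
    δ * |f (v * δ)| ≤ (∫ y in cell δ v, |f y|) + Λ * δ ^ 2 := by
  have h1 : ∫ _ in cell δ v, |f (v * δ)| = δ * |f (v * δ)| := by
    rw [setIntegral_const, Measure.real, volume_cell, ENNReal.toReal_ofReal hδ.le, smul_eq_mul]
  have h2 : ∫ _ in cell δ v, (Λ * δ) = Λ * δ ^ 2 := by
    rw [setIntegral_const, Measure.real, volume_cell, ENNReal.toReal_ofReal hδ.le, smul_eq_mul]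
    ring
  have hfin : volume (cell δ v) ≠ ⊤ := by rw [volume_cell]; exact ENNReal.ofReal_ne_top
  rw [← h1, ← h2, ← integral_add hint.abs.integrableOn (integrableOn_const hfin)]
  apply setIntegral_mono_on (integrableOn_const hfin)
    (hint.abs.integrableOn.add (integrableOn_const hfin)) (measurableSet_cell δ v)
  intro y hy
  have h3 := cell_abs_le hδ v y hy
  have h4 := hlip (v * δ) y
  have h5 : |f (v * δ)| ≤ |f y| + |f (v * δ) - f y| := by
    calc |f (v * δ)| = |f y + (f (v * δ) - f y)| := by ring_nf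
      _ ≤ _ := abs_add_le _ _
  rw [abs_sub_comm (v * δ : ℝ) y] at h4
  have h6 : Λ * |y - v * δ| ≤ Λ * δ := by gcongr
  show |f (v * δ)| ≤ |f y| + Λ * δ
  linarith

theorem core (f : ℝ → ℝ) (hf : Continuous f) (Λ R δ : ℝ) (hΛ : 0 ≤ Λ) (hR : 0 ≤ R) (hδ : 0 < δ)
    (hδ1 : δ ≤ 1) (hlip : ∀ x y, |f x - f y| ≤ Λ * |x - y|)
    (hsupp : ∀ x, R ≤ |x| → f x = 0)
    (hL : Λ * δ * (2 * R + 1) * (R + 2) ≤ ∫ x, |f x|)
    (u n : ℤ) (t : ℕ) (hun : u ≤ n) (hn : n < u + 2 ^ t) (x : ℝ) (hx : x ∈ cell δ n) (m : ℝ)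
    (hm : ∀ a b, a < x → x < b → ∫ y in Set.Ioo a b, |f y| ≤ (b - a) * m) :
    ∑ v ∈ Finset.Ico u (u + 2 ^ t), |f (v * δ)| ≤ 2 ^ t * (4 * m) := by
  classical
  have hint : Integrable f := integrable_of_supp f hf R hsupp
  set s : ℝ := 2 ^ t with hs
  have hs1 : 1 ≤ s := one_le_pow₀ (by norm_num)
  have hs0 : 0 < s := by linarith
  have hm0 : 0 ≤ m := by
    have h1 := hm (x - 1) (x + 1) (by linarith) (by linarith)
    have h2 : 0 ≤ ∫ y in Set.Ioo (x - 1) (x + 1), |f y| := integral_nonneg fun y => abs_nonneg _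
    nlinarith
  have hunR : (u : ℝ) ≤ n := by exact_mod_cast hun
  have hnR : (n : ℝ) + 1 ≤ u + s := by
    have : n + 1 ≤ u + 2 ^ t := hn
    have h3 : ((n + 1 : ℤ) : ℝ) ≤ ((u + 2 ^ t : ℤ) : ℝ) := by exact_mod_cast this
    push_cast at h3
    exact h3
  obtain ⟨hx1, hx2⟩ := hx
  have hxu : u * δ ≤ x := le_trans (by gcongr) hx1
  have hxu2 : x < (u + s) * δ := lt_of_lt_of_le hx2 (by gcongr)
  set S : Finset ℤ := Finset.Ico u (u + 2 ^ t) with hS
  set P : Finset ℤ := S.filter (fun v : ℤ => |(v : ℝ) * δ| < R) with hP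
  -- per cell bound
  have hcell : ∀ v ∈ S, δ * |f (v * δ)| ≤ (∫ y in cell δ v, |f y|) +
      (if |(v : ℝ) * δ| < R then Λ * δ ^ 2 else 0) := by
    intro v _
    split_ifs with h
    · exact cell_riemann f hf Λ δ hΛ hδ hint hlip v
    · rw [hsupp _ (not_lt.1 h)]
      have : 0 ≤ ∫ y in cell δ v, |f y| := integral_nonneg fun y => abs_nonneg _
      simp only [abs_zero, mul_zero, add_zero]
      exact this
  have hsum1 : δ * ∑ v ∈ S, |f (v * δ)| ≤ (∑ v ∈ S, ∫ y in cell δ v, |f y|) +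
      P.card * (Λ * δ ^ 2) := by
    rw [Finset.mul_sum]
    calc ∑ v ∈ S, δ * |f (v * δ)| ≤ ∑ v ∈ S, ((∫ y in cell δ v, |f y|) +
          (if |(v : ℝ) * δ| < R then Λ * δ ^ 2 else 0)) := Finset.sum_le_sum hcell
      _ = _ := by
          rw [Finset.sum_add_distrib, ← Finset.sum_filter, Finset.sum_const, nsmul_eq_mul]
  have hsum2 : ∑ v ∈ S, ∫ y in cell δ v, |f y| ≤ 2 * (s * δ) * m := by
    have h1 : ∑ v ∈ S, ∫ y in cell δ v, |f y| = ∫ y in ⋃ v ∈ S, cell δ v, |f y| := by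
      rw [integral_biUnion_finset S (fun v _ => measurableSet_cell δ v)]
      · exact fun a _ b _ hab => disjoint_cell hδ hab
      · exact fun v _ => hint.abs.integrableOn
    have h2 : (⋃ v ∈ S, cell δ v) ⊆ Set.Ioo ((u - 1) * δ) ((u + s) * δ) := by
      intro y hy
      simp only [Set.mem_iUnion] at hy
      obtain ⟨v, hv, hy1, hy2⟩ := hy
      have h3 := Finset.mem_Ico.1 hv
      have h4 : (u : ℝ) ≤ v := by exact_mod_cast h3.1
      have h5 : (v : ℝ) + 1 ≤ u + s := by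
        have : v + 1 ≤ u + 2 ^ t := h3.2
        have h3 : ((v + 1 : ℤ) : ℝ) ≤ ((u + 2 ^ t : ℤ) : ℝ) := by exact_mod_cast this
        push_cast at h3
        exact h3
      constructor
      · calc ((u : ℝ) - 1) * δ < u * δ := by nlinarith
          _ ≤ v * δ := by gcongr
          _ ≤ y := hy1
      · calc y < (v + 1) * δ := hy2
          _ ≤ (u + s) * δ := by gcongr
    have h3 := hm ((u - 1) * δ) ((u + s) * δ) (by nlinarith) hxu2
    calc ∑ v ∈ S, ∫ y in cell δ v, |f y| = ∫ y in ⋃ v ∈ S, cell δ v, |f y| := h1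
      _ ≤ ∫ y in Set.Ioo ((u - 1) * δ) ((u + s) * δ), |f y| := by
          apply setIntegral_mono_set hint.abs.integrableOn
          · exact Eventually.of_forall fun y => abs_nonneg _
          · exact h2.eventuallyLE
      _ ≤ ((u + s) * δ - (u - 1) * δ) * m := h3
      _ ≤ 2 * (s * δ) * m := by
          have : (u + s) * δ - (u - 1) * δ = (s + 1) * δ := by ring
          rw [this]
          have h4 : (s + 1) * δ ≤ 2 * (s * δ) := by nlinarith
          gcongr
  have hsum3 : P.card * (Λ * δ ^ 2) ≤ 2 * (s * δ) * m := by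
    rcases Finset.eq_empty_or_nonempty P with hPe | ⟨v0, hv0⟩
    · rw [hPe]
      simp only [Finset.card_empty, Nat.cast_zero, zero_mul]
      positivity
    · rw [hP, Finset.mem_filter, hS, Finset.mem_Ico] at hv0
      obtain ⟨⟨hv1, hv2⟩, hv3⟩ := hv0
      have hv1R : (u : ℝ) ≤ v0 := by exact_mod_cast hv1
      have hv2R : (v0 : ℝ) ≤ u + s := by
        have h3 : ((v0 : ℤ) : ℝ) ≤ ((u + 2 ^ t : ℤ) : ℝ) := by exact_mod_cast hv2.le
        push_cast at h3
        exact h3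
      rw [abs_lt] at hv3
      -- all of the mass
      set q : ℝ := s * δ with hq
      have hq0 : 0 < q := by positivity
      have hlow : -R - q - 1 < x := by
        have : v0 * δ ≤ (u + s) * δ := by gcongr
        nlinarith
      have hhigh : x < R + q + 1 := by
        have : u * δ ≤ v0 * δ := by gcongr
        nlinarith
      have hall := hm (-R - q - 1) (R + q + 1) hlow hhigh
      have hall2 : ∫ y in Set.Ioo (-R - q - 1) (R + q + 1), |f y| = ∫ y, |f y| := by
        apply setIntegral_eq_integral_of_forall_compl_eq_zero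
        intro y hy
        rw [hsupp y, abs_zero]
        by_contra h
        push Not at h
        rw [abs_lt] at h
        exact hy ⟨by linarith [h.1], by linarith [h.2]⟩
      rw [hall2] at hall
      -- count
      have hc1 : (P.card : ℝ) ≤ s := by
        have h1 : P.card ≤ S.card := Finset.card_le_card (Finset.filter_subset _ _)
        have h2 : S.card = 2 ^ t := by
          rw [hS, Int.card_Ico]
          have : u + 2 ^ t - u = ((2 ^ t : ℕ) : ℤ) := by push_cast; ring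
          rw [this, Int.toNat_natCast]
        rw [h2] at h1
        calc (P.card : ℝ) ≤ ((2 ^ t : ℕ) : ℝ) := by exact_mod_cast h1
          _ = s := by rw [hs]; push_cast; ring
      have hc2 : (P.card : ℝ) * δ ≤ 2 * R + 1 := by
        have h1 : P ⊆ Finset.Icc (-⌊R / δ⌋) ⌊R / δ⌋ := by
          intro v hv
          rw [hP, Finset.mem_filter] at hv
          have hv' := abs_lt.1 hv.2
          rw [Finset.mem_Icc]
          constructor
          · rw [neg_le, Int.le_floor, le_div_iff₀ hδ]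
            push_cast
            linarith [hv'.1]
          · rw [Int.le_floor, le_div_iff₀ hδ]
            linarith [hv'.2]
        have h2 := Finset.card_le_card h1
        rw [Int.card_Icc] at h2
        have hfl : 0 ≤ ⌊R / δ⌋ := Int.floor_nonneg.2 (by positivity)
        have h3 : (P.card : ℤ) ≤ 2 * ⌊R / δ⌋ + 1 := by
          have : ((⌊R / δ⌋ + 1 - -⌊R / δ⌋).toNat : ℤ) = 2 * ⌊R / δ⌋ + 1 := by
            rw [Int.toNat_of_nonneg (by linarith)]; ring
          rw [← this]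
          exact_mod_cast h2
        have h4 : (P.card : ℝ) ≤ 2 * ⌊R / δ⌋ + 1 := by exact_mod_cast h3
        have h5 : (⌊R / δ⌋ : ℝ) * δ ≤ R := by
          rw [← le_div_iff₀ hδ]; exact Int.floor_le _
        calc (P.card : ℝ) * δ ≤ (2 * ⌊R / δ⌋ + 1) * δ := by gcongr
          _ = 2 * (⌊R / δ⌋ * δ) + δ := by ring
          _ ≤ 2 * R + 1 := by linarith
      have hc0 : (0 : ℝ) ≤ P.card := by positivity
      -- `Λ δ (2R+1)(R+2) ≤ (2R + 2q + 2) m`
      have hfin : Λ * δ * (2 * R + 1) * (R + 2) ≤ 2 * (R + q + 1) * m := by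
        calc Λ * δ * (2 * R + 1) * (R + 2) ≤ _ := hL
          _ ≤ _ := hall
          _ = _ := by ring
      rcases le_total q 1 with hq1 | hq1
      · -- card δ ≤ q
        have h1 : (P.card : ℝ) * (Λ * δ ^ 2) ≤ q * (Λ * δ) := by
          calc (P.card : ℝ) * (Λ * δ ^ 2) ≤ s * (Λ * δ ^ 2) := by gcongr
            _ = q * (Λ * δ) := by rw [hq]; ring
        have h2 : 2 * (R + q + 1) * m ≤ 2 * (R + 2) * m := by
          have : R + q + 1 ≤ R + 2 := by linarith
          gcongr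
        have h3 : Λ * δ * (R + 2) ≤ 2 * (R + 2) * m := by
          have h4 : 0 ≤ Λ * δ * (R + 2) := by positivity
          have h5 : Λ * δ * (R + 2) ≤ Λ * δ * (2 * R + 1) * (R + 2) := by nlinarith
          linarith
        have h4 : Λ * δ ≤ 2 * m := by
          by_contra h
          push Not at h
          have : 0 < R + 2 := by linarith
          nlinarith
        calc (P.card : ℝ) * (Λ * δ ^ 2) ≤ q * (Λ * δ) := h1
          _ ≤ q * (2 * m) := by gcongr
          _ = 2 * q * m := by ring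
      · have h1 : (P.card : ℝ) * (Λ * δ ^ 2) ≤ (2 * R + 1) * (Λ * δ) := by
          calc (P.card : ℝ) * (Λ * δ ^ 2) = (P.card * δ) * (Λ * δ) := by ring
            _ ≤ (2 * R + 1) * (Λ * δ) := by gcongr
        have h2 : 2 * (R + q + 1) * m ≤ 2 * ((R + 2) * q) * m := by
          have : R + q + 1 ≤ (R + 2) * q := by nlinarith
          gcongr
        have h3 : Λ * δ * (2 * R + 1) ≤ 2 * q * m := by
          by_contra h
          push Not at h
          have h5 : 0 < R + 2 := by linarith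
          have h6 : 2 * ((R + 2) * q) * m = (2 * q * m) * (R + 2) := by ring
          have h7 := mul_lt_mul_of_pos_right h h5
          linarith
        linarith
  have hfinal : δ * ∑ v ∈ S, |f (v * δ)| ≤ δ * (s * (4 * m)) := by
    calc δ * ∑ v ∈ S, |f (v * δ)| ≤ _ := hsum1
      _ ≤ 2 * (s * δ) * m + 2 * (s * δ) * m := add_le_add hsum2 hsum3
      _ = _ := by ring
  exact le_of_mul_le_mul_left hfinal hδ

/-- the discrete majorant -/
noncomputable def GG (f : ℝ → ℝ) (δ : ℝ) (n : ℤ) : ℝ :=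
  4 * (⨅ x ∈ cell δ n, MM f x).toReal

theorem cell_nonempty {δ : ℝ} (hδ : 0 < δ) (n : ℤ) : (n : ℝ) * δ ∈ cell δ n := by
  constructor
  · exact le_rfl
  · nlinarith

theorem inf_ne_top (f : ℝ → ℝ) (B : ℝ) (hB : ∀ y, |f y| ≤ B) {δ : ℝ} (hδ : 0 < δ) (n : ℤ) :
    (⨅ x ∈ cell δ n, MM f x) ≠ ⊤ := by
  have h1 : (⨅ x ∈ cell δ n, MM f x) ≤ MM f (n * δ) := iInf₂_le _ (cell_nonempty hδ n)
  exact (lt_of_le_of_lt (h1.trans (MM_le f B hB _)) ENNReal.ofReal_lt_top).ne

theorem GG_nonneg (f : ℝ → ℝ) (δ : ℝ) (n : ℤ) : 0 ≤ GG f δ n := by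
  unfold GG; positivity

theorem GG_ofReal_le (f : ℝ → ℝ) (δ : ℝ) (n : ℤ) (x : ℝ) (hx : x ∈ cell δ n) :
    ENNReal.ofReal (GG f δ n) ≤ ENNReal.ofReal 4 * MM f x := by
  unfold GG
  rw [ENNReal.ofReal_mul (by norm_num)]
  gcongr
  exact ENNReal.ofReal_toReal_le.trans (iInf₂_le x hx)

theorem GG_ge (f : ℝ → ℝ) (hf : Continuous f) (Λ R δ B : ℝ) (hΛ : 0 ≤ Λ) (hR : 0 ≤ R)
    (hδ : 0 < δ) (hB : ∀ y, |f y| ≤ B)
    (hδ1 : δ ≤ 1) (hlip : ∀ x y, |f x - f y| ≤ Λ * |x - y|)
    (hsupp : ∀ x, R ≤ |x| → f x = 0)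
    (hL : Λ * δ * (2 * R + 1) * (R + 2) ≤ ∫ x, |f x|)
    (n u : ℤ) (t : ℕ) (hun : u ≤ n) (hn : n < u + 2 ^ t) :
    ∑ v ∈ Finset.Ico u (u + 2 ^ t), |f (v * δ)| ≤ 2 ^ t * GG f δ n := by
  have hint : Integrable f := integrable_of_supp f hf R hsupp
  have h1 : ∀ x ∈ cell δ n,
      ENNReal.ofReal ((∑ v ∈ Finset.Ico u (u + 2 ^ t), |f (v * δ)|) / (2 ^ t * 4)) ≤ MM f x := by
    intro x hx
    have hne : MM f x ≠ ⊤ := (lt_of_le_of_lt (MM_le f B hB _) ENNReal.ofReal_lt_top).ne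
    have h2 := core f hf Λ R δ hΛ hR hδ hδ1 hlip hsupp hL u n t hun hn x hx (MM f x).toReal
      (fun a b ha hb => MM_ge_real f hint x hne a b ha hb)
    rw [ENNReal.ofReal_le_iff_le_toReal hne, div_le_iff₀ (by positivity)]
    linarith
  have h2 : ENNReal.ofReal ((∑ v ∈ Finset.Ico u (u + 2 ^ t), |f (v * δ)|) / (2 ^ t * 4)) ≤
      ⨅ x ∈ cell δ n, MM f x := le_iInf₂ h1
  rw [ENNReal.ofReal_le_iff_le_toReal (inf_ne_top f B hB hδ n), div_le_iff₀ (by positivity)] at h2
  unfold GG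
  linarith

theorem sum_GG_le {p : ℝ} (hp : 0 < p) (f : ℝ → ℝ) {δ : ℝ} (hδ : 0 < δ) (u : ℝ → ENNReal)
    (hu : Measurable u) :
    ∑' n : ℤ, ENNReal.ofReal (GG f δ n ^ p) * wt u δ n ≤
      ENNReal.ofReal (4 ^ p) * ∫⁻ x, MM f x ^ p * u x := by
  rw [← lintegral_const_mul' _ _ ENNReal.ofReal_ne_top, lintegral_cells hδ]
  apply ENNReal.tsum_le_tsum
  intro n
  unfold wt
  rw [← lintegral_const_mul _ hu]
  apply setLIntegral_mono' (measurableSet_cell δ n)
  intro x hx
  rw [← mul_assoc]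
  gcongr
  have h1 := GG_ofReal_le f δ n x hx
  rw [← ENNReal.ofReal_rpow_of_nonneg (GG_nonneg f δ n) hp.le,
    ← ENNReal.ofReal_rpow_of_nonneg (by norm_num) hp.le, ← ENNReal.mul_rpow_of_nonneg _ _ hp.le]
  exact ENNReal.rpow_le_rpow h1 hp.le

/-! Part C: convergence of the discrete transform -/

theorem sum_eq_of_supp (A B : Finset ℤ) (g : ℤ → ℝ) (hA : ∀ m ∈ A, m ∉ B → g m = 0)
    (hB : ∀ m ∈ B, m ∉ A → g m = 0) : ∑ m ∈ A, g m = ∑ m ∈ B, g m := by
  classical
  have h1 : ∑ m ∈ A, g m = ∑ m ∈ A ∪ B, g m := by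
    apply Finset.sum_subset Finset.subset_union_left
    intro m hm hmA
    rcases Finset.mem_union.1 hm with h | h
    · exact absurd h hmA
    · exact hB m h hmA
  have h2 : ∑ m ∈ B, g m = ∑ m ∈ A ∪ B, g m := by
    apply Finset.sum_subset Finset.subset_union_right
    intro m hm hmB
    rcases Finset.mem_union.1 hm with h | h
    · exact hA m h hmB
    · exact absurd h hmB
  rw [h1, h2]

/-- symmetric summation -/
theorem sum_symm (F : Finset ℤ) (n : ℤ) (N : ℕ) (g : ℤ → ℝ) (hF : ∀ m, m ∉ F → g m = 0)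
    (hN : ∀ m : ℤ, (N : ℤ) < |m - n| → g m = 0) :
    ∑ m ∈ F.erase n, g m = ∑ k ∈ Finset.range N, (g (n - (k + 1)) + g (n + (k + 1))) := by
  classical
  set S1 : Finset ℤ := (Finset.range N).image (fun k : ℕ => n - ((k : ℤ) + 1)) with hS1
  set S2 : Finset ℤ := (Finset.range N).image (fun k : ℕ => n + ((k : ℤ) + 1)) with hS2
  have hd : Disjoint S1 S2 := by
    rw [Finset.disjoint_left]
    intro m h1 h2
    rw [hS1, Finset.mem_image] at h1
    rw [hS2, Finset.mem_image] at h2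
    obtain ⟨a, _, ha⟩ := h1
    obtain ⟨b, _, hb⟩ := h2
    omega
  have e1 : ∑ m ∈ S1, g m = ∑ k ∈ Finset.range N, g (n - (k + 1)) := by
    rw [hS1, Finset.sum_image]
    intro a _ b _ hab
    simp only at hab
    omega
  have e2 : ∑ m ∈ S2, g m = ∑ k ∈ Finset.range N, g (n + (k + 1)) := by
    rw [hS2, Finset.sum_image]
    intro a _ b _ hab
    simp only at hab
    omega
  rw [Finset.sum_add_distrib, ← e1, ← e2, ← Finset.sum_union hd]
  apply sum_eq_of_supp
  · intro m hm hm'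
    apply hN
    rw [Finset.mem_erase] at hm
    by_contra h
    push Not at h
    apply hm'
    rw [Finset.mem_union, hS1, hS2, Finset.mem_image, Finset.mem_image]
    rcases lt_trichotomy m n with h1 | h1 | h1
    · left
      rw [abs_of_neg (by omega)] at h
      refine ⟨(n - m - 1).toNat, ?_, ?_⟩
      · rw [Finset.mem_range]; omega
      · omega
    · exact absurd h1 hm.1
    · right
      rw [abs_of_pos (by omega)] at h
      refine ⟨(m - n - 1).toNat, ?_, ?_⟩
      · rw [Finset.mem_range]; omega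
      · omega
  · intro m hm hm'
    apply hF
    intro hmF
    apply hm'
    rw [Finset.mem_erase]
    refine ⟨?_, hmF⟩
    rw [Finset.mem_union, hS1, hS2, Finset.mem_image, Finset.mem_image] at hm
    rcases hm with ⟨a, _, ha⟩ | ⟨a, _, ha⟩ <;> omega

/-- the kernel -/
noncomputable def ph (f : ℝ → ℝ) (y t : ℝ) : ℝ := (f (y - t) - f (y + t)) / t

theorem ph_bound (f : ℝ → ℝ) (Λ : ℝ) (hlip : ∀ x y, |f x - f y| ≤ Λ * |x - y|) (hΛ : 0 ≤ Λ)
    (y t : ℝ) : |ph f y t| ≤ 2 * Λ := by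
  unfold ph
  rcases eq_or_ne t 0 with h | h
  · rw [h]; simp; positivity
  · rw [abs_div, div_le_iff₀ (abs_pos.2 h)]
    have h1 := hlip (y - t) (y + t)
    have h2 : |y - t - (y + t)| = 2 * |t| := by
      have : y - t - (y + t) = -(2 * t) := by ring
      rw [this, abs_neg, abs_mul]
      norm_num
    rw [h2] at h1
    linarith

theorem ph_measurable (f : ℝ → ℝ) (hf : Continuous f) (y : ℝ) : Measurable (ph f y) := by
  unfold ph
  have h1 : Measurable fun t : ℝ => f (y - t) := (hf.comp (continuous_const.sub continuous_id)).measurable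
  have h2 : Measurable fun t : ℝ => f (y + t) := (hf.comp (continuous_const.add continuous_id)).measurable
  exact (h1.sub h2).div measurable_id

theorem ph_int (f : ℝ → ℝ) (hf : Continuous f) (Λ : ℝ)
    (hlip : ∀ x y, |f x - f y| ≤ Λ * |x - y|) (hΛ : 0 ≤ Λ) (y : ℝ) (g : ℝ → ℝ) (hg : Measurable g)
    (a b : ℝ) : IntervalIntegrable (fun t => ph f y (g t)) volume a b := by
  rw [intervalIntegrable_iff]
  apply MeasureTheory.Measure.integrableOn_of_bounded (M := 2 * Λ)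
  · rw [Set.uIoc, Real.volume_Ioc]; exact ENNReal.ofReal_ne_top
  · exact ((ph_measurable f hf y).comp hg).aestronglyMeasurable
  · exact Eventually.of_forall fun t => by
      rw [Real.norm_eq_abs]; exact ph_bound f Λ hlip hΛ y _

/-- the truncated integrals -/
theorem trunc_eq (f : ℝ → ℝ) (hf : Continuous f) (x T δ : ℝ) (hδ : 0 < δ) (hδT : δ ≤ T)
    (hT : ∀ y, T ≤ |x - y| → f y = 0) :
    ∫ y in {y : ℝ | δ < |x - y|}, f y / (x - y) = ∫ t in δ..T, ph f x t := by
  have hS : MeasurableSet {y : ℝ | δ < |x - y|} :=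
    measurableSet_lt measurable_const (by fun_prop)
  -- restrict to the bounded set
  have h1 : ∫ y in {y : ℝ | δ < |x - y|}, f y / (x - y) =
      ∫ y in Set.Ioc (x - T) (x - δ) ∪ Set.Ioc (x + δ) (x + T), f y / (x - y) := by
    rw [← integral_indicator hS, ← integral_indicator
      (measurableSet_Ioc.union measurableSet_Ioc)]
    apply integral_congr_ae
    have hne : ∀ᵐ y : ℝ, y ≠ x - δ := by
      have : volume ({x - δ} : Set ℝ) = 0 := Real.volume_singleton
      rw [ae_iff]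
      simpa using this
    filter_upwards [hne] with y hy
    by_cases hfy : f y = 0
    · simp only [Set.indicator, hfy, zero_div, ite_self]
    · have h2 : |x - y| < T := by
        by_contra h
        exact hfy (hT y (not_lt.1 h))
      rw [abs_lt] at h2
      have h3 : y ∈ {y : ℝ | δ < |x - y|} ↔
          y ∈ Set.Ioc (x - T) (x - δ) ∪ Set.Ioc (x + δ) (x + T) := by
        rw [Set.mem_setOf_eq, lt_abs, Set.mem_union, Set.mem_Ioc, Set.mem_Ioc]
        constructor
        · rintro (h | h)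
          · left; constructor <;> linarith
          · right; constructor <;> linarith
        · rintro (⟨ha, hb⟩ | ⟨ha, hb⟩)
          · left
            have : y < x - δ := lt_of_le_of_ne hb hy
            linarith
          · right; linarith
      by_cases h4 : y ∈ {y : ℝ | δ < |x - y|}
      · rw [Set.indicator_of_mem h4, Set.indicator_of_mem (h3.1 h4)]
      · rw [Set.indicator_of_notMem h4, Set.indicator_of_notMem (fun h => h4 (h3.2 h))]
  have hc1 : ContinuousOn (fun y => f y / (x - y)) (Set.Icc (x - T) (x - δ)) := by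
    apply ContinuousOn.div hf.continuousOn (by fun_prop)
    intro y hy; have := hy.2; intro h0; linarith
  have hc2 : ContinuousOn (fun y => f y / (x - y)) (Set.Icc (x + δ) (x + T)) := by
    apply ContinuousOn.div hf.continuousOn (by fun_prop)
    intro y hy; have := hy.1; intro h0; linarith
  have hi1 : IntegrableOn (fun y => f y / (x - y)) (Set.Ioc (x - T) (x - δ)) :=
    (hc1.integrableOn_compact isCompact_Icc).mono_set Set.Ioc_subset_Icc_self
  have hi2 : IntegrableOn (fun y => f y / (x - y)) (Set.Ioc (x + δ) (x + T)) :=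
    (hc2.integrableOn_compact isCompact_Icc).mono_set Set.Ioc_subset_Icc_self
  have hdisj : Disjoint (Set.Ioc (x - T) (x - δ)) (Set.Ioc (x + δ) (x + T)) := by
    rw [Set.disjoint_left]
    intro y hy hy'
    linarith [hy.2, hy'.1]
  rw [h1, setIntegral_union hdisj measurableSet_Ioc hi1 hi2,
    ← intervalIntegral.integral_of_le (by linarith), ← intervalIntegral.integral_of_le (by linarith)]
  have e1 : ∫ y in (x - T)..(x - δ), f y / (x - y) = ∫ t in δ..T, f (x - t) / t := by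
    have := intervalIntegral.integral_comp_sub_left (a := δ) (b := T) (fun y => f y / (x - y)) x
    rw [← this]
    apply intervalIntegral.integral_congr
    intro t _
    simp
  have e2 : ∫ y in (x + δ)..(x + T), f y / (x - y) = ∫ t in δ..T, -(f (x + t) / t) := by
    have := intervalIntegral.integral_comp_add_left (a := δ) (b := T) (fun y => f y / (x - y)) x
    rw [← this]
    apply intervalIntegral.integral_congr
    intro t _
    simp only
    rw [show x - (x + t) = -t by ring, div_neg]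
  have hd1 : IntervalIntegrable (fun t => f (x - t) / t) volume δ T := by
    apply ContinuousOn.intervalIntegrable
    rw [Set.uIcc_of_le hδT]
    apply ContinuousOn.div (by fun_prop) (by fun_prop)
    intro t ht; have := ht.1; intro h0; linarith
  have hd2 : IntervalIntegrable (fun t => -(f (x + t) / t)) volume δ T := by
    apply ContinuousOn.intervalIntegrable
    rw [Set.uIcc_of_le hδT]
    apply ContinuousOn.neg
    apply ContinuousOn.div (by fun_prop) (by fun_prop)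
    intro t ht; have := ht.1; intro h0; linarith
  rw [e1, e2, ← intervalIntegral.integral_add hd1 hd2]
  apply intervalIntegral.integral_congr
  intro t _
  simp only [ph]
  ring

theorem limit_eq (f : ℝ → ℝ) (hf : Continuous f) (Λ : ℝ)
    (hlip : ∀ x y, |f x - f y| ≤ Λ * |x - y|) (hΛ : 0 ≤ Λ) (x T h : ℝ) (hT0 : 0 < T)
    (hT : ∀ y, T ≤ |x - y| → f y = 0)
    (hH : Tendsto (fun δ : ℝ => ∫ y in {y : ℝ | δ < |x - y|}, f y / (x - y))
                (𝓝[>] (0 : ℝ)) (𝓝 h)) : ∫ t in (0 : ℝ)..T, ph f x t = h := by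
  refine tendsto_nhds_unique ?_ hH
  have hev : ∀ᶠ δ : ℝ in 𝓝[>] (0 : ℝ), 0 < δ ∧ δ < T :=
    Ioo_mem_nhdsGT hT0
  have h1 : Tendsto (fun δ : ℝ => ∫ t in δ..T, ph f x t) (𝓝[>] (0 : ℝ))
      (𝓝 (∫ t in (0 : ℝ)..T, ph f x t)) := by
    rw [tendsto_iff_norm_sub_tendsto_zero]
    have h2 : Tendsto (fun δ : ℝ => 2 * Λ * |δ - 0|) (𝓝[>] (0 : ℝ)) (𝓝 0) := by
      have : Tendsto (fun δ : ℝ => 2 * Λ * |δ - 0|) (𝓝 (0 : ℝ)) (𝓝 (2 * Λ * |(0 : ℝ) - 0|)) := by
        apply Continuous.tendsto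
        fun_prop
      simp only [sub_zero, abs_zero, mul_zero] at this
      simp only [sub_zero]
      exact this.mono_left nhdsWithin_le_nhds
    refine squeeze_zero (fun δ => norm_nonneg _) (fun δ => ?_) h2
    have hi := fun a b => ph_int f hf Λ hlip hΛ x id measurable_id a b
    have h3 : (∫ t in δ..T, ph f x t) - ∫ t in (0 : ℝ)..T, ph f x t = -∫ t in (0 : ℝ)..δ, ph f x t := by
      have := intervalIntegral.integral_add_adjacent_intervals (hi 0 δ) (hi δ T)
      simp only [id] at this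
      rw [← this]
      ring
    rw [h3, norm_neg]
    apply intervalIntegral.norm_integral_le_of_norm_le_const
    intro t _
    rw [Real.norm_eq_abs]
    exact ph_bound f Λ hlip hΛ x t
  refine h1.congr' ?_
  filter_upwards [hev] with δ hδ
  exact (trunc_eq f hf x T δ hδ.1 hδ.2.le hT).symm

/-- the discrete sum as an integral -/
theorem discrete_eq (f : ℝ → ℝ) (hf : Continuous f) (Λ : ℝ)
    (hlip : ∀ x y, |f x - f y| ≤ Λ * |x - y|) (hΛ : 0 ≤ Λ) (δ : ℝ) (hδ : 0 < δ) (n : ℤ)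
    (F : Finset ℤ) (hF : ∀ m : ℤ, m ∉ F → f (m * δ) = 0) (N : ℕ)
    (hN : ∀ m : ℤ, (N : ℤ) < |m - n| → f (m * δ) = 0) :
    ∑ m ∈ F.erase n, f (m * δ) / ((n : ℝ) - m) =
      ∫ t in (0 : ℝ)..(N * δ), ph f (n * δ) (⌈t / δ⌉ * δ) := by
  rw [sum_symm F n N (fun m => f (m * δ) / ((n : ℝ) - m)) (fun m hm => by simp [hF m hm])
    (fun m hm => by simp [hN m hm])]
  have hmeas : Measurable fun t : ℝ => (⌈t / δ⌉ : ℝ) * δ := by
    have h1 : Measurable fun t : ℝ => ⌈t / δ⌉ := Int.measurable_ceil.comp (measurable_id.div_const δ)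
    have h2 : Measurable fun t : ℝ => (⌈t / δ⌉ : ℝ) := (measurable_from_top (f := fun z : ℤ => (z : ℝ))).comp h1
    exact h2.mul_const δ
  have hi := fun a b => ph_int f hf Λ hlip hΛ (n * δ) _ hmeas a b
  have h1 := intervalIntegral.sum_integral_adjacent_intervals (μ := volume)
    (f := fun t => ph f (n * δ) (⌈t / δ⌉ * δ)) (a := fun k : ℕ => (k : ℝ) * δ) (n := N)
    (fun k _ => hi _ _)
  simp only [Nat.cast_zero, zero_mul] at h1
  rw [← h1]
  apply Finset.sum_congr rfl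
  intro k _
  have h2 : ∫ t in ((k : ℝ) * δ)..(((k + 1 : ℕ) : ℝ) * δ), ph f (n * δ) (⌈t / δ⌉ * δ) =
      ∫ _ in ((k : ℝ) * δ)..(((k + 1 : ℕ) : ℝ) * δ), ph f (n * δ) ((k + 1) * δ) := by
    have hle : (k : ℝ) * δ ≤ ((k + 1 : ℕ) : ℝ) * δ := by push_cast; nlinarith
    rw [intervalIntegral.integral_of_le hle, intervalIntegral.integral_of_le hle]
    apply setIntegral_congr_fun measurableSet_Ioc
    intro t ht
    have hc : ⌈t / δ⌉ = (k : ℤ) + 1 := by
      rw [Int.ceil_eq_iff]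
      constructor
      · rw [lt_div_iff₀ hδ]; push_cast; simpa using ht.1
      · rw [div_le_iff₀ hδ]; push_cast; simpa using ht.2
    simp only [hc]
    push_cast
    rfl
  rw [h2, intervalIntegral.integral_const, smul_eq_mul]
  unfold ph
  have hk : (0 : ℝ) < (k : ℝ) + 1 := by positivity
  push_cast
  rw [show (n : ℝ) * δ - (k + 1) * δ = ((n : ℝ) - (k + 1)) * δ by ring,
    show (n : ℝ) * δ + (k + 1) * δ = ((n : ℝ) + (k + 1)) * δ by ring,
    show (n : ℝ) - (n - (k + 1)) = k + 1 by ring, show (n : ℝ) - (n + (k + 1)) = -(k + 1) by ring]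
  field_simp
  ring

/-- the mesh -/
noncomputable def dl (j0 j : ℕ) : ℝ := 1 / ((j : ℝ) + j0 + 1)

theorem dl_pos (j0 j : ℕ) : 0 < dl j0 j := by unfold dl; positivity

theorem dl_tendsto (j0 : ℕ) : Tendsto (dl j0) atTop (𝓝 0) := by
  have h1 : Tendsto (fun n : ℕ => 1 / ((n : ℝ) + 1)) atTop (𝓝 0) :=
    tendsto_one_div_add_atTop_nhds_zero_nat
  have h2 := h1.comp (tendsto_add_atTop_nat j0)
  refine h2.congr ?_
  intro n
  simp only [Function.comp, dl]
  push_cast
  ring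

theorem dl_le_one (j0 j : ℕ) : dl j0 j ≤ 1 := by
  unfold dl
  rw [div_le_one (by positivity)]
  have : (0 : ℝ) ≤ j := by positivity
  have : (0 : ℝ) ≤ j0 := by positivity
  linarith

theorem floor_tendsto (j0 : ℕ) (x : ℝ) :
    Tendsto (fun j => (⌊x / dl j0 j⌋ : ℝ) * dl j0 j) atTop (𝓝 x) := by
  rw [tendsto_iff_norm_sub_tendsto_zero]
  refine squeeze_zero (fun _ => norm_nonneg _) (fun j => ?_) (dl_tendsto j0)
  have hd := dl_pos j0 j
  have h1 := Int.floor_le (x / dl j0 j)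
  have h2 := Int.lt_floor_add_one (x / dl j0 j)
  rw [le_div_iff₀ hd] at h1
  rw [div_lt_iff₀ hd] at h2
  rw [Real.norm_eq_abs, abs_le]
  constructor <;> linarith

theorem ceil_tendsto (j0 : ℕ) (x : ℝ) :
    Tendsto (fun j => (⌈x / dl j0 j⌉ : ℝ) * dl j0 j) atTop (𝓝 x) := by
  rw [tendsto_iff_norm_sub_tendsto_zero]
  refine squeeze_zero (fun _ => norm_nonneg _) (fun j => ?_) (dl_tendsto j0)
  have hd := dl_pos j0 j
  have h1 := Int.le_ceil (x / dl j0 j)
  have h2 := Int.ceil_lt_add_one (x / dl j0 j)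
  rw [div_le_iff₀ hd] at h1
  rw [← sub_lt_iff_lt_add, lt_div_iff₀ hd] at h2
  rw [Real.norm_eq_abs, abs_le]
  constructor <;> linarith

theorem conv (f : ℝ → ℝ) (hf : Continuous f) (Λ R : ℝ) (hR : 0 ≤ R)
    (hlip : ∀ x y, |f x - f y| ≤ Λ * |x - y|) (hΛ : 0 ≤ Λ)
    (hsupp : ∀ x, R ≤ |x| → f x = 0) (x h : ℝ)
    (hH : Tendsto (fun δ : ℝ => ∫ y in {y : ℝ | δ < |x - y|}, f y / (x - y))
                (𝓝[>] (0 : ℝ)) (𝓝 h)) (j0 : ℕ) (F : ℕ → Finset ℤ)
    (hF : ∀ (j : ℕ) (m : ℤ), m ∉ F j → f (m * dl j0 j) = 0) :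
    Tendsto (fun j : ℕ => ∑ m ∈ (F j).erase ⌊x / dl j0 j⌋,
      f (m * dl j0 j) / ((⌊x / dl j0 j⌋ : ℝ) - m)) atTop (𝓝 h) := by
  obtain ⟨T, hT⟩ := exists_nat_gt (R + |x| + 1)
  have hT0 : (0 : ℝ) < T := lt_of_le_of_lt (by positivity) hT
  have hTx : ∀ y, (T : ℝ) ≤ |x - y| → f y = 0 := by
    intro y hy
    apply hsupp
    have : |x - y| ≤ |x| + |y| := abs_sub _ _
    linarith
  have hlim := limit_eq f hf Λ hlip hΛ x T h hT0 hTx hH
  have heq : ∀ j : ℕ, ∑ m ∈ (F j).erase ⌊x / dl j0 j⌋,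
      f (m * dl j0 j) / ((⌊x / dl j0 j⌋ : ℝ) - m) =
      ∫ t in (0 : ℝ)..T, ph f (⌊x / dl j0 j⌋ * dl j0 j) (⌈t / dl j0 j⌉ * dl j0 j) := by
    intro j
    have hd := dl_pos j0 j
    have hd1 := dl_le_one j0 j
    have hNT : ((T * (j + j0 + 1) : ℕ) : ℝ) * dl j0 j = T := by
      unfold dl
      push_cast
      field_simp
    rw [discrete_eq f hf Λ hlip hΛ (dl j0 j) hd ⌊x / dl j0 j⌋ (F j) (hF j) (T * (j + j0 + 1)), hNT]
    intro m hm
    apply hsupp
    have hm' : ((T * (j + j0 + 1) : ℕ) : ℝ) < |(m : ℝ) - ⌊x / dl j0 j⌋| := by exact_mod_cast hm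
    have hm2 : (T : ℝ) < |(m : ℝ) - ⌊x / dl j0 j⌋| * dl j0 j := by
      rw [← hNT]; gcongr
    have h1 := Int.floor_le (x / dl j0 j)
    have h2 := Int.lt_floor_add_one (x / dl j0 j)
    rw [le_div_iff₀ hd] at h1
    rw [div_lt_iff₀ hd] at h2
    have h3 : |(⌊x / dl j0 j⌋ : ℝ) * dl j0 j| ≤ |x| + 1 := by
      calc |(⌊x / dl j0 j⌋ : ℝ) * dl j0 j| = |x + ((⌊x / dl j0 j⌋ : ℝ) * dl j0 j - x)| := by ring_nf
        _ ≤ |x| + |(⌊x / dl j0 j⌋ : ℝ) * dl j0 j - x| := abs_add_le _ _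
        _ ≤ |x| + 1 := by
            gcongr
            rw [abs_le]
            constructor <;> linarith
    have h4 : |(m : ℝ) - ⌊x / dl j0 j⌋| * dl j0 j ≤ |(m : ℝ) * dl j0 j| + (|x| + 1) := by
      calc |(m : ℝ) - ⌊x / dl j0 j⌋| * dl j0 j = |((m : ℝ) - ⌊x / dl j0 j⌋) * dl j0 j| := by
            rw [abs_mul _ (dl j0 j), abs_of_pos hd]
        _ = |(m : ℝ) * dl j0 j - ⌊x / dl j0 j⌋ * dl j0 j| := by ring_nf
        _ ≤ |(m : ℝ) * dl j0 j| + |⌊x / dl j0 j⌋ * dl j0 j| := abs_sub _ _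
        _ ≤ _ := by gcongr
    linarith
  simp_rw [heq]
  rw [← hlim]
  apply intervalIntegral.tendsto_integral_filter_of_dominated_convergence (fun _ => 2 * Λ)
  · apply Eventually.of_forall
    intro j
    have hmeas : Measurable fun t : ℝ => (⌈t / dl j0 j⌉ : ℝ) * dl j0 j := by
      have h1 : Measurable fun t : ℝ => ⌈t / dl j0 j⌉ :=
        Int.measurable_ceil.comp (measurable_id.div_const _)
      have h2 : Measurable fun t : ℝ => (⌈t / dl j0 j⌉ : ℝ) :=
        (measurable_from_top (f := fun z : ℤ => (z : ℝ))).comp h1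
      exact h2.mul_const _
    exact ((ph_measurable f hf _).comp hmeas).aestronglyMeasurable
  · apply Eventually.of_forall
    intro j
    apply Eventually.of_forall
    intro t _
    rw [Real.norm_eq_abs]
    exact ph_bound f Λ hlip hΛ _ _
  · exact intervalIntegrable_const
  · apply Eventually.of_forall
    intro t ht
    rw [Set.uIoc_of_le hT0.le] at ht
    have ht0 : t ≠ 0 := ht.1.ne'
    have h1 := floor_tendsto j0 x
    have h2 := ceil_tendsto j0 t
    unfold ph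
    apply Tendsto.div _ h2 ht0
    apply Tendsto.sub
    · exact (hf.tendsto _).comp (h1.sub h2)
    · exact (hf.tendsto _).comp (h1.add h2)

theorem exists_supp (f : ℝ → ℝ) (hfc : HasCompactSupport f) :
    ∃ R : ℝ, 0 ≤ R ∧ ∀ x, R ≤ |x| → f x = 0 := by
  obtain ⟨R, hR⟩ := hfc.isBounded.subset_closedBall 0
  refine ⟨|R| + 1, by positivity, fun x hx => ?_⟩
  by_contra h
  have h1 : x ∈ tsupport f := subset_tsupport f h
  have h2 := hR h1
  rw [Metric.mem_closedBall, Real.dist_eq, sub_zero] at h2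
  have := le_abs_self R
  linarith

theorem zero_case (p : ℝ) (hp : 0 < p) (U : ℝ → ℝ) (f : ℝ → ℝ) (hf0 : ∀ x, f x = 0) (H : ℝ → ℝ)
    (hH : ∀ x, Tendsto (fun δ : ℝ => ∫ y in {y : ℝ | δ < |x - y|}, f y / (x - y))
                (𝓝[>] (0 : ℝ)) (𝓝 (H x))) :
    ∫⁻ x, ENNReal.ofReal (|H x| ^ p * U x) = 0 := by
  have h1 : ∀ x, H x = 0 := by
    intro x
    have h2 := hH x
    simp only [hf0, zero_div, integral_zero] at h2
    exact tendsto_nhds_unique h2 tendsto_const_nhds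
  simp [h1, Real.zero_rpow hp.ne']

/-- the maximal function decays no faster than `1/(1+|x|)` -/
theorem MM_lower (f : ℝ → ℝ) (R : ℝ) (hR : 0 ≤ R)
    (hsupp : ∀ x, R ≤ |x| → f x = 0) (hint : Integrable f) (x : ℝ) :
    ENNReal.ofReal ((∫ y, |f y|) / (2 * (R + 1)) * (1 / (1 + |x|))) ≤ MM f x := by
  have hx1 := neg_abs_le x
  have hx2 := le_abs_self x
  have h1 := MM_ge f x (-(R + 1 + |x|)) (R + 1 + |x|) (by linarith) (by linarith)
  have h2 : ∫⁻ y in Set.Ioo (-(R + 1 + |x|)) (R + 1 + |x|), ‖f y‖ₑ = ENNReal.ofReal (∫ y, |f y|) := by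
    rw [← ofReal_integral_norm_eq_lintegral_enorm hint.integrableOn]
    congr 1
    apply setIntegral_eq_integral_of_forall_compl_eq_zero
    intro y hy
    rw [hsupp y, norm_zero]
    by_contra h
    push Not at h
    rw [abs_lt] at h
    have := abs_nonneg x
    exact hy ⟨by linarith [h.1], by linarith [h.2]⟩
  rw [h2] at h1
  have hL : 0 ≤ ∫ y, |f y| := integral_nonneg fun y => abs_nonneg _
  have h3 : R + 1 + |x| - -(R + 1 + |x|) = 2 * (R + 1 + |x|) := by ring
  rw [h3] at h1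
  have hpos : 0 < 2 * (R + 1 + |x|) := by positivity
  have h4 : ENNReal.ofReal ((∫ y, |f y|) / (2 * (R + 1 + |x|))) ≤ MM f x := by
    rw [ENNReal.ofReal_div_of_pos hpos]
    exact ENNReal.div_le_of_le_mul' h1
  refine le_trans (ENNReal.ofReal_le_ofReal ?_) h4
  rw [div_mul_div_comm, mul_one]
  apply div_le_div_of_nonneg_left hL hpos
  have := mul_nonneg hR (abs_nonneg x)
  nlinarith [abs_nonneg x]

/-- Transfer from the discrete theorem to the real line. -/
theorem transfer (hD : DiscreteMain) :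
    ∀ p : ℝ, 1 < p → ∀ U : ℝ → ℝ, Measurable U → (∀ x, 0 ≤ U x) →
      (∃ C : ℝ, 0 < C ∧ ∃ ε : ℝ, 0 < ε ∧
        ∀ a b : ℝ, a < b → ∀ E : Set ℝ, MeasurableSet E → E ⊆ Set.Ioo a b →
          ∫⁻ x in E, ENNReal.ofReal (U x) ≤
            ENNReal.ofReal C * ENNReal.ofReal (((volume E).toReal / (b - a)) ^ ε) *
              ∫⁻ x, ENNReal.ofReal ((b - a) ^ p / ((b - a) ^ p + |x - (a + b) / 2| ^ p) * U x)) →
      ∃ K : ℝ, 0 < K ∧
        ∀ f : ℝ → ℝ, ContDiff ℝ ((⊤ : ℕ∞) : WithTop ℕ∞) f → HasCompactSupport f →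
          ∀ H : ℝ → ℝ,
            (∀ x, Tendsto (fun δ : ℝ => ∫ y in {y : ℝ | δ < |x - y|}, f y / (x - y))
                (𝓝[>] (0 : ℝ)) (𝓝 (H x))) →
            ∫⁻ x, ENNReal.ofReal (|H x| ^ p * U x) ≤
              ENNReal.ofReal K *
                ∫⁻ x, (⨆ a : ℝ, ⨆ b : ℝ, ⨆ (_ : a < x ∧ x < b),
                    ENNReal.ofReal ((b - a)⁻¹) * ∫⁻ y in Set.Ioo a b, ‖f y‖ₑ) ^ p
                  * ENNReal.ofReal (U x) := by
  intro p hp U hU hU0 ⟨C, hC, ε, hε, hcp⟩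
  have hp0 : 0 < p := by linarith
  have hum : Measurable (fun x => ENNReal.ofReal (U x)) := hU.ennreal_ofReal
  by_cases hfin : ∫⁻ x, ENNReal.ofReal ((1 / (1 + |x|)) ^ p) * ENNReal.ofReal (U x) < ⊤
  · obtain ⟨K, hK, hmain⟩ := hD p hp (C * 6 ^ p) ε (by positivity) hε
    refine ⟨K * 4 ^ p, by positivity, ?_⟩
    intro f hf hfc H hH
    by_cases hf0 : ∀ x, f x = 0
    · rw [zero_case p hp0 U f hf0 H hH]
      exact zero_le
    push Not at hf0
    obtain ⟨x0, hx0⟩ := hf0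
    have hcont : Continuous f := hf.continuous
    obtain ⟨R, hR, hsupp⟩ := exists_supp f hfc
    have hint : Integrable f := integrable_of_supp f hcont R hsupp
    obtain ⟨B, hB⟩ := hfc.exists_bound_of_continuous hcont
    obtain ⟨Λ', hΛ'⟩ := hf.lipschitzWith_of_hasCompactSupport hfc (by simp)
    set Λ : ℝ := (Λ' : ℝ) with hΛdef
    have hΛ : 0 ≤ Λ := Λ'.2
    have hlip : ∀ x y, |f x - f y| ≤ Λ * |x - y| := by
      intro x y
      have := hΛ'.dist_le_mul x y
      rwa [Real.dist_eq, Real.dist_eq] at this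
    have hLpos : 0 < ∫ x, |f x| := by
      have h1 : Continuous fun x => |f x| := hcont.abs
      have h2 : HasCompactSupport fun x => |f x| := hfc.comp_left (g := fun t : ℝ => |t|) (by simp)
      exact h1.integral_pos_of_hasCompactSupport_nonneg_nonzero (μ := volume) h2
        (fun x => abs_nonneg _) (x := x0) (by simpa using hx0)
    obtain ⟨j0, hj0⟩ := exists_nat_gt (Λ * (2 * R + 1) * (R + 2) / ∫ x, |f x|)
    rw [div_lt_iff₀ hLpos] at hj0
    have hmesh : ∀ j, Λ * dl j0 j * (2 * R + 1) * (R + 2) ≤ ∫ x, |f x| := by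
      intro j
      have h1 : Λ * dl j0 j * (2 * R + 1) * (R + 2) =
          (Λ * (2 * R + 1) * (R + 2)) / ((j : ℝ) + j0 + 1) := by
        unfold dl; ring
      rw [h1, div_le_iff₀ (by positivity)]
      have h2 : (j0 : ℝ) * ∫ x, |f x| ≤ (∫ x, |f x|) * ((j : ℝ) + j0 + 1) := by
        have : (0 : ℝ) ≤ j := by positivity
        nlinarith
      linarith
    set F : ℕ → Finset ℤ := fun j => Finset.Icc (-⌈R / dl j0 j⌉) ⌈R / dl j0 j⌉ with hFdef
    have hF : ∀ (j : ℕ) (m : ℤ), m ∉ F j → f (m * dl j0 j) = 0 := by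
      intro j m hm
      have hd := dl_pos j0 j
      apply hsupp
      rw [abs_mul, abs_of_pos hd, ← div_le_iff₀ hd]
      refine (Int.le_ceil _).trans ?_
      rw [hFdef, Finset.mem_Icc] at hm
      have h1 : ⌈R / dl j0 j⌉ ≤ |m| := by
        by_contra h
        push Not at h
        rw [abs_lt] at h
        exact hm ⟨h.1.le, h.2.le⟩
      exact_mod_cast h1
    -- bound for each j
    set hh : ℕ → ℤ → ℝ := fun j n => ∑ m ∈ (F j).erase n,
      f (m * dl j0 j) / ((n : ℝ) - m) with hhdef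
    have hbound : ∀ j, ∫⁻ x, ENNReal.ofReal (|hh j ⌊x / dl j0 j⌋| ^ p) * ENNReal.ofReal (U x) ≤
        ENNReal.ofReal (K * 4 ^ p) * ∫⁻ x, MM f x ^ p * ENNReal.ofReal (U x) := by
      intro j
      have hd := dl_pos j0 j
      have hd1 := dl_le_one j0 j
      rw [lintegral_step hd (fun n => ENNReal.ofReal (|hh j n| ^ p)) _ hum]
      have hne := wt_ne_top hp0 hd _ hum hfin
      have h1 := hmain (fun n => (wt (fun x => ENNReal.ofReal (U x)) (dl j0 j) n).toReal)
        (fun n => ENNReal.toReal_nonneg) (summable_wt hp0 hd _ hum hfin)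
        (fun i k E hE => discrete_cp hp0 hd U hU hfin hU0 C ε hC hε hcp i k E hE)
        (fun n => f (n * dl j0 j)) (F j) (hF j) (GG f (dl j0 j))
        (fun n u t hun hn => GG_ge f hcont Λ R (dl j0 j) B hΛ hR hd (fun y => hB y) hd1 hlip hsupp
          (hmesh j) n u t hun hn)
      have h2 : ∀ (a : ℝ) (n : ℤ), 0 ≤ a →
          ENNReal.ofReal (a * (wt (fun x => ENNReal.ofReal (U x)) (dl j0 j) n).toReal) =
            ENNReal.ofReal a * wt (fun x => ENNReal.ofReal (U x)) (dl j0 j) n := by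
        intro a n ha
        rw [ENNReal.ofReal_mul ha, ENNReal.ofReal_toReal (hne n)]
      have h3 : ∑' n : ℤ, ENNReal.ofReal (|hh j n| ^ p) *
          ∫⁻ x in cell (dl j0 j) n, ENNReal.ofReal (U x) =
          ∑' n : ℤ, ENNReal.ofReal (|∑ m ∈ (F j).erase n, f (m * dl j0 j) / ((n : ℝ) - (m : ℝ))| ^ p *
            (wt (fun x => ENNReal.ofReal (U x)) (dl j0 j) n).toReal) := by
        congr 1
        funext n
        rw [h2 _ n (by positivity)]
        rfl
      have h4 : ∑' n : ℤ, ENNReal.ofReal (GG f (dl j0 j) n ^ p *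
            (wt (fun x => ENNReal.ofReal (U x)) (dl j0 j) n).toReal) =
          ∑' n : ℤ, ENNReal.ofReal (GG f (dl j0 j) n ^ p) *
            wt (fun x => ENNReal.ofReal (U x)) (dl j0 j) n := by
        congr 1
        funext n
        rw [h2 _ n (Real.rpow_nonneg (GG_nonneg f _ n) p)]
      rw [h3]
      refine h1.trans ?_
      rw [h4, ENNReal.ofReal_mul hK.le, mul_assoc]
      gcongr
      exact sum_GG_le hp0 f hd _ hum
    have hmeasj : ∀ j, Measurable fun x : ℝ =>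
        ENNReal.ofReal (|hh j ⌊x / dl j0 j⌋| ^ p) * ENNReal.ofReal (U x) := by
      intro j
      have h1 : Measurable fun x : ℝ => ⌊x / dl j0 j⌋ :=
        Int.measurable_floor.comp (measurable_id.div_const _)
      have h2 : Measurable fun x : ℝ => ENNReal.ofReal (|hh j ⌊x / dl j0 j⌋| ^ p) :=
        (measurable_from_top (f := fun n : ℤ => ENNReal.ofReal (|hh j n| ^ p))).comp h1
      exact h2.mul hum
    have hlimpt : ∀ x, Tendsto (fun j => ENNReal.ofReal (|hh j ⌊x / dl j0 j⌋| ^ p) *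
        ENNReal.ofReal (U x)) atTop (𝓝 (ENNReal.ofReal (|H x| ^ p * U x))) := by
      intro x
      have h1 := conv f hcont Λ R hR hlip hΛ hsupp x (H x) (hH x) j0 F hF
      have h2 : Tendsto (fun j => |hh j ⌊x / dl j0 j⌋| ^ p * U x) atTop (𝓝 (|H x| ^ p * U x)) := by
        apply Tendsto.mul_const
        exact (h1.abs).rpow_const (Or.inr hp0.le)
      have h3 := (ENNReal.continuous_ofReal.tendsto _).comp h2
      refine h3.congr ?_
      intro j
      simp only [Function.comp]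
      rw [ENNReal.ofReal_mul (by positivity)]
    calc ∫⁻ x, ENNReal.ofReal (|H x| ^ p * U x)
        = ∫⁻ x, liminf (fun j => ENNReal.ofReal (|hh j ⌊x / dl j0 j⌋| ^ p) *
            ENNReal.ofReal (U x)) atTop := by
          congr 1
          funext x
          exact (hlimpt x).liminf_eq.symm
      _ ≤ liminf (fun j => ∫⁻ x, ENNReal.ofReal (|hh j ⌊x / dl j0 j⌋| ^ p) *
            ENNReal.ofReal (U x)) atTop := lintegral_liminf_le hmeasj
      _ ≤ ENNReal.ofReal (K * 4 ^ p) * ∫⁻ x, MM f x ^ p * ENNReal.ofReal (U x) := by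
          refine Filter.liminf_le_of_frequently_le' ?_
          exact Frequently.of_forall hbound
      _ = _ := rfl
  · refine ⟨1, one_pos, ?_⟩
    intro f hf hfc H hH
    by_cases hf0 : ∀ x, f x = 0
    · rw [zero_case p hp0 U f hf0 H hH]
      exact zero_le
    push Not at hf0
    obtain ⟨x0, hx0⟩ := hf0
    have hcont : Continuous f := hf.continuous
    obtain ⟨R, hR, hsupp⟩ := exists_supp f hfc
    have hint : Integrable f := integrable_of_supp f hcont R hsupp
    have hLpos : 0 < ∫ x, |f x| := by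
      have h1 : Continuous fun x => |f x| := hcont.abs
      have h2 : HasCompactSupport fun x => |f x| := hfc.comp_left (g := fun t : ℝ => |t|) (by simp)
      exact h1.integral_pos_of_hasCompactSupport_nonneg_nonzero (μ := volume) h2
        (fun x => abs_nonneg _) (x := x0) (by simpa using hx0)
    set c : ℝ := (∫ y, |f y|) / (2 * (R + 1)) with hc
    have hc0 : 0 < c := by positivity
    have h1 : ⊤ ≤ ∫⁻ x, MM f x ^ p * ENNReal.ofReal (U x) := by
      calc (⊤ : ENNReal) = ENNReal.ofReal (c ^ p) * ⊤ := by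
            rw [ENNReal.mul_top]
            rw [Ne, ENNReal.ofReal_eq_zero, not_le]
            positivity
        _ = ENNReal.ofReal (c ^ p) *
            ∫⁻ x, ENNReal.ofReal ((1 / (1 + |x|)) ^ p) * ENNReal.ofReal (U x) := by
            rw [not_lt_top_iff.1 hfin]
        _ = ∫⁻ x, ENNReal.ofReal (c ^ p) *
            (ENNReal.ofReal ((1 / (1 + |x|)) ^ p) * ENNReal.ofReal (U x)) := by
            rw [lintegral_const_mul' _ _ ENNReal.ofReal_ne_top]
        _ ≤ ∫⁻ x, MM f x ^ p * ENNReal.ofReal (U x) := by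
            apply lintegral_mono
            intro x
            simp only
            rw [← mul_assoc]
            gcongr
            rw [← ENNReal.ofReal_mul (by positivity), ← Real.mul_rpow hc0.le (by positivity),
              ← ENNReal.ofReal_rpow_of_nonneg (by positivity) hp0.le]
            exact ENNReal.rpow_le_rpow (MM_lower f R hR hsupp hint x) hp0.le
    have h2 : ∫⁻ x, MM f x ^ p * ENNReal.ofReal (U x) = ⊤ := top_le_iff.1 h1
    have h3 : ENNReal.ofReal 1 * ∫⁻ x, MM f x ^ p * ENNReal.ofReal (U x) = ⊤ := by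
      rw [h2]; simp
    exact le_of_le_of_eq le_top h3.symm

end Pool.Agent.Helper107.CP.Tr
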