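import Mathlib

set_option autoImplicit false

namespace Pool.Agent.Helper107.CP.W11

open Finset MeasureTheory

theorem term_mono (a b y c : ℝ) (hc : 0 ≤ c) (hab : a ≤ b) (h : 0 < (a - y) * (b - y)) :
    c / (b - y) ≤ c / (a - y) := by
  have ha : a - y ≠ 0 := by rintro h0; rw [h0] at h; simp at h
  have hb : b - y ≠ 0 := by rintro h0; rw [h0] at h; simp at h
  have e : c / (a - y) - c / (b - y) = c * (b - a) / ((a - y) * (b - y)) := by
    field_simp; ring
  have h2 : 0 ≤ c * (b - a) / ((a - y) * (b - y)) := by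
    apply div_nonneg (mul_nonneg hc (by linarith)) h.le
  linarith

theorem vieta (N : ℕ) (y c x : ℕ → ℝ) (t : ℝ) (hx : Set.InjOn x (range N : Finset ℕ))
    (h0 : ∀ j < N, t * ∏ k ∈ range N, (x j - y k) -
      ∑ i ∈ range N, c i * ∏ k ∈ (range N).erase i, (x j - y k) = 0) :
    t * (∑ i ∈ range N, x i - ∑ i ∈ range N, y i) = ∑ i ∈ range N, c i := by
  classical
  rcases Nat.eq_zero_or_pos N with hN | hN
  · subst hN; simp
  set D : Polynomial ℝ := Polynomial.C t * (∏ k ∈ range N, (Polynomial.X - Polynomial.C (y k)) -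
    ∏ k ∈ range N, (Polynomial.X - Polynomial.C (x k))) -
    ∑ i ∈ range N, Polynomial.C (c i) * ∏ k ∈ (range N).erase i,
      (Polynomial.X - Polynomial.C (y k)) with hD
  have mon : ∀ (s : Finset ℕ) (f : ℕ → ℝ),
      (∏ k ∈ s, (Polynomial.X - Polynomial.C (f k))).Monic := fun s f =>
    Polynomial.monic_prod_of_monic _ _ (fun k _ => Polynomial.monic_X_sub_C _)
  have deg : ∀ (s : Finset ℕ) (f : ℕ → ℝ),
      (∏ k ∈ s, (Polynomial.X - Polynomial.C (f k))).degree = (s.card : WithBot ℕ) := by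
    intro s f
    rw [Polynomial.degree_prod]
    simp
  have ndeg : ∀ (s : Finset ℕ) (f : ℕ → ℝ),
      (∏ k ∈ s, (Polynomial.X - Polynomial.C (f k))).natDegree = s.card := by
    intro s f
    exact Polynomial.natDegree_eq_of_degree_eq_some (deg s f)
  have dC : ∀ (a : ℝ) (p : Polynomial ℝ), (Polynomial.C a * p).degree ≤ p.degree := by
    intro a p
    rw [← Polynomial.smul_eq_C_mul]
    exact Polynomial.degree_smul_le _ _
  have d1 : (∏ k ∈ range N, (Polynomial.X - Polynomial.C (y k)) -
      ∏ k ∈ range N, (Polynomial.X - Polynomial.C (x k))).degree < (N : WithBot ℕ) := by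
    have := Polynomial.degree_sub_lt_left (p := ∏ k ∈ range N, (Polynomial.X - Polynomial.C (y k)))
      (q := ∏ k ∈ range N, (Polynomial.X - Polynomial.C (x k)))
      (by rw [deg, deg]) (mon _ _).ne_zero (by rw [(mon _ _).leadingCoeff, (mon _ _).leadingCoeff])
    rwa [deg, card_range] at this
  have d2 : (∑ i ∈ range N, Polynomial.C (c i) * ∏ k ∈ (range N).erase i,
      (Polynomial.X - Polynomial.C (y k))).degree < (N : WithBot ℕ) := by
    refine lt_of_le_of_lt (Polynomial.degree_sum_le _ _) ?_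
    rw [Finset.sup_lt_iff (by exact WithBot.bot_lt_coe N)]
    intro i hi
    refine lt_of_le_of_lt (dC _ _) ?_
    rw [deg, card_erase_of_mem hi, card_range]
    exact_mod_cast (by omega : N - 1 < N)
  have dD : D.degree < (N : WithBot ℕ) := by
    rw [hD]
    refine lt_of_le_of_lt (Polynomial.degree_sub_le _ _) (max_lt ?_ d2)
    exact lt_of_le_of_lt (dC _ _) d1
  have ev : ∀ j ∈ range N, D.eval (x j) = 0 := by
    intro j hj
    rw [hD]
    simp only [Polynomial.eval_sub, Polynomial.eval_mul, Polynomial.eval_C, Polynomial.eval_prod,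
      Polynomial.eval_X, Polynomial.eval_finsetSum]
    have z : ∏ k ∈ range N, (x j - x k) = 0 := prod_eq_zero hj (sub_self _)
    rw [z, sub_zero]
    exact h0 j (mem_range.mp hj)
  have D0 : D = 0 := by
    apply Polynomial.eq_zero_of_degree_lt_of_eval_index_eq_zero (range N) hx _ ev
    rwa [card_range]
  have co := congrArg (fun p => Polynomial.coeff p (N - 1)) D0
  simp only [hD, Polynomial.coeff_sub, Polynomial.coeff_C_mul, Polynomial.finsetSum_coeff,
    Polynomial.coeff_zero] at co
  have c1 := Polynomial.prod_X_sub_C_coeff_card_pred (range N) y (by simpa using hN)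
  have c2 := Polynomial.prod_X_sub_C_coeff_card_pred (range N) x (by simpa using hN)
  rw [card_range] at c1 c2
  rw [c1, c2] at co
  have c3 : ∀ i ∈ range N, c i * (∏ k ∈ (range N).erase i,
      (Polynomial.X - Polynomial.C (y k))).coeff (N - 1) = c i := by
    intro i hi
    have : (∏ k ∈ (range N).erase i, (Polynomial.X - Polynomial.C (y k))).coeff (N - 1) = 1 := by
      have e := (mon ((range N).erase i) y).coeff_natDegree
      rwa [ndeg, card_erase_of_mem hi, card_range] at e
    rw [this, mul_one]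
  rw [sum_congr rfl c3] at co
  linarith

theorem boole_roots (N : ℕ) (y c : ℕ → ℝ) (t : ℝ) (ht : 0 < t) (hc : ∀ i < N, 0 < c i)
    (hy : StrictMono y) (hN : ∑ i ∈ range N, c i / (y N - y i) < t) :
    ∃ x : ℕ → ℝ, (∀ i < N, y i < x i ∧ x i < y (i + 1) ∧
      ∑ k ∈ range N, c k / (x i - y k) = t) ∧
      ∑ i ∈ range N, (x i - y i) = (∑ i ∈ range N, c i) / t := by
  classical
  obtain ⟨Q, hQ⟩ : ∃ Q : ℝ → ℝ, Q = fun x => t * ∏ k ∈ range N, (x - y k) -
    ∑ i ∈ range N, c i * ∏ k ∈ (range N).erase i, (x - y k) := ⟨_, rfl⟩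
  have Qcont : Continuous Q := by
    rw [hQ]; fun_prop
  have Qfac : ∀ x, (∀ k < N, x ≠ y k) → Q x = (∏ k ∈ range N, (x - y k)) *
      (t - ∑ k ∈ range N, c k / (x - y k)) := by
    intro x hx
    rw [hQ]; simp only
    rw [mul_sub, mul_comm t, Finset.mul_sum]
    congr 1
    apply Finset.sum_congr rfl
    intro i hi
    rw [← Finset.mul_prod_erase (range N) (fun k => x - y k) hi]
    have : x - y i ≠ 0 := sub_ne_zero.mpr (hx i (mem_range.mp hi))
    field_simp
  have Qpole : ∀ i < N, Q (y i) = - (c i * ∏ k ∈ (range N).erase i, (y i - y k)) := by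
    intro i hi
    rw [hQ]; simp only
    rw [Finset.prod_eq_zero (mem_range.mpr hi) (sub_self _), mul_zero, zero_sub]
    congr 1
    apply Finset.sum_eq_single_of_mem i (mem_range.mpr hi)
    intro j hj hji
    rw [Finset.prod_eq_zero (i := i) (Finset.mem_erase.mpr ⟨hji.symm, mem_range.mpr hi⟩)
      (sub_self _), mul_zero]
  have sgn : ∀ i < N, Q (y i) * Q (y (i + 1)) < 0 := by
    intro i hi
    rcases Nat.lt_or_ge (i + 1) N with h1 | h1
    · rw [Qpole i hi, Qpole (i + 1) h1]
      have m1 : i + 1 ∈ (range N).erase i := Finset.mem_erase.mpr ⟨by omega, mem_range.mpr h1⟩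
      have m2 : i ∈ (range N).erase (i + 1) := Finset.mem_erase.mpr ⟨by omega, mem_range.mpr hi⟩
      rw [← Finset.mul_prod_erase _ (fun k => y i - y k) m1,
        ← Finset.mul_prod_erase _ (fun k => y (i + 1) - y k) m2]
      rw [Finset.erase_right_comm (a := i + 1) (b := i)]
      have pos : 0 < (∏ k ∈ ((range N).erase i).erase (i + 1), (y i - y k)) *
          ∏ k ∈ ((range N).erase i).erase (i + 1), (y (i + 1) - y k) := by
        rw [← Finset.prod_mul_distrib]
        apply Finset.prod_pos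
        intro k hk
        rw [Finset.mem_erase, Finset.mem_erase] at hk
        rcases Nat.lt_or_ge k i with h2 | h2
        · have a := hy h2
          have b := hy (show i < i + 1 by omega)
          exact mul_pos (by linarith) (by linarith)
        · have a := hy (show i + 1 < k by omega)
          have b := hy (show i < i + 1 by omega)
          exact mul_pos_of_neg_of_neg (by linarith) (by linarith)
      have b := hy (show i < i + 1 by omega)
      have c1 := hc i hi
      have c2 := hc (i + 1) h1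
      have sq : 0 < (y (i + 1) - y i) ^ 2 := by
        apply pow_pos; linarith
      have := mul_pos (mul_pos (mul_pos c1 c2) sq) pos
      nlinarith [this]
    · have hi' : i + 1 = N := by omega
      rw [hi', Qpole i hi, Qfac (y N) (fun k hk => (hy hk).ne')]
      have p1 : 0 < ∏ k ∈ (range N).erase i, (y i - y k) := by
        apply Finset.prod_pos
        intro k hk
        rw [Finset.mem_erase, mem_range] at hk
        have := hy (show k < i by omega)
        linarith
      have p2 : 0 < ∏ k ∈ range N, (y N - y k) := by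
        apply Finset.prod_pos
        intro k hk
        rw [mem_range] at hk
        have := hy hk
        linarith
      have c1 := hc i hi
      have := mul_pos (mul_pos c1 p1) (mul_pos p2 (sub_pos.mpr hN))
      linarith
  have root : ∀ i, ∃ x, i < N → y i < x ∧ x < y (i + 1) ∧ Q x = 0 := by
    intro i
    by_cases hi : i < N
    · have s := sgn i hi
      have lt := hy (show i < i + 1 by omega)
      rcases lt_or_ge (Q (y i)) 0 with h1 | h1
      · have h2 : 0 < Q (y (i + 1)) := by
          by_contra h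
          push Not at h
          have := mul_nonneg_of_nonpos_of_nonpos h1.le h
          linarith
        obtain ⟨x, hx, hx'⟩ := intermediate_value_Ioo lt.le Qcont.continuousOn ⟨h1, h2⟩
        exact ⟨x, fun _ => ⟨hx.1, hx.2, hx'⟩⟩
      · have h1' : 0 < Q (y i) := by
          rcases h1.lt_or_eq with h | h
          · exact h
          · rw [← h] at s; simp at s
        have h2 : Q (y (i + 1)) < 0 := by
          by_contra h
          push Not at h
          have := mul_nonneg h1 h
          linarith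
        obtain ⟨x, hx, hx'⟩ := intermediate_value_Ioo' lt.le Qcont.continuousOn ⟨h2, h1'⟩
        exact ⟨x, fun _ => ⟨hx.1, hx.2, hx'⟩⟩
    · exact ⟨0, fun h => absurd h hi⟩
  choose x hx using root
  have np : ∀ i < N, ∀ k < N, x i ≠ y k := by
    intro i hi k hk
    obtain ⟨a, b, -⟩ := hx i hi
    rcases Nat.lt_or_ge i k with h | h
    · have := hy.monotone (show i + 1 ≤ k by omega)
      exact ne_of_lt (by linarith)
    · have := hy.monotone h
      exact ne_of_gt (by linarith)
  refine ⟨x, ?_, ?_⟩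
  · intro i hi
    obtain ⟨a, b, e⟩ := hx i hi
    refine ⟨a, b, ?_⟩
    rw [Qfac (x i) (np i hi)] at e
    rcases mul_eq_zero.mp e with h | h
    · exfalso
      rw [Finset.prod_eq_zero_iff] at h
      obtain ⟨k, hk, h⟩ := h
      exact np i hi k (mem_range.mp hk) (sub_eq_zero.mp h)
    · linarith
  · have inj : Set.InjOn x (range N : Finset ℕ) := by
      intro i hi j hj hij
      simp only [coe_range, Set.mem_Iio] at hi hj
      obtain ⟨a, b, -⟩ := hx i hi
      obtain ⟨a', b', -⟩ := hx j hj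
      rcases lt_trichotomy i j with h | h | h
      · have := hy.monotone (show i + 1 ≤ j by omega)
        linarith
      · exact h
      · have := hy.monotone (show j + 1 ≤ i by omega)
        linarith
    have v := vieta N y c x t inj (fun j hj => by
      have := (hx j hj).2.2
      rw [hQ] at this
      exact this)
    rw [Finset.sum_sub_distrib, eq_div_iff ht.ne', ← v]
    ring

theorem find_gap (y : ℕ → ℝ) (n : ℕ) (x : ℝ) (h0 : y 0 < x) (hn : x < y n)
    (hp : ∀ k < n, x ≠ y k) : ∃ i < n, y i < x ∧ x < y (i + 1) := by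
  induction n with
  | zero => exact absurd hn (by linarith [h0])
  | succ n ih =>
    rcases lt_trichotomy x (y n) with h | h | h
    · obtain ⟨i, hi, a⟩ := ih h (fun k hk => hp k (by omega))
      exact ⟨i, by omega, a⟩
    · exact absurd h (hp n (by omega))
    · exact ⟨n, by omega, h, hn⟩

theorem boole_meas (N : ℕ) (y c : ℕ → ℝ) (t : ℝ) (ht : 0 < t) (hc : ∀ i < N, 0 < c i)
    (hy : StrictMono y) (hN : ∑ i ∈ range N, c i / (y N - y i) < t) :
    volume {x : ℝ | (∀ i < N, x ≠ y i) ∧ t < ∑ i ∈ range N, c i / (x - y i)} ≤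
      ENNReal.ofReal ((∑ i ∈ range N, c i) / t) := by
  obtain ⟨x, hx, hsum⟩ := boole_roots N y c t ht hc hy hN
  have sub : {x : ℝ | (∀ i < N, x ≠ y i) ∧ t < ∑ i ∈ range N, c i / (x - y i)} ⊆
      ⋃ i ∈ range N, Set.Ioo (y i) (x i) := by
    rintro s ⟨hs1, hs2⟩
    rcases Nat.eq_zero_or_pos N with h0 | h0
    · subst h0
      simp at hs2
      linarith
    have a1 : y 0 < s := by
      by_contra h
      push Not at h
      have : ∑ i ∈ range N, c i / (s - y i) ≤ 0 := by
        apply Finset.sum_nonpos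
        intro i hi
        rw [mem_range] at hi
        apply div_nonpos_of_nonneg_of_nonpos (hc i hi).le
        have := hy.monotone (Nat.zero_le i)
        linarith
      linarith
    have a2 : s < y N := by
      by_contra h
      push Not at h
      have : ∑ i ∈ range N, c i / (s - y i) ≤ ∑ i ∈ range N, c i / (y N - y i) := by
        apply Finset.sum_le_sum
        intro i hi
        rw [mem_range] at hi
        have := hy hi
        exact term_mono _ _ _ _ (hc i hi).le h (mul_pos (by linarith) (by linarith))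
      linarith
    obtain ⟨i, hi, b1, b2⟩ := find_gap y N s a1 a2 hs1
    simp only [Set.mem_iUnion]
    refine ⟨i, mem_range.mpr hi, b1, ?_⟩
    by_contra h
    push Not at h
    obtain ⟨c1, c2, c3⟩ := hx i hi
    have : ∑ k ∈ range N, c k / (s - y k) ≤ ∑ k ∈ range N, c k / (x i - y k) := by
      apply Finset.sum_le_sum
      intro k hk
      rw [mem_range] at hk
      apply term_mono _ _ _ _ (hc k hk).le h
      rcases Nat.lt_or_ge i k with h5 | h5
      · have := hy.monotone (show i + 1 ≤ k by omega)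
        exact mul_pos_of_neg_of_neg (by linarith) (by linarith)
      · have := hy.monotone h5
        exact mul_pos (by linarith) (by linarith)
    linarith
  calc volume _ ≤ volume (⋃ i ∈ range N, Set.Ioo (y i) (x i)) := measure_mono sub
    _ ≤ ∑ i ∈ range N, volume (Set.Ioo (y i) (x i)) := measure_biUnion_finset_le _ _
    _ = ∑ i ∈ range N, ENNReal.ofReal (x i - y i) := by simp [Real.volume_Ioo]
    _ = ENNReal.ofReal (∑ i ∈ range N, (x i - y i)) := by
        rw [ENNReal.ofReal_sum_of_nonneg]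
        intro i hi
        have := (hx i (mem_range.mp hi)).1
        linarith
    _ = _ := by rw [hsum]

theorem boole_fin (F : Finset ℤ) (g : ℤ → ℝ) (t : ℝ) (ht : 0 < t) (hg : ∀ m ∈ F, 0 < g m) :
    volume {x : ℝ | (∀ m ∈ F, x ≠ (m : ℝ)) ∧ t < ∑ m ∈ F, g m / (x - m)} ≤
      ENNReal.ofReal ((∑ m ∈ F, g m) / t) := by
  classical
  obtain ⟨N, hN⟩ : ∃ N, F.card = N := ⟨_, rfl⟩
  set e := F.orderEmbOfFin hN with he
  have emem : ∀ i, e i ∈ F := fun i => Finset.orderEmbOfFin_mem F hN i
  obtain ⟨B, hB⟩ : ∃ B : ℝ, B = (∑ m ∈ F, |(m : ℝ)|) + (∑ m ∈ F, g m) / t + 1 := ⟨_, rfl⟩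
  have hS : 0 ≤ ∑ m ∈ F, g m := Finset.sum_nonneg (fun m hm => (hg m hm).le)
  have eB : ∀ i, (e i : ℝ) + (∑ m ∈ F, g m) / t + 1 ≤ B := by
    intro i
    have h1 : |((e i : ℤ) : ℝ)| ≤ ∑ m ∈ F, |(m : ℝ)| :=
      Finset.single_le_sum (f := fun m : ℤ => |(m : ℝ)|) (fun m _ => abs_nonneg _) (emem i)
    have := le_abs_self ((e i : ℤ) : ℝ)
    rw [hB]; linarith
  set y : ℕ → ℝ := fun i => if h : i < N then (e ⟨i, h⟩ : ℝ) else B + i with hy
  set c : ℕ → ℝ := fun i => if h : i < N then g (e ⟨i, h⟩) else 0 with hc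
  have ymono : StrictMono y := by
    apply strictMono_nat_of_lt_succ
    intro i
    simp only [hy]
    by_cases h1 : i + 1 < N
    · rw [dif_pos h1, dif_pos (show i < N by omega)]
      have : e ⟨i, by omega⟩ < e ⟨i + 1, h1⟩ := e.strictMono (by
        rw [Fin.lt_def]; simp)
      exact_mod_cast this
    · rw [dif_neg h1]
      by_cases h2 : i < N
      · rw [dif_pos h2]
        have := eB ⟨i, h2⟩
        have h0 : 0 ≤ (∑ m ∈ F, g m) / t := div_nonneg hS ht.le
        push_cast
        have : (0 : ℝ) ≤ i := Nat.cast_nonneg i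
        linarith
      · rw [dif_neg h2]
        push_cast; linarith
  have conv : ∀ φ : ℤ → ℝ → ℝ, ∑ i ∈ range N, (if h : i < N then φ (e ⟨i, h⟩) (g (e ⟨i, h⟩)) else 0)
      = ∑ m ∈ F, φ m (g m) := by
    intro φ
    rw [Finset.sum_range]
    simp only [Fin.is_lt, dif_pos]
    have := Finset.map_orderEmbOfFin_univ F hN
    conv_rhs => rw [← this]
    rw [Finset.sum_map]
    rfl
  have conv1 : ∀ x : ℝ, ∑ i ∈ range N, c i / (x - y i) = ∑ m ∈ F, g m / (x - m) := by
    intro x
    rw [← conv (fun m a => a / (x - m))]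
    apply Finset.sum_congr rfl
    intro i hi
    simp only [hy, hc, dif_pos (mem_range.mp hi)]
  have conv2 : ∑ i ∈ range N, c i = ∑ m ∈ F, g m := by
    rw [← conv (fun m a => a)]
  have hc' : ∀ i < N, 0 < c i := by
    intro i hi
    simp only [hc, dif_pos hi]
    exact hg _ (emem _)
  have hNt : ∑ i ∈ range N, c i / (y N - y i) < t := by
    have h0 : 0 ≤ (∑ m ∈ F, g m) / t := div_nonneg hS ht.le
    have hpos : 0 < (∑ m ∈ F, g m) / t + 1 := by linarith
    calc ∑ i ∈ range N, c i / (y N - y i)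
        ≤ ∑ i ∈ range N, c i / ((∑ m ∈ F, g m) / t + 1) := by
          apply Finset.sum_le_sum
          intro i hi
          have hi' := mem_range.mp hi
          apply div_le_div_of_nonneg_left (hc' i hi').le hpos
          have e1 : y N = B + N := by simp [hy]
          have e2 : y i = (e ⟨i, hi'⟩ : ℝ) := by simp only [hy, dif_pos hi']
          have := eB ⟨i, hi'⟩
          have : (0 : ℝ) ≤ N := Nat.cast_nonneg N
          rw [e1, e2]; linarith
      _ = (∑ m ∈ F, g m) / ((∑ m ∈ F, g m) / t + 1) := by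
          rw [← Finset.sum_div, conv2]
      _ < t := by
          rw [div_lt_iff₀ hpos]
          have : t * ((∑ m ∈ F, g m) / t + 1) = (∑ m ∈ F, g m) + t := by
            field_simp
          rw [this]; linarith
  have main := boole_meas N y c t ht hc' ymono hNt
  rw [conv2] at main
  refine le_trans (measure_mono ?_) main
  rintro x ⟨h1, h2⟩
  refine ⟨?_, ?_⟩
  · intro i hi
    simp only [hy, dif_pos hi]
    exact h1 _ (emem _)
  · rw [conv1]; exact h2

theorem kern (n m : ℤ) (x : ℝ) (h1 : (n : ℝ) + 1 / 4 < x) (h2 : x < n + 3 / 4) (hnm : m ≠ n) :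
    1 / ((n : ℝ) - m) - 1 / (x - m) ≤ 3 / ((n : ℝ) - m) ^ 2 := by
  rcases lt_or_gt_of_ne hnm with h | h
  · have hj : (1 : ℝ) ≤ (n : ℝ) - m := by
      have : (1 : ℤ) ≤ n - m := by omega
      exact_mod_cast this
    have hx : 0 < x - m := by linarith
    have hj0 : (0 : ℝ) < (n : ℝ) - m := by linarith
    rw [div_sub_div _ _ hj0.ne' hx.ne', div_le_div_iff₀ (by positivity) (by positivity)]
    have e : (1 * (x - (m : ℝ)) - ((n : ℝ) - m) * 1) = x - n := by ring
    rw [e]
    have : (x - n) * ((n : ℝ) - m) ≤ 3 * (x - m) := by nlinarith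
    nlinarith
  · have hj : (1 : ℝ) ≤ (m : ℝ) - n := by
      have : (1 : ℤ) ≤ m - n := by omega
      exact_mod_cast this
    have hx : 0 < m - x := by linarith
    have hj0 : (0 : ℝ) < (m : ℝ) - n := by linarith
    have e1 : 1 / ((n : ℝ) - m) - 1 / (x - m) = 1 / ((m : ℝ) - x) - 1 / ((m : ℝ) - n) := by
      rw [← neg_sub (m : ℝ) (n : ℝ), ← neg_sub (m : ℝ) x, div_neg, div_neg]; ring
    have e2 : ((n : ℝ) - m) ^ 2 = ((m : ℝ) - n) ^ 2 := by ring
    rw [e1, e2, div_sub_div _ _ hx.ne' hj0.ne', div_le_div_iff₀ (by positivity) (by positivity)]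
    have e : (1 * ((m : ℝ) - n) - ((m : ℝ) - x) * 1) = x - n := by ring
    rw [e]
    have : (x - n) * ((m : ℝ) - n) ≤ 3 * (m - x) := by nlinarith
    nlinarith

theorem onesided : ∃ C : ℝ, 0 < C ∧ ∀ (g : ℤ → ℝ) (F : Finset ℤ) (lam : ℝ), 0 < lam →
    (∀ m, 0 ≤ g m) →
    ∀ A : Finset ℤ, (∀ n ∈ A, lam < ∑ m ∈ F.erase n, g m / ((n : ℝ) - (m : ℝ))) →
      (A.card : ℝ) ≤ C * (∑ m ∈ F, g m) / lam := by
  classical
  have sm : Summable (fun j : ℤ => 3 / (j : ℝ) ^ 2) := by
    have := (Real.summable_one_div_int_pow (p := 2)).mpr (by norm_num)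
    have h := this.mul_left 3
    refine h.congr (fun j => ?_)
    ring
  obtain ⟨K, hK⟩ : ∃ K : ℝ, K = ∑' j : ℤ, 3 / (j : ℝ) ^ 2 := ⟨_, rfl⟩
  have K0 : 0 ≤ K := by rw [hK]; exact tsum_nonneg (fun j => by positivity)
  refine ⟨4 + 2 * K, by linarith, ?_⟩
  intro g F lam hlam hg A hA
  set G := ∑ m ∈ F, g m with hG
  have G0 : 0 ≤ G := Finset.sum_nonneg (fun m _ => hg m)
  set er : ℤ → ℝ := fun n => ∑ m ∈ F, g m * (3 / ((n : ℝ) - m) ^ 2) with her
  -- split
  have hsplit := Finset.card_filter_add_card_filter_not (s := A) (fun n => er n < lam / 2)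
  have c1 : (((A.filter (fun n => ¬ er n < lam / 2)).card : ℕ) : ℝ) * (lam / 2) ≤ K * G := by
    set A1 := A.filter (fun n => ¬ er n < lam / 2) with hA1
    calc (A1.card : ℝ) * (lam / 2) = ∑ n ∈ A1, lam / 2 := by
          rw [Finset.sum_const, nsmul_eq_mul]
      _ ≤ ∑ n ∈ A1, er n := by
          apply Finset.sum_le_sum
          intro n hn
          rw [hA1, Finset.mem_filter] at hn
          exact not_lt.mp hn.2
      _ = ∑ m ∈ F, g m * ∑ n ∈ A1, 3 / ((n : ℝ) - m) ^ 2 := by
          rw [her, Finset.sum_comm]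
          simp only [Finset.mul_sum]
      _ ≤ ∑ m ∈ F, g m * K := by
          apply Finset.sum_le_sum
          intro m _
          apply mul_le_mul_of_nonneg_left _ (hg m)
          have : ∑ n ∈ A1, 3 / ((n : ℝ) - m) ^ 2 =
              ∑ j ∈ A1.map (Equiv.subRight m).toEmbedding, 3 / (j : ℝ) ^ 2 := by
            rw [Finset.sum_map]
            apply Finset.sum_congr rfl
            intro n _
            simp
          rw [this, hK]
          exact sm.sum_le_tsum _ (fun j _ => by positivity)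
      _ = K * G := by rw [← Finset.sum_mul, mul_comm]
  have c2 : (((A.filter (fun n => er n < lam / 2)).card : ℕ) : ℝ) * (1 / 2) ≤ G / (lam / 2) := by
    set A2 := A.filter (fun n => er n < lam / 2) with hA2
    set F' := F.filter (fun m => 0 < g m) with hF'
    have hF'g : ∀ m ∈ F', 0 < g m := fun m hm => (Finset.mem_filter.mp hm).2
    have sumF : ∀ φ : ℤ → ℝ, ∑ m ∈ F', g m * φ m = ∑ m ∈ F, g m * φ m := by
      intro φ
      apply Finset.sum_subset (Finset.filter_subset _ _)
      intro m hm hm'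
      have : ¬ 0 < g m := fun h => hm' (Finset.mem_filter.mpr ⟨hm, h⟩)
      have : g m = 0 := le_antisymm (not_lt.mp this) (hg m)
      rw [this, zero_mul]
    have bo := boole_fin F' g (lam / 2) (by linarith) hF'g
    have GF : ∑ m ∈ F', g m = G := by
      have := sumF (fun _ => 1)
      simpa using this
    rw [GF] at bo
    have sub : (⋃ n ∈ A2, Set.Ioo ((n : ℝ) + 1 / 4) (n + 3 / 4)) ⊆
        {x : ℝ | (∀ m ∈ F', x ≠ (m : ℝ)) ∧ lam / 2 < ∑ m ∈ F', g m / (x - m)} := by
      intro x hx
      simp only [Set.mem_iUnion] at hx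
      obtain ⟨n, hn, hx1, hx2⟩ := hx
      rw [hA2, Finset.mem_filter] at hn
      obtain ⟨hnA, hner⟩ := hn
      have hne : ∀ m : ℤ, x ≠ (m : ℝ) := by
        rintro m rfl
        have a : (n : ℤ) < m := by
          have : (n : ℝ) < m := by linarith
          exact_mod_cast this
        have b : m < n + 1 := by
          have : (m : ℝ) < ((n + 1 : ℤ) : ℝ) := by push_cast; linarith
          exact_mod_cast this
        omega
      refine ⟨fun m _ => hne m, ?_⟩
      have e1 : ∑ m ∈ F', g m / (x - m) = ∑ m ∈ F, g m / (x - m) := by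
        have := sumF (fun m => 1 / (x - m))
        simpa [div_eq_mul_inv] using this
      rw [e1]
      have H := hA n hnA
      have e2 : ∑ m ∈ F.erase n, g m / ((n : ℝ) - (m : ℝ)) = ∑ m ∈ F, g m / ((n : ℝ) - (m : ℝ)) := by
        by_cases hnF : n ∈ F
        · rw [← Finset.add_sum_erase F _ hnF]
          simp
        · rw [Finset.erase_eq_of_notMem hnF]
      rw [e2] at H
      have e3 : ∑ m ∈ F, g m / ((n : ℝ) - (m : ℝ)) ≤ ∑ m ∈ F, g m / (x - m) + er n := by
        rw [her]
        simp only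
        rw [← Finset.sum_add_distrib]
        apply Finset.sum_le_sum
        intro m _
        by_cases hmn : m = n
        · subst hmn
          have : 0 ≤ g m / (x - m) := div_nonneg (hg m) (by linarith)
          simpa using this
        · have := mul_le_mul_of_nonneg_left (kern n m x hx1 hx2 hmn) (hg m)
          rw [mul_sub, mul_one_div, mul_one_div] at this
          linarith
      linarith
    have v1 : volume (⋃ n ∈ A2, Set.Ioo ((n : ℝ) + 1 / 4) (n + 3 / 4)) =
        ENNReal.ofReal ((A2.card : ℝ) * (1 / 2)) := by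
      rw [measure_biUnion_finset]
      · simp only [Real.volume_Ioo]
        have : ∀ n : ℤ, (n : ℝ) + 3 / 4 - (n + 1 / 4) = 1 / 2 := fun n => by ring
        simp only [this, Finset.sum_const, nsmul_eq_mul]
        rw [ENNReal.ofReal_mul (by positivity), ENNReal.ofReal_natCast]
      · intro a _ b _ hab
        rw [Function.onFun, Set.disjoint_left]
        rintro x ⟨h1, h2⟩ ⟨h3, h4⟩
        have u : a < b + 1 := by
          have : (a : ℝ) < ((b + 1 : ℤ) : ℝ) := by push_cast; linarith
          exact_mod_cast this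
        have v : b < a + 1 := by
          have : (b : ℝ) < ((a + 1 : ℤ) : ℝ) := by push_cast; linarith
          exact_mod_cast this
        exact hab (by omega)
      · intro n _
        exact measurableSet_Ioo
    have v2 := (measure_mono sub).trans bo
    rw [v1] at v2
    exact (ENNReal.ofReal_le_ofReal_iff (by positivity)).mp v2
  have tot : (A.card : ℝ) = ((A.filter (fun n => er n < lam / 2)).card : ℕ) +
      ((A.filter (fun n => ¬ er n < lam / 2)).card : ℕ) := by
    rw [← hsplit]; push_cast; ring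
  rw [tot, le_div_iff₀ hlam]
  have c2' : (((A.filter (fun n => er n < lam / 2)).card : ℕ) : ℝ) * lam ≤ 4 * G := by
    rw [le_div_iff₀ (by linarith)] at c2
    linarith
  nlinarith

theorem refl_sum (g : ℤ → ℝ) (F : Finset ℤ) (n : ℤ) :
    ∑ m ∈ (F.map (Equiv.neg ℤ).toEmbedding).erase (-n), g (-m) / (((-n : ℤ) : ℝ) - (m : ℝ)) =
      - ∑ m ∈ F.erase n, g m / ((n : ℝ) - (m : ℝ)) := by
  classical
  have : (F.map (Equiv.neg ℤ).toEmbedding).erase (-n) =
      (F.erase n).map (Equiv.neg ℤ).toEmbedding := by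
    rw [Finset.map_erase]; rfl
  rw [this, Finset.sum_map, ← Finset.sum_neg_distrib]
  apply Finset.sum_congr rfl
  intro m _
  simp only [Equiv.coe_toEmbedding, Equiv.neg_apply, neg_neg]
  push_cast
  rw [show -(n : ℝ) - -(m : ℝ) = -((n : ℝ) - m) by ring, div_neg]

theorem twosided : ∃ C : ℝ, 0 < C ∧ ∀ (g : ℤ → ℝ) (F : Finset ℤ) (lam : ℝ), 0 < lam →
    (∀ m, 0 ≤ g m) →
    ∀ A : Finset ℤ, (∀ n ∈ A, lam < |∑ m ∈ F.erase n, g m / ((n : ℝ) - (m : ℝ))|) →
      (A.card : ℝ) ≤ C * (∑ m ∈ F, g m) / lam := by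
  classical
  obtain ⟨C, hC, h⟩ := onesided
  refine ⟨2 * C, by linarith, ?_⟩
  intro g F lam hlam hg A hA
  have hsplit := Finset.card_filter_add_card_filter_not (s := A)
    (fun n => lam < ∑ m ∈ F.erase n, g m / ((n : ℝ) - (m : ℝ)))
  have c1 := h g F lam hlam hg (A.filter
    (fun n => lam < ∑ m ∈ F.erase n, g m / ((n : ℝ) - (m : ℝ)))) (fun n hn => (mem_filter.mp hn).2)
  have c2 := h (fun m => g (-m)) (F.map (Equiv.neg ℤ).toEmbedding) lam hlam (fun m => hg _)
    ((A.filter (fun n => ¬ lam < ∑ m ∈ F.erase n, g m / ((n : ℝ) - (m : ℝ)))).map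
      (Equiv.neg ℤ).toEmbedding) (by
      intro n' hn'
      rw [Finset.mem_map] at hn'
      obtain ⟨n, hn, rfl⟩ := hn'
      rw [mem_filter] at hn
      have := refl_sum g F n
      simp only [Equiv.coe_toEmbedding, Equiv.neg_apply]
      rw [this]
      rcases lt_abs.mp (hA n hn.1) with h1 | h1
      · exact absurd h1 hn.2
      · exact h1)
  rw [Finset.card_map, Finset.sum_map] at c2
  simp only [Equiv.coe_toEmbedding, Equiv.neg_apply, neg_neg] at c2
  have tot : (A.card : ℝ) =
      ((A.filter (fun n => lam < ∑ m ∈ F.erase n, g m / ((n : ℝ) - (m : ℝ)))).card : ℕ) +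
      ((A.filter (fun n => ¬ lam < ∑ m ∈ F.erase n, g m / ((n : ℝ) - (m : ℝ)))).card : ℕ) := by
    rw [← hsplit]; push_cast; ring
  rw [tot]
  have : 2 * C * (∑ m ∈ F, g m) / lam = C * (∑ m ∈ F, g m) / lam + C * (∑ m ∈ F, g m) / lam := by
    ring
  rw [this]
  linarith

/-- Discrete weak type (1,1) inequality for the discrete Hilbert transform. -/
theorem weak11 : ∃ C : ℝ, 0 < C ∧ ∀ (g : ℤ → ℝ) (F : Finset ℤ) (lam : ℝ), 0 < lam →
    ∀ A : Finset ℤ, (∀ n ∈ A, lam < |∑ m ∈ F.erase n, g m / ((n : ℝ) - (m : ℝ))|) →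
      (A.card : ℝ) ≤ C * (∑ m ∈ F, |g m|) / lam := by
  classical
  obtain ⟨C, hC, h⟩ := twosided
  refine ⟨4 * C, by linarith, ?_⟩
  intro g F lam hlam A hA
  set gp : ℤ → ℝ := fun m => max (g m) 0 with hgp
  set gm : ℤ → ℝ := fun m => max (-g m) 0 with hgm
  have gpm : ∀ m, g m = gp m - gm m := by
    intro m
    simp only [hgp, hgm]
    rcases le_total (g m) 0 with h1 | h1
    · rw [max_eq_right h1, max_eq_left (by linarith)]; ring
    · rw [max_eq_left h1, max_eq_right (by linarith)]; ring
  have b1 : ∑ m ∈ F, gp m ≤ ∑ m ∈ F, |g m| :=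
    Finset.sum_le_sum (fun m _ => max_le (le_abs_self _) (abs_nonneg _))
  have b2 : ∑ m ∈ F, gm m ≤ ∑ m ∈ F, |g m| :=
    Finset.sum_le_sum (fun m _ => max_le (neg_le_abs _) (abs_nonneg _))
  have hsplit := Finset.card_filter_add_card_filter_not (s := A)
    (fun n => lam / 2 < |∑ m ∈ F.erase n, gp m / ((n : ℝ) - (m : ℝ))|)
  have c1 := h gp F (lam / 2) (by linarith) (fun m => le_max_right _ _) (A.filter
    (fun n => lam / 2 < |∑ m ∈ F.erase n, gp m / ((n : ℝ) - (m : ℝ))|))
    (fun n hn => (mem_filter.mp hn).2)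
  have c2 := h gm F (lam / 2) (by linarith) (fun m => le_max_right _ _) (A.filter
    (fun n => ¬ lam / 2 < |∑ m ∈ F.erase n, gp m / ((n : ℝ) - (m : ℝ))|))
    (fun n hn => by
      rw [mem_filter] at hn
      have h1 := hA n hn.1
      have h2 : ∑ m ∈ F.erase n, g m / ((n : ℝ) - (m : ℝ)) =
          ∑ m ∈ F.erase n, gp m / ((n : ℝ) - (m : ℝ)) -
          ∑ m ∈ F.erase n, gm m / ((n : ℝ) - (m : ℝ)) := by
        rw [← Finset.sum_sub_distrib]
        apply Finset.sum_congr rfl
        intro m _
        rw [gpm m]; ring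
      rw [h2] at h1
      have h3 := abs_sub (∑ m ∈ F.erase n, gp m / ((n : ℝ) - (m : ℝ)))
        (∑ m ∈ F.erase n, gm m / ((n : ℝ) - (m : ℝ)))
      have h4 := not_lt.mp hn.2
      linarith)
  have tot : (A.card : ℝ) =
      ((A.filter (fun n => lam / 2 < |∑ m ∈ F.erase n, gp m / ((n : ℝ) - (m : ℝ))|)).card : ℕ) +
      ((A.filter (fun n => ¬ lam / 2 < |∑ m ∈ F.erase n, gp m / ((n : ℝ) - (m : ℝ))|)).card : ℕ) := by
    rw [← hsplit]; push_cast; ring
  rw [tot]
  have e : ∀ S : ℝ, C * S / (lam / 2) = 2 * C * S / lam := by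
    intro S; field_simp
  rw [e] at c1 c2
  have m1 : 2 * C * (∑ m ∈ F, gp m) / lam ≤ 2 * C * (∑ m ∈ F, |g m|) / lam := by
    gcongr
  have m2 : 2 * C * (∑ m ∈ F, gm m) / lam ≤ 2 * C * (∑ m ∈ F, |g m|) / lam := by
    gcongr
  have : 4 * C * (∑ m ∈ F, |g m|) / lam = 2 * C * (∑ m ∈ F, |g m|) / lam +
    2 * C * (∑ m ∈ F, |g m|) / lam := by ring
  rw [this]
  linarith

end Pool.Agent.Helper107.CP.W11
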