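import Mathlib

set_option autoImplicit false
set_option maxHeartbeats 1000000

namespace Pool.Agent.Helper107.CP.WD

theorem aux_geom (ρ : ℝ) (h0 : 0 < ρ) (h1 : ρ < 1) (N : ℕ) :
    ∑ d ∈ Finset.range N, ρ ^ d ≤ 1 / (1 - ρ) := by
  rw [le_div_iff₀ (by linarith), geom_sum_mul_neg]
  have : 0 < ρ ^ N := by positivity
  linarith

theorem aux_tail (ρ : ℝ) (h0 : 0 < ρ) (h1 : ρ < 1) (N : ℕ) : ∀ X : ℝ, 0 ≤ X →
    ∑ d ∈ Finset.range N, (if ρ ^ d ≤ X then ρ ^ d else 0) ≤ X / (1 - ρ) := by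
  induction N with
  | zero =>
    intro X hX
    simp
    apply div_nonneg hX; linarith
  | succ N ih =>
    intro X hX
    have h1ρ : 0 < 1 - ρ := by linarith
    by_cases hX1 : 1 ≤ X
    · calc ∑ d ∈ Finset.range (N + 1), (if ρ ^ d ≤ X then ρ ^ d else 0)
          ≤ ∑ d ∈ Finset.range (N + 1), ρ ^ d := by
            apply Finset.sum_le_sum
            intro d _
            split_ifs
            · exact le_rfl
            · positivity
        _ ≤ 1 / (1 - ρ) := aux_geom ρ h0 h1 _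
        _ ≤ X / (1 - ρ) := by gcongr
    · rw [Finset.sum_range_succ']
      have e0 : (if ρ ^ 0 ≤ X then ρ ^ 0 else 0) = (0 : ℝ) := by
        rw [if_neg]; rw [pow_zero]; exact hX1
      rw [e0, add_zero]
      have e1 : ∀ d ∈ Finset.range N, (if ρ ^ (d + 1) ≤ X then ρ ^ (d + 1) else 0) =
          ρ * (if ρ ^ d ≤ X / ρ then ρ ^ d else 0) := by
        intro d _
        have : ρ ^ (d + 1) ≤ X ↔ ρ ^ d ≤ X / ρ := by
          rw [le_div_iff₀ h0, pow_succ]
        by_cases h : ρ ^ d ≤ X / ρ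
        · rw [if_pos h, if_pos (this.2 h), pow_succ]; ring
        · rw [if_neg h, if_neg (fun h' => h (this.1 h'))]; ring
      rw [Finset.sum_congr rfl e1, ← Finset.mul_sum]
      calc ρ * ∑ d ∈ Finset.range N, (if ρ ^ d ≤ X / ρ then ρ ^ d else 0)
          ≤ ρ * ((X / ρ) / (1 - ρ)) := mul_le_mul_of_nonneg_left (ih _ (by positivity)) h0.le
        _ = X / (1 - ρ) := by field_simp

theorem aux_small (ρ γ θ : ℝ) (h0 : 0 < ρ) (h1 : ρ < 1) (hγ : 0 < γ) (hθ : 0 < θ) (N : ℕ) :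
    ∑ d ∈ Finset.range N, (if ρ ^ d ≤ γ then (0 : ℝ) else 1) ≤ γ ^ (-θ) / (1 - ρ ^ θ) := by
  have hρθ0 : 0 < ρ ^ θ := Real.rpow_pos_of_pos h0 _
  have hρθ1 : ρ ^ θ < 1 := Real.rpow_lt_one h0.le h1 hθ
  have hterm : ∀ d ∈ Finset.range N, (if ρ ^ d ≤ γ then (0 : ℝ) else 1) ≤ γ ^ (-θ) * (ρ ^ θ) ^ d := by
    intro d _
    split_ifs with h
    · positivity
    · push Not at h
      have e : γ ^ (-θ) * (ρ ^ θ) ^ d = (ρ ^ d / γ) ^ θ := by
        rw [Real.div_rpow (by positivity) hγ.le, Real.rpow_neg hγ.le, ← Real.rpow_natCast (ρ ^ θ),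
          ← Real.rpow_mul h0.le, mul_comm θ, Real.rpow_mul h0.le, Real.rpow_natCast]
        ring
      rw [e]
      apply Real.one_le_rpow _ hθ.le
      rw [le_div_iff₀ hγ]; linarith
  calc _ ≤ ∑ d ∈ Finset.range N, γ ^ (-θ) * (ρ ^ θ) ^ d := Finset.sum_le_sum hterm
    _ = γ ^ (-θ) * ∑ d ∈ Finset.range N, (ρ ^ θ) ^ d := by rw [Finset.mul_sum]
    _ ≤ γ ^ (-θ) * (1 / (1 - ρ ^ θ)) :=
        mul_le_mul_of_nonneg_left (aux_geom _ hρθ0 hρθ1 N) (by positivity)
    _ = _ := by ring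

/-- decay of `a` along a chain of non-good ancestors -/
theorem aux_decay (κ w : ℝ) (hw : 0 ≤ w) (n : ℕ) (k0 : ℤ) (a b : ℕ → ℤ → ℝ)
    (h2 : ∀ (i : ℕ) (k : ℤ), b (i + 1) k < κ * a (i + 1) k →
        a i (2 * k) ≤ w * a (i + 1) k ∧ a i (2 * k + 1) ≤ w * a (i + 1) k)
    (x : ℤ) (hx : x / 2 ^ n = k0) : ∀ d ≤ n,
    (∀ e < d, ¬ κ * a (n - e) (x / 2 ^ (n - e)) ≤ b (n - e) (x / 2 ^ (n - e))) →
    a (n - d) (x / 2 ^ (n - d)) ≤ w ^ d * a n k0 := by
  intro d
  induction d with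
  | zero => intro _ _; simp [hx]
  | succ d ih =>
    intro hd hng
    have h1 := ih (by omega) (fun e he => hng e (by omega))
    obtain ⟨i, hi⟩ : ∃ i, n - (d + 1) = i := ⟨_, rfl⟩
    have hi1 : n - d = i + 1 := by omega
    have hng' := hng d (by omega)
    rw [hi1] at h1 hng'
    rw [hi]
    have h3 := h2 i (x / 2 ^ (i + 1)) (not_le.1 hng')
    have h4 : x / 2 ^ (i + 1) = (x / 2 ^ i) / 2 := by
      rw [pow_succ, Int.ediv_ediv_of_nonneg (by positivity)]
    have h5 : x / 2 ^ i = 2 * (x / 2 ^ (i + 1)) ∨ x / 2 ^ i = 2 * (x / 2 ^ (i + 1)) + 1 := by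
      rw [h4]; omega
    have h6 : a i (x / 2 ^ i) ≤ w * a (i + 1) (x / 2 ^ (i + 1)) := by
      rcases h5 with h | h
      · rw [h]; exact h3.1
      · rw [h]; exact h3.2
    calc a i (x / 2 ^ i) ≤ w * a (i + 1) (x / 2 ^ (i + 1)) := h6
      _ ≤ w * (w ^ d * a n k0) := mul_le_mul_of_nonneg_left h1 hw
      _ = _ := by ring

/-- Improvement of the `C_p` condition on one dyadic interval.  Dyadic intervals: `(i,k)` stands for
`[k 2^i, (k+1) 2^i) ⊂ ℤ`; its children are `(i-1, 2k)` and `(i-1, 2k+1)`. -/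
theorem weightD (C ε κ q : ℝ) (hC : 0 < C) (hε : 0 < ε) (hκ : 0 < κ) (hq : 1 < q) :
    ∃ C' ε' : ℝ, 0 < C' ∧ 0 < ε' ∧
    ∀ (n : ℕ) (k0 : ℤ) (u : ℤ → ℝ) (a b : ℕ → ℤ → ℝ) (B : ℝ), (∀ x, 0 ≤ u x) →
      (∀ i k, 0 ≤ a i k) → (∀ i k, 0 ≤ b i k) → 0 ≤ B →
      (∀ (i : ℕ) (k : ℤ) (E : Finset ℤ), E ⊆ Finset.Ico (k * 2 ^ i) ((k + 1) * 2 ^ i) →
        ∑ x ∈ E, u x ≤ C * ((E.card : ℝ) / 2 ^ i) ^ ε * a i k) →
      (∀ (i : ℕ) (k : ℤ), b (i + 1) k < κ * a (i + 1) k →
        a i (2 * k) ≤ (2 : ℝ) ^ (-q) * a (i + 1) k ∧ a i (2 * k + 1) ≤ (2 : ℝ) ^ (-q) * a (i + 1) k) →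
      (∀ i ≤ n, ∑ k ∈ Finset.Ico (k0 * 2 ^ (n - i)) ((k0 + 1) * 2 ^ (n - i)), b i k ≤ C * B) →
      ∀ E : Finset ℤ, E ⊆ Finset.Ico (k0 * 2 ^ n) ((k0 + 1) * 2 ^ n) →
        ∑ x ∈ E, u x ≤ C' * (((E.card : ℝ) / 2 ^ n) ^ ε' * B + ((E.card : ℝ) / 2 ^ n) * a n k0) := by
  classical
  set w : ℝ := (2 : ℝ) ^ (-q) with hw
  have hw0 : 0 < w := by positivity
  set ρ : ℝ := 2 * w with hρ
  have hρ' : ρ = (2 : ℝ) ^ (-(q - 1)) := by
    rw [hρ, hw, show -(q - 1) = 1 + -q by ring, Real.rpow_add (by norm_num), Real.rpow_one]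
  have hρ0 : 0 < ρ := by positivity
  have hρ1 : ρ < 1 := by
    rw [hρ']; exact Real.rpow_lt_one_of_one_lt_of_neg (by norm_num) (by linarith)
  set δ : ℝ := 1 - 1 / q with hδ
  have hq0 : 0 < q := by linarith
  have hδ0 : 0 < δ := by
    rw [hδ, sub_pos, div_lt_one hq0]; exact hq
  set θ : ℝ := δ * ε / 2 with hθ
  have hθ0 : 0 < θ := by positivity
  have hρθ1 : ρ ^ θ < 1 := Real.rpow_lt_one hρ0.le hρ1 hθ0
  have h1ρ : 0 < 1 - ρ := by linarith
  have h1ρθ : 0 < 1 - ρ ^ θ := by linarith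
  refine ⟨C ^ 2 / κ / (1 - ρ ^ θ) + 2 * C / (1 - ρ) + C, θ, by positivity, hθ0, ?_⟩
  intro n k0 u a b B hu ha hb hB h1 h2 h3 E hE
  set γ : ℝ := (E.card : ℝ) / 2 ^ n with hγ
  rcases E.eq_empty_or_nonempty with hE0 | hEne
  · rw [hE0]
    simp only [Finset.sum_empty]
    have := ha n k0
    positivity
  have hcardpos : (0 : ℝ) < E.card := by exact_mod_cast hEne.card_pos
  have hγ0 : 0 < γ := by positivity
  have hcardE : (E.card : ℝ) = γ * 2 ^ n := by rw [hγ]; field_simp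
  have hγ1 : γ ≤ 1 := by
    rw [hγ, div_le_one (by positivity)]
    have h5 := Finset.card_le_card hE
    rw [Int.card_Ico] at h5
    have h6 : ((k0 + 1) * 2 ^ n - k0 * 2 ^ n : ℤ) = 2 ^ n := by ring
    rw [h6] at h5
    have h7 : ((2 : ℤ) ^ n).toNat = 2 ^ n := by
      rw [show ((2 : ℤ) ^ n) = ((2 ^ n : ℕ) : ℤ) by push_cast; rfl, Int.toNat_natCast]
    rw [h7] at h5
    exact_mod_cast h5
  clear_value γ
  clear hγ
  have hEdiv : ∀ x ∈ E, x / 2 ^ n = k0 := by
    intro x hx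
    have := Finset.mem_Ico.1 (hE hx)
    rw [Int.ediv_eq_iff_of_pos (by positivity)]
    constructor <;> linarith [this.1, this.2]
  -- predicates
  let P : ℕ → ℤ → Prop := fun d x => κ * a (n - d) (x / 2 ^ (n - d)) ≤ b (n - d) (x / 2 ^ (n - d)) ∧
    ∀ e < d, ¬ κ * a (n - e) (x / 2 ^ (n - e)) ≤ b (n - e) (x / 2 ^ (n - e))
  let Pinf : ℤ → Prop := fun x => ∀ e < n, ¬ κ * a (n - e) (x / 2 ^ (n - e)) ≤ b (n - e) (x / 2 ^ (n - e))
  have hsplit : ∑ x ∈ E, u x ≤ (∑ d ∈ Finset.range n, ∑ x ∈ E.filter (P d), u x) +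
      ∑ x ∈ E.filter Pinf, u x := by
    have e1 : ∀ d ∈ Finset.range n, ∑ x ∈ E.filter (P d), u x = ∑ x ∈ E, if P d x then u x else 0 :=
      fun d _ => Finset.sum_filter _ _
    rw [Finset.sum_congr rfl e1, Finset.sum_comm, Finset.sum_filter, ← Finset.sum_add_distrib]
    apply Finset.sum_le_sum
    intro x hx
    by_cases hinf : Pinf x
    · rw [if_pos hinf]
      have : 0 ≤ ∑ d ∈ Finset.range n, if P d x then u x else 0 := by
        apply Finset.sum_nonneg
        intro d _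
        split_ifs
        · exact hu x
        · exact le_rfl
      linarith
    · rw [if_neg hinf, add_zero]
      have hex : ∃ e, e < n ∧ κ * a (n - e) (x / 2 ^ (n - e)) ≤ b (n - e) (x / 2 ^ (n - e)) := by
        by_contra hcon
        push Not at hcon
        exact hinf fun e he => not_le.2 (hcon e he)
      have hf := Nat.find_spec hex
      have hP : P (Nat.find hex) x := by
        refine ⟨hf.2, fun e he hcon => Nat.find_min hex he ⟨by omega, hcon⟩⟩
      calc u x = (if P (Nat.find hex) x then u x else 0) := by rw [if_pos hP]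
        _ ≤ ∑ d ∈ Finset.range n, if P d x then u x else 0 := by
          apply Finset.single_le_sum (f := fun d => if P d x then u x else 0) _
            (Finset.mem_range.2 hf.1)
          intro d _
          show 0 ≤ if P d x then u x else 0
          split_ifs
          · exact hu x
          · exact le_rfl
  -- the part without good ancestors
  have hinf : ∑ x ∈ E.filter Pinf, u x ≤ C * (γ * a n k0) := by
    have hpt : ∀ x ∈ E.filter Pinf, u x ≤ C * (w ^ n * a n k0) := by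
      intro x hx
      rw [Finset.mem_filter] at hx
      have e1 := aux_decay κ w hw0.le n k0 a b h2 x (hEdiv x hx.1) n le_rfl hx.2
      have e2 := h1 0 x {x} (by
        intro y hy
        rw [Finset.mem_singleton] at hy
        subst hy
        rw [Finset.mem_Ico]
        constructor <;> simp)
      simp at e1 e2
      calc u x ≤ C * a 0 x := e2
        _ ≤ C * (w ^ n * a n k0) := mul_le_mul_of_nonneg_left e1 hC.le
    calc ∑ x ∈ E.filter Pinf, u x ≤ ∑ x ∈ E.filter Pinf, C * (w ^ n * a n k0) := Finset.sum_le_sum hpt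
      _ = ((E.filter Pinf).card : ℝ) * (C * (w ^ n * a n k0)) := by rw [Finset.sum_const, nsmul_eq_mul]
      _ ≤ (E.card : ℝ) * (C * (w ^ n * a n k0)) := by
        apply mul_le_mul_of_nonneg_right
        · exact_mod_cast Finset.card_filter_le _ _
        · have := ha n k0; positivity
      _ = (ρ ^ n) * (C * (γ * a n k0)) := by rw [hcardE, hρ, mul_pow]; ring
      _ ≤ 1 * (C * (γ * a n k0)) := by
        apply mul_le_mul_of_nonneg_right
        · exact pow_le_one₀ hρ0.le hρ1.le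
        · have := ha n k0; positivity
      _ = _ := one_mul _
  -- one level
  have hlevel : ∀ d ∈ Finset.range n, ∑ x ∈ E.filter (P d), u x ≤
      C ^ 2 / κ * γ ^ (δ * ε) * B * (if ρ ^ d ≤ γ then (0 : ℝ) else 1) +
      C * γ ^ (1 / q) * a n k0 * (if ρ ^ d ≤ γ ^ ((q - 1) / q) then ρ ^ d else 0) +
      C * a n k0 * (if ρ ^ d ≤ γ then ρ ^ d else 0) := by
    intro d hd
    have hdn : d < n := Finset.mem_range.1 hd
    set s := n - d with hs
    set I := Finset.Ico (k0 * 2 ^ d) ((k0 + 1) * 2 ^ d) with hI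
    have hnsd : n = s + d := by omega
    have hIcard : (I.card : ℝ) = 2 ^ d := by
      rw [hI, Int.card_Ico]
      have h6 : ((k0 + 1) * 2 ^ d - k0 * 2 ^ d : ℤ) = 2 ^ d := by ring
      rw [h6]
      have h7 : ((2 : ℤ) ^ d).toNat = 2 ^ d := by
        rw [show ((2 : ℤ) ^ d) = ((2 ^ d : ℕ) : ℤ) by push_cast; rfl, Int.toNat_natCast]
      rw [h7]; push_cast; rfl
    let S : ℤ → Finset ℤ := fun k => (E.filter (P d)).filter (fun x => x / 2 ^ s = k)
    have hmaps : ∀ x ∈ E.filter (P d), x / 2 ^ s ∈ I := by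
      intro x hx
      have hx' := Finset.mem_Ico.1 (hE (Finset.mem_filter.1 hx).1)
      rw [hI, Finset.mem_Ico]
      have e : (2 : ℤ) ^ n = 2 ^ d * 2 ^ s := by rw [← pow_add]; congr 1; omega
      rw [e] at hx'
      constructor
      · rw [Int.le_ediv_iff_mul_le (by positivity)]
        linarith [hx'.1]
      · rw [Int.ediv_lt_iff_lt_mul (by positivity)]
        linarith [hx'.2]
    have hfib : ∑ x ∈ E.filter (P d), u x = ∑ k ∈ I, ∑ x ∈ S k, u x :=
      (Finset.sum_fiberwise_of_maps_to hmaps u).symm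
    have hScard : ∑ k ∈ I, ((S k).card : ℝ) ≤ E.card := by
      have e1 : (E.filter (P d)).card = ∑ k ∈ I, (S k).card :=
        Finset.card_eq_sum_card_fiberwise hmaps
      have e2 : (E.filter (P d)).card ≤ E.card := Finset.card_filter_le _ _
      rw [e1] at e2
      exact_mod_cast e2
    have hSsub : ∀ k, S k ⊆ Finset.Ico (k * 2 ^ s) ((k + 1) * 2 ^ s) := by
      intro k x hx
      have hx' := (Finset.mem_filter.1 hx).2
      rw [Int.ediv_eq_iff_of_pos (by positivity)] at hx'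
      rw [Finset.mem_Ico]
      constructor <;> linarith [hx'.1, hx'.2]
    have hSt : ∀ k, ((S k).card : ℝ) / 2 ^ s ≤ 1 := by
      intro k
      rw [div_le_one (by positivity)]
      have h5 := Finset.card_le_card (hSsub k)
      rw [Int.card_Ico] at h5
      have h6 : ((k + 1) * 2 ^ s - k * 2 ^ s : ℤ) = 2 ^ s := by ring
      rw [h6] at h5
      have h7 : ((2 : ℤ) ^ s).toNat = 2 ^ s := by
        rw [show ((2 : ℤ) ^ s) = ((2 ^ s : ℕ) : ℤ) by push_cast; rfl, Int.toNat_natCast]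
      rw [h7] at h5
      exact_mod_cast h5
    have hSgood : ∀ k, (S k).Nonempty → κ * a s k ≤ b s k ∧ a s k ≤ w ^ d * a n k0 := by
      intro k hk
      obtain ⟨x, hx⟩ := hk
      have hx1 := Finset.mem_filter.1 hx
      have hx2 := Finset.mem_filter.1 hx1.1
      have hx3 : P d x := hx2.2
      have e1 := aux_decay κ w hw0.le n k0 a b h2 x (hEdiv x hx2.1) d hdn.le hx3.2
      have e2 := hx3.1
      rw [← hs, hx1.2] at e1 e2
      exact ⟨e2, e1⟩
    have hwa : 0 ≤ w ^ d * a n k0 := by have := ha n k0; positivity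
    -- bound (c)
    have hc : ∀ k, ∑ x ∈ S k, u x ≤ C * (w ^ d * a n k0) := by
      intro k
      rcases (S k).eq_empty_or_nonempty with h | h
      · rw [h]; simp only [Finset.sum_empty]; positivity
      · obtain ⟨_, g2⟩ := hSgood k h
        calc ∑ x ∈ S k, u x ≤ C * (((S k).card : ℝ) / 2 ^ s) ^ ε * a s k := h1 s k (S k) (hSsub k)
          _ ≤ C * 1 * (w ^ d * a n k0) := by
            apply mul_le_mul _ g2 (ha s k) (by positivity)
            apply mul_le_mul_of_nonneg_left _ hC.le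
            exact Real.rpow_le_one (div_nonneg (Nat.cast_nonneg _) (pow_nonneg (by norm_num) _)) (hSt k) hε.le
          _ = _ := by ring
    have hlc : ∑ x ∈ E.filter (P d), u x ≤ C * a n k0 * ρ ^ d := by
      rw [hfib]
      calc ∑ k ∈ I, ∑ x ∈ S k, u x ≤ ∑ k ∈ I, C * (w ^ d * a n k0) := Finset.sum_le_sum fun k _ => hc k
        _ = (I.card : ℝ) * (C * (w ^ d * a n k0)) := by rw [Finset.sum_const, nsmul_eq_mul]
        _ = _ := by rw [hIcard, hρ, mul_pow]; ring
    -- bounds (a)+(b)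
    set J := I.filter (fun k => γ ^ δ < ((S k).card : ℝ) / 2 ^ s) with hJ
    have hab : ∀ k ∈ I, ∑ x ∈ S k, u x ≤ C / κ * γ ^ (δ * ε) * b s k +
        (if γ ^ δ < ((S k).card : ℝ) / 2 ^ s then C * (w ^ d * a n k0) else 0) := by
      intro k _
      have hbk := hb s k
      split_ifs with ht
      · have := hc k
        have h5 : 0 ≤ C / κ * γ ^ (δ * ε) * b s k := by positivity
        linarith
      · push Not at ht
        rw [add_zero]
        rcases (S k).eq_empty_or_nonempty with h | h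
        · rw [h]; simp only [Finset.sum_empty]; positivity
        · obtain ⟨g1, _⟩ := hSgood k h
          calc ∑ x ∈ S k, u x ≤ C * (((S k).card : ℝ) / 2 ^ s) ^ ε * a s k := h1 s k (S k) (hSsub k)
            _ ≤ C * (γ ^ δ) ^ ε * (b s k / κ) := by
              apply mul_le_mul _ _ (ha s k) (by positivity)
              · apply mul_le_mul_of_nonneg_left _ hC.le
                exact Real.rpow_le_rpow (div_nonneg (Nat.cast_nonneg _) (pow_nonneg (by norm_num) _)) ht hε.le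
              · rw [le_div_iff₀ hκ]; linarith
            _ = _ := by rw [← Real.rpow_mul hγ0.le]; ring
    have hJcard : (J.card : ℝ) ≤ γ ^ (1 / q) * 2 ^ d := by
      have e1 : (J.card : ℝ) * γ ^ δ ≤ ∑ k ∈ J, ((S k).card : ℝ) / 2 ^ s := by
        rw [← nsmul_eq_mul, ← Finset.sum_const]
        exact Finset.sum_le_sum fun k hk => (Finset.mem_filter.1 hk).2.le
      have e2 : ∑ k ∈ J, ((S k).card : ℝ) / 2 ^ s ≤ ∑ k ∈ I, ((S k).card : ℝ) / 2 ^ s :=
        Finset.sum_le_sum_of_subset_of_nonneg (Finset.filter_subset _ _) fun k _ _ =>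
          div_nonneg (Nat.cast_nonneg _) (pow_nonneg (by norm_num) _)
      have e3 : ∑ k ∈ I, ((S k).card : ℝ) / 2 ^ s ≤ γ * 2 ^ d := by
        rw [← Finset.sum_div, div_le_iff₀ (by positivity)]
        calc _ ≤ (E.card : ℝ) := hScard
          _ = γ * 2 ^ n := hcardE
          _ = _ := by rw [hnsd, pow_add]; ring
      have e4 : (J.card : ℝ) * γ ^ δ ≤ (γ ^ (1 / q) * 2 ^ d) * γ ^ δ := by
        have : γ ^ (1 / q) * γ ^ δ = γ := by
          rw [← Real.rpow_add hγ0, hδ]; simp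
        calc _ ≤ γ * 2 ^ d := e1.trans (e2.trans e3)
          _ = (γ ^ (1 / q) * γ ^ δ) * 2 ^ d := by rw [this]
          _ = _ := by ring
      exact le_of_mul_le_mul_right e4 (by positivity)
    have hJ2 : (J.card : ℝ) * w ^ d ≤ γ ^ (1 / q) * (if ρ ^ d ≤ γ ^ ((q - 1) / q) then ρ ^ d else 0) := by
      by_cases h0 : J.card = 0
      · rw [h0]; simp only [Nat.cast_zero, zero_mul]
        split_ifs <;> positivity
      · have h1' : (1 : ℝ) ≤ J.card := by exact_mod_cast Nat.one_le_iff_ne_zero.2 h0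
        have h2' : 1 ≤ γ ^ (1 / q) * 2 ^ d := h1'.trans hJcard
        have h3' : ρ ^ d ≤ γ ^ ((q - 1) / q) := by
          have e1 : ρ ^ d = ((2 : ℝ) ^ d)⁻¹ ^ (q - 1) := by
            rw [hρ', ← Real.rpow_natCast, ← Real.rpow_mul (by norm_num),
              ← Real.rpow_natCast, Real.inv_rpow (by positivity), ← Real.rpow_mul (by norm_num),
              ← Real.rpow_neg (by norm_num)]
            congr 1; ring
          have e2 : γ ^ ((q - 1) / q) = (γ ^ (1 / q)) ^ (q - 1) := by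
            rw [← Real.rpow_mul hγ0.le]; congr 1; ring
          rw [e1, e2]
          apply Real.rpow_le_rpow (by positivity) _ (by linarith)
          rw [inv_le_iff_one_le_mul₀ (by positivity)]
          exact h2'
        rw [if_pos h3']
        calc (J.card : ℝ) * w ^ d ≤ (γ ^ (1 / q) * 2 ^ d) * w ^ d :=
              mul_le_mul_of_nonneg_right hJcard (by positivity)
          _ = _ := by rw [hρ, mul_pow]; ring
    have hlab : ∑ x ∈ E.filter (P d), u x ≤ C ^ 2 / κ * γ ^ (δ * ε) * B +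
        C * γ ^ (1 / q) * a n k0 * (if ρ ^ d ≤ γ ^ ((q - 1) / q) then ρ ^ d else 0) := by
      rw [hfib]
      have hbs : ∑ k ∈ I, b s k ≤ C * B := by
        have := h3 s (by omega)
        rw [show n - s = d by omega] at this
        exact this
      calc ∑ k ∈ I, ∑ x ∈ S k, u x
          ≤ ∑ k ∈ I, (C / κ * γ ^ (δ * ε) * b s k +
            (if γ ^ δ < ((S k).card : ℝ) / 2 ^ s then C * (w ^ d * a n k0) else 0)) := Finset.sum_le_sum hab
        _ = C / κ * γ ^ (δ * ε) * ∑ k ∈ I, b s k + (J.card : ℝ) * (C * (w ^ d * a n k0)) := by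
          rw [Finset.sum_add_distrib, ← Finset.mul_sum, ← Finset.sum_filter, Finset.sum_const, nsmul_eq_mul]
        _ ≤ C / κ * γ ^ (δ * ε) * (C * B) + C * a n k0 * (γ ^ (1 / q) * (if ρ ^ d ≤ γ ^ ((q - 1) / q) then ρ ^ d else 0)) := by
          apply add_le_add
          · apply mul_le_mul_of_nonneg_left hbs; positivity
          · calc (J.card : ℝ) * (C * (w ^ d * a n k0)) = C * a n k0 * ((J.card : ℝ) * w ^ d) := by ring
              _ ≤ _ := by
                apply mul_le_mul_of_nonneg_left hJ2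
                have := ha n k0; positivity
        _ = _ := by ring
    have hX : 0 ≤ C * γ ^ (1 / q) * a n k0 * (if ρ ^ d ≤ γ ^ ((q - 1) / q) then ρ ^ d else 0) := by
      have := ha n k0
      split_ifs <;> positivity
    by_cases hdγ : ρ ^ d ≤ γ
    · rw [if_pos hdγ, if_pos hdγ]
      linarith
    · rw [if_neg hdγ, if_neg hdγ]
      linarith
  -- summation over the levels
  have hsum : ∑ d ∈ Finset.range n, ∑ x ∈ E.filter (P d), u x ≤
      C ^ 2 / κ / (1 - ρ ^ θ) * (γ ^ θ * B) + 2 * C / (1 - ρ) * (γ * a n k0) := by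
    have hA0 := ha n k0
    refine (Finset.sum_le_sum hlevel).trans ?_
    rw [Finset.sum_add_distrib, Finset.sum_add_distrib, ← Finset.mul_sum, ← Finset.mul_sum, ← Finset.mul_sum]
    have t1 := aux_small ρ γ θ hρ0 hρ1 hγ0 hθ0 n
    have t2 := aux_tail ρ hρ0 hρ1 n (γ ^ ((q - 1) / q)) (by positivity)
    have t3 := aux_tail ρ hρ0 hρ1 n γ hγ0.le
    have s1 : C ^ 2 / κ * γ ^ (δ * ε) * B * ∑ d ∈ Finset.range n, (if ρ ^ d ≤ γ then (0 : ℝ) else 1) ≤
        C ^ 2 / κ / (1 - ρ ^ θ) * (γ ^ θ * B) := by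
      calc _ ≤ C ^ 2 / κ * γ ^ (δ * ε) * B * (γ ^ (-θ) / (1 - ρ ^ θ)) := by
            apply mul_le_mul_of_nonneg_left t1; positivity
        _ = C ^ 2 / κ / (1 - ρ ^ θ) * ((γ ^ (δ * ε) * γ ^ (-θ)) * B) := by ring
        _ = _ := by
          rw [← Real.rpow_add hγ0]
          congr 3
          rw [hθ]; ring
    have s2 : C * γ ^ (1 / q) * a n k0 * ∑ d ∈ Finset.range n,
        (if ρ ^ d ≤ γ ^ ((q - 1) / q) then ρ ^ d else 0) ≤ C / (1 - ρ) * (γ * a n k0) := by
      calc _ ≤ C * γ ^ (1 / q) * a n k0 * (γ ^ ((q - 1) / q) / (1 - ρ)) := by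
            apply mul_le_mul_of_nonneg_left t2; positivity
        _ = C / (1 - ρ) * ((γ ^ (1 / q) * γ ^ ((q - 1) / q)) * a n k0) := by ring
        _ = _ := by
          rw [← Real.rpow_add hγ0, show 1 / q + (q - 1) / q = 1 by field_simp; ring, Real.rpow_one]
    have s3 : C * a n k0 * ∑ d ∈ Finset.range n, (if ρ ^ d ≤ γ then ρ ^ d else 0) ≤
        C / (1 - ρ) * (γ * a n k0) := by
      calc _ ≤ C * a n k0 * (γ / (1 - ρ)) := by
            apply mul_le_mul_of_nonneg_left t3; positivity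
        _ = _ := by ring
    have e5 : 2 * C / (1 - ρ) * (γ * a n k0) = C / (1 - ρ) * (γ * a n k0) + C / (1 - ρ) * (γ * a n k0) := by ring
    rw [e5]
    linarith
  have hfin : C ^ 2 / κ / (1 - ρ ^ θ) * (γ ^ θ * B) + 2 * C / (1 - ρ) * (γ * a n k0) + C * (γ * a n k0) ≤
      (C ^ 2 / κ / (1 - ρ ^ θ) + 2 * C / (1 - ρ) + C) * (γ ^ θ * B + γ * a n k0) := by
    have hA0 := ha n k0
    have p1 : 0 ≤ C ^ 2 / κ / (1 - ρ ^ θ) * (γ * a n k0) := by positivity
    have p2 : 0 ≤ (2 * C / (1 - ρ) + C) * (γ ^ θ * B) := by positivity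
    nlinarith [p1, p2]
  linarith

end Pool.Agent.Helper107.CP.WD
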