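import Mathlib
import Pool.Agent.Helper107.CPh
import Pool.Agent.Helper107.CPgs
import Pool.Agent.Helper107.CPmw
import Pool.Agent.Helper107.CPhp
import Pool.Agent.Helper107.CPld
import Pool.Agent.Helper107.CPw11
import Pool.Agent.Helper107.CPwd
import Pool.Agent.Helper107.CPsp
import Pool.Agent.Helper107.CPtr

set_option autoImplicit false
open Filter Topology MeasureTheory

namespace Pool.Agent.Helper107.CP

lemma car_sp (a : ℕ → ℤ → ℝ) : ∀ i k, Sp.car a i k = car a i k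
  | 0, k => rfl
  | (i + 1), k => by
      simp only [Sp.car, car]
      rw [car_sp, car_sp]

lemma sparse' : Sparse := by
  intro K1 hK1
  obtain ⟨K, hK, h⟩ := Sp.sparse K1 hK1
  refine ⟨K, hK, ?_⟩
  intro T F c ω h0 h1 h2 h3
  obtain ⟨s, hs, hc, hx⟩ := h T F c ω h0 h1 h2 h3
  refine ⟨s, hs, ?_, hx⟩
  intro i k
  rw [← car_sp]; exact hc i k

lemma weak11' : Weak11 := W11.weak11

lemma weightD' : WeightD := WD.weightD

theorem final (hX : Excess) :
    ∀ p : ℝ, 1 < p → ∀ U : ℝ → ℝ, Measurable U → (∀ x, 0 ≤ U x) →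
      (∃ C : ℝ, 0 < C ∧ ∃ ε : ℝ, 0 < ε ∧
        ∀ a b : ℝ, a < b → ∀ E : Set ℝ, MeasurableSet E → E ⊆ Set.Ioo a b →
          ∫⁻ x in E, ENNReal.ofReal (U x) ≤
            ENNReal.ofReal C * ENNReal.ofReal (((volume E).toReal / (b - a)) ^ ε) *
              ∫⁻ x, ENNReal.ofReal ((b - a) ^ p / ((b - a) ^ p + |x - (a + b) / 2| ^ p) * U x)) →
      ∃ K : ℝ, 0 < K ∧
        ∀ f : ℝ → ℝ, ContDiff ℝ ((⊤ : ℕ∞) : WithTop ℕ∞) f → HasCompactSupport f →
          ∀ H : ℝ → ℝ,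
            (∀ x, Tendsto (fun δ : ℝ => ∫ y in {y : ℝ | δ < |x - y|}, f y / (x - y))
                (𝓝[>] (0 : ℝ)) (𝓝 (H x))) →
            ∫⁻ x, ENNReal.ofReal (|H x| ^ p * U x) ≤
              ENNReal.ofReal K *
                ∫⁻ x, (⨆ a : ℝ, ⨆ b : ℝ, ⨆ (_ : a < x ∧ x < b),
                    ENNReal.ofReal ((b - a)⁻¹) * ∫⁻ y in Set.Ioo a b, ‖f y‖ₑ) ^ p
                  * ENNReal.ofReal (U x) :=
  Tr.transfer (discreteMain (localD weightD') gsysWS (mainW hX) (hPart weak11' sparse'))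

end Pool.Agent.Helper107.CP
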