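import Pool.Agent.Helper107.Spike

set_option autoImplicit false
open MeasureTheory Filter Topology Metric BoundedContinuousFunction

namespace Pool.Agent.Helper107.Comm
open Pool.Agent.Helper107.Spike

/-- lattice of points (odd, even) -/
def LX : Set E2 := {x | ∃ a b : ℤ, x 0 = 2 * a + 1 ∧ x 1 = 2 * b}

lemma LX_nonempty : LX.Nonempty := ⟨!₂[1, 0], 0, 0, by simp, by simp⟩

lemma LX_sep {x y : E2} (hx : x ∈ LX) (hy : y ∈ LX) (h : x ≠ y) : 1 ≤ dist x y := by
  obtain ⟨a, b, ha, hb⟩ := hx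
  obtain ⟨a', b', ha', hb'⟩ := hy
  rw [dist_eq_norm]
  have key : ∀ c c' : ℤ, c ≠ c' → (1:ℝ) ≤ |(c:ℝ) - c'| := by
    intro c c' hcc
    have h2 : (1:ℤ) ≤ |c - c'| := Int.one_le_abs (sub_ne_zero.2 hcc)
    exact_mod_cast h2
  by_cases haa : a = a'
  · have hbb : b ≠ b' := by
      rintro rfl
      subst haa
      apply h
      ext i
      fin_cases i
      · show x 0 = y 0
        rw [ha, ha']
      · show x 1 = y 1
        rw [hb, hb']
    have h1 := abs_coord_le (x - y) 1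
    rw [PiLp.sub_apply, hb, hb', show 2 * (b:ℝ) - 2 * b' = 2 * ((b:ℝ) - b') by ring, abs_mul,
      abs_of_pos (show (0:ℝ) < 2 by norm_num)] at h1
    have := key b b' hbb
    linarith
  · have h1 := abs_coord_le (x - y) 0
    rw [PiLp.sub_apply, ha, ha', show 2 * (a:ℝ) + 1 - (2 * a' + 1) = 2 * ((a:ℝ) - a') by ring,
      abs_mul, abs_of_pos (show (0:ℝ) < 2 by norm_num)] at h1
    have := key a a' haa
    linarith

lemma infDist_eq {x y : E2} (hx : x ∈ LX) (h : dist y x < 1/2) : infDist y LX = dist y x := by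
  refine le_antisymm (infDist_le_dist_of_mem hx) ?_
  refine (le_infDist LX_nonempty).2 (fun x' hx' => ?_)
  rcases eq_or_ne x x' with rfl | hne
  · exact le_rfl
  · have h1 := LX_sep hx hx' hne
    have h2 := dist_triangle_left x x' y
    linarith

/-- radial profile -/
noncomputable def bet (t : ℝ) : ℝ := max 0 (-Real.log (4 * t))

/-- the BMO function -/
noncomputable def bb (y : E2) : ℝ := bet (infDist y LX)

lemma bet_nonneg (t : ℝ) : 0 ≤ bet t := le_max_left _ _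

lemma bb_nonneg (y : E2) : 0 ≤ bb y := bet_nonneg _

lemma bet_zero_of_le {t : ℝ} (h : 1/4 ≤ t) : bet t = 0 := by
  unfold bet
  refine max_eq_left ?_
  have := Real.log_nonneg (show 1 ≤ 4 * t by linarith)
  linarith

lemma bet_le {t : ℝ} (h : 0 ≤ t) : bet t ≤ 1 * t⁻¹ := by
  unfold bet
  rcases h.eq_or_lt with h0 | h0
  · subst h0; simp
  · refine max_le (by positivity) ?_
    rw [← Real.log_inv]
    have h1 : Real.log ((4 * t)⁻¹) ≤ (4 * t)⁻¹ - 1 := Real.log_le_sub_one_of_pos (by positivity)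
    have h2 : (4 * t)⁻¹ ≤ 1 * t⁻¹ := by
      rw [one_mul]
      exact inv_anti₀ h0 (by linarith)
    linarith

lemma measurable_bet : Measurable bet := by
  unfold bet
  exact measurable_const.max ((Real.measurable_log.comp (measurable_const_mul (4:ℝ))).neg)

lemma measurable_bb : Measurable bb :=
  measurable_bet.comp (continuous_infDist_pt LX).measurable

lemma integrable_bet : Integrable (fun y : E2 => bet ‖y‖) := by
  refine integrable_of_bound _ (measurable_bet.comp measurable_norm) 1 1 (fun y => ?_) (fun _ hy => ?_)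
  · rw [abs_of_nonneg (bet_nonneg _)]
    exact bet_le (norm_nonneg y)
  · exact bet_zero_of_le (by linarith)

lemma integrable_bet_dist (x : E2) : Integrable (fun y : E2 => bet (dist y x)) := by
  simp only [dist_eq_norm]
  exact integrable_bet.comp_sub_right x

noncomputable def Ib : ℝ := ∫ y : E2, bet ‖y‖

lemma Ib_nonneg : 0 ≤ Ib := integral_nonneg (fun _ => bet_nonneg _)

lemma integral_bet_dist (x : E2) : ∫ y, bet (dist y x) = Ib := by
  simp only [dist_eq_norm]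
  exact integral_sub_right_eq_self (fun y : E2 => bet ‖y‖) x

lemma bb_eq_of_near {x y : E2} (hx : x ∈ LX) (h : dist y x < 1/2) : bb y = bet (dist y x) := by
  unfold bb; rw [infDist_eq hx h]

lemma bb_pos_near {y : E2} (h : bb y ≠ 0) : ∃ x ∈ LX, dist y x < 1/4 ∧ bb y = bet (dist y x) := by
  have h1 : infDist y LX < 1/4 := by
    by_contra hcon
    exact h (bet_zero_of_le (not_lt.1 hcon))
  obtain ⟨x, hx, hd⟩ := (infDist_lt_iff LX_nonempty).1 h1
  exact ⟨x, hx, hd, bb_eq_of_near hx (by linarith)⟩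

/-- large balls -/
lemma bb_large (c : E2) (r : ℝ) (hr : 0 < r) : ∃ X : Finset E2, (X.card : ℝ) ≤ 4 * (r + 3/4) ^ 2 ∧
    ∀ y ∈ ball c r, bb y ≤ ∑ x ∈ X, bet (dist y x) := by
  classical
  set M : ℤ := ⌈‖c‖ + r + 1⌉ with hM
  set X₀ : Finset E2 := (Finset.Icc (-M) M ×ˢ Finset.Icc (-M) M).image
    (fun ab : ℤ × ℤ => (!₂[(2 * ab.1 + 1 : ℝ), (2 * ab.2 : ℝ)] : E2)) with hX₀
  set X := X₀.filter (fun p => dist p c < r + 1/4) with hX
  have hXL : ∀ p ∈ X, p ∈ LX := by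
    intro p hp
    obtain ⟨⟨a, b⟩, _, rfl⟩ := Finset.mem_image.1 (Finset.mem_filter.1 hp).1
    exact ⟨a, b, by simp, by simp⟩
  refine ⟨X, ?_, ?_⟩
  · have h1 := packing X (fun p hp q hq h => LX_sep (hXL p hp) (hXL q hq) h) c (r + 1/4)
      (by linarith) (fun p hp => (Finset.mem_filter.1 hp).2)
    rw [show r + 1/4 + 1/2 = r + 3/4 by ring] at h1
    exact h1
  · intro y hy
    by_cases h0 : bb y = 0
    · rw [h0]; exact Finset.sum_nonneg (fun x _ => bet_nonneg _)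
    · obtain ⟨x, hx, hd, hbe⟩ := bb_pos_near h0
      rw [hbe]
      refine Finset.single_le_sum (f := fun x => bet (dist y x)) (fun x _ => bet_nonneg _) ?_
      rw [mem_ball] at hy
      have hxc : dist x c < r + 1/4 := by
        have := dist_triangle_left x c y
        linarith
      refine Finset.mem_filter.2 ⟨?_, hxc⟩
      obtain ⟨a, b, ha, hb⟩ := hx
      refine Finset.mem_image.2 ⟨(a, b), ?_, ?_⟩
      · have hxn : ‖x‖ ≤ ‖c‖ + r + 1/4 := by
          have h1 := norm_le_norm_add_norm_sub' x c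
          rw [← dist_eq_norm] at h1
          linarith
        have hMr : ‖c‖ + r + 1 ≤ (M:ℝ) := Int.le_ceil _
        have h0 := (abs_coord_le x 0).trans hxn
        have h1 := (abs_coord_le x 1).trans hxn
        rw [ha, abs_le] at h0
        rw [hb, abs_le] at h1
        have hn : 0 ≤ ‖c‖ := norm_nonneg c
        rw [Finset.mem_product, Finset.mem_Icc, Finset.mem_Icc]
        refine ⟨⟨?_, ?_⟩, ⟨?_, ?_⟩⟩
        · have : -(M:ℝ) ≤ (a:ℝ) := by linarith
          exact_mod_cast this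
        · have : (a:ℝ) ≤ (M:ℝ) := by linarith
          exact_mod_cast this
        · have : -(M:ℝ) ≤ (b:ℝ) := by linarith
          exact_mod_cast this
        · have : (b:ℝ) ≤ (M:ℝ) := by linarith
          exact_mod_cast this
      · ext i
        fin_cases i
        · show 2 * (a:ℝ) + 1 = x 0
          rw [ha]
        · show 2 * (b:ℝ) = x 1
          rw [hb]

lemma bb_integrableOn (c : E2) (r : ℝ) (hr : 0 < r) : IntegrableOn bb (ball c r) := by
  obtain ⟨X, _, hX⟩ := bb_large c r hr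
  have h1 : Integrable (fun y => ∑ x ∈ X, bet (dist y x)) :=
    integrable_finsetSum X (fun x _ => integrable_bet_dist x)
  refine h1.integrableOn.mono' measurable_bb.aestronglyMeasurable ?_
  refine (ae_restrict_iff' measurableSet_ball).2 (Eventually.of_forall (fun y hy => ?_))
  rw [Real.norm_of_nonneg (bb_nonneg y)]
  exact hX y hy

lemma bb_locallyIntegrable : LocallyIntegrable bb := by
  rw [locallyIntegrable_iff]
  intro K hK
  obtain ⟨R, hR⟩ := hK.isBounded.subset_ball_lt 0 0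
  exact (bb_integrableOn 0 R hR.1).mono_set hR.2

lemma bb_int_large (c : E2) (r : ℝ) (hr : 1/8 ≤ r) :
    ∫ y in ball c r, bb y ≤ 196 * Ib * r ^ 2 := by
  have hr0 : 0 < r := by linarith
  obtain ⟨X, hXc, hX⟩ := bb_large c r hr0
  have hint : Integrable (fun y => ∑ x ∈ X, bet (dist y x)) :=
    integrable_finsetSum X (fun x _ => integrable_bet_dist x)
  have h1 : ∫ y in ball c r, bb y ≤ ∫ y in ball c r, ∑ x ∈ X, bet (dist y x) :=
    setIntegral_mono_on (bb_integrableOn c r hr0) hint.integrableOn measurableSet_ball hX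
  have h2 : ∫ y in ball c r, ∑ x ∈ X, bet (dist y x) ≤ ∫ y, ∑ x ∈ X, bet (dist y x) :=
    setIntegral_le_integral hint (Eventually.of_forall
      (fun y => Finset.sum_nonneg (fun x _ => bet_nonneg _)))
  have h3 : ∫ y, ∑ x ∈ X, bet (dist y x) = X.card * Ib := by
    rw [integral_finsetSum X (fun x _ => integrable_bet_dist x),
      Finset.sum_congr rfl (fun x _ => integral_bet_dist x), Finset.sum_const, nsmul_eq_mul]
  have h4 : (X.card : ℝ) ≤ 196 * r ^ 2 := by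
    refine hXc.trans ?_
    have h5 : r + 3/4 ≤ 7 * r := by linarith
    have h6 := pow_le_pow_left₀ (by linarith) h5 2
    nlinarith
  have h5 := mul_le_mul_of_nonneg_right h4 Ib_nonneg
  linarith

lemma osc_le (b : E2 → ℝ) (c : E2) (r : ℝ) (hr : 0 < r) (hb : IntegrableOn b (ball c r)) (a M : ℝ)
    (h : ∫ y in ball c r, |b y - a| ≤ M * volume.real (ball c r)) :
    ⨍ y in ball c r, |b y - ⨍ z in ball c r, b z| ≤ 2 * M := by
  have hV : 0 < volume.real (ball c r) := by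
    rw [vol_ball c r hr.le]; have := Real.pi_pos; positivity
  have hconst : ∀ t : ℝ, IntegrableOn (fun _ : E2 => t) (ball c r) := fun t =>
    integrableOn_const measure_ball_lt_top.ne
  set m : ℝ := ⨍ z in ball c r, b z with hm
  have hm' : m * volume.real (ball c r) = ∫ z in ball c r, b z := by
    rw [hm, setAverage_eq, smul_eq_mul]; field_simp
  have h1 : |a - m| ≤ M := by
    have h2 : (a - m) * volume.real (ball c r) = ∫ z in ball c r, (a - b z) := by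
      rw [integral_sub (hconst a) hb, setIntegral_const, smul_eq_mul, ← hm']; ring
    have h3 : |a - m| * volume.real (ball c r) ≤ M * volume.real (ball c r) := by
      rw [← abs_of_pos hV, ← abs_mul, h2, abs_of_pos hV]
      refine (abs_integral_le_integral_abs).trans ?_
      simp only [abs_sub_comm a]
      exact h
    exact le_of_mul_le_mul_right h3 hV
  rw [setAverage_eq, smul_eq_mul, inv_mul_le_iff₀ hV]
  have h2 : ∫ y in ball c r, |b y - m| ≤ ∫ y in ball c r, (|b y - a| + |a - m|) := by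
    refine integral_mono ?_ ?_ (fun y => abs_sub_le _ _ _)
    · exact (hb.sub (hconst m)).abs
    · exact ((hb.sub (hconst a)).abs).add (hconst _)
  have hint1 : Integrable (fun y => |b y - a|) (volume.restrict (ball c r)) :=
    (hb.sub (hconst a)).abs
  have hint2 : Integrable (fun _ : E2 => |a - m|) (volume.restrict (ball c r)) := hconst _
  rw [integral_add hint1 hint2, setIntegral_const, smul_eq_mul] at h2
  have h3 := mul_le_mul_of_nonneg_left h1 hV.le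
  linarith

noncomputable def I1 : ℝ := ∫ y in ball (0:E2) 1, ‖y‖⁻¹

lemma I1_nonneg : 0 ≤ I1 := integral_nonneg (fun y => by positivity)

lemma integral_inv_norm (R : ℝ) (hR : 0 < R) : ∫ y in ball (0:E2) R, ‖y‖⁻¹ = R * I1 := by
  have h := Measure.setIntegral_comp_smul_of_pos volume (fun y : E2 => ‖y‖⁻¹) (ball (0:E2) 1) hR
  have hfin : Module.finrank ℝ E2 = 2 := by simp
  rw [hfin, _root_.smul_ball hR.ne', smul_zero, Real.norm_of_nonneg hR.le, mul_one] at h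
  have h2 : ∀ y : E2, ‖R • y‖⁻¹ = R⁻¹ * ‖y‖⁻¹ := by
    intro y; rw [norm_smul, Real.norm_of_nonneg hR.le, mul_inv]
  simp only [h2, smul_eq_mul] at h
  rw [integral_const_mul] at h
  unfold I1
  set J := ∫ y in ball (0:E2) R, ‖y‖⁻¹ with hJ
  set J1 := ∫ y in ball (0:E2) 1, ‖y‖⁻¹ with hJ1
  calc J = R ^ 2 * ((R ^ 2)⁻¹ * J) := by field_simp
    _ = R ^ 2 * (R⁻¹ * J1) := by rw [← h]
    _ = R * J1 := by field_simp

lemma integrableOn_inv_norm (R : ℝ) : IntegrableOn (fun y : E2 => ‖y‖⁻¹) (ball (0:E2) R) := by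
  have hfin : Module.finrank ℝ E2 = 2 := by simp
  refine integrableOn_ball_of_norm_le_rpow (C := 1) (α := 1) ?_ ?_ ?_
    (measurable_norm.inv).aestronglyMeasurable
  · rw [hfin]; norm_num
  · rw [hfin]; norm_num
  · refine Eventually.of_forall (fun y => ?_)
    rw [norm_inv, norm_norm, Real.rpow_neg_one, one_mul]

lemma integral_inv_norm_sub (x : E2) (R : ℝ) (hR : 0 < R) :
    ∫ y in ball x R, ‖y - x‖⁻¹ = R * I1 := by
  rw [← integral_inv_norm R hR]
  have hmp : MeasurePreserving (fun y : E2 => y - x) volume volume :=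
    measurePreserving_sub_right volume x
  have h := hmp.setIntegral_preimage_emb (MeasurableEquiv.subRight x).measurableEmbedding
    (fun y : E2 => ‖y‖⁻¹) (ball (0:E2) R)
  rw [← h]
  congr 2
  ext y
  simp [mem_ball, dist_eq_norm]

lemma integrableOn_inv_norm_sub (x : E2) (R : ℝ) :
    IntegrableOn (fun y : E2 => ‖y - x‖⁻¹) (ball x R) := by
  have hmp : MeasurePreserving (fun y : E2 => y - x) volume volume :=
    measurePreserving_sub_right volume x
  have h := (hmp.integrableOn_comp_preimage (MeasurableEquiv.subRight x).measurableEmbedding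
    (f := fun y : E2 => ‖y‖⁻¹) (s := ball (0:E2) R)).2 (integrableOn_inv_norm R)
  have hset : (fun y : E2 => y - x) ⁻¹' (ball (0:E2) R) = ball x R := by
    ext y
    simp [mem_ball, dist_eq_norm]
  rw [hset] at h
  exact h

lemma bet_diff {s t : ℝ} (hs : 0 < s) (ht : 0 < t) : |bet s - bet t| ≤ |Real.log s - Real.log t| := by
  unfold bet
  refine (abs_max_sub_max_le_max _ _ _ _).trans ?_
  rw [sub_self, abs_zero, Real.log_mul (by norm_num) hs.ne', Real.log_mul (by norm_num) ht.ne',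
    show -(Real.log 4 + Real.log s) - -(Real.log 4 + Real.log t) = -(Real.log s - Real.log t) by ring,
    abs_neg]
  exact max_le (abs_nonneg _) le_rfl

lemma bb_bmo : ∃ M : ℝ, ∀ (c : E2) (r : ℝ), 0 < r →
    (⨍ y in ball c r, |bb y - ⨍ z in ball c r, bb z|) ≤ M := by
  have hpi := Real.pi_pos
  have hIb := Ib_nonneg
  have hI1 := I1_nonneg
  refine ⟨2 * (196 * Ib / Real.pi + 9 * I1 / Real.pi + 1), fun c r hr => ?_⟩
  have hvol := vol_ball c r hr.le
  have hint := bb_integrableOn c r hr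
  set M := 196 * Ib / Real.pi + 9 * I1 / Real.pi + 1 with hM
  have hA : 0 ≤ 196 * Ib / Real.pi := by positivity
  have hB : 0 ≤ 9 * I1 / Real.pi := by positivity
  have hr2 : 0 < r ^ 2 := by positivity
  have eA : 196 * Ib / Real.pi * volume.real (ball c r) = 196 * Ib * r ^ 2 := by
    rw [hvol]; field_simp
  have eB : 9 * I1 / Real.pi * volume.real (ball c r) = 9 * I1 * r ^ 2 := by
    rw [hvol]; field_simp
  have hV0 : 0 ≤ volume.real (ball c r) := measureReal_nonneg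
  have hMV : M * volume.real (ball c r) = 196 * Ib * r ^ 2 + 9 * I1 * r ^ 2 +
      volume.real (ball c r) := by
    rw [hM, add_mul, add_mul, eA, eB, one_mul]
  have hp1 : 0 ≤ 196 * Ib * r ^ 2 := by positivity
  have hp2 : 0 ≤ 9 * I1 * r ^ 2 := by positivity
  rcases lt_or_ge r (1/8) with h8 | h8
  · by_cases hx : ∃ x ∈ LX, dist x c < 1/4 + r
    · obtain ⟨x, hx, hxc⟩ := hx
      have hyx : ∀ y ∈ ball c r, dist y x < 1/2 := by
        intro y hy
        rw [mem_ball] at hy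
        have := dist_triangle y c x
        rw [dist_comm c x] at this
        linarith
      rcases le_or_gt (2 * r) (dist c x) with hfar | hnear
      · refine osc_le bb c r hr hint (bb c) M ?_
        have hpt : ∀ y ∈ ball c r, |bb y - bb c| ≤ 1 := by
          intro y hy
          rw [bb_eq_of_near hx (hyx y hy), bb_eq_of_near hx (hyx c (mem_ball_self hr))]
          rw [mem_ball] at hy
          have h1 := dist_triangle c y x
          rw [dist_comm c y] at h1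
          have h2 := dist_triangle y c x
          set s := dist y x with hs
          set t := dist c x with ht
          have hs0 : r ≤ s := by linarith
          have ht0 : r ≤ t := by linarith
          have hsp : 0 < s := by linarith
          have htp : 0 < t := by linarith
          refine (bet_diff hsp htp).trans ?_
          rw [← Real.log_div hsp.ne' htp.ne', abs_le]
          constructor
          · have h3 : Real.log (t / s) ≤ t / s - 1 := Real.log_le_sub_one_of_pos (by positivity)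
            have h4 : t / s - 1 ≤ 1 := by
              rw [div_sub_one hsp.ne', div_le_one hsp]; linarith
            rw [← inv_div t s, Real.log_inv]
            linarith
          · have h3 : Real.log (s / t) ≤ s / t - 1 := Real.log_le_sub_one_of_pos (by positivity)
            have h4 : s / t - 1 ≤ 1 := by
              rw [div_sub_one htp.ne', div_le_one htp]; linarith
            linarith
        have h1 : ∫ y in ball c r, |bb y - bb c| ≤ ∫ y in ball c r, (1:ℝ) := by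
          refine setIntegral_mono_on ?_ (integrableOn_const measure_ball_lt_top.ne)
            measurableSet_ball hpt
          have : IntegrableOn (fun _ : E2 => bb c) (ball c r) :=
            integrableOn_const measure_ball_lt_top.ne
          exact (hint.sub this).abs
        rw [setIntegral_const, smul_eq_mul, mul_one] at h1
        linarith
      · refine osc_le bb c r hr hint (bet (3 * r)) M ?_
        have hsub : ball c r ⊆ ball x (3 * r) := by
          refine ball_subset_ball' ?_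
          linarith
        have hi2 : IntegrableOn (fun y => 3 * r * ‖y - x‖⁻¹) (ball x (3 * r)) :=
          (integrableOn_inv_norm_sub x (3 * r)).const_mul _
        have hae : ∀ᵐ y : E2, y ≠ x := by
          rw [ae_iff]
          simp
        have h1 : ∫ y in ball c r, |bb y - bet (3 * r)| ≤
            ∫ y in ball c r, 3 * r * ‖y - x‖⁻¹ := by
          have hc : IntegrableOn (fun _ : E2 => bet (3 * r)) (ball c r) :=
            integrableOn_const measure_ball_lt_top.ne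
          refine setIntegral_mono_on_ae ((hint.sub hc).abs) (hi2.mono_set hsub)
            measurableSet_ball ?_
          filter_upwards [hae] with y hyne hy
          rw [bb_eq_of_near hx (hyx y hy)]
          have hs0 : 0 < dist y x := dist_pos.2 hyne
          have hs3 : dist y x < 3 * r := mem_ball.1 (hsub hy)
          refine (bet_diff hs0 (by positivity)).trans ?_
          rw [abs_sub_comm, abs_of_nonneg (sub_nonneg.2 (Real.log_le_log hs0 hs3.le)),
            ← Real.log_div (by positivity) hs0.ne']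
          have h3 : Real.log (3 * r / dist y x) ≤ 3 * r / dist y x - 1 :=
            Real.log_le_sub_one_of_pos (by positivity)
          rw [← dist_eq_norm, ← div_eq_mul_inv]
          linarith
        have h2 : ∫ y in ball c r, 3 * r * ‖y - x‖⁻¹ ≤ ∫ y in ball x (3 * r), 3 * r * ‖y - x‖⁻¹ :=
          setIntegral_mono_set hi2 (Eventually.of_forall (fun y => by positivity))
            (LE.le.eventuallyLE hsub)
        rw [integral_const_mul (3 * r) (fun y : E2 => ‖y - x‖⁻¹),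
          integral_const_mul (3 * r) (fun y : E2 => ‖y - x‖⁻¹),
          integral_inv_norm_sub x (3 * r) (by positivity)] at h2
        rw [integral_const_mul (3 * r) (fun y : E2 => ‖y - x‖⁻¹)] at h1
        rw [hMV]
        have : 3 * r * (3 * r * I1) = 9 * I1 * r ^ 2 := by ring
        linarith
    · push Not at hx
      refine osc_le bb c r hr hint 0 M ?_
      have h0 : ∀ y ∈ ball c r, |bb y - 0| = 0 := by
        intro y hy
        rw [sub_zero, abs_eq_zero]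
        by_contra hne
        obtain ⟨x, hxL, hd, _⟩ := bb_pos_near hne
        have h1 := hx x hxL
        have h2 := dist_triangle_left x c y
        rw [mem_ball] at hy
        linarith
      rw [setIntegral_congr_fun measurableSet_ball h0, integral_zero, hMV]
      linarith
  · refine osc_le bb c r hr hint 0 M ?_
    have h1 := bb_int_large c r h8
    have h2 : ∫ y in ball c r, |bb y - 0| = ∫ y in ball c r, bb y := by
      refine setIntegral_congr_fun measurableSet_ball (fun y _ => ?_)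
      show |bb y - 0| = bb y
      rw [sub_zero, abs_of_nonneg (bb_nonneg y)]
    rw [h2, hMV]
    linarith


/-- antisymmetrised angular function -/
noncomputable def OmQ (q : E2 →ᵇ ℝ) (y : E2) : ℝ := q y + q (-y) - q (Rot y) - q (-Rot y)

lemma continuous_OmQ (q : E2 →ᵇ ℝ) : Continuous (OmQ q) := by
  unfold OmQ
  have h := q.continuous
  have hR : Continuous (fun y : E2 => Rot y) := Rot.continuous
  exact (((h.add (h.comp continuous_neg)).sub (h.comp hR)).sub (h.comp hR.neg))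

lemma measurable_OmQ (q : E2 →ᵇ ℝ) : Measurable (OmQ q) := (continuous_OmQ q).measurable

lemma abs_OmQ_le (q : E2 →ᵇ ℝ) (y : E2) : |OmQ q y| ≤ 4 * ‖q‖ := by
  unfold OmQ
  have h : ∀ y, |q y| ≤ ‖q‖ := fun y => q.norm_coe_le_norm y
  have h1 := h y
  have h2 := h (-y)
  have h3 := h (Rot y)
  have h4 := h (-Rot y)
  rw [abs_le] at *
  constructor <;> linarith

lemma OmQ_Rot (q : E2 →ᵇ ℝ) (y : E2) : OmQ q (Rot y) = - OmQ q y := by
  unfold OmQ
  rw [Rot_Rot, neg_neg]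
  ring

lemma OmQ_mean (q : E2 →ᵇ ℝ) :
    (∫ y in {y : E2 | 1 < ‖y‖ ∧ ‖y‖ < 2}, OmQ q (‖y‖⁻¹ • y)) = 0 := by
  refine mean_zero_Rot (fun y => OmQ q (‖y‖⁻¹ • y)) (fun y => ?_) _ (fun y => ?_)
  · show OmQ q (‖Rot y‖⁻¹ • Rot y) = - OmQ q (‖y‖⁻¹ • y)
    rw [Rot.norm_map, ← Rot_smul, OmQ_Rot]
  · simp only [Set.mem_ofPred_eq, Rot.norm_map]

/-- the kernel -/
noncomputable def Kq (q : E2 →ᵇ ℝ) (u : E2) : ℝ := OmQ q (‖u‖⁻¹ • u) / ‖u‖ ^ 2

lemma measurable_Kq (q : E2 →ᵇ ℝ) : Measurable (Kq q) := by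
  unfold Kq
  have h1 : Measurable (fun u : E2 => ‖u‖⁻¹ • u) := measurable_norm.inv.smul measurable_id
  exact ((measurable_OmQ q).comp h1).div (measurable_norm.pow_const 2)

lemma Kq_add (q q' : E2 →ᵇ ℝ) (u : E2) : Kq (q + q') u = Kq q u + Kq q' u := by
  unfold Kq OmQ
  simp only [BoundedContinuousFunction.add_apply]
  ring

lemma Kq_smul (c : ℝ) (q : E2 →ᵇ ℝ) (u : E2) : Kq (c • q) u = c * Kq q u := by
  unfold Kq OmQ
  simp only [BoundedContinuousFunction.coe_smul, smul_eq_mul]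
  ring

lemma abs_Kq_le (q : E2 →ᵇ ℝ) (u : E2) (hu : 1/2 ≤ ‖u‖) : |Kq q u| ≤ 16 * ‖q‖ := by
  unfold Kq
  have h1 := abs_OmQ_le q (‖u‖⁻¹ • u)
  have h2 : (1/2:ℝ) ^ 2 ≤ ‖u‖ ^ 2 := pow_le_pow_left₀ (by norm_num) hu 2
  rw [abs_div, abs_of_nonneg (sq_nonneg ‖u‖), div_le_iff₀ (by linarith)]
  have h3 : 0 ≤ ‖q‖ := norm_nonneg q
  nlinarith

/-! ### configuration -/

section Config

variable (m n : ℕ) (ρ : ℝ) (hρ : 0 < ρ)

lemma XX_sub_LX {x : E2} (hx : x ∈ XX n) : x ∈ LX := by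
  obtain ⟨a, b, _, _, rfl⟩ := mem_XX hx
  exact ⟨a, b, by rw [gp_zero]; push_cast; ring, by rw [gp_one]; push_cast; ring⟩

lemma ZZ_LX_dist {z x : E2} (hz : z ∈ ZZ n) (hx : x ∈ LX) : 1 ≤ dist z x := by
  obtain ⟨a', b', _, _, rfl⟩ := mem_ZZ hz
  obtain ⟨a, b, ha, hb⟩ := hx
  rw [dist_eq_norm]
  have h1 := abs_coord_le (gp (2 * a') (2 * b') - x) 0
  rw [PiLp.sub_apply, gp_zero, ha] at h1
  refine le_trans ?_ h1
  have h2 : (1:ℤ) ≤ |(2 * a' : ℤ) - (2 * a + 1)| := Int.one_le_abs (by omega)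
  have h3 : (1:ℝ) ≤ |((2 * a' : ℤ) : ℝ) - ((2 * a + 1 : ℤ) : ℝ)| := by exact_mod_cast h2
  push_cast at h3 ⊢
  exact h3

variable {m n ρ hρ}

lemma ft_ne_zero {y : E2} (h : ft m ρ hρ (ZZ n) y ≠ 0) :
    ∃ z ∈ ZZ n, dist y z < ρ / 2 ^ m := by
  by_contra hcon
  push Not at hcon
  exact h (Finset.sum_eq_zero (fun z hz => Fz_zero hρ (hcon z hz)))

lemma bb_zero_of_ft (hρ' : ρ ≤ 1/4) {y : E2} (h : ft m ρ hρ (ZZ n) y ≠ 0) : bb y = 0 := by
  obtain ⟨z, hz, hd⟩ := ft_ne_zero h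
  have h1 := div_pow_le ρ hρ m
  by_contra hne
  obtain ⟨x, hx, hxd, _⟩ := bb_pos_near hne
  have h2 := ZZ_LX_dist n hz hx
  have h3 := dist_triangle_left z x y
  linarith

lemma far_of_ft (hρ' : ρ ≤ 1/4) {x y : E2} (hx : bb x ≠ 0) (h : ft m ρ hρ (ZZ n) y ≠ 0) :
    1/2 ≤ ‖x - y‖ := by
  obtain ⟨z, hz, hd⟩ := ft_ne_zero h
  have h1 := div_pow_le ρ hρ m
  obtain ⟨x', hx', hxd, _⟩ := bb_pos_near hx
  have h2 := ZZ_LX_dist n hz hx'
  rw [← dist_eq_norm]
  have h3 := dist_triangle4 z y x x'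
  rw [dist_comm z y, dist_comm y x] at h3
  linarith

lemma Kf_bound (hρ' : ρ ≤ 1/4) (q : E2 →ᵇ ℝ) {x : E2} (hx : bb x ≠ 0) (y : E2) :
    |Kq q (x - y) * ft m ρ hρ (ZZ n) y| ≤ 16 * ‖q‖ * ft m ρ hρ (ZZ n) y := by
  by_cases h : ft m ρ hρ (ZZ n) y = 0
  · rw [h]; simp
  · rw [abs_mul, abs_of_nonneg (ft_nonneg m ρ hρ (ZZ n) y)]
    exact mul_le_mul_of_nonneg_right (abs_Kq_le q _ (far_of_ft hρ' hx h)) (ft_nonneg m ρ hρ (ZZ n) y)

lemma measurable_ft : Measurable (ft m ρ hρ (ZZ n)) :=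
  (ft_contDiff m ρ hρ (ZZ n)).continuous.measurable

lemma Kf_integrable (hρ' : ρ ≤ 1/4) (q : E2 →ᵇ ℝ) {x : E2} (hx : bb x ≠ 0) :
    Integrable (fun y => Kq q (x - y) * ft m ρ hρ (ZZ n) y) := by
  refine ((ft_integrable m ρ hρ (ZZ n)).const_mul (16 * ‖q‖)).mono' ?_ ?_
  · exact (((measurable_Kq q).comp (measurable_const.sub measurable_id)).mul
      measurable_ft).aestronglyMeasurable
  · exact Eventually.of_forall (fun y => Kf_bound hρ' q hx y)

/-- the operator applied to `ft` -/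
noncomputable def Tq (m n : ℕ) (ρ : ℝ) (hρ : 0 < ρ) (q : E2 →ᵇ ℝ) (x : E2) : ℝ :=
  ∫ y, Kq q (x - y) * ft m ρ hρ (ZZ n) y

lemma Tq_add (hρ' : ρ ≤ 1/4) (q q' : E2 →ᵇ ℝ) {x : E2} (hx : bb x ≠ 0) :
    Tq m n ρ hρ (q + q') x = Tq m n ρ hρ q x + Tq m n ρ hρ q' x := by
  unfold Tq
  rw [← integral_add (Kf_integrable hρ' q hx) (Kf_integrable hρ' q' hx)]
  refine integral_congr_ae (Eventually.of_forall (fun y => ?_))
  show Kq (q + q') (x - y) * _ = _
  rw [Kq_add]; ring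

lemma Tq_smul (c : ℝ) (q : E2 →ᵇ ℝ) (x : E2) :
    Tq m n ρ hρ (c • q) x = c * Tq m n ρ hρ q x := by
  unfold Tq
  rw [← integral_const_mul]
  refine integral_congr_ae (Eventually.of_forall (fun y => ?_))
  show Kq (c • q) (x - y) * _ = _
  rw [Kq_smul]; ring

lemma Tq_bound (hρ' : ρ ≤ 1/4) (q : E2 →ᵇ ℝ) {x : E2} (hx : bb x ≠ 0) :
    |Tq m n ρ hρ q x| ≤ 16 * ‖q‖ * ∫ y, ft m ρ hρ (ZZ n) y := by
  unfold Tq
  rw [← integral_const_mul]
  refine (abs_integral_le_integral_abs).trans ?_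
  exact integral_mono (Kf_integrable hρ' q hx).abs ((ft_integrable m ρ hρ (ZZ n)).const_mul _)
    (fun y => Kf_bound hρ' q hx y)

lemma measurable_Tq (q : E2 →ᵇ ℝ) : Measurable (Tq m n ρ hρ q) := by
  have h1 : Measurable (fun p : E2 × E2 => Kq q (p.1 - p.2) * ft m ρ hρ (ZZ n) p.2) :=
    ((measurable_Kq q).comp (measurable_fst.sub measurable_snd)).mul
      (measurable_ft.comp measurable_snd)
  exact (h1.stronglyMeasurable.integral_prod_right).measurable

/-- the union of the small balls around `XX n` -/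
def SS (m n : ℕ) (ρ : ℝ) : Set E2 := ⋃ x ∈ XX n, ball x (ρ / 2 ^ m)

lemma measurableSet_SS : MeasurableSet (SS m n ρ) :=
  Finset.measurableSet_biUnion _ (fun _ _ => measurableSet_ball)

lemma SS_bounded : ∃ R : ℝ, 0 < R ∧ SS m n ρ ⊆ ball 0 R := by
  have h : Bornology.IsBounded (SS m n ρ) :=
    (Bornology.isBounded_biUnion_finset _).2 (fun _ _ => isBounded_ball)
  obtain ⟨R, hR⟩ := h.subset_ball_lt 0 0
  exact ⟨R, hR.1, hR.2⟩

lemma sp_le (K : ℕ) (ρ : ℝ) (x y : E2) : sp K ρ x y ≤ ∑ k ∈ Finset.range K, (4:ℝ) ^ k := by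
  unfold sp
  refine Finset.sum_le_sum (fun k _ => ?_)
  refine mul_le_of_le_one_right (by positivity) ?_
  exact Set.indicator_le_self' (fun _ _ => zero_le_one) y |>.trans le_rfl

lemma wt_bdd (K : ℕ) (ρ : ℝ) (X Z : Finset E2) : ∃ B : ℝ, 0 ≤ B ∧ ∀ y, wt K ρ X Z y ≤ B := by
  refine ⟨1 + ∑ x ∈ X, ∑ k ∈ Finset.range K, (4:ℝ) ^ k, by positivity, fun y => ?_⟩
  refine (wt_le K ρ X Z y).trans ?_
  unfold Us
  have := Finset.sum_le_sum (fun x (_ : x ∈ X) => sp_le K ρ x y)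
  linarith

lemma bw_integrableOn : IntegrableOn (fun x => bb x * wt (2 * m) ρ (XX n) (ZZ n) x) (SS m n ρ) := by
  obtain ⟨B, hB0, hB⟩ := wt_bdd (2 * m) ρ (XX n) (ZZ n)
  obtain ⟨R, hR, hS⟩ := SS_bounded (m := m) (n := n) (ρ := ρ)
  have h1 : IntegrableOn (fun x => B * bb x) (SS m n ρ) :=
    ((bb_integrableOn 0 R hR).mono_set hS).const_mul B
  refine h1.mono' (measurable_bb.mul (measurable_wt _ _ _ _)).aestronglyMeasurable ?_
  refine Eventually.of_forall (fun y => ?_)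
  rw [norm_mul, Real.norm_of_nonneg (bb_nonneg y), Real.norm_of_nonneg (wt_pos _ _ _ _ _).le,
    mul_comm]
  exact mul_le_mul_of_nonneg_right (hB y) (bb_nonneg y)

lemma bwT_integrableOn (hρ' : ρ ≤ 1/4) (q : E2 →ᵇ ℝ) :
    IntegrableOn (fun x => bb x * wt (2 * m) ρ (XX n) (ZZ n) x * Tq m n ρ hρ q x) (SS m n ρ) := by
  have h1 : IntegrableOn (fun x => (bb x * wt (2 * m) ρ (XX n) (ZZ n) x) *
      (16 * ‖q‖ * ∫ y, ft m ρ hρ (ZZ n) y)) (SS m n ρ) := bw_integrableOn.mul_const _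
  refine h1.mono' ((measurable_bb.mul (measurable_wt _ _ _ _)).mul
    (measurable_Tq q)).aestronglyMeasurable ?_
  refine Eventually.of_forall (fun x => ?_)
  by_cases hx : bb x = 0
  · rw [hx]; simp
  · have h0 : 0 ≤ bb x * wt (2 * m) ρ (XX n) (ZZ n) x :=
      mul_nonneg (bb_nonneg x) (wt_pos _ _ _ _ _).le
    rw [norm_mul, Real.norm_of_nonneg h0]
    exact mul_le_mul_of_nonneg_left (Tq_bound hρ' q hx) h0

/-- the functional -/
noncomputable def LamF (m n : ℕ) (ρ : ℝ) (hρ : 0 < ρ) (q : E2 →ᵇ ℝ) : ℝ :=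
  ∫ x in SS m n ρ, bb x * wt (2 * m) ρ (XX n) (ZZ n) x * Tq m n ρ hρ q x

lemma exists_Lam (hρ' : ρ ≤ 1/4) : ∃ Λ : (E2 →ᵇ ℝ) →L[ℝ] ℝ, ∀ q, Λ q = LamF m n ρ hρ q := by
  have hadd : ∀ q q', LamF m n ρ hρ (q + q') = LamF m n ρ hρ q + LamF m n ρ hρ q' := by
    intro q q'
    unfold LamF
    rw [← integral_add (bwT_integrableOn hρ' q) (bwT_integrableOn hρ' q')]
    refine integral_congr_ae (Eventually.of_forall (fun x => ?_))
    show bb x * _ * Tq m n ρ hρ (q + q') x = bb x * _ * Tq m n ρ hρ q x + bb x * _ * Tq m n ρ hρ q' x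
    by_cases hx : bb x = 0
    · rw [hx]; ring
    · rw [Tq_add hρ' q q' hx]; ring
  have hsmul : ∀ (c : ℝ) q, LamF m n ρ hρ (c • q) = c • LamF m n ρ hρ q := by
    intro c q
    unfold LamF
    rw [smul_eq_mul, ← integral_const_mul]
    refine integral_congr_ae (Eventually.of_forall (fun x => ?_))
    show bb x * _ * Tq m n ρ hρ (c • q) x = c * (bb x * _ * Tq m n ρ hρ q x)
    rw [Tq_smul]; ring
  have hbd : ∀ q, ‖LamF m n ρ hρ q‖ ≤ (16 * (∫ y, ft m ρ hρ (ZZ n) y) *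
      ∫ x in SS m n ρ, bb x * wt (2 * m) ρ (XX n) (ZZ n) x) * ‖q‖ := by
    intro q
    unfold LamF
    rw [Real.norm_eq_abs]
    refine (abs_integral_le_integral_abs).trans ?_
    have h1 : ∫ x in SS m n ρ, |bb x * wt (2 * m) ρ (XX n) (ZZ n) x * Tq m n ρ hρ q x| ≤
        ∫ x in SS m n ρ, (bb x * wt (2 * m) ρ (XX n) (ZZ n) x) *
          (16 * ‖q‖ * ∫ y, ft m ρ hρ (ZZ n) y) := by
      refine integral_mono (bwT_integrableOn hρ' q).abs (bw_integrableOn.mul_const _) (fun x => ?_)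
      by_cases hx : bb x = 0
      · simp [hx]
      · have h0 : 0 ≤ bb x * wt (2 * m) ρ (XX n) (ZZ n) x :=
          mul_nonneg (bb_nonneg x) (wt_pos _ _ _ _ _).le
        show |bb x * wt (2 * m) ρ (XX n) (ZZ n) x * Tq m n ρ hρ q x| ≤ _
        rw [abs_mul, abs_of_nonneg h0]
        exact mul_le_mul_of_nonneg_left (Tq_bound hρ' q hx) h0
    refine h1.trans (le_of_eq ?_)
    rw [integral_mul_const]; ring
  refine ⟨LinearMap.mkContinuous
    { toFun := LamF m n ρ hρ, map_add' := hadd, map_smul' := hsmul } _ hbd, fun q => rfl⟩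

end Config


/-! ### the commutator and its principal value -/

section PV
variable {m n : ℕ} {ρ : ℝ} {hρ : 0 < ρ}

/-- commutator -/
noncomputable def gq (m n : ℕ) (ρ : ℝ) (hρ : 0 < ρ) (q : E2 →ᵇ ℝ) (x : E2) : ℝ :=
  bb x * Tq m n ρ hρ q x

lemma measurable_gq (q : E2 →ᵇ ℝ) : Measurable (gq m n ρ hρ q) :=
  measurable_bb.mul (measurable_Tq q)

lemma gq_pv (hρ' : ρ ≤ 1/4) (q : E2 →ᵇ ℝ) (x : E2) :
    Tendsto (fun ε : ℝ => ∫ y in {y : E2 | ε < dist x y},
      (bb x - bb y) * (OmQ q (‖x - y‖⁻¹ • (x - y)) / ‖x - y‖ ^ 2) * ft m ρ hρ (ZZ n) y)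
      (𝓝[>] 0) (𝓝 (gq m n ρ hρ q x)) := by
  refine tendsto_const_nhds.congr' ?_
  have hI : Set.Ioo (0:ℝ) (1/2) ∈ 𝓝[>] (0:ℝ) := Ioo_mem_nhdsGT (by norm_num)
  filter_upwards [hI] with ε hε
  have hpt : ∀ y, (bb x - bb y) * (OmQ q (‖x - y‖⁻¹ • (x - y)) / ‖x - y‖ ^ 2) *
      ft m ρ hρ (ZZ n) y = bb x * (Kq q (x - y) * ft m ρ hρ (ZZ n) y) := by
    intro y
    by_cases h : ft m ρ hρ (ZZ n) y = 0
    · rw [h]; simp
    · rw [bb_zero_of_ft hρ' h]
      unfold Kq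
      ring
  simp only [hpt]
  unfold gq Tq
  rw [← integral_const_mul]
  refine (setIntegral_eq_integral_of_forall_compl_eq_zero (fun y hy => ?_)).symm
  by_contra hne
  have hbx : bb x ≠ 0 := left_ne_zero_of_mul hne
  have hfy : ft m ρ hρ (ZZ n) y ≠ 0 := right_ne_zero_of_mul (right_ne_zero_of_mul hne)
  have h1 := far_of_ft hρ' hbx hfy
  apply hy
  show ε < dist x y
  rw [dist_eq_norm]
  linarith [hε.2]

/-- total weight of the small balls -/
noncomputable def WS (m n : ℕ) (ρ : ℝ) : ℝ := ∫ x in SS m n ρ, wt (2 * m) ρ (XX n) (ZZ n) x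

lemma wt_integrableOn_SS : IntegrableOn (wt (2 * m) ρ (XX n) (ZZ n)) (SS m n ρ) := by
  obtain ⟨R, hR, hS⟩ := SS_bounded (m := m) (n := n) (ρ := ρ)
  exact (wt_integrableOn _ _ _ _ 0 R).mono_set hS

lemma WS_nonneg : 0 ≤ WS m n ρ := integral_nonneg (fun _ => (wt_pos _ _ _ _ _).le)

lemma WS_ge (hρ : 0 < ρ) (hρ' : ρ ≤ 1/4) :
    ((2 * n * (2 * n) : ℕ) : ℝ) * (m * (Real.pi * ρ ^ 2)) ≤ WS m n ρ := by
  have hpi := Real.pi_pos
  have h1 := lint_T_ge m ρ hρ hρ' (XX n) (ZZ n) (disj_XZ n) (sep_XZ n)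
    (Set.indicator (SS m n ρ) (fun _ => (1:ℝ))) 1 zero_le_one (fun x hx y hy => by
      rw [Set.indicator_of_mem (show y ∈ SS m n ρ from Set.mem_biUnion hx hy)])
  have h2 : ∀ y, ENNReal.ofReal ((Set.indicator (SS m n ρ) (fun _ => (1:ℝ)) y) ^ 2 *
      wt (2 * m) ρ (XX n) (ZZ n) y) = Set.indicator (SS m n ρ)
        (fun y => ENNReal.ofReal (wt (2 * m) ρ (XX n) (ZZ n) y)) y := by
    intro y
    by_cases hy : y ∈ SS m n ρ
    · rw [Set.indicator_of_mem hy, Set.indicator_of_mem hy]; simp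
    · rw [Set.indicator_of_notMem hy, Set.indicator_of_notMem hy]; simp
  simp only [h2] at h1
  rw [lintegral_indicator measurableSet_SS, ← ofReal_integral_eq_lintegral_ofReal
    wt_integrableOn_SS (Eventually.of_forall (fun x => (wt_pos _ _ _ _ _).le)), card_XX] at h1
  have h4 : ((2 * n * (2 * n) : ℕ) : ENNReal) =
      ENNReal.ofReal ((2 * n * (2 * n) : ℕ) : ℝ) := by rw [ENNReal.ofReal_natCast]
  rw [h4, one_pow, ENNReal.ofReal_one, one_mul, ← ENNReal.ofReal_mul (by positivity)] at h1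
  exact (ENNReal.ofReal_le_ofReal_iff (WS_nonneg (m := m) (n := n) (ρ := ρ))).1 h1

/-- upper bound for the functional from the hypothetical weighted bound -/
lemma Lam_upper (hρ : 0 < ρ) (q : E2 →ᵇ ℝ) (A C : ℝ) (hA : 0 < A) (hC : 0 ≤ C) (D : ℝ) (hD : 0 ≤ D)
    (h : ∫⁻ x, ENNReal.ofReal ((gq m n ρ hρ q x) ^ 2 * wt (2 * m) ρ (XX n) (ZZ n) x) ≤
      ENNReal.ofReal (C * A ^ 4) * ENNReal.ofReal D) :
    |LamF m n ρ hρ q| ≤ A ^ 2 / 2 * (C * D + WS m n ρ) := by
  set w := wt (2 * m) ρ (XX n) (ZZ n) with hw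
  have hwpos : ∀ x, 0 < w x := wt_pos _ _ _ _
  have hmeas : Measurable (fun x => (gq m n ρ hρ q x) ^ 2 * w x) :=
    ((measurable_gq q).pow_const 2).mul (measurable_wt _ _ _ _)
  have hnn : ∀ x, 0 ≤ (gq m n ρ hρ q x) ^ 2 * w x := fun x => mul_nonneg (sq_nonneg _) (hwpos x).le
  rw [← ENNReal.ofReal_mul (by positivity)] at h
  have hint : Integrable (fun x => (gq m n ρ hρ q x) ^ 2 * w x) :=
    (lintegral_ofReal_ne_top_iff_integrable hmeas.aestronglyMeasurable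
      (Eventually.of_forall hnn)).1 (h.trans_lt ENNReal.ofReal_lt_top).ne
  have h1 : ∫ x, (gq m n ρ hρ q x) ^ 2 * w x ≤ C * A ^ 4 * D := by
    rw [← ofReal_integral_eq_lintegral_ofReal hint (Eventually.of_forall hnn),
      ENNReal.ofReal_le_ofReal_iff (by positivity)] at h
    exact h
  have h2 : ∫ x in SS m n ρ, (gq m n ρ hρ q x) ^ 2 * w x ≤ C * A ^ 4 * D :=
    (setIntegral_le_integral hint (Eventually.of_forall hnn)).trans h1
  unfold LamF
  refine (abs_integral_le_integral_abs).trans ?_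
  have hpt : ∀ x, |bb x * w x * Tq m n ρ hρ q x| ≤
      (1 / (2 * A ^ 2)) * ((gq m n ρ hρ q x) ^ 2 * w x) + A ^ 2 / 2 * w x := by
    intro x
    have e : bb x * w x * Tq m n ρ hρ q x = gq m n ρ hρ q x * w x := by unfold gq; ring
    rw [e, abs_mul, abs_of_pos (hwpos x)]
    set g := |gq m n ρ hρ q x| with hg
    have hg2 : (gq m n ρ hρ q x) ^ 2 = g ^ 2 := by rw [hg, sq_abs]
    rw [hg2]
    have h3 : g ≤ 1 / (2 * A ^ 2) * g ^ 2 + A ^ 2 / 2 := by
      have h4 : 0 ≤ (g - A ^ 2) ^ 2 / (2 * A ^ 2) := by positivity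
      have h5 : (g - A ^ 2) ^ 2 / (2 * A ^ 2) = 1 / (2 * A ^ 2) * g ^ 2 + A ^ 2 / 2 - g := by
        field_simp
        ring
      linarith
    have := mul_le_mul_of_nonneg_right h3 (hwpos x).le
    linarith
  have hi1 : IntegrableOn (fun x => (1 / (2 * A ^ 2)) * ((gq m n ρ hρ q x) ^ 2 * w x))
    (SS m n ρ) := hint.integrableOn.const_mul _
  have hi2 : IntegrableOn (fun x => A ^ 2 / 2 * w x) (SS m n ρ) := wt_integrableOn_SS.const_mul _
  have hmono : ∫ x in SS m n ρ, |bb x * w x * Tq m n ρ hρ q x| ≤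
      ∫ x in SS m n ρ, ((1 / (2 * A ^ 2)) * ((gq m n ρ hρ q x) ^ 2 * w x) + A ^ 2 / 2 * w x) :=
    integral_mono_of_nonneg (Eventually.of_forall (fun x => abs_nonneg _)) (hi1.add hi2)
      (Eventually.of_forall hpt)
  refine hmono.trans ?_
  rw [integral_add hi1 hi2, integral_const_mul, integral_const_mul]
  have h3 : 1 / (2 * A ^ 2) * ∫ x in SS m n ρ, (gq m n ρ hρ q x) ^ 2 * w x ≤
      1 / (2 * A ^ 2) * (C * A ^ 4 * D) := mul_le_mul_of_nonneg_left h2 (by positivity)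
  have h4 : 1 / (2 * A ^ 2) * (C * A ^ 4 * D) = A ^ 2 / 2 * (C * D) := by field_simp
  have h5 : A ^ 2 / 2 * ∫ x in SS m n ρ, w x = A ^ 2 / 2 * WS m n ρ := rfl
  rw [h5]
  linarith

/-- lower bound for `Tq` near a point of `XX n` -/
lemma Tq_lower (hρ : 0 < ρ) (hρ' : ρ ≤ 1/4) (q : E2 →ᵇ ℝ) (x : E2) (hx : x ∈ XX n)
    (hΩ : ∀ z ∈ ZZ n, ∀ u, ‖u - (x - z)‖ < 2 * (ρ / 2 ^ m) → 1/2 ≤ OmQ q (‖u‖⁻¹ • u))
    (x' : E2) (hx' : x' ∈ ball x (ρ / 2 ^ m)) (hbx : bb x' ≠ 0) :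
    m * (Real.pi * ρ ^ 2) / 8 * (Real.log (n + 1) / 32) ≤ Tq m n ρ hρ q x' := by
  have hpi := Real.pi_pos
  have hfar : ∀ z ∈ ZZ n, 1 ≤ ‖x - z‖ := by
    intro z hz
    rw [← dist_eq_norm]
    refine sep_XZ n _ (Finset.mem_union_left _ hx) _ (Finset.mem_union_right _ hz) ?_
    rintro rfl
    exact Finset.disjoint_left.1 (disj_XZ n) hx hz
  have hdm := div_pow_le ρ hρ m
  have hint1 : ∀ z ∈ ZZ n, Integrable (fun y => Fz m ρ hρ z y * (1 / (8 * ‖x - z‖ ^ 2))) :=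
    fun z _ => (Fz_integrable m ρ hρ z).mul_const _
  have hpt : ∀ y, ∑ z ∈ ZZ n, Fz m ρ hρ z y * (1 / (8 * ‖x - z‖ ^ 2)) ≤
      Kq q (x' - y) * ft m ρ hρ (ZZ n) y := by
    intro y
    have hterm : ∀ z ∈ ZZ n, Fz m ρ hρ z y * (1 / (8 * ‖x - z‖ ^ 2)) ≤
        Kq q (x' - y) * Fz m ρ hρ z y := by
      intro z hz
      by_cases h0 : Fz m ρ hρ z y = 0
      · rw [h0]; simp
      · have hd : dist y z < ρ / 2 ^ m := by
          by_contra h
          exact h0 (Fz_zero hρ (not_lt.1 h))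
        have hu : ‖x' - y - (x - z)‖ < 2 * (ρ / 2 ^ m) := by
          rw [mem_ball, dist_eq_norm] at hx'
          rw [dist_eq_norm] at hd
          have h1 : x' - y - (x - z) = (x' - x) - (y - z) := by abel
          rw [h1]
          have h2 := norm_sub_le (x' - x) (y - z)
          linarith
        have hΩy := hΩ z hz (x' - y) hu
        have h1 := hfar z hz
        have hup : ‖x' - y‖ ≤ 2 * ‖x - z‖ := by
          have h2 := norm_add_le (x' - y - (x - z)) (x - z)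
          rw [sub_add_cancel] at h2
          linarith
        have hlo : 1/2 ≤ ‖x' - y‖ := by
          have h2 := norm_sub_norm_le (x - z) (x' - y)
          have h3 : ‖x - z - (x' - y)‖ = ‖x' - y - (x - z)‖ := norm_sub_rev _ _
          linarith
        rw [mul_comm]
        refine mul_le_mul_of_nonneg_right ?_ (Fz_nonneg m ρ hρ z _)
        unfold Kq
        have h3 : ‖x' - y‖ ^ 2 ≤ 4 * ‖x - z‖ ^ 2 := by
          have := pow_le_pow_left₀ (norm_nonneg (x' - y)) hup 2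
          linarith [mul_pow 2 ‖x - z‖ 2]
        have h4 : 0 < ‖x' - y‖ ^ 2 := by positivity
        calc 1 / (8 * ‖x - z‖ ^ 2) = (1/2) / (4 * ‖x - z‖ ^ 2) := by
              field_simp; norm_num
          _ ≤ (1/2) / ‖x' - y‖ ^ 2 := div_le_div_of_nonneg_left (by norm_num) h4 h3
          _ ≤ _ := div_le_div_of_nonneg_right hΩy h4.le
    refine (Finset.sum_le_sum hterm).trans (le_of_eq ?_)
    unfold ft
    rw [Finset.mul_sum]
  have hmain := integral_mono (integrable_finsetSum (ZZ n) hint1) (Kf_integrable hρ' q hbx) hpt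
  unfold Tq
  refine le_trans ?_ hmain
  rw [integral_finsetSum (ZZ n) hint1]
  obtain ⟨a, b, ha, hb, rfl⟩ := mem_XX hx
  have hgrid := grid_sum n a b ha hb
  calc m * (Real.pi * ρ ^ 2) / 8 * (Real.log (n + 1) / 32) ≤ m * (Real.pi * ρ ^ 2) / 8 *
        ∑ z ∈ ZZ n, 1 / (4 * ‖gp (2 * a + 1) (2 * b) - z‖ ^ 2) :=
        mul_le_mul_of_nonneg_left hgrid (by positivity)
    _ = ∑ z ∈ ZZ n, (m * (Real.pi * ρ ^ 2) / 4) * (1 / (8 * ‖gp (2 * a + 1) (2 * b) - z‖ ^ 2)) := by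
        rw [Finset.mul_sum]
        refine Finset.sum_congr rfl (fun z hz => ?_)
        have := hfar z hz
        field_simp
    _ ≤ _ := by
        refine Finset.sum_le_sum (fun z _ => ?_)
        rw [integral_mul_const]
        exact mul_le_mul_of_nonneg_right (Fz_int_ge m ρ hρ z) (by positivity)

lemma bet_ge (hρ' : ρ ≤ 1/4) {t : ℝ} (ht : 0 < t) (ht' : t < ρ / 2 ^ m) :
    m * Real.log 2 ≤ bet t := by
  unfold bet
  refine le_trans ?_ (le_max_right _ _)
  have h1 : 4 * t ≤ (2 ^ m)⁻¹ := by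
    rw [lt_div_iff₀ (by positivity)] at ht'
    rw [← one_div, le_div_iff₀ (by positivity)]
    linarith
  have h2 : Real.log (4 * t) ≤ Real.log ((2 ^ m)⁻¹) := Real.log_le_log (by positivity) h1
  rw [Real.log_inv, Real.log_pow] at h2
  linarith

/-- lower bound for the functional -/
lemma Lam_lower (hρ : 0 < ρ) (hρ' : ρ ≤ 1/4) (hm : 1 ≤ m) (q : E2 →ᵇ ℝ)
    (hΩ : ∀ x ∈ XX n, ∀ z ∈ ZZ n, ∀ u, ‖u - (x - z)‖ < 2 * (ρ / 2 ^ m) →
      1/2 ≤ OmQ q (‖u‖⁻¹ • u)) :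
    m * Real.log 2 * (m * (Real.pi * ρ ^ 2) / 8 * (Real.log (n + 1) / 32)) * WS m n ρ ≤
      LamF m n ρ hρ q := by
  have hpi := Real.pi_pos
  have hlog2 : 0 < Real.log 2 := Real.log_pos (by norm_num)
  have hlogn : 0 ≤ Real.log ((n:ℝ) + 1) := Real.log_nonneg (by
    have : (0:ℝ) ≤ n := Nat.cast_nonneg n
    linarith)
  have hmr : (1:ℝ) ≤ m := by exact_mod_cast hm
  have hcnt : (XX n : Set E2).Countable := (XX n).countable_toSet
  have hae : ∀ᵐ x : E2, x ∉ (XX n : Set E2) := by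
    rw [ae_iff]
    simp only [not_not]
    exact (XX n).finite_toSet.measure_zero volume
  unfold WS LamF
  rw [← integral_const_mul]
  refine setIntegral_mono_on_ae (wt_integrableOn_SS.const_mul _) (bwT_integrableOn hρ' q)
    measurableSet_SS ?_
  filter_upwards [hae] with y hy hyS
  obtain ⟨x, hx, hyx⟩ := Set.mem_iUnion₂.1 hyS
  have hne : y ≠ x := by rintro rfl; exact hy hx
  have hd0 : 0 < dist y x := dist_pos.2 hne
  have hd1 : dist y x < ρ / 2 ^ m := hyx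
  have hdm := div_pow_le ρ hρ m
  have hb : m * Real.log 2 ≤ bb y := by
    rw [bb_eq_of_near (XX_sub_LX n hx) (by linarith)]
    exact bet_ge hρ' hd0 hd1
  have hb0 : 0 < m * Real.log 2 := by positivity
  have hbne : bb y ≠ 0 := (hb0.trans_le hb).ne'
  have hT := Tq_lower hρ hρ' q x hx (hΩ x hx) y hyx hbne
  have hw := wt_pos (2 * m) ρ (XX n) (ZZ n) y
  have hT0 : 0 ≤ m * (Real.pi * ρ ^ 2) / 8 * (Real.log (n + 1) / 32) := by positivity
  calc m * Real.log 2 * (m * (Real.pi * ρ ^ 2) / 8 * (Real.log (n + 1) / 32)) *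
        wt (2 * m) ρ (XX n) (ZZ n) y ≤ bb y * Tq m n ρ hρ q y * wt (2 * m) ρ (XX n) (ZZ n) y :=
        mul_le_mul_of_nonneg_right (mul_le_mul hb hT hT0 (bb_nonneg y)) hw.le
    _ = _ := by ring

end PV

/-! ### the continuous angular function of the configuration -/

/-- union of lines through 0 with (odd, even) directions of height at most `H` -/
def Lin (H : ℕ) : Set E2 := {x | ∃ (t : ℝ) (p q : ℤ), Odd p ∧ Even q ∧ |p| ≤ H ∧ |q| ≤ H ∧
  x = !₂[t * p, t * q]}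

lemma Upr_excl (H : ℕ) (hH : 1 ≤ H) {u : E2} (hmem : u ∈ Upr H) : Rot u ∉ Upr H := by
  have hHr : (1:ℝ) ≤ H := by exact_mod_cast hH
  rintro ⟨p', q', hp', hq', hpH', hqH', h'⟩
  obtain ⟨a, b, ha, hb, haH, hbH, h⟩ := hmem
  rw [Rot.norm_map, Rot_zero, Rot_one] at h'
  have hu0 : 0 < ‖u‖ := lt_of_le_of_lt (by positivity) h
  have har : |(a:ℝ)| ≤ H := by exact_mod_cast haH
  have hbr : |(b:ℝ)| ≤ H := by exact_mod_cast hbH
  have hpr' : |(p':ℝ)| ≤ H := by exact_mod_cast hpH'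
  have hqr' : |(q':ℝ)| ≤ H := by exact_mod_cast hqH'
  have hodd : Odd (a * p' + b * q') := (ha.mul hp').add_even (hb.mul_right q')
  have hD : (1:ℝ) ≤ |((a * p' + b * q' : ℤ) : ℝ)| := by
    have h1 : a * p' + b * q' ≠ 0 := by intro h0; rw [h0] at hodd; simp at hodd
    have h2 : 1 ≤ |a * p' + b * q'| := Int.one_le_abs h1
    exact_mod_cast h2
  push_cast at hD
  set s : ℝ := u 0 * b - u 1 * a with hs
  set s' : ℝ := - u 1 * q' - u 0 * p' with hs'
  have hH8 : (0:ℝ) < 8 * H := by positivity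
  have h3 : |s| * H < ‖u‖ / 8 := by nlinarith
  have h4 : |s'| * H < ‖u‖ / 8 := by nlinarith
  have e0 : ((a:ℝ) * p' + b * q') * u 0 = - a * s' + q' * s := by rw [hs, hs']; ring
  have e1 : ((a:ℝ) * p' + b * q') * u 1 = - b * s' - p' * s := by rw [hs, hs']; ring
  have b0 : |u 0| ≤ ‖u‖ / 4 := by
    calc |u 0| ≤ |(a:ℝ) * p' + b * q'| * |u 0| := le_mul_of_one_le_left (abs_nonneg _) hD
      _ = |- a * s' + q' * s| := by rw [← abs_mul, e0]
      _ ≤ |- a * s'| + |q' * s| := abs_add_le _ _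
      _ ≤ H * |s'| + H * |s| := by
          rw [abs_mul, abs_mul, abs_neg]
          exact add_le_add (mul_le_mul_of_nonneg_right har (abs_nonneg _))
            (mul_le_mul_of_nonneg_right hqr' (abs_nonneg _))
      _ ≤ ‖u‖ / 4 := by linarith
  have b1 : |u 1| ≤ ‖u‖ / 4 := by
    calc |u 1| ≤ |(a:ℝ) * p' + b * q'| * |u 1| := le_mul_of_one_le_left (abs_nonneg _) hD
      _ = |- b * s' - p' * s| := by rw [← abs_mul, e1]
      _ ≤ |- b * s'| + |p' * s| := abs_sub _ _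
      _ ≤ H * |s'| + H * |s| := by
          rw [abs_mul, abs_mul, abs_neg]
          exact add_le_add (mul_le_mul_of_nonneg_right hbr (abs_nonneg _))
            (mul_le_mul_of_nonneg_right hpr' (abs_nonneg _))
      _ ≤ ‖u‖ / 4 := by linarith
  have hsq := norm_sq_E2 u
  have c0 : u 0 ^ 2 ≤ (‖u‖ / 4) ^ 2 := by rw [← sq_abs]; exact pow_le_pow_left₀ (abs_nonneg _) b0 2
  have c1 : u 1 ^ 2 ≤ (‖u‖ / 4) ^ 2 := by rw [← sq_abs]; exact pow_le_pow_left₀ (abs_nonneg _) b1 2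
  nlinarith

lemma Lin_nonempty (H : ℕ) (hH : 1 ≤ H) : (Lin H).Nonempty :=
  ⟨!₂[0 * ((1:ℤ):ℝ), 0 * ((0:ℤ):ℝ)], 0, 1, 0, odd_one, Even.zero, by simpa using hH, by simp, rfl⟩

/-- tent function around the lines -/
noncomputable def tent (H : ℕ) (y : E2) : ℝ := max 0 (1 - 16 * H ^ 2 * infDist y (Lin H)) / 2

lemma tent_nonneg (H : ℕ) (y : E2) : 0 ≤ tent H y := by
  unfold tent
  have := le_max_left (0:ℝ) (1 - 16 * H ^ 2 * infDist y (Lin H))
  linarith

lemma tent_le (H : ℕ) (y : E2) : tent H y ≤ 1 := by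
  unfold tent
  have h1 : 0 ≤ 16 * (H:ℝ) ^ 2 * infDist y (Lin H) := mul_nonneg (by positivity) infDist_nonneg
  have : max 0 (1 - 16 * (H:ℝ) ^ 2 * infDist y (Lin H)) ≤ 1 := max_le (by norm_num) (by linarith)
  linarith

lemma tent_continuous (H : ℕ) : Continuous (tent H) := by
  unfold tent
  have := continuous_infDist_pt (Lin H)
  fun_prop

lemma tent_ne_zero (H : ℕ) (hH : 1 ≤ H) {y : E2} (hy : ‖y‖ = 1) (h : tent H y ≠ 0) : y ∈ Upr H := by
  have hHr : (1:ℝ) ≤ H := by exact_mod_cast hH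
  have h1 : infDist y (Lin H) < 1 / (16 * H ^ 2) := by
    by_contra hcon
    apply h
    unfold tent
    rw [not_lt, div_le_iff₀ (by positivity)] at hcon
    rw [max_eq_left (by linarith), zero_div]
  obtain ⟨v, ⟨t, p, q, hp, hq, hpH, hqH, rfl⟩, hd⟩ := (infDist_lt_iff (Lin_nonempty H hH)).1 h1
  refine ⟨p, q, hp, hq, hpH, hqH, ?_⟩
  have hpr : |(p:ℝ)| ≤ H := by exact_mod_cast hpH
  have hqr : |(q:ℝ)| ≤ H := by exact_mod_cast hqH
  rw [dist_eq_norm] at hd
  set d : ℝ := ‖y - !₂[t * (p:ℝ), t * (q:ℝ)]‖ with hdd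
  have h0 : |y 0 - t * p| ≤ d := by
    have := abs_coord_le (y - !₂[t * (p:ℝ), t * (q:ℝ)]) 0
    rw [PiLp.sub_apply] at this
    exact this
  have h1' : |y 1 - t * q| ≤ d := by
    have := abs_coord_le (y - !₂[t * (p:ℝ), t * (q:ℝ)]) 1
    rw [PiLp.sub_apply] at this
    exact this
  have hd0 : 0 ≤ d := norm_nonneg _
  have e : y 0 * (q:ℝ) - y 1 * (p:ℝ) = (y 0 - t * p) * q - (y 1 - t * q) * p := by ring
  have h2 : |y 0 * (q:ℝ) - y 1 * (p:ℝ)| ≤ 2 * d * H := by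
    rw [e]
    calc |(y 0 - t * p) * q - (y 1 - t * q) * p| ≤ |(y 0 - t * p) * q| + |(y 1 - t * q) * p| :=
          abs_sub _ _
      _ ≤ d * H + d * H := by
          rw [abs_mul, abs_mul]
          exact add_le_add (mul_le_mul h0 hqr (abs_nonneg _) hd0)
            (mul_le_mul h1' hpr (abs_nonneg _) hd0)
      _ = 2 * d * H := by ring
  rw [hy]
  rw [lt_div_iff₀ (by positivity)] at hd
  calc |y 0 * (q:ℝ) - y 1 * (p:ℝ)| * (8 * H) ≤ 2 * d * H * (8 * H) :=
        mul_le_mul_of_nonneg_right h2 (by positivity)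
    _ = d * (16 * H ^ 2) := by ring
    _ < 1 := hd

lemma tent_ge (H : ℕ) (y : E2) (t : ℝ) (p q : ℤ) (hp : Odd p) (hq : Even q) (hpH : |p| ≤ H)
    (hqH : |q| ≤ H) (hd : ‖y - !₂[t * (p:ℝ), t * (q:ℝ)]‖ * (16 * H ^ 2) ≤ 1/2) :
    1/4 ≤ tent H y := by
  unfold tent
  have h1 : infDist y (Lin H) ≤ ‖y - !₂[t * (p:ℝ), t * (q:ℝ)]‖ := by
    rw [← dist_eq_norm]
    exact infDist_le_dist_of_mem ⟨t, p, q, hp, hq, hpH, hqH, rfl⟩
  have h2 : 16 * (H:ℝ) ^ 2 * infDist y (Lin H) ≤ 1/2 := by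
    have : infDist y (Lin H) * (16 * (H:ℝ) ^ 2) ≤
      ‖y - !₂[t * (p:ℝ), t * (q:ℝ)]‖ * (16 * H ^ 2) := mul_le_mul_of_nonneg_right h1 (by positivity)
    linarith
  have h3 := le_max_right (0:ℝ) (1 - 16 * (H:ℝ) ^ 2 * infDist y (Lin H))
  linarith

/-- the bounded continuous function -/
noncomputable def qH (H : ℕ) : E2 →ᵇ ℝ :=
  BoundedContinuousFunction.ofNormedAddCommGroup (tent H) (tent_continuous H) 1
    (fun y => by rw [Real.norm_of_nonneg (tent_nonneg H y)]; exact tent_le H y)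

lemma qH_norm (H : ℕ) : ‖qH H‖ ≤ 1 :=
  BoundedContinuousFunction.norm_ofNormedAddCommGroup_le _ zero_le_one _

lemma qH_apply (H : ℕ) (y : E2) : qH H y = tent H y := rfl

lemma OmQ_qH (H : ℕ) (hH : 1 ≤ H) (δ : ℝ) (hδ : 64 * δ * H ^ 2 ≤ 1) (v : E2)
    (p q : ℤ) (hp : Odd p) (hq : Even q) (hpH : |p| ≤ H) (hqH : |q| ≤ H) (hv0 : v 0 = p)
    (hv1 : v 1 = q) (u : E2) (hu : ‖u - v‖ < δ) : 1/2 ≤ OmQ (qH H) (‖u‖⁻¹ • u) := by
  have hHr : (1:ℝ) ≤ H := by exact_mod_cast hH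
  have hδ0 : 0 < δ := (norm_nonneg _).trans_lt hu
  have hH2 : (1:ℝ) ≤ (H:ℝ) ^ 2 := one_le_pow₀ hHr
  have hδ' : δ ≤ 1/64 := by nlinarith
  have hp1 : (1:ℝ) ≤ |(p:ℝ)| := by
    have h1 : p ≠ 0 := by rintro rfl; simp at hp
    have h2 : 1 ≤ |p| := Int.one_le_abs h1
    exact_mod_cast h2
  have hvn : 1 ≤ ‖v‖ := hp1.trans (by rw [← hv0]; exact abs_coord_le v 0)
  have hun : 1/2 ≤ ‖u‖ := by
    have h1 := norm_sub_norm_le v u
    rw [norm_sub_rev] at h1
    linarith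
  have hu0 : 0 < ‖u‖ := by linarith
  set y := ‖u‖⁻¹ • u with hy
  have hy1 : ‖y‖ = 1 := by
    rw [hy, norm_smul, norm_inv, norm_norm, inv_mul_cancel₀ hu0.ne']
  have hvv : ‖u‖⁻¹ • v = !₂[‖u‖⁻¹ * (p:ℝ), ‖u‖⁻¹ * (q:ℝ)] := by
    ext i
    fin_cases i
    · show ‖u‖⁻¹ * v 0 = _
      rw [hv0]; rfl
    · show ‖u‖⁻¹ * v 1 = _
      rw [hv1]; rfl
  have hvv' : -(‖u‖⁻¹ • v) = !₂[(-‖u‖⁻¹) * (p:ℝ), (-‖u‖⁻¹) * (q:ℝ)] := by
    ext i
    fin_cases i
    · show -(‖u‖⁻¹ * v 0) = -‖u‖⁻¹ * (p:ℝ)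
      rw [hv0]; ring
    · show -(‖u‖⁻¹ * v 1) = -‖u‖⁻¹ * (q:ℝ)
      rw [hv1]; ring
  have hdist : ‖y - ‖u‖⁻¹ • v‖ * (16 * H ^ 2) ≤ 1/2 := by
    have h1 : y - ‖u‖⁻¹ • v = ‖u‖⁻¹ • (u - v) := by rw [hy, smul_sub]
    rw [h1, norm_smul, norm_inv, norm_norm]
    have h2 : ‖u‖⁻¹ ≤ 2 := by
      rw [inv_le_comm₀ hu0 (by norm_num)]
      linarith
    have h3 : ‖u‖⁻¹ * ‖u - v‖ ≤ 2 * δ :=
      mul_le_mul h2 hu.le (norm_nonneg _) (by norm_num)
    have h4 := mul_le_mul_of_nonneg_right h3 (show (0:ℝ) ≤ 16 * H ^ 2 by positivity)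
    linarith
  have hq1 : 1/4 ≤ tent H y := by
    refine tent_ge H y ‖u‖⁻¹ p q hp hq hpH hqH ?_
    rw [← hvv]; exact hdist
  have hq2 : 1/4 ≤ tent H (-y) := by
    refine tent_ge H (-y) (-‖u‖⁻¹) p q hp hq hpH hqH ?_
    rw [← hvv']
    have : -y - -(‖u‖⁻¹ • v) = -(y - ‖u‖⁻¹ • v) := by abel
    rw [this, norm_neg]; exact hdist
  have hyU : y ∈ Upr H := tent_ne_zero H hH hy1 (by linarith)
  have hRU := Upr_excl H hH hyU
  have hr1 : tent H (Rot y) = 0 := by
    by_contra hne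
    exact hRU (tent_ne_zero H hH (by rw [Rot.norm_map]; exact hy1) hne)
  have hr2 : tent H (-Rot y) = 0 := by
    by_contra hne
    exact hRU ((Upr_neg H (Rot y)).1
      (tent_ne_zero H hH (by rw [norm_neg, Rot.norm_map]; exact hy1) hne))
  unfold OmQ
  rw [qH_apply, qH_apply, qH_apply, qH_apply, hr1, hr2]
  linarith


/-! ### parameters -/

def pm (q : ℕ) : ℕ := 8 * q ^ 4
def pn (q : ℕ) : ℕ := 2 ^ (3 * q ^ 4)
noncomputable def pr (q : ℕ) : ℝ := 1 / (2 * q)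
noncomputable def pA (q : ℕ) : ℝ :=
  (64 * ((2 * pm q : ℕ) : ℝ) + 1) + (1 + 196 * ((2 * pm q : ℕ) : ℝ) * pr q ^ 2) ^ 2

lemma p_rho_pos {q : ℕ} (hq : 2 ≤ q) : 0 < pr q := by
  have hqr : (2:ℝ) ≤ q := by exact_mod_cast hq
  unfold pr; positivity

lemma p_rho_le {q : ℕ} (hq : 2 ≤ q) : pr q ≤ 1/4 := by
  have hqr : (2:ℝ) ≤ q := by exact_mod_cast hq
  unfold pr
  exact one_div_le_one_div_of_le (by norm_num) (by linarith)

lemma p_L16 {q : ℕ} (hq : 2 ≤ q) : 16 ≤ q ^ 4 := by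
  calc 16 = 2 ^ 4 := by norm_num
    _ ≤ q ^ 4 := Nat.pow_le_pow_left hq 4

lemma p_m_one {q : ℕ} (hq : 2 ≤ q) : 1 ≤ pm q := by
  have := p_L16 hq
  unfold pm; omega

lemma p_m_real (q : ℕ) : (pm q : ℝ) = 8 * (q:ℝ) ^ 4 := by unfold pm; push_cast; ring

lemma p_mrho {q : ℕ} (hq : 2 ≤ q) : (pm q : ℝ) * pr q ^ 2 = 2 * (q:ℝ) ^ 2 := by
  have hqr : (2:ℝ) ≤ q := by exact_mod_cast hq
  rw [p_m_real]; unfold pr; field_simp; ring

lemma p_small {q : ℕ} (hq : 2 ≤ q) : 2048 * pr q * (pn q : ℝ) ^ 2 ≤ 2 ^ (pm q) := by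
  have hL := p_L16 hq
  have hρ := p_rho_pos hq
  have hρ' := p_rho_le hq
  have h1 : (pn q:ℝ) ^ 2 = 2 ^ (6 * q ^ 4) := by
    unfold pn; push_cast; rw [← pow_mul]; congr 1; ring
  have h2 : (2:ℝ) ^ (pm q) = 2 ^ (6 * q ^ 4) * 2 ^ (2 * q ^ 4) := by
    rw [← pow_add]; congr 1; unfold pm; omega
  have h3 : (2:ℝ) ^ 9 ≤ 2 ^ (2 * q ^ 4) := pow_le_pow_right₀ (by norm_num) (by omega)
  rw [h1, h2]
  have h4 : (0:ℝ) < 2 ^ (6 * q ^ 4) := by positivity
  nlinarith

lemma p_A_le {q : ℕ} (hq : 2 ≤ q) : pA q ≤ 10 ^ 6 * (q:ℝ) ^ 4 := by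
  have hqr : (2:ℝ) ≤ q := by exact_mod_cast hq
  have h1 : 196 * ((2 * pm q : ℕ) : ℝ) * pr q ^ 2 = 784 * (q:ℝ) ^ 2 := by
    push_cast
    rw [show 196 * (2 * (pm q:ℝ)) * pr q ^ 2 = 392 * (pm q * pr q ^ 2) by ring, p_mrho hq]; ring
  have h2 : ((2 * pm q : ℕ) : ℝ) = 16 * (q:ℝ) ^ 4 := by push_cast; rw [p_m_real]; ring
  unfold pA
  rw [h1, h2]
  have h4 : (4:ℝ) ≤ (q:ℝ) ^ 2 := by nlinarith
  have h5 : (q:ℝ) ^ 4 = ((q:ℝ) ^ 2) ^ 2 := by ring
  rw [h5]
  nlinarith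

lemma p_A_pos (q : ℕ) : 0 < pA q := by unfold pA; positivity

lemma p_log {q : ℕ} (hq : 2 ≤ q) : 2 * (q:ℝ) ^ 4 ≤ Real.log ((pn q : ℝ) + 1) := by
  have hqr : (2:ℝ) ≤ q := by exact_mod_cast hq
  have hlog2 : 0.69 < Real.log 2 := by have := Real.log_two_gt_d9; linarith
  have h1 : Real.log (pn q:ℝ) = 3 * (q:ℝ) ^ 4 * Real.log 2 := by
    unfold pn; push_cast; rw [Real.log_pow]; push_cast; ring
  have hn0 : (0:ℝ) < pn q := by unfold pn; positivity
  have h2 : Real.log (pn q:ℝ) ≤ Real.log (pn q + 1) := Real.log_le_log hn0 (by linarith)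
  have h3 : (0:ℝ) < (q:ℝ) ^ 4 := by positivity
  nlinarith

lemma p_grid {q : ℕ} (hq : 2 ≤ q) : ∀ x ∈ XX (pn q), ∀ z ∈ ZZ (pn q), ∀ u,
    ‖u - (x - z)‖ < 2 * (pr q / 2 ^ (pm q)) → 1/2 ≤ OmQ (qH (4 * pn q)) (‖u‖⁻¹ • u) := by
  intro x hx z hz u hu
  obtain ⟨a, b, ha, hb, rfl⟩ := mem_XX hx
  obtain ⟨a', b', ha', hb', rfl⟩ := mem_ZZ hz
  have hn1 : 1 ≤ pn q := Nat.one_le_two_pow
  have h2m : (0:ℝ) < 2 ^ (pm q) := by positivity
  have hpH : |2 * ((a:ℤ) - a') + 1| ≤ ((4 * pn q : ℕ) : ℤ) := by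
    rw [abs_le]; push_cast; constructor <;> omega
  have hqH : |2 * ((b:ℤ) - b')| ≤ ((4 * pn q : ℕ) : ℤ) := by
    rw [abs_le]; push_cast; constructor <;> omega
  refine OmQ_qH (4 * pn q) (by omega) (2 * (pr q / 2 ^ (pm q))) ?_ _ (2 * ((a:ℤ) - a') + 1)
    (2 * ((b:ℤ) - b')) ⟨(a:ℤ) - a', by ring⟩ ⟨(b:ℤ) - b', by ring⟩ hpH hqH ?_ ?_ u hu
  · push_cast
    rw [show 64 * (2 * (pr q / 2 ^ (pm q))) * (4 * (pn q:ℝ)) ^ 2 =
      (2048 * pr q * pn q ^ 2) / 2 ^ (pm q) by ring, div_le_one h2m]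
    exact p_small hq
  · rw [PiLp.sub_apply, gp_zero, gp_zero]; push_cast; ring
  · rw [PiLp.sub_apply, gp_one, gp_one]; push_cast; ring

/-- main contradiction -/
theorem main
    (h : ∀ q : E2 →ᵇ ℝ, ∃ C : ℝ, ∀ k : ℕ, ∀ hk : 2 ≤ k,
      ∫⁻ x, ENNReal.ofReal ((gq (pm k) (pn k) (pr k) (p_rho_pos hk) q x) ^ 2 *
        wt (2 * pm k) (pr k) (XX (pn k)) (ZZ (pn k)) x) ≤
      ENNReal.ofReal (C * pA k ^ 4) *
        ∫⁻ x, ENNReal.ofReal ((ft (pm k) (pr k) (p_rho_pos hk) (ZZ (pn k)) x) ^ 2 *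
          wt (2 * pm k) (pr k) (XX (pn k)) (ZZ (pn k)) x)) : False := by
  have hpi := Real.pi_pos
  have hpi3 := Real.pi_gt_three
  have hk2 : ∀ i : ℕ, 2 ≤ i + 2 := fun i => by omega
  set DD : ℕ → ℝ := fun k => ((2 * pn k * (2 * pn k) : ℕ) : ℝ) * (pm k * (Real.pi * pr k ^ 2)) with hDD
  set W : ℕ → ℝ := fun k => WS (pm k) (pn k) (pr k) with hW
  have hDpos : ∀ k, 2 ≤ k → 0 < DD k := by
    intro k hk
    have h1 := p_mrho hk
    have hkr : (2:ℝ) ≤ k := by exact_mod_cast hk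
    have hn0 : (0:ℝ) < pn k := by unfold pn; positivity
    simp only [hDD]
    rw [show (pm k : ℝ) * (Real.pi * pr k ^ 2) = Real.pi * (pm k * pr k ^ 2) by ring, h1]
    push_cast
    positivity
  have hWD : ∀ k, 2 ≤ k → DD k ≤ W k := fun k hk => WS_ge (p_rho_pos hk) (p_rho_le hk)
  choose Λ hΛ using fun i : ℕ => exists_Lam (m := pm (i + 2)) (n := pn (i + 2)) (ρ := pr (i + 2))
    (hρ := p_rho_pos (hk2 i)) (p_rho_le (hk2 i))
  set lam : ℕ → (E2 →ᵇ ℝ) →L[ℝ] ℝ := fun i =>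
    ((pA (i + 2) ^ 2 * (DD (i + 2) + W (i + 2)))⁻¹ : ℝ) • Λ i with hlam
  have hptb : ∀ q : E2 →ᵇ ℝ, ∃ C : ℝ, ∀ i, ‖lam i q‖ ≤ C := by
    intro q
    obtain ⟨C, hC⟩ := h q
    refine ⟨max C 1 / 2, fun i => ?_⟩
    have hk := hk2 i
    set k := i + 2 with hkdef
    have hA := p_A_pos k
    have hD := hDpos k hk
    have hWk := hWD k hk
    have hC0 : 0 ≤ max C 1 := le_trans zero_le_one (le_max_right _ _)
    have h1 := hC k hk
    have h2 := lint_ft_sq (pm k) (pr k) (p_rho_pos hk) (p_rho_le hk) (XX (pn k)) (ZZ (pn k))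
      (disj_XZ (pn k)) (sep_XZ (pn k))
    rw [card_ZZ] at h2
    have h3 : ENNReal.ofReal (C * pA k ^ 4) ≤ ENNReal.ofReal (max C 1 * pA k ^ 4) :=
      ENNReal.ofReal_le_ofReal (mul_le_mul_of_nonneg_right (le_max_left _ _) (by positivity))
    have h4 := h1.trans (mul_le_mul' h3 h2)
    have h5 := Lam_upper (p_rho_pos hk) q (pA k) (max C 1) hA hC0 (DD k) hD.le h4
    have h6 : lam i q = (pA k ^ 2 * (DD k + W k))⁻¹ * LamF (pm k) (pn k) (pr k) (p_rho_pos hk) q := by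
      simp only [hlam]
      rw [_root_.smul_apply, hΛ i q, smul_eq_mul]
    have h7 : 0 < pA k ^ 2 * (DD k + W k) := by
      have : 0 < DD k + W k := by linarith
      positivity
    rw [h6, norm_mul, norm_inv, Real.norm_of_nonneg h7.le, inv_mul_le_iff₀ h7, Real.norm_eq_abs]
    refine h5.trans ?_
    have h8 : W k ≤ max C 1 * W k := le_mul_of_one_le_left (by linarith) (le_max_right _ _)
    have h9 : pA k ^ 2 / 2 * (max C 1 * DD k + WS (pm k) (pn k) (pr k)) ≤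
        pA k ^ 2 / 2 * (max C 1 * DD k + max C 1 * W k) :=
      mul_le_mul_of_nonneg_left (by linarith) (by positivity)
    refine h9.trans (le_of_eq ?_)
    ring
  obtain ⟨C', hC'⟩ := banach_steinhaus hptb
  obtain ⟨k₀, hk₀⟩ := exists_nat_gt (8 * 10 ^ 12 * C')
  have hk := hk2 k₀
  set k := k₀ + 2 with hkdef
  have hkr : (2:ℝ) ≤ k := by exact_mod_cast hk
  have hkk : 8 * 10 ^ 12 * C' < k := hk₀.trans_le (by rw [hkdef]; push_cast; linarith)
  have hA := p_A_pos k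
  have hD := hDpos k hk
  have hWk := hWD k hk
  have hWpos : 0 < W k := by linarith
  have hlow := Lam_lower (p_rho_pos hk) (p_rho_le hk) (p_m_one hk) (qH (4 * pn k)) (p_grid hk)
  have hC0 : 0 ≤ C' := (norm_nonneg _).trans (hC' k₀)
  have h1 : ‖lam k₀ (qH (4 * pn k))‖ ≤ C' := by
    refine ((lam k₀).le_opNorm _).trans ?_
    calc ‖lam k₀‖ * ‖qH (4 * pn k)‖ ≤ C' * 1 :=
          mul_le_mul (hC' k₀) (qH_norm _) (norm_nonneg _) hC0
      _ = C' := mul_one _
  have h6 : lam k₀ (qH (4 * pn k)) = (pA k ^ 2 * (DD k + W k))⁻¹ *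
      LamF (pm k) (pn k) (pr k) (p_rho_pos hk) (qH (4 * pn k)) := by
    simp only [hlam]
    rw [_root_.smul_apply, hΛ k₀, smul_eq_mul]
  have h7 : 0 < pA k ^ 2 * (DD k + W k) := by
    have : 0 < DD k + W k := by linarith
    positivity
  rw [h6, norm_mul, norm_inv, Real.norm_of_nonneg h7.le, inv_mul_le_iff₀ h7, Real.norm_eq_abs] at h1
  have h8 := hlow.trans ((le_abs_self _).trans h1)
  have h9 : pA k ^ 2 * (DD k + W k) * C' ≤ pA k ^ 2 * (2 * W k) * C' := by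
    refine mul_le_mul_of_nonneg_right ?_ hC0
    exact mul_le_mul_of_nonneg_left (by linarith) (by positivity)
  have h10 : (pm k * Real.log 2 * (pm k * (Real.pi * pr k ^ 2) / 8 *
      (Real.log (pn k + 1) / 32))) * W k ≤ (2 * C' * pA k ^ 2) * W k := by
    refine (h8.trans h9).trans (le_of_eq ?_)
    ring
  have h11 := le_of_mul_le_mul_right h10 hWpos
  have hlog2 : 0.69 < Real.log 2 := by have := Real.log_two_gt_d9; linarith
  have hl := p_log hk
  have hk2pos : (0:ℝ) < (k:ℝ) ^ 2 := by positivity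
  have hk4pos : (0:ℝ) < (k:ℝ) ^ 4 := by positivity
  have e1 : 8 * (k:ℝ) ^ 4 * 0.69 ≤ pm k * Real.log 2 := by
    rw [p_m_real]
    exact mul_le_mul_of_nonneg_left hlog2.le (by positivity)
  have e2 : 3 * (2 * (k:ℝ) ^ 2) / 8 ≤ pm k * (Real.pi * pr k ^ 2) / 8 := by
    rw [show (pm k : ℝ) * (Real.pi * pr k ^ 2) = Real.pi * (pm k * pr k ^ 2) by ring, p_mrho hk]
    have := mul_le_mul_of_nonneg_right hpi3.le (show (0:ℝ) ≤ 2 * (k:ℝ) ^ 2 by positivity)
    linarith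
  have e3 : 2 * (k:ℝ) ^ 4 / 32 ≤ Real.log (pn k + 1) / 32 := by linarith
  have e4 : (3 * (2 * (k:ℝ) ^ 2) / 8) * (2 * (k:ℝ) ^ 4 / 32) ≤
      (pm k * (Real.pi * pr k ^ 2) / 8) * (Real.log (pn k + 1) / 32) :=
    mul_le_mul e2 e3 (by positivity) (le_trans (by positivity) e2)
  have e5 : (8 * (k:ℝ) ^ 4 * 0.69) * ((3 * (2 * (k:ℝ) ^ 2) / 8) * (2 * (k:ℝ) ^ 4 / 32)) ≤
      2 * C' * pA k ^ 2 :=
    (mul_le_mul e1 e4 (by positivity) (le_trans (by positivity) e1)).trans h11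
  have e6 : pA k ^ 2 ≤ (10 ^ 6 * (k:ℝ) ^ 4) ^ 2 := pow_le_pow_left₀ hA.le (p_A_le hk) 2
  have e7 : 2 * C' * pA k ^ 2 ≤ 2 * C' * (10 ^ 6 * (k:ℝ) ^ 4) ^ 2 :=
    mul_le_mul_of_nonneg_left e6 (by positivity)
  have e8 : (0.25 * (k:ℝ) ^ 2) * (k:ℝ) ^ 8 ≤ (2 * C' * 10 ^ 12) * (k:ℝ) ^ 8 := by
    have e9 : (8 * (k:ℝ) ^ 4 * 0.69) * ((3 * (2 * (k:ℝ) ^ 2) / 8) * (2 * (k:ℝ) ^ 4 / 32)) =
      0.25875 * (k:ℝ) ^ 10 := by ring
    have e10 : 0 ≤ (k:ℝ) ^ 10 := by positivity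
    calc (0.25 * (k:ℝ) ^ 2) * (k:ℝ) ^ 8 = 0.25 * (k:ℝ) ^ 10 := by ring
      _ ≤ 0.25875 * (k:ℝ) ^ 10 := by nlinarith
      _ ≤ 2 * C' * (10 ^ 6 * (k:ℝ) ^ 4) ^ 2 := by rw [← e9]; exact e5.trans e7
      _ = _ := by ring
  have e11 := le_of_mul_le_mul_right e8 (by positivity)
  nlinarith

end Pool.Agent.Helper107.Comm
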