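import Pool.Agent.Helper107.HBa

set_option autoImplicit false
open Filter Topology MeasureTheory

namespace Pool.Agent.Helper107.HB


theorem j34242_ph {ψ : ℝ → ℝ} {P L : ℝ} (hψ : Mol ψ P L) (ε : ℝ) (hε : 0 < ε) :
    ContDiff ℝ ((⊤ : ℕ∞) : WithTop ℕ∞) (ph ψ ε) ∧ HasCompactSupport (ph ψ ε) := by
  constructor
  · unfold ph
    exact contDiff_const.mul (hψ.smooth.comp (contDiff_const.mul contDiff_id))
  · apply HasCompactSupport.intro (isCompact_Icc (a := -ε) (b := ε))
    intro u hu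
    unfold ph
    have h1 : 1 ≤ |ε⁻¹ * u| := by
      rw [abs_mul, abs_of_pos (inv_pos.mpr hε), inv_mul_eq_div, le_div_iff₀ hε, one_mul]
      by_contra hlt
      push Not at hlt
      exact hu ⟨by linarith [(abs_lt.mp hlt).1], (abs_lt.mp hlt).2.le⟩
    rw [hψ.supp _ h1, mul_zero]

/-- mo ψ ε f is the convolution f ⋆[ContinuousLinearMap.mul ℝ ℝ, volume] (ph ψ ε): HasCompactSupport.contDiff_convolution_right (needs hcg : HasCompactSupport (ph ψ ε), LocallyIntegrable f, ContDiff (ph ψ ε)), and HasCompactSupport.convolution for the support. -/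
theorem mo_smooth {ψ : ℝ → ℝ} {P L : ℝ} (hψ : Mol ψ P L) (ε : ℝ) (hε : 0 < ε) (f : ℝ → ℝ)
    (hf : Integrable f) (hc : HasCompactSupport f) :
    ContDiff ℝ ((⊤ : ℕ∞) : WithTop ℕ∞) (mo ψ ε f) ∧ HasCompactSupport (mo ψ ε f) := by
  have he : mo ψ ε f = MeasureTheory.convolution f (ph ψ ε) (ContinuousLinearMap.mul ℝ ℝ) volume := by
    funext y
    rfl
  obtain ⟨h1, h2⟩ := j34242_ph hψ ε hε
  rw [he]
  exact ⟨h2.contDiff_convolution_right _ hf.locallyIntegrable h1, hc.convolution _ h2⟩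

end Pool.Agent.Helper107.HB
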