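import Pool.Agent.Helper107.HBa

set_option autoImplicit false
open Filter Topology MeasureTheory

namespace Pool.Agent.Helper107.HB


theorem mo_max_L (f : ℝ → ℝ) (x a b : ℝ) (ha : a < x) (hb : x < b) :
    ∫⁻ y in Set.Ioo a b, ‖f y‖ₑ ≤ ENNReal.ofReal (b - a) * MM f x := by
  have h1 : ENNReal.ofReal ((b - a)⁻¹) * ∫⁻ y in Set.Ioo a b, ‖f y‖ₑ ≤ MM f x := by
    unfold MM
    refine le_iSup_of_le a (le_iSup_of_le b (le_iSup_of_le ⟨ha, hb⟩ le_rfl))
  have h2 : ENNReal.ofReal (b - a) * ENNReal.ofReal ((b - a)⁻¹) = 1 := by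
    rw [← ENNReal.ofReal_mul (by linarith), mul_inv_cancel₀ (sub_pos.2 (ha.trans hb)).ne', ENNReal.ofReal_one]
  calc ∫⁻ y in Set.Ioo a b, ‖f y‖ₑ
      = ENNReal.ofReal (b - a) * (ENNReal.ofReal ((b - a)⁻¹) * ∫⁻ y in Set.Ioo a b, ‖f y‖ₑ) := by
        rw [← mul_assoc, h2, one_mul]
    _ ≤ _ := by gcongr

theorem mo_max_ph_nonneg {ψ : ℝ → ℝ} {P L : ℝ} (hψ : Mol ψ P L) (ε : ℝ) (hε : 0 < ε) (u : ℝ) :
    0 ≤ ph ψ ε u := mul_nonneg (inv_nonneg.2 hε.le) (hψ.nonneg _)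

theorem mo_max_ph_zero {ψ : ℝ → ℝ} {P L : ℝ} (hψ : Mol ψ P L) (ε : ℝ) (hε : 0 < ε) (u : ℝ)
    (hu : ε ≤ |u|) : ph ψ ε u = 0 := by
  unfold ph
  rw [hψ.supp, mul_zero]
  rw [abs_mul, abs_of_pos (inv_pos.2 hε)]
  rw [← inv_mul_cancel₀ hε.ne']
  gcongr

theorem mo_max_ph_le {ψ : ℝ → ℝ} {P L : ℝ} (hψ : Mol ψ P L) (ε : ℝ) (hε : 0 < ε) (u : ℝ) :
    ph ψ ε u ≤ P / ε := by
  unfold ph
  rw [div_eq_inv_mul]
  exact mul_le_mul_of_nonneg_left (hψ.bound _) (inv_nonneg.2 hε.le)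

theorem mo_max_ph_cont {ψ : ℝ → ℝ} {P L : ℝ} (hψ : Mol ψ P L) (ε : ℝ) : Continuous (ph ψ ε) := by
  unfold ph
  exact continuous_const.mul (hψ.smooth.continuous.comp (continuous_const.mul continuous_id))

theorem mo_max_ph_int {ψ : ℝ → ℝ} {P L : ℝ} (hψ : Mol ψ P L) (ε : ℝ) (hε : 0 < ε) (z : ℝ) :
    ∫⁻ y, ENNReal.ofReal (ph ψ ε (y - z)) = 1 := by
  have h1 : Integrable ψ := by
    by_contra h
    have := integral_undef h
    rw [hψ.int] at this
    exact one_ne_zero this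
  have h2 : Integrable (fun u => ph ψ ε u) := by
    unfold ph
    exact (h1.comp_mul_left' (inv_ne_zero hε.ne')).const_mul _
  have h3 : Integrable (fun y => ph ψ ε (y - z)) := h2.comp_sub_right z
  rw [← ofReal_integral_eq_lintegral_ofReal h3 (Filter.Eventually.of_forall fun y => mo_max_ph_nonneg hψ ε hε _)]
  rw [integral_sub_right_eq_self (fun y => ph ψ ε y) z]
  unfold ph
  rw [integral_const_mul, Measure.integral_comp_mul_left, hψ.int]
  rw [inv_inv, abs_of_pos hε, smul_eq_mul, mul_one, inv_mul_cancel₀ hε.ne', ENNReal.ofReal_one]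

theorem mo_max_enorm {ψ : ℝ → ℝ} {P L : ℝ} (hψ : Mol ψ P L) (ε : ℝ) (hε : 0 < ε) (f : ℝ → ℝ) (y : ℝ) :
    ‖mo ψ ε f y‖ₑ ≤ ∫⁻ z, ‖f z‖ₑ * ENNReal.ofReal (ph ψ ε (y - z)) := by
  unfold mo
  refine (enorm_integral_le_lintegral_enorm _).trans (le_of_eq ?_)
  refine lintegral_congr fun z => ?_
  rw [enorm_mul, Real.enorm_of_nonneg (mo_max_ph_nonneg hψ ε hε _)]

/-- First: for every y, ‖mo ψ ε f y‖ₑ ≤ ∫⁻ z, ‖f z‖ₑ * ofReal (ph ψ ε (y - z)) (enorm_integral_le_lintegral_enorm), and ∫⁻ z in Ioo a b of f is ≤ ofReal (b-a) * MM f x when a<x<b. Given a<x<b. Case ε ≤ b-a: Tonelli (lintegral_lintegral_swap): ∫⁻_{Ioo a b} ‖mo f y‖ₑ dy ≤ ∫⁻ z ‖f z‖ₑ ∫⁻_{y in Ioo a b} ofReal(ph(y-z)) dy dz, the inner integral is ≤ 1 and vanishes unless z in Ioo (a-ε) (b+ε); so ≤ ∫⁻_{Ioo (a-ε) (b+ε)} ‖f‖ₑ ≤ ofReal (b-a+2ε) MM f x ≤ 3 ofReal(b-a) MM f x. Case b-a<ε: for y in (a,b), ph ψ ε ≤ P/ε and support in |y-z|<ε gives ‖mo f y‖ₑ ≤ ofReal(P/ε) ∫⁻_{Ioo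 (x-2ε) (x+2ε)} ‖f‖ₑ ≤ ofReal(4P) MM f x. (P ≥ 0 because 0 ≤ ψ ≤ P.) -/
theorem mo_max {ψ : ℝ → ℝ} {P L : ℝ} (hψ : Mol ψ P L) (ε : ℝ) (hε : 0 < ε) (f : ℝ → ℝ)
    (hf : Measurable f) (B : ℝ) (hB : ∀ x, |f x| ≤ B) (x : ℝ) :
    MM (mo ψ ε f) x ≤ ENNReal.ofReal (3 + 4 * P) * MM f x := by
  have hP : 0 ≤ P := (hψ.nonneg 0).trans (hψ.bound 0)
  show (⨆ a : ℝ, ⨆ b : ℝ, ⨆ (_ : a < x ∧ x < b),
    ENNReal.ofReal ((b - a)⁻¹) * ∫⁻ y in Set.Ioo a b, ‖mo ψ ε f y‖ₑ) ≤ _
  refine iSup_le fun a => iSup_le fun b => iSup_le fun hab => ?_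
  obtain ⟨ha, hb⟩ := hab
  have hba : 0 < b - a := by linarith
  have hmeas : Measurable (fun z => ‖f z‖ₑ) := hf.enorm
  rcases le_or_gt ε (b - a) with hc | hc
  · have h1 : ∫⁻ y in Set.Ioo a b, ‖mo ψ ε f y‖ₑ ≤ ∫⁻ z in Set.Ioo (a - ε) (b + ε), ‖f z‖ₑ := by
      calc ∫⁻ y in Set.Ioo a b, ‖mo ψ ε f y‖ₑ
          ≤ ∫⁻ y in Set.Ioo a b, ∫⁻ z, ‖f z‖ₑ * ENNReal.ofReal (ph ψ ε (y - z)) :=
            lintegral_mono fun y => mo_max_enorm hψ ε hε f y
        _ = ∫⁻ z, ∫⁻ y in Set.Ioo a b, ‖f z‖ₑ * ENNReal.ofReal (ph ψ ε (y - z)) := by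
            rw [lintegral_lintegral_swap]
            refine Measurable.aemeasurable ?_
            refine Measurable.mul (hmeas.comp measurable_snd) ?_
            exact ENNReal.measurable_ofReal.comp ((mo_max_ph_cont hψ ε).measurable.comp
              (measurable_fst.sub measurable_snd))
        _ = ∫⁻ z, ‖f z‖ₑ * ∫⁻ y in Set.Ioo a b, ENNReal.ofReal (ph ψ ε (y - z)) := by
            refine lintegral_congr fun z => ?_
            rw [lintegral_const_mul]
            exact ENNReal.measurable_ofReal.comp ((mo_max_ph_cont hψ ε).measurable.comp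
              (measurable_id.sub measurable_const))
        _ ≤ ∫⁻ z, (Set.Ioo (a - ε) (b + ε)).indicator (fun z => ‖f z‖ₑ) z := by
            refine lintegral_mono fun z => ?_
            by_cases hz : z ∈ Set.Ioo (a - ε) (b + ε)
            · rw [Set.indicator_of_mem hz]
              calc ‖f z‖ₑ * ∫⁻ y in Set.Ioo a b, ENNReal.ofReal (ph ψ ε (y - z))
                  ≤ ‖f z‖ₑ * ∫⁻ y, ENNReal.ofReal (ph ψ ε (y - z)) := by
                    gcongr
                    exact Measure.restrict_le_self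
                _ = ‖f z‖ₑ := by rw [mo_max_ph_int hψ ε hε, mul_one]
            · rw [Set.indicator_of_notMem hz]
              have : ∫⁻ y in Set.Ioo a b, ENNReal.ofReal (ph ψ ε (y - z)) = 0 := by
                rw [← lintegral_zero (μ := volume.restrict (Set.Ioo a b))]
                refine setLIntegral_congr_fun measurableSet_Ioo fun y hy => ?_
                have : ε ≤ |y - z| := by
                  rw [Set.mem_Ioo, not_and_or, not_lt, not_lt] at hz
                  rcases hz with hz | hz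
                  · rw [abs_of_nonneg (by linarith [hy.1])]
                    linarith [hy.1]
                  · rw [abs_of_nonpos (by linarith [hy.2])]
                    linarith [hy.2]
                simp only [mo_max_ph_zero hψ ε hε _ this, ENNReal.ofReal_zero]
              simp [this]
        _ = ∫⁻ z in Set.Ioo (a - ε) (b + ε), ‖f z‖ₑ := lintegral_indicator measurableSet_Ioo _
    calc ENNReal.ofReal ((b - a)⁻¹) * ∫⁻ y in Set.Ioo a b, ‖mo ψ ε f y‖ₑ
        ≤ ENNReal.ofReal ((b - a)⁻¹) * (ENNReal.ofReal ((b + ε) - (a - ε)) * MM f x) := by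
          gcongr
          exact h1.trans (mo_max_L f x _ _ (by linarith) (by linarith))
      _ = ENNReal.ofReal ((b - a)⁻¹ * ((b + ε) - (a - ε))) * MM f x := by
          rw [← mul_assoc, ← ENNReal.ofReal_mul (inv_nonneg.2 hba.le)]
      _ ≤ _ := by
          gcongr
          rw [inv_mul_le_iff₀ hba]
          nlinarith
  · have h1 : ∀ y ∈ Set.Ioo a b, ‖mo ψ ε f y‖ₑ ≤ ENNReal.ofReal (4 * P) * MM f x := by
      intro y hy
      calc ‖mo ψ ε f y‖ₑ ≤ ∫⁻ z, ‖f z‖ₑ * ENNReal.ofReal (ph ψ ε (y - z)) := mo_max_enorm hψ ε hε f y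
        _ ≤ ∫⁻ z, (Set.Ioo (x - 2 * ε) (x + 2 * ε)).indicator (fun z => ‖f z‖ₑ * ENNReal.ofReal (P / ε)) z := by
            refine lintegral_mono fun z => ?_
            by_cases hz : z ∈ Set.Ioo (x - 2 * ε) (x + 2 * ε)
            · rw [Set.indicator_of_mem hz]
              gcongr
              exact mo_max_ph_le hψ ε hε _
            · rw [Set.indicator_of_notMem hz]
              have : ε ≤ |y - z| := by
                rw [Set.mem_Ioo, not_and_or, not_lt, not_lt] at hz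
                rcases hz with hz | hz
                · rw [abs_of_nonneg (by linarith [hy.1])]
                  linarith [hy.1]
                · rw [abs_of_nonpos (by linarith [hy.2])]
                  linarith [hy.2]
              rw [mo_max_ph_zero hψ ε hε _ this, ENNReal.ofReal_zero, mul_zero]
        _ = (∫⁻ z in Set.Ioo (x - 2 * ε) (x + 2 * ε), ‖f z‖ₑ) * ENNReal.ofReal (P / ε) := by
            rw [lintegral_indicator measurableSet_Ioo, lintegral_mul_const _ hmeas]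
        _ ≤ (ENNReal.ofReal ((x + 2 * ε) - (x - 2 * ε)) * MM f x) * ENNReal.ofReal (P / ε) := by
            gcongr
            exact mo_max_L f x _ _ (by linarith) (by linarith)
        _ = ENNReal.ofReal (4 * P) * MM f x := by
            rw [mul_right_comm, ← ENNReal.ofReal_mul (by linarith)]
            congr 2
            field_simp
            ring
    calc ENNReal.ofReal ((b - a)⁻¹) * ∫⁻ y in Set.Ioo a b, ‖mo ψ ε f y‖ₑ
        ≤ ENNReal.ofReal ((b - a)⁻¹) * ∫⁻ y in Set.Ioo a b, ENNReal.ofReal (4 * P) * MM f x := by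
          refine mul_le_mul' le_rfl ?_
          exact setLIntegral_mono' measurableSet_Ioo h1
      _ = ENNReal.ofReal ((b - a)⁻¹) * (ENNReal.ofReal (4 * P) * MM f x * ENNReal.ofReal (b - a)) := by
          rw [setLIntegral_const, Real.volume_Ioo]
      _ = ENNReal.ofReal (4 * P) * MM f x := by
          have h2 : ENNReal.ofReal ((b - a)⁻¹) * ENNReal.ofReal (b - a) = 1 := by
            rw [← ENNReal.ofReal_mul (inv_nonneg.2 hba.le), inv_mul_cancel₀ hba.ne', ENNReal.ofReal_one]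
          rw [mul_comm (ENNReal.ofReal (4 * P) * MM f x), ← mul_assoc, h2, one_mul]
      _ ≤ _ := by
          gcongr
          linarith

end Pool.Agent.Helper107.HB
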