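import Pool.Agent.Helper107.HBa

set_option autoImplicit false
open Filter Topology MeasureTheory

namespace Pool.Agent.Helper107.HB


/-- F is Lipschitz (ContDiff.lipschitzWith_of_hasCompactSupport) and zero outside |y| ≤ R. Substituting y = x - t: tr δ F x = ∫_{δ<|t|} F(x-t)/t dt, by t -> -t it equals (1/2)∫_{δ<|t|} (F(x-t)-F(x+t))/t dt. J(t) = (F(x-t)-F(x+t))/t is measurable, bounded by 2K and zero for |t| > |x|+R, so integrable, and the limit is (1/2)∫ J by dominated convergence (tendsto_integral_filter_of_dominated_convergence with indicators). A complete two-dimensional model of this proof: lemma pv_exists in /workdir/pool/outputs/live/Pool/Agent/Helper107/RoughKernel.lean lines 260-400 (git fetch; on origin/main). -/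
theorem pv_exists (F : ℝ → ℝ) (hF : ContDiff ℝ ((⊤ : ℕ∞) : WithTop ℕ∞) F) (hc : HasCompactSupport F)
    (x : ℝ) : ∃ h : ℝ, Tendsto (fun δ : ℝ => tr δ F x) (𝓝[>] 0) (𝓝 h) := by
  have hFc : Continuous F := hF.continuous
  have hFi : Integrable F := hFc.integrable_of_hasCompactSupport hc
  obtain ⟨K, hK⟩ : ∃ K, LipschitzWith K F :=
    ContDiff.lipschitzWith_of_hasCompactSupport hc hF (by norm_num)
  obtain ⟨R, hR⟩ : ∃ R : ℝ, ∀ y, R < |y| → F y = 0 := by
    obtain ⟨R, hR⟩ := hc.isCompact.isBounded.subset_closedBall (0 : ℝ)
    refine ⟨R, fun y hy => ?_⟩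
    by_contra h0
    have h1 : y ∈ tsupport F := subset_tsupport _ (by simpa using h0)
    have h2 := hR h1
    rw [Metric.mem_closedBall, dist_zero_right, Real.norm_eq_abs] at h2
    linarith
  set J : ℝ → ℝ := fun t => (F (x - t) - F (x + t)) / t with hJ
  set M : ℝ := |x| + |R| with hM
  have hJmeas : Measurable J := by
    have h1 : Measurable F := hFc.measurable
    fun_prop
  have hJb : ∀ t, ‖J t‖ ≤ (Set.Icc (-M) M).indicator (fun _ => 2 * (K : ℝ)) t := by
    intro t
    by_cases ht : t ∈ Set.Icc (-M) M
    · rw [Set.indicator_of_mem ht]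
      rcases eq_or_ne t 0 with h0 | h0
      · simp [hJ, h0]
      · rw [hJ, Real.norm_eq_abs]
        simp only
        rw [abs_div, div_le_iff₀ (abs_pos.2 h0)]
        have h1 := hK.dist_le_mul (x - t) (x + t)
        rw [Real.dist_eq, Real.dist_eq] at h1
        have h2 : |x - t - (x + t)| = 2 * |t| := by
          rw [show x - t - (x + t) = -(2 * t) by ring, abs_neg, abs_mul]; norm_num
        rw [h2] at h1
        linarith
    · rw [Set.indicator_of_notMem ht]
      have ht2 : M < |t| := by
        by_contra h0
        exact ht (abs_le.1 (not_lt.1 h0))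
      have hxa := abs_nonneg x
      have hRa := le_abs_self R
      have e1 : F (x - t) = 0 := by
        apply hR
        have : |t| ≤ |x - t| + |x| := by
          calc |t| = |-(x - t) + x| := by ring_nf
            _ ≤ |-(x - t)| + |x| := abs_add_le _ _
            _ = |x - t| + |x| := by rw [abs_neg]
        linarith
      have e2 : F (x + t) = 0 := by
        apply hR
        have : |t| ≤ |x + t| + |x| := by
          calc |t| = |(x + t) + (-x)| := by ring_nf
            _ ≤ |x + t| + |-x| := abs_add_le _ _
            _ = |x + t| + |x| := by rw [abs_neg]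
        linarith
      simp [hJ, e1, e2]
  have hbi : Integrable ((Set.Icc (-M) M).indicator (fun _ : ℝ => 2 * (K : ℝ))) := by
    rw [integrable_indicator_iff measurableSet_Icc]
    exact integrableOn_const (by simp)
  have hSmeas : ∀ δ : ℝ, MeasurableSet {y : ℝ | δ < |x - y|} := by
    intro δ
    exact measurableSet_lt measurable_const (by fun_prop)
  have hTmeas : ∀ δ : ℝ, MeasurableSet {t : ℝ | δ < |t|} := by
    intro δ
    exact measurableSet_lt measurable_const (by fun_prop)
  have key : ∀ δ : ℝ, 0 < δ → tr δ F x = (∫ t, {t : ℝ | δ < |t|}.indicator J t) / 2 := by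
    intro δ hδ
    set g : ℝ → ℝ := {y : ℝ | δ < |x - y|}.indicator (fun y => F y / (x - y)) with hg
    have htr : tr δ F x = ∫ y, g y := by
      rw [hg, integral_indicator (hSmeas δ)]
      rfl
    have hgmeas : Measurable g := by
      have h1 : Measurable F := hFc.measurable
      exact Measurable.indicator (by fun_prop) (hSmeas δ)
    have hgi : Integrable g := by
      refine Integrable.mono' (hFi.norm.const_mul δ⁻¹) hgmeas.aestronglyMeasurable ?_
      refine Filter.Eventually.of_forall ?_
      intro y
      by_cases hy : y ∈ {y : ℝ | δ < |x - y|}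
      · rw [hg, Set.indicator_of_mem hy, norm_div]
        have h2 : δ < ‖x - y‖ := hy
        rw [div_eq_mul_inv, mul_comm]
        refine mul_le_mul_of_nonneg_right ?_ (norm_nonneg _)
        exact inv_anti₀ hδ h2.le
      · rw [hg, Set.indicator_of_notMem hy, norm_zero]
        positivity
    have h1 : ∫ t, g (x - t) = ∫ y, g y := integral_sub_left_eq_self g volume x
    have h2 : ∫ t, g (x + t) = ∫ y, g y := integral_add_left_eq_self g x
    have hi1 : Integrable (fun t => g (x - t)) := hgi.comp_sub_left x
    have hi2 : Integrable (fun t => g (x + t)) := hgi.comp_add_left x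
    have h3 : ∫ t, (g (x - t) + g (x + t)) = 2 * tr δ F x := by
      rw [integral_add hi1 hi2, h1, h2, htr]; ring
    have h4 : (fun t => g (x - t) + g (x + t)) = {t : ℝ | δ < |t|}.indicator J := by
      funext t
      by_cases ht : t ∈ {t : ℝ | δ < |t|}
      · have ht' : δ < |t| := ht
        have m1 : x - t ∈ {y : ℝ | δ < |x - y|} := by
          show δ < |x - (x - t)|
          rw [sub_sub_cancel]; exact ht'
        have m2 : x + t ∈ {y : ℝ | δ < |x - y|} := by
          show δ < |x - (x + t)|
          rw [show x - (x + t) = -t by ring, abs_neg]; exact ht'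
        rw [Set.indicator_of_mem ht, hg, Set.indicator_of_mem m1, Set.indicator_of_mem m2]
        have ht0 : t ≠ 0 := by
          intro h0
          rw [h0, abs_zero] at ht'
          linarith
        simp only [hJ]
        rw [show x - (x - t) = t by ring, show x - (x + t) = -t by ring]
        field_simp
        ring
      · have ht' : ¬ δ < |t| := ht
        have m1 : x - t ∉ {y : ℝ | δ < |x - y|} := by
          show ¬ δ < |x - (x - t)|
          rw [sub_sub_cancel]; exact ht'
        have m2 : x + t ∉ {y : ℝ | δ < |x - y|} := by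
          show ¬ δ < |x - (x + t)|
          rw [show x - (x + t) = -t by ring, abs_neg]; exact ht'
        rw [Set.indicator_of_notMem ht, hg, Set.indicator_of_notMem m1, Set.indicator_of_notMem m2,
          add_zero]
    rw [h4] at h3
    rw [h3]; ring
  refine ⟨(∫ t, J t) / 2, ?_⟩
  have hlim : Tendsto (fun δ : ℝ => ∫ t, {t : ℝ | δ < |t|}.indicator J t) (𝓝[>] 0) (𝓝 (∫ t, J t)) := by
    refine tendsto_integral_filter_of_dominated_convergence
      ((Set.Icc (-M) M).indicator (fun _ => 2 * (K : ℝ))) ?_ ?_ hbi ?_
    · exact Filter.Eventually.of_forall fun δ => (hJmeas.indicator (hTmeas δ)).aestronglyMeasurable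
    · refine Filter.Eventually.of_forall fun δ => Filter.Eventually.of_forall fun t => ?_
      refine le_trans ?_ (hJb t)
      exact norm_indicator_le_norm_self _ _
    · refine Filter.Eventually.of_forall fun t => ?_
      rcases eq_or_ne t 0 with h0 | h0
      · have : J t = 0 := by simp [hJ, h0]
        have h5 : ∀ δ : ℝ, {t : ℝ | δ < |t|}.indicator J t = J t := by
          intro δ
          by_cases ht : t ∈ {t : ℝ | δ < |t|}
          · rw [Set.indicator_of_mem ht]
          · rw [Set.indicator_of_notMem ht, this]
        simp only [h5]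
        exact tendsto_const_nhds
      · refine Tendsto.congr' ?_ tendsto_const_nhds
        have : ∀ᶠ δ : ℝ in 𝓝[>] 0, δ < |t| :=
          mem_nhdsWithin_of_mem_nhds (Iio_mem_nhds (abs_pos.2 h0))
        filter_upwards [this] with δ hδ
        rw [Set.indicator_of_mem]
        exact hδ
  refine Tendsto.congr' ?_ (hlim.div_const 2)
  filter_upwards [self_mem_nhdsWithin] with δ hδ
  exact (key δ hδ).symm

end Pool.Agent.Helper107.HB
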