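import Pool.Agent.Helper107.HBa

set_option autoImplicit false
open Filter Topology MeasureTheory

namespace Pool.Agent.Helper107.HB


theorem near_phlip {ψ : ℝ → ℝ} {P L : ℝ} (hψ : Mol ψ P L) (ε : ℝ) (hε : 0 < ε) (u v : ℝ) :
    |ph ψ ε u - ph ψ ε v| ≤ L * ε⁻¹ * ε⁻¹ * |u - v| := by
  unfold ph
  rw [← mul_sub, abs_mul, abs_of_pos (inv_pos.2 hε)]
  have h := hψ.lip (ε⁻¹ * u) (ε⁻¹ * v)
  rw [← mul_sub, abs_mul, abs_of_pos (inv_pos.2 hε)] at h
  have h2 := mul_le_mul_of_nonneg_left h (inv_pos.2 hε).le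
  refine h2.trans (le_of_eq ?_)
  ring

theorem near_int {ψ : ℝ → ℝ} {P L : ℝ} (hψ : Mol ψ P L) (ε : ℝ) (hε : 0 < ε) (g : ℝ → ℝ)
    (hg : Integrable g) (y : ℝ) : Integrable (fun z => g z * ph ψ ε (y - z)) := by
  have hc : Continuous (fun z => ph ψ ε (y - z)) := by
    have := hψ.smooth.continuous
    unfold ph
    fun_prop
  refine hg.mul_bdd (c := ε⁻¹ * P) hc.aestronglyMeasurable (Eventually.of_forall fun z => ?_)
  rw [Real.norm_eq_abs, abs_of_nonneg (by
    unfold ph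
    exact mul_nonneg (inv_pos.2 hε).le (hψ.nonneg _))]
  unfold ph
  exact mul_le_mul_of_nonneg_left (hψ.bound _) (inv_pos.2 hε).le

theorem near_lip {ψ : ℝ → ℝ} {P L : ℝ} (hψ : Mol ψ P L) (ε : ℝ) (hε : 0 < ε) (g : ℝ → ℝ)
    (hg : Integrable g) (y y1 : ℝ) :
    |mo ψ ε g y - mo ψ ε g y1| ≤ L * ε⁻¹ * ε⁻¹ * |y - y1| * ∫ z, |g z| := by
  unfold mo
  rw [← integral_sub (near_int hψ ε hε g hg y) (near_int hψ ε hε g hg y1), ← Real.norm_eq_abs,
    ← integral_const_mul]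
  refine norm_integral_le_of_norm_le (hg.abs.const_mul _) (Eventually.of_forall fun z => ?_)
  rw [← mul_sub, norm_mul, Real.norm_eq_abs, Real.norm_eq_abs, mul_comm]
  refine mul_le_mul_of_nonneg_right ?_ (abs_nonneg _)
  have h := near_phlip hψ ε hε (y - z) (y1 - z)
  rw [sub_sub_sub_cancel_right] at h
  exact h

theorem near_zero {ψ : ℝ → ℝ} {P L : ℝ} (hψ : Mol ψ P L) (ε : ℝ) (hε : 0 < ε) (x : ℝ) (g : ℝ → ℝ)
    (hs : ∀ z, 4 * ε < |z - x| → g z = 0) (y : ℝ) (hy : 5 * ε ≤ |y - x|) : mo ψ ε g y = 0 := by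
  unfold mo
  have : (fun z => g z * ph ψ ε (y - z)) = fun _ => 0 := by
    funext z
    by_cases h : 4 * ε < |z - x|
    · rw [hs z h, zero_mul]
    · have h1 : ε ≤ |y - z| := by
        have h2 : |y - x| ≤ |y - z| + |z - x| := abs_sub_le y z x
        push Not at h
        linarith
      have h3 : ψ (ε⁻¹ * (y - z)) = 0 := by
        apply hψ.supp
        rw [abs_mul, abs_of_pos (inv_pos.2 hε), inv_mul_eq_div, le_div_iff₀ hε, one_mul]
        exact h1
      unfold ph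
      rw [h3, mul_zero, mul_zero]
  rw [this]
  simp

theorem near_odd (x δ R : ℝ) :
    ∫ y in {y : ℝ | δ < |x - y| ∧ |x - y| ≤ R}, 1 / (x - y) = 0 := by
  have hm2 : MeasurableSet {y : ℝ | δ < |x - y| ∧ |x - y| ≤ R} :=
    MeasurableSet.inter (s₁ := {y : ℝ | δ < |x - y|}) (s₂ := {y : ℝ | |x - y| ≤ R})
      (measurableSet_lt measurable_const (continuous_const.sub continuous_id).abs.measurable)
      (measurableSet_le (continuous_const.sub continuous_id).abs.measurable measurable_const)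
  rw [← integral_indicator hm2]
  have e1 : ({y : ℝ | δ < |x - y| ∧ |x - y| ≤ R}).indicator (fun y => 1 / (x - y)) =
      fun y => ({t : ℝ | δ < |t| ∧ |t| ≤ R}).indicator (fun t => 1 / t) (x - y) := by
    funext y
    by_cases h : δ < |x - y| ∧ |x - y| ≤ R
    · rw [Set.indicator_of_mem (show y ∈ {y : ℝ | δ < |x - y| ∧ |x - y| ≤ R} from h),
        Set.indicator_of_mem (show (x - y) ∈ {t : ℝ | δ < |t| ∧ |t| ≤ R} from h)]
    · rw [Set.indicator_of_notMem (show y ∉ {y : ℝ | δ < |x - y| ∧ |x - y| ≤ R} from h),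
        Set.indicator_of_notMem (show (x - y) ∉ {t : ℝ | δ < |t| ∧ |t| ≤ R} from h)]
  rw [e1, integral_sub_left_eq_self (fun t => ({t : ℝ | δ < |t| ∧ |t| ≤ R}).indicator
    (fun t => 1 / t) t) volume x]
  have e2 : ∀ t : ℝ, ({t : ℝ | δ < |t| ∧ |t| ≤ R}).indicator (fun t => 1 / t) (-t) =
      -({t : ℝ | δ < |t| ∧ |t| ≤ R}).indicator (fun t => 1 / t) t := by
    intro t
    by_cases h : δ < |t| ∧ |t| ≤ R
    · have h' : δ < |(-t)| ∧ |(-t)| ≤ R := by rwa [abs_neg]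
      rw [Set.indicator_of_mem (show t ∈ {t : ℝ | δ < |t| ∧ |t| ≤ R} from h),
        Set.indicator_of_mem (show (-t) ∈ {t : ℝ | δ < |t| ∧ |t| ≤ R} from h')]
      rw [div_neg]
    · have h' : ¬ (δ < |(-t)| ∧ |(-t)| ≤ R) := by rwa [abs_neg]
      rw [Set.indicator_of_notMem (show t ∉ {t : ℝ | δ < |t| ∧ |t| ≤ R} from h),
        Set.indicator_of_notMem (show (-t) ∉ {t : ℝ | δ < |t| ∧ |t| ≤ R} from h'), neg_zero]
  have e3 := integral_neg_eq_self (fun t => ({t : ℝ | δ < |t| ∧ |t| ≤ R}).indicator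
    (fun t => 1 / t) t) (volume : Measure ℝ)
  simp only [e2] at e3
  rw [integral_neg] at e3
  linarith

/-- F = mo ψ ε g satisfies |F y - F y1| ≤ L ε⁻¹ ε⁻¹ |y - y1| ∫|g| and F y = 0 when 5ε ≤ |y-x|. tr δ F x = ∫_{δ<|x-y|, |x-y| ≤ 5ε} (F y - F x)/(x-y) dy because the integral of 1/(x-y) over the symmetric set {δ<|x-y| ≤ 5ε} is 0 (odd function; substitute y = x - t, integral_neg_eq_self). The integrand is bounded by L ε⁻² ∫|g| on a set of measure ≤ 10 ε (norm_setIntegral_le_of_norm_le_const or norm_integral_le_of_norm_le). -/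
theorem near {ψ : ℝ → ℝ} {P L : ℝ} (hψ : Mol ψ P L) (ε δ : ℝ) (hδ : 0 < δ) (hδε : δ < ε)
    (x : ℝ) (g : ℝ → ℝ) (hg : Integrable g) (hs : ∀ z, 4 * ε < |z - x| → g z = 0) :
    |tr δ (mo ψ ε g) x| ≤ 10 * L * ε⁻¹ * ∫ z, |g z| := by
  have hε : 0 < ε := hδ.trans hδε
  have hL : 0 ≤ L := by
    have := hψ.lip 0 1
    have h2 := abs_nonneg (ψ 0 - ψ 1)
    norm_num at this
    linarith
  set F := mo ψ ε g with hF
  set G := ∫ z, |g z| with hG
  have hG0 : 0 ≤ G := integral_nonneg fun z => abs_nonneg _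
  set K := L * ε⁻¹ * ε⁻¹ * G with hK
  have hK0 : 0 ≤ K := by positivity
  have hlip : ∀ y y1, |F y - F y1| ≤ K * |y - y1| := by
    intro y y1
    refine (near_lip hψ ε hε g hg y y1).trans (le_of_eq ?_)
    rw [hK]; ring
  have hFc : Continuous F := by
    apply LipschitzWith.continuous (K := ⟨K, hK0⟩)
    apply LipschitzWith.of_dist_le_mul
    intro a b
    rw [Real.dist_eq, Real.dist_eq]
    exact hlip a b
  have hmA : MeasurableSet {y : ℝ | δ < |x - y|} :=
    measurableSet_lt measurable_const (by fun_prop)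
  have hmB : MeasurableSet {y : ℝ | δ < |x - y| ∧ |x - y| ≤ 5 * ε} :=
    MeasurableSet.inter (s₁ := {y : ℝ | δ < |x - y|}) (s₂ := {y : ℝ | |x - y| ≤ 5 * ε}) hmA
      (measurableSet_le (continuous_const.sub continuous_id).abs.measurable measurable_const)
  have hBsub : {y : ℝ | δ < |x - y| ∧ |x - y| ≤ 5 * ε} ⊆ Set.Icc (x - 5 * ε) (x + 5 * ε) := by
    rintro y ⟨-, hy⟩
    have := abs_le.1 hy
    exact ⟨by linarith, by linarith⟩
  have hvol : (volume : Measure ℝ) {y : ℝ | δ < |x - y| ∧ |x - y| ≤ 5 * ε} ≤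
      ENNReal.ofReal (10 * ε) := by
    refine (measure_mono hBsub).trans (le_of_eq ?_)
    rw [Real.volume_Icc]
    congr 1
    ring
  have hfin : (volume : Measure ℝ) {y : ℝ | δ < |x - y| ∧ |x - y| ≤ 5 * ε} < ⊤ :=
    lt_of_le_of_lt hvol ENNReal.ofReal_lt_top
  have e1 : tr δ F x = ∫ y in {y : ℝ | δ < |x - y| ∧ |x - y| ≤ 5 * ε}, F y / (x - y) := by
    unfold tr
    rw [← integral_indicator hmA, ← integral_indicator hmB]
    congr 1
    funext y
    by_cases h1 : δ < |x - y|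
    · by_cases h2 : |x - y| ≤ 5 * ε
      · rw [Set.indicator_of_mem (show y ∈ {y : ℝ | δ < |x - y|} from h1),
          Set.indicator_of_mem (show y ∈ {y : ℝ | δ < |x - y| ∧ |x - y| ≤ 5 * ε} from ⟨h1, h2⟩)]
      · rw [Set.indicator_of_mem (show y ∈ {y : ℝ | δ < |x - y|} from h1),
          Set.indicator_of_notMem (show y ∉ {y : ℝ | δ < |x - y| ∧ |x - y| ≤ 5 * ε} from
            fun h => h2 h.2)]
        rw [hF, near_zero hψ ε hε x g hs y (by rw [abs_sub_comm]; linarith), zero_div]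
    · rw [Set.indicator_of_notMem (show y ∉ {y : ℝ | δ < |x - y|} from h1),
        Set.indicator_of_notMem (show y ∉ {y : ℝ | δ < |x - y| ∧ |x - y| ≤ 5 * ε} from
          fun h => h1 h.1)]
  have hb1 : ∀ y ∈ {y : ℝ | δ < |x - y| ∧ |x - y| ≤ 5 * ε}, ‖(F y - F x) / (x - y)‖ ≤ K := by
    rintro y ⟨h1, -⟩
    have h2 : 0 < |x - y| := hδ.trans h1
    rw [Real.norm_eq_abs, abs_div, div_le_iff₀ h2, abs_sub_comm x y]
    exact hlip y x
  have hb2 : ∀ y ∈ {y : ℝ | δ < |x - y| ∧ |x - y| ≤ 5 * ε}, ‖1 / (x - y)‖ ≤ 1 / δ := by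
    rintro y ⟨h1, -⟩
    rw [Real.norm_eq_abs, abs_div, abs_one]
    exact one_div_le_one_div_of_le hδ h1.le
  have i1 : IntegrableOn (fun y => (F y - F x) / (x - y))
      {y : ℝ | δ < |x - y| ∧ |x - y| ≤ 5 * ε} := by
    refine Measure.integrableOn_of_bounded (M := K) hfin.ne ?_
      ((ae_restrict_iff' hmB).2 (Eventually.of_forall hb1))
    have : Measurable F := hFc.measurable
    exact ((this.sub_const _).div (measurable_const.sub measurable_id)).aestronglyMeasurable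
  have i2 : IntegrableOn (fun y => F x * (1 / (x - y)))
      {y : ℝ | δ < |x - y| ∧ |x - y| ≤ 5 * ε} := by
    apply Integrable.const_mul
    refine Measure.integrableOn_of_bounded (M := 1 / δ) hfin.ne ?_
      ((ae_restrict_iff' hmB).2 (Eventually.of_forall hb2))
    exact (measurable_const.div (measurable_const.sub measurable_id)).aestronglyMeasurable
  have e2 : ∫ y in {y : ℝ | δ < |x - y| ∧ |x - y| ≤ 5 * ε}, F y / (x - y) =
      ∫ y in {y : ℝ | δ < |x - y| ∧ |x - y| ≤ 5 * ε}, (F y - F x) / (x - y) := by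
    have e3 : (fun y => F y / (x - y)) = fun y => (F y - F x) / (x - y) + F x * (1 / (x - y)) := by
      funext y
      ring
    rw [e3, integral_add i1 i2, integral_const_mul, near_odd x δ (5 * ε), mul_zero, add_zero]
  rw [e1, e2]
  have h3 := norm_setIntegral_le_of_norm_le_const hfin hb1
  rw [Real.norm_eq_abs] at h3
  refine h3.trans ?_
  have h4 : (volume : Measure ℝ).real {y : ℝ | δ < |x - y| ∧ |x - y| ≤ 5 * ε} ≤ 10 * ε := by
    rw [Measure.real]
    exact ENNReal.toReal_le_of_le_ofReal (by positivity) hvol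
  refine (mul_le_mul_of_nonneg_left h4 hK0).trans (le_of_eq ?_)
  rw [hK]
  field_simp

end Pool.Agent.Helper107.HB
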