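import Pool.Agent.Helper107.HBa

set_option autoImplicit false
open Filter Topology MeasureTheory

namespace Pool.Agent.Helper107.HB


theorem far_ph_int {ψ : ℝ → ℝ} {P L : ℝ} (hψ : Mol ψ P L) (ε : ℝ) (hε : 0 < ε) :
    ∫ u, ph ψ ε u = 1 := by
  unfold ph
  rw [integral_const_mul, Measure.integral_comp_mul_left, hψ.int, inv_inv, abs_of_pos hε]
  simp [hε.ne']

theorem far_ph_integrable {ψ : ℝ → ℝ} {P L : ℝ} (hψ : Mol ψ P L) (ε : ℝ) (hε : 0 < ε) :
    Integrable (ph ψ ε) := integrable_of_integral_eq_one (far_ph_int hψ ε hε)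

theorem far_ph_supp {ψ : ℝ → ℝ} {P L : ℝ} (hψ : Mol ψ P L) (ε : ℝ) (hε : 0 < ε) (u : ℝ)
    (hu : ε ≤ |u|) : ph ψ ε u = 0 := by
  unfold ph
  rw [hψ.supp, mul_zero]
  rw [abs_mul, abs_of_pos (inv_pos.mpr hε)]
  rw [← div_eq_inv_mul, le_div_iff₀ hε]
  linarith

theorem far_ph_nonneg {ψ : ℝ → ℝ} {P L : ℝ} (hψ : Mol ψ P L) (ε : ℝ) (hε : 0 < ε) (u : ℝ) :
    0 ≤ ph ψ ε u := mul_nonneg (inv_pos.mpr hε).le (hψ.nonneg _)

/-- Fubini: tr δ (mo g) x = ∫_{y: δ<|x-y|} ∫ z, g z ph(y-z)/(x-y) = ∫ z, g z * (∫_{y: δ<|x-y|} ph(y-z)/(x-y) dy); integrable on the product since |.| ≤ |g z| ph(y-z)/δ (Integrable.mul_prod / integrable_prod after translation; measurability of g is only ae, use g.aestronglyMeasurable or replace by the ae equal strongly measurable version). For |z-x|>4ε: ph(y-z) ≠ 0 forces |y-z|<ε, so |x-y| ≥ (3/4)|x-z| > δ, and ∫ ph(y-z) dy = 1 (ε⁻¹ ∫ ψ(ε⁻¹ (y-z)) dy = 1, integral_comp_mul_left etc). Then |1/(x-y) - 1/(x-z)| = |y-z|/(|x-y||x-z|) ≤ 2ε/(x-z)^2; integrate. 1/(x-z) and 1/(x-z)^2 are bounded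 on the support of g. -/
theorem far {ψ : ℝ → ℝ} {P L : ℝ} (hψ : Mol ψ P L) (ε δ : ℝ) (hδ : 0 < δ) (hδε : δ < ε)
    (x : ℝ) (g : ℝ → ℝ) (hg : Integrable g) (hs : ∀ z, |z - x| ≤ 4 * ε → g z = 0) :
    |tr δ (mo ψ ε g) x - ∫ z, g z / (x - z)| ≤ 2 * ε * ∫ z, |g z| / (x - z) ^ 2 := by
  have hε : 0 < ε := hδ.trans hδε
  have hphi := far_ph_integrable hψ ε hε
  have hA : MeasurableSet {y : ℝ | δ < |x - y|} :=
    measurableSet_lt measurable_const (measurable_const.sub measurable_id).abs
  set b : ℝ → ℝ := Set.indicator {y : ℝ | δ < |x - y|} (fun y => (x - y)⁻¹) with hb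
  have hbm : Measurable b := (measurable_const.sub measurable_id).inv.indicator hA
  have hbb : ∀ y, |b y| ≤ δ⁻¹ := by
    intro y
    by_cases hy : δ < |x - y|
    · rw [hb, Set.indicator_of_mem (by exact hy), abs_inv]
      exact inv_anti₀ hδ hy.le
    · rw [hb, Set.indicator_of_notMem (by exact hy), abs_zero]
      exact (inv_pos.mpr hδ).le
  have hconv : Integrable (fun p : ℝ × ℝ => g p.2 * ph ψ ε (p.1 - p.2))
      ((volume : Measure ℝ).prod volume) := by
    have h := hg.convolution_integrand (ContinuousLinearMap.mul ℝ ℝ) hphi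
    simpa using h
  have hF : Integrable (fun p : ℝ × ℝ => b p.1 * (g p.2 * ph ψ ε (p.1 - p.2)))
      ((volume : Measure ℝ).prod volume) := by
    refine Integrable.mono' (hconv.norm.const_mul δ⁻¹)
      ((hbm.comp measurable_fst).aestronglyMeasurable.mul hconv.aestronglyMeasurable) ?_
    refine Filter.Eventually.of_forall fun p => ?_
    rw [norm_mul]
    exact mul_le_mul_of_nonneg_right (hbb _) (norm_nonneg _)
  set H : ℝ → ℝ := fun z => ∫ y, b y * ph ψ ε (y - z) with hH
  have htr : tr δ (mo ψ ε g) x = ∫ z, g z * H z := by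
    have h1 : tr δ (mo ψ ε g) x = ∫ y, ∫ z, b y * (g z * ph ψ ε (y - z)) := by
      unfold tr
      rw [← integral_indicator hA]
      refine integral_congr_ae (Filter.Eventually.of_forall fun y => ?_)
      simp only
      rw [integral_const_mul]
      by_cases hy : δ < |x - y|
      · rw [Set.indicator_of_mem (by exact hy), hb, Set.indicator_of_mem (by exact hy)]
        rw [div_eq_inv_mul]
        rfl
      · rw [Set.indicator_of_notMem (by exact hy), hb, Set.indicator_of_notMem (by exact hy),
          zero_mul]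
    rw [h1, integral_integral_swap hF]
    refine integral_congr_ae (Filter.Eventually.of_forall fun z => ?_)
    simp only [hH]
    rw [← integral_const_mul]
    refine integral_congr_ae (Filter.Eventually.of_forall fun y => ?_)
    simp only
    ring
  have hgH : Integrable (fun z => g z * H z) := by
    have h := hF.integral_prod_right
    refine h.congr (Filter.Eventually.of_forall fun z => ?_)
    simp only [hH]
    rw [← integral_const_mul]
    refine integral_congr_ae (Filter.Eventually.of_forall fun y => ?_)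
    simp only
    ring
  have hinvm : Measurable (fun z : ℝ => (x - z)⁻¹) := (measurable_const.sub measurable_id).inv
  have hg1 : Integrable (fun z => g z / (x - z)) := by
    refine Integrable.mono' (hg.norm.const_mul (4 * ε)⁻¹)
      (hg.aestronglyMeasurable.mul hinvm.aestronglyMeasurable) ?_
    refine Filter.Eventually.of_forall fun z => ?_
    by_cases hz : |z - x| ≤ 4 * ε
    · rw [hs z hz]; simp
    · push Not at hz
      rw [norm_div, div_eq_inv_mul]
      refine mul_le_mul_of_nonneg_right ?_ (norm_nonneg _)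
      refine inv_anti₀ (by positivity) ?_
      rw [Real.norm_eq_abs, abs_sub_comm]
      exact hz.le
  have hg2 : Integrable (fun z => |g z| / (x - z) ^ 2) := by
    refine Integrable.mono' (hg.norm.const_mul ((4 * ε) ^ 2)⁻¹)
      (hg.norm.aestronglyMeasurable.mul
        ((measurable_const.sub measurable_id).pow_const 2).inv.aestronglyMeasurable) ?_
    refine Filter.Eventually.of_forall fun z => ?_
    by_cases hz : |z - x| ≤ 4 * ε
    · rw [hs z hz]; simp
    · push Not at hz
      rw [norm_div, div_eq_inv_mul, Real.norm_eq_abs |g z|, abs_abs, Real.norm_eq_abs (g z)]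
      refine mul_le_mul_of_nonneg_right ?_ (abs_nonneg _)
      refine inv_anti₀ (by positivity) ?_
      rw [Real.norm_eq_abs, abs_pow]
      refine pow_le_pow_left₀ (by positivity) ?_ 2
      rw [abs_sub_comm]
      exact hz.le
  have hphz : ∀ z, Integrable (fun y => ph ψ ε (y - z)) := fun z => hphi.comp_sub_right z
  have hphz1 : ∀ z, ∫ y, ph ψ ε (y - z) = 1 := fun z => by
    rw [integral_sub_right_eq_self (ph ψ ε) z]
    exact far_ph_int hψ ε hε
  have hHz : ∀ z, 4 * ε < |z - x| → |H z - (x - z)⁻¹| ≤ 2 * ε / (x - z) ^ 2 := by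
    intro z hz
    have hz' : 4 * ε < |x - z| := by rwa [abs_sub_comm] at hz
    have hxz : x - z ≠ 0 := by
      intro h
      rw [h, abs_zero] at hz'
      linarith
    have hi : Integrable (fun y => b y * ph ψ ε (y - z)) := by
      refine Integrable.mono' ((hphz z).norm.const_mul δ⁻¹)
        (hbm.aestronglyMeasurable.mul (hphz z).aestronglyMeasurable) ?_
      refine Filter.Eventually.of_forall fun y => ?_
      rw [norm_mul]
      exact mul_le_mul_of_nonneg_right (hbb _) (norm_nonneg _)
    have h1 : H z - (x - z)⁻¹ = ∫ y, (b y * ph ψ ε (y - z) - (x - z)⁻¹ * ph ψ ε (y - z)) := by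
      rw [integral_sub hi ((hphz z).const_mul _), integral_const_mul, hphz1 z, mul_one]
    have h2 : 2 * ε / (x - z) ^ 2 = ∫ y, 2 * ε / (x - z) ^ 2 * ph ψ ε (y - z) := by
      rw [integral_const_mul, hphz1 z, mul_one]
    rw [h1, h2, ← Real.norm_eq_abs]
    refine norm_integral_le_of_norm_le ((hphz z).const_mul _)
      (Filter.Eventually.of_forall fun y => ?_)
    by_cases hy : ε ≤ |y - z|
    · rw [far_ph_supp hψ ε hε _ hy]; simp
    · push Not at hy
      have hp := far_ph_nonneg hψ ε hε (y - z)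
      have htri : |x - z| ≤ |x - y| + |y - z| := by
        have := abs_add_le (x - y) (y - z)
        simpa using this
      have hxy3 : 3 / 4 * |x - z| ≤ |x - y| := by linarith
      have hxyδ : δ < |x - y| := by linarith
      have hxy0 : x - y ≠ 0 := by
        intro h
        rw [h, abs_zero] at hxyδ
        linarith
      rw [← sub_mul, norm_mul, Real.norm_eq_abs, Real.norm_eq_abs, abs_of_nonneg hp]
      refine mul_le_mul_of_nonneg_right ?_ hp
      rw [hb, Set.indicator_of_mem (by exact hxyδ)]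
      have h3 : (x - y)⁻¹ - (x - z)⁻¹ = (y - z) / ((x - y) * (x - z)) := by
        field_simp
        ring
      rw [h3, abs_div, abs_mul, div_le_div_iff₀ (by positivity) (by positivity)]
      have h4 : (x - z) ^ 2 = |x - z| * |x - z| := by rw [← sq, sq_abs]
      rw [h4]
      have hxzp : 0 < |x - z| := abs_pos.mpr hxz
      have h5 : |y - z| * |x - z| ≤ ε * |x - z| := mul_le_mul_of_nonneg_right hy.le hxzp.le
      have h6 : ε * |x - z| ≤ 2 * ε * |x - y| := by nlinarith
      calc |y - z| * (|x - z| * |x - z|) = (|y - z| * |x - z|) * |x - z| := by ring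
        _ ≤ (2 * ε * |x - y|) * |x - z| := mul_le_mul_of_nonneg_right (h5.trans h6) hxzp.le
        _ = 2 * ε * (|x - y| * |x - z|) := by ring
  rw [htr, ← integral_sub hgH hg1, ← integral_const_mul, ← Real.norm_eq_abs]
  refine norm_integral_le_of_norm_le (hg2.const_mul _) (Filter.Eventually.of_forall fun z => ?_)
  by_cases hz : |z - x| ≤ 4 * ε
  · rw [hs z hz]; simp
  · push Not at hz
    have h := hHz z hz
    have h7 : g z * H z - g z / (x - z) = g z * (H z - (x - z)⁻¹) := by
      rw [div_eq_mul_inv]; ring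
    rw [h7, norm_mul, Real.norm_eq_abs, Real.norm_eq_abs]
    calc |g z| * |H z - (x - z)⁻¹| ≤ |g z| * (2 * ε / (x - z) ^ 2) :=
          mul_le_mul_of_nonneg_left h (abs_nonneg _)
      _ = 2 * ε * (|g z| / (x - z) ^ 2) := by ring

end Pool.Agent.Helper107.HB
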