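import Pool.Agent.Helper107.HBa

set_option autoImplicit false
open Filter Topology MeasureTheory

namespace Pool.Agent.Helper107.HB


/-- IsUnifLocDoublingMeasure.ae_tendsto_average_norm_sub (or the Besicovitch / VitaliFamily version) with w j = x, δ j = j, K = 1: ⨍ y in closedBall x r, ‖f y - f x‖ → 0; closedBall x r = {z | |z-x| ≤ r} has real volume 2 r, and for r ≤ 1 the indicator equals f x on it. -/
theorem leb (f : ℝ → ℝ) (hf : Measurable f) (B : ℝ) (hB : ∀ x, |f x| ≤ B) :
    ∀ᵐ x : ℝ, Tendsto (fun r : ℝ => r⁻¹ * ∫ z in {z : ℝ | |z - x| ≤ r},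
      |f z - Set.indicator {z : ℝ | |z - x| ≤ 1} (fun _ => f x) z|) (𝓝[>] 0) (𝓝 0) := by
  have hmem : MemLp f ⊤ (volume : Measure ℝ) :=
    memLp_top_of_bound hf.aestronglyMeasurable B (Filter.Eventually.of_forall (fun x => hB x))
  have hloc : LocallyIntegrable f (volume : Measure ℝ) := hmem.locallyIntegrable le_top
  have h0 := IsUnifLocDoublingMeasure.ae_tendsto_average_norm_sub (μ := (volume : Measure ℝ)) hloc 1
  filter_upwards [h0] with x hx
  have h1 := hx (l := 𝓝[>] (0 : ℝ)) (fun _ => x) (fun r => r) tendsto_id (by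
    filter_upwards [self_mem_nhdsWithin] with r hr
    rw [Metric.mem_closedBall, dist_self, one_mul]
    exact le_of_lt hr)
  have h2 := h1.const_mul 2
  rw [mul_zero] at h2
  refine h2.congr' ?_
  have hlt : ∀ᶠ r : ℝ in 𝓝[>] (0 : ℝ), r < 1 :=
    nhdsWithin_le_nhds (Iio_mem_nhds one_pos)
  filter_upwards [self_mem_nhdsWithin, hlt] with r hr hr1
  have hr0 : (0 : ℝ) < r := hr
  have hset : {z : ℝ | |z - x| ≤ r} = Metric.closedBall x r := by
    ext z
    rw [Metric.mem_closedBall, Real.dist_eq]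
    rfl
  rw [hset, setAverage_eq, Real.volume_real_closedBall hr0.le, smul_eq_mul]
  have e : ∫ z in Metric.closedBall x r, |f z - Set.indicator {z : ℝ | |z - x| ≤ 1} (fun _ => f x) z| =
      ∫ z in Metric.closedBall x r, ‖f z - f x‖ := by
    apply setIntegral_congr_fun measurableSet_closedBall
    intro z hz
    have hz2 : z ∈ {z : ℝ | |z - x| ≤ 1} := by
      rw [Metric.mem_closedBall, Real.dist_eq] at hz
      exact hz.trans hr1.le
    change |f z - Set.indicator {z : ℝ | |z - x| ≤ 1} (fun _ => f x) z| = ‖f z - f x‖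
    rw [Set.indicator_of_mem hz2]
    rfl
  rw [e]
  field_simp

end Pool.Agent.Helper107.HB
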