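import Pool.Agent.Helper107.HBa

set_option autoImplicit false
open Filter Topology MeasureTheory

namespace Pool.Agent.Helper107.HB


/-- Given η>0 choose r0>0 with ∫_{|z-x| ≤ r} h ≤ η r for 0<r ≤ r0. For |z-x| ≥ r0: ε ∫ h/(x-z)^2 ≤ ε M 2/r0 → 0. For 4ε<|z-x|<r0: layer cake 1/u^2 = 1/r0^2 + ∫_u^{r0} 2 s^{-3} ds and Tonelli: ∫_{4ε<|z-x|<r0} h/(x-z)^2 ≤ (1/r0^2) η r0 + ∫_{4ε}^{r0} 2 s^{-3} (∫_{|z-x| ≤ s} h) ds ≤ η/r0 + ∫_{4ε}^{∞} 2 η s^{-2} ds ≤ η/r0 + η/(2ε), times ε gives ≤ η (for ε ≤ r0/4). Alternative: dyadic shells 2^k 4ε < |z-x| ≤ 2^{k+1} 4ε, bound 1/(x-z)^2 by 1/(4^k 16 ε^2), finitely many shells reach r0. Any proof is fine. -/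
theorem tail (h : ℝ → ℝ) (hh : Measurable h) (M : ℝ) (h0 : ∀ z, 0 ≤ h z) (hM : ∀ z, h z ≤ M) (x : ℝ)
    (hx : Tendsto (fun r : ℝ => r⁻¹ * ∫ z in {z : ℝ | |z - x| ≤ r}, h z) (𝓝[>] 0) (𝓝 0)) :
    Tendsto (fun ε : ℝ => ε * ∫ z in {z : ℝ | 4 * ε < |z - x|}, h z / (x - z) ^ 2)
      (𝓝[>] 0) (𝓝 0) := by
  have hM0 : 0 ≤ M := (h0 0).trans (hM 0)
  obtain ⟨a, ha⟩ : ∃ a : ℝ → ℝ, ∀ r, a r = r⁻¹ * ∫ z in {z : ℝ | |z - x| ≤ r}, h z := ⟨_, fun _ => rfl⟩
  have hx' : Tendsto a (𝓝[>] 0) (𝓝 0) := by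
    have : a = fun r : ℝ => r⁻¹ * ∫ z in {z : ℝ | |z - x| ≤ r}, h z := funext ha
    rw [this]; exact hx
  have hS : ∀ r : ℝ, {z : ℝ | |z - x| ≤ r} = Set.Icc (x - r) (x + r) := by
    intro r
    ext z
    simp only [Set.mem_ofPred_eq, Set.mem_Icc, abs_le]
    constructor <;> rintro ⟨h1, h2⟩ <;> constructor <;> linarith
  have hfin : ∀ r : ℝ, volume {z : ℝ | |z - x| ≤ r} < ⊤ := by
    intro r; rw [hS]; exact measure_Icc_lt_top
  have hSm : ∀ r : ℝ, MeasurableSet {z : ℝ | |z - x| ≤ r} := by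
    intro r; rw [hS]; exact measurableSet_Icc
  have hb : ∀ z, ‖h z‖ ≤ M := fun z => by
    rw [Real.norm_eq_abs, abs_of_nonneg (h0 z)]; exact hM z
  have hint : ∀ r : ℝ, IntegrableOn h {z : ℝ | |z - x| ≤ r} := fun r =>
    Measure.integrableOn_of_bounded (M := M) (hfin r).ne hh.aestronglyMeasurable
      (Filter.Eventually.of_forall fun z => hb z)
  have hA0 : ∀ r : ℝ, 0 ≤ ∫ z in {z : ℝ | |z - x| ≤ r}, h z := fun r =>
    integral_nonneg fun z => h0 z
  have ha0 : ∀ r : ℝ, 0 < r → 0 ≤ a r := by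
    intro r hr
    rw [ha]
    exact mul_nonneg (inv_nonneg.mpr hr.le) (hA0 r)
  have haM : ∀ r : ℝ, 0 < r → a r ≤ 2 * M := by
    intro r hr
    have h1 := norm_setIntegral_le_of_norm_le_const (hfin r) (fun z _ => hb z)
    rw [Real.norm_eq_abs, abs_of_nonneg (hA0 r), hS r, Real.volume_real_Icc_of_le (by linarith)] at h1
    rw [ha, hS r, inv_mul_le_iff₀ hr]
    linarith
  -- the main bound
  have hmain : ∀ ε : ℝ, 0 < ε → ε * ∫ z in {z : ℝ | 4 * ε < |z - x|}, h z / (x - z) ^ 2 ≤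
      ∑' k : ℕ, (1 / 2 : ℝ) ^ (k + 1) * a (8 * 2 ^ k * ε) := by
    intro ε hε
    have hr : ∀ k : ℕ, 0 < 8 * (2 : ℝ) ^ k * ε := fun k => by positivity
    have hsum : Summable fun k : ℕ => (1 / 2 : ℝ) ^ (k + 1) * a (8 * 2 ^ k * ε) := by
      refine Summable.of_nonneg_of_le (fun k => mul_nonneg (by positivity) (ha0 _ (hr k)))
        (fun k => mul_le_mul_of_nonneg_left (haM _ (hr k)) (by positivity)) ?_
      apply Summable.mul_right
      simp only [pow_succ]
      exact (summable_geometric_of_lt_one (by norm_num) (by norm_num)).mul_right _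
    have hterm0 : ∀ k : ℕ, 0 ≤ (1 / 2 : ℝ) ^ (k + 1) * a (8 * 2 ^ k * ε) := fun k =>
      mul_nonneg (by positivity) (ha0 _ (hr k))
    rw [← ENNReal.ofReal_le_ofReal_iff (tsum_nonneg hterm0), ENNReal.ofReal_mul hε.le,
      ENNReal.ofReal_tsum_of_nonneg hterm0 hsum]
    have hnn : ∀ z, 0 ≤ h z / (x - z) ^ 2 := fun z => div_nonneg (h0 z) (sq_nonneg _)
    have hmeas : Measurable fun z => h z / (x - z) ^ 2 := by fun_prop
    rw [integral_eq_lintegral_of_nonneg_ae (Filter.Eventually.of_forall hnn)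
      hmeas.aestronglyMeasurable]
    refine (mul_le_mul_right ENNReal.ofReal_toReal_le _).trans ?_
    -- pointwise
    have hpt : ∀ z ∈ {z : ℝ | 4 * ε < |z - x|}, ENNReal.ofReal (h z / (x - z) ^ 2) ≤
        ∑' k : ℕ, Set.indicator {z : ℝ | |z - x| ≤ 8 * 2 ^ k * ε}
          (fun z => ENNReal.ofReal ((16 * 4 ^ k * ε ^ 2)⁻¹) * ENNReal.ofReal (h z)) z := by
      intro z hz
      have hz' : 4 * ε < |z - x| := hz
      have hex : ∃ k : ℕ, |z - x| ≤ 8 * 2 ^ k * ε := by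
        obtain ⟨k, hk⟩ := pow_unbounded_of_one_lt (|z - x| / ε) (by norm_num : (1 : ℝ) < 2)
        refine ⟨k, ?_⟩
        rw [div_lt_iff₀ hε] at hk
        have : (0 : ℝ) < 2 ^ k * ε := by positivity
        linarith
      classical
      obtain ⟨k, hk1, hk2⟩ : ∃ k : ℕ, |z - x| ≤ 8 * 2 ^ k * ε ∧ 4 * 2 ^ k * ε < |z - x| := by
        refine ⟨Nat.find hex, Nat.find_spec hex, ?_⟩
        rcases Nat.eq_zero_or_pos (Nat.find hex) with h | h
        · rw [h]; simpa using hz'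
        · have h2 := Nat.find_min hex (Nat.sub_lt h one_pos)
          rw [not_le] at h2
          have h3 : (2 : ℝ) ^ (Nat.find hex) = 2 * 2 ^ (Nat.find hex - 1) := by
            rw [← pow_succ', Nat.sub_add_cancel h]
          rw [h3]
          linarith
      refine le_trans ?_ (ENNReal.le_tsum k)
      rw [Set.indicator_of_mem (show z ∈ {z : ℝ | |z - x| ≤ 8 * 2 ^ k * ε} from hk1),
        ← ENNReal.ofReal_mul (by positivity)]
      apply ENNReal.ofReal_le_ofReal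
      rw [div_eq_inv_mul]
      apply mul_le_mul_of_nonneg_right _ (h0 z)
      apply inv_anti₀ (by positivity)
      have h4 : (x - z) ^ 2 = |z - x| ^ 2 := by rw [sq_abs]; ring
      have h5 : (16 : ℝ) * 4 ^ k * ε ^ 2 = (4 * 2 ^ k * ε) ^ 2 := by
        have : (4 : ℝ) ^ k = (2 ^ k) ^ 2 := by
          rw [← pow_mul, mul_comm, pow_mul]; norm_num
        rw [this]; ring
      rw [h4, h5]
      exact pow_le_pow_left₀ (by positivity) hk2.le 2
    have h6 : ∫⁻ z in {z : ℝ | 4 * ε < |z - x|}, ENNReal.ofReal (h z / (x - z) ^ 2) ≤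
        ∑' k : ℕ, ENNReal.ofReal ((16 * 4 ^ k * ε ^ 2)⁻¹) *
          ENNReal.ofReal (∫ z in {z : ℝ | |z - x| ≤ 8 * 2 ^ k * ε}, h z) := by
      refine (setLIntegral_mono' (measurableSet_lt measurable_const (by fun_prop)) hpt).trans ?_
      refine (setLIntegral_le_lintegral _ _).trans ?_
      rw [lintegral_tsum]
      · apply ENNReal.tsum_le_tsum
        intro k
        rw [lintegral_indicator (hSm _), lintegral_const_mul _ hh.ennreal_ofReal,
          ofReal_integral_eq_lintegral_ofReal (hint _) (Filter.Eventually.of_forall fun z => h0 z)]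
      · intro k
        exact ((hh.ennreal_ofReal.const_mul _).indicator (hSm _)).aemeasurable
    refine (mul_le_mul_right h6 _).trans (le_of_eq ?_)
    rw [← ENNReal.tsum_mul_left]
    congr 1
    funext k
    rw [← ENNReal.ofReal_mul (by positivity), ← ENNReal.ofReal_mul hε.le]
    congr 1
    rw [ha]
    have h5 : (4 : ℝ) ^ k = 2 ^ k * 2 ^ k := by
      rw [← mul_pow]; norm_num
    rw [h5, one_div, inv_pow, pow_succ]
    have h7 : (0 : ℝ) < 2 ^ k := by positivity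
    field_simp
    ring
  have hlim : Tendsto (fun ε : ℝ => ∑' k : ℕ, (1 / 2 : ℝ) ^ (k + 1) * a (8 * 2 ^ k * ε))
      (𝓝[>] 0) (𝓝 (∑' _ : ℕ, (0 : ℝ))) := by
    refine tendsto_tsum_of_dominated_convergence (bound := fun k : ℕ => (1 / 2 : ℝ) ^ (k + 1) * (2 * M))
      ?_ ?_ ?_
    · apply Summable.mul_right
      simp only [pow_succ]
      exact (summable_geometric_of_lt_one (by norm_num) (by norm_num)).mul_right _
    · intro k
      have h1 : Tendsto (fun ε : ℝ => 8 * 2 ^ k * ε) (𝓝[>] 0) (𝓝[>] 0) := by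
        apply tendsto_nhdsWithin_iff.mpr
        constructor
        · have : Tendsto (fun ε : ℝ => 8 * 2 ^ k * ε) (𝓝 0) (𝓝 (8 * 2 ^ k * 0)) :=
            (continuous_const.mul continuous_id).tendsto 0
          rw [mul_zero] at this
          exact this.mono_left nhdsWithin_le_nhds
        · filter_upwards [self_mem_nhdsWithin] with ε hε
          have : (0:ℝ) < ε := hε
          show (0:ℝ) < 8 * 2 ^ k * ε
          positivity
      have h2 := (hx'.comp h1).const_mul ((1 / 2 : ℝ) ^ (k + 1))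
      rw [mul_zero] at h2
      exact h2
    · filter_upwards [self_mem_nhdsWithin] with ε hε k
      have hε' : (0:ℝ) < ε := hε
      have hr : 0 < 8 * (2 : ℝ) ^ k * ε := by positivity
      rw [Real.norm_eq_abs, abs_of_nonneg (mul_nonneg (by positivity) (ha0 _ hr))]
      exact mul_le_mul_of_nonneg_left (haM _ hr) (by positivity)
  rw [tsum_zero] at hlim
  refine squeeze_zero' ?_ ?_ hlim
  · filter_upwards [self_mem_nhdsWithin] with ε hε
    have hε' : (0:ℝ) < ε := hε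
    exact mul_nonneg hε'.le (integral_nonneg fun z => div_nonneg (h0 z) (sq_nonneg _))
  · filter_upwards [self_mem_nhdsWithin] with ε hε
    exact hmain ε hε

end Pool.Agent.Helper107.HB
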