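import Pool.Agent.Helper107.HBa

set_option autoImplicit false
open Filter Topology MeasureTheory

namespace Pool.Agent.Helper107.HB


theorem hz_tr0 (δ x : ℝ) (F : ℝ → ℝ) (hF : ∀ y, F (2 * x - y) = F y) : tr δ F x = 0 := by
  have hS : MeasurableSet {y : ℝ | δ < |x - y|} := by
    apply IsOpen.measurableSet
    exact isOpen_lt continuous_const (by fun_prop)
  unfold tr
  rw [← integral_indicator hS]
  have h1 := integral_sub_left_eq_self
    (fun y => Set.indicator {y : ℝ | δ < |x - y|} (fun y => F y / (x - y)) y)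
    (volume : Measure ℝ) (2 * x)
  have h2 : ∀ y, Set.indicator {y : ℝ | δ < |x - y|} (fun y => F y / (x - y)) (2 * x - y)
      = - Set.indicator {y : ℝ | δ < |x - y|} (fun y => F y / (x - y)) y := by
    intro y
    have e : x - (2 * x - y) = -(x - y) := by ring
    by_cases hy : δ < |x - y|
    · rw [Set.indicator_of_mem (show (2 * x - y) ∈ {y : ℝ | δ < |x - y|} by
        change δ < |x - (2 * x - y)|
        rw [e, abs_neg]
        exact hy), Set.indicator_of_mem (show y ∈ {y : ℝ | δ < |x - y|} from hy), hF, e, div_neg]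
    · rw [Set.indicator_of_notMem (show (2 * x - y) ∉ {y : ℝ | δ < |x - y|} by
        change ¬ δ < |x - (2 * x - y)|
        rw [e, abs_neg]
        exact hy), Set.indicator_of_notMem (show y ∉ {y : ℝ | δ < |x - y|} from hy), neg_zero]
  simp only [h2, integral_neg] at h1
  linarith

theorem hz_mo {ψ : ℝ → ℝ} {P L : ℝ} (hψ : Mol ψ P L) (ε x : ℝ) (f : ℝ → ℝ)
    (hf : ∀ y, f (2 * x - y) = f y) (y : ℝ) : mo ψ ε f (2 * x - y) = mo ψ ε f y := by
  unfold mo
  rw [← integral_sub_left_eq_self (fun z => f z * ph ψ ε (2 * x - y - z)) (volume : Measure ℝ)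
    (2 * x)]
  refine integral_congr_ae (Filter.Eventually.of_forall fun z => ?_)
  change f (2 * x - z) * ph ψ ε (2 * x - y - (2 * x - z)) = f z * ph ψ ε (y - z)
  rw [hf]
  congr 1
  unfold ph
  rw [show ε⁻¹ * (2 * x - y - (2 * x - z)) = -(ε⁻¹ * (y - z)) by ring, hψ.even]

theorem hz_ind (x c : ℝ) (y : ℝ) :
    Set.indicator {z : ℝ | |z - x| ≤ 1} (fun _ => c) (2 * x - y)
      = Set.indicator {z : ℝ | |z - x| ≤ 1} (fun _ => c) y := by
  have e : |2 * x - y - x| = |y - x| := by
    rw [show 2 * x - y - x = -(y - x) by ring, abs_neg]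
  by_cases hy : |y - x| ≤ 1
  · rw [Set.indicator_of_mem (show (2 * x - y) ∈ {z : ℝ | |z - x| ≤ 1} by
      change |2 * x - y - x| ≤ 1
      rw [e]
      exact hy), Set.indicator_of_mem (show y ∈ {z : ℝ | |z - x| ≤ 1} from hy)]
  · rw [Set.indicator_of_notMem (show (2 * x - y) ∉ {z : ℝ | |z - x| ≤ 1} by
      change ¬ |2 * x - y - x| ≤ 1
      rw [e]
      exact hy), Set.indicator_of_notMem (show y ∉ {z : ℝ | |z - x| ≤ 1} from hy)]

/-- General fact: if F (2x - y) = F y for all y then tr δ F x = 0: substitute y -> 2x - y (integral_sub_left_eq_self on the indicator form of the set integral), the set is invariant and the integrand changes sign; no integrability needed (a = -a). The indicator is symmetric about x, and mo ψ ε keeps the symmetry because ψ is even (substitute z -> 2x - z in the integral). -/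
theorem tr_symm {ψ : ℝ → ℝ} {P L : ℝ} (hψ : Mol ψ P L) (ε δ : ℝ)
    (x c : ℝ) : tr δ (mo ψ ε (Set.indicator {z : ℝ | |z - x| ≤ 1} (fun _ => c))) x = 0 ∧
      tr δ (Set.indicator {z : ℝ | |z - x| ≤ 1} (fun _ => c)) x = 0 :=
  ⟨hz_tr0 δ x _ (hz_mo hψ ε x _ (hz_ind x c)), hz_tr0 δ x _ (hz_ind x c)⟩

end Pool.Agent.Helper107.HB
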