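import Pool.Agent.Helper107.HBJ1
import Pool.Agent.Helper107.HBJ2
import Pool.Agent.Helper107.HBJ3
import Pool.Agent.Helper107.HBJ4
import Pool.Agent.Helper107.HBJ5
import Pool.Agent.Helper107.HBJ6
import Pool.Agent.Helper107.HBJ7a
import Pool.Agent.Helper107.HBJ7b
import Pool.Agent.Helper107.HBJ7c

set_option autoImplicit false
open Filter Topology MeasureTheory

namespace Pool.Agent.Helper107.HB

lemma integrable_bc (f : ℝ → ℝ) (hf : Measurable f) (B : ℝ) (hB : ∀ x, |f x| ≤ B)
    (hc : HasCompactSupport f) : Integrable f := by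
  rw [← integrableOn_iff_integrable_of_support_subset (subset_tsupport f)]
  refine Measure.integrableOn_of_bounded (M := B) hc.isCompact.measure_lt_top.ne
    hf.aestronglyMeasurable (Eventually.of_forall (fun x => ?_))
  exact hB x

lemma continuous_ph {ψ : ℝ → ℝ} {P L : ℝ} (hψ : Mol ψ P L) (ε : ℝ) : Continuous (ph ψ ε) := by
  unfold ph
  exact continuous_const.mul (hψ.smooth.continuous.comp (continuous_const.mul continuous_id))

lemma ph_bound {ψ : ℝ → ℝ} {P L : ℝ} (hψ : Mol ψ P L) (ε : ℝ) (hε : 0 < ε) (u : ℝ) :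
    ‖ph ψ ε u‖ ≤ ε⁻¹ * P := by
  unfold ph
  rw [norm_mul, Real.norm_of_nonneg (inv_nonneg.2 hε.le), Real.norm_of_nonneg (hψ.nonneg _)]
  exact mul_le_mul_of_nonneg_left (hψ.bound _) (inv_nonneg.2 hε.le)

lemma integrable_ph {ψ : ℝ → ℝ} {P L : ℝ} (hψ : Mol ψ P L) (ε : ℝ) (hε : 0 < ε) :
    Integrable (ph ψ ε) := by
  refine (continuous_ph hψ ε).integrable_of_hasCompactSupport ?_
  refine HasCompactSupport.intro (K := Set.Icc (-ε) ε) isCompact_Icc (fun u hu => ?_)
  unfold ph
  rw [hψ.supp, mul_zero]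
  rw [abs_mul, abs_of_pos (inv_pos.2 hε), ← div_eq_inv_mul, le_div_iff₀ hε, one_mul]
  by_contra h
  exact hu (abs_le.1 (not_le.1 h).le)

lemma integrable_mul_ph {ψ : ℝ → ℝ} {P L : ℝ} (hψ : Mol ψ P L) (ε : ℝ) (hε : 0 < ε)
    (g : ℝ → ℝ) (hg : Integrable g) (y : ℝ) : Integrable (fun z => g z * ph ψ ε (y - z)) := by
  refine hg.mul_bdd (c := ε⁻¹ * P) ?_ (Eventually.of_forall (fun z => ph_bound hψ ε hε _))
  exact ((continuous_ph hψ ε).comp (continuous_const.sub continuous_id)).aestronglyMeasurable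

lemma mo_add {ψ : ℝ → ℝ} {P L : ℝ} (hψ : Mol ψ P L) (ε : ℝ) (hε : 0 < ε)
    (g h : ℝ → ℝ) (hg : Integrable g) (hh : Integrable h) (y : ℝ) :
    mo ψ ε (fun z => g z + h z) y = mo ψ ε g y + mo ψ ε h y := by
  unfold mo
  rw [← integral_add (integrable_mul_ph hψ ε hε g hg y) (integrable_mul_ph hψ ε hε h hh y)]
  refine integral_congr_ae (Eventually.of_forall (fun z => ?_))
  simp only
  ring

lemma integrable_mo {ψ : ℝ → ℝ} {P L : ℝ} (hψ : Mol ψ P L) (ε : ℝ) (hε : 0 < ε)
    (g : ℝ → ℝ) (hg : Integrable g) : Integrable (mo ψ ε g) := by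
  have h := hg.integrable_convolution (ContinuousLinearMap.mul ℝ ℝ) (integrable_ph hψ ε hε)
  exact h

lemma measurableSet_tr (δ x : ℝ) : MeasurableSet {y : ℝ | δ < |x - y|} :=
  measurableSet_lt measurable_const (by fun_prop)

lemma integrableOn_tr (δ : ℝ) (hδ : 0 < δ) (F : ℝ → ℝ) (hF : Integrable F) (x : ℝ) :
    IntegrableOn (fun y => F y / (x - y)) {y : ℝ | δ < |x - y|} := by
  have h1 : IntegrableOn (fun y => F y * (x - y)⁻¹) {y : ℝ | δ < |x - y|} := by
    refine Integrable.mul_bdd (c := δ⁻¹) hF.integrableOn ?_ ?_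
    · have : Measurable (fun y : ℝ => (x - y)⁻¹) := by fun_prop
      exact this.aestronglyMeasurable
    · refine (ae_restrict_iff' (measurableSet_tr δ x)).2 (Eventually.of_forall (fun y hy => ?_))
      rw [norm_inv, Real.norm_eq_abs]
      exact inv_anti₀ hδ (le_of_lt hy)
  simpa [div_eq_mul_inv] using h1

lemma tr_add (δ : ℝ) (hδ : 0 < δ) (F G : ℝ → ℝ) (hF : Integrable F) (hG : Integrable G) (x : ℝ) :
    tr δ (fun y => F y + G y) x = tr δ F x + tr δ G x := by
  unfold tr
  rw [← integral_add (integrableOn_tr δ hδ F hF x) (integrableOn_tr δ hδ G hG x)]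
  refine integral_congr_ae (Eventually.of_forall (fun z => ?_))
  simp only
  ring

/-- J8 -/
theorem conv {ψ : ℝ → ℝ} {P L : ℝ} (hψ : Mol ψ P L) (f : ℝ → ℝ) (hf : Measurable f)
    (B : ℝ) (hB : ∀ x, |f x| ≤ B) (hc : HasCompactSupport f) (x H : ℝ)
    (hx : Tendsto (fun r : ℝ => r⁻¹ * ∫ z in {z : ℝ | |z - x| ≤ r},
      |f z - Set.indicator {z : ℝ | |z - x| ≤ 1} (fun _ => f x) z|) (𝓝[>] 0) (𝓝 0))
    (hH : Tendsto (fun δ : ℝ => tr δ f x) (𝓝[>] 0) (𝓝 H))
    (h : ℝ → ℝ) (hh : ∀ ε, 0 < ε → Tendsto (fun δ : ℝ => tr δ (mo ψ ε f) x) (𝓝[>] 0) (𝓝 (h ε))) :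
    Tendsto h (𝓝[>] 0) (𝓝 H) := by
  set ind : ℝ → ℝ := Set.indicator {z : ℝ | |z - x| ≤ 1} (fun _ => f x) with hind
  set g : ℝ → ℝ := fun z => f z - ind z with hg
  have hfi := integrable_bc f hf B hB hc
  have hsm : MeasurableSet {z : ℝ | |z - x| ≤ 1} :=
    measurableSet_le (by fun_prop) measurable_const
  have hbm : ∀ r : ℝ, MeasurableSet {z : ℝ | |z - x| ≤ r} := fun r =>
    measurableSet_le (by fun_prop) measurable_const
  have hbm2 : ∀ r : ℝ, MeasurableSet {z : ℝ | r < |z - x|} := fun r =>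
    measurableSet_lt measurable_const (by fun_prop)
  have hindm : Measurable ind := measurable_const.indicator hsm
  have hindi : Integrable ind := by
    rw [hind, integrable_indicator_iff hsm]
    refine integrableOn_const (C := f x) ?_
    have : {z : ℝ | |z - x| ≤ 1} = Metric.closedBall x 1 := by
      ext z; simp [Metric.mem_closedBall, Real.dist_eq]
    rw [this]
    exact measure_closedBall_lt_top.ne
  have hgi : Integrable g := hfi.sub hindi
  have hgm : Measurable g := hf.sub hindm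
  have hB0 : 0 ≤ B := (abs_nonneg _).trans (hB x)
  have hgB : ∀ z, |g z| ≤ 2 * B := by
    intro z
    rw [hg]
    simp only
    have h1 : |ind z| ≤ B := by
      rw [hind]
      by_cases hz : z ∈ {z : ℝ | |z - x| ≤ 1}
      · rw [Set.indicator_of_mem hz]; exact hB x
      · rw [Set.indicator_of_notMem hz, abs_zero]; exact hB0
    calc |f z - ind z| ≤ |f z| + |ind z| := abs_sub _ _
      _ ≤ 2 * B := by linarith [hB z]
  -- the two error terms
  set a : ℝ → ℝ := fun ε => ε⁻¹ * ∫ z in {z : ℝ | |z - x| ≤ 4 * ε}, |g z| with ha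
  set b : ℝ → ℝ := fun ε => ε * ∫ z in {z : ℝ | 4 * ε < |z - x|}, |g z| / (x - z) ^ 2 with hb
  have h4 : Tendsto (fun ε : ℝ => 4 * ε) (𝓝[>] 0) (𝓝[>] 0) := by
    rw [tendsto_nhdsWithin_iff]
    refine ⟨?_, ?_⟩
    · have : Tendsto (fun ε : ℝ => 4 * ε) (𝓝 0) (𝓝 (4 * 0)) :=
        (continuous_const.mul continuous_id).tendsto 0
      rw [mul_zero] at this
      exact this.mono_left nhdsWithin_le_nhds
    · filter_upwards [self_mem_nhdsWithin] with ε hε
      have : (0:ℝ) < ε := hε
      show (0:ℝ) < 4 * ε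
      linarith
  have ha0 : Tendsto a (𝓝[>] 0) (𝓝 0) := by
    have h1 := (hx.comp h4).const_mul 4
    rw [mul_zero] at h1
    refine h1.congr (fun ε => ?_)
    simp only [Function.comp, ha, hg]
    rw [mul_inv, ← mul_assoc, ← mul_assoc]
    norm_num
  have hb0 : Tendsto b (𝓝[>] 0) (𝓝 0) :=
    tail (fun z => |g z|) (by fun_prop) (2 * B) (fun z => abs_nonneg _) hgB x hx
  have key : ∀ ε, 0 < ε → |h ε - tr (4 * ε) f x| ≤ 10 * L * a ε + 2 * b ε := by
    intro ε hε
    have h1 : ∀ δ, 0 < δ → δ < ε → |tr δ (mo ψ ε f) x - tr (4 * ε) f x| ≤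
        10 * L * a ε + 2 * b ε := by
      intro δ hδ hδε
      set g1 : ℝ → ℝ := Set.indicator {z : ℝ | |z - x| ≤ 4 * ε} g with hg1
      set g2 : ℝ → ℝ := Set.indicator {z : ℝ | 4 * ε < |z - x|} g with hg2
      have hg1i : Integrable g1 := hgi.indicator (hbm _)
      have hg2i : Integrable g2 := hgi.indicator (hbm2 _)
      have e0 : (fun z => g1 z + g2 z) = g := by
        ext z
        by_cases hz : |z - x| ≤ 4 * ε
        · have hz1 : z ∈ {z : ℝ | |z - x| ≤ 4 * ε} := hz
          have hz2 : z ∉ {z : ℝ | 4 * ε < |z - x|} := fun hh => (not_lt.2 hz) hh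
          rw [hg1, hg2, Set.indicator_of_mem hz1, Set.indicator_of_notMem hz2, add_zero]
        · have hz1 : z ∉ {z : ℝ | |z - x| ≤ 4 * ε} := hz
          have hz2 : z ∈ {z : ℝ | 4 * ε < |z - x|} := not_le.1 hz
          rw [hg1, hg2, Set.indicator_of_notMem hz1, Set.indicator_of_mem hz2, zero_add]
      have e1 : f = fun z => g z + ind z := by
        ext z; simp only [hg]; ring
      have e2 : mo ψ ε f = fun y => mo ψ ε g y + mo ψ ε ind y := by
        ext y
        conv_lhs => rw [e1]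
        exact mo_add hψ ε hε g ind hgi hindi y
      have e3 : mo ψ ε g = fun y => mo ψ ε g1 y + mo ψ ε g2 y := by
        ext y
        conv_lhs => rw [← e0]
        exact mo_add hψ ε hε g1 g2 hg1i hg2i y
      have e4 : tr δ (mo ψ ε f) x = tr δ (mo ψ ε g1) x + tr δ (mo ψ ε g2) x := by
        rw [e2, tr_add δ hδ _ _ (integrable_mo hψ ε hε g hgi) (integrable_mo hψ ε hε ind hindi),
          (tr_symm hψ ε δ x (f x)).1, add_zero, e3,
          tr_add δ hδ _ _ (integrable_mo hψ ε hε g1 hg1i) (integrable_mo hψ ε hε g2 hg2i)]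
      have e5 : ∫ z, g2 z / (x - z) = tr (4 * ε) f x := by
        have h5 : tr (4 * ε) f x = tr (4 * ε) g x := by
          conv_lhs => rw [e1]
          rw [tr_add (4 * ε) (by positivity) g ind hgi hindi, (tr_symm hψ ε (4 * ε) x (f x)).2,
            add_zero]
        rw [h5]
        unfold tr
        rw [← integral_indicator (measurableSet_tr _ _)]
        refine integral_congr_ae (Eventually.of_forall (fun z => ?_))
        simp only
        by_cases hz : 4 * ε < |x - z|
        · have hz1 : z ∈ {y : ℝ | 4 * ε < |x - y|} := hz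
          have hz2 : z ∈ {z : ℝ | 4 * ε < |z - x|} := by
            show 4 * ε < |z - x|
            rwa [abs_sub_comm]
          rw [Set.indicator_of_mem hz1, hg2, Set.indicator_of_mem hz2]
        · have hz1 : z ∉ {y : ℝ | 4 * ε < |x - y|} := hz
          have hz2 : z ∉ {z : ℝ | 4 * ε < |z - x|} := by
            show ¬ (4 * ε < |z - x|)
            rwa [abs_sub_comm]
          rw [Set.indicator_of_notMem hz1, hg2, Set.indicator_of_notMem hz2, zero_div]
      have n1 := near hψ ε δ hδ hδε x g1 hg1i (fun z hz => by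
        rw [hg1, Set.indicator_of_notMem]
        exact not_le.2 hz)
      have n2 := far hψ ε δ hδ hδε x g2 hg2i (fun z hz => by
        rw [hg2, Set.indicator_of_notMem]
        exact not_lt.2 hz)
      have i1 : ∫ z, |g1 z| = ∫ z in {z : ℝ | |z - x| ≤ 4 * ε}, |g z| := by
        rw [← integral_indicator (hbm _)]
        refine integral_congr_ae (Eventually.of_forall (fun z => ?_))
        simp only [hg1]
        by_cases hz : z ∈ {z : ℝ | |z - x| ≤ 4 * ε}
        · rw [Set.indicator_of_mem hz, Set.indicator_of_mem hz]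
        · rw [Set.indicator_of_notMem hz, Set.indicator_of_notMem hz, abs_zero]
      have i2 : ∫ z, |g2 z| / (x - z) ^ 2 =
          ∫ z in {z : ℝ | 4 * ε < |z - x|}, |g z| / (x - z) ^ 2 := by
        rw [← integral_indicator (hbm2 _)]
        refine integral_congr_ae (Eventually.of_forall (fun z => ?_))
        simp only [hg2]
        by_cases hz : z ∈ {z : ℝ | 4 * ε < |z - x|}
        · rw [Set.indicator_of_mem hz, Set.indicator_of_mem hz]
        · rw [Set.indicator_of_notMem hz, Set.indicator_of_notMem hz, abs_zero, zero_div]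
      rw [i1] at n1
      rw [i2, e5] at n2
      rw [e4]
      have n1' : |tr δ (mo ψ ε g1) x| ≤ 10 * L * a ε := by
        refine n1.trans (le_of_eq ?_)
        simp only [ha]; ring
      have n2' : |tr δ (mo ψ ε g2) x - tr (4 * ε) f x| ≤ 2 * b ε := by
        refine n2.trans (le_of_eq ?_)
        simp only [hb]; ring
      calc |tr δ (mo ψ ε g1) x + tr δ (mo ψ ε g2) x - tr (4 * ε) f x|
          = |tr δ (mo ψ ε g1) x + (tr δ (mo ψ ε g2) x - tr (4 * ε) f x)| := by ring_nf
        _ ≤ |tr δ (mo ψ ε g1) x| + |tr δ (mo ψ ε g2) x - tr (4 * ε) f x| := abs_add_le _ _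
        _ ≤ _ := add_le_add n1' n2'
    have h2 : Tendsto (fun δ : ℝ => |tr δ (mo ψ ε f) x - tr (4 * ε) f x|) (𝓝[>] 0)
        (𝓝 |h ε - tr (4 * ε) f x|) := ((hh ε hε).sub_const _).abs
    refine le_of_tendsto h2 ?_
    have : ∀ᶠ δ : ℝ in 𝓝[>] 0, δ < ε := nhdsWithin_le_nhds (gt_mem_nhds hε)
    filter_upwards [this, self_mem_nhdsWithin] with δ h3 h4
    exact h1 δ h4 h3
  have hlim : Tendsto (fun ε => tr (4 * ε) f x) (𝓝[>] 0) (𝓝 H) := hH.comp h4
  have hsum : Tendsto (fun ε => 10 * L * a ε + 2 * b ε) (𝓝[>] 0) (𝓝 0) := by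
    have := (ha0.const_mul (10 * L)).add (hb0.const_mul 2)
    simpa using this
  have hdiff : Tendsto (fun ε => h ε - tr (4 * ε) f x) (𝓝[>] 0) (𝓝 0) := by
    refine squeeze_zero_norm' ?_ hsum
    filter_upwards [self_mem_nhdsWithin] with ε hε
    exact key ε hε
  have := hdiff.add hlim
  simpa using this

end Pool.Agent.Helper107.HB
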