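import Pool.Agent.Helper107.HB8
import Pool.Agent.Helper107.CPz
import Pool.Agent.Helper107.CPex

set_option autoImplicit false
open Filter Topology MeasureTheory

namespace Pool.Agent.Helper107.HB

/-- the truncations are measurable in the point -/
lemma measurable_tr (δ : ℝ) (F : ℝ → ℝ) (hF : Measurable F) : Measurable (fun x => tr δ F x) := by
  have hs : MeasurableSet {p : ℝ × ℝ | δ < |p.1 - p.2|} :=
    measurableSet_lt measurable_const (by fun_prop)
  have h1 : Measurable (Set.indicator {p : ℝ × ℝ | δ < |p.1 - p.2|}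
      (fun p : ℝ × ℝ => F p.2 / (p.1 - p.2))) := by
    refine Measurable.indicator ?_ hs
    exact (hF.comp measurable_snd).div (measurable_fst.sub measurable_snd)
  have h2 := (StronglyMeasurable.integral_prod_right
    (f := fun (x : ℝ) (y : ℝ) => Set.indicator {p : ℝ × ℝ | δ < |p.1 - p.2|}
      (fun p : ℝ × ℝ => F p.2 / (p.1 - p.2)) (x, y)) (ν := volume) h1.stronglyMeasurable).measurable
  have h3 : (fun x => tr δ F x) = fun x => ∫ y, Set.indicator {p : ℝ × ℝ | δ < |p.1 - p.2|}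
      (fun p : ℝ × ℝ => F p.2 / (p.1 - p.2)) (x, y) := by
    ext x
    unfold tr
    rw [← integral_indicator (measurableSet_lt measurable_const (by fun_prop))]
    rfl
  rw [h3]
  exact h2

theorem bounded_main :
    ∀ p : ℝ, 1 < p → ∀ U : ℝ → ℝ, Measurable U → (∀ x, 0 ≤ U x) →
      (∃ C : ℝ, 0 < C ∧ ∃ ε : ℝ, 0 < ε ∧
        ∀ a b : ℝ, a < b → ∀ E : Set ℝ, MeasurableSet E → E ⊆ Set.Ioo a b →
          ∫⁻ x in E, ENNReal.ofReal (U x) ≤
            ENNReal.ofReal C * ENNReal.ofReal (((volume E).toReal / (b - a)) ^ ε) *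
              ∫⁻ x, ENNReal.ofReal ((b - a) ^ p / ((b - a) ^ p + |x - (a + b) / 2| ^ p) * U x)) →
      ∃ K : ℝ, 0 < K ∧
        ∀ f : ℝ → ℝ, Measurable f → HasCompactSupport f → (∃ B : ℝ, ∀ x, |f x| ≤ B) →
          ∀ H : ℝ → ℝ,
            (∀ᵐ x, Tendsto (fun δ : ℝ => 1 / Real.pi * ∫ y in {y : ℝ | δ < |x - y|}, f y / (x - y))
                (𝓝[>] (0 : ℝ)) (𝓝 (H x))) →
            ∫⁻ x, ENNReal.ofReal (|H x| ^ p * U x) ≤
              ENNReal.ofReal K *
                ∫⁻ x, (⨆ a : ℝ, ⨆ b : ℝ, ⨆ (_ : a < x ∧ x < b),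
                    ENNReal.ofReal ((b - a)⁻¹) * ∫⁻ y in Set.Ioo a b, ‖f y‖ₑ) ^ p
                  * ENNReal.ofReal (U x) := by
  intro p hp U hU hU0 hcond
  obtain ⟨K, hK, hmain⟩ := Pool.Agent.Helper107.CP.final Pool.Agent.Helper107.CP.excess p hp U hU
    hU0 hcond
  obtain ⟨ψ, P, L, hψ⟩ := exists_mol
  have hp0 : 0 < p := by linarith
  have hP : 0 ≤ P := (hψ.nonneg 0).trans (hψ.bound 0)
  refine ⟨K * (3 + 4 * P) ^ p, by positivity, ?_⟩
  rintro f hf hc ⟨B, hB⟩ H hH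
  have hfi := integrable_bc f hf B hB hc
  have hex : ∀ ε : ℝ, ∀ x : ℝ, ∃ h : ℝ, 0 < ε →
      Tendsto (fun δ : ℝ => tr δ (mo ψ ε f) x) (𝓝[>] 0) (𝓝 h) := by
    intro ε x
    by_cases hε : 0 < ε
    · obtain ⟨h1, h2⟩ := mo_smooth hψ ε hε f hfi hc
      obtain ⟨h, hh⟩ := pv_exists (mo ψ ε f) h1 h2 x
      exact ⟨h, fun _ => hh⟩
    · exact ⟨0, fun h => absurd h hε⟩
  choose Hh hHh using hex
  set en : ℕ → ℝ := fun n => 1 / ((n : ℝ) + 1) with hen
  have hen0 : ∀ n, 0 < en n := fun n => by rw [hen]; positivity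
  have hent : Tendsto en atTop (𝓝[>] 0) := by
    rw [tendsto_nhdsWithin_iff]
    exact ⟨tendsto_one_div_add_atTop_nhds_zero_nat, Eventually.of_forall hen0⟩
  have hmeas : ∀ n, Measurable (Hh (en n)) := by
    intro n
    obtain ⟨h1, h2⟩ := mo_smooth hψ (en n) (hen0 n) f hfi hc
    refine measurable_of_tendsto_metrizable (fun k : ℕ => measurable_tr (1 / ((k : ℝ) + 1))
      (mo ψ (en n) f) h1.continuous.measurable) (tendsto_pi_nhds.2 (fun x => ?_))
    refine (hHh (en n) x (hen0 n)).comp ?_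
    rw [tendsto_nhdsWithin_iff]
    refine ⟨tendsto_one_div_add_atTop_nhds_zero_nat, Eventually.of_forall (fun n => ?_)⟩
    show (0:ℝ) < 1 / ((n : ℝ) + 1)
    positivity
  -- almost everywhere convergence
  have hae : ∀ᵐ x : ℝ, Tendsto (fun n => Hh (en n) x) atTop (𝓝 (Real.pi * H x)) := by
    filter_upwards [hH, leb f hf B hB] with x h1 h2
    have h3 : Tendsto (fun δ : ℝ => tr δ f x) (𝓝[>] 0) (𝓝 (Real.pi * H x)) := by
      refine (h1.const_mul Real.pi).congr (fun δ => ?_)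
      unfold tr
      rw [← mul_assoc, mul_one_div_cancel Real.pi_ne_zero, one_mul]
    exact (conv hψ f hf B hB hc x _ h2 h3 (fun ε => Hh ε x) (fun ε hε => hHh ε x hε)).comp hent
  have hstep : ∀ n, ∫⁻ x, ENNReal.ofReal (|Hh (en n) x| ^ p * U x) ≤
      ENNReal.ofReal (K * (3 + 4 * P) ^ p) * ∫⁻ x, MM f x ^ p * ENNReal.ofReal (U x) := by
    intro n
    obtain ⟨h1, h2⟩ := mo_smooth hψ (en n) (hen0 n) f hfi hc
    refine (hmain (mo ψ (en n) f) h1 h2 (Hh (en n)) (fun x => hHh (en n) x (hen0 n))).trans ?_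
    have h3 : ∫⁻ x, (⨆ a : ℝ, ⨆ b : ℝ, ⨆ (_ : a < x ∧ x < b),
        ENNReal.ofReal ((b - a)⁻¹) * ∫⁻ y in Set.Ioo a b, ‖mo ψ (en n) f y‖ₑ) ^ p
          * ENNReal.ofReal (U x) ≤
        ∫⁻ x, ENNReal.ofReal ((3 + 4 * P) ^ p) * (MM f x ^ p * ENNReal.ofReal (U x)) := by
      refine lintegral_mono (fun x => ?_)
      have h4 := mo_max hψ (en n) (hen0 n) f hf B hB x
      have h5 : MM (mo ψ (en n) f) x ^ p ≤ ENNReal.ofReal ((3 + 4 * P) ^ p) * MM f x ^ p := by
        refine (ENNReal.rpow_le_rpow h4 hp0.le).trans (le_of_eq ?_)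
        rw [ENNReal.mul_rpow_of_nonneg _ _ hp0.le, ENNReal.ofReal_rpow_of_nonneg (by positivity) hp0.le]
      rw [← mul_assoc]
      exact mul_le_mul_left h5 _
    calc _ ≤ ENNReal.ofReal K * ∫⁻ x, ENNReal.ofReal ((3 + 4 * P) ^ p) *
          (MM f x ^ p * ENNReal.ofReal (U x)) := mul_le_mul_right h3 _
      _ = _ := by
        rw [lintegral_const_mul' _ _ ENNReal.ofReal_ne_top, ← mul_assoc,
          ← ENNReal.ofReal_mul hK.le]
  have hfat : ∫⁻ x, ENNReal.ofReal (|H x| ^ p * U x) ≤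
      ∫⁻ x, liminf (fun n => ENNReal.ofReal (|Hh (en n) x| ^ p * U x)) atTop := by
    refine lintegral_mono_ae ?_
    filter_upwards [hae] with x hx
    have h1 : Tendsto (fun n => ENNReal.ofReal (|Hh (en n) x| ^ p * U x)) atTop
        (𝓝 (ENNReal.ofReal (|Real.pi * H x| ^ p * U x))) := by
      refine (ENNReal.continuous_ofReal.tendsto _).comp ?_
      refine Tendsto.mul_const _ ?_
      exact hx.abs.rpow_const (Or.inr hp0.le)
    rw [h1.liminf_eq]
    refine ENNReal.ofReal_le_ofReal (mul_le_mul_of_nonneg_right ?_ (hU0 x))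
    refine Real.rpow_le_rpow (abs_nonneg _) ?_ hp0.le
    rw [abs_mul, abs_of_pos Real.pi_pos]
    have := Real.pi_gt_three
    nlinarith [abs_nonneg (H x)]
  refine hfat.trans ((lintegral_liminf_le' (fun n => ?_)).trans ?_)
  · have : Measurable (fun x => |Hh (en n) x| ^ p * U x) :=
      (((hmeas n).abs).pow_const p).mul hU
    exact this.ennreal_ofReal.aemeasurable
  · refine liminf_le_of_le (by isBoundedDefault) (fun b hb => ?_)
    obtain ⟨n, hn⟩ := hb.exists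
    exact hn.trans (hstep n)

end Pool.Agent.Helper107.HB
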