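import Pool.Agent.Helper107.HBa

set_option autoImplicit false
open Filter Topology MeasureTheory

namespace Pool.Agent.Helper107.HB


/-- Take b : ContDiffBump (0:ℝ) with rIn = 1/2, rOut = 1 and ψ = b.normed volume (ContDiffBump.contDiff_normed, nonneg_normed, normed_neg (or normed_sub/normed_add), integral_normed, tsupport/support_normed_eq, hasCompactSupport_normed); P from continuity + compact support (HasCompactSupport.exists_bound_of_continuous), L from ContDiff.lipschitzWith_of_hasCompactSupport. -/
theorem exists_mol : ∃ (ψ : ℝ → ℝ) (P L : ℝ), Mol ψ P L := by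
  let b : ContDiffBump (0 : ℝ) := ⟨1 / 2, 1, by norm_num, by norm_num⟩
  have hsm : ContDiff ℝ ((⊤ : ℕ∞) : WithTop ℕ∞) (b.normed volume) := b.contDiff_normed
  have hcs : HasCompactSupport (b.normed (volume : Measure ℝ)) := b.hasCompactSupport_normed
  obtain ⟨P, hP⟩ := hcs.exists_bound_of_continuous hsm.continuous
  obtain ⟨C, hC⟩ := hsm.lipschitzWith_of_hasCompactSupport hcs (by simp)
  refine ⟨b.normed volume, P, C, ⟨hsm, fun x => b.nonneg_normed x, fun x => b.normed_neg x, ?_,
    b.integral_normed, fun x => (le_abs_self _).trans (hP x), ?_⟩⟩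
  · intro x hx
    by_contra hne
    have hmem : x ∈ Function.support (b.normed (volume : Measure ℝ)) := hne
    rw [b.support_normed_eq] at hmem
    have h1 : dist x 0 < 1 := hmem
    rw [Real.dist_eq, sub_zero] at h1
    linarith
  · intro x y
    have := hC.dist_le_mul x y
    rwa [Real.dist_eq, Real.dist_eq] at this

end Pool.Agent.Helper107.HB
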