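import Mathlib

set_option autoImplicit false
open Filter Topology MeasureTheory

namespace Pool.Agent.Helper107.HB

/-- a standard even smooth mollifier -/
structure Mol (ψ : ℝ → ℝ) (P L : ℝ) : Prop where
  smooth : ContDiff ℝ ((⊤ : ℕ∞) : WithTop ℕ∞) ψ
  nonneg : ∀ x, 0 ≤ ψ x
  even : ∀ x, ψ (-x) = ψ x
  supp : ∀ x, 1 ≤ |x| → ψ x = 0
  int : ∫ x, ψ x = 1
  bound : ∀ x, ψ x ≤ P
  lip : ∀ x y, |ψ x - ψ y| ≤ L * |x - y|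

/-- the scaled mollifier -/
noncomputable def ph (ψ : ℝ → ℝ) (ε u : ℝ) : ℝ := ε⁻¹ * ψ (ε⁻¹ * u)

/-- the mollified function -/
noncomputable def mo (ψ : ℝ → ℝ) (ε : ℝ) (f : ℝ → ℝ) (y : ℝ) : ℝ := ∫ z, f z * ph ψ ε (y - z)

/-- the truncated Hilbert transform (without the factor 1/π) -/
noncomputable def tr (δ : ℝ) (f : ℝ → ℝ) (x : ℝ) : ℝ := ∫ y in {y : ℝ | δ < |x - y|}, f y / (x - y)

/-- the maximal function -/
noncomputable def MM (f : ℝ → ℝ) (x : ℝ) : ENNReal :=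
  ⨆ a : ℝ, ⨆ b : ℝ, ⨆ (_ : a < x ∧ x < b),
    ENNReal.ofReal ((b - a)⁻¹) * ∫⁻ y in Set.Ioo a b, ‖f y‖ₑ

end Pool.Agent.Helper107.HB
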