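import Mathlib

set_option autoImplicit false

namespace Pool.Agent.Helper107.MZ
open Finset

/-- L1 (growth of exponential sums). -/
theorem mz_growth (K : ℕ) : ∀ (s : ℕ → ℝ) (a : ℕ → ℂ) (σ : ℝ) (z : ℂ), 0 ≤ σ →
    (∀ i, i < K → 0 ≤ s i ∧ s i ≤ σ) →
    ‖∑ k ∈ range K, a k * Complex.exp ((s k : ℂ) * z)‖ ≤
      Real.exp (σ * max z.re 0) * ∑ j ∈ range K, ‖z‖ ^ j / (j.factorial : ℝ) *
        ‖∑ k ∈ range K, a k * ∏ i ∈ range j, ((s k : ℂ) - (s i : ℂ))‖ := by
  induction K with
  | zero => intro s a σ z _ _; simp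
  | succ K ih =>
    intro s a σ z hσ hs
    set m := max z.re 0 with hm
    have hm0 : 0 ≤ m := le_max_right _ _
    have hmz : z.re ≤ m := le_max_left _ _
    set G : ℕ → ℝ := fun j => ‖∑ k ∈ range (K+1), a k * ∏ i ∈ range j, ((s k : ℂ) - (s i : ℂ))‖ with hG
    -- shifted data
    set a' : ℕ → ℂ := fun k => a (k+1) * ((s (k+1) : ℂ) - (s 0 : ℂ)) with ha'
    have hG' : ∀ j, ‖∑ k ∈ range K, a' k * ∏ i ∈ range j, ((s (k+1) : ℂ) - (s (i+1) : ℂ))‖ = G (j+1) := by
      intro j
      rw [hG]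
      simp only
      rw [sum_range_succ']
      have h0 : ∏ i ∈ range (j+1), ((s 0 : ℂ) - (s i : ℂ)) = 0 := by
        rw [prod_range_succ', sub_self, mul_zero]
      rw [h0, mul_zero, add_zero]
      congr 1
      apply sum_congr rfl
      intro k _
      rw [prod_range_succ', ha']
      simp only
      ring
    -- the homotopy
    let h : ℝ → ℂ := fun t => ∑ k ∈ range (K+1), a k * Complex.exp (((s 0 : ℂ) * (1 - t) + s k * t) * z)
    let h' : ℝ → ℂ := fun t => z * Complex.exp ((s 0 : ℂ) * (1 - t) * z) *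
      ∑ k ∈ range K, a' k * Complex.exp ((s (k+1) : ℂ) * (t * z))
    have hder : ∀ t : ℝ, HasDerivAt h (h' t) t := by
      intro t
      have h1 : ∀ k ∈ range (K+1), HasDerivAt (fun t : ℝ => a k * Complex.exp (((s 0 : ℂ) * (1 - t) + s k * t) * z))
          (a k * (Complex.exp (((s 0 : ℂ) * (1 - t) + s k * t) * z) * (((s 0 : ℂ) * (0 - 1) + s k * 1) * z))) t := by
        intro k _
        have ht : HasDerivAt (fun t : ℝ => (t : ℂ)) 1 t := Complex.ofRealCLM.hasDerivAt
        exact ((((((hasDerivAt_const t (1:ℂ)).sub ht).const_mul (s 0 : ℂ)).add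
          (ht.const_mul (s k : ℂ))).mul_const z).cexp).const_mul (a k)
      have h2 := HasDerivAt.fun_sum h1
      refine h2.congr_deriv ?_
      symm
      show z * Complex.exp ((s 0 : ℂ) * (1 - t) * z) *
        ∑ k ∈ range K, a' k * Complex.exp ((s (k+1) : ℂ) * (t * z)) = _
      rw [sum_range_succ', mul_sum]
      have h0 : a 0 * (Complex.exp (((s 0 : ℂ) * (1 - t) + s 0 * t) * z) * (((s 0 : ℂ) * (0 - 1) + s 0 * 1) * z)) = 0 := by
        have : ((s 0 : ℂ) * (0 - 1) + s 0 * 1) = 0 := by ring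
        rw [this]; ring
      rw [h0, add_zero]
      apply sum_congr rfl
      intro k _
      have he : Complex.exp (((s 0 : ℂ) * (1 - t) + s (k+1) * t) * z) =
          Complex.exp ((s 0 : ℂ) * (1 - t) * z) * Complex.exp ((s (k+1) : ℂ) * (t * z)) := by
        rw [← Complex.exp_add]; congr 1; ring
      rw [he, ha']
      simp only
      ring
    let B : ℝ → ℝ := fun t => Real.exp (σ * m) * (G 0 +
      ∑ j ∈ range K, t ^ (j+1) * (‖z‖ ^ (j+1) / ((j+1).factorial : ℝ) * G (j+1)))
    let B' : ℝ → ℝ := fun t => Real.exp (σ * m) * 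
      ∑ j ∈ range K, ((j+1 : ℕ) * t ^ j) * (‖z‖ ^ (j+1) / ((j+1).factorial : ℝ) * G (j+1))
    have hBder : ∀ t : ℝ, HasDerivAt B (B' t) t := by
      intro t
      apply HasDerivAt.const_mul
      have h1 : ∀ j ∈ range K, HasDerivAt (fun t : ℝ => t ^ (j+1) * (‖z‖ ^ (j+1) / ((j+1).factorial : ℝ) * G (j+1)))
          (((j+1 : ℕ) * t ^ j) * (‖z‖ ^ (j+1) / ((j+1).factorial : ℝ) * G (j+1))) t := by
        intro j _
        have := (hasDerivAt_pow (j+1) t).mul_const (‖z‖ ^ (j+1) / ((j+1).factorial : ℝ) * G (j+1))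
        simpa using this
      exact (HasDerivAt.fun_sum h1).const_add _
    have hG0 : ∀ j, 0 ≤ G j := fun j => norm_nonneg _
    have hexp0 : ∀ r : ℝ, 0 ≤ r → r ≤ 1 → ‖Complex.exp ((s 0 : ℂ) * r * z)‖ ≤ Real.exp (σ * (r * m)) := by
      intro r hr0 hr1
      rw [Complex.norm_exp]
      apply Real.exp_le_exp.2
      have : ((s 0 : ℂ) * r * z).re = s 0 * (r * z.re) := by
        rw [← Complex.ofReal_mul, Complex.re_ofReal_mul]; ring
      rw [this]
      obtain ⟨hs0, hs1⟩ := hs 0 (by omega)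
      calc s 0 * (r * z.re) ≤ s 0 * (r * m) :=
            mul_le_mul_of_nonneg_left (mul_le_mul_of_nonneg_left hmz hr0) hs0
        _ ≤ σ * (r * m) := mul_le_mul_of_nonneg_right hs1 (mul_nonneg hr0 hm0)
    have hstart : ‖h 0‖ ≤ B 0 := by
      have e1 : h 0 = Complex.exp ((s 0 : ℂ) * (1:ℝ) * z) * ∑ k ∈ range (K+1), a k := by
        show ∑ k ∈ range (K+1), a k * Complex.exp (((s 0 : ℂ) * (1 - (0:ℝ)) + s k * (0:ℝ)) * z) = _
        rw [mul_sum]
        apply sum_congr rfl
        intro k _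
        push_cast
        rw [mul_comm (Complex.exp _)]
        congr 2
        ring
      have e2 : B 0 = Real.exp (σ * m) * G 0 := by
        show Real.exp (σ * m) * (G 0 +
          ∑ j ∈ range K, (0:ℝ) ^ (j+1) * (‖z‖ ^ (j+1) / ((j+1).factorial : ℝ) * G (j+1))) = _
        rw [sum_eq_zero, add_zero]
        intro j _
        rw [zero_pow (by omega), zero_mul]
      have e3 : G 0 = ‖∑ k ∈ range (K+1), a k‖ := by
        rw [hG]; simp
      rw [e1, e2, e3, norm_mul]
      apply mul_le_mul_of_nonneg_right _ (norm_nonneg _)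
      have := hexp0 1 (by norm_num) le_rfl
      rwa [one_mul] at this
    have hbound : ∀ t ∈ Set.Ico (0:ℝ) 1, ‖h' t‖ ≤ B' t := by
      intro t ht
      have hi := ih (fun k => s (k+1)) a' σ (t * z) hσ (fun i hi => hs (i+1) (by omega))
      have hre : max ((t:ℂ) * z).re 0 = t * m := by
        rw [Complex.re_ofReal_mul, hm, mul_max_of_nonneg _ _ ht.1, mul_zero]
      rw [hre] at hi
      have hnorm : ‖(t:ℂ) * z‖ = t * ‖z‖ := by
        rw [norm_mul, Complex.norm_real, Real.norm_of_nonneg ht.1]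
      rw [hnorm] at hi
      have hi2 : ∑ j ∈ range K, (t * ‖z‖) ^ j / (j.factorial : ℝ) *
          ‖∑ k ∈ range K, a' k * ∏ i ∈ range j, ((s (k+1) : ℂ) - (s (i+1) : ℂ))‖ =
          ∑ j ∈ range K, (t * ‖z‖) ^ j / (j.factorial : ℝ) * G (j+1) := by
        apply sum_congr rfl
        intro j _
        rw [hG']
      rw [hi2] at hi
      have h0 : ‖Complex.exp ((s 0 : ℂ) * (1 - t) * z)‖ ≤ Real.exp (σ * ((1 - t) * m)) := by
        have := hexp0 (1 - t) (by linarith [ht.2]) (by linarith [ht.1])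
        push_cast at this
        exact this
      show ‖z * Complex.exp ((s 0 : ℂ) * (1 - t) * z) *
        ∑ k ∈ range K, a' k * Complex.exp ((s (k+1) : ℂ) * (t * z))‖ ≤ _
      rw [norm_mul, norm_mul]
      calc ‖z‖ * ‖Complex.exp ((s 0 : ℂ) * (1 - t) * z)‖ *
            ‖∑ k ∈ range K, a' k * Complex.exp ((s (k+1) : ℂ) * (t * z))‖
          ≤ ‖z‖ * Real.exp (σ * ((1 - t) * m)) * (Real.exp (σ * (t * m)) *
            ∑ j ∈ range K, (t * ‖z‖) ^ j / (j.factorial : ℝ) * G (j+1)) := by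
            apply mul_le_mul _ hi (norm_nonneg _) (by positivity)
            exact mul_le_mul_of_nonneg_left h0 (norm_nonneg _)
        _ = Real.exp (σ * m) * (‖z‖ * ∑ j ∈ range K, (t * ‖z‖) ^ j / (j.factorial : ℝ) * G (j+1)) := by
            have : Real.exp (σ * m) = Real.exp (σ * ((1 - t) * m)) * Real.exp (σ * (t * m)) := by
              rw [← Real.exp_add]; congr 1; ring
            rw [this]; ring
        _ = B' t := by
            show _ = Real.exp (σ * m) * 
              ∑ j ∈ range K, ((j+1 : ℕ) * t ^ j) * (‖z‖ ^ (j+1) / ((j+1).factorial : ℝ) * G (j+1))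
            congr 1
            rw [mul_sum]
            apply sum_congr rfl
            intro j _
            rw [Nat.factorial_succ, mul_pow, pow_succ]
            push_cast
            field_simp
    have hmain := image_norm_le_of_norm_deriv_right_le_deriv_boundary
      (f := h) (f' := h') (a := 0) (b := 1) (B := B) (B' := B')
      (fun t _ => (hder t).continuousAt.continuousWithinAt)
      (fun t _ => (hder t).hasDerivWithinAt) hstart hBder hbound
      (x := 1) ⟨by norm_num, le_rfl⟩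
    have e1 : h 1 = ∑ k ∈ range (K+1), a k * Complex.exp ((s k : ℂ) * z) := by
      show ∑ k ∈ range (K+1), a k * Complex.exp (((s 0 : ℂ) * (1 - (1:ℝ)) + s k * (1:ℝ)) * z) = _
      apply sum_congr rfl
      intro k _
      push_cast
      congr 2
      ring
    have e2 : B 1 = Real.exp (σ * m) * ∑ j ∈ range (K+1), ‖z‖ ^ j / (j.factorial : ℝ) * G j := by
      show Real.exp (σ * m) * (G 0 +
        ∑ j ∈ range K, (1:ℝ) ^ (j+1) * (‖z‖ ^ (j+1) / ((j+1).factorial : ℝ) * G (j+1))) = _
      congr 1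
      rw [sum_range_succ', add_comm]
      simp
    rw [e1, e2] at hmain
    exact hmain

end Pool.Agent.Helper107.MZ
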