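import Mathlib

set_option autoImplicit false

namespace Pool.Agent.Helper107.MZ
open Finset

private lemma mz_key (a b : ℝ) (h : |a - b| ≤ Real.pi) :
    |a - b| ≤ Real.pi / 2 *
      ‖Complex.exp ((a : ℂ) * Complex.I) - Complex.exp ((b : ℂ) * Complex.I)‖ := by
  have h1 : Complex.exp ((a : ℂ) * Complex.I) - Complex.exp ((b : ℂ) * Complex.I)
      = Complex.exp ((b : ℂ) * Complex.I) *
        (Complex.exp (Complex.I * ((a - b : ℝ) : ℂ)) - 1) := by
    rw [mul_sub, mul_one, ← Complex.exp_add]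
    congr 2
    push_cast
    ring
  rw [h1, norm_mul, Complex.norm_exp_ofReal_mul_I, one_mul,
    Complex.norm_exp_I_mul_ofReal_sub_one]
  rw [Real.norm_eq_abs, abs_mul, abs_two]
  have h2 : |(a - b) / 2| ≤ Real.pi / 2 := by
    rw [abs_div, abs_two]
    linarith
  have h3 := Real.mul_abs_le_abs_sin h2
  have hpi := Real.pi_pos
  rw [abs_div, abs_two] at h3
  have h4 : |a - b| = Real.pi * (2 / Real.pi * (|a - b| / 2)) := by
    field_simp
  calc |a - b| = Real.pi * (2 / Real.pi * (|a - b| / 2)) := h4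
    _ ≤ Real.pi * |Real.sin ((a - b) / 2)| := by
        exact mul_le_mul_of_nonneg_left h3 hpi.le
    _ = Real.pi / 2 * (2 * |Real.sin ((a - b) / 2)|) := by ring

/-- Variation of the argument is at most `π/2` times the variation of the unit direction. -/
theorem mz_arg_var (L V : ℝ → ℝ) (s t : ℝ) (hst : s ≤ t) (hL : ContinuousOn L (Set.Icc s t))
    (hV : ∀ x y, s ≤ x → x ≤ y → y ≤ t →
      ‖Complex.exp ((L y : ℂ) * Complex.I) - Complex.exp ((L x : ℂ) * Complex.I)‖ ≤ V y - V x) :
    |L t - L s| ≤ Real.pi / 2 * (V t - V s) := by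
  have huc := isCompact_Icc.uniformContinuousOn_of_continuous hL
  rw [Metric.uniformContinuousOn_iff] at huc
  obtain ⟨δ, hδ, H⟩ := huc Real.pi Real.pi_pos
  obtain ⟨n, hn⟩ := exists_nat_gt ((t - s) / δ)
  have hn0 : (0 : ℝ) < (n : ℝ) + 1 := by positivity
  set x : ℕ → ℝ := fun i => s + (i : ℝ) * ((t - s) / ((n : ℝ) + 1)) with hx
  have hstep : 0 ≤ (t - s) / ((n : ℝ) + 1) := div_nonneg (by linarith) hn0.le
  have hstep2 : (t - s) / ((n : ℝ) + 1) < δ := by
    rw [div_lt_iff₀ hn0]
    rw [div_lt_iff₀ hδ] at hn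
    nlinarith
  have hx0 : x 0 = s := by simp [hx]
  have hxn : x (n + 1) = t := by
    simp only [hx]
    push_cast
    field_simp
    ring
  have hxmono : ∀ i, x i ≤ x (i + 1) := by
    intro i
    simp only [hx]
    push_cast
    nlinarith
  have hxs : ∀ i, s ≤ x i := by
    intro i
    simp only [hx]
    have : 0 ≤ (i : ℝ) * ((t - s) / ((n : ℝ) + 1)) := by positivity
    linarith
  have hxt : ∀ i, i ≤ n + 1 → x i ≤ t := by
    intro i hi
    have hm : Monotone x := monotone_nat_of_le_succ hxmono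
    calc x i ≤ x (n + 1) := hm hi
      _ = t := hxn
  have hkey : ∀ i ∈ Finset.range (n + 1), |L (x (i + 1)) - L (x i)| ≤
      Real.pi / 2 * (V (x (i + 1)) - V (x i)) := by
    intro i hi
    have hi' : i + 1 ≤ n + 1 := by
      have := Finset.mem_range.1 hi
      omega
    have hd : dist (x (i + 1)) (x i) < δ := by
      rw [Real.dist_eq]
      have : x (i + 1) - x i = (t - s) / ((n : ℝ) + 1) := by
        simp only [hx]
        push_cast
        ring
      rw [this, abs_of_nonneg hstep]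
      exact hstep2
    have h1 := H (x (i + 1)) ⟨hxs _, hxt _ hi'⟩ (x i) ⟨hxs _, hxt _ (by omega)⟩ hd
    rw [Real.dist_eq] at h1
    refine (mz_key _ _ h1.le).trans ?_
    have h2 := hV (x i) (x (i + 1)) (hxs _) (hxmono i) (hxt _ hi')
    have hpi := Real.pi_pos
    exact mul_le_mul_of_nonneg_left h2 (by positivity)
  have hsum1 : L t - L s = ∑ i ∈ Finset.range (n + 1), (L (x (i + 1)) - L (x i)) := by
    rw [Finset.sum_range_sub (fun i => L (x i)), hx0, hxn]
  have hsum2 : V t - V s = ∑ i ∈ Finset.range (n + 1), (V (x (i + 1)) - V (x i)) := by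
    rw [Finset.sum_range_sub (fun i => V (x i)), hx0, hxn]
  rw [hsum1, hsum2, Finset.mul_sum]
  exact (Finset.abs_sum_le_sum_abs _ _).trans (Finset.sum_le_sum hkey)

end Pool.Agent.Helper107.MZ
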