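import Mathlib

set_option autoImplicit false

namespace Pool.Agent.Helper107.MZ
open Finset

open Classical in
theorem mz_wlem (S : Set ℕ) (f : ℕ → ℝ) (hf : ∀ n, 0 ≤ f n) (g : ℕ → ℝ)
    (hg : ∀ p ∈ S, 0 ≤ g p) (C C0 : ℝ) (hC : 0 ≤ C) (h0 : ∀ L, ∑ n ∈ range L, f n ≤ C0)
    (hb : ∀ p ∈ S, ∀ L, ∑ n ∈ range L, (if p ≤ 2 ^ (n + 2) then f n else 0) ≤ C * g p)
    (hs : Summable (fun p : S => g (p : ℕ))) :
    Summable (fun n : ℕ =>
      ((((range (2 ^ (n + 2) + 1)).filter (fun p => p = 0 ∨ p ∈ S)).card : ℕ) : ℝ) * f n) := by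
  have hs' : Summable (S.indicator g) := summable_subtype_iff_indicator.1 hs
  refine summable_of_sum_range_le (c := C0 + C * ∑' p, S.indicator g p) ?_ ?_
  · intro n
    exact mul_nonneg (Nat.cast_nonneg _) (hf n)
  · intro L
    set F : Finset ℕ := (range (2 ^ (L + 1) + 1)).filter (fun p => p ∈ S) with hF
    have hcard : ∀ n ∈ range L,
        ((((range (2 ^ (n + 2) + 1)).filter (fun p => p = 0 ∨ p ∈ S)).card : ℕ) : ℝ) ≤
          1 + ∑ p ∈ F, (if p ≤ 2 ^ (n + 2) then (1 : ℝ) else 0) := by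
      intro n hn
      rw [mem_range] at hn
      have hsub : (range (2 ^ (n + 2) + 1)).filter (fun p => p = 0 ∨ p ∈ S) ⊆
          {0} ∪ F.filter (fun p => p ≤ 2 ^ (n + 2)) := by
        intro p hp
        rw [mem_filter, mem_range] at hp
        rw [mem_union, mem_singleton, mem_filter, hF, mem_filter, mem_range]
        rcases hp.2 with h | h
        · exact Or.inl h
        · right
          have h1 : 2 ^ (n + 2) ≤ 2 ^ (L + 1) := Nat.pow_le_pow_right (by norm_num) (by omega)
          exact ⟨⟨by omega, h⟩, by omega⟩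
      have h1 := (card_le_card hsub).trans (card_union_le _ _)
      rw [card_singleton] at h1
      have h2 : ((((range (2 ^ (n + 2) + 1)).filter (fun p => p = 0 ∨ p ∈ S)).card : ℕ) : ℝ) ≤
          1 + ((F.filter (fun p => p ≤ 2 ^ (n + 2))).card : ℝ) := by exact_mod_cast h1
      refine h2.trans (le_of_eq ?_)
      rw [← sum_filter, sum_const, nsmul_eq_mul, mul_one]
    calc ∑ n ∈ range L,
        ((((range (2 ^ (n + 2) + 1)).filter (fun p => p = 0 ∨ p ∈ S)).card : ℕ) : ℝ) * f n
        ≤ ∑ n ∈ range L, (1 + ∑ p ∈ F, (if p ≤ 2 ^ (n + 2) then (1 : ℝ) else 0)) * f n :=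
          sum_le_sum fun n hn => mul_le_mul_of_nonneg_right (hcard n hn) (hf n)
      _ = ∑ n ∈ range L, f n + ∑ p ∈ F, ∑ n ∈ range L, (if p ≤ 2 ^ (n + 2) then f n else 0) := by
          rw [sum_comm, ← sum_add_distrib]
          apply sum_congr rfl
          intro n _
          rw [add_mul, one_mul, sum_mul]
          congr 1
          apply sum_congr rfl
          intro p _
          split_ifs <;> simp
      _ ≤ C0 + ∑ p ∈ F, C * S.indicator g p := by
          apply add_le_add (h0 L)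
          apply sum_le_sum
          intro p hp
          have hpS : p ∈ S := (mem_filter.1 hp).2
          rw [Set.indicator_of_mem hpS]
          exact hb p hpS L
      _ ≤ C0 + C * ∑' p, S.indicator g p := by
          rw [← mul_sum]
          apply add_le_add le_rfl
          apply mul_le_mul_of_nonneg_left _ hC
          apply hs'.sum_le_tsum
          intro p _
          by_cases hp : p ∈ S
          · rw [Set.indicator_of_mem hp]; exact hg p hp
          · rw [Set.indicator_of_notMem hp]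

theorem mz_geo (K : ℕ) : ∑ k ∈ range K, (1 : ℝ) / 2 ^ k = 2 - 2 / 2 ^ K := by
  induction K with
  | zero => norm_num
  | succ K ih =>
    rw [sum_range_succ, ih, pow_succ]
    field_simp
    ring

theorem mz_geo2 (K : ℕ) : ∑ k ∈ range K, (k : ℝ) / 2 ^ k = 2 - (2 * K + 2) / 2 ^ K := by
  induction K with
  | zero => norm_num
  | succ K ih =>
    rw [sum_range_succ, ih, pow_succ]
    push_cast
    field_simp
    ring

/-- the sum over `n ≥ m` -/
theorem mz_tail (f : ℕ → ℝ) (hf : ∀ n, 0 ≤ f n) (m : ℕ) (a b : ℝ) (ha : 0 ≤ a) (hb : 0 ≤ b)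
    (h : ∀ k : ℕ, f (m + k) ≤ (a + b * k) / (2 ^ m * 2 ^ k)) (L : ℕ) :
    ∑ n ∈ range L, (if m ≤ n then f n else 0) ≤ (2 * a + 2 * b) / 2 ^ m := by
  rw [← sum_filter]
  have h1 : (range L).filter (fun n => m ≤ n) = Ico m L := by
    ext n
    rw [mem_filter, mem_range, mem_Ico]
    omega
  rw [h1, sum_Ico_eq_sum_range]
  have hp : (0 : ℝ) < 2 ^ m := by positivity
  calc ∑ k ∈ range (L - m), f (m + k) ≤
      ∑ k ∈ range (L - m), (a / 2 ^ m * (1 / 2 ^ k) + b / 2 ^ m * (k / 2 ^ k)) := by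
        apply sum_le_sum
        intro k _
        refine (h k).trans (le_of_eq ?_)
        field_simp
    _ = a / 2 ^ m * (2 - 2 / 2 ^ (L - m)) + b / 2 ^ m * (2 - (2 * ((L - m : ℕ) : ℝ) + 2) / 2 ^ (L - m)) := by
        rw [sum_add_distrib, ← mul_sum, ← mul_sum, mz_geo, mz_geo2]
    _ ≤ a / 2 ^ m * 2 + b / 2 ^ m * 2 := by
        apply add_le_add
        · apply mul_le_mul_of_nonneg_left _ (by positivity)
          have : (0 : ℝ) ≤ 2 / 2 ^ (L - m) := by positivity
          linarith
        · apply mul_le_mul_of_nonneg_left _ (by positivity)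
          have : (0 : ℝ) ≤ (2 * ((L - m : ℕ) : ℝ) + 2) / 2 ^ (L - m) := by positivity
          linarith
    _ = (2 * a + 2 * b) / 2 ^ m := by
        field_simp

/-- least exponent -/
theorem mz_least (p : ℕ) (hp : 0 < p) : ∃ m : ℕ, (∀ n, p ≤ 2 ^ (n + 2) ↔ m ≤ n) ∧
    (p : ℝ) ≤ 4 * 2 ^ m ∧ (m = 0 ∨ 2 ^ (m + 1) < p) := by
  have hex : ∃ m, p ≤ 2 ^ (m + 2) := ⟨p, by
    have : p < 2 ^ p := Nat.lt_two_pow_self
    have h2 : 2 ^ p ≤ 2 ^ (p + 2) := Nat.pow_le_pow_right (by norm_num) (by omega)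
    omega⟩
  refine ⟨Nat.find hex, ?_, ?_, ?_⟩
  · intro n
    constructor
    · intro h
      exact Nat.find_min' hex h
    · intro h
      exact (Nat.find_spec hex).trans (Nat.pow_le_pow_right (by norm_num) (by omega))
  · have h := Nat.find_spec hex
    have h2 : (p : ℝ) ≤ 2 ^ (Nat.find hex + 2) := by exact_mod_cast h
    rw [pow_add] at h2
    linarith
  · rcases Nat.eq_zero_or_pos (Nat.find hex) with h | h
    · exact Or.inl h
    · right
      have h2 := Nat.find_min hex (m := Nat.find hex - 1) (by omega)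
      rw [show Nat.find hex - 1 + 2 = Nat.find hex + 1 by omega] at h2
      omega

open Classical in
/-- Summability of the densities. -/
theorem mz_summ1 (S : Set ℕ) (hS : ∀ p ∈ S, 0 < p)
    (h : Summable (fun p : S => (1 : ℝ) / ((p : ℕ) : ℝ))) :
    Summable (fun n : ℕ =>
      ((((range (2 ^ (n + 2) + 1)).filter (fun p => p = 0 ∨ p ∈ S)).card : ℕ) : ℝ) / 2 ^ n) := by
  have key := mz_wlem S (fun n => 1 / 2 ^ n) (fun n => by positivity) (fun p => (1 : ℝ) / (p : ℝ))
    (fun p _ => by positivity) 8 2 (by norm_num) (fun L => by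
      rw [mz_geo]
      have : (0 : ℝ) ≤ 2 / 2 ^ L := by positivity
      linarith) (fun p hp L => by
      obtain ⟨m, h1, h2, -⟩ := mz_least p (hS p hp)
      simp only [h1]
      have h3 := mz_tail (fun n => (1 : ℝ) / 2 ^ n) (fun n => by positivity) m 1 0 (by norm_num)
        le_rfl (fun k => by rw [pow_add]; simp) L
      refine h3.trans ?_
      have hpp : (0 : ℝ) < p := by exact_mod_cast hS p hp
      rw [mul_one_div, div_le_div_iff₀ (by positivity) hpp]
      linarith) h
  refine key.congr fun n => ?_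
  rw [mul_one_div]

open Classical in
theorem mz_summ3 (S : Set ℕ) (hS : ∀ p ∈ S, 0 < p)
    (h : Summable (fun p : S => Real.log (2 + Real.log ((p : ℕ) : ℝ)) / ((p : ℕ) : ℝ))) :
    Summable (fun n : ℕ =>
      ((((range (2 ^ (n + 2) + 1)).filter (fun p => p = 0 ∨ p ∈ S)).card : ℕ) : ℝ) *
        (Real.log ((n : ℝ) + 2) / 2 ^ n)) := by
  have hl2 : 0 < Real.log 2 := Real.log_pos (by norm_num)
  have hl2' : 1 / 2 ≤ Real.log 2 := by
    have := Real.log_two_gt_d9
    linarith
  have hlogn : ∀ n : ℕ, Real.log 2 ≤ Real.log ((n : ℝ) + 2) := fun n =>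
    Real.log_le_log (by norm_num) (by linarith [Nat.cast_nonneg (α := ℝ) n])
  have hf : ∀ n : ℕ, 0 ≤ Real.log ((n : ℝ) + 2) / 2 ^ n := fun n =>
    div_nonneg (hl2.le.trans (hlogn n)) (by positivity)
  have hstep : ∀ m k : ℕ, Real.log (((m + k : ℕ) : ℝ) + 2) / 2 ^ (m + k) ≤
      (Real.log ((m : ℝ) + 2) + 1 * k) / (2 ^ m * 2 ^ k) := by
    intro m k
    rw [pow_add]
    apply div_le_div_of_nonneg_right _ (by positivity)
    have hm : (0 : ℝ) ≤ m := Nat.cast_nonneg m
    have hk : (0 : ℝ) ≤ k := Nat.cast_nonneg k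
    have e : ((m + k : ℕ) : ℝ) + 2 = ((m : ℝ) + 2) * (1 + k / ((m : ℝ) + 2)) := by
      push_cast
      field_simp
      ring
    have h1 : (0 : ℝ) < 1 + k / ((m : ℝ) + 2) := by positivity
    rw [e, Real.log_mul (by positivity) h1.ne']
    have h2 : Real.log (1 + k / ((m : ℝ) + 2)) ≤ k / ((m : ℝ) + 2) := by
      have := Real.log_le_sub_one_of_pos h1
      linarith
    have h3 : (k : ℝ) / ((m : ℝ) + 2) ≤ k := div_le_self hk (by linarith)
    linarith
  refine mz_wlem S (fun n => Real.log ((n : ℝ) + 2) / 2 ^ n) hf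
    (fun p => Real.log (2 + Real.log (p : ℝ)) / (p : ℝ)) ?_ 48 (2 * Real.log 2 + 2) (by norm_num)
    ?_ ?_ h
  · intro p hp
    have hp1 : (1 : ℝ) ≤ p := by exact_mod_cast hS p hp
    have h1 : 0 ≤ Real.log p := Real.log_nonneg hp1
    exact div_nonneg (Real.log_nonneg (by linarith)) (by linarith)
  · intro L
    have h3 := mz_tail (fun n : ℕ => Real.log ((n : ℝ) + 2) / 2 ^ n) hf 0 (Real.log 2) 1 hl2.le
      zero_le_one (fun k => by
        have := hstep 0 k
        simpa using this) L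
    simpa using h3
  · intro p hp L
    obtain ⟨m, h1, h2, h4⟩ := mz_least p (hS p hp)
    have hp1 : (1 : ℝ) ≤ p := by exact_mod_cast hS p hp
    have hpp : (0 : ℝ) < p := by linarith
    have hlp : 0 ≤ Real.log p := Real.log_nonneg hp1
    simp only [h1]
    have h3 := mz_tail (fun n : ℕ => Real.log ((n : ℝ) + 2) / 2 ^ n) hf m (Real.log ((m : ℝ) + 2)) 1
      (hl2.le.trans (hlogn m)) zero_le_one (hstep m) L
    refine h3.trans ?_
    have h5 : Real.log ((m : ℝ) + 2) ≤ 2 * Real.log (2 + Real.log p) := by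
      rcases h4 with h4 | h4
      · rw [h4]
        have h6 : Real.log 2 ≤ Real.log (2 + Real.log p) :=
          Real.log_le_log (by norm_num) (by linarith)
        norm_num
        linarith
      · have h6 : (2 : ℝ) ^ (m + 1) ≤ p := by exact_mod_cast h4.le
        have h7 : ((m : ℝ) + 1) * Real.log 2 ≤ Real.log p := by
          have := Real.log_le_log (by positivity) h6
          rw [Real.log_pow] at this
          push_cast at this
          exact this
        have hm : (0 : ℝ) ≤ m := Nat.cast_nonneg m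
        have h8 : (m : ℝ) + 2 ≤ (2 + Real.log p) ^ 2 := by nlinarith
        have h9 := Real.log_le_log (by positivity) h8
        rw [Real.log_pow] at h9
        push_cast at h9
        exact h9
    have h6 : 2 * Real.log ((m : ℝ) + 2) + 2 * 1 ≤ 12 * Real.log (2 + Real.log p) := by
      have := hlogn m
      linarith
    rw [← mul_div_assoc, div_le_div_iff₀ (by positivity) hpp]
    have h7 : 0 ≤ 12 * Real.log (2 + Real.log p) := by
      have := hlogn m
      linarith
    calc (2 * Real.log ((m : ℝ) + 2) + 2 * 1) * p ≤ (12 * Real.log (2 + Real.log p)) * (4 * 2 ^ m) :=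
          mul_le_mul h6 h2 hpp.le h7
      _ = 48 * Real.log (2 + Real.log p) * 2 ^ m := by ring

theorem mz_log_sqrt (y : ℝ) (hy : 0 ≤ y) : Real.log (1 + y) ≤ 2 * √y := by
  have h1 : 0 < √(1 + y) := Real.sqrt_pos.2 (by linarith)
  have h2 := Real.log_le_sub_one_of_pos h1
  rw [Real.log_sqrt (by linarith)] at h2
  have h3 : √(1 + y) ≤ 1 + √y := by
    rw [Real.sqrt_le_left (by positivity)]
    have := Real.sq_sqrt hy
    have := Real.sqrt_nonneg y
    nlinarith
  linarith

open Classical in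
/-- Summability of the densities with the logarithm. -/
theorem mz_summ2 (S : Set ℕ) (hS : ∀ p ∈ S, 0 < p)
    (h : Summable (fun p : S => Real.log (2 + Real.log ((p : ℕ) : ℝ)) / ((p : ℕ) : ℝ))) :
    Summable (fun n : ℕ =>
      ((((range (2 ^ (n + 2) + 1)).filter (fun p => p = 0 ∨ p ∈ S)).card : ℕ) : ℝ) / 2 ^ n *
        Real.log (1 + Real.pi * 2 ^ (n + 1) /
          ((((range (2 ^ (n + 2) + 1)).filter (fun p => p = 0 ∨ p ∈ S)).card : ℕ) : ℝ))) := by
  have h3 := mz_summ3 S hS h
  have h4 : Summable (fun n : ℕ => 1 / ((n : ℝ) + 2) ^ 2) := by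
    have h5 : Summable (fun n : ℕ => 1 / ((n : ℝ)) ^ 2) :=
      Real.summable_one_div_nat_pow.2 (by norm_num)
    have h6 := (summable_nat_add_iff 2).2 h5
    refine h6.congr fun n => ?_
    push_cast
    rfl
  have hpi := Real.pi_pos
  have hpi2 := Real.pi_lt_d2
  have hl2 : 0 < Real.log 2 := Real.log_pos (by norm_num)
  refine Summable.of_nonneg_of_le ?_ ?_ ((h3.mul_left 7).add (h4.mul_left 6))
  · intro n
    apply mul_nonneg (by positivity)
    apply Real.log_nonneg
    have : 0 ≤ Real.pi * 2 ^ (n + 1) /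
          ((((range (2 ^ (n + 2) + 1)).filter (fun p => p = 0 ∨ p ∈ S)).card : ℕ) : ℝ) := by
      positivity
    linarith
  · intro n
    have hR : 0 < ((range (2 ^ (n + 2) + 1)).filter (fun p => p = 0 ∨ p ∈ S)).card := by
      apply card_pos.2
      exact ⟨0, mem_filter.2 ⟨mem_range.2 (Nat.succ_pos _), Or.inl rfl⟩⟩
    generalize ((range (2 ^ (n + 2) + 1)).filter (fun p => p = 0 ∨ p ∈ S)).card = R at hR
    have hRp : (0 : ℝ) < R := by exact_mod_cast hR
    set ρ : ℝ := (R : ℝ) / 2 ^ n with hρ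
    have hρp : 0 < ρ := by positivity
    have e1 : Real.pi * 2 ^ (n + 1) / (R : ℝ) = 2 * Real.pi / ρ := by
      rw [hρ, pow_succ]
      field_simp
    have e2 : (R : ℝ) * (Real.log ((n : ℝ) + 2) / 2 ^ n) = ρ * Real.log ((n : ℝ) + 2) := by
      rw [hρ]; ring
    rw [e1, e2]
    have hn : (0 : ℝ) ≤ n := Nat.cast_nonneg n
    have hn2 : (0 : ℝ) < (n : ℝ) + 2 := by linarith
    have hlog : Real.log 2 ≤ Real.log ((n : ℝ) + 2) := Real.log_le_log (by norm_num) (by linarith)
    rcases le_or_gt (1 / ((n : ℝ) + 2) ^ 4) ρ with hc | hc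
    · have h5 : 1 + 2 * Real.pi / ρ ≤ 8 * ((n : ℝ) + 2) ^ 4 := by
        have h6 : 1 / ρ ≤ ((n : ℝ) + 2) ^ 4 := by
          rw [div_le_iff₀ hρp]
          rw [div_le_iff₀ (by positivity)] at hc
          linarith
        have h7 : 2 * Real.pi / ρ = 2 * Real.pi * (1 / ρ) := by ring
        have h8 : 2 * Real.pi * (1 / ρ) ≤ 2 * Real.pi * ((n : ℝ) + 2) ^ 4 :=
          mul_le_mul_of_nonneg_left h6 (by positivity)
        have h9 : (1 : ℝ) ≤ ((n : ℝ) + 2) ^ 4 := one_le_pow₀ (by linarith)
        rw [h7]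
        nlinarith
      have h10 : Real.log (1 + 2 * Real.pi / ρ) ≤ 7 * Real.log ((n : ℝ) + 2) := by
        have h11 := Real.log_le_log (by positivity) h5
        rw [Real.log_mul (by norm_num) (by positivity), Real.log_pow] at h11
        have h12 : Real.log 8 = 3 * Real.log 2 := by
          rw [show (8 : ℝ) = 2 ^ 3 by norm_num, Real.log_pow]; norm_num
        rw [h12] at h11
        push_cast at h11
        linarith
      have h13 := mul_le_mul_of_nonneg_left h10 hρp.le
      have h14 : (0 : ℝ) ≤ 6 * (1 / ((n : ℝ) + 2) ^ 2) := by positivity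
      linarith
    · have h5 := mz_log_sqrt (2 * Real.pi / ρ) (by positivity)
      have h6 := mul_le_mul_of_nonneg_left h5 hρp.le
      have h7 : ρ * √(2 * Real.pi / ρ) = √(2 * Real.pi * ρ) := by
        have : 2 * Real.pi * ρ = ρ ^ 2 * (2 * Real.pi / ρ) := by
          field_simp
        rw [this, Real.sqrt_mul (by positivity), Real.sqrt_sq hρp.le]
      have h8 : √(2 * Real.pi * ρ) ≤ 3 * (1 / ((n : ℝ) + 2) ^ 2) := by
        rw [Real.sqrt_le_left (by positivity)]
        have e3 : (3 * (1 / ((n : ℝ) + 2) ^ 2)) ^ 2 = 9 * (1 / ((n : ℝ) + 2) ^ 4) := by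
          field_simp
          try norm_num
        rw [e3]
        have h9 : 2 * Real.pi ≤ 9 := by linarith
        exact mul_le_mul h9 hc.le hρp.le (by norm_num)
      have h14 : 0 ≤ 7 * (ρ * Real.log ((n : ℝ) + 2)) := by
        have : 0 ≤ Real.log ((n : ℝ) + 2) := hl2.le.trans hlog
        positivity
      have h15 : ρ * (2 * √(2 * Real.pi / ρ)) = 2 * (ρ * √(2 * Real.pi / ρ)) := by ring
      rw [h15, h7] at h6
      linarith

end Pool.Agent.Helper107.MZ
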