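import Mathlib

set_option autoImplicit false

namespace Pool.Agent.Helper107.MZ
open Finset

theorem mz_log_aux (F : ℝ → ℂ) (hF : Continuous F) (a b : ℝ) (hab : a < b)
    (hinj : Set.InjOn F (Set.Icc a b)) :
    ∃ (a1 b1 : ℝ) (L : ℝ → ℂ), a ≤ a1 ∧ a1 < b1 ∧ b1 ≤ b ∧ Continuous L ∧
      ∀ t ∈ Set.Icc a1 b1, Complex.exp (L t) = F t := by
  obtain ⟨a1, ha1, hb, hne⟩ : ∃ a1, a ≤ a1 ∧ a1 < b ∧ F a1 ≠ 0 := by
    by_cases h : F a = 0
    · refine ⟨(a + b) / 2, by linarith, by linarith, ?_⟩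
      intro h2
      have := hinj (⟨le_rfl, hab.le⟩ : a ∈ Set.Icc a b)
        (⟨by linarith, by linarith⟩ : (a + b) / 2 ∈ Set.Icc a b) (by rw [h, h2])
      linarith
    · exact ⟨a, le_rfl, hab, h⟩
  have hopen : IsOpen {t | F t ≠ 0} := isOpen_ne_fun hF continuous_const
  obtain ⟨δ, hδ, hball⟩ := Metric.isOpen_iff.mp hopen a1 hne
  set b1 := min b (a1 + δ / 2) with hb1
  have hab1 : a1 < b1 := lt_min hb (by linarith)
  have hnz : ∀ t ∈ Set.Icc a1 b1, F t ≠ 0 := by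
    intro t ht
    apply hball
    rw [Metric.mem_ball, Real.dist_eq, abs_lt]
    have := min_le_right b (a1 + δ / 2)
    constructor <;> linarith [ht.1, ht.2]
  have hproj : ∀ t, max a1 (min b1 t) ∈ Set.Icc a1 b1 :=
    fun t => ⟨le_max_left _ _, max_le hab1.le (min_le_left _ _)⟩
  have hGc : Continuous (fun t => F (max a1 (min b1 t))) :=
    hF.comp (continuous_const.max (continuous_const.min continuous_id))
  have hsc : IsSimplyConnected (Set.univ : Set ℝ) := by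
    haveI : ContractibleSpace (Set.univ : Set ℝ) :=
      (convex_univ : Convex ℝ (Set.univ : Set ℝ)).contractibleSpace ⟨0, trivial⟩
    show SimplyConnectedSpace (Set.univ : Set ℝ)
    infer_instance
  obtain ⟨L, hLc, hL⟩ := Complex.exists_continuousOn_eqOn_exp_comp hsc isOpen_univ
    (g := fun t => F (max a1 (min b1 t))) hGc.continuousOn (by
      rintro ⟨t, -, ht⟩
      exact hnz _ (hproj t) ht)
  refine ⟨a1, b1, L, ha1, hab1, min_le_left _ _, continuousOn_univ.mp hLc, ?_⟩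
  intro t ht
  have := hL (Set.mem_univ t)
  simp only [Function.comp] at this
  rw [this, min_eq_right ht.2, max_eq_right ht.1]

theorem mz_dir_aux (u v : ℂ) (m : ℝ) (hm : 0 < m) (hu : m ≤ ‖u‖) (hv : 0 < ‖v‖) :
    ‖u / ‖u‖ - v / ‖v‖‖ ≤ 2 / m * ‖u - v‖ := by
  have hu0 : 0 < ‖u‖ := lt_of_lt_of_le hm hu
  have hun : ((‖u‖ : ℝ) : ℂ) ≠ 0 := by exact_mod_cast hu0.ne'
  have hvn : ((‖v‖ : ℝ) : ℂ) ≠ 0 := by exact_mod_cast hv.ne'
  have h1 : u / ‖u‖ - v / ‖v‖ = (u - v) / ‖u‖ + v * (((‖v‖ - ‖u‖ : ℝ) : ℂ) / (‖u‖ * ‖v‖)) := by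
    push_cast
    field_simp
    ring
  rw [h1]
  refine (norm_add_le _ _).trans ?_
  rw [norm_div, norm_mul, norm_div, norm_mul, Complex.norm_real, Complex.norm_real,
    Complex.norm_real, norm_norm, norm_norm, Real.norm_eq_abs]
  have h2 : ‖v‖ * (|‖v‖ - ‖u‖| / (‖u‖ * ‖v‖)) = |‖v‖ - ‖u‖| / ‖u‖ := by field_simp
  rw [h2]
  have h3 : |‖v‖ - ‖u‖| ≤ ‖u - v‖ := by
    rw [abs_sub_comm]; exact abs_norm_sub_norm_le u v
  have h4 : ‖u - v‖ / ‖u‖ ≤ ‖u - v‖ / m := div_le_div_of_nonneg_left (norm_nonneg _) hm hu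
  have h5 : |‖v‖ - ‖u‖| / ‖u‖ ≤ ‖u - v‖ / m :=
    (div_le_div_of_nonneg_right h3 hu0.le).trans h4
  calc ‖u - v‖ / ‖u‖ + |‖v‖ - ‖u‖| / ‖u‖ ≤ ‖u - v‖ / m + ‖u - v‖ / m := add_le_add h4 h5
    _ = 2 / m * ‖u - v‖ := by ring

/-- `mz_arg_var` is an already proved lemma (do not prove it here, just use it). -/
theorem mz_to_path
    (mz_arg_var : ∀ (L V : ℝ → ℝ) (s t : ℝ) (_ : s ≤ t) (_ : ContinuousOn L (Set.Icc s t))
      (_ : ∀ x y, s ≤ x → x ≤ y → y ≤ t →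
        ‖Complex.exp ((L y : ℂ) * Complex.I) - Complex.exp ((L x : ℂ) * Complex.I)‖ ≤ V y - V x),
      |L t - L s| ≤ Real.pi / 2 * (V t - V s))
    (F : ℝ → ℂ) (hF : Continuous F) (a b : ℝ) (hab : a < b) (hinj : Set.InjOn F (Set.Icc a b)) :
    (∃ r x y : ℝ, 0 < r ∧ x < y ∧ ∀ θ ∈ Set.Icc x y, ∃ t ∈ Set.Icc a b,
      F t = (r : ℂ) * Complex.exp ((θ : ℂ) * Complex.I)) ∨
    (∃ (γ : ℝ → ℂ) (t₀ t₁ : ℝ), t₀ < t₁ ∧ Continuous γ ∧ (γ t₀).re < (γ t₁).re ∧
      Set.InjOn (fun t => Complex.exp (γ t)) (Set.Icc t₀ t₁) ∧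
      (∀ t ∈ Set.Icc t₀ t₁, ∃ s ∈ Set.Icc a b, F s = Complex.exp (γ t)) ∧
      ((∃ V : ℝ → ℝ, (∀ s t, a ≤ s → s ≤ t → t ≤ b → ‖F t - F s‖ ≤ V t - V s) ∨
          (∀ s t, a ≤ s → s ≤ t → t ≤ b → ‖F t / ‖F t‖ - F s / ‖F s‖‖ ≤ V t - V s)) →
        ∃ V' : ℝ → ℝ, ∀ s t, t₀ ≤ s → s ≤ t → t ≤ t₁ → |(γ t).im - (γ s).im| ≤ V' t - V' s)) := by
  obtain ⟨a1, b1, L, ha1, hab1, hb1, hLc, hL⟩ := mz_log_aux F hF a b hab hinj
  have hsub : Set.Icc a1 b1 ⊆ Set.Icc a b := Set.Icc_subset_Icc ha1 hb1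
  have hLim : Continuous (fun t => (L t).im) := Complex.continuous_im.comp hLc
  have hinj1 : Set.InjOn (fun t => Complex.exp (L t)) (Set.Icc a1 b1) := by
    intro s hs t ht hst
    simp only [hL s hs, hL t ht] at hst
    exact hinj (hsub hs) (hsub ht) hst
  have hnorm : ∀ t ∈ Set.Icc a1 b1, ‖F t‖ = Real.exp (L t).re := by
    intro t ht
    rw [← hL t ht, Complex.norm_exp]
  have hdec : ∀ t, Complex.exp (L t)
      = ((Real.exp (L t).re : ℝ) : ℂ) * Complex.exp (((L t).im : ℂ) * Complex.I) := by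
    intro t
    rw [Complex.ofReal_exp, ← Complex.exp_add, Complex.re_add_im]
  have hdir : ∀ t ∈ Set.Icc a1 b1, F t / ‖F t‖ = Complex.exp (((L t).im : ℂ) * Complex.I) := by
    intro t ht
    rw [hnorm t ht, ← hL t ht, hdec t]
    have : ((Real.exp (L t).re : ℝ) : ℂ) ≠ 0 := by
      exact_mod_cast (Real.exp_pos _).ne'
    field_simp
  by_cases hcase : ∀ t ∈ Set.Icc a1 b1, (L t).re = (L a1).re
  · left
    have ha1m : a1 ∈ Set.Icc a1 b1 := ⟨le_rfl, hab1.le⟩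
    have hb1m : b1 ∈ Set.Icc a1 b1 := ⟨hab1.le, le_rfl⟩
    have hne : (L a1).im ≠ (L b1).im := by
      intro h
      have : L a1 = L b1 := Complex.ext (hcase b1 hb1m).symm h
      have := hinj1 ha1m hb1m (by simp only [this])
      linarith
    refine ⟨Real.exp (L a1).re, min (L a1).im (L b1).im, max (L a1).im (L b1).im, Real.exp_pos _,
      min_lt_max.mpr hne, ?_⟩
    intro θ hθ
    have hiv := intermediate_value_uIcc (a := a1) (b := b1) (f := fun t => (L t).im)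
      hLim.continuousOn
    have hθ' : θ ∈ Set.uIcc (L a1).im (L b1).im := hθ
    obtain ⟨t, ht, htθ⟩ := hiv hθ'
    rw [Set.uIcc_of_le hab1.le] at ht
    refine ⟨t, hsub ht, ?_⟩
    rw [← hL t ht, hdec t, hcase t ht]
    simp only at htθ
    rw [htθ]
  · right
    push Not at hcase
    obtain ⟨t', ht', hne'⟩ := hcase
    have hat : a1 < t' := by
      rcases ht'.1.lt_or_eq with h | h
      · exact h
      · exact absurd (by rw [h]) hne'
    -- variation bound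
    have hvar : ((∃ V : ℝ → ℝ, (∀ s t, a ≤ s → s ≤ t → t ≤ b → ‖F t - F s‖ ≤ V t - V s) ∨
          (∀ s t, a ≤ s → s ≤ t → t ≤ b → ‖F t / ‖F t‖ - F s / ‖F s‖‖ ≤ V t - V s)) →
        ∃ V' : ℝ → ℝ, ∀ s t, a1 ≤ s → s ≤ t → t ≤ b1 → |(L t).im - (L s).im| ≤ V' t - V' s) := by
      rintro ⟨V, hV⟩
      obtain ⟨V1, hV1⟩ : ∃ V1 : ℝ → ℝ, ∀ s t, a1 ≤ s → s ≤ t → t ≤ b1 →
          ‖Complex.exp (((L t).im : ℂ) * Complex.I) - Complex.exp (((L s).im : ℂ) * Complex.I)‖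
            ≤ V1 t - V1 s := by
        rcases hV with hV | hV
        · obtain ⟨t0, ht0, hmin⟩ := isCompact_Icc.exists_isMinOn
            (⟨a1, le_rfl, hab1.le⟩ : (Set.Icc a1 b1).Nonempty) hF.norm.continuousOn
          have hm : 0 < ‖F t0‖ := by rw [hnorm t0 ht0]; exact Real.exp_pos _
          refine ⟨fun t => 2 / ‖F t0‖ * V t, ?_⟩
          intro s t h1 h2 h3
          have hsm : s ∈ Set.Icc a1 b1 := ⟨h1, h2.trans h3⟩
          have htm : t ∈ Set.Icc a1 b1 := ⟨h1.trans h2, h3⟩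
          rw [← hdir s hsm, ← hdir t htm]
          refine (mz_dir_aux (F t) (F s) ‖F t0‖ hm (hmin htm)
            (lt_of_lt_of_le hm (hmin hsm))).trans ?_
          have := hV s t (ha1.trans h1) h2 (h3.trans hb1)
          have h4 := mul_le_mul_of_nonneg_left this (by positivity : 0 ≤ 2 / ‖F t0‖)
          linarith
        · refine ⟨V, ?_⟩
          intro s t h1 h2 h3
          have hsm : s ∈ Set.Icc a1 b1 := ⟨h1, h2.trans h3⟩
          have htm : t ∈ Set.Icc a1 b1 := ⟨h1.trans h2, h3⟩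
          rw [← hdir s hsm, ← hdir t htm]
          exact hV s t (ha1.trans h1) h2 (h3.trans hb1)
      refine ⟨fun t => Real.pi / 2 * V1 t, ?_⟩
      intro s t h1 h2 h3
      have := mz_arg_var (fun t => (L t).im) V1 s t h2 hLim.continuousOn (by
        intro x y hx hxy hy
        exact hV1 x y (h1.trans hx) hxy (hy.trans h3))
      linarith
    rcases lt_or_gt_of_ne hne' with hlt | hlt
    · -- reversed
      refine ⟨fun x => L (-x), -t', -a1, by linarith, hLc.comp continuous_neg, by simpa using hlt,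
        ?_, ?_, ?_⟩
      · intro s hs t ht hst
        have hs' : -s ∈ Set.Icc a1 b1 := ⟨by linarith [hs.2], by linarith [hs.1, ht'.2]⟩
        have ht'' : -t ∈ Set.Icc a1 b1 := ⟨by linarith [ht.2], by linarith [ht.1, ht'.2]⟩
        have := hinj1 hs' ht'' hst
        linarith
      · intro t ht
        have ht'' : -t ∈ Set.Icc a1 b1 := ⟨by linarith [ht.2], by linarith [ht.1, ht'.2]⟩
        exact ⟨-t, hsub ht'', (hL _ ht'').symm⟩
      · intro hV
        obtain ⟨V', hV'⟩ := hvar hV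
        refine ⟨fun x => -(V' (-x)), ?_⟩
        intro s t h1 h2 h3
        have := hV' (-t) (-s) (by linarith) (by linarith) (by linarith [ht'.2])
        rw [abs_sub_comm] at this
        simp only
        linarith
    · refine ⟨L, a1, t', hat, hLc, hlt, ?_, ?_, ?_⟩
      · intro s hs t ht hst
        have hs' : s ∈ Set.Icc a1 b1 := ⟨hs.1, by linarith [hs.2, ht'.2]⟩
        have ht'' : t ∈ Set.Icc a1 b1 := ⟨ht.1, by linarith [ht.2, ht'.2]⟩
        exact hinj1 hs' ht'' hst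
      · intro t ht
        have ht'' : t ∈ Set.Icc a1 b1 := ⟨ht.1, by linarith [ht.2, ht'.2]⟩
        exact ⟨t, hsub ht'', (hL _ ht'').symm⟩
      · intro hV
        obtain ⟨V', hV'⟩ := hvar hV
        exact ⟨V', fun s t h1 h2 h3 => hV' s t h1 h2 (h3.trans ht'.2)⟩

end Pool.Agent.Helper107.MZ
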