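import Mathlib

set_option autoImplicit false

namespace Pool.Agent.Helper107.MZ
open Finset

/-- Circular arcs: the constant term is controlled.  The two hypotheses are already proved lemmas
(do not prove them here, just use them). -/
theorem mz_circ_core
    (mz_circle : ∀ (Q : Finset ℕ) (_ : ∀ p ∈ Q, 0 < p) (P : Finset ℕ) (a : ℕ → ℂ) (x y A : ℝ)
      (_ : ∀ θ : ℝ, x ≤ θ → θ ≤ y → ‖∑ p ∈ P, a p * Complex.exp ((p : ℂ) * (θ : ℂ) * Complex.I)‖ ≤ A),
      ∃ a' : ℕ → ℂ, a' 0 = a 0 ∧ (∀ p ∈ Q, a' p = 0) ∧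
        ∀ θ : ℝ, x ≤ θ → θ ≤ y - ∑ p ∈ Q, Real.pi / (p : ℝ) →
          ‖∑ p ∈ P, a' p * Complex.exp ((p : ℂ) * (θ : ℂ) * Complex.I)‖ ≤ A)
    (mz_const : ∀ (d : ℕ) (W : Set ℂ) (_ : W.Infinite),
      ∃ C : ℝ, 0 < C ∧ ∀ (P : Finset ℕ) (a : ℕ → ℂ) (A : ℝ), (∀ p ∈ P, p ≤ d) → 0 ∈ P →
        (∀ w ∈ W, ‖∑ p ∈ P, a p * w ^ p‖ ≤ A) → ‖a 0‖ ≤ C * A)
    (S : Set ℕ) (hS : ∀ p ∈ S, 0 < p) (h : Summable (fun p : S => (1 : ℝ) / ((p : ℕ) : ℝ)))
    (r x y : ℝ) (hr : 0 < r) (hxy : x < y) :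
    ∃ C : ℝ, 0 < C ∧ ∀ (P : Finset ℕ) (a : ℕ → ℂ) (A : ℝ), (∀ p ∈ P, p = 0 ∨ p ∈ S) → 0 ∈ P →
      (∀ θ ∈ Set.Icc x y, ‖∑ p ∈ P, a p * ((r : ℂ) * Complex.exp ((θ : ℂ) * Complex.I)) ^ p‖ ≤ A) →
      ‖a 0‖ ≤ C * A := by
  classical
  set L := y - x with hL
  have hL0 : 0 < L := sub_pos.mpr hxy
  have hpi := Real.pi_pos
  obtain ⟨T0, hT0⟩ := summable_iff_vanishing_norm.mp h (L / (2 * Real.pi)) (by positivity)
  set p0 := (T0.image Subtype.val).sup id + 1 with hp0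
  have hT0' : ∀ z ∈ T0, (z : ℕ) < p0 := by
    intro z hz
    have : id (z : ℕ) ≤ (T0.image Subtype.val).sup id :=
      Finset.le_sup (Finset.mem_image_of_mem _ hz)
    rw [hp0]; simp only [id] at this; exact Nat.lt_succ_of_le this
  have hQsum : ∀ Q : Finset ℕ, (∀ p ∈ Q, p ∈ S) → (∀ p ∈ Q, p0 ≤ p) →
      ∑ p ∈ Q, Real.pi / (p : ℝ) ≤ L / 2 := by
    intro Q hQS hQp
    have h1 := hT0 (Q.subtype (· ∈ S)) (by
      rw [Finset.disjoint_left]
      intro z hz hz'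
      have h2 := hQp z (Finset.mem_subtype.mp hz)
      have h3 := hT0' z hz'
      omega)
    rw [Finset.sum_subtype_of_mem (fun p : ℕ => (1 : ℝ) / (p : ℝ)) hQS] at h1
    have h2 : ∑ p ∈ Q, Real.pi / (p : ℝ) = Real.pi * ∑ p ∈ Q, (1 : ℝ) / (p : ℝ) := by
      rw [Finset.mul_sum]
      refine Finset.sum_congr rfl fun p _ => ?_
      rw [mul_one_div]
    rw [h2]
    have h3 : ∑ p ∈ Q, (1 : ℝ) / (p : ℝ) ≤ L / (2 * Real.pi) := (le_abs_self _).trans h1.le
    calc Real.pi * ∑ p ∈ Q, (1 : ℝ) / (p : ℝ) ≤ Real.pi * (L / (2 * Real.pi)) :=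
          mul_le_mul_of_nonneg_left h3 hpi.le
      _ = L / 2 := by field_simp
  set W : Set ℂ := (fun θ : ℝ => Complex.exp ((θ : ℂ) * Complex.I)) '' Set.Icc x (x + min (L/2) 1)
    with hW
  have hWinf : W.Infinite := by
    apply Set.Infinite.image
    · intro θ hθ θ' hθ' he
      simp only at he
      rw [Complex.exp_eq_exp_iff_exists_int] at he
      obtain ⟨n, hn⟩ := he
      have h1 : (θ : ℂ) = θ' + n * (2 * Real.pi) := by
        have h2 : ((θ : ℂ) - (θ' + n * (2 * Real.pi))) * Complex.I = 0 := by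
          linear_combination hn
        rcases mul_eq_zero.mp h2 with h3 | h3
        · linear_combination h3
        · exact absurd h3 Complex.I_ne_zero
      have h2 : θ = θ' + n * (2 * Real.pi) := by exact_mod_cast h1
      have h3 : min (L/2) 1 ≤ 1 := min_le_right _ _
      have h4 : |θ - θ'| ≤ 1 := by
        rw [abs_le]; constructor <;> linarith [hθ.1, hθ.2, hθ'.1, hθ'.2]
      have h5 : θ - θ' = n * (2 * Real.pi) := by linarith
      have hpi3 := Real.pi_gt_three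
      have h6 : n = 0 := by
        by_contra hne
        have h7 : (1 : ℝ) ≤ |(n : ℝ)| := by
          rw [← Int.cast_abs]
          exact_mod_cast Int.one_le_abs hne
        rw [h5, abs_mul, abs_of_pos (by positivity : (0:ℝ) < 2 * Real.pi)] at h4
        nlinarith
      rw [h6] at h2
      simpa using h2
    · apply Set.Icc_infinite
      have : 0 < min (L/2) 1 := lt_min (by positivity) one_pos
      linarith
  obtain ⟨C, hC0, hC⟩ := mz_const p0 W hWinf
  refine ⟨C, hC0, ?_⟩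
  intro P a A hP h0P hA
  have hexp : ∀ (p : ℕ) (θ : ℝ), Complex.exp ((p : ℂ) * (θ : ℂ) * Complex.I) =
      Complex.exp ((θ : ℂ) * Complex.I) ^ p := by
    intro p θ
    rw [mul_assoc, Complex.exp_nat_mul]
  set Q := P.filter (fun p => p0 ≤ p) with hQ
  have hQ0 : ∀ p ∈ Q, 0 < p := by
    intro p hp
    have := (Finset.mem_filter.mp hp).2
    omega
  have hQS : ∀ p ∈ Q, p ∈ S := by
    intro p hp
    rcases hP p (Finset.mem_filter.mp hp).1 with h1 | h1
    · have := hQ0 p hp; omega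
    · exact h1
  obtain ⟨a', ha0, haQ, hab⟩ := mz_circle Q hQ0 P (fun p => a p * (r : ℂ) ^ p) x y A (by
    intro θ h1 h2
    have h3 := hA θ ⟨h1, h2⟩
    refine le_trans (le_of_eq ?_) h3
    congr 1
    refine Finset.sum_congr rfl fun p _ => ?_
    rw [hexp, mul_pow]; ring)
  have hsumQ := hQsum Q hQS (fun p hp => (Finset.mem_filter.mp hp).2)
  set P' := P.filter (fun p => p < p0) with hP'
  have h1 := hC P' a' A (fun p hp => (Finset.mem_filter.mp hp).2.le)
    (Finset.mem_filter.mpr ⟨h0P, by omega⟩) (by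
    rintro w ⟨θ, hθ, rfl⟩
    have h2 := hab θ hθ.1 (by
      have : min (L/2) 1 ≤ L / 2 := min_le_left _ _
      linarith [hθ.2])
    refine le_trans (le_of_eq ?_) h2
    congr 1
    rw [← Finset.sum_subset (Finset.filter_subset (fun p => p < p0) P)]
    · refine Finset.sum_congr rfl fun p _ => ?_
      rw [hexp]
    · intro p hp hp'
      have h3 : p ∈ Q := by
        rw [hQ, Finset.mem_filter]
        refine ⟨hp, ?_⟩
        by_contra hc
        exact hp' (Finset.mem_filter.mpr ⟨hp, not_le.mp hc⟩)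
      rw [haQ p h3, zero_mul])
  rw [ha0] at h1
  simpa using h1

end Pool.Agent.Helper107.MZ
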