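import Mathlib

set_option autoImplicit false

namespace Pool.Agent.Helper107.MZ
open Finset Filter

/-- An entire power series is uniformly close to its partial sums on a compact path: for every `τ`
there is a threshold `B` such that dropping all exponents `≥ B` changes the sum by at most 1. -/
theorem mz_trunc (p : ℕ → ℕ) (hp : StrictMono p) (a : ℕ → ℂ)
    (ha : ∀ z : ℂ, Summable (fun n => a n * z ^ (p n))) (ρ : ℝ) (B₀ : ℝ) :
    ∃ B : ℝ, B₀ ≤ B ∧ ∀ c : ℝ, B ≤ c → ∀ z : ℂ, ‖z‖ ≤ ρ →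
      ∀ m : ℕ, (∀ n, n < m ↔ (p n : ℝ) < c) →
      ‖∑' n, a n * z ^ (p n) - ∑ n ∈ range m, a n * z ^ (p n)‖ ≤ 1 := by
  set r : ℝ := max ρ 1 with hr
  have hr0 : 0 ≤ r := le_trans zero_le_one (le_max_right _ _)
  have hS : Summable (fun n => ‖a n‖ * r ^ (p n)) := by
    have h1 := (ha (r : ℂ)).norm
    refine h1.congr fun n => ?_
    rw [norm_mul, norm_pow, Complex.norm_real, Real.norm_eq_abs, abs_of_nonneg hr0]
  have ht := tendsto_sum_nat_add (fun n => ‖a n‖ * r ^ (p n))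
  obtain ⟨m0, hm0⟩ := eventually_atTop.1 (ht.eventually (eventually_le_nhds zero_lt_one))
  refine ⟨max B₀ (p m0 + 1), le_max_left _ _, ?_⟩
  intro c hc z hz m hm
  have hm0m : m0 < m := by
    rw [hm]
    have := le_trans (le_max_right _ _) hc
    linarith
  have hle : ∀ n, ‖a n * z ^ (p n)‖ ≤ ‖a n‖ * r ^ (p n) := by
    intro n
    rw [norm_mul, norm_pow]
    apply mul_le_mul_of_nonneg_left _ (norm_nonneg _)
    exact pow_le_pow_left₀ (norm_nonneg _) (hz.trans (le_max_left _ _)) _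
  have hsum := (ha z).sum_add_tsum_nat_add m
  rw [← hsum, add_sub_cancel_left]
  have hS' : Summable (fun n => ‖a (n + m)‖ * r ^ (p (n + m))) :=
    (summable_nat_add_iff m).2 hS
  calc ‖∑' n, a (n + m) * z ^ (p (n + m))‖ ≤ ∑' n, ‖a (n + m)‖ * r ^ (p (n + m)) :=
        tsum_of_norm_bounded hS'.hasSum fun n => hle (n + m)
    _ ≤ 1 := hm0 m hm0m.le

/-- A polynomial without constant term which is bounded along points going to infinity vanishes. -/
theorem mz_poly_bdd (P : Finset ℕ) (hP : ∀ q ∈ P, 0 < q) (b : ℕ → ℂ) (A : ℝ)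
    (h : ∀ ρ : ℝ, ∃ z : ℂ, ρ ≤ ‖z‖ ∧ ‖∑ q ∈ P, b q * z ^ q‖ ≤ A) : ∀ q ∈ P, b q = 0 := by
  intro q0 hq0
  by_contra hne
  set Q : Polynomial ℂ := ∑ q ∈ P, Polynomial.C (b q) * Polynomial.X ^ q with hQ
  have hcoeff : Q.coeff q0 = b q0 := by
    rw [hQ, Polynomial.finset_sum_coeff]
    simp only [Polynomial.coeff_C_mul, Polynomial.coeff_X_pow, mul_ite, mul_one, mul_zero]
    rw [Finset.sum_ite_eq P q0, if_pos hq0]
  have hdeg : 0 < Q.degree := by
    have h1 : (q0 : WithBot ℕ) ≤ Q.degree := Polynomial.le_degree_of_ne_zero (by rw [hcoeff]; exact hne)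
    refine lt_of_lt_of_le ?_ h1
    exact_mod_cast hP q0 hq0
  choose z hz1 hz2 using fun n : ℕ => h (n : ℝ)
  have hzt : Tendsto (fun n => ‖z n‖) atTop atTop :=
    tendsto_atTop_mono hz1 tendsto_natCast_atTop_atTop
  have ht := Polynomial.tendsto_norm_atTop Q hdeg hzt
  obtain ⟨n, hn⟩ := (ht.eventually_gt_atTop A).exists
  have heval : Q.eval (z n) = ∑ q ∈ P, b q * z n ^ q := by
    rw [hQ, Polynomial.eval_finset_sum]
    simp
  rw [heval] at hn
  exact absurd (hz2 n) (not_le.2 hn)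

end Pool.Agent.Helper107.MZ
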