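import Mathlib

set_option autoImplicit false

namespace Pool.Agent.Helper107.MZ
open Finset

theorem mz_iter_aux (K : ℕ) (s : ℕ → ℝ) (a : ℕ → ℂ) (m : ℕ) :
    iteratedDeriv m (fun z : ℂ => ∑ k ∈ range K, a k * Complex.exp ((s k : ℂ) * z))
      = fun z => ∑ k ∈ range K, (a k * (s k : ℂ) ^ m) * Complex.exp ((s k : ℂ) * z) := by
  induction m with
  | zero => simp
  | succ m ih =>
    rw [iteratedDeriv_succ, ih]
    funext z
    have h : ∀ k ∈ range K, HasDerivAt (fun z : ℂ => (a k * (s k : ℂ) ^ m) *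
        Complex.exp ((s k : ℂ) * z))
        ((a k * (s k : ℂ) ^ m) * (Complex.exp ((s k : ℂ) * z) * (s k : ℂ))) z := by
      intro k _
      have h1 : HasDerivAt (fun z : ℂ => (s k : ℂ) * z) (s k : ℂ) z := by
        simpa using (hasDerivAt_id z).const_mul (s k : ℂ)
      exact (h1.cexp).const_mul _
    have h2 := HasDerivAt.fun_sum h
    rw [h2.deriv]
    apply Finset.sum_congr rfl
    intro k _
    rw [pow_succ]
    ring

/-- L2 (Cauchy estimates for products of first order operators). -/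
theorem mz_cauchy (K : ℕ) (s : ℕ → ℝ) (a : ℕ → ℂ) (σ M R : ℝ) (hσ : 0 ≤ σ)
    (hs : ∀ i, i < K → 0 ≤ s i ∧ s i ≤ σ) (hR : (K : ℝ) ≤ R) (hR0 : 0 < R)
    (hM : ∀ z : ℂ, ‖z‖ ≤ R → ‖∑ k ∈ range K, a k * Complex.exp ((s k : ℂ) * z)‖ ≤ M) :
    ∀ j, j < K → ‖∑ k ∈ range K, a k * ∏ i ∈ range j, ((s k : ℂ) - (s i : ℂ))‖ ≤ (1 + σ) ^ j * M := by
  have hM0 : 0 ≤ M := (norm_nonneg _).trans (hM 0 (by simp [hR0.le]))
  obtain ⟨T, hT⟩ : ∃ T : ℕ → ℕ → ℂ, T = fun j m =>
      ∑ k ∈ range K, a k * (s k : ℂ) ^ m * ∏ i ∈ range j, ((s k : ℂ) - (s i : ℂ)) := ⟨_, rfl⟩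
  have hT0 : ∀ m, m ≤ K → ‖T 0 m‖ ≤ M := by
    intro m hm
    have hdiff : Differentiable ℂ (fun z : ℂ => ∑ k ∈ range K, a k * Complex.exp ((s k : ℂ) * z)) := by
      fun_prop
    have h1 := Complex.norm_iteratedDeriv_le_of_forall_mem_sphere_norm_le (c := 0) (C := M) m hR0
      hdiff.diffContOnCl (fun z hz => hM z (by
        rw [mem_sphere_zero_iff_norm] at hz
        exact hz.le))
    rw [mz_iter_aux] at h1
    have h2 : T 0 m = ∑ k ∈ range K, (a k * (s k : ℂ) ^ m) * Complex.exp ((s k : ℂ) * 0) := by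
      rw [hT]
      simp
    rw [h2]
    refine h1.trans ?_
    rw [div_le_iff₀ (by positivity)]
    have h3 : ((Nat.factorial m : ℕ) : ℝ) ≤ R ^ m := by
      calc ((Nat.factorial m : ℕ) : ℝ) ≤ ((m ^ m : ℕ) : ℝ) := by exact_mod_cast Nat.factorial_le_pow m
        _ = (m : ℝ) ^ m := by push_cast; rfl
        _ ≤ R ^ m := by
          apply pow_le_pow_left₀ (Nat.cast_nonneg m)
          exact le_trans (by exact_mod_cast hm) hR
    rw [mul_comm]
    exact mul_le_mul_of_nonneg_left h3 hM0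
  have hrec : ∀ j m, T (j + 1) m = T j (m + 1) - (s j : ℂ) * T j m := by
    intro j m
    rw [hT]
    show ∑ k ∈ range K, a k * (s k : ℂ) ^ m * ∏ i ∈ range (j + 1), ((s k : ℂ) - (s i : ℂ))
      = ∑ k ∈ range K, a k * (s k : ℂ) ^ (m + 1) * ∏ i ∈ range j, ((s k : ℂ) - (s i : ℂ))
        - (s j : ℂ) * ∑ k ∈ range K, a k * (s k : ℂ) ^ m * ∏ i ∈ range j, ((s k : ℂ) - (s i : ℂ))
    rw [Finset.mul_sum, ← Finset.sum_sub_distrib]
    apply Finset.sum_congr rfl
    intro k _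
    rw [Finset.prod_range_succ, pow_succ]
    ring
  have hmain : ∀ j m, j + m ≤ K → ‖T j m‖ ≤ (1 + σ) ^ j * M := by
    intro j
    induction j with
    | zero =>
      intro m hm
      rw [pow_zero, one_mul]
      exact hT0 m (by omega)
    | succ j ih =>
      intro m hm
      rw [hrec]
      have h1 := ih (m + 1) (by omega)
      have h2 := ih m (by omega)
      have h3 : ‖(s j : ℂ)‖ ≤ σ := by
        rw [Complex.norm_real, Real.norm_eq_abs, abs_of_nonneg (hs j (by omega)).1]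
        exact (hs j (by omega)).2
      calc ‖T j (m + 1) - (s j : ℂ) * T j m‖ ≤ ‖T j (m + 1)‖ + ‖(s j : ℂ) * T j m‖ := norm_sub_le _ _
        _ ≤ (1 + σ) ^ j * M + σ * ((1 + σ) ^ j * M) := by
          rw [norm_mul]
          exact add_le_add h1 (mul_le_mul h3 h2 (norm_nonneg _) hσ)
        _ = (1 + σ) ^ (j + 1) * M := by ring
  intro j hj
  have h := hmain j 0 (by omega)
  rw [hT] at h
  simpa using h

end Pool.Agent.Helper107.MZ
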