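import Mathlib

set_option autoImplicit false

namespace Pool.Agent.Helper107.MZ
open Finset

/-- Newton interpolation identity for the Cauchy kernel. -/
theorem mzs_newton (s : ℕ → ℂ) (mu lam : ℂ) (h : mu ≠ lam) (n : ℕ) (hs : ∀ i < n, mu ≠ s i) :
    (mu - lam)⁻¹ = ∑ j ∈ range n, (∏ i ∈ range j, (lam - s i)) *
      (∏ i ∈ range (j + 1), (mu - s i))⁻¹ +
      (∏ i ∈ range n, (lam - s i)) * (∏ i ∈ range n, (mu - s i))⁻¹ * (mu - lam)⁻¹ := by
  induction n with
  | zero => simp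
  | succ n ih =>
    have ih' := ih (fun i hi => hs i (by omega))
    have h1 : mu - s n ≠ 0 := sub_ne_zero.2 (hs n (by omega))
    have h2 : mu - lam ≠ 0 := sub_ne_zero.2 h
    have hP : (∏ i ∈ range n, (mu - s i)) ≠ 0 :=
      Finset.prod_ne_zero_iff.2 (fun i hi => sub_ne_zero.2
        (hs i (by have := Finset.mem_range.1 hi; omega)))
    rw [Finset.sum_range_succ, add_assoc]
    conv_lhs => rw [ih']
    congr 1
    rw [Finset.prod_range_succ (fun i => mu - s i) n, Finset.prod_range_succ (fun i => lam - s i) n]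
    generalize (∏ i ∈ range n, (mu - s i)) = P at hP
    generalize (∏ i ∈ range n, (lam - s i)) = Q
    field_simp
    ring

/-- L3 (separation at a good cut). -/
theorem mz_sep (K : ℕ) (s : ℕ → ℝ) (a : ℕ → ℂ) (M Λ : ℝ) (hM : 0 ≤ M)
    (hs : ∀ i, i < K → 0 ≤ s i ∧ s i ≤ 4 ∧ s i ≠ 1)
    (hdd : ∀ j, j < K → ‖∑ k ∈ range K, a k * ∏ i ∈ range j, ((s k : ℂ) - (s i : ℂ))‖ ≤ 5 ^ j * M)
    (hΛ : ∑ i ∈ range K, max 0 (Real.log (1 / |1 - s i|)) ≤ Λ) :
    ‖∑ k ∈ (range K).filter (fun k => 1 < s k), a k‖ ≤ 3 * 5 ^ K * Real.exp Λ * M := by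
  -- distances on the circle
  have hdist : ∀ mu ∈ Metric.sphere (4 : ℂ) 3, ∀ i, i < K → |1 - s i| ≤ ‖mu - (s i : ℂ)‖ := by
    intro mu hmu i hi
    obtain ⟨h0, h4, -⟩ := hs i hi
    have hmu' : ‖mu - 4‖ = 3 := by
      rw [← dist_eq_norm]; exact hmu
    have e : mu - (s i : ℂ) = (mu - 4) + ((4 - s i : ℝ) : ℂ) := by push_cast; ring
    have hn : ‖((4 - s i : ℝ) : ℂ)‖ = 4 - s i := by
      rw [Complex.norm_real, Real.norm_of_nonneg (by linarith)]
    have t1 : ‖mu - 4‖ ≤ ‖mu - (s i : ℂ)‖ + ‖((4 - s i : ℝ) : ℂ)‖ := by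
      have : mu - 4 = (mu - (s i : ℂ)) - ((4 - s i : ℝ) : ℂ) := by rw [e]; ring
      rw [this]; exact norm_sub_le _ _
    have t2 : ‖((4 - s i : ℝ) : ℂ)‖ ≤ ‖mu - (s i : ℂ)‖ + ‖mu - 4‖ := by
      have : ((4 - s i : ℝ) : ℂ) = (mu - (s i : ℂ)) - (mu - 4) := by rw [e]; ring
      rw [this]; exact norm_sub_le _ _
    rw [hmu', hn] at t1
    rw [hmu', hn] at t2
    rw [abs_le]
    constructor <;> linarith
  have hpos : ∀ i, i < K → 0 < |1 - s i| := by
    intro i hi
    exact abs_pos.2 (sub_ne_zero.2 (Ne.symm (hs i hi).2.2))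
  have hne : ∀ mu ∈ Metric.sphere (4 : ℂ) 3, ∀ i, i < K → mu ≠ (s i : ℂ) := by
    intro mu hmu i hi h
    have h1 := hdist mu hmu i hi
    rw [h, sub_self, norm_zero] at h1
    exact absurd (hpos i hi) (not_lt.2 h1)
  -- bound of the reciprocal products
  have hprod : ∀ mu ∈ Metric.sphere (4 : ℂ) 3, ∀ n, n ≤ K →
      ‖(∏ i ∈ range n, (mu - (s i : ℂ)))⁻¹‖ ≤ Real.exp Λ := by
    intro mu hmu n hn
    rw [norm_inv, norm_prod, ← Finset.prod_inv_distrib]
    have h1 : ∏ i ∈ range n, ‖mu - (s i : ℂ)‖⁻¹ ≤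
        ∏ i ∈ range n, Real.exp (max 0 (Real.log (1 / |1 - s i|))) := by
      refine Finset.prod_le_prod (fun i _ => inv_nonneg.2 (norm_nonneg _)) (fun i hi => ?_)
      have hi' : i < K := lt_of_lt_of_le (Finset.mem_range.1 hi) hn
      have h2 : ‖mu - (s i : ℂ)‖⁻¹ ≤ 1 / |1 - s i| := by
        rw [one_div]
        exact inv_anti₀ (hpos i hi') (hdist mu hmu i hi')
      refine h2.trans ?_
      have h3 : 0 < 1 / |1 - s i| := one_div_pos.2 (hpos i hi')
      calc 1 / |1 - s i| = Real.exp (Real.log (1 / |1 - s i|)) := (Real.exp_log h3).symm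
        _ ≤ _ := Real.exp_le_exp.2 (le_max_right _ _)
    refine h1.trans ?_
    rw [← Real.exp_sum]
    refine Real.exp_le_exp.2 (le_trans ?_ hΛ)
    exact Finset.sum_le_sum_of_subset_of_nonneg (Finset.range_mono hn)
      (fun i _ _ => le_max_left _ _)
  -- the expansion of F
  have hF : ∀ mu ∈ Metric.sphere (4 : ℂ) 3, ∑ k ∈ range K, a k * (mu - (s k : ℂ))⁻¹ =
      ∑ j ∈ range K, (∑ k ∈ range K, a k * ∏ i ∈ range j, ((s k : ℂ) - (s i : ℂ))) *
        (∏ i ∈ range (j + 1), (mu - (s i : ℂ)))⁻¹ := by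
    intro mu hmu
    have h1 : ∀ k ∈ range K, a k * (mu - (s k : ℂ))⁻¹ = ∑ j ∈ range K,
        (a k * ∏ i ∈ range j, ((s k : ℂ) - (s i : ℂ))) *
        (∏ i ∈ range (j + 1), (mu - (s i : ℂ)))⁻¹ := by
      intro k hk
      have hk' := Finset.mem_range.1 hk
      have h2 := mzs_newton (fun i => (s i : ℂ)) mu (s k : ℂ) (hne mu hmu k hk') K
        (fun i hi => hne mu hmu i hi)
      have h3 : ∏ i ∈ range K, ((s k : ℂ) - (s i : ℂ)) = 0 :=
        Finset.prod_eq_zero hk (sub_self _)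
      rw [h3, zero_mul, zero_mul, add_zero] at h2
      rw [h2, Finset.mul_sum]
      exact Finset.sum_congr rfl (fun j _ => by ring)
    rw [Finset.sum_congr rfl h1, Finset.sum_comm]
    exact Finset.sum_congr rfl (fun j _ => by rw [Finset.sum_mul])
  have hFb : ∀ mu ∈ Metric.sphere (4 : ℂ) 3, ‖∑ k ∈ range K, a k * (mu - (s k : ℂ))⁻¹‖ ≤
      5 ^ K * Real.exp Λ * M := by
    intro mu hmu
    rw [hF mu hmu]
    have h1 : ‖∑ j ∈ range K, (∑ k ∈ range K, a k * ∏ i ∈ range j, ((s k : ℂ) - (s i : ℂ))) *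
        (∏ i ∈ range (j + 1), (mu - (s i : ℂ)))⁻¹‖ ≤
        ∑ j ∈ range K, (5 ^ j * M) * Real.exp Λ := by
      refine norm_sum_le_of_le _ (fun j hj => ?_)
      have hj' := Finset.mem_range.1 hj
      rw [norm_mul]
      exact mul_le_mul (hdd j hj') (hprod mu hmu (j + 1) (by omega)) (norm_nonneg _)
        (by positivity)
    refine h1.trans ?_
    rw [← Finset.sum_mul, ← Finset.sum_mul]
    have h2 : ∑ j ∈ range K, (5 : ℝ) ^ j ≤ 5 ^ K := by
      rw [geom_sum_eq (by norm_num)]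
      have : (0 : ℝ) ≤ 5 ^ K := by positivity
      rw [div_le_iff₀ (by norm_num)]
      linarith
    have h3 : (∑ j ∈ range K, (5 : ℝ) ^ j) * M ≤ 5 ^ K * M := mul_le_mul_of_nonneg_right h2 hM
    calc (∑ j ∈ range K, (5 : ℝ) ^ j) * M * Real.exp Λ ≤ 5 ^ K * M * Real.exp Λ :=
          mul_le_mul_of_nonneg_right h3 (Real.exp_pos _).le
      _ = 5 ^ K * Real.exp Λ * M := by ring
  -- the circle integrals
  have hint : ∀ k ∈ range K, CircleIntegrable (fun mu => a k * (mu - (s k : ℂ))⁻¹) 4 3 := by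
    intro k hk
    have hk' := Finset.mem_range.1 hk
    refine ContinuousOn.circleIntegrable (by norm_num) ?_
    refine ContinuousOn.mul continuousOn_const (ContinuousOn.inv₀ (by fun_prop) ?_)
    intro mu hmu
    exact sub_ne_zero.2 (hne mu hmu k hk')
  have hone : ∀ k ∈ range K, (∮ mu in C(4, 3), a k * (mu - (s k : ℂ))⁻¹) =
      if 1 < s k then a k * (2 * Real.pi * Complex.I) else 0 := by
    intro k hk
    have hk' := Finset.mem_range.1 hk
    obtain ⟨h0, h4, h1⟩ := hs k hk'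
    have hd : dist (s k : ℂ) 4 = 4 - s k := by
      rw [dist_eq_norm]
      have : ((s k : ℂ) - 4) = ((s k - 4 : ℝ) : ℂ) := by push_cast; ring
      rw [this, Complex.norm_real, Real.norm_eq_abs, abs_of_nonpos (by linarith)]
      ring
    rw [circleIntegral.integral_const_mul]
    split_ifs with h
    · rw [circleIntegral.integral_sub_inv_of_mem_ball]
      rw [Metric.mem_ball, hd]
      linarith
    · have hlt : s k < 1 := lt_of_le_of_ne (not_lt.1 h) h1
      have hne' : ∀ z ∈ Metric.closedBall (4 : ℂ) 3, z - (s k : ℂ) ≠ 0 := by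
        intro z hz hz0
        rw [sub_eq_zero] at hz0
        rw [hz0, Metric.mem_closedBall, hd] at hz
        linarith
      rw [Complex.circleIntegral_eq_zero_of_differentiable_on_off_countable (by norm_num)
        Set.countable_empty, mul_zero]
      · exact ContinuousOn.inv₀ (by fun_prop) hne'
      · intro z hz
        refine DifferentiableAt.inv (by fun_prop) (hne' z (Metric.ball_subset_closedBall hz.1))
  have htot : (∮ mu in C(4, 3), ∑ k ∈ range K, a k * (mu - (s k : ℂ))⁻¹) =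
      (∑ k ∈ (range K).filter (fun k => 1 < s k), a k) * (2 * Real.pi * Complex.I) := by
    rw [circleIntegral.integral_fun_sum hint, Finset.sum_congr rfl hone, Finset.sum_mul,
      Finset.sum_filter]
  have hnorm := circleIntegral.norm_integral_le_of_norm_le_const (by norm_num) hFb
  rw [htot, norm_mul] at hnorm
  have h2pi : ‖(2 * Real.pi * Complex.I : ℂ)‖ = 2 * Real.pi := by
    rw [norm_mul, Complex.norm_I, mul_one]
    have : (2 * Real.pi : ℂ) = ((2 * Real.pi : ℝ) : ℂ) := by push_cast; ring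
    rw [this, Complex.norm_real, Real.norm_of_nonneg (by positivity)]
  rw [h2pi] at hnorm
  have hpi : (0 : ℝ) < 2 * Real.pi := by positivity
  have h5 : ‖∑ k ∈ (range K).filter (fun k => 1 < s k), a k‖ * (2 * Real.pi) ≤
      (3 * 5 ^ K * Real.exp Λ * M) * (2 * Real.pi) := by
    refine hnorm.trans (le_of_eq ?_)
    ring
  exact le_of_mul_le_mul_right h5 hpi

end Pool.Agent.Helper107.MZ
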