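import Mathlib

set_option autoImplicit false

namespace Pool.Agent.Helper107.MZ
open Finset

/-- Schwarz lemma with several zeros. -/
theorem mz_schwarz (n : ℕ) : ∀ (g : ℂ → ℂ) (z : ℕ → ℂ) (w : ℂ) (ρ r M : ℝ), Differentiable ℂ g →
    0 < r → r < ρ →
    (∀ i, i < n → ‖z i - w‖ ≤ r) →
    (∀ i, i < n → ∀ j, j < n → z i = z j → i = j) →
    (∀ i, i < n → g (z i) = 0) →
    (∀ u, ‖u - w‖ = ρ → ‖g u‖ ≤ M) →
    ∀ u, ‖u - w‖ ≤ ρ → ‖g u‖ ≤ M * ∏ i ∈ range n, (‖u - z i‖ / (ρ - r)) := by
  induction n with
  | zero =>
    intro g z w ρ r M hg hr hρ _ _ _ hM u hu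
    simp only [range_zero, prod_empty, mul_one]
    have hρ0 : 0 < ρ := hr.trans hρ
    refine Complex.norm_le_of_forall_mem_frontier_norm_le (U := Metric.ball w ρ)
      Metric.isBounded_ball hg.diffContOnCl ?_ ?_
    · intro z hz
      rw [frontier_ball w hρ0.ne'] at hz
      exact hM z (by simpa [dist_eq_norm] using hz)
    · rw [closure_ball w hρ0.ne']
      simpa [dist_eq_norm] using hu
  | succ n ih =>
    intro g z w ρ r M hg hr hρ hz hinj hzero hM u hu
    have hga : g (z n) = 0 := hzero n (Nat.lt_succ_self n)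
    have hh : Differentiable ℂ (dslope g (z n)) := by
      have := (Complex.differentiableOn_dslope (s := Set.univ) (c := z n) Filter.univ_mem).2
        hg.differentiableOn
      exact differentiableOn_univ.1 this
    have hfac : ∀ u, g u = (u - z n) * dslope g (z n) u := fun u => by
      have := sub_smul_dslope g (z n) u
      rw [hga, sub_zero] at this
      simpa [smul_eq_mul] using this.symm
    have hd : 0 < ρ - r := sub_pos.2 hρ
    have key := ih (dslope g (z n)) z w ρ r (M / (ρ - r)) hh hr hρ
      (fun i hi => hz i (by omega))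
      (fun i hi j hj => hinj i (by omega) j (by omega))
      (fun i hi => by
        have h0 := hfac (z i)
        rw [hzero i (by omega)] at h0
        rcases mul_eq_zero.1 h0.symm with h1 | h1
        · exact absurd (hinj i (by omega) n (by omega) (sub_eq_zero.1 h1)) (by omega)
        · exact h1)
      (fun u hu => by
        have h1 := hM u hu
        rw [hfac u, norm_mul] at h1
        have h2 : ρ - r ≤ ‖u - z n‖ := by
          have h3 := hz n (Nat.lt_succ_self n)
          have h4 : ‖u - w‖ ≤ ‖u - z n‖ + ‖z n - w‖ := by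
            have := norm_add_le (u - z n) (z n - w)
            simpa using this
          linarith
        rw [le_div_iff₀ hd]
        nlinarith [norm_nonneg (dslope g (z n) u)])
      u hu
    rw [hfac u, norm_mul, prod_range_succ]
    calc ‖u - z n‖ * ‖dslope g (z n) u‖
        ≤ ‖u - z n‖ * (M / (ρ - r) * ∏ i ∈ range n, (‖u - z i‖ / (ρ - r))) :=
          mul_le_mul_of_nonneg_left key (norm_nonneg _)
      _ = M * ((∏ i ∈ range n, (‖u - z i‖ / (ρ - r))) * (‖u - z n‖ / (ρ - r))) := by
          field_simp

end Pool.Agent.Helper107.MZ
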