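import Mathlib

set_option autoImplicit false

namespace Pool.Agent.Helper107.MZ
open Finset


theorem mzl_prod_lt (k : ℕ) : ∏ l ∈ range k, |((k : ℝ) - l)| = (k.factorial : ℝ) := by
  have h1 : ∏ l ∈ range k, |((k : ℝ) - l)| = ∏ l ∈ range k, (((k - 1 - l : ℕ) : ℝ) + 1) := by
    refine Finset.prod_congr rfl fun l hl => ?_
    have hl' := Finset.mem_range.1 hl
    have h2 : ((k - 1 - l : ℕ) : ℝ) = (k : ℝ) - 1 - l := by
      rw [Nat.cast_sub (by omega), Nat.cast_sub (by omega)]; simp
    have h3 : (l : ℝ) < k := by exact_mod_cast hl'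
    rw [h2, abs_of_pos (by linarith)]; ring
  rw [h1, Finset.prod_range_reflect (fun j : ℕ => ((j : ℝ) + 1)) k]
  rw [← Finset.prod_range_add_one_eq_factorial]
  push_cast
  rfl

theorem mzl_prod_dist (k m : ℕ) :
    ∏ l ∈ (range (k + m + 1)).erase k, |((k : ℝ) - l)| = (k.factorial : ℝ) * (m.factorial : ℝ) := by
  induction m with
  | zero =>
    have h : (range (k + 0 + 1)).erase k = range k := by
      ext x; simp only [Finset.mem_erase, Finset.mem_range]; omega
    rw [h, mzl_prod_lt]; simp
  | succ m ih =>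
    have h : (range (k + (m + 1) + 1)).erase k = insert (k + m + 1) ((range (k + m + 1)).erase k) := by
      ext x; simp only [Finset.mem_erase, Finset.mem_range, Finset.mem_insert]; omega
    rw [h, Finset.prod_insert (by simp), ih, Nat.factorial_succ]
    have h2 : |(k : ℝ) - ((k + m + 1 : ℕ) : ℝ)| = (m : ℝ) + 1 := by
      push_cast
      rw [show (k : ℝ) - (k + m + 1) = -((m : ℝ) + 1) by ring, abs_neg, abs_of_pos (by positivity)]
    rw [h2]; push_cast; ring

theorem mzl_sum (n : ℕ) :
    ∑ k ∈ range (n + 1), (1 : ℝ) / ((k.factorial : ℝ) * ((n - k).factorial : ℝ))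
      = 2 ^ n / (n.factorial : ℝ) := by
  have h1 : ∑ k ∈ range (n + 1), (1 : ℝ) / ((k.factorial : ℝ) * ((n - k).factorial : ℝ))
      = ∑ k ∈ range (n + 1), ((n.choose k : ℕ) : ℝ) / (n.factorial : ℝ) := by
    refine Finset.sum_congr rfl fun k hk => ?_
    have hk' : k ≤ n := by have := Finset.mem_range.1 hk; omega
    rw [Nat.cast_choose ℝ hk']
    have h2 : (n.factorial : ℝ) ≠ 0 := by positivity
    have h3 : (k.factorial : ℝ) ≠ 0 := by positivity
    have h4 : ((n - k).factorial : ℝ) ≠ 0 := by positivity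
    field_simp
  rw [h1, ← Finset.sum_div, ← Nat.cast_sum, Nat.sum_range_choose]
  push_cast
  rfl

/-- Lagrange interpolation at points whose distances from `w` form an arithmetic progression. -/
theorem mz_lagrange (n : ℕ) (hn : 1 ≤ n) (z y : ℕ → ℂ) (w : ℂ) (R A : ℝ) (hR : 0 < R) (hA : 0 ≤ A)
    (hz : ∀ k, k ≤ n → ‖z k - w‖ = k * R / n)
    (hy : ∀ k, k ≤ n → ‖y k‖ ≤ A) :
    ∃ P : Polynomial ℂ, (∀ k, k ≤ n → P.eval (z k) = y k) ∧
      ∀ (B : ℝ) (u : ℂ), 0 ≤ B → ‖u - w‖ ≤ B →
        ‖P.eval u‖ ≤ A * (2 * Real.exp 1 * ((B + R) / R)) ^ n := by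
  classical
  have hn0 : (0 : ℝ) < n := by exact_mod_cast (show 0 < n by omega)
  have hdist : ∀ k l : ℕ, k ≤ n → l ≤ n → |((k : ℝ) - l)| * (R / n) ≤ ‖z k - z l‖ := by
    intro k l hk hl
    have h1 : |‖z k - w‖ - ‖z l - w‖| ≤ ‖(z k - w) - (z l - w)‖ := abs_norm_sub_norm_le _ _
    rw [hz k hk, hz l hl] at h1
    have h2 : (z k - w) - (z l - w) = z k - z l := by ring
    rw [h2] at h1
    have h3 : (k : ℝ) * R / n - l * R / n = ((k : ℝ) - l) * (R / n) := by ring
    rw [h3, abs_mul, abs_of_pos (by positivity : (0 : ℝ) < R / n)] at h1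
    exact h1
  have hinj : Set.InjOn z (range (n + 1) : Finset ℕ) := by
    intro k hk l hl hkl
    have hk' : k ≤ n := by have := Finset.mem_range.1 (Finset.mem_coe.1 hk); omega
    have hl' : l ≤ n := by have := Finset.mem_range.1 (Finset.mem_coe.1 hl); omega
    have h1 := hdist k l hk' hl'
    rw [hkl, sub_self, norm_zero] at h1
    by_contra hne
    have h2 : (0 : ℝ) < |((k : ℝ) - l)| := by
      apply abs_pos.2
      intro h3
      apply hne
      have : (k : ℝ) = l := by linarith
      exact_mod_cast this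
    have h3 : (0 : ℝ) < |((k : ℝ) - l)| * (R / n) := by positivity
    linarith
  refine ⟨Lagrange.interpolate (range (n + 1)) z y, ?_, ?_⟩
  · intro k hk
    exact Lagrange.eval_interpolate_at_node y hinj (Finset.mem_range.2 (by omega))
  · intro B u hB hu
    have hul : ∀ l : ℕ, l ≤ n → ‖u - z l‖ ≤ B + R := by
      intro l hl
      have h1 : u - z l = (u - w) - (z l - w) := by ring
      have h2 : ‖z l - w‖ ≤ R := by
        rw [hz l hl, div_le_iff₀ hn0]
        have : (l : ℝ) ≤ n := by exact_mod_cast hl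
        nlinarith
      calc ‖u - z l‖ = ‖(u - w) - (z l - w)‖ := by rw [h1]
        _ ≤ ‖u - w‖ + ‖z l - w‖ := norm_sub_le _ _
        _ ≤ B + R := by linarith
    have hbasis : ∀ k ∈ range (n + 1), ‖(Lagrange.basis (range (n + 1)) z k).eval u‖
        ≤ ((B + R) * n / R) ^ n * (1 / ((k.factorial : ℝ) * ((n - k).factorial : ℝ))) := by
      intro k hk
      have hk' : k ≤ n := by have := Finset.mem_range.1 hk; omega
      have h1 : ‖(Lagrange.basis (range (n + 1)) z k).eval u‖
          = ∏ l ∈ (range (n + 1)).erase k, ‖(z k - z l)⁻¹ * (u - z l)‖ := by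
        unfold Lagrange.basis Lagrange.basisDivisor
        rw [Polynomial.eval_prod, norm_prod]
        refine Finset.prod_congr rfl fun l _ => ?_
        simp
      have h2 : ∀ l ∈ (range (n + 1)).erase k, ‖(z k - z l)⁻¹ * (u - z l)‖
          ≤ ((B + R) * n / R) * (|((k : ℝ) - l)|)⁻¹ := by
        intro l hl
        obtain ⟨hlk, hl'⟩ := Finset.mem_erase.1 hl
        have hl'' : l ≤ n := by have := Finset.mem_range.1 hl'; omega
        have h3 : (0 : ℝ) < |((k : ℝ) - l)| := by
          apply abs_pos.2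
          intro h3
          apply hlk
          have : (l : ℝ) = k := by linarith
          exact_mod_cast this
        have h4 : (0 : ℝ) < |((k : ℝ) - l)| * (R / n) := by positivity
        rw [norm_mul, norm_inv]
        calc ‖z k - z l‖⁻¹ * ‖u - z l‖ ≤ (|((k : ℝ) - l)| * (R / n))⁻¹ * (B + R) := by
              apply mul_le_mul (inv_anti₀ h4 (hdist k l hk' hl'')) (hul l hl'') (norm_nonneg _)
              positivity
          _ = ((B + R) * n / R) * (|((k : ℝ) - l)|)⁻¹ := by
              have := h3.ne'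
              field_simp
      have h5 : ∏ l ∈ (range (n + 1)).erase k, ‖(z k - z l)⁻¹ * (u - z l)‖
          ≤ ∏ l ∈ (range (n + 1)).erase k, ((B + R) * n / R) * (|((k : ℝ) - l)|)⁻¹ :=
        Finset.prod_le_prod (fun l _ => norm_nonneg _) h2
      have hcard : ((range (n + 1)).erase k).card = n := by
        rw [Finset.card_erase_of_mem hk, Finset.card_range]; rfl
      have h6 : ∏ l ∈ (range (n + 1)).erase k, |((k : ℝ) - l)|
          = (k.factorial : ℝ) * ((n - k).factorial : ℝ) := by
        have := mzl_prod_dist k (n - k)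
        rw [show k + (n - k) + 1 = n + 1 by omega] at this
        exact this
      rw [Finset.prod_mul_distrib, Finset.prod_const, hcard, Finset.prod_inv_distrib, h6] at h5
      rw [h1, one_div]
      exact h5
    have hP : (Lagrange.interpolate (range (n + 1)) z y).eval u
        = ∑ k ∈ range (n + 1), y k * (Lagrange.basis (range (n + 1)) z k).eval u := by
      rw [Lagrange.interpolate_apply, Polynomial.eval_finset_sum]
      refine Finset.sum_congr rfl fun k _ => ?_
      simp
    have hfac : (n : ℝ) ^ n / (n.factorial : ℝ) ≤ Real.exp n :=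
      Real.pow_div_factorial_le_exp (n : ℝ) hn0.le n
    calc ‖(Lagrange.interpolate (range (n + 1)) z y).eval u‖
        = ‖∑ k ∈ range (n + 1), y k * (Lagrange.basis (range (n + 1)) z k).eval u‖ := by rw [hP]
      _ ≤ ∑ k ∈ range (n + 1), ‖y k * (Lagrange.basis (range (n + 1)) z k).eval u‖ := norm_sum_le _ _
      _ ≤ ∑ k ∈ range (n + 1), A * (((B + R) * n / R) ^ n
            * (1 / ((k.factorial : ℝ) * ((n - k).factorial : ℝ)))) := by
          refine Finset.sum_le_sum fun k hk => ?_
          rw [norm_mul]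
          have hk' : k ≤ n := by have := Finset.mem_range.1 hk; omega
          exact mul_le_mul (hy k hk') (hbasis k hk) (norm_nonneg _) hA
      _ = A * (((B + R) * n / R) ^ n * (2 ^ n / (n.factorial : ℝ))) := by
          rw [← Finset.mul_sum, ← Finset.mul_sum, mzl_sum]
      _ = A * ((2 * ((B + R) / R)) ^ n * ((n : ℝ) ^ n / (n.factorial : ℝ))) := by
          rw [show (B + R) * n / R = ((B + R) / R) * n by ring, mul_pow, mul_pow]
          ring
      _ ≤ A * ((2 * ((B + R) / R)) ^ n * Real.exp n) := by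
          apply mul_le_mul_of_nonneg_left _ hA
          apply mul_le_mul_of_nonneg_left hfac
          positivity
      _ = A * (2 * Real.exp 1 * ((B + R) / R)) ^ n := by
          have he : Real.exp n = Real.exp 1 ^ n := by
            rw [← Real.exp_nat_mul, mul_one]
          rw [he, ← mul_pow]
          ring

end Pool.Agent.Helper107.MZ
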