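import Mathlib

set_option autoImplicit false

namespace Pool.Agent.Helper107.MZ
open Finset

/-- L4 (Remez type inequality), from the Schwarz lemma and the interpolation bound. -/
theorem mz_remez
    (mz_schwarz : ∀ (n : ℕ) (g : ℂ → ℂ) (z : ℕ → ℂ) (w : ℂ) (ρ r M : ℝ), Differentiable ℂ g →
      0 < r → r < ρ →
      (∀ i, i < n → ‖z i - w‖ ≤ r) →
      (∀ i, i < n → ∀ j, j < n → z i = z j → i = j) →
      (∀ i, i < n → g (z i) = 0) →
      (∀ u, ‖u - w‖ = ρ → ‖g u‖ ≤ M) →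
      ∀ u, ‖u - w‖ ≤ ρ → ‖g u‖ ≤ M * ∏ i ∈ range n, (‖u - z i‖ / (ρ - r)))
    (mz_lagrange : ∀ (n : ℕ) (_ : 1 ≤ n) (z y : ℕ → ℂ) (w : ℂ) (R A : ℝ) (_ : 0 < R) (_ : 0 ≤ A)
      (_ : ∀ k, k ≤ n → ‖z k - w‖ = k * R / n)
      (_ : ∀ k, k ≤ n → ‖y k‖ ≤ A),
      ∃ P : Polynomial ℂ, (∀ k, k ≤ n → P.eval (z k) = y k) ∧
        ∀ (B : ℝ) (u : ℂ), 0 ≤ B → ‖u - w‖ ≤ B →
          ‖P.eval u‖ ≤ A * (2 * Real.exp 1 * ((B + R) / R)) ^ n)
    (f : ℂ → ℂ) (hf : Differentiable ℂ f) (w : ℂ) (R A : ℝ) (hR : 1 ≤ R) (hA : 0 ≤ A) (E : Set ℂ)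
    (hE : ∀ r : ℝ, 0 ≤ r → r ≤ R → ∃ z ∈ E, ‖z - w‖ = r)
    (hfE : ∀ z ∈ E, ‖f z‖ ≤ A)
    (hD : ∀ M : ℝ, (∀ z, ‖z - w‖ ≤ R → ‖f z‖ ≤ M) → ∀ z, ‖f z‖ ≤ Real.exp (9 * ‖z - w‖) * M) :
    ∀ z, ‖z - w‖ ≤ R → ‖f z‖ ≤ Real.exp (300 * R) * A := by
  classical
  have hR0 : 0 < R := lt_of_lt_of_le one_pos hR
  -- the maximum
  obtain ⟨z0, hz0, hmax⟩ := (isCompact_closedBall w R).exists_isMaxOn
    ⟨w, Metric.mem_closedBall_self hR0.le⟩ (hf.continuous.norm.continuousOn)
  set M : ℝ := ‖f z0‖ with hMdef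
  have hM : ∀ z, ‖z - w‖ ≤ R → ‖f z‖ ≤ M := by
    intro z hz
    have : z ∈ Metric.closedBall w R := by rwa [mem_closedBall_iff_norm]
    exact hmax this
  have hz0' : ‖z0 - w‖ ≤ R := by rwa [mem_closedBall_iff_norm] at hz0
  have hM0 : 0 ≤ M := norm_nonneg _
  have hgrow := hD M hM
  -- the number of nodes
  set n : ℕ := ⌈90 * R⌉₊ with hn
  have hn1 : 90 * R ≤ n := Nat.le_ceil _
  have hn2 : (n : ℝ) ≤ 91 * R := by
    have := Nat.ceil_lt_add_one (show 0 ≤ 90 * R by positivity)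
    linarith
  have hnpos : (0 : ℝ) < n := by linarith
  have hn0 : 1 ≤ n := by
    have : 0 < n := by exact_mod_cast hnpos
    omega
  have hex : ∀ k : ℕ, ∃ z : ℂ, k ≤ n → (z ∈ E ∧ ‖z - w‖ = k * R / n) := by
    intro k
    by_cases hk : k ≤ n
    · have hk' : (k : ℝ) ≤ n := by exact_mod_cast hk
      obtain ⟨z, h1, h2⟩ := hE (k * R / n) (by positivity) (by
        rw [div_le_iff₀ hnpos]
        nlinarith)
      exact ⟨z, fun _ => ⟨h1, h2⟩⟩
    · exact ⟨0, fun h => absurd h hk⟩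
  choose z hz using hex
  obtain ⟨P, hP1, hP2⟩ := mz_lagrange n hn0 z (fun k => f (z k)) w R A hR0 hA
    (fun k hk => (hz k hk).2) (fun k hk => hfE _ (hz k hk).1)
  have he1 := Real.exp_one_lt_d9
  have he2 := Real.exp_one_gt_d9
  have hPR : ∀ u, ‖u - w‖ ≤ R → ‖P.eval u‖ ≤ A * 11 ^ n := by
    intro u hu
    refine (hP2 R u hR0.le hu).trans ?_
    apply mul_le_mul_of_nonneg_left _ hA
    apply pow_le_pow_left₀ (by positivity)
    have : (R + R) / R = 2 := by field_simp; ring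
    rw [this]
    linarith
  have hP21 : ∀ u, ‖u - w‖ ≤ 21 * R → ‖P.eval u‖ ≤ A * 120 ^ n := by
    intro u hu
    refine (hP2 (21 * R) u (by positivity) hu).trans ?_
    apply mul_le_mul_of_nonneg_left _ hA
    apply pow_le_pow_left₀ (by positivity)
    have : (21 * R + R) / R = 22 := by field_simp; ring
    rw [this]
    linarith
  set g : ℂ → ℂ := fun u => f u - P.eval u with hg
  have hgd : Differentiable ℂ g := hf.sub P.differentiable
  have hzR : ∀ i, i < n + 1 → ‖z i - w‖ ≤ R := by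
    intro i hi
    rw [(hz i (by omega)).2, div_le_iff₀ hnpos]
    have : (i : ℝ) ≤ n := by exact_mod_cast (by omega : i ≤ n)
    nlinarith
  have key := mz_schwarz (n + 1) g z w (21 * R) R (Real.exp (189 * R) * M + A * 120 ^ n) hgd hR0
    (by linarith) hzR (by
      intro i hi j hj hij
      have h1 := (hz i (by omega)).2
      have h2 := (hz j (by omega)).2
      rw [hij, h2] at h1
      have h3 : (j : ℝ) = i := by
        field_simp at h1
        exact h1
      exact_mod_cast h3.symm) (by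
      intro i hi
      simp only [hg]
      rw [hP1 i (by omega), sub_self]) (by
      intro u hu
      simp only [hg]
      refine (norm_sub_le _ _).trans (add_le_add ?_ (hP21 u hu.le))
      refine (hgrow u).trans (le_of_eq ?_)
      rw [hu]
      congr 2
      ring)
  have hg0 : ‖g z0‖ ≤ (Real.exp (189 * R) * M + A * 120 ^ n) * (1 / 10) ^ (n + 1) := by
    refine (key z0 (by linarith)).trans ?_
    apply mul_le_mul_of_nonneg_left _ (by positivity)
    calc ∏ i ∈ range (n + 1), (‖z0 - z i‖ / (21 * R - R)) ≤ ∏ i ∈ range (n + 1), (1 / 10 : ℝ) := by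
          apply Finset.prod_le_prod
          · intro i _
            apply div_nonneg (norm_nonneg _) (by linarith)
          · intro i hi
            rw [Finset.mem_range] at hi
            rw [div_le_iff₀ (by linarith)]
            have h1 : ‖z0 - z i‖ ≤ ‖z0 - w‖ + ‖z i - w‖ := by
              have : z0 - z i = (z0 - w) - (z i - w) := by ring
              rw [this]
              exact norm_sub_le _ _
            have h2 := hzR i hi
            linarith
      _ = (1 / 10) ^ (n + 1) := by simp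
  -- numbers
  have h21 : Real.exp (21 / 10) ≤ 10 := by
    have h1 : Real.exp (21 / 10) ^ 10 ≤ 10 ^ 10 := by
      rw [← Real.exp_nat_mul]
      have h2 : ((10 : ℕ) : ℝ) * (21 / 10) = ((21 : ℕ) : ℝ) * 1 := by norm_num
      rw [h2, Real.exp_nat_mul]
      calc Real.exp 1 ^ 21 ≤ (2.72 : ℝ) ^ 21 :=
            pow_le_pow_left₀ (Real.exp_pos 1).le (by linarith) _
        _ ≤ 10 ^ 10 := by norm_num
    exact le_of_pow_le_pow_left₀ (by norm_num) (by norm_num) h1
  have h189 : Real.exp (189 * R) ≤ 10 ^ n := by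
    calc Real.exp (189 * R) ≤ Real.exp (n * (21 / 10)) := by
          apply Real.exp_le_exp.2
          linarith
      _ = Real.exp (21 / 10) ^ n := by rw [Real.exp_nat_mul]
      _ ≤ 10 ^ n := pow_le_pow_left₀ (Real.exp_pos _).le h21 _
  have hpow : ((1 : ℝ) / 10) ^ (n + 1) * 10 ^ n = 1 / 10 := by
    rw [pow_succ, mul_right_comm, ← mul_pow]
    norm_num
  have hpow2 : (120 : ℝ) ^ n * (1 / 10) ^ (n + 1) = 12 ^ n * (1 / 10) := by
    rw [pow_succ, ← mul_assoc, ← mul_pow]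
    norm_num
  have h12 : (11 : ℝ) ^ n ≤ 12 ^ n := pow_le_pow_left₀ (by norm_num) (by norm_num) _
  have hfz : M ≤ A * 11 ^ n + (M * (1 / 10) + A * (12 ^ n * (1 / 10))) := by
    have h1 : f z0 = P.eval z0 + g z0 := by simp [hg]
    have h2 : M ≤ ‖P.eval z0‖ + ‖g z0‖ := by
      rw [hMdef, h1]
      exact norm_add_le _ _
    have h3 := hPR z0 hz0'
    have h4 : (Real.exp (189 * R) * M + A * 120 ^ n) * (1 / 10) ^ (n + 1) ≤
        M * (1 / 10) + A * (12 ^ n * (1 / 10)) := by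
      rw [add_mul, mul_assoc A, hpow2]
      have h5 : Real.exp (189 * R) * M * (1 / 10) ^ (n + 1) ≤ M * (1 / 10) := by
        calc Real.exp (189 * R) * M * (1 / 10) ^ (n + 1)
            ≤ 10 ^ n * M * (1 / 10) ^ (n + 1) := by
              apply mul_le_mul_of_nonneg_right _ (by positivity)
              exact mul_le_mul_of_nonneg_right h189 hM0
          _ = M * ((1 / 10) ^ (n + 1) * 10 ^ n) := by ring
          _ = M * (1 / 10) := by rw [hpow]
      linarith
    linarith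
  have hA12 : 0 ≤ A * 12 ^ n := by positivity
  have hM2 : M ≤ 2 * (A * 12 ^ n) := by
    have := mul_le_mul_of_nonneg_left h12 hA
    linarith
  have h300 : 2 * (12 : ℝ) ^ n ≤ Real.exp (300 * R) := by
    have h1 : (12 : ℝ) ≤ Real.exp 3 := by
      have h2 : Real.exp 3 = Real.exp 1 ^ 3 := by rw [← Real.exp_nat_mul]; norm_num
      rw [h2]
      calc (12 : ℝ) ≤ 2.7 ^ 3 := by norm_num
        _ ≤ Real.exp 1 ^ 3 := pow_le_pow_left₀ (by norm_num) (by linarith) _
    have h2 : (12 : ℝ) ^ n ≤ Real.exp (273 * R) := by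
      calc (12 : ℝ) ^ n ≤ Real.exp 3 ^ n := pow_le_pow_left₀ (by norm_num) h1 _
        _ = Real.exp (n * 3) := by rw [Real.exp_nat_mul]
        _ ≤ Real.exp (273 * R) := by
          apply Real.exp_le_exp.2
          linarith
    have h3 : (2 : ℝ) ≤ Real.exp (27 * R) := by
      have := Real.add_one_le_exp (27 * R)
      linarith
    have h4 : Real.exp (300 * R) = Real.exp (27 * R) * Real.exp (273 * R) := by
      rw [← Real.exp_add]; congr 1; ring
    rw [h4]
    exact mul_le_mul h3 h2 (by positivity) (by positivity)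
  intro u hu
  calc ‖f u‖ ≤ M := hM u hu
    _ ≤ 2 * (A * 12 ^ n) := hM2
    _ = (2 * 12 ^ n) * A := by ring
    _ ≤ Real.exp (300 * R) * A := mul_le_mul_of_nonneg_right h300 hA

end Pool.Agent.Helper107.MZ
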