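import Mathlib

set_option autoImplicit false

namespace Pool.Agent.Helper107.MZ
open Finset

/-- the decreasing majorant -/
noncomputable def h441_phi (N : ℕ) (k : ℕ) : ℝ := max 0 (Real.log (4 * N / (2 * k + 1)))

theorem h441_phi_nonneg (N k : ℕ) : 0 ≤ h441_phi N k := le_max_left _ _

theorem h441_phi_anti (N : ℕ) (hN : 1 ≤ N) {k l : ℕ} (h : k ≤ l) :
    h441_phi N l ≤ h441_phi N k := by
  unfold h441_phi
  apply max_le_max (le_refl _)
  have hN' : (1 : ℝ) ≤ N := by exact_mod_cast hN
  have hk : (0 : ℝ) ≤ k := Nat.cast_nonneg k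
  have hl : (k : ℝ) ≤ l := by exact_mod_cast h
  apply Real.log_le_log
  · positivity
  · apply div_le_div_of_nonneg_left <;> first | positivity | linarith

theorem h441_log_sum (N : ℕ) :
    (N : ℝ) * Real.log N - N ≤ ∑ k ∈ range N, Real.log ((k : ℝ) + 1) := by
  induction N with
  | zero => simp
  | succ N ih =>
    rw [Finset.sum_range_succ]
    push_cast
    rcases Nat.eq_zero_or_pos N with h | h
    · subst h
      simp
    · have hN : (0 : ℝ) < N := by exact_mod_cast h
      have h1 : Real.log ((N : ℝ) + 1) - Real.log N ≤ 1 / N := by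
        rw [← Real.log_div (by positivity) (by positivity)]
        have h2 := Real.log_le_sub_one_of_pos (show (0 : ℝ) < ((N : ℝ) + 1) / N by positivity)
        have h3 : ((N : ℝ) + 1) / N - 1 = 1 / N := by field_simp; ring
        linarith
      have h4 : (N : ℝ) * (Real.log ((N : ℝ) + 1) - Real.log N) ≤ 1 := by
        calc (N : ℝ) * (Real.log ((N : ℝ) + 1) - Real.log N) ≤ N * (1 / N) :=
              mul_le_mul_of_nonneg_left h1 hN.le
          _ = 1 := by field_simp
      nlinarith

theorem h441_phi_sum (N : ℕ) (hN : 1 ≤ N) :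
    ∑ k ∈ range N, h441_phi N k ≤ 5 / 2 * N := by
  have hN' : (1 : ℝ) ≤ N := by exact_mod_cast hN
  have h1 : ∀ k ∈ range N, h441_phi N k ≤ Real.log 4 + Real.log N - Real.log ((k : ℝ) + 1) := by
    intro k hk
    have hk' : k < N := Finset.mem_range.mp hk
    have hk0 : (0 : ℝ) ≤ k := Nat.cast_nonneg k
    have hk1 : (k : ℝ) + 1 ≤ N := by exact_mod_cast hk'
    have e1 : Real.log 4 + Real.log N - Real.log ((k : ℝ) + 1) = Real.log (4 * N / ((k : ℝ) + 1)) := by
      rw [Real.log_div (by positivity) (by positivity), Real.log_mul (by norm_num) (by positivity)]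
    rw [e1]
    unfold h441_phi
    apply max_le
    · apply Real.log_nonneg
      rw [le_div_iff₀ (by positivity)]
      linarith
    · apply Real.log_le_log
      · positivity
      · apply div_le_div_of_nonneg_left <;> first | positivity | linarith
  refine (Finset.sum_le_sum h1).trans ?_
  rw [Finset.sum_sub_distrib, Finset.sum_const, card_range, nsmul_eq_mul]
  have h2 := h441_log_sum N
  have h3 : Real.log 4 = 2 * Real.log 2 := by
    rw [show (4 : ℝ) = 2 ^ 2 by norm_num, Real.log_pow]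
    push_cast
    ring
  have h4 := Real.log_two_lt_d9
  rw [mul_add, h3]
  nlinarith

theorem h441_term (N m p : ℕ) (hm1 : N ≤ m) (hm2 : m < 2 * N) (k : ℕ)
    (hk : |(m : ℝ) + 1 / 2 - p| = (k : ℝ) + 1 / 2) :
    max 0 (Real.log (((m : ℝ) + 1 / 2) / |(m : ℝ) + 1 / 2 - p|)) ≤ h441_phi N k := by
  unfold h441_phi
  apply max_le_max (le_refl _)
  rw [hk]
  have hk0 : (0 : ℝ) ≤ k := Nat.cast_nonneg k
  have hm0 : (0 : ℝ) ≤ m := Nat.cast_nonneg m
  have hm3 : (m : ℝ) + 1 ≤ 2 * N := by exact_mod_cast hm2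
  apply Real.log_le_log
  · positivity
  · rw [div_le_div_iff₀ (by positivity) (by positivity)]
    nlinarith

theorem h441_Sp (N : ℕ) (hN : 1 ≤ N) (p : ℕ) :
    ∑ m ∈ Ico N (2 * N), max 0 (Real.log (((m : ℝ) + 1 / 2) / |(m : ℝ) + 1 / 2 - p|)) ≤ 5 * N := by
  have hA : ∑ m ∈ (Ico N (2 * N)).filter (fun m => p ≤ m),
      max 0 (Real.log (((m : ℝ) + 1 / 2) / |(m : ℝ) + 1 / 2 - p|)) ≤ 5 / 2 * N := by
    set q := max p N with hq
    have h1 : ∀ m ∈ (Ico N (2 * N)).filter (fun m => p ≤ m),
        max 0 (Real.log (((m : ℝ) + 1 / 2) / |(m : ℝ) + 1 / 2 - p|)) ≤ h441_phi N (m - q) := by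
      intro m hm
      simp only [Finset.mem_filter, Finset.mem_Ico] at hm
      have hmp : (p : ℝ) ≤ m := by exact_mod_cast hm.2
      refine (h441_term N m p hm.1.1 hm.1.2 (m - p) ?_).trans (h441_phi_anti N hN ?_)
      · rw [abs_of_nonneg (by linarith), Nat.cast_sub hm.2]
        ring
      · omega
    refine (Finset.sum_le_sum h1).trans ?_
    have h2 : (Ico N (2 * N)).filter (fun m => p ≤ m) = Ico q (2 * N) := by
      ext m
      simp only [Finset.mem_filter, Finset.mem_Ico]
      omega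
    rw [h2, Finset.sum_Ico_eq_sum_range]
    refine le_trans ?_ (h441_phi_sum N hN)
    have h3 : ∀ i ∈ range (2 * N - q), h441_phi N (q + i - q) = h441_phi N i := by
      intro i _
      congr 1
      omega
    rw [Finset.sum_congr rfl h3]
    apply Finset.sum_le_sum_of_subset_of_nonneg
    · apply Finset.range_subset_range.mpr
      omega
    · intro i _ _
      exact h441_phi_nonneg N i
  have hB : ∑ m ∈ (Ico N (2 * N)).filter (fun m => ¬ p ≤ m),
      max 0 (Real.log (((m : ℝ) + 1 / 2) / |(m : ℝ) + 1 / 2 - p|)) ≤ 5 / 2 * N := by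
    set q := min p (2 * N) with hq
    have h1 : ∀ m ∈ (Ico N (2 * N)).filter (fun m => ¬ p ≤ m),
        max 0 (Real.log (((m : ℝ) + 1 / 2) / |(m : ℝ) + 1 / 2 - p|)) ≤ h441_phi N (q - 1 - m) := by
      intro m hm
      simp only [Finset.mem_filter, Finset.mem_Ico] at hm
      have hmp : (m : ℝ) + 1 ≤ p := by
        have : m + 1 ≤ p := by omega
        exact_mod_cast this
      refine (h441_term N m p hm.1.1 hm.1.2 (p - 1 - m) ?_).trans (h441_phi_anti N hN ?_)
      · rw [abs_of_nonpos (by linarith), show p - 1 - m = p - (m + 1) by omega,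
          Nat.cast_sub (by omega)]
        push_cast
        ring
      · omega
    refine (Finset.sum_le_sum h1).trans ?_
    have h2 : (Ico N (2 * N)).filter (fun m => ¬ p ≤ m) = Ico N q := by
      ext m
      simp only [Finset.mem_filter, Finset.mem_Ico]
      omega
    rw [h2, Finset.sum_Ico_eq_sum_range]
    refine le_trans ?_ (h441_phi_sum N hN)
    have h3 : ∀ i ∈ range (q - N), h441_phi N (q - 1 - (N + i)) = h441_phi N (q - N - 1 - i) := by
      intro i _
      congr 1
      omega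
    rw [Finset.sum_congr rfl h3, Finset.sum_range_reflect (fun j => h441_phi N j) (q - N)]
    apply Finset.sum_le_sum_of_subset_of_nonneg
    · apply Finset.range_subset_range.mpr
      omega
    · intro i _ _
      exact h441_phi_nonneg N i
  rw [← Finset.sum_filter_add_sum_filter_not (Ico N (2 * N)) (fun m => p ≤ m)]
  linarith

/-- L5 (good cuts): averaging over half integers. -/
theorem mz_cut (N : ℕ) (hN : 1 ≤ N) (P : Finset ℕ) :
    ∃ m : ℕ, N ≤ m ∧ m < 2 * N ∧
      ∑ p ∈ P, max 0 (Real.log (((m : ℝ) + 1 / 2) / |(m : ℝ) + 1 / 2 - p|)) ≤ 5 * P.card := by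
  have hne : (Ico N (2 * N)).Nonempty := ⟨N, by simp; omega⟩
  have hsum : ∑ m ∈ Ico N (2 * N),
      ∑ p ∈ P, max 0 (Real.log (((m : ℝ) + 1 / 2) / |(m : ℝ) + 1 / 2 - p|))
      ≤ ∑ m ∈ Ico N (2 * N), (5 * P.card : ℝ) := by
    rw [Finset.sum_comm]
    refine (Finset.sum_le_sum fun p _ => h441_Sp N hN p).trans ?_
    rw [Finset.sum_const, Finset.sum_const, Nat.card_Ico, nsmul_eq_mul, nsmul_eq_mul]
    rw [show 2 * N - N = N by omega]
    apply le_of_eq
    ring
  obtain ⟨m, hm, hle⟩ := Finset.exists_le_of_sum_le hne hsum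
  rw [Finset.mem_Ico] at hm
  exact ⟨m, hm.1, hm.2, hle⟩

end Pool.Agent.Helper107.MZ
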