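import Mathlib

set_option autoImplicit false

namespace Pool.Agent.Helper107.MZ
open Finset

theorem os_round (x : ℝ) : ∃ k : ℤ, |x - 2 * Real.pi * k| ≤ min |x| Real.pi := by
  by_cases h : |x| ≤ Real.pi
  · refine ⟨0, ?_⟩
    rw [min_eq_left h]
    simp
  · refine ⟨round (x / (2 * Real.pi)), ?_⟩
    rw [min_eq_right (not_le.mp h).le]
    have h1 := abs_sub_round (x / (2 * Real.pi))
    have hpi := Real.pi_pos
    have e : x - 2 * Real.pi * (round (x / (2 * Real.pi)) : ℤ) =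
        (2 * Real.pi) * (x / (2 * Real.pi) - (round (x / (2 * Real.pi)) : ℤ)) := by
      field_simp
    rw [e, abs_mul, abs_of_pos (by positivity)]
    calc 2 * Real.pi * |x / (2 * Real.pi) - (round (x / (2 * Real.pi)) : ℤ)|
        ≤ 2 * Real.pi * (1 / 2) := mul_le_mul_of_nonneg_left h1 (by positivity)
      _ = Real.pi := by ring

theorem os_circle {γ : ℝ → ℂ} {t₀ τ s ρ : ℝ} (hγ : ContinuousOn γ (Set.Icc t₀ τ))
    (hs : s ∈ Set.Icc t₀ τ) (hlong : 4 * ρ ≤ (γ τ).re - (γ t₀).re) (r : ℝ) (hr0 : 0 ≤ r)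
    (hr : r ≤ 2 * ρ) : ∃ z ∈ γ '' Set.Icc t₀ τ, ‖z - γ s‖ = r := by
  have h0 : t₀ ≤ τ := hs.1.trans hs.2
  have key : ∀ e ∈ Set.Icc t₀ τ, 2 * ρ ≤ ‖γ e - γ s‖ → ∃ z ∈ γ '' Set.Icc t₀ τ, ‖z - γ s‖ = r := by
    intro e he hre
    have hsub : Set.uIcc s e ⊆ Set.Icc t₀ τ := Set.uIcc_subset_Icc hs he
    have hc : ContinuousOn (fun u => ‖γ u - γ s‖) (Set.uIcc s e) :=
      ((hγ.mono hsub).sub continuousOn_const).norm
    have hivt := intermediate_value_uIcc hc
    have hmem : r ∈ Set.uIcc ‖γ s - γ s‖ ‖γ e - γ s‖ := by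
      rw [sub_self, norm_zero, Set.uIcc_of_le (norm_nonneg _)]
      exact ⟨hr0, hr.trans hre⟩
    obtain ⟨u, hu, hur⟩ := hivt hmem
    exact ⟨γ u, ⟨u, hsub hu, rfl⟩, hur⟩
  by_cases h : 2 * ρ ≤ (γ τ).re - (γ s).re
  · apply key τ ⟨h0, le_rfl⟩
    have h1 := Complex.abs_re_le_norm (γ τ - γ s)
    rw [Complex.sub_re] at h1
    exact h.trans ((le_abs_self _).trans h1)
  · apply key t₀ ⟨le_rfl, h0⟩
    have h1 := Complex.abs_re_le_norm (γ t₀ - γ s)
    rw [Complex.sub_re] at h1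
    have h2 := neg_abs_le ((γ t₀).re - (γ s).re)
    push Not at h
    linarith

theorem os_period (p : ℕ) (z : ℂ) (k : ℤ) :
    Complex.exp ((p : ℂ) * (z + 2 * Real.pi * Complex.I * k)) = Complex.exp ((p : ℂ) * z) := by
  have e : (p : ℂ) * (z + 2 * Real.pi * Complex.I * k) =
      (p : ℂ) * z + ((p * k : ℤ) : ℂ) * (2 * Real.pi * Complex.I) := by
    push_cast
    ring
  rw [e, Complex.exp_add, Complex.exp_int_mul_two_pi_mul_I, mul_one]

/-- the quantity controlling a bad time -/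
noncomputable def osPhi (c R ε : ℝ) (γ : ℝ → ℂ) (s t : ℝ) : ℝ :=
  620 * R + R * Real.log (1 + (|(γ s).re - (γ t).re| + min |(γ s).im - (γ t).im| Real.pi) * c / R)
    + Real.log (1 / ε) - c * ((γ s).re - (γ t).re)

theorem os_arg {c R : ℝ} (hc : 0 < c) (hR : 1 ≤ R) (x y : ℝ) :
    1 ≤ 1 + (|x| + min |y| Real.pi) * c / R := by
  have h1 : 0 ≤ min |y| Real.pi := le_min (abs_nonneg _) Real.pi_pos.le
  have : 0 ≤ (|x| + min |y| Real.pi) * c / R := by positivity
  linarith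

theorem osPhi_self {c R ε : ℝ} (hc : 0 < c) (hR : 1 ≤ R) (hε : 0 < ε) (hε1 : ε ≤ 1)
    (γ : ℝ → ℂ) (t : ℝ) : 0 ≤ osPhi c R ε γ t t := by
  unfold osPhi
  have h1 : 0 ≤ Real.log (1 + (|(γ t).re - (γ t).re| + min |(γ t).im - (γ t).im| Real.pi) * c / R) :=
    Real.log_nonneg (os_arg hc hR _ _)
  have h2 : 0 ≤ Real.log (1 / ε) := Real.log_nonneg (by rw [le_div_iff₀ hε]; linarith)
  rw [sub_self, mul_zero]
  rw [sub_self] at h1
  nlinarith [mul_nonneg (by linarith : (0:ℝ) ≤ R) h1]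

theorem osPhi_cont {c R ε : ℝ} (hc : 0 < c) (hR : 1 ≤ R) {γ : ℝ → ℂ} {S : Set ℝ}
    (hγ : ContinuousOn γ S) (s : ℝ) : ContinuousOn (osPhi c R ε γ s) S := by
  have hre : ContinuousOn (fun t => (γ t).re) S := Complex.continuous_re.comp_continuousOn hγ
  have him : ContinuousOn (fun t => (γ t).im) S := Complex.continuous_im.comp_continuousOn hγ
  unfold osPhi
  have h1 : ContinuousOn (fun t =>
      1 + (|(γ s).re - (γ t).re| + min |(γ s).im - (γ t).im| Real.pi) * c / R) S := by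
    apply continuousOn_const.add
    apply ContinuousOn.div_const
    apply ContinuousOn.mul _ continuousOn_const
    apply ContinuousOn.add
    · exact (continuousOn_const.sub hre).abs
    · exact ((continuousOn_const.sub him).abs).inf continuousOn_const
  have h2 := h1.log (fun t _ => by
    have := os_arg hc hR ((γ s).re - (γ t).re) ((γ s).im - (γ t).im)
    linarith)
  exact (((continuousOn_const.add (continuousOn_const.mul h2)).add continuousOn_const).sub
    (continuousOn_const.mul (continuousOn_const.sub hre)))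

/-- The one step lemma: passing from exponents `< c'` to exponents `< c` along a path.  The hypothesis
`mz_step` is an already proved lemma (do not prove it here, just use it). -/
theorem mz_onestep
    (mz_step : ∀ (P : Finset ℕ) (a : ℕ → ℂ) (c R A : ℝ) (_ : 0 < c) (_ : 1 ≤ R)
      (_ : (P.card : ℝ) ≤ R) (_ : ∀ p ∈ P, (p : ℝ) ≤ 4 * c) (_ : ∀ p ∈ P, (p : ℝ) ≠ c)
      (_ : ∑ p ∈ P, max 0 (Real.log (c / |c - p|)) ≤ 5 * R) (_ : 0 ≤ A) (E : Set ℂ)
      (_ : ∀ z ∈ E, ‖∑ p ∈ P, a p * Complex.exp ((p : ℂ) * z)‖ ≤ A) (w : ℂ)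
      (_ : ∀ r : ℝ, 0 ≤ r → r ≤ 2 * (R / c) → ∃ z ∈ E, ‖z - w‖ = r)
      (ζ : ℂ) (_ : ζ.re ≤ w.re) (D : ℝ) (_ : ‖w - ζ‖ ≤ D) (_ : R / c ≤ D),
      ‖∑ p ∈ P.filter (fun p : ℕ => c < (p : ℝ)), a p * Complex.exp ((p : ℂ) * ζ)‖ ≤
        A * Real.exp (-(c * (w.re - ζ.re)) + 620 * R + R * Real.log (D * c / R)))
    (P : Finset ℕ) (a : ℕ → ℂ) (c R A : ℝ) (hc : 0 < c) (hR : 1 ≤ R)
    (hcard : (P.card : ℝ) ≤ R) (hP4 : ∀ p ∈ P, (p : ℝ) ≤ 4 * c) (hPc : ∀ p ∈ P, (p : ℝ) ≠ c)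
    (hΛ : ∑ p ∈ P, max 0 (Real.log (c / |c - p|)) ≤ 5 * R) (hA : 0 ≤ A)
    (γ : ℝ → ℂ) (t₀ τ : ℝ) (h0 : t₀ ≤ τ) (hγ : ContinuousOn γ (Set.Icc t₀ τ))
    (hbd : ∀ t ∈ Set.Icc t₀ τ, ‖∑ p ∈ P, a p * Complex.exp ((p : ℂ) * γ t)‖ ≤ A)
    (hlong : 4 * (R / c) ≤ (γ τ).re - (γ t₀).re) (ε : ℝ) (hε : 0 < ε) (hε1 : ε ≤ 1) :
    ∃ τ' ∈ Set.Icc t₀ τ,
      (t₀ < τ' → ∀ t ∈ Set.Icc t₀ τ',
        ‖∑ p ∈ P.filter (fun p : ℕ => (p : ℝ) < c), a p * Complex.exp ((p : ℂ) * γ t)‖ ≤ (1 + ε) * A) ∧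
      ∀ s ∈ Set.Icc τ' τ, c * ((γ s).re - (γ τ').re) ≤ 620 * R +
        R * Real.log (1 + (|(γ s).re - (γ τ').re| + min |(γ s).im - (γ τ').im| Real.pi) * c / R)
        + Real.log (1 / ε) := by
  classical
  have hR0 : 0 < R := by linarith
  set Bad : Set ℝ := {t | t ∈ Set.Icc t₀ τ ∧ ∀ s ∈ Set.Icc t τ, 0 ≤ osPhi c R ε γ s t} with hBad
  have hτBad : τ ∈ Bad := by
    refine ⟨⟨h0, le_rfl⟩, fun s hs => ?_⟩
    have : s = τ := le_antisymm hs.2 hs.1
    rw [this]
    exact osPhi_self hc hR hε hε1 γ τ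
  have hbdd : BddBelow Bad := ⟨t₀, fun t ht => ht.1.1⟩
  set τ' := sInf Bad with hτ'
  have hτ'1 : t₀ ≤ τ' := le_csInf ⟨τ, hτBad⟩ fun t ht => ht.1.1
  have hτ'2 : τ' ≤ τ := csInf_le hbdd hτBad
  have hsecond : ∀ s ∈ Set.Icc τ' τ, 0 ≤ osPhi c R ε γ s τ' := by
    intro s hs
    rcases hs.1.eq_or_lt with h | h
    · rw [← h]
      exact osPhi_self hc hR hε hε1 γ τ'
    · obtain ⟨u, _, hu2, hu3⟩ := exists_seq_tendsto_sInf ⟨τ, hτBad⟩ hbdd
      have hcont := (osPhi_cont (ε := ε) hc hR hγ s) τ' ⟨hτ'1, hτ'2⟩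
      have ht : Filter.Tendsto (fun j => osPhi c R ε γ s (u j)) Filter.atTop
          (nhds (osPhi c R ε γ s τ')) := by
        refine hcont.tendsto.comp ?_
        rw [tendsto_nhdsWithin_iff]
        exact ⟨hu2, Filter.Eventually.of_forall fun j => (hu3 j).1⟩
      refine ge_of_tendsto ht ?_
      have hev : ∀ᶠ j in Filter.atTop, u j < s := hu2.eventually (eventually_lt_nhds h)
      filter_upwards [hev] with j hj
      exact (hu3 j).2 s ⟨hj.le, hs.2⟩
  have hfirst : ∀ t, t₀ ≤ t → t < τ' →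
      ‖∑ p ∈ P.filter (fun p : ℕ => (p : ℝ) < c), a p * Complex.exp ((p : ℂ) * γ t)‖ ≤
        (1 + ε) * A := by
    intro t ht1 ht2
    have htmem : t ∈ Set.Icc t₀ τ := ⟨ht1, ht2.le.trans hτ'2⟩
    have hnb : t ∉ Bad := fun h => absurd (csInf_le hbdd h) (not_le.mpr ht2)
    have hex : ∃ s ∈ Set.Icc t τ, osPhi c R ε γ s t < 0 := by
      by_contra hcon
      push Not at hcon
      exact hnb ⟨htmem, hcon⟩
    obtain ⟨s, hs, hsneg⟩ := hex
    have hsmem : s ∈ Set.Icc t₀ τ := ⟨ht1.trans hs.1, hs.2⟩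
    obtain ⟨k, hk⟩ := os_round ((γ s).im - (γ t).im)
    set T := (γ s).re - (γ t).re with hT
    set m := min |(γ s).im - (γ t).im| Real.pi with hm
    have hm0 : 0 ≤ m := le_min (abs_nonneg _) Real.pi_pos.le
    have hlog0 : 0 ≤ Real.log (1 + (|T| + m) * c / R) :=
      Real.log_nonneg (os_arg hc hR _ _)
    have hlogε : 0 ≤ Real.log (1 / ε) := Real.log_nonneg (by rw [le_div_iff₀ hε]; linarith)
    have hsneg' : 620 * R + R * Real.log (1 + (|T| + m) * c / R) + Real.log (1 / ε) < c * T := by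
      unfold osPhi at hsneg
      linarith
    have hT0 : 0 < T := by
      have h1 : 0 ≤ R * Real.log (1 + (|T| + m) * c / R) := mul_nonneg hR0.le hlog0
      have h2 : 0 < c * T := by linarith
      exact (mul_pos_iff_of_pos_left hc).1 h2
    rw [abs_of_pos hT0] at hsneg'
    set ζ : ℂ := γ t + 2 * Real.pi * Complex.I * k with hζ
    have hζre : ζ.re = (γ t).re := by
      rw [hζ]
      simp
    have hζim : ζ.im = (γ t).im + 2 * Real.pi * k := by
      rw [hζ]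
      simp
    have hwζ : ‖γ s - ζ‖ ≤ R / c + (T + m) := by
      have h1 := Complex.norm_le_abs_re_add_abs_im (γ s - ζ)
      rw [Complex.sub_re, Complex.sub_im, hζre, hζim, ← hT, abs_of_pos hT0] at h1
      have h2 : (γ s).im - ((γ t).im + 2 * Real.pi * k) =
        (γ s).im - (γ t).im - 2 * Real.pi * k := by ring
      rw [h2] at h1
      have h3 : 0 < R / c := by positivity
      linarith
    have hstep := mz_step P a c R A hc hR hcard hP4 hPc hΛ hA (γ '' Set.Icc t₀ τ) (by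
        rintro _ ⟨u, hu, rfl⟩
        exact hbd u hu) (γ s) (os_circle hγ hsmem hlong) ζ (by rw [hζre]; linarith)
      (R / c + (T + m)) hwζ (by linarith)
    have hexp : A * Real.exp (-(c * ((γ s).re - ζ.re)) + 620 * R +
        R * Real.log ((R / c + (T + m)) * c / R)) ≤ ε * A := by
      have e1 : (R / c + (T + m)) * c / R = 1 + (T + m) * c / R := by
        field_simp
      rw [hζre, ← hT, e1]
      have h1 : Real.exp (-(c * T) + 620 * R + R * Real.log (1 + (T + m) * c / R)) ≤ ε := by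
        have h2 : -(c * T) + 620 * R + R * Real.log (1 + (T + m) * c / R) ≤ Real.log ε := by
          have h3 : Real.log (1 / ε) = -Real.log ε := by
            rw [one_div, Real.log_inv]
          rw [h3] at hsneg'
          linarith
        calc _ ≤ Real.exp (Real.log ε) := Real.exp_le_exp.2 h2
          _ = ε := Real.exp_log hε
      nlinarith
    have hB : ∑ p ∈ P.filter (fun p : ℕ => c < (p : ℝ)), a p * Complex.exp ((p : ℂ) * ζ) =
        ∑ p ∈ P.filter (fun p : ℕ => c < (p : ℝ)), a p * Complex.exp ((p : ℂ) * γ t) := by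
      refine Finset.sum_congr rfl fun p _ => ?_
      rw [hζ, os_period]
    rw [hB] at hstep
    have hsplit : ∑ p ∈ P, a p * Complex.exp ((p : ℂ) * γ t) =
        (∑ p ∈ P.filter (fun p : ℕ => (p : ℝ) < c), a p * Complex.exp ((p : ℂ) * γ t)) +
        ∑ p ∈ P.filter (fun p : ℕ => c < (p : ℝ)), a p * Complex.exp ((p : ℂ) * γ t) := by
      rw [← Finset.sum_filter_add_sum_filter_not P (fun p : ℕ => (p : ℝ) < c)]
      congr 1
      apply Finset.sum_congr _ fun _ _ => rfl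
      apply Finset.filter_congr
      intro p hp
      have := hPc p hp
      constructor
      · intro h
        exact lt_of_le_of_ne (not_lt.mp h) this.symm
      · intro h
        exact not_lt.mpr h.le
    have hfin := hbd t htmem
    rw [hsplit] at hfin
    set F := ∑ p ∈ P.filter (fun p : ℕ => (p : ℝ) < c), a p * Complex.exp ((p : ℂ) * γ t)
    set B := ∑ p ∈ P.filter (fun p : ℕ => c < (p : ℝ)), a p * Complex.exp ((p : ℂ) * γ t)
    have h1 : ‖F‖ ≤ ‖F + B‖ + ‖B‖ := by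
      have e : F = (F + B) - B := by ring
      calc ‖F‖ = ‖(F + B) - B‖ := by rw [← e]
        _ ≤ _ := norm_sub_le _ _
    linarith [hstep.trans hexp]
  refine ⟨τ', ⟨hτ'1, hτ'2⟩, ?_, ?_⟩
  · intro hlt t ht
    rcases ht.2.lt_or_eq with h | h
    · exact hfirst t ht.1 h
    · rw [h]
      have hcl : τ' ∈ closure (Set.Ico t₀ τ') := by
        rw [closure_Ico hlt.ne]
        exact ⟨hτ'1, le_rfl⟩
      have hcont : ContinuousOn (fun t =>
          ‖∑ p ∈ P.filter (fun p : ℕ => (p : ℝ) < c), a p * Complex.exp ((p : ℂ) * γ t)‖)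
          (Set.Icc t₀ τ) := by
        apply ContinuousOn.norm
        apply continuousOn_finsetSum
        intro p _
        apply continuousOn_const.mul
        exact Complex.continuous_exp.comp_continuousOn (continuousOn_const.mul hγ)
      have hcw := (hcont τ' ⟨hτ'1, hτ'2⟩).mono
        (show Set.Ico t₀ τ' ⊆ Set.Icc t₀ τ from fun x hx => ⟨hx.1, hx.2.le.trans hτ'2⟩)
      exact ContinuousWithinAt.closure_le hcl hcw continuousWithinAt_const
        (fun y hy => hfirst y hy.1 hy.2)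
  · intro s hs
    have := hsecond s hs
    unfold osPhi at this
    linarith

end Pool.Agent.Helper107.MZ
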