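import Mathlib

set_option autoImplicit false

namespace Pool.Agent.Helper107.MZ
open Finset

/-- Telescoping the one step lemma from level `N` down to level `n₀`.  The hypothesis
`mz_onestep` is an already proved lemma (do not prove it here, just use it). -/
theorem mz_tel
    (mz_onestep : ∀ (P : Finset ℕ) (a : ℕ → ℂ) (c R A : ℝ) (_ : 0 < c) (_ : 1 ≤ R)
      (_ : (P.card : ℝ) ≤ R) (_ : ∀ p ∈ P, (p : ℝ) ≤ 4 * c) (_ : ∀ p ∈ P, (p : ℝ) ≠ c)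
      (_ : ∑ p ∈ P, max 0 (Real.log (c / |c - p|)) ≤ 5 * R) (_ : 0 ≤ A)
      (γ : ℝ → ℂ) (t₀ τ : ℝ) (_ : t₀ ≤ τ) (_ : ContinuousOn γ (Set.Icc t₀ τ))
      (_ : ∀ t ∈ Set.Icc t₀ τ, ‖∑ p ∈ P, a p * Complex.exp ((p : ℂ) * γ t)‖ ≤ A)
      (_ : 4 * (R / c) ≤ (γ τ).re - (γ t₀).re) (ε : ℝ) (_ : 0 < ε) (_ : ε ≤ 1),
      ∃ τ' ∈ Set.Icc t₀ τ,
        (t₀ < τ' → ∀ t ∈ Set.Icc t₀ τ',
          ‖∑ p ∈ P.filter (fun p : ℕ => (p : ℝ) < c), a p * Complex.exp ((p : ℂ) * γ t)‖ ≤ (1 + ε) * A) ∧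
        ∀ s ∈ Set.Icc τ' τ, c * ((γ s).re - (γ τ').re) ≤ 620 * R +
          R * Real.log (1 + (|(γ s).re - (γ τ').re| + min |(γ s).im - (γ τ').im| Real.pi) * c / R)
          + Real.log (1 / ε))
    (S : Set ℕ) (c R : ℕ → ℝ)
    (hdata : ∀ n, 2 ^ n ≤ c n ∧ c n ≤ 2 ^ (n + 1) ∧ 1 ≤ R n ∧ ∀ P : Finset ℕ,
      (∀ p ∈ P, p = 0 ∨ p ∈ S) → (∀ p ∈ P, (p : ℝ) < c (n + 1)) →
      (P.card : ℝ) ≤ R n ∧ (∀ p ∈ P, (p : ℝ) ≠ c n) ∧
        ∑ p ∈ P, max 0 (Real.log (c n / |c n - p|)) ≤ 5 * R n)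
    (g : ℕ → ℝ) (hg4 : ∀ n, 4 * (R n / c n) ≤ g n) (n₀ : ℕ) :
    ∀ N, n₀ ≤ N → ∀ (P : Finset ℕ) (a : ℕ → ℂ) (A : ℝ) (γ : ℝ → ℂ) (t₀ τ : ℝ) (W : ℝ → ℝ),
      (∀ p ∈ P, p = 0 ∨ p ∈ S) → (∀ p ∈ P, (p : ℝ) < c N) → 0 ≤ A → t₀ ≤ τ →
      ContinuousOn γ (Set.Icc t₀ τ) → MonotoneOn W (Set.Icc t₀ τ) →
      (∀ n, n₀ ≤ n → ∀ s t, t₀ ≤ s → s ≤ t → t ≤ τ →
        c n * ((γ t).re - (γ s).re) ≤ 620 * R n +
          R n * Real.log (1 + (|(γ t).re - (γ s).re| + min |(γ t).im - (γ s).im| Real.pi) * c n / R n)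
          + (n + 1) →
        (γ t).re - (γ s).re ≤ g n + (W t - W s)) →
      (∑ m ∈ Ico n₀ N, g m) + (W τ - W t₀) < (γ τ).re - (γ t₀).re →
      (∀ t ∈ Set.Icc t₀ τ, ‖∑ p ∈ P, a p * Complex.exp ((p : ℂ) * γ t)‖ ≤ A) →
      ∃ τ', t₀ < τ' ∧ τ' ≤ τ ∧
        (γ τ).re - ((∑ m ∈ Ico n₀ N, g m) + (W τ - W τ')) ≤ (γ τ').re ∧
        ∀ t ∈ Set.Icc t₀ τ',
          ‖∑ p ∈ P.filter (fun p : ℕ => (p : ℝ) < c n₀), a p * Complex.exp ((p : ℂ) * γ t)‖ ≤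
            (∏ m ∈ Ico n₀ N, (1 + (1 / 2 : ℝ) ^ (m + 1))) * A := by
  classical
  have hcpos : ∀ n, 0 < c n := fun n => lt_of_lt_of_le (by positivity) (hdata n).1
  have hgpos : ∀ n, 0 ≤ g n := by
    intro n
    have h1 : 0 ≤ 4 * (R n / c n) := by
      have := hcpos n
      have h2 : (0 : ℝ) ≤ R n := le_trans zero_le_one (hdata n).2.2.1
      positivity
    exact le_trans h1 (hg4 n)
  have hcmono : ∀ n, n₀ ≤ n → c n₀ ≤ c n := by
    intro n hn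
    rcases eq_or_lt_of_le hn with h | h
    · rw [h]
    · have h1 : c n₀ ≤ 2 ^ (n₀ + 1) := (hdata n₀).2.1
      have h2 : (2 : ℝ) ^ (n₀ + 1) ≤ 2 ^ n := pow_le_pow_right₀ (by norm_num) h
      linarith [(hdata n).1]
  intro N hN
  induction N, hN using Nat.le_induction with
  | base =>
    intro P a A γ t₀ τ W hPS hPc hA htτ hγ hW hdrop hsum hbd
    simp only [Ico_self, sum_empty, prod_empty, zero_add, one_mul] at hsum ⊢
    have hlt : t₀ < τ := by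
      rcases eq_or_lt_of_le htτ with h | h
      · rw [h] at hsum; simp at hsum
      · exact h
    refine ⟨τ, hlt, le_rfl, by simp, ?_⟩
    have hfil : P.filter (fun p : ℕ => (p : ℝ) < c n₀) = P := by
      apply Finset.filter_true_of_mem
      intro p hp; exact hPc p hp
    rw [hfil]
    exact hbd
  | succ N hN ih =>
    intro P a A γ t₀ τ W hPS hPc hA htτ hγ hW hdrop hsum hbd
    obtain ⟨hc1, hc2, hR1, hdat⟩ := hdata N
    obtain ⟨hcard, hne, hlog⟩ := hdat P hPS hPc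
    have hWmono : 0 ≤ W τ - W t₀ := by
      have := hW (Set.left_mem_Icc.mpr htτ) (Set.right_mem_Icc.mpr htτ) htτ
      linarith
    rw [sum_Ico_succ_top hN] at hsum
    have hsumnn : 0 ≤ ∑ m ∈ Ico n₀ N, g m := sum_nonneg fun m _ => hgpos m
    have h4c : ∀ p ∈ P, (p : ℝ) ≤ 4 * c N := by
      intro p hp
      have h1 := hPc p hp
      have h2 := (hdata (N + 1)).2.1
      have h3 : (2 : ℝ) ^ (N + 1 + 1) = 4 * 2 ^ N := by ring
      linarith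
    have hdropstep : 4 * (R N / c N) ≤ (γ τ).re - (γ t₀).re := by
      have := hg4 N
      linarith
    have heps0 : (0 : ℝ) < (1 / 2) ^ (N + 1) := by positivity
    have heps1 : (1 / 2 : ℝ) ^ (N + 1) ≤ 1 := pow_le_one₀ (by norm_num) (by norm_num)
    obtain ⟨τ₁, hτ₁, hb1, hb2⟩ := mz_onestep P a (c N) (R N) A (hcpos N) hR1 hcard h4c hne hlog hA
      γ t₀ τ htτ hγ hbd hdropstep ((1 / 2) ^ (N + 1)) heps0 heps1
    obtain ⟨hτ₁l, hτ₁r⟩ := hτ₁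
    have hlogeps : Real.log (1 / (1 / 2 : ℝ) ^ (N + 1)) ≤ (N : ℝ) + 1 := by
      have h1 : (1 : ℝ) / (1 / 2 : ℝ) ^ (N + 1) = 2 ^ (N + 1) := by
        rw [one_div, one_div, inv_pow, inv_inv]
      rw [h1, Real.log_pow]
      have h2 : Real.log 2 ≤ 1 := by
        have := Real.log_two_lt_d9
        linarith
      have h3 : (0 : ℝ) ≤ ((N + 1 : ℕ) : ℝ) := by positivity
      push_cast at h3 ⊢
      nlinarith
    have hd := hb2 τ ⟨hτ₁r, le_rfl⟩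
    have hd' := hdrop N hN τ₁ τ hτ₁l hτ₁r le_rfl (by linarith)
    have hWm1 : 0 ≤ W τ₁ - W t₀ := by
      have := hW (Set.left_mem_Icc.mpr htτ) (Set.mem_Icc.mpr ⟨hτ₁l, hτ₁r⟩) hτ₁l
      linarith
    have hsum1 : (∑ m ∈ Ico n₀ N, g m) + (W τ₁ - W t₀) < (γ τ₁).re - (γ t₀).re := by
      linarith
    have hlt1 : t₀ < τ₁ := by
      rcases eq_or_lt_of_le hτ₁l with h | h
      · rw [← h] at hsum1
        simp only [sub_self, add_zero] at hsum1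
        linarith
      · exact h
    have hsub : Set.Icc t₀ τ₁ ⊆ Set.Icc t₀ τ := Set.Icc_subset_Icc le_rfl hτ₁r
    obtain ⟨τ', h1, h2, h3, h4⟩ := ih (P.filter (fun p : ℕ => (p : ℝ) < c N)) a
      ((1 + (1 / 2) ^ (N + 1)) * A) γ t₀ τ₁ W
      (fun p hp => hPS p (Finset.mem_filter.mp hp).1)
      (fun p hp => (Finset.mem_filter.mp hp).2) (by positivity) hlt1.le (hγ.mono hsub)
      (hW.mono hsub)
      (fun n hn s t hs hst ht => hdrop n hn s t hs hst (le_trans ht hτ₁r)) hsum1 (hb1 hlt1)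
    refine ⟨τ', h1, le_trans h2 hτ₁r, ?_, ?_⟩
    · rw [sum_Ico_succ_top hN]
      linarith
    · intro t ht
      have h5 := h4 t ht
      have hfil : (P.filter (fun p : ℕ => (p : ℝ) < c N)).filter (fun p : ℕ => (p : ℝ) < c n₀) =
          P.filter (fun p : ℕ => (p : ℝ) < c n₀) := by
        rw [Finset.filter_filter]
        apply Finset.filter_congr
        intro p _
        constructor
        · exact fun h => h.2
        · exact fun h => ⟨lt_of_lt_of_le h (hcmono N hN), h⟩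
      rw [hfil] at h5
      rw [prod_Ico_succ_top hN, mul_assoc]
      exact h5

end Pool.Agent.Helper107.MZ
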