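import Mathlib

set_option autoImplicit false

namespace Pool.Agent.Helper107.MZ
open Finset

/-- Circular arcs: exponents `p ∈ Q` can be removed at the cost of shortening the interval by `π/p`,
without changing the constant term. -/
theorem mz_circle (Q : Finset ℕ) (hQ : ∀ p ∈ Q, 0 < p) (P : Finset ℕ) (a : ℕ → ℂ) (x y A : ℝ)
    (h : ∀ θ : ℝ, x ≤ θ → θ ≤ y → ‖∑ p ∈ P, a p * Complex.exp ((p : ℂ) * (θ : ℂ) * Complex.I)‖ ≤ A) :
    ∃ a' : ℕ → ℂ, a' 0 = a 0 ∧ (∀ p ∈ Q, a' p = 0) ∧
      ∀ θ : ℝ, x ≤ θ → θ ≤ y - ∑ p ∈ Q, Real.pi / (p : ℝ) →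
        ‖∑ p ∈ P, a' p * Complex.exp ((p : ℂ) * (θ : ℂ) * Complex.I)‖ ≤ A := by
  classical
  induction Q using Finset.induction_on with
  | empty => exact ⟨a, rfl, by simp, by simpa using h⟩
  | insert q Q hq ih =>
    obtain ⟨a', h0, hz, hb⟩ := ih (fun p hp => hQ p (mem_insert_of_mem hp))
    have hq0 : 0 < q := hQ q (mem_insert_self q Q)
    have hqR : (0 : ℝ) < (q : ℝ) := by exact_mod_cast hq0
    have hqC : (q : ℂ) ≠ 0 := by exact_mod_cast hq0.ne'
    refine ⟨fun p => a' p * ((1 + Complex.exp ((p : ℂ) * (Real.pi / q : ℂ) * Complex.I)) / 2), ?_, ?_, ?_⟩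
    · simp [h0]
    · intro p hp
      rcases mem_insert.mp hp with rfl | hp
      · have : (p : ℂ) * (Real.pi / p : ℂ) * Complex.I = Real.pi * Complex.I := by
          field_simp
        simp only [this, Complex.exp_pi_mul_I]
        simp
      · simp only [hz p hp, zero_mul]
    · intro θ h1 h2
      rw [sum_insert hq] at h2
      have hpq : 0 < Real.pi / (q : ℝ) := by positivity
      have b1 := hb θ h1 (by linarith)
      have b2 := hb (θ + Real.pi / q) (by linarith) (by linarith)
      have key : ∑ p ∈ P, a' p * ((1 + Complex.exp ((p : ℂ) * (Real.pi / q : ℂ) * Complex.I)) / 2)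
            * Complex.exp ((p : ℂ) * (θ : ℂ) * Complex.I) =
          (∑ p ∈ P, a' p * Complex.exp ((p : ℂ) * (θ : ℂ) * Complex.I) +
            ∑ p ∈ P, a' p * Complex.exp ((p : ℂ) * ((θ + Real.pi / q : ℝ) : ℂ) * Complex.I)) / 2 := by
        rw [← sum_add_distrib, sum_div]
        refine sum_congr rfl fun p _ => ?_
        have : Complex.exp ((p : ℂ) * ((θ + Real.pi / q : ℝ) : ℂ) * Complex.I) =
            Complex.exp ((p : ℂ) * (Real.pi / q : ℂ) * Complex.I) *
              Complex.exp ((p : ℂ) * (θ : ℂ) * Complex.I) := by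
          rw [← Complex.exp_add]
          congr 1
          push_cast
          ring
        rw [this]
        ring
      rw [key, norm_div]
      have h2n : ‖(2 : ℂ)‖ = 2 := by simp
      rw [h2n, div_le_iff₀ (by norm_num)]
      refine (norm_add_le _ _).trans ?_
      linarith

end Pool.Agent.Helper107.MZ
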