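import Mathlib

set_option autoImplicit false

namespace Pool.Agent.Helper107.MZ
open Finset

/-- The constant term of a polynomial of degree at most `d` is controlled by its values on an infinite set. -/
theorem mz_const (d : ℕ) (W : Set ℂ) (hW : W.Infinite) :
    ∃ C : ℝ, 0 < C ∧ ∀ (P : Finset ℕ) (a : ℕ → ℂ) (A : ℝ), (∀ p ∈ P, p ≤ d) → 0 ∈ P →
      (∀ w ∈ W, ‖∑ p ∈ P, a p * w ^ p‖ ≤ A) → ‖a 0‖ ≤ C * A := by
  classical
  obtain ⟨s, hsW, hcard⟩ := hW.exists_subset_card_eq (d + 1)
  refine ⟨1 + ∑ i ∈ s, ‖(Lagrange.basis s id i).eval 0‖, ?_, ?_⟩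
  · have : 0 ≤ ∑ i ∈ s, ‖(Lagrange.basis s id i).eval 0‖ :=
      Finset.sum_nonneg fun i _ => norm_nonneg _
    linarith
  · intro P a A hP h0 hA
    set Q : Polynomial ℂ := ∑ p ∈ P, Polynomial.C (a p) * Polynomial.X ^ p with hQ
    have heval : ∀ w : ℂ, Q.eval w = ∑ p ∈ P, a p * w ^ p := by
      intro w
      rw [hQ, Polynomial.eval_finset_sum]
      simp
    have hQ0 : Q.eval 0 = a 0 := by
      rw [heval, Finset.sum_eq_single_of_mem 0 h0]
      · simp
      · intro p _ hp
        simp [hp]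
    have hdeg : Q.degree < (s.card : WithBot ℕ) := by
      rw [hcard]
      refine lt_of_le_of_lt (Polynomial.degree_sum_le _ _) ?_
      rw [Finset.sup_lt_iff (by exact WithBot.bot_lt_coe _)]
      intro p hp
      refine lt_of_le_of_lt (Polynomial.degree_C_mul_X_pow_le _ _) ?_
      have := hP p hp
      exact_mod_cast Nat.lt_succ_of_le this
    have hint := Lagrange.eq_interpolate (v := (id : ℂ → ℂ)) (s := s) (f := Q)
      (Function.injective_id.injOn) hdeg
    have h1 : Q.eval 0 = ∑ i ∈ s, Q.eval i * (Lagrange.basis s id i).eval 0 := by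
      conv_lhs => rw [hint]
      rw [Lagrange.interpolate_apply, Polynomial.eval_finset_sum]
      simp
    have hne : s.Nonempty := by
      rw [← Finset.card_pos, hcard]
      omega
    obtain ⟨w0, hw0⟩ := hne
    have hA0 : 0 ≤ A := (norm_nonneg _).trans (hA w0 (hsW hw0))
    rw [← hQ0, h1]
    calc ‖∑ i ∈ s, Q.eval i * (Lagrange.basis s id i).eval 0‖
        ≤ ∑ i ∈ s, ‖Q.eval i * (Lagrange.basis s id i).eval 0‖ := norm_sum_le _ _
      _ ≤ ∑ i ∈ s, A * ‖(Lagrange.basis s id i).eval 0‖ := by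
          refine Finset.sum_le_sum fun i hi => ?_
          rw [norm_mul]
          refine mul_le_mul_of_nonneg_right ?_ (norm_nonneg _)
          rw [heval]
          exact hA i (hsW hi)
      _ = (∑ i ∈ s, ‖(Lagrange.basis s id i).eval 0‖) * A := by
          rw [Finset.sum_mul]
          exact Finset.sum_congr rfl fun i _ => mul_comm _ _
      _ ≤ (1 + ∑ i ∈ s, ‖(Lagrange.basis s id i).eval 0‖) * A := by
          apply mul_le_mul_of_nonneg_right _ hA0
          linarith

end Pool.Agent.Helper107.MZ
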