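import Mathlib
import Pool.Agent.Helper107.MZ1
import Pool.Agent.Helper107.MZ2
import Pool.Agent.Helper107.MZ3
import Pool.Agent.Helper107.MZ4a
import Pool.Agent.Helper107.MZ4b
import Pool.Agent.Helper107.MZ4c

set_option autoImplicit false
open Finset

namespace Pool.Agent.Helper107.MZ

/-- Doubling at the origin. -/
theorem mz_double (K : ℕ) (s : ℕ → ℝ) (a : ℕ → ℂ) (M R : ℝ)
    (hs : ∀ i, i < K → 0 ≤ s i ∧ s i ≤ 4) (hK : (K : ℝ) ≤ R) (hR0 : 0 < R)
    (hM : ∀ z : ℂ, ‖z‖ ≤ R → ‖∑ k ∈ range K, a k * Complex.exp ((s k : ℂ) * z)‖ ≤ M) (z : ℂ) :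
    ‖∑ k ∈ range K, a k * Complex.exp ((s k : ℂ) * z)‖ ≤ Real.exp (9 * ‖z‖) * M := by
  have hM0 : 0 ≤ M := le_trans (norm_nonneg _) (hM 0 (by simpa using hR0.le))
  have h1 := mz_growth K s a 4 z (by norm_num) hs
  have h2 := mz_cauchy K s a 4 M R (by norm_num) hs hK hR0 hM
  refine h1.trans ?_
  have h3 : ∑ j ∈ range K, ‖z‖ ^ j / (j.factorial : ℝ) *
        ‖∑ k ∈ range K, a k * ∏ i ∈ range j, ((s k : ℂ) - (s i : ℂ))‖ ≤
      Real.exp (5 * ‖z‖) * M := by
    calc _ ≤ ∑ j ∈ range K, (5 * ‖z‖) ^ j / (j.factorial : ℝ) * M := by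
          refine Finset.sum_le_sum fun j hj => ?_
          have hj' := h2 j (Finset.mem_range.mp hj)
          have : (5 * ‖z‖) ^ j / (j.factorial : ℝ) * M
              = ‖z‖ ^ j / (j.factorial : ℝ) * (5 ^ j * M) := by
            rw [mul_pow]; ring
          rw [this]
          refine mul_le_mul_of_nonneg_left ?_ (by positivity)
          norm_num at hj' ⊢
          exact hj'
      _ = (∑ j ∈ range K, (5 * ‖z‖) ^ j / (j.factorial : ℝ)) * M := by rw [Finset.sum_mul]
      _ ≤ Real.exp (5 * ‖z‖) * M := by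
          refine mul_le_mul_of_nonneg_right ?_ hM0
          exact Real.sum_le_exp_of_nonneg (by positivity) K
  have h4 : Real.exp (4 * max z.re 0) ≤ Real.exp (4 * ‖z‖) := by
    apply Real.exp_le_exp.mpr
    have : max z.re 0 ≤ ‖z‖ := max_le (Complex.re_le_norm z) (norm_nonneg _)
    linarith
  calc _ ≤ Real.exp (4 * ‖z‖) * (Real.exp (5 * ‖z‖) * M) := by
        refine mul_le_mul h4 h3 ?_ (Real.exp_nonneg _)
        refine Finset.sum_nonneg fun j _ => ?_
        positivity
    _ = Real.exp (9 * ‖z‖) * M := by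
        rw [← mul_assoc, ← Real.exp_add]; ring_nf

/-- Doubling at a general centre. -/
theorem mz_double' (K : ℕ) (s : ℕ → ℝ) (a : ℕ → ℂ) (M R : ℝ) (w : ℂ)
    (hs : ∀ i, i < K → 0 ≤ s i ∧ s i ≤ 4) (hK : (K : ℝ) ≤ R) (hR0 : 0 < R)
    (hM : ∀ z : ℂ, ‖z - w‖ ≤ R → ‖∑ k ∈ range K, a k * Complex.exp ((s k : ℂ) * z)‖ ≤ M) (z : ℂ) :
    ‖∑ k ∈ range K, a k * Complex.exp ((s k : ℂ) * z)‖ ≤ Real.exp (9 * ‖z - w‖) * M := by
  have key : ∀ v : ℂ, ∑ k ∈ range K, (a k * Complex.exp ((s k : ℂ) * w)) *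
      Complex.exp ((s k : ℂ) * v) = ∑ k ∈ range K, a k * Complex.exp ((s k : ℂ) * (w + v)) := by
    intro v
    refine Finset.sum_congr rfl fun k _ => ?_
    rw [mul_assoc, ← Complex.exp_add]; ring_nf
  have h := mz_double K s (fun k => a k * Complex.exp ((s k : ℂ) * w)) M R hs hK hR0
    (fun v hv => by
      rw [key v]; exact hM (w + v) (by simpa using hv)) (z - w)
  rw [key (z - w)] at h
  simpa using h

theorem mz_step_scaled (K : ℕ) (s : ℕ → ℝ) (a : ℕ → ℂ) (R A : ℝ) (hR : 1 ≤ R) (hK : (K : ℝ) ≤ R)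
    (hs : ∀ i, i < K → 0 ≤ s i ∧ s i ≤ 4 ∧ s i ≠ 1)
    (hΛ : ∑ i ∈ range K, max 0 (Real.log (1 / |1 - s i|)) ≤ 5 * R) (hA : 0 ≤ A) (E : Set ℂ)
    (hfE : ∀ z ∈ E, ‖∑ k ∈ range K, a k * Complex.exp ((s k : ℂ) * z)‖ ≤ A) (w : ℂ)
    (hE : ∀ r : ℝ, 0 ≤ r → r ≤ 2 * R → ∃ z ∈ E, ‖z - w‖ = r)
    (v : ℂ) (hv : v.re ≤ 0) (D : ℝ) (hvD : ‖v‖ ≤ D) (hRD : R ≤ D) :
    ‖∑ k ∈ (range K).filter (fun k => 1 < s k), a k * Complex.exp ((s k : ℂ) * (w + v))‖ ≤
      A * Real.exp (v.re + 620 * R + R * Real.log (D / R)) := by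
  have hR0 : 0 < R := by linarith
  set f : ℂ → ℂ := fun z => ∑ k ∈ range K, a k * Complex.exp ((s k : ℂ) * z) with hf
  have hfdiff : Differentiable ℂ f := by
    rw [hf]; fun_prop
  -- Remez
  have h1 : ∀ z, ‖z - w‖ ≤ 2 * R → ‖f z‖ ≤ Real.exp (600 * R) * A := by
    intro z hz
    have := mz_remez mz_schwarz mz_lagrange f hfdiff w (2 * R) A (by linarith) hA E hE hfE
      (fun M hM z => mz_double' K s a M (2 * R) w (fun i hi => ⟨(hs i hi).1, (hs i hi).2.1⟩)
        (by linarith) (by linarith) hM z) z hz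
    have h2 : 300 * (2 * R) = 600 * R := by ring
    rwa [h2] at this
  set M0 := Real.exp (600 * R) * A with hM0
  have hM0n : 0 ≤ M0 := by positivity
  -- separation
  have h2 : ∀ u, ‖u - w‖ ≤ R →
      ‖∑ k ∈ (range K).filter (fun k => 1 < s k), a k * Complex.exp ((s k : ℂ) * u)‖ ≤
        3 * 5 ^ K * Real.exp (5 * R) * M0 := by
    intro u hu
    refine mz_sep K s (fun k => a k * Complex.exp ((s k : ℂ) * u)) M0 (5 * R) hM0n hs ?_ hΛ
    intro j hj
    have := mz_cauchy K s (fun k => a k * Complex.exp ((s k : ℂ) * u)) 4 M0 R (by norm_num)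
      (fun i hi => ⟨(hs i hi).1, (hs i hi).2.1⟩) hK hR0 (by
        intro z hz
        have key : ∑ k ∈ range K, (a k * Complex.exp ((s k : ℂ) * u)) *
            Complex.exp ((s k : ℂ) * z) = f (u + z) := by
          rw [hf]
          refine Finset.sum_congr rfl fun k _ => ?_
          rw [mul_assoc, ← Complex.exp_add]; ring_nf
        rw [key]
        apply h1
        calc ‖u + z - w‖ = ‖(u - w) + z‖ := by ring_nf
          _ ≤ ‖u - w‖ + ‖z‖ := norm_add_le _ _
          _ ≤ 2 * R := by linarith) j hj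
    norm_num at this ⊢
    exact this
  set M1 := 3 * 5 ^ K * Real.exp (5 * R) * M0 with hM1
  have hM1n : 0 ≤ M1 := by positivity
  -- the shifted sum
  set a2 : ℕ → ℂ := fun k => if 1 < s k then a k * Complex.exp ((s k : ℂ) * w) else 0 with ha2
  set s2 : ℕ → ℝ := fun k => max (s k - 1) 0 with hs2
  have hs2' : ∀ i, i < K → 0 ≤ s2 i ∧ s2 i ≤ 3 := by
    intro i hi
    refine ⟨le_max_right _ _, max_le ?_ (by norm_num)⟩
    have := (hs i hi).2.1
    linarith
  have key2 : ∀ x : ℂ, ∑ k ∈ range K, a2 k * Complex.exp ((s2 k : ℂ) * x) =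
      Complex.exp (-x) * ∑ k ∈ (range K).filter (fun k => 1 < s k),
        a k * Complex.exp ((s k : ℂ) * (w + x)) := by
    intro x
    rw [Finset.sum_filter, Finset.mul_sum]
    refine Finset.sum_congr rfl fun k _ => ?_
    by_cases hk : 1 < s k
    · simp only [ha2, hs2, hk, if_true]
      have hmax : max (s k - 1) 0 = s k - 1 := max_eq_left (by linarith)
      rw [hmax]
      rw [mul_assoc, ← Complex.exp_add, mul_left_comm, ← Complex.exp_add]
      congr 2
      push_cast
      ring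
    · simp only [ha2, hk, if_false]
      simp
  have h3 : ∀ x : ℂ, ‖x‖ ≤ R → ‖∑ k ∈ range K, a2 k * Complex.exp ((s2 k : ℂ) * x)‖ ≤
      Real.exp R * M1 := by
    intro x hx
    rw [key2, norm_mul, Complex.norm_exp]
    refine mul_le_mul ?_ ?_ (norm_nonneg _) (Real.exp_nonneg _)
    · apply Real.exp_le_exp.mpr
      have : |(-x).re| ≤ ‖-x‖ := Complex.abs_re_le_norm _
      rw [norm_neg] at this
      linarith [le_abs_self (-x).re]
    · apply h2
      simpa using hx
  have h4 := mz_cauchy K s2 a2 3 (Real.exp R * M1) R (by norm_num) hs2' hK hR0 h3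
  have h5 := mz_growth K s2 a2 3 v (by norm_num) hs2'
  have hD0 : 0 < D := by linarith
  have hDR : 1 ≤ D / R := by rw [le_div_iff₀ hR0]; linarith
  have hsum : ∑ j ∈ range K, ‖v‖ ^ j / (j.factorial : ℝ) *
        ‖∑ k ∈ range K, a2 k * ∏ i ∈ range j, ((s2 k : ℂ) - (s2 i : ℂ))‖ ≤
      Real.exp (R * Real.log (D / R)) * (Real.exp (4 * R) * (Real.exp R * M1)) := by
    calc _ ≤ ∑ j ∈ range K, Real.exp (R * Real.log (D / R)) *
            ((4 * R) ^ j / (j.factorial : ℝ) * (Real.exp R * M1)) := by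
          refine Finset.sum_le_sum fun j hj => ?_
          have hjK : j < K := Finset.mem_range.mp hj
          have hj' := h4 j hjK
          have hpow : ‖v‖ ^ j ≤ Real.exp (R * Real.log (D / R)) * R ^ j := by
            calc ‖v‖ ^ j ≤ D ^ j := pow_le_pow_left₀ (norm_nonneg _) hvD j
              _ = (D / R) ^ j * R ^ j := by rw [← mul_pow, div_mul_cancel₀ _ hR0.ne']
              _ ≤ Real.exp (R * Real.log (D / R)) * R ^ j := by
                  refine mul_le_mul_of_nonneg_right ?_ (by positivity)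
                  have : (D / R) ^ j = Real.exp (j * Real.log (D / R)) := by
                    rw [mul_comm, ← Real.rpow_def_of_pos (by linarith), Real.rpow_natCast]
                  rw [this]
                  apply Real.exp_le_exp.mpr
                  refine mul_le_mul_of_nonneg_right ?_ (Real.log_nonneg hDR)
                  have : (j : ℝ) ≤ K := by exact_mod_cast hjK.le
                  linarith
          have h6 : ‖v‖ ^ j / (j.factorial : ℝ) ≤
              Real.exp (R * Real.log (D / R)) * R ^ j / (j.factorial : ℝ) :=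
            div_le_div_of_nonneg_right hpow (by positivity)
          calc _ ≤ Real.exp (R * Real.log (D / R)) * R ^ j / (j.factorial : ℝ) *
                ((1 + 3) ^ j * (Real.exp R * M1)) :=
                mul_le_mul h6 hj' (norm_nonneg _) (by positivity)
            _ = _ := by
                rw [mul_pow]; norm_num; ring
      _ = Real.exp (R * Real.log (D / R)) *
            ((∑ j ∈ range K, (4 * R) ^ j / (j.factorial : ℝ)) * (Real.exp R * M1)) := by
          rw [← Finset.mul_sum, ← Finset.sum_mul]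
      _ ≤ _ := by
          refine mul_le_mul_of_nonneg_left ?_ (Real.exp_nonneg _)
          refine mul_le_mul_of_nonneg_right ?_ (by positivity)
          exact Real.sum_le_exp_of_nonneg (by positivity) K
  have hmax0 : max v.re 0 = 0 := max_eq_right hv
  rw [hmax0, mul_zero, Real.exp_zero, one_mul] at h5
  have h7 : ‖∑ k ∈ (range K).filter (fun k => 1 < s k), a k * Complex.exp ((s k : ℂ) * (w + v))‖ =
      Real.exp v.re * ‖∑ k ∈ range K, a2 k * Complex.exp ((s2 k : ℂ) * v)‖ := by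
    rw [key2 v, norm_mul, Complex.norm_exp, ← mul_assoc, ← Real.exp_add]
    simp
  rw [h7]
  have h35 : (3 : ℝ) * 5 ^ K ≤ Real.exp (4 * R) := by
    have e2 : (5 : ℝ) ≤ Real.exp 2 := by
      have := Real.exp_one_gt_d9
      have h : Real.exp 2 = Real.exp 1 * Real.exp 1 := by rw [← Real.exp_add]; norm_num
      rw [h]; nlinarith
    calc (3 : ℝ) * 5 ^ K ≤ Real.exp 2 * Real.exp 2 ^ K := by
          refine mul_le_mul (by linarith) (pow_le_pow_left₀ (by norm_num) e2 K) (by positivity)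
            (Real.exp_nonneg _)
      _ = Real.exp (2 + K * 2) := by rw [← Real.exp_nat_mul, ← Real.exp_add]
      _ ≤ Real.exp (4 * R) := by
          apply Real.exp_le_exp.mpr; linarith
  calc Real.exp v.re * ‖∑ k ∈ range K, a2 k * Complex.exp ((s2 k : ℂ) * v)‖
      ≤ Real.exp v.re * (Real.exp (R * Real.log (D / R)) *
          (Real.exp (4 * R) * (Real.exp R * M1))) := by
        refine mul_le_mul_of_nonneg_left (h5.trans hsum) (Real.exp_nonneg _)
    _ ≤ Real.exp v.re * (Real.exp (R * Real.log (D / R)) *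
          (Real.exp (4 * R) * (Real.exp R * (Real.exp (4 * R) * Real.exp (5 * R) *
            (Real.exp (600 * R) * A))))) := by
        rw [hM1, hM0]
        have : 3 * 5 ^ K * Real.exp (5 * R) * (Real.exp (600 * R) * A) ≤
            Real.exp (4 * R) * Real.exp (5 * R) * (Real.exp (600 * R) * A) := by
          gcongr
        gcongr
    _ = A * Real.exp (v.re + 614 * R + R * Real.log (D / R)) := by
        have : v.re + 614 * R + R * Real.log (D / R) =
          v.re + (R * Real.log (D / R) + (4 * R + (R + (4 * R + 5 * R + 600 * R)))) := by ring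
        rw [this]
        simp only [Real.exp_add]
        ring
    _ ≤ A * Real.exp (v.re + 620 * R + R * Real.log (D / R)) := by
        refine mul_le_mul_of_nonneg_left ?_ hA
        apply Real.exp_le_exp.mpr; linarith

/-- Enumerating a finset by `range`. -/
theorem mz_enum (P : Finset ℕ) : ∃ p : ℕ → ℕ, (∀ i, i < P.card → p i ∈ P) ∧
    ∀ F : ℕ → ℂ, ∑ i ∈ range P.card, F (p i) = ∑ q ∈ P, F q := by
  classical
  refine ⟨fun i => if h : i < P.card then (P.equivFin.symm ⟨i, h⟩ : ℕ) else 0, ?_, ?_⟩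
  · intro i hi
    simp only [hi, dif_pos]
    exact (P.equivFin.symm ⟨i, hi⟩).2
  · intro F
    rw [Finset.sum_range]
    have : ∀ i : Fin P.card, F (if h : (i : ℕ) < P.card then (P.equivFin.symm ⟨i, h⟩ : ℕ) else 0) =
        F (P.equivFin.symm i : ℕ) := by
      intro i
      simp
    rw [Finset.sum_congr rfl (fun i _ => this i)]
    rw [Equiv.sum_comp P.equivFin.symm (fun q : P => F (q : ℕ))]
    exact Finset.sum_coe_sort P F

theorem mz_enum_real (P : Finset ℕ) (p : ℕ → ℕ)
    (h : ∀ F : ℕ → ℂ, ∑ i ∈ range P.card, F (p i) = ∑ q ∈ P, F q) (G : ℕ → ℝ) :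
    ∑ i ∈ range P.card, G (p i) = ∑ q ∈ P, G q := by
  have := h (fun q => (G q : ℂ))
  exact_mod_cast this

theorem mz_step (P : Finset ℕ) (a : ℕ → ℂ) (c R A : ℝ) (hc : 0 < c) (hR : 1 ≤ R)
    (hcard : (P.card : ℝ) ≤ R) (hP4 : ∀ p ∈ P, (p : ℝ) ≤ 4 * c) (hPc : ∀ p ∈ P, (p : ℝ) ≠ c)
    (hΛ : ∑ p ∈ P, max 0 (Real.log (c / |c - p|)) ≤ 5 * R) (hA : 0 ≤ A) (E : Set ℂ)
    (hfE : ∀ z ∈ E, ‖∑ p ∈ P, a p * Complex.exp ((p : ℂ) * z)‖ ≤ A) (w : ℂ)
    (hE : ∀ r : ℝ, 0 ≤ r → r ≤ 2 * (R / c) → ∃ z ∈ E, ‖z - w‖ = r)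
    (ζ : ℂ) (hre : ζ.re ≤ w.re) (D : ℝ) (hD : ‖w - ζ‖ ≤ D) (hRD : R / c ≤ D) :
    ‖∑ p ∈ P.filter (fun p : ℕ => c < (p : ℝ)), a p * Complex.exp ((p : ℂ) * ζ)‖ ≤
      A * Real.exp (-(c * (w.re - ζ.re)) + 620 * R + R * Real.log (D * c / R)) := by
  obtain ⟨p, hpP, hsum⟩ := mz_enum P
  have hsumR := mz_enum_real P p hsum
  have hcC : (c : ℂ) ≠ 0 := by exact_mod_cast hc.ne'
  set s : ℕ → ℝ := fun i => (p i : ℝ) / c with hs
  have hsc : ∀ i, ∀ z : ℂ, ((s i : ℝ) : ℂ) * ((c : ℂ) * z) = (p i : ℂ) * z := by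
    intro i z
    simp only [hs]
    push_cast
    field_simp
  have h1 := mz_step_scaled P.card s (fun i => a (p i)) R A hR hcard
    (by
      intro i hi
      have hp := hpP i hi
      refine ⟨by positivity, ?_, ?_⟩
      · simp only [hs]; rw [div_le_iff₀ hc]; exact hP4 _ hp
      · simp only [hs]; intro h
        rw [div_eq_one_iff_eq hc.ne'] at h
        exact hPc _ hp h)
    (by
      have h2 : ∀ i ∈ range P.card, max 0 (Real.log (1 / |1 - s i|)) =
          (fun q : ℕ => max 0 (Real.log (c / |c - q|))) (p i) := by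
        intro i _
        simp only [hs]
        congr 2
        have : (1 : ℝ) - (p i : ℝ) / c = (c - p i) / c := by field_simp
        rw [this, abs_div, abs_of_pos hc]
        rw [one_div, inv_div]
      rw [Finset.sum_congr rfl h2, hsumR (fun q : ℕ => max 0 (Real.log (c / |c - q|)))]
      exact hΛ) hA ((fun z : ℂ => (c : ℂ) * z) '' E)
    (by
      rintro _ ⟨z, hz, rfl⟩
      have h2 : ∀ i ∈ range P.card, a (p i) * Complex.exp ((s i : ℂ) * ((c : ℂ) * z)) =
          (fun q : ℕ => a q * Complex.exp ((q : ℂ) * z)) (p i) := by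
        intro i _
        simp only
        rw [hsc i z]
      rw [Finset.sum_congr rfl h2, hsum (fun q : ℕ => a q * Complex.exp ((q : ℂ) * z))]
      exact hfE z hz) ((c : ℂ) * w)
    (by
      intro r hr hr2
      obtain ⟨z, hz, hzr⟩ := hE (r / c) (by positivity) (by
        rw [div_le_iff₀ hc]
        have : 2 * (R / c) * c = 2 * R := by field_simp
        rw [this]; exact hr2)
      refine ⟨(c : ℂ) * z, ⟨z, hz, rfl⟩, ?_⟩
      rw [← mul_sub, norm_mul, hzr, Complex.norm_real, Real.norm_of_nonneg hc.le]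
      field_simp)
    ((c : ℂ) * (ζ - w))
    (by
      rw [Complex.re_ofReal_mul, Complex.sub_re]
      nlinarith)
    (c * D)
    (by
      rw [norm_mul, Complex.norm_real, Real.norm_of_nonneg hc.le, norm_sub_rev]
      exact mul_le_mul_of_nonneg_left hD hc.le)
    (by
      rw [div_le_iff₀ hc] at hRD
      linarith)
  have h3 : ∑ k ∈ (range P.card).filter (fun k => 1 < s k),
        a (p k) * Complex.exp ((s k : ℂ) * ((c : ℂ) * w + (c : ℂ) * (ζ - w))) =
      ∑ q ∈ P.filter (fun q : ℕ => c < (q : ℝ)), a q * Complex.exp ((q : ℂ) * ζ) := by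
    rw [Finset.sum_filter, Finset.sum_filter]
    have h4 : ∀ i ∈ range P.card,
        (if 1 < s i then a (p i) * Complex.exp ((s i : ℂ) * ((c : ℂ) * w + (c : ℂ) * (ζ - w)))
          else 0) =
        (fun q : ℕ => if c < (q : ℝ) then a q * Complex.exp ((q : ℂ) * ζ) else 0) (p i) := by
      intro i _
      have h5 : (1 < s i) ↔ (c < (p i : ℝ)) := by
        simp only [hs]
        rw [lt_div_iff₀ hc, one_mul]
      have h6 : (c : ℂ) * w + (c : ℂ) * (ζ - w) = (c : ℂ) * ζ := by ring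
      rw [h6, hsc i ζ]
      simp only [h5]
    rw [Finset.sum_congr rfl h4,
      hsum (fun q : ℕ => if c < (q : ℝ) then a q * Complex.exp ((q : ℂ) * ζ) else 0)]
  rw [h3] at h1
  refine h1.trans (le_of_eq ?_)
  congr 2
  rw [Complex.re_ofReal_mul, Complex.sub_re]
  have : c * D / R = D * c / R := by ring
  rw [this]
  ring

end Pool.Agent.Helper107.MZ
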