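import Mathlib
import Pool.Agent.Helper107.MZstep
import Pool.Agent.Helper107.MZ5
import Pool.Agent.Helper107.MZ6
import Pool.Agent.Helper107.MZ7
import Pool.Agent.Helper107.MZ10
import Pool.Agent.Helper107.MZ12

set_option autoImplicit false
open Finset

namespace Pool.Agent.Helper107.MZ

open Classical in
/-- The number of exponents (including 0) up to `2^(n+2)`. -/
noncomputable def RR (S : Set ℕ) (n : ℕ) : ℝ :=
  ((((range (2 ^ (n + 2) + 1)).filter (fun p => p = 0 ∨ p ∈ S)).card : ℕ) : ℝ)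

theorem RR_one_le (S : Set ℕ) (n : ℕ) : 1 ≤ RR S n := by
  classical
  unfold RR
  have : 0 < ((range (2 ^ (n + 2) + 1)).filter (fun p => p = 0 ∨ p ∈ S)).card := by
    rw [Finset.card_pos]
    exact ⟨0, by simp⟩
  exact_mod_cast this

/-- Existence of good cuts. -/
theorem mz_data (S : Set ℕ) : ∃ c : ℕ → ℝ, ∀ n, 2 ^ n ≤ c n ∧ c n ≤ 2 ^ (n + 1) ∧ 1 ≤ RR S n ∧
    ∀ P : Finset ℕ,
      (∀ p ∈ P, p = 0 ∨ p ∈ S) → (∀ p ∈ P, (p : ℝ) < c (n + 1)) →
      (P.card : ℝ) ≤ RR S n ∧ (∀ p ∈ P, (p : ℝ) ≠ c n) ∧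
        ∑ p ∈ P, max 0 (Real.log (c n / |c n - p|)) ≤ 5 * RR S n := by
  classical
  have h := fun n : ℕ => mz_cut (2 ^ n) Nat.one_le_two_pow
    ((range (2 ^ (n + 2) + 1)).filter (fun p => p = 0 ∨ p ∈ S))
  choose m hm1 hm2 hm3 using h
  have hlt : ∀ n, ((m n : ℝ) + 1 / 2) < 2 ^ (n + 1) := by
    intro n
    have h1 : m n + 1 ≤ 2 ^ (n + 1) := by
      have := hm2 n
      rw [pow_succ]; omega
    have h2 : (m n : ℝ) + 1 ≤ 2 ^ (n + 1) := by exact_mod_cast h1
    linarith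
  refine ⟨fun n => (m n : ℝ) + 1 / 2, fun n => ⟨?_, (hlt n).le, RR_one_le S n, ?_⟩⟩
  · have h1 : (2 ^ n : ℝ) ≤ m n := by exact_mod_cast hm1 n
    simp only
    linarith
  · intro P hP hPc
    have hsub : P ⊆ (range (2 ^ (n + 2) + 1)).filter (fun p => p = 0 ∨ p ∈ S) := by
      intro p hp
      rw [Finset.mem_filter, Finset.mem_range]
      refine ⟨?_, hP p hp⟩
      have h1 := hPc p hp
      have h2 := hlt (n + 1)
      have h3 : (p : ℝ) < 2 ^ (n + 1 + 1) := by
        simp only at h1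
        linarith
      have h4 : p < 2 ^ (n + 2) := by exact_mod_cast h3
      omega
    refine ⟨?_, ?_, ?_⟩
    · unfold RR
      exact_mod_cast Finset.card_le_card hsub
    · intro p _ h
      have h1 : (2 * p : ℝ) = 2 * m n + 1 := by
        simp only at h
        linarith
      have h2 : 2 * p = 2 * m n + 1 := by exact_mod_cast h1
      omega
    · refine (Finset.sum_le_sum_of_subset_of_nonneg hsub ?_).trans ?_
      · intro i _ _
        exact le_max_left _ _
      · unfold RR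
        exact_mod_cast hm3 n

/-- The one step lemma in final form. -/
theorem mz_one (P : Finset ℕ) (a : ℕ → ℂ) (c R A : ℝ) (hc : 0 < c) (hR : 1 ≤ R)
    (hcard : (P.card : ℝ) ≤ R) (hP4 : ∀ p ∈ P, (p : ℝ) ≤ 4 * c) (hPc : ∀ p ∈ P, (p : ℝ) ≠ c)
    (hΛ : ∑ p ∈ P, max 0 (Real.log (c / |c - p|)) ≤ 5 * R) (hA : 0 ≤ A)
    (γ : ℝ → ℂ) (t₀ τ : ℝ) (h0 : t₀ ≤ τ) (hγ : ContinuousOn γ (Set.Icc t₀ τ))
    (hbd : ∀ t ∈ Set.Icc t₀ τ, ‖∑ p ∈ P, a p * Complex.exp ((p : ℂ) * γ t)‖ ≤ A)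
    (hlong : 4 * (R / c) ≤ (γ τ).re - (γ t₀).re) (ε : ℝ) (hε : 0 < ε) (hε1 : ε ≤ 1) :
    ∃ τ' ∈ Set.Icc t₀ τ,
      (t₀ < τ' → ∀ t ∈ Set.Icc t₀ τ',
        ‖∑ p ∈ P.filter (fun p : ℕ => (p : ℝ) < c), a p * Complex.exp ((p : ℂ) * γ t)‖ ≤ (1 + ε) * A) ∧
      ∀ s ∈ Set.Icc τ' τ, c * ((γ s).re - (γ τ').re) ≤ 620 * R +
        R * Real.log (1 + (|(γ s).re - (γ τ').re| + min |(γ s).im - (γ τ').im| Real.pi) * c / R)
        + Real.log (1 / ε) :=
  mz_onestep mz_step P a c R A hc hR hcard hP4 hPc hΛ hA γ t₀ τ h0 hγ hbd hlong ε hε hε1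

/-- Common part of the drop inequalities. -/
theorem mz_drop0 (c R x v e : ℝ) (hc : 0 < c) (hR : 0 < R) (hv : 0 ≤ v) (he : 0 ≤ e)
    (h : c * x ≤ 620 * R + R * Real.log (1 + (|x| + v) * c / R) + e) :
    x ≤ 1242 * (R / c) + 2 * (R / c) * Real.log (1 + v * c / R) + 2 * e / c := by
  have hlogv : 0 ≤ Real.log (1 + v * c / R) := Real.log_nonneg (by
    have : 0 ≤ v * c / R := by positivity
    linarith)
  rcases le_or_gt x 0 with hx | hx
  · have : 0 ≤ 1242 * (R / c) + 2 * (R / c) * Real.log (1 + v * c / R) + 2 * e / c := by positivity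
    linarith
  · rw [abs_of_pos hx] at h
    have h1 : Real.log (1 + (x + v) * c / R) ≤ Real.log (1 + x * c / R) + Real.log (1 + v * c / R) := by
      rw [← Real.log_mul (by positivity) (by positivity)]
      apply Real.log_le_log (by positivity)
      have : 0 ≤ (x * c / R) * (v * c / R) := by positivity
      have e1 : (x + v) * c / R = x * c / R + v * c / R := by ring
      rw [e1]
      nlinarith
    have h2 : Real.log (1 + x * c / R) ≤ (x * c / R) / 2 + 1 := by
      have h3 : 1 + x * c / R = 2 * (1 / 2 + x * c / R / 2) := by ring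
      rw [h3, Real.log_mul (by norm_num) (by positivity)]
      have h4 := Real.log_le_sub_one_of_pos (show 0 < 1 / 2 + x * c / R / 2 by positivity)
      have h5 : Real.log 2 ≤ 1 := by
        have := Real.log_two_lt_d9
        linarith
      linarith
    have h6 : R * Real.log (1 + (x + v) * c / R) ≤
        x * c / 2 + R + R * Real.log (1 + v * c / R) := by
      calc R * Real.log (1 + (x + v) * c / R)
          ≤ R * ((x * c / R) / 2 + 1 + Real.log (1 + v * c / R)) := by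
            refine mul_le_mul_of_nonneg_left ?_ hR.le
            linarith
        _ = x * c / 2 + R + R * Real.log (1 + v * c / R) := by
            field_simp
    have h7 : c * x ≤ 1242 * R + 2 * (R * Real.log (1 + v * c / R)) + 2 * e := by
      nlinarith
    have h8 : x ≤ (1242 * R + 2 * (R * Real.log (1 + v * c / R)) + 2 * e) / c := by
      rw [le_div_iff₀ hc]; linarith
    refine h8.trans (le_of_eq ?_)
    ring

/-- Drop inequality, bounded variation version. -/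
theorem mz_drop1 (c R M x v e : ℝ) (hc : 0 < c) (hR : 0 < R) (hM : 1 ≤ M) (hv : 0 ≤ v) (he : 0 ≤ e)
    (h : c * x ≤ 620 * R + R * Real.log (1 + (|x| + v) * c / R) + e) :
    x ≤ (1 + Real.log M) * (1242 * (R / c) + 2 * e / c) + 2 * v / M := by
  have hM0 : 0 < M := by linarith
  have hlogM : 0 ≤ Real.log M := Real.log_nonneg hM
  have h1 := mz_drop0 c R x v e hc hR hv he h
  have h2 : Real.log (1 + v * c / R) ≤ Real.log M + v * c / R / M := by
    have h3 : Real.log (1 + v * c / R) ≤ Real.log (M * (1 + v * c / R / M)) := by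
      apply Real.log_le_log (by positivity)
      have : M * (1 + v * c / R / M) = M + v * c / R := by field_simp
      rw [this]; linarith
    rw [Real.log_mul (by positivity) (by positivity)] at h3
    have h4 := Real.log_le_sub_one_of_pos (show 0 < 1 + v * c / R / M by positivity)
    linarith
  have h5 : 2 * (R / c) * Real.log (1 + v * c / R) ≤ 2 * (R / c) * Real.log M + 2 * v / M := by
    calc 2 * (R / c) * Real.log (1 + v * c / R)
        ≤ 2 * (R / c) * (Real.log M + v * c / R / M) :=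
          mul_le_mul_of_nonneg_left h2 (by positivity)
      _ = 2 * (R / c) * Real.log M + 2 * v / M := by field_simp
  have h6 : 0 ≤ (R / c) * Real.log M := by positivity
  have h7 : 0 ≤ Real.log M * (2 * e / c) := by positivity
  nlinarith

theorem mz_prod_le (n N : ℕ) : ∏ m ∈ Ico n N, (1 + (1 / 2 : ℝ) ^ (m + 1)) ≤ 3 := by
  have h1 : ∏ m ∈ Ico n N, (1 + (1 / 2 : ℝ) ^ (m + 1)) ≤
      Real.exp (∑ m ∈ Ico n N, (1 / 2 : ℝ) ^ (m + 1)) := by
    rw [Real.exp_sum]
    refine Finset.prod_le_prod (fun i _ => by positivity) fun i _ => ?_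
    have := Real.add_one_le_exp ((1 / 2 : ℝ) ^ (i + 1))
    linarith
  have h2 : ∑ m ∈ Ico n N, (1 / 2 : ℝ) ^ (m + 1) ≤ 1 := by
    have h3 : ∑ m ∈ Ico n N, (1 / 2 : ℝ) ^ (m + 1) ≤ ∑ m ∈ range N, (1 / 2 : ℝ) ^ (m + 1) := by
      refine Finset.sum_le_sum_of_subset_of_nonneg ?_ (fun i _ _ => by positivity)
      intro i hi
      rw [Finset.mem_Ico] at hi
      exact Finset.mem_range.mpr hi.2
    have h4 : ∀ L : ℕ, ∑ m ∈ range L, (1 / 2 : ℝ) ^ (m + 1) = 1 - (1 / 2) ^ L := by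
      intro L
      induction L with
      | zero => simp
      | succ k ih => rw [Finset.sum_range_succ, ih]; ring
    rw [h4 N] at h3
    have : (0 : ℝ) ≤ (1 / 2) ^ N := by positivity
    linarith
  have h5 := Real.exp_one_lt_d9
  calc _ ≤ Real.exp (∑ m ∈ Ico n N, (1 / 2 : ℝ) ^ (m + 1)) := h1
    _ ≤ Real.exp 1 := Real.exp_le_exp.mpr h2
    _ ≤ 3 := by linarith

/-- The weights for the bounded variation version. -/
noncomputable def GG (S : Set ℕ) (n : ℕ) : ℝ := 1242 * (RR S n / 2 ^ n) + 2 * (n + 1) / 2 ^ n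

/-- The weights for the general version. -/
noncomputable def HH (S : Set ℕ) (n : ℕ) : ℝ := 1242 * (RR S n / 2 ^ n) +
  2 * (RR S n / 2 ^ n) * Real.log (1 + Real.pi * 2 ^ (n + 1) / RR S n) + 2 * (n + 1) / 2 ^ n

theorem mz_geoS : Summable (fun n : ℕ => 2 * ((n : ℝ) + 1) / 2 ^ n) := by
  have h1 : Summable (fun n : ℕ => (n : ℝ) ^ 1 * (1 / 2 : ℝ) ^ n) :=
    summable_pow_mul_geometric_of_norm_lt_one 1 (by norm_num)
  have h2 : Summable (fun n : ℕ => (1 / 2 : ℝ) ^ n) := summable_geometric_two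
  refine ((h1.mul_left 2).add (h2.mul_left 2)).congr fun n => ?_
  simp only [pow_one, one_div, inv_pow]
  ring

theorem GG_nonneg (S : Set ℕ) (n : ℕ) : 0 ≤ GG S n := by
  have := RR_one_le S n
  unfold GG; positivity

theorem HH_nonneg (S : Set ℕ) (n : ℕ) : 0 ≤ HH S n := by
  have := RR_one_le S n
  have h : 0 ≤ Real.log (1 + Real.pi * 2 ^ (n + 1) / RR S n) := Real.log_nonneg (by
    have : 0 ≤ Real.pi * 2 ^ (n + 1) / RR S n := by
      have := Real.pi_pos
      positivity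
    linarith)
  unfold HH; positivity

theorem GG_summable (S : Set ℕ) (hS : ∀ p ∈ S, 0 < p)
    (h : Summable (fun p : S => (1 : ℝ) / ((p : ℕ) : ℝ))) : Summable (GG S) := by
  have h1 := mz_summ1 S hS h
  exact (h1.mul_left 1242).add mz_geoS

theorem summable_of_loglog (S : Set ℕ) (hS : ∀ p ∈ S, 0 < p)
    (h : Summable (fun p : S => Real.log (2 + Real.log ((p : ℕ) : ℝ)) / ((p : ℕ) : ℝ))) :
    Summable (fun p : S => (1 : ℝ) / ((p : ℕ) : ℝ)) := by
  refine Summable.of_nonneg_of_le (fun p => by positivity) (fun p => ?_)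
    (h.mul_left (1 / Real.log 2))
  have hp : (1 : ℝ) ≤ ((p : ℕ) : ℝ) := by exact_mod_cast hS p p.2
  have h2 : 0 < Real.log 2 := Real.log_pos (by norm_num)
  have h3 : Real.log 2 ≤ Real.log (2 + Real.log ((p : ℕ) : ℝ)) :=
    Real.log_le_log (by norm_num) (by
      have := Real.log_nonneg hp
      linarith)
  rw [one_div, one_div, ← mul_div_assoc, inv_mul_eq_div, inv_eq_one_div]
  refine div_le_div_of_nonneg_right ?_ (by linarith)
  rw [le_div_iff₀ h2]; linarith

theorem HH_summable (S : Set ℕ) (hS : ∀ p ∈ S, 0 < p)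
    (h : Summable (fun p : S => Real.log (2 + Real.log ((p : ℕ) : ℝ)) / ((p : ℕ) : ℝ))) :
    Summable (HH S) := by
  have h1 := mz_summ1 S hS (summable_of_loglog S hS h)
  have h2 := mz_summ2 S hS h
  refine (((h1.mul_left 1242).add (h2.mul_left 2)).add mz_geoS).congr fun n => ?_
  unfold HH RR
  ring

/-- Telescoping, bounded variation version. -/
theorem mz_telB (S : Set ℕ) : ∃ c : ℕ → ℝ, (∀ n, 2 ^ n ≤ c n ∧ c n ≤ 2 ^ (n + 1)) ∧
    ∀ (n₀ N : ℕ), n₀ ≤ N → ∀ (P : Finset ℕ) (a : ℕ → ℂ) (A : ℝ) (γ : ℝ → ℂ) (t₀ τ : ℝ)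
      (V : ℝ → ℝ) (M : ℝ),
      (∀ p ∈ P, p = 0 ∨ p ∈ S) → (∀ p ∈ P, (p : ℝ) < c N) → 0 ≤ A → t₀ ≤ τ →
      ContinuousOn γ (Set.Icc t₀ τ) → 1 ≤ M →
      (∀ s t, t₀ ≤ s → s ≤ t → t ≤ τ → |(γ t).im - (γ s).im| ≤ V t - V s) →
      (1 + Real.log M) * (∑ m ∈ Ico n₀ N, GG S m) + 2 * (V τ - V t₀) / M < (γ τ).re - (γ t₀).re →
      (∀ t ∈ Set.Icc t₀ τ, ‖∑ p ∈ P, a p * Complex.exp ((p : ℂ) * γ t)‖ ≤ A) →
      ∃ τ', t₀ < τ' ∧ τ' ≤ τ ∧
        (γ τ).re - ((1 + Real.log M) * (∑ m ∈ Ico n₀ N, GG S m) + 2 * (V τ - V t₀) / M) ≤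
          (γ τ').re ∧
        ∀ t ∈ Set.Icc t₀ τ',
          ‖∑ p ∈ P.filter (fun p : ℕ => (p : ℝ) < c n₀), a p * Complex.exp ((p : ℂ) * γ t)‖ ≤
            3 * A := by
  obtain ⟨c, hc⟩ := mz_data S
  refine ⟨c, fun n => ⟨(hc n).1, (hc n).2.1⟩, ?_⟩
  intro n₀ N hN P a A γ t₀ τ V M hP hPc hA h0 hγ hM hV hlong hbd
  have hM0 : 0 < M := by linarith
  have hlogM : 0 ≤ Real.log M := Real.log_nonneg hM
  have hcpos : ∀ n, 0 < c n := fun n => lt_of_lt_of_le (by positivity) (hc n).1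
  have hRc : ∀ n, RR S n / c n ≤ RR S n / 2 ^ n := fun n =>
    div_le_div_of_nonneg_left (by linarith [RR_one_le S n]) (by positivity) (hc n).1
  have hVm : ∀ s t, t₀ ≤ s → s ≤ t → t ≤ τ → V s ≤ V t := by
    intro s t h1 h2 h3
    have := (abs_nonneg _).trans (hV s t h1 h2 h3)
    linarith
  have hdiv : ∀ x : ℝ, 2 * (V τ - x) / M = 2 * V τ / M - 2 * x / M := by intro x; ring
  obtain ⟨τ', h1, h2, h3, h4⟩ := mz_tel mz_one S c (RR S) hc
    (fun n => (1 + Real.log M) * GG S n)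
    (by
      intro n
      have h1 := hRc n
      have h2 : 0 ≤ 2 * ((n : ℝ) + 1) / 2 ^ n := by positivity
      have h3 : 0 ≤ RR S n / 2 ^ n := by
        have := RR_one_le S n
        positivity
      have h4 : GG S n ≤ (1 + Real.log M) * GG S n := by
        have := GG_nonneg S n
        nlinarith
      refine le_trans ?_ h4
      unfold GG
      linarith) n₀ N hN P a A γ t₀ τ (fun t => 2 * V t / M) hP hPc hA h0 hγ
    (by
      intro s hs t ht hst
      simp only
      have := hVm s t hs.1 hst ht.2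
      gcongr)
    (by
      intro n _ s t hs hst ht h
      have hv : min |(γ t).im - (γ s).im| Real.pi ≤ V t - V s :=
        (min_le_left _ _).trans (hV s t hs hst ht)
      have hv0 : 0 ≤ min |(γ t).im - (γ s).im| Real.pi := le_min (abs_nonneg _) Real.pi_pos.le
      have hRpos : 0 < RR S n := by linarith [RR_one_le S n]
      have h5 := mz_drop1 (c n) (RR S n) M ((γ t).re - (γ s).re)
        (min |(γ t).im - (γ s).im| Real.pi) (n + 1) (hcpos n) hRpos hM hv0 (by positivity) h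
      have h6 : 2 * ((n : ℝ) + 1) / c n ≤ 2 * ((n : ℝ) + 1) / 2 ^ n :=
        div_le_div_of_nonneg_left (by positivity) (by positivity) (hc n).1
      have h7 : 1242 * (RR S n / c n) + 2 * ((n : ℝ) + 1) / c n ≤ GG S n := by
        unfold GG
        have := hRc n
        linarith
      have h8 : (1 + Real.log M) * (1242 * (RR S n / c n) + 2 * ((n : ℝ) + 1) / c n) ≤
          (1 + Real.log M) * GG S n := mul_le_mul_of_nonneg_left h7 (by linarith)
      have h9 : 2 * min |(γ t).im - (γ s).im| Real.pi / M ≤ 2 * (V t - V s) / M := by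
        gcongr
      have h10 : 2 * (V t - V s) / M = 2 * V t / M - 2 * V s / M := by ring
      linarith)
    (by
      rw [← Finset.mul_sum]
      have : 2 * (V τ - V t₀) / M = 2 * V τ / M - 2 * V t₀ / M := by ring
      linarith) hbd
  refine ⟨τ', h1, h2, ?_, ?_⟩
  · rw [← Finset.mul_sum] at h3
    have h5 := hVm t₀ τ' le_rfl h1.le h2
    have h6 : 2 * V t₀ / M ≤ 2 * V τ' / M := by gcongr
    have h7 : 2 * (V τ - V t₀) / M = 2 * V τ / M - 2 * V t₀ / M := by ring
    linarith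
  · intro t ht
    refine (h4 t ht).trans ?_
    exact mul_le_mul_of_nonneg_right (mz_prod_le _ _) hA

/-- Telescoping, general version. -/
theorem mz_telA (S : Set ℕ) : ∃ c : ℕ → ℝ, (∀ n, 2 ^ n ≤ c n ∧ c n ≤ 2 ^ (n + 1)) ∧
    ∀ (n₀ N : ℕ), n₀ ≤ N → ∀ (P : Finset ℕ) (a : ℕ → ℂ) (A : ℝ) (γ : ℝ → ℂ) (t₀ τ : ℝ),
      (∀ p ∈ P, p = 0 ∨ p ∈ S) → (∀ p ∈ P, (p : ℝ) < c N) → 0 ≤ A → t₀ ≤ τ →
      ContinuousOn γ (Set.Icc t₀ τ) →
      (∑ m ∈ Ico n₀ N, HH S m) < (γ τ).re - (γ t₀).re →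
      (∀ t ∈ Set.Icc t₀ τ, ‖∑ p ∈ P, a p * Complex.exp ((p : ℂ) * γ t)‖ ≤ A) →
      ∃ τ', t₀ < τ' ∧ τ' ≤ τ ∧
        (γ τ).re - (∑ m ∈ Ico n₀ N, HH S m) ≤ (γ τ').re ∧
        ∀ t ∈ Set.Icc t₀ τ',
          ‖∑ p ∈ P.filter (fun p : ℕ => (p : ℝ) < c n₀), a p * Complex.exp ((p : ℂ) * γ t)‖ ≤
            3 * A := by
  obtain ⟨c, hc⟩ := mz_data S
  refine ⟨c, fun n => ⟨(hc n).1, (hc n).2.1⟩, ?_⟩
  intro n₀ N hN P a A γ t₀ τ hP hPc hA h0 hγ hlong hbd
  have hcpos : ∀ n, 0 < c n := fun n => lt_of_lt_of_le (by positivity) (hc n).1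
  have hRc : ∀ n, RR S n / c n ≤ RR S n / 2 ^ n := fun n =>
    div_le_div_of_nonneg_left (by linarith [RR_one_le S n]) (by positivity) (hc n).1
  have hpi := Real.pi_pos
  obtain ⟨τ', h1, h2, h3, h4⟩ := mz_tel mz_one S c (RR S) hc (HH S)
    (by
      intro n
      have h1 := hRc n
      have hR1 := RR_one_le S n
      have h2 : 0 ≤ 2 * ((n : ℝ) + 1) / 2 ^ n := by positivity
      have h3 : 0 ≤ RR S n / 2 ^ n := by positivity
      have h : 0 ≤ Real.log (1 + Real.pi * 2 ^ (n + 1) / RR S n) := Real.log_nonneg (by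
        have : 0 ≤ Real.pi * 2 ^ (n + 1) / RR S n := by positivity
        linarith)
      have h4 : 0 ≤ 2 * (RR S n / 2 ^ n) * Real.log (1 + Real.pi * 2 ^ (n + 1) / RR S n) := by
        positivity
      unfold HH
      linarith) n₀ N hN P a A γ t₀ τ (fun _ => 0) hP hPc hA h0 hγ
    (by
      intro s hs t ht hst
      exact le_rfl)
    (by
      intro n _ s t hs hst ht h
      have hv0 : 0 ≤ min |(γ t).im - (γ s).im| Real.pi := le_min (abs_nonneg _) Real.pi_pos.le
      have hv1 : min |(γ t).im - (γ s).im| Real.pi ≤ Real.pi := min_le_right _ _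
      have hRpos : 0 < RR S n := by linarith [RR_one_le S n]
      have h5 := mz_drop0 (c n) (RR S n) ((γ t).re - (γ s).re)
        (min |(γ t).im - (γ s).im| Real.pi) (n + 1) (hcpos n) hRpos hv0 (by positivity) h
      have h6 : 2 * ((n : ℝ) + 1) / c n ≤ 2 * ((n : ℝ) + 1) / 2 ^ n :=
        div_le_div_of_nonneg_left (by positivity) (by positivity) (hc n).1
      have hcn := hcpos n
      have h7 : Real.log (1 + min |(γ t).im - (γ s).im| Real.pi * c n / RR S n) ≤
          Real.log (1 + Real.pi * 2 ^ (n + 1) / RR S n) := by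
        apply Real.log_le_log (by positivity)
        have : min |(γ t).im - (γ s).im| Real.pi * c n ≤ Real.pi * 2 ^ (n + 1) :=
          mul_le_mul hv1 (hc n).2.1 hcn.le hpi.le
        gcongr
      have h8 : 0 ≤ Real.log (1 + min |(γ t).im - (γ s).im| Real.pi * c n / RR S n) :=
        Real.log_nonneg (by
          have : 0 ≤ min |(γ t).im - (γ s).im| Real.pi * c n / RR S n := by positivity
          linarith)
      have h9 : 2 * (RR S n / c n) *
          Real.log (1 + min |(γ t).im - (γ s).im| Real.pi * c n / RR S n) ≤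
          2 * (RR S n / 2 ^ n) * Real.log (1 + Real.pi * 2 ^ (n + 1) / RR S n) := by
        refine mul_le_mul ?_ h7 h8 (by positivity)
        linarith [hRc n]
      simp only [sub_self, add_zero]
      unfold HH
      linarith [hRc n])
    (by
      simp only [sub_self, add_zero]
      exact hlong) hbd
  refine ⟨τ', h1, h2, ?_, ?_⟩
  · simp only [sub_self, add_zero] at h3
    exact h3
  · intro t ht
    refine (h4 t ht).trans ?_
    exact mul_le_mul_of_nonneg_right (mz_prod_le _ _) hA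

end Pool.Agent.Helper107.MZ
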