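import Mathlib
import Pool.Agent.Helper107.MZtel
import Pool.Agent.Helper107.MZ15

set_option autoImplicit false
open Finset Filter

namespace Pool.Agent.Helper107.MZ

/-- From the telescoping property to the vanishing of the coefficients. -/
theorem mac_core (p : ℕ → ℕ) (hp : StrictMono p) (hp0 : ∀ n, 0 < p n) (a : ℕ → ℂ)
    (ha : ∀ z : ℂ, Summable (fun n => a n * z ^ (p n))) (γ : ℝ → ℂ) (L : ℝ → ℂ) (T : ℝ)
    (hγ : ContinuousOn γ (Set.Ici T))
    (hL : ∀ t, T ≤ t → Complex.exp (L t) = γ t) (Mb : ℝ)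
    (hMb : ∀ t, T ≤ t → ‖∑' n, a n * (γ t) ^ (p n)‖ ≤ Mb)
    (c : ℕ → ℝ) (hc : ∀ n, 2 ^ n ≤ c n ∧ c n ≤ 2 ^ (n + 1)) (n₀ : ℕ)
    (htel : ∀ X₀ : ℝ, ∃ τ, T ≤ τ ∧ ∀ N, n₀ ≤ N → ∀ (P : Finset ℕ) (b : ℕ → ℂ) (A : ℝ),
      (∀ q ∈ P, q = 0 ∨ q ∈ Set.range p) → (∀ q ∈ P, (q : ℝ) < c N) → 0 ≤ A →
      (∀ t ∈ Set.Icc T τ, ‖∑ q ∈ P, b q * Complex.exp ((q : ℂ) * L t)‖ ≤ A) →
      ∃ τ', T < τ' ∧ τ' ≤ τ ∧ X₀ ≤ (L τ').re ∧ ∀ t ∈ Set.Icc T τ',
          ‖∑ q ∈ P.filter (fun q : ℕ => (q : ℝ) < c n₀), b q * Complex.exp ((q : ℂ) * L t)‖ ≤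
            3 * A) :
    ∀ n, (p n : ℝ) < c n₀ → a n = 0 := by
  classical
  set b : ℕ → ℂ := Function.extend p a (fun _ => 0) with hb
  have hbp : ∀ n, b (p n) = a n := fun n => hp.injective.extend_apply a _ n
  have hMb0 : 0 ≤ Mb := (norm_nonneg _).trans (hMb T le_rfl)
  -- number of exponents below a threshold
  have hcount : ∀ x : ℝ, ∃ m : ℕ, ∀ n, n < m ↔ (p n : ℝ) < x := by
    intro x
    have hex : ∃ n, ¬ (p n : ℝ) < x := by
      obtain ⟨k, hk⟩ := exists_nat_ge x
      refine ⟨k, ?_⟩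
      rw [not_lt]
      have : k ≤ p k := hp.le_apply
      have : (k : ℝ) ≤ p k := by exact_mod_cast this
      linarith
    refine ⟨Nat.find hex, fun n => ⟨fun h => ?_, fun h => ?_⟩⟩
    · by_contra h'
      exact Nat.find_min hex h h'
    · by_contra h'
      rw [not_lt] at h'
      have h1 := Nat.find_spec hex
      apply h1
      have : p (Nat.find hex) ≤ p n := hp.monotone h'
      have : (p (Nat.find hex) : ℝ) ≤ p n := by exact_mod_cast this
      linarith
  obtain ⟨m₀, hm₀⟩ := hcount (c n₀)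
  have hcmono : ∀ N, n₀ ≤ N → c n₀ ≤ c N := by
    intro N hN
    rcases hN.eq_or_lt with h | h
    · rw [h]
    · calc c n₀ ≤ 2 ^ (n₀ + 1) := (hc n₀).2
        _ ≤ 2 ^ N := pow_le_pow_right₀ (by norm_num) h
        _ ≤ c N := (hc N).1
  have hpoly := mz_poly_bdd ((range m₀).image p)
    (by
      intro q hq
      rw [Finset.mem_image] at hq
      obtain ⟨n, _, rfl⟩ := hq
      exact hp0 n) b (3 * (Mb + 1))
    (by
      intro ρ
      obtain ⟨τ, hTτ, hτ⟩ := htel (Real.log (max ρ 1))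
      -- bound on the path
      obtain ⟨ρ', hρ'⟩ : ∃ ρ', ∀ t ∈ Set.Icc T τ, ‖γ t‖ ≤ ρ' := by
        have hcont : ContinuousOn (fun t => ‖γ t‖) (Set.Icc T τ) :=
          (hγ.mono Set.Icc_subset_Ici_self).norm
        obtain ⟨C, hC⟩ := (isCompact_Icc (a := T) (b := τ)).bddAbove_image hcont
        exact ⟨C, fun t ht => hC ⟨t, ht, rfl⟩⟩
      obtain ⟨B, -, hB⟩ := mz_trunc p hp a ha ρ' 0
      obtain ⟨N, hN0, hN⟩ : ∃ N, n₀ ≤ N ∧ B ≤ c N := by
        obtain ⟨k, hk⟩ := pow_unbounded_of_one_lt B (show (1 : ℝ) < 2 by norm_num)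
        refine ⟨max n₀ k, le_max_left _ _, ?_⟩
        calc B ≤ 2 ^ k := hk.le
          _ ≤ 2 ^ (max n₀ k) := pow_le_pow_right₀ (by norm_num) (le_max_right _ _)
          _ ≤ c (max n₀ k) := (hc _).1
      obtain ⟨m, hm⟩ := hcount (c N)
      have hsum : ∀ (k : ℕ) (z : ℂ), ∑ q ∈ (range k).image p, b q * z ^ q =
          ∑ n ∈ range k, a n * z ^ (p n) := by
        intro k z
        rw [Finset.sum_image (fun x _ y _ h => hp.injective h)]
        exact Finset.sum_congr rfl fun n _ => by rw [hbp]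
      have hexp : ∀ t, T ≤ t → ∀ q : ℕ, Complex.exp ((q : ℂ) * L t) = γ t ^ q := by
        intro t ht q
        rw [Complex.exp_nat_mul, hL t ht]
      obtain ⟨τ', h1, h2, h3, h4⟩ := hτ N hN0 ((range m).image p) b (Mb + 1)
        (by
          intro q hq
          rw [Finset.mem_image] at hq
          obtain ⟨n, _, rfl⟩ := hq
          exact Or.inr ⟨n, rfl⟩)
        (by
          intro q hq
          rw [Finset.mem_image] at hq
          obtain ⟨n, hn, rfl⟩ := hq
          exact (hm n).mp (Finset.mem_range.mp hn))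
        (by linarith)
        (by
          intro t ht
          have h5 : ∑ q ∈ (range m).image p, b q * Complex.exp ((q : ℂ) * L t) =
              ∑ n ∈ range m, a n * (γ t) ^ (p n) := by
            rw [← hsum m (γ t)]
            exact Finset.sum_congr rfl fun q _ => by rw [hexp t ht.1]
          rw [h5]
          have h6 := hB (c N) hN (γ t) (hρ' t ht) m hm
          have h7 := hMb t ht.1
          have h8 : ∑ n ∈ range m, a n * (γ t) ^ (p n) = ∑' n, a n * (γ t) ^ (p n) -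
              (∑' n, a n * (γ t) ^ (p n) - ∑ n ∈ range m, a n * (γ t) ^ (p n)) := by ring
          rw [h8]
          refine (norm_sub_le _ _).trans ?_
          linarith)
      refine ⟨γ τ', ?_, ?_⟩
      · rw [← hL τ' h1.le, Complex.norm_exp]
        calc ρ ≤ max ρ 1 := le_max_left _ _
          _ = Real.exp (Real.log (max ρ 1)) := (Real.exp_log (by positivity)).symm
          _ ≤ _ := Real.exp_le_exp.mpr h3
      · have h5 := h4 τ' ⟨h1.le, le_rfl⟩
        have h6 : ((range m).image p).filter (fun q : ℕ => (q : ℝ) < c n₀) =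
            (range m₀).image p := by
          ext q
          simp only [Finset.mem_filter, Finset.mem_image, Finset.mem_range]
          constructor
          · rintro ⟨⟨n, _, rfl⟩, hq⟩
            exact ⟨n, (hm₀ n).mpr hq, rfl⟩
          · rintro ⟨n, hn, rfl⟩
            have h7 := (hm₀ n).mp hn
            exact ⟨⟨n, (hm n).mpr (lt_of_lt_of_le h7 (hcmono N hN0)), rfl⟩, h7⟩
        rw [h6] at h5
        have h7 : ∑ q ∈ (range m₀).image p, b q * γ τ' ^ q =
            ∑ q ∈ (range m₀).image p, b q * Complex.exp ((q : ℂ) * L τ') :=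
          Finset.sum_congr rfl fun q _ => by rw [hexp τ' h1.le]
        rw [h7]
        exact h5)
  intro n hn
  have := hpoly (p n) (Finset.mem_image.mpr ⟨n, Finset.mem_range.mpr ((hm₀ n).mpr hn), rfl⟩)
  rwa [hbp] at this

end Pool.Agent.Helper107.MZ
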