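import Mathlib
import Pool.Agent.Helper107.MZmac

set_option autoImplicit false
open Finset Filter

namespace Pool.Agent.Helper107.MZ

theorem exists_log (G : ℝ → ℂ) (hG : Continuous G) (h0 : ∀ t, G t ≠ 0) :
    ∃ L : ℝ → ℂ, Continuous L ∧ ∀ t, Complex.exp (L t) = G t := by
  rcases Complex.isCoveringMapOn_exp.existsUnique_continuousMap_lifts
    (⟨G, hG⟩ : C(ℝ, ℂ)) (a₀ := 0) (e₀ := Complex.log (G 0)) (Complex.exp_log (h0 0))
    (fun x => h0 x) with ⟨f, ⟨-, hf⟩, -⟩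
  exact ⟨f, f.continuous, fun t => congrFun hf t⟩

/-- A logarithmic lift of the end of a curve going to infinity. -/
theorem mac_setup (γ : ℝ → ℂ) (hγ : ContinuousOn γ (Set.Ici 0))
    (hinf : Tendsto (fun t => ‖γ t‖) atTop atTop) (T₀ : ℝ) :
    ∃ T, 0 ≤ T ∧ T₀ ≤ T ∧ (∀ t, T ≤ t → 1 ≤ ‖γ t‖) ∧
      ∃ L : ℝ → ℂ, Continuous L ∧ (∀ t, T ≤ t → Complex.exp (L t) = γ t) ∧
        (∀ t, T ≤ t → (L t).re = Real.log ‖γ t‖) := by
  obtain ⟨T₁, hT₁⟩ := eventually_atTop.mp (hinf.eventually_ge_atTop 1)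
  have hT : ∀ t, max T₁ (max 0 T₀) ≤ t → 1 ≤ ‖γ t‖ := fun t ht =>
    hT₁ t ((le_max_left _ _).trans ht)
  refine ⟨max T₁ (max 0 T₀), ?_, ?_, hT, ?_⟩
  · exact (le_max_left 0 T₀).trans (le_max_right _ _)
  · exact (le_max_right 0 T₀).trans (le_max_right _ _)
  · set T := max T₁ (max 0 T₀) with hTdef
    have hT0 : 0 ≤ T := (le_max_left 0 T₀).trans (le_max_right _ _)
    have hG : Continuous (fun t => γ (max t T)) := by
      refine hγ.comp_continuous (continuous_id.max continuous_const) fun t => ?_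
      exact hT0.trans (le_max_right _ _)
    obtain ⟨L, hL1, hL2⟩ := exists_log (fun t => γ (max t T)) hG (by
      intro t h
      have := hT (max t T) (le_max_right _ _)
      rw [h] at this
      norm_num at this)
    have hL3 : ∀ t, T ≤ t → Complex.exp (L t) = γ t := by
      intro t ht
      rw [hL2 t]
      simp only [max_eq_left ht]
    refine ⟨L, hL1, hL3, fun t ht => ?_⟩
    rw [← hL3 t ht, Complex.norm_exp, Real.log_exp]

theorem range_summable (p : ℕ → ℕ) (hp : StrictMono p) (w : ℕ → ℝ)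
    (h : Summable (fun n => w (p n))) : Summable (fun q : Set.range p => w (q : ℕ)) := by
  have := (Equiv.ofInjective p hp.injective).summable_iff (f := fun q : Set.range p => w (q : ℕ))
  rw [← this]
  exact h

theorem tail_small (g : ℕ → ℝ) (hg0 : ∀ n, 0 ≤ g n) (hg : Summable g) (σ : ℝ) (hσ : 0 < σ) :
    ∃ n₁, ∀ n₀, n₁ ≤ n₀ → ∀ N, ∑ m ∈ Ico n₀ N, g m ≤ σ := by
  have h1 := hg.hasSum.tendsto_sum_nat
  have h2 : ∀ᶠ n in atTop, (∑' i, g i) - σ < ∑ i ∈ range n, g i :=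
    h1.eventually_const_lt (by linarith)
  obtain ⟨n₁, hn₁⟩ := eventually_atTop.mp h2
  refine ⟨n₁, fun n₀ hn₀ N => ?_⟩
  rcases le_or_gt n₀ N with h | h
  · rw [Finset.sum_Ico_eq_sub _ h]
    have h3 := hn₁ n₀ hn₀
    have h4 : ∑ i ∈ range N, g i ≤ ∑' i, g i := hg.sum_le_tsum _ (fun i _ => hg0 i)
    linarith
  · rw [Finset.Ico_eq_empty (by omega)]
    simpa using hσ.le

/-- Macintyre's conjecture under `∑ log (2 + log p_n) / p_n < ∞`. -/
theorem mac_A (p : ℕ → ℕ) (hp : StrictMono p) (hp0 : ∀ n, 0 < p n)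
    (hsum : Summable (fun n => Real.log (2 + Real.log (p n : ℝ)) / (p n : ℝ)))
    (a : ℕ → ℂ) (ha : ∀ z : ℂ, Summable (fun n => a n * z ^ (p n)))
    (hne : ∃ n, a n ≠ 0) (γ : ℝ → ℂ) (hγ : ContinuousOn γ (Set.Ici 0))
    (hinf : Tendsto (fun t => ‖γ t‖) atTop atTop) :
    ¬ ∃ M : ℝ, ∀ t : ℝ, 0 ≤ t → ‖∑' n, a n * (γ t) ^ (p n)‖ ≤ M := by
  rintro ⟨Mb, hMb⟩
  obtain ⟨T, hT0, -, hT1, L, hLc, hL, hLre⟩ := mac_setup γ hγ hinf 0
  have hS : ∀ q ∈ Set.range p, 0 < q := by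
    rintro _ ⟨n, rfl⟩; exact hp0 n
  have hHH := HH_summable (Set.range p) hS (range_summable p hp
    (fun q => Real.log (2 + Real.log (q : ℝ)) / (q : ℝ)) hsum)
  obtain ⟨c, hc, htel⟩ := mz_telA (Set.range p)
  obtain ⟨n, hn⟩ := hne
  obtain ⟨n₀, hn₀⟩ := pow_unbounded_of_one_lt (p n : ℝ) (show (1 : ℝ) < 2 by norm_num)
  apply hn
  refine mac_core p hp hp0 a ha γ L T (hγ.mono (Set.Ici_subset_Ici.mpr hT0)) hL Mb
    (fun t ht => hMb t (hT0.trans ht)) c hc n₀ ?_ n (lt_of_lt_of_le hn₀ (hc n₀).1)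
  intro X₀
  set H := ∑' m, HH (Set.range p) m with hH
  have hlog : Tendsto (fun t => Real.log ‖γ t‖) atTop atTop := Real.tendsto_log_atTop.comp hinf
  obtain ⟨τ, hτ⟩ := ((hlog.eventually_ge_atTop ((L T).re + H + |X₀| + 1 + H)).and
    (eventually_ge_atTop T)).exists
  have hH0 : ∀ N, ∑ m ∈ Ico n₀ N, HH (Set.range p) m ≤ H := fun N =>
    hHH.sum_le_tsum _ (fun i _ => HH_nonneg _ i)
  have hHnn : 0 ≤ H := tsum_nonneg fun i => HH_nonneg _ i
  have hreτ := hLre τ hτ.2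
  have hreT : 0 ≤ (L T).re := by
    rw [hLre T le_rfl]; exact Real.log_nonneg (hT1 T le_rfl)
  refine ⟨τ, hτ.2, fun N hN P b A hP hPc hA hbd => ?_⟩
  obtain ⟨τ', h1, h2, h3, h4⟩ := htel n₀ N hN P b A L T τ hP hPc hA hτ.2 hLc.continuousOn
    (by
      have := hH0 N
      have := hτ.1
      have := abs_nonneg X₀
      rw [hreτ]
      linarith) hbd
  refine ⟨τ', h1, h2, ?_, h4⟩
  have := hH0 N
  have := hτ.1
  have := le_abs_self X₀
  rw [hreτ] at h3
  linarith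

theorem var_fun (f : ℝ → ℂ) (T τ : ℝ) (hfin : eVariationOn f (Set.Icc T τ) ≠ ⊤) (s t : ℝ)
    (hs : T ≤ s) (hst : s ≤ t) (ht : t ≤ τ) :
    ‖f t - f s‖ ≤ (eVariationOn f (Set.Icc T t)).toReal - (eVariationOn f (Set.Icc T s)).toReal := by
  have h1 := eVariationOn.Icc_add_Icc f (s := Set.univ) hs hst (Set.mem_univ _)
  simp only [Set.univ_inter] at h1
  have h2 : eVariationOn f (Set.Icc T t) ≠ ⊤ :=
    ne_top_of_le_ne_top hfin (eVariationOn.mono f (Set.Icc_subset_Icc_right ht))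
  have h3 : eVariationOn f (Set.Icc T s) ≠ ⊤ :=
    ne_top_of_le_ne_top h2 (eVariationOn.mono f (Set.Icc_subset_Icc_right hst))
  have h4 : eVariationOn f (Set.Icc s t) ≠ ⊤ :=
    ne_top_of_le_ne_top h2 (eVariationOn.mono f (Set.Icc_subset_Icc_left hs))
  have h5 : edist (f t) (f s) ≤ eVariationOn f (Set.Icc s t) :=
    eVariationOn.edist_le f ⟨hst, le_rfl⟩ ⟨le_rfl, hst⟩
  have h6 : ‖f t - f s‖ ≤ (eVariationOn f (Set.Icc s t)).toReal := by
    rw [← dist_eq_norm, dist_edist]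
    exact ENNReal.toReal_mono h4 h5
  rw [← h1, ENNReal.toReal_add h3 h4]
  linarith

theorem unit_lip (x y : ℂ) (hx : 1 ≤ ‖x‖) (hy : 1 ≤ ‖y‖) :
    ‖x / ‖x‖ - y / ‖y‖‖ ≤ 2 * ‖x - y‖ := by
  have hx0 : (‖x‖ : ℂ) ≠ 0 := by
    have : ‖x‖ ≠ 0 := by linarith
    exact_mod_cast this
  have hy0 : (‖y‖ : ℂ) ≠ 0 := by
    have : ‖y‖ ≠ 0 := by linarith
    exact_mod_cast this
  have e : x / ‖x‖ - y / ‖y‖ = ((x - y) + (y / ‖y‖) * ((‖y‖ : ℂ) - ‖x‖)) / ‖x‖ := by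
    field_simp
    ring
  rw [e, norm_div, Complex.norm_real, norm_norm]
  rw [div_le_iff₀ (by linarith)]
  have h1 : ‖y / (‖y‖ : ℂ)‖ = 1 := by
    rw [norm_div, Complex.norm_real, norm_norm, div_self (by linarith)]
  have h2 : ‖((‖y‖ : ℂ) - ‖x‖)‖ ≤ ‖x - y‖ := by
    rw [← Complex.ofReal_sub, Complex.norm_real, Real.norm_eq_abs, norm_sub_rev]
    exact abs_norm_sub_norm_le y x
  calc ‖(x - y) + (y / ‖y‖) * ((‖y‖ : ℂ) - ‖x‖)‖
      ≤ ‖x - y‖ + ‖y / (‖y‖ : ℂ)‖ * ‖((‖y‖ : ℂ) - ‖x‖)‖ := by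
        refine (norm_add_le _ _).trans ?_
        rw [norm_mul]
    _ ≤ ‖x - y‖ + 1 * ‖x - y‖ := by rw [h1]; linarith
    _ = 2 * ‖x - y‖ * 1 := by ring
    _ ≤ 2 * ‖x - y‖ * ‖x‖ := by
        refine mul_le_mul_of_nonneg_left hx (by positivity)

/-- Macintyre's conjecture for curves whose length (or whose angular variation) up to time `t` is
at most a power of `|γ(t)|` for a sequence of times `t → ∞`. -/
theorem mac_B (p : ℕ → ℕ) (hp : StrictMono p) (hp0 : ∀ n, 0 < p n)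
    (hsum : Summable (fun n => 1 / (p n : ℝ)))
    (a : ℕ → ℂ) (ha : ∀ z : ℂ, Summable (fun n => a n * z ^ (p n)))
    (hne : ∃ n, a n ≠ 0) (γ : ℝ → ℂ) (hγ : ContinuousOn γ (Set.Ici 0))
    (hinf : Tendsto (fun t => ‖γ t‖) atTop atTop)
    (hvar : ∃ κ T₀ : ℝ, ∃ᶠ t in atTop,
      eVariationOn γ (Set.Icc T₀ t) ≤ ENNReal.ofReal (‖γ t‖ ^ κ) ∨
      eVariationOn (fun s => γ s / ‖γ s‖) (Set.Icc T₀ t) ≤ ENNReal.ofReal (‖γ t‖ ^ κ)) :
    ¬ ∃ M : ℝ, ∀ t : ℝ, 0 ≤ t → ‖∑' n, a n * (γ t) ^ (p n)‖ ≤ M := by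
  rintro ⟨Mb, hMb⟩
  obtain ⟨κ', T₀, hfreq⟩ := hvar
  set κ := max κ' 0 with hκ
  have hκ0 : 0 ≤ κ := le_max_right _ _
  obtain ⟨T, hT0, hTT₀, hT1, L, hLc, hL, hLre⟩ := mac_setup γ hγ hinf T₀
  have hS : ∀ q ∈ Set.range p, 0 < q := by
    rintro _ ⟨n, rfl⟩; exact hp0 n
  have hGG := GG_summable (Set.range p) hS (range_summable p hp (fun q => 1 / (q : ℝ)) hsum)
  obtain ⟨c, hc, htel⟩ := mz_telB (Set.range p)
  obtain ⟨n, hn⟩ := hne
  obtain ⟨n₁, hn₁⟩ := tail_small (GG (Set.range p)) (GG_nonneg _) hGG (1 / (2 * (κ + 1)))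
    (by positivity)
  obtain ⟨n₂, hn₂⟩ := pow_unbounded_of_one_lt (p n : ℝ) (show (1 : ℝ) < 2 by norm_num)
  apply hn
  have hn₀c : (p n : ℝ) < c (max n₁ n₂) := by
    refine lt_of_lt_of_le hn₂ (le_trans ?_ (hc _).1)
    exact pow_le_pow_right₀ (by norm_num) (le_max_right _ _)
  refine mac_core p hp hp0 a ha γ L T (hγ.mono (Set.Ici_subset_Ici.mpr hT0)) hL Mb
    (fun t ht => hMb t (hT0.trans ht)) c hc (max n₁ n₂) ?_ n hn₀c
  intro X₀
  have hlog : Tendsto (fun t => Real.log ‖γ t‖) atTop atTop := Real.tendsto_log_atTop.comp hinf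
  obtain ⟨τ, hτvar, hτX, hτT⟩ := (hfreq.and_eventually
    ((hlog.eventually_ge_atTop (2 * (L T).re + 2 * |X₀| + 10)).and
    (eventually_ge_atTop T))).exists
  have hreτ := hLre τ hτT
  have hreT : 0 ≤ (L T).re := by
    rw [hLre T le_rfl]; exact Real.log_nonneg (hT1 T le_rfl)
  rw [← hreτ] at hτX
  set X := (L τ).re with hX
  have hX0 : 0 ≤ X := by have := abs_nonneg X₀; linarith
  -- the variation function of the unit direction
  have hpow : ‖γ τ‖ ^ κ' ≤ Real.exp (κ * X) := by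
    have h1 : 1 ≤ ‖γ τ‖ := hT1 τ hτT
    have h2 : ‖γ τ‖ = Real.exp X := by rw [← hL τ hτT, Complex.norm_exp]
    calc ‖γ τ‖ ^ κ' ≤ ‖γ τ‖ ^ κ := Real.rpow_le_rpow_of_exponent_le h1 (le_max_left _ _)
      _ = Real.exp (κ * X) := by rw [h2, ← Real.exp_mul, mul_comm]
  obtain ⟨V, hV, hVτ⟩ : ∃ V : ℝ → ℝ, (∀ s t, T ≤ s → s ≤ t → t ≤ τ →
      ‖γ t / ‖γ t‖ - γ s / ‖γ s‖‖ ≤ V t - V s) ∧ V τ - V T ≤ 2 * Real.exp (κ * X) := by
    have hgen : ∀ f : ℝ → ℂ, eVariationOn f (Set.Icc T₀ τ) ≤ ENNReal.ofReal (‖γ τ‖ ^ κ') →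
        eVariationOn f (Set.Icc T τ) ≠ ⊤ ∧
        (eVariationOn f (Set.Icc T τ)).toReal - (eVariationOn f (Set.Icc T T)).toReal ≤
          Real.exp (κ * X) := by
      intro f hf
      have h1 : eVariationOn f (Set.Icc T τ) ≤ ENNReal.ofReal (‖γ τ‖ ^ κ') :=
        (eVariationOn.mono f (Set.Icc_subset_Icc_left hTT₀)).trans hf
      have h2 : eVariationOn f (Set.Icc T τ) ≠ ⊤ := ne_top_of_le_ne_top ENNReal.ofReal_ne_top h1
      refine ⟨h2, ?_⟩
      have h3 : (eVariationOn f (Set.Icc T τ)).toReal ≤ ‖γ τ‖ ^ κ' := by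
        have := ENNReal.toReal_mono ENNReal.ofReal_ne_top h1
        rwa [ENNReal.toReal_ofReal (by positivity)] at this
      have h4 : 0 ≤ (eVariationOn f (Set.Icc T T)).toReal := ENNReal.toReal_nonneg
      linarith
    rcases hτvar with h | h
    · obtain ⟨h1, h2⟩ := hgen γ h
      refine ⟨fun t => 2 * (eVariationOn γ (Set.Icc T t)).toReal, ?_, ?_⟩
      · intro s t hs hst ht
        have h3 := var_fun γ T τ h1 s t hs hst ht
        have h4 := unit_lip (γ t) (γ s) (hT1 t (hs.trans hst)) (hT1 s hs)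
        simp only
        linarith
      · simp only
        linarith
    · obtain ⟨h1, h2⟩ := hgen _ h
      refine ⟨fun t => (eVariationOn (fun s => γ s / ‖γ s‖) (Set.Icc T t)).toReal, ?_, ?_⟩
      · intro s t hs hst ht
        exact var_fun (fun s => γ s / ‖γ s‖) T τ h1 s t hs hst ht
      · have := Real.exp_pos (κ * X)
        simp only
        linarith
  have hdir : ∀ t, T ≤ t → Complex.exp (((L t).im : ℂ) * Complex.I) = γ t / ‖γ t‖ := by
    intro t ht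
    have h1 : γ t = Complex.exp (L t) := (hL t ht).symm
    have h2 : (‖γ t‖ : ℂ) = Complex.exp ((L t).re : ℂ) := by
      rw [h1, Complex.norm_exp, Complex.ofReal_exp]
    rw [h2, h1, ← Complex.exp_sub]
    congr 1
    nth_rewrite 2 [← Complex.re_add_im (L t)]
    ring
  have hIm : ∀ s t, T ≤ s → s ≤ t → t ≤ τ →
      |(L t).im - (L s).im| ≤ Real.pi / 2 * V t - Real.pi / 2 * V s := by
    intro s t hs hst ht
    have := mz_arg_var (fun x => (L x).im) V s t hst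
      (Complex.continuous_im.comp hLc).continuousOn (by
        intro x y hx hxy hy
        rw [hdir y (hs.trans (hx.trans hxy)), hdir x (hs.trans hx)]
        exact hV x y (hs.trans hx) hxy (hy.trans ht))
    linarith
  set M := 1 + Real.pi * Real.exp (κ * X) with hM
  have hexp1 : 1 ≤ Real.exp (κ * X) := Real.one_le_exp (by positivity)
  have hpi := Real.pi_pos
  have hM1 : 1 ≤ M := by
    have : 0 ≤ Real.pi * Real.exp (κ * X) := by positivity
    linarith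
  have hlogM : Real.log M ≤ 2 + κ * X := by
    rw [Real.log_le_iff_le_exp (by linarith)]
    have h1 : (5 : ℝ) ≤ Real.exp 2 := by
      have := Real.exp_one_gt_d9
      have h : Real.exp 2 = Real.exp 1 * Real.exp 1 := by rw [← Real.exp_add]; norm_num
      rw [h]; nlinarith
    have h2 := Real.pi_lt_four
    calc M ≤ 5 * Real.exp (κ * X) := by rw [hM]; nlinarith
      _ ≤ Real.exp 2 * Real.exp (κ * X) := mul_le_mul_of_nonneg_right h1 (Real.exp_nonneg _)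
      _ = Real.exp (2 + κ * X) := by rw [← Real.exp_add]
  have hVM : 2 * (Real.pi / 2 * V τ - Real.pi / 2 * V T) / M ≤ 2 := by
    rw [div_le_iff₀ (by linarith)]
    nlinarith
  have htot : ∀ N, (1 + Real.log M) * (∑ m ∈ Ico (max n₁ n₂) N, GG (Set.range p) m) +
      2 * (Real.pi / 2 * V τ - Real.pi / 2 * V T) / M ≤ 4 + X / 2 := by
    intro N
    have h1 := hn₁ (max n₁ n₂) (le_max_left _ _) N
    have h2 : 0 ≤ ∑ m ∈ Ico (max n₁ n₂) N, GG (Set.range p) m :=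
      Finset.sum_nonneg fun i _ => GG_nonneg _ i
    have h3 : (1 + Real.log M) * (∑ m ∈ Ico (max n₁ n₂) N, GG (Set.range p) m) ≤
        (3 + κ * X) * (1 / (2 * (κ + 1))) := by
      refine mul_le_mul (by linarith) h1 h2 (by positivity)
    have h4 : (3 + κ * X) * (1 / (2 * (κ + 1))) ≤ 3 / 2 + X / 2 := by
      rw [mul_one_div, div_le_iff₀ (by positivity)]
      nlinarith
    linarith
  refine ⟨τ, hτT, fun N hN P b A hP hPc hA hbd => ?_⟩
  obtain ⟨τ', h1, h2, h3, h4⟩ := htel (max n₁ n₂) N hN P b A L T τ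
    (fun t => Real.pi / 2 * V t) M hP hPc hA hτT hLc.continuousOn hM1 hIm
    (by
      have h5 := htot N
      have h6 := abs_nonneg X₀
      rw [← hX]
      linarith) hbd
  refine ⟨τ', h1, h2, ?_, h4⟩
  have h5 := htot N
  have h6 := le_abs_self X₀
  rw [← hX] at h3
  linarith

end Pool.Agent.Helper107.MZ
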