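import Mathlib
import Pool.Agent.Helper107.MZmac2
import Pool.Agent.Helper107.MZ8
import Pool.Agent.Helper107.MZ9
import Pool.Agent.Helper107.MZ13
import Pool.Agent.Helper107.MZ14

set_option autoImplicit false
open Finset Filter

namespace Pool.Agent.Helper107.MZ

/-- Control of the constant term implies that the powers do not span. -/
theorem nonspan_of_bound (S : Set ℕ) (hS : ∀ p ∈ S, 0 < p) (f : C(unitInterval, ℂ)) (C : ℝ)
    (hC : 0 < C)
    (h : ∀ (P : Finset ℕ) (a : ℕ → ℂ) (A : ℝ), (∀ p ∈ P, p = 0 ∨ p ∈ S) → 0 ∈ P →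
      (∀ t : unitInterval, ‖∑ p ∈ P, a p * f t ^ p‖ ≤ A) → ‖a 0‖ ≤ C * A) :
    (Submodule.span ℂ (Set.range (fun p : S => f ^ (p : ℕ)))).topologicalClosure ≠ ⊤ := by
  classical
  intro htop
  have h1 : (1 : C(unitInterval, ℂ)) ∈
      (Submodule.span ℂ (Set.range (fun p : S => f ^ (p : ℕ)))).topologicalClosure := by
    rw [htop]; trivial
  rw [← SetLike.mem_coe, Submodule.topologicalClosure_coe, Metric.mem_closure_iff] at h1
  obtain ⟨g, hg, hdist⟩ := h1 (1 / (2 * C)) (by positivity)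
  rw [SetLike.mem_coe, Finsupp.mem_span_range_iff_exists_finsupp] at hg
  obtain ⟨b, hb⟩ := hg
  set Q : Finset ℕ := b.support.image (fun p : S => (p : ℕ)) with hQ
  set a : ℕ → ℂ := fun p => if p = 0 then 1 else if hp : p ∈ S then - b ⟨p, hp⟩ else 0 with ha
  have h0Q : 0 ∉ Q := by
    intro h0
    rw [hQ, Finset.mem_image] at h0
    obtain ⟨p, _, hp⟩ := h0
    have := hS p p.2
    omega
  have hgt : ∀ t : unitInterval, ∑ p ∈ Q, a p * f t ^ p = - g t := by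
    intro t
    rw [hQ, Finset.sum_image (fun x _ y _ h => Subtype.ext h)]
    rw [← hb, Finsupp.sum, ContinuousMap.sum_apply, ← Finset.sum_neg_distrib]
    refine Finset.sum_congr rfl fun p _ => ?_
    have hp0 : (p : ℕ) ≠ 0 := (hS p p.2).ne'
    simp only [ha, hp0, if_false, p.2, dif_pos, ContinuousMap.smul_apply, ContinuousMap.pow_apply,
      smul_eq_mul]
    ring
  have h2 := h (insert 0 Q) a (1 / (2 * C))
    (by
      intro p hp
      rw [Finset.mem_insert] at hp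
      rcases hp with hp | hp
      · exact Or.inl hp
      · rw [hQ, Finset.mem_image] at hp
        obtain ⟨q, _, rfl⟩ := hp
        exact Or.inr q.2)
    (Finset.mem_insert_self _ _)
    (by
      intro t
      rw [Finset.sum_insert h0Q, hgt t]
      have h3 : a 0 * f t ^ 0 + -g t = (1 - g) t := by
        simp [ha, sub_eq_add_neg]
      rw [h3]
      have h4 := ContinuousMap.norm_coe_le_norm ((1 : C(unitInterval, ℂ)) - g) t
      rw [dist_eq_norm] at hdist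
      exact h4.trans hdist.le)
  have h5 : a 0 = 1 := by simp [ha]
  rw [h5, norm_one] at h2
  have h6 : C * (1 / (2 * C)) = 1 / 2 := by field_simp
  rw [h6] at h2
  norm_num at h2

/-- The core estimate along a logarithmic path, given a uniform telescoping property. -/
theorem path_core (S : Set ℕ) (γ : ℝ → ℂ) (t₀ t₁ : ℝ) (h01 : t₀ < t₁) (hγ : Continuous γ)
    (hre : (γ t₀).re < (γ t₁).re)
    (hinj : Set.InjOn (fun t => Complex.exp (γ t)) (Set.Icc t₀ t₁)) (c₀ : ℝ) (hc₀ : 0 < c₀)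
    (htel : ∀ (P : Finset ℕ) (a : ℕ → ℂ) (A : ℝ), (∀ p ∈ P, p = 0 ∨ p ∈ S) → 0 ≤ A →
      (∀ t ∈ Set.Icc t₀ t₁, ‖∑ p ∈ P, a p * Complex.exp ((p : ℂ) * γ t)‖ ≤ A) →
      ∃ τ', t₀ < τ' ∧ τ' ≤ t₁ ∧ ((γ t₀).re + (γ t₁).re) / 2 ≤ (γ τ').re ∧
        ∀ t ∈ Set.Icc t₀ τ',
          ‖∑ p ∈ P.filter (fun p : ℕ => (p : ℝ) < c₀), a p * Complex.exp ((p : ℂ) * γ t)‖ ≤
            3 * A) :
    ∃ C : ℝ, 0 < C ∧ ∀ (P : Finset ℕ) (a : ℕ → ℂ) (A : ℝ), (∀ p ∈ P, p = 0 ∨ p ∈ S) → 0 ∈ P →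
      (∀ t ∈ Set.Icc t₀ t₁, ‖∑ p ∈ P, a p * Complex.exp ((p : ℂ) * γ t)‖ ≤ A) →
      ‖a 0‖ ≤ C * A := by
  -- a short initial piece on which the real part stays small
  obtain ⟨ts, hts0, hts1, hts⟩ : ∃ ts, t₀ < ts ∧ ts ≤ t₁ ∧ ∀ t ∈ Set.Icc t₀ ts,
      (γ t).re < ((γ t₀).re + (γ t₁).re) / 2 := by
    have hcont : Continuous (fun t => (γ t).re) := Complex.continuous_re.comp hγ
    have hopen : IsOpen {t : ℝ | (γ t).re < ((γ t₀).re + (γ t₁).re) / 2} :=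
      isOpen_lt hcont continuous_const
    have hmem : t₀ ∈ {t : ℝ | (γ t).re < ((γ t₀).re + (γ t₁).re) / 2} := by
      simp only [Set.mem_ofPred_eq]; linarith
    obtain ⟨ε, hε, hball⟩ := Metric.isOpen_iff.mp hopen t₀ hmem
    refine ⟨min (t₀ + ε / 2) t₁, lt_min (by linarith) h01, min_le_right _ _, ?_⟩
    intro t ht
    apply hball
    rw [Metric.mem_ball, Real.dist_eq, abs_lt]
    have := ht.2.trans (min_le_left _ _)
    constructor <;> linarith [ht.1]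
  have hW : ((fun t => Complex.exp (γ t)) '' Set.Icc t₀ ts).Infinite := by
    refine Set.Infinite.image ?_ (Set.Icc_infinite hts0)
    exact hinj.mono (Set.Icc_subset_Icc_right hts1)
  obtain ⟨d, hd⟩ := exists_nat_ge c₀
  obtain ⟨C, hC, hCC⟩ := mz_const d _ hW
  refine ⟨C * 3, by positivity, fun P a A hP h0 hbd => ?_⟩
  have hA : 0 ≤ A := (norm_nonneg _).trans (hbd t₀ ⟨le_rfl, h01.le⟩)
  obtain ⟨τ', h1, h2, h3, h4⟩ := htel P a A hP hA hbd
  have h5 : ts < τ' := by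
    by_contra h
    rw [not_lt] at h
    have := hts τ' ⟨h1.le, h⟩
    linarith
  have h6 := hCC (P.filter (fun p : ℕ => (p : ℝ) < c₀)) a (3 * A)
    (by
      intro p hp
      rw [Finset.mem_filter] at hp
      have : (p : ℝ) ≤ d := hp.2.le.trans hd
      exact_mod_cast this)
    (by
      rw [Finset.mem_filter]
      exact ⟨h0, by simpa using hc₀⟩)
    (by
      rintro _ ⟨t, ht, rfl⟩
      have h7 := h4 t ⟨ht.1, ht.2.trans h5.le⟩
      simp only [← Complex.exp_nat_mul]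
      exact h7)
  linarith

/-- Bounded variation version of the core estimate. -/
theorem path_B (S : Set ℕ) (hS : ∀ p ∈ S, 0 < p)
    (hsum : Summable (fun p : S => (1 : ℝ) / ((p : ℕ) : ℝ)))
    (γ : ℝ → ℂ) (t₀ t₁ : ℝ) (h01 : t₀ < t₁) (hγ : Continuous γ)
    (hre : (γ t₀).re < (γ t₁).re)
    (hinj : Set.InjOn (fun t => Complex.exp (γ t)) (Set.Icc t₀ t₁)) (V : ℝ → ℝ)
    (hV : ∀ s t, t₀ ≤ s → s ≤ t → t ≤ t₁ → |(γ t).im - (γ s).im| ≤ V t - V s) :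
    ∃ C : ℝ, 0 < C ∧ ∀ (P : Finset ℕ) (a : ℕ → ℂ) (A : ℝ), (∀ p ∈ P, p = 0 ∨ p ∈ S) → 0 ∈ P →
      (∀ t ∈ Set.Icc t₀ t₁, ‖∑ p ∈ P, a p * Complex.exp ((p : ℂ) * γ t)‖ ≤ A) →
      ‖a 0‖ ≤ C * A := by
  obtain ⟨c, hc, htel⟩ := mz_telB S
  set η := (γ t₁).re - (γ t₀).re with hη
  have hη0 : 0 < η := by linarith
  have hV0 : 0 ≤ V t₁ - V t₀ := (abs_nonneg _).trans (hV t₀ t₁ le_rfl h01.le le_rfl)
  set M := 1 + 8 * (V t₁ - V t₀) / η with hM
  have hM1 : 1 ≤ M := by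
    have : 0 ≤ 8 * (V t₁ - V t₀) / η := by positivity
    linarith
  have hM2 : 2 * (V t₁ - V t₀) / M ≤ η / 4 := by
    rw [div_le_iff₀ (by linarith), hM]
    have : η / 4 * (1 + 8 * (V t₁ - V t₀) / η) = η / 4 + 2 * (V t₁ - V t₀) := by
      field_simp
      ring
    linarith
  have hlogM : 0 ≤ Real.log M := Real.log_nonneg hM1
  obtain ⟨n₀, hn₀⟩ := tail_small (GG S) (GG_nonneg S) (GG_summable S hS hsum)
    (η / (8 * (1 + Real.log M))) (by positivity)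
  have hcpos : ∀ n, 0 < c n := fun n => lt_of_lt_of_le (by positivity) (hc n).1
  refine path_core S γ t₀ t₁ h01 hγ hre hinj (c n₀) (hcpos n₀) ?_
  intro P a A hP hA hbd
  obtain ⟨N, hN0, hN⟩ : ∃ N, n₀ ≤ N ∧ ∀ p ∈ P, (p : ℝ) < c N := by
    obtain ⟨k, hk⟩ := pow_unbounded_of_one_lt ((P.sup id : ℕ) : ℝ) (show (1 : ℝ) < 2 by norm_num)
    refine ⟨max n₀ k, le_max_left _ _, fun p hp => ?_⟩
    have h1 : p ≤ P.sup id := Finset.le_sup (f := id) hp
    calc (p : ℝ) ≤ ((P.sup id : ℕ) : ℝ) := by exact_mod_cast h1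
      _ < 2 ^ k := hk
      _ ≤ 2 ^ (max n₀ k) := pow_le_pow_right₀ (by norm_num) (le_max_right _ _)
      _ ≤ c (max n₀ k) := (hc _).1
  have h1 : (1 + Real.log M) * (∑ m ∈ Ico n₀ N, GG S m) + 2 * (V t₁ - V t₀) / M ≤ 3 * η / 8 := by
    have h2 := hn₀ n₀ le_rfl N
    have h3 : (1 + Real.log M) * (∑ m ∈ Ico n₀ N, GG S m) ≤
        (1 + Real.log M) * (η / (8 * (1 + Real.log M))) :=
      mul_le_mul_of_nonneg_left h2 (by linarith)
    have h4 : (1 + Real.log M) * (η / (8 * (1 + Real.log M))) = η / 8 := by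
      field_simp
    linarith
  obtain ⟨τ', h5, h6, h7, h8⟩ := htel n₀ N hN0 P a A γ t₀ t₁ V M hP hN hA h01.le
    hγ.continuousOn hM1 hV (by linarith) hbd
  exact ⟨τ', h5, h6, by linarith, h8⟩

/-- General version of the core estimate. -/
theorem path_A (S : Set ℕ) (hS : ∀ p ∈ S, 0 < p)
    (hsum : Summable (fun p : S => Real.log (2 + Real.log ((p : ℕ) : ℝ)) / ((p : ℕ) : ℝ)))
    (γ : ℝ → ℂ) (t₀ t₁ : ℝ) (h01 : t₀ < t₁) (hγ : Continuous γ)
    (hre : (γ t₀).re < (γ t₁).re)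
    (hinj : Set.InjOn (fun t => Complex.exp (γ t)) (Set.Icc t₀ t₁)) :
    ∃ C : ℝ, 0 < C ∧ ∀ (P : Finset ℕ) (a : ℕ → ℂ) (A : ℝ), (∀ p ∈ P, p = 0 ∨ p ∈ S) → 0 ∈ P →
      (∀ t ∈ Set.Icc t₀ t₁, ‖∑ p ∈ P, a p * Complex.exp ((p : ℂ) * γ t)‖ ≤ A) →
      ‖a 0‖ ≤ C * A := by
  obtain ⟨c, hc, htel⟩ := mz_telA S
  set η := (γ t₁).re - (γ t₀).re with hη
  have hη0 : 0 < η := by linarith
  obtain ⟨n₀, hn₀⟩ := tail_small (HH S) (HH_nonneg S) (HH_summable S hS hsum)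
    (η / 2) (by positivity)
  have hcpos : ∀ n, 0 < c n := fun n => lt_of_lt_of_le (by positivity) (hc n).1
  refine path_core S γ t₀ t₁ h01 hγ hre hinj (c n₀) (hcpos n₀) ?_
  intro P a A hP hA hbd
  obtain ⟨N, hN0, hN⟩ : ∃ N, n₀ ≤ N ∧ ∀ p ∈ P, (p : ℝ) < c N := by
    obtain ⟨k, hk⟩ := pow_unbounded_of_one_lt ((P.sup id : ℕ) : ℝ) (show (1 : ℝ) < 2 by norm_num)
    refine ⟨max n₀ k, le_max_left _ _, fun p hp => ?_⟩
    have h1 : p ≤ P.sup id := Finset.le_sup (f := id) hp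
    calc (p : ℝ) ≤ ((P.sup id : ℕ) : ℝ) := by exact_mod_cast h1
      _ < 2 ^ k := hk
      _ ≤ 2 ^ (max n₀ k) := pow_le_pow_right₀ (by norm_num) (le_max_right _ _)
      _ ≤ c (max n₀ k) := (hc _).1
  have h2 := hn₀ n₀ le_rfl N
  obtain ⟨τ', h5, h6, h7, h8⟩ := htel n₀ N hN0 P a A γ t₀ t₁ hP hN hA h01.le
    hγ.continuousOn (by linarith) hbd
  exact ⟨τ', h5, h6, by linarith, h8⟩

/-- Reduction from arcs to logarithmic paths and circular arcs. -/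
theorem arc_core (S : Set ℕ) (hS : ∀ p ∈ S, 0 < p)
    (hsum : Summable (fun p : S => (1 : ℝ) / ((p : ℕ) : ℝ)))
    (f : C(unitInterval, ℂ)) (hf : Function.Injective f) (a b : unitInterval) (hab : a < b)
    (hcore : ∀ (γ : ℝ → ℂ) (t₀ t₁ : ℝ), t₀ < t₁ → Continuous γ → (γ t₀).re < (γ t₁).re →
      Set.InjOn (fun t => Complex.exp (γ t)) (Set.Icc t₀ t₁) →
      ((∃ V : ℝ → ℝ, (∀ s t : ℝ, a ≤ s → s ≤ t → t ≤ b →
            ‖f (Set.projIcc 0 1 zero_le_one t) - f (Set.projIcc 0 1 zero_le_one s)‖ ≤ V t - V s) ∨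
          (∀ s t : ℝ, a ≤ s → s ≤ t → t ≤ b →
            ‖f (Set.projIcc 0 1 zero_le_one t) / ‖f (Set.projIcc 0 1 zero_le_one t)‖ -
              f (Set.projIcc 0 1 zero_le_one s) / ‖f (Set.projIcc 0 1 zero_le_one s)‖‖ ≤
              V t - V s)) →
        ∃ V' : ℝ → ℝ, ∀ s t, t₀ ≤ s → s ≤ t → t ≤ t₁ → |(γ t).im - (γ s).im| ≤ V' t - V' s) →
      ∃ C : ℝ, 0 < C ∧ ∀ (P : Finset ℕ) (a : ℕ → ℂ) (A : ℝ), (∀ p ∈ P, p = 0 ∨ p ∈ S) → 0 ∈ P →
        (∀ t ∈ Set.Icc t₀ t₁, ‖∑ p ∈ P, a p * Complex.exp ((p : ℂ) * γ t)‖ ≤ A) →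
        ‖a 0‖ ≤ C * A) :
    (Submodule.span ℂ (Set.range (fun p : S => f ^ (p : ℕ)))).topologicalClosure ≠ ⊤ := by
  have hF : Continuous (fun t : ℝ => f (Set.projIcc 0 1 zero_le_one t)) :=
    f.continuous.comp continuous_projIcc
  have hab' : (a : ℝ) < b := hab
  have hproj : ∀ t : ℝ, ∀ ht : t ∈ Set.Icc (a : ℝ) b,
      Set.projIcc 0 1 zero_le_one t = (⟨t, (a.2.1).trans ht.1, ht.2.trans b.2.2⟩ : unitInterval) :=
    fun t ht => Set.projIcc_of_mem zero_le_one ⟨(a.2.1).trans ht.1, ht.2.trans b.2.2⟩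
  have hinj : Set.InjOn (fun t : ℝ => f (Set.projIcc 0 1 zero_le_one t)) (Set.Icc (a : ℝ) b) := by
    intro s hs t ht hst
    have h1 := hf hst
    rw [hproj s hs, hproj t ht] at h1
    exact congrArg Subtype.val h1
  rcases mz_to_path mz_arg_var _ hF a b hab' hinj with ⟨r, x, y, hr, hxy, h⟩ |
    ⟨γ, t₀, t₁, h01, hγ, hre, hinj', himg, hV⟩
  · obtain ⟨C, hC, hCC⟩ := mz_circ_core mz_circle mz_const S hS hsum r x y hr hxy
    refine nonspan_of_bound S hS f C hC fun P c A hP h0 hbd => ?_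
    refine hCC P c A hP h0 fun θ hθ => ?_
    obtain ⟨t, _, ht⟩ := h θ hθ
    rw [← ht]
    exact hbd _
  · obtain ⟨C, hC, hCC⟩ := hcore γ t₀ t₁ h01 hγ hre hinj' hV
    refine nonspan_of_bound S hS f C hC fun P c A hP h0 hbd => ?_
    refine hCC P c A hP h0 fun t ht => ?_
    obtain ⟨s, _, hs⟩ := himg t ht
    simp only [Complex.exp_nat_mul]
    rw [← hs]
    exact hbd _

theorem arc_A (S : Set ℕ) (hS : ∀ p ∈ S, 0 < p)
    (hsum : Summable (fun p : S => Real.log (2 + Real.log ((p : ℕ) : ℝ)) / ((p : ℕ) : ℝ)))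
    (f : C(unitInterval, ℂ)) (hf : Function.Injective f) :
    (Submodule.span ℂ (Set.range (fun p : S => f ^ (p : ℕ)))).topologicalClosure ≠ ⊤ := by
  refine arc_core S hS (summable_of_loglog S hS hsum) f hf 0 1 zero_lt_one ?_
  intro γ t₀ t₁ h01 hγ hre hinj _
  exact path_A S hS hsum γ t₀ t₁ h01 hγ hre hinj

theorem var_fun_I (g : unitInterval → ℂ) (a b : unitInterval)
    (h : BoundedVariationOn g (Set.Icc a b)) :
    ∃ V : ℝ → ℝ, ∀ s t : ℝ, a ≤ s → s ≤ t → t ≤ b →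
      ‖g (Set.projIcc 0 1 zero_le_one t) - g (Set.projIcc 0 1 zero_le_one s)‖ ≤ V t - V s := by
  have h1 : eVariationOn (fun t : ℝ => g (Set.projIcc 0 1 zero_le_one t)) (Set.Icc (a : ℝ) b) ≤
      eVariationOn g (Set.Icc a b) := by
    refine eVariationOn.comp_le_of_monotoneOn g _ (t := Set.Icc (a : ℝ) b) (s := Set.Icc a b)
      ((Set.monotone_projIcc zero_le_one).monotoneOn _) ?_
    intro t ht
    rw [Set.projIcc_of_mem zero_le_one ⟨(a.2.1).trans ht.1, ht.2.trans b.2.2⟩]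
    exact ht
  have h2 := ne_top_of_le_ne_top h h1
  exact ⟨_, fun s t hs hst ht => var_fun _ (a : ℝ) b h2 s t hs hst ht⟩

theorem arc_B (S : Set ℕ) (hS : ∀ p ∈ S, 0 < p)
    (hsum : Summable (fun p : S => (1 : ℝ) / ((p : ℕ) : ℝ)))
    (f : C(unitInterval, ℂ)) (hf : Function.Injective f)
    (hvar : ∃ a b : unitInterval, a < b ∧ (BoundedVariationOn f (Set.Icc a b) ∨
      BoundedVariationOn (fun t => f t / ‖f t‖) (Set.Icc a b))) :
    (Submodule.span ℂ (Set.range (fun p : S => f ^ (p : ℕ)))).topologicalClosure ≠ ⊤ := by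
  obtain ⟨a, b, hab, hbv⟩ := hvar
  refine arc_core S hS hsum f hf a b hab ?_
  intro γ t₀ t₁ h01 hγ hre hinj hV
  obtain ⟨V', hV'⟩ := hV (by
    rcases hbv with h | h
    · obtain ⟨V, hV⟩ := var_fun_I f a b h
      exact ⟨V, Or.inl hV⟩
    · obtain ⟨V, hV⟩ := var_fun_I (fun t => f t / ‖f t‖) a b h
      exact ⟨V, Or.inr hV⟩)
  exact path_B S hS hsum γ t₀ t₁ h01 hγ hre hinj V' hV'

end Pool.Agent.Helper107.MZ
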