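import Mathlib

set_option autoImplicit false
open MeasureTheory Filter Topology Metric

namespace Pool.Agent.Helper107.RoughKernel

/-! Counterexample in the plane. The kernels are `h (x 1 / x 0) / (x 0 * |x 0|)` with a slope
profile `h` that on the slopes between `2^-(m+1)` and `2^-m` is `4^-m` times a sum of `16^m`
cosines (or sines) with very lacunary frequencies. The profile is square integrable, but the test
functions `tf`, which oscillate at the frequency matching the distance to the origin on each of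
`16^m` far away shells, produce an oscillation of size `c 2^m` near the origin. -/

abbrev E2 := EuclideanSpace ℝ (Fin 2)

/-- the point with coordinates `a, b` -/
noncomputable def pt (a b : ℝ) : E2 := !₂[a, b]

@[simp] lemma pt_zero (a b : ℝ) : (pt a b) 0 = a := rfl
@[simp] lemma pt_one (a b : ℝ) : (pt a b) 1 = b := rfl

lemma pt_eta (x : E2) : pt (x 0) (x 1) = x := by
  ext i; fin_cases i <;> rfl

/-- measurable equivalence with `ℝ × ℝ` -/
noncomputable def eqv : E2 ≃ᵐ ℝ × ℝ :=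
  (MeasurableEquiv.toLp 2 (Fin 2 → ℝ)).symm.trans MeasurableEquiv.finTwoArrow

lemma eqv_apply (x : E2) : eqv x = (x 0, x 1) := rfl

lemma eqv_symm (p : ℝ × ℝ) : eqv.symm p = pt p.1 p.2 := by
  apply eqv.injective
  rw [MeasurableEquiv.apply_symm_apply, eqv_apply]
  rfl

lemma eqv_mp : MeasurePreserving eqv (volume : Measure E2) (volume : Measure (ℝ × ℝ)) := by
  unfold eqv
  exact (EuclideanSpace.volume_preserving_symm_measurableEquiv_toLp (Fin 2)).trans
    (volume_preserving_finTwoArrow ℝ)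

lemma lintegral_E2 (F : E2 → ENNReal) (hF : Measurable F) :
    ∫⁻ x, F x = ∫⁻ a : ℝ, ∫⁻ b : ℝ, F (pt a b) := by
  have h1 : ∫⁻ x, F x = ∫⁻ p : ℝ × ℝ, F (eqv.symm p) := by
    have := eqv_mp.lintegral_comp_emb eqv.measurableEmbedding (fun p => F (eqv.symm p))
    rw [← this]
    simp
  rw [h1]
  have h2 : (volume : Measure (ℝ × ℝ)) = (volume : Measure ℝ).prod volume := rfl
  rw [h2, lintegral_prod]
  · simp only [eqv_symm]
  · exact (hF.comp eqv.symm.measurable).aemeasurable

lemma lint_slope (ω G : ℝ → ENNReal) (hω : Measurable ω) (hG : Measurable G) :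
    ∫⁻ x : E2, ω (x 0) * G (x 1 / x 0) = (∫⁻ s, ω s * ENNReal.ofReal |s|) * ∫⁻ v, G v := by
  have hm0 : Measurable (fun x : E2 => x 0) := by fun_prop
  have hm1 : Measurable (fun x : E2 => x 1) := by fun_prop
  rw [lintegral_E2]
  · simp only [pt_zero, pt_one]
    rw [← lintegral_mul_const]
    · apply lintegral_congr_ae
      have h0 : ∀ᵐ s : ℝ, s ≠ 0 := by
        simp [ae_iff, measure_singleton]
      filter_upwards [h0] with s hs
      rw [lintegral_const_mul]
      · have h1 : ∫⁻ b : ℝ, G (b / s) = ENNReal.ofReal |s| * ∫⁻ v, G v := by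
          have h2 : ∫⁻ b : ℝ, G (b / s) = ∫⁻ b : ℝ, G b ∂(Measure.map (fun b => s⁻¹ * b) volume) := by
            rw [lintegral_map hG (by fun_prop)]
            simp only [div_eq_inv_mul]
          rw [h2, Real.map_volume_mul_left (inv_ne_zero hs), lintegral_smul_measure]
          simp
        rw [h1, mul_assoc]
      · exact hG.comp (by fun_prop)
    · fun_prop
  · exact (hω.comp hm0).mul (hG.comp (hm1.div hm0))


/-- the homogeneous odd kernel with slope profile `h` -/
noncomputable def ker (h : ℝ → ℝ) (x : E2) : ℝ := h (x 1 / x 0) / (x 0 * |x 0|)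

lemma measurable_ker {h : ℝ → ℝ} (hh : Measurable h) : Measurable (ker h) := by
  have hm0 : Measurable (fun x : E2 => x 0) := by fun_prop
  have hm1 : Measurable (fun x : E2 => x 1) := by fun_prop
  unfold ker
  exact (hh.comp (hm1.div hm0)).div (hm0.mul (by fun_prop))

lemma ker_neg (h : ℝ → ℝ) (x : E2) : ker h (-x) = - ker h x := by
  unfold ker
  have e0 : (-x) 0 = - x 0 := rfl
  have e1 : (-x) 1 = - x 1 := rfl
  rw [e0, e1, neg_div_neg_eq, abs_neg, neg_mul, div_neg]

lemma ker_smul (h : ℝ → ℝ) (x : E2) (t : ℝ) (ht : 0 < t) :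
    ker h (t • x) = t ^ (-((2:ℕ) : ℤ)) * ker h x := by
  unfold ker
  have e0 : (t • x) 0 = t * x 0 := rfl
  have e1 : (t • x) 1 = t * x 1 := rfl
  rw [e0, e1, mul_div_mul_left _ _ ht.ne', abs_mul, abs_of_pos ht]
  rw [zpow_neg, zpow_natCast]
  by_cases hx : x 0 = 0
  · simp [hx]
  · have : |x 0| ≠ 0 := abs_ne_zero.2 hx
    field_simp

/-- profile supported on slopes in `(0,1]` -/
def Supp01 (h : ℝ → ℝ) : Prop := ∀ v, ¬ (0 < v ∧ v ≤ 1) → h v = 0

lemma norm_sq_E2 (x : E2) : ‖x‖ ^ 2 = x 0 ^ 2 + x 1 ^ 2 := by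
  rw [EuclideanSpace.norm_sq_eq, Fin.sum_univ_two]
  simp

lemma abs_zero_le (x : E2) : |x 0| ≤ ‖x‖ := by
  have h := norm_sq_E2 x
  exact abs_le_of_sq_le_sq (by nlinarith [sq_nonneg (x 1)]) (norm_nonneg x)

lemma ker_support {h : ℝ → ℝ} (hs : Supp01 h) (x : E2) (hx : ker h x ≠ 0) :
    ‖x‖ ≤ 2 * |x 0| ∧ x 0 ≠ 0 := by
  unfold ker at hx
  have h0 : x 0 ≠ 0 := by
    intro h0; apply hx; rw [h0]; simp
  have h1 : 0 < x 1 / x 0 ∧ x 1 / x 0 ≤ 1 := by
    by_contra hc
    apply hx
    rw [hs _ hc]; simp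
  refine ⟨?_, h0⟩
  have h2 : |x 1| ≤ |x 0| := by
    have h3 : |x 1 / x 0| ≤ 1 := by rw [abs_of_pos h1.1]; exact h1.2
    rw [abs_div, div_le_one (abs_pos.2 h0)] at h3
    exact h3
  have h4 := norm_sq_E2 x
  have h5 : x 1 ^ 2 ≤ x 0 ^ 2 := sq_le_sq.2 h2
  refine le_of_sq_le_sq ?_ (by positivity)
  rw [mul_pow, sq_abs]
  nlinarith

/-- the annulus integrability of powers of the kernel -/
lemma ker_lint {h : ℝ → ℝ} (hh : Measurable h) (hs : Supp01 h) (p : ℕ) (hp : p ≠ 0)
    (hfin : ∫⁻ v, ‖h v‖ₑ ^ p < ⊤) (r R : ℝ) (hr : 0 < r) :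
    ∫⁻ x in {x : E2 | r ≤ ‖x‖ ∧ ‖x‖ ≤ R}, ‖ker h x‖ₑ ^ p < ⊤ := by
  set ω : ℝ → ENNReal := fun s =>
    (Set.indicator (Set.Icc (-R) R) (fun _ => ENNReal.ofReal ((2 / r) ^ 2) ^ p)) s with hω
  have hωm : Measurable ω := measurable_const.indicator measurableSet_Icc
  have hset : MeasurableSet {x : E2 | r ≤ ‖x‖ ∧ ‖x‖ ≤ R} := by
    apply MeasurableSet.inter
    · exact measurableSet_le measurable_const measurable_norm
    · exact measurableSet_le measurable_norm measurable_const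
  have h1 : ∫⁻ x in {x : E2 | r ≤ ‖x‖ ∧ ‖x‖ ≤ R}, ‖ker h x‖ₑ ^ p ≤
      ∫⁻ x : E2, ω (x 0) * ‖h (x 1 / x 0)‖ₑ ^ p := by
    rw [← lintegral_indicator hset]
    refine lintegral_mono (fun x => ?_)
    by_cases hx : x ∈ {x : E2 | r ≤ ‖x‖ ∧ ‖x‖ ≤ R}
    · rw [Set.indicator_of_mem hx]
      by_cases hk : ker h x = 0
      · rw [hk]; simp [hp]
      · obtain ⟨h2, h3⟩ := ker_support hs x hk
        have hx1 : r ≤ ‖x‖ := hx.1
        have hx2 : ‖x‖ ≤ R := hx.2
        have h4 : |x 0| ≤ R := (abs_zero_le x).trans hx2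
        have h5 : ω (x 0) = ENNReal.ofReal ((2 / r) ^ 2) ^ p := by
          rw [hω]
          simp only
          rw [Set.indicator_of_mem]
          exact abs_le.1 h4
        rw [h5, ← mul_pow]
        refine pow_le_pow_left' ?_ p
        have h6 : 0 < |x 0| := abs_pos.2 h3
        rw [← ofReal_norm, ← ofReal_norm, ← ENNReal.ofReal_mul (by positivity)]
        refine ENNReal.ofReal_le_ofReal ?_
        unfold ker
        rw [norm_div, norm_mul, Real.norm_eq_abs (x 0), Real.norm_eq_abs |x 0|, abs_abs]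
        have h7 : r / 2 ≤ |x 0| := by linarith
        have h8 : (|x 0| * |x 0|)⁻¹ ≤ ((r / 2) * (r / 2))⁻¹ := by
          refine inv_anti₀ (by positivity) ?_
          exact mul_le_mul h7 h7 (by positivity) (abs_nonneg _)
        rw [div_eq_mul_inv, mul_comm]
        refine mul_le_mul_of_nonneg_right (h8.trans (le_of_eq ?_)) (norm_nonneg _)
        field_simp
    · rw [Set.indicator_of_notMem hx]
      exact zero_le
  refine lt_of_le_of_lt h1 ?_
  rw [lint_slope ω (fun v => ‖h v‖ₑ ^ p) hωm (by fun_prop)]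
  refine ENNReal.mul_lt_top ?_ hfin
  have h2 : ∫⁻ s, ω s * ENNReal.ofReal |s| ≤
      ∫⁻ s in Set.Icc (-R) R, ENNReal.ofReal ((2 / r) ^ 2) ^ p * ENNReal.ofReal R := by
    rw [← lintegral_indicator measurableSet_Icc]
    refine lintegral_mono (fun s => ?_)
    by_cases hs : s ∈ Set.Icc (-R) R
    · rw [Set.indicator_of_mem hs, hω]
      simp only
      rw [Set.indicator_of_mem hs]
      refine mul_le_mul_right ?_ _
      exact ENNReal.ofReal_le_ofReal (abs_le.2 hs)
    · rw [hω]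
      simp only
      rw [Set.indicator_of_notMem hs]
      simp
  refine lt_of_le_of_lt h2 ?_
  rw [setLIntegral_const]
  refine ENNReal.mul_lt_top ?_ ?_
  · exact ENNReal.mul_lt_top (ENNReal.pow_lt_top ENNReal.ofReal_lt_top) ENNReal.ofReal_lt_top
  · rw [Real.volume_Icc]; exact ENNReal.ofReal_lt_top

/-- local integrability of `|k(y)| |y|` -/
lemma ker_lint_norm {h : ℝ → ℝ} (hh : Measurable h) (hs : Supp01 h)
    (hfin : ∫⁻ v, ‖h v‖ₑ < ⊤) (R : ℝ) :
    ∫⁻ x in {x : E2 | ‖x‖ ≤ R}, ‖ker h x‖ₑ * ‖x‖ₑ < ⊤ := by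
  set ω : ℝ → ENNReal := fun s =>
    (Set.indicator (Set.Icc (-R) R) (fun s => ENNReal.ofReal (2 / |s|))) s with hω
  have hωm : Measurable ω := Measurable.indicator (by fun_prop) measurableSet_Icc
  have hset : MeasurableSet {x : E2 | ‖x‖ ≤ R} :=
    measurableSet_le measurable_norm measurable_const
  have h1 : ∫⁻ x in {x : E2 | ‖x‖ ≤ R}, ‖ker h x‖ₑ * ‖x‖ₑ ≤
      ∫⁻ x : E2, ω (x 0) * ‖h (x 1 / x 0)‖ₑ := by
    rw [← lintegral_indicator hset]
    refine lintegral_mono (fun x => ?_)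
    by_cases hx : x ∈ {x : E2 | ‖x‖ ≤ R}
    · rw [Set.indicator_of_mem hx]
      by_cases hk : ker h x = 0
      · rw [hk]; simp
      · obtain ⟨h2, h3⟩ := ker_support hs x hk
        have hx2 : ‖x‖ ≤ R := hx
        have h4 : |x 0| ≤ R := (abs_zero_le x).trans hx2
        have h5 : ω (x 0) = ENNReal.ofReal (2 / |x 0|) := by
          rw [hω]
          simp only
          rw [Set.indicator_of_mem]
          exact abs_le.1 h4
        rw [h5]
        rw [← ofReal_norm, ← ofReal_norm, ← ofReal_norm,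
          ← ENNReal.ofReal_mul (norm_nonneg _), ← ENNReal.ofReal_mul (by positivity)]
        refine ENNReal.ofReal_le_ofReal ?_
        unfold ker
        have h6 : 0 < |x 0| := abs_pos.2 h3
        rw [norm_div, norm_mul, Real.norm_eq_abs (x 0), Real.norm_eq_abs |x 0|, abs_abs]
        rw [div_mul_eq_mul_div, div_le_iff₀ (by positivity)]
        calc ‖h (x 1 / x 0)‖ * ‖x‖ ≤ ‖h (x 1 / x 0)‖ * (2 * |x 0|) :=
              mul_le_mul_of_nonneg_left h2 (norm_nonneg _)
          _ = 2 / |x 0| * ‖h (x 1 / x 0)‖ * (|x 0| * |x 0|) := by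
              field_simp
    · rw [Set.indicator_of_notMem hx]
      exact zero_le
  refine lt_of_le_of_lt h1 ?_
  rw [lint_slope ω (fun v => ‖h v‖ₑ) hωm (by fun_prop)]
  refine ENNReal.mul_lt_top ?_ hfin
  have h2 : ∫⁻ s, ω s * ENNReal.ofReal |s| ≤
      ∫⁻ s in Set.Icc (-R) R, 2 := by
    rw [← lintegral_indicator measurableSet_Icc]
    refine lintegral_mono (fun s => ?_)
    by_cases hs : s ∈ Set.Icc (-R) R
    · rw [Set.indicator_of_mem hs, hω]
      simp only
      rw [Set.indicator_of_mem hs, ← ENNReal.ofReal_mul (by positivity)]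
      by_cases h0 : s = 0
      · simp [h0]
      · rw [div_mul_cancel₀ _ (abs_ne_zero.2 h0)]
        simp
    · rw [hω]
      simp only
      rw [Set.indicator_of_notMem hs]
      simp
  refine lt_of_le_of_lt h2 ?_
  rw [setLIntegral_const]
  refine ENNReal.mul_lt_top (by simp) ?_
  rw [Real.volume_Icc]; exact ENNReal.ofReal_lt_top


lemma ker_integrableOn_annulus {h : ℝ → ℝ} (hh : Measurable h) (hs : Supp01 h)
    (hfin : ∫⁻ v, ‖h v‖ₑ < ⊤) (r R : ℝ) (hr : 0 < r) :
    IntegrableOn (ker h) {x : E2 | r ≤ ‖x‖ ∧ ‖x‖ ≤ R} := by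
  refine ⟨(measurable_ker hh).aestronglyMeasurable, ?_⟩
  have := ker_lint hh hs 1 one_ne_zero (by simpa using hfin) r R hr
  simpa [HasFiniteIntegral] using this

lemma setIntegral_reflect (F : E2 → ℝ) (ε : ℝ) :
    ∫ y in {y : E2 | ε < ‖y‖}, F y = ∫ y in {y : E2 | ε < ‖y‖}, F (-y) := by
  have hm : MeasurableSet {y : E2 | ε < ‖y‖} := measurableSet_lt measurable_const measurable_norm
  rw [← integral_indicator hm, ← integral_indicator hm]
  rw [← integral_neg_eq_self (fun y => Set.indicator {y : E2 | ε < ‖y‖} F y)]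
  refine integral_congr_ae (Eventually.of_forall (fun y => ?_))
  by_cases hy : ε < ‖y‖
  · have h1 : y ∈ {y : E2 | ε < ‖y‖} := hy
    have h2 : -y ∈ {y : E2 | ε < ‖y‖} := by
      show ε < ‖-y‖
      rwa [norm_neg]
    simp only
    rw [Set.indicator_of_mem h1, Set.indicator_of_mem h2]
  · have h1 : y ∉ {y : E2 | ε < ‖y‖} := hy
    have h2 : -y ∉ {y : E2 | ε < ‖y‖} := by
      show ¬ (ε < ‖-y‖)
      rwa [norm_neg]
    simp only
    rw [Set.indicator_of_notMem h1, Set.indicator_of_notMem h2]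

lemma pv_exists {h : ℝ → ℝ} (hh : Measurable h) (hs : Supp01 h) (hfin : ∫⁻ v, ‖h v‖ₑ < ⊤)
    (f : E2 → ℝ) (K : NNReal) (hLip : LipschitzWith K f) (hc : HasCompactSupport f) (x : E2) :
    ∃ L : ℝ, Tendsto (fun ε : ℝ => ∫ y in {y : E2 | ε < ‖y‖}, ker h y * f (x - y))
      (𝓝[>] 0) (𝓝 L) := by
  obtain ⟨M, hM⟩ := hc.exists_bound_of_continuous hLip.continuous
  obtain ⟨R₀, hR₀⟩ := hc.isCompact.isBounded.subset_closedBall 0
  have hf0 : ∀ z : E2, R₀ < ‖z‖ → f z = 0 := by
    intro z hz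
    by_contra h0
    have := hR₀ (subset_tsupport f h0)
    rw [mem_closedBall_zero_iff] at this
    linarith
  set R := ‖x‖ + R₀ with hR
  have hm0 : f (x - 0) = f (x + 0) := by simp
  have hfminus : ∀ y : E2, R < ‖y‖ → f (x - y) = 0 := by
    intro y hy
    apply hf0
    have : ‖y‖ ≤ ‖x‖ + ‖x - y‖ := by
      calc ‖y‖ = ‖x - (x - y)‖ := by congr 1; abel
        _ ≤ ‖x‖ + ‖x - y‖ := norm_sub_le _ _
    linarith
  have hfplus : ∀ y : E2, R < ‖y‖ → f (x + y) = 0 := by
    intro y hy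
    have := hfminus (-y) (by rwa [norm_neg])
    rwa [sub_neg_eq_add] at this
  have hkm := measurable_ker hh
  have hfm : Measurable f := hLip.continuous.measurable
  set J : E2 → ℝ := fun y => ker h y * (f (x - y) - f (x + y)) with hJ
  have hJm : Measurable J := by
    have h1 : Measurable (fun y : E2 => f (x - y)) := hfm.comp (by fun_prop)
    have h2 : Measurable (fun y : E2 => f (x + y)) := hfm.comp (by fun_prop)
    exact hkm.mul (h1.sub h2)
  have hsetR : MeasurableSet {x : E2 | ‖x‖ ≤ R} :=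
    measurableSet_le measurable_norm measurable_const
  have hJint : Integrable J := by
    refine ⟨hJm.aestronglyMeasurable, ?_⟩
    have h1 : ∫⁻ y, ‖J y‖ₑ ≤ ∫⁻ y in {x : E2 | ‖x‖ ≤ R},
        ENNReal.ofReal (2 * K) * (‖ker h y‖ₑ * ‖y‖ₑ) := by
      rw [← lintegral_indicator hsetR]
      refine lintegral_mono (fun y => ?_)
      by_cases hy : ‖y‖ ≤ R
      · have hy' : y ∈ {x : E2 | ‖x‖ ≤ R} := hy
        rw [Set.indicator_of_mem hy']
        rw [← ofReal_norm, ← ofReal_norm, ← ofReal_norm,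
          ← ENNReal.ofReal_mul (norm_nonneg _), ← ENNReal.ofReal_mul (by positivity)]
        refine ENNReal.ofReal_le_ofReal ?_
        rw [hJ]
        simp only
        rw [norm_mul]
        have h2 : ‖f (x - y) - f (x + y)‖ ≤ K * (2 * ‖y‖) := by
          have := hLip.dist_le_mul (x - y) (x + y)
          rw [dist_eq_norm, dist_eq_norm] at this
          refine this.trans (mul_le_mul_of_nonneg_left ?_ K.coe_nonneg)
          have e : x - y - (x + y) = (-2 : ℝ) • y := by
            rw [neg_smul, two_smul]; abel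
          rw [e, norm_smul]
          norm_num
        calc ‖ker h y‖ * ‖f (x - y) - f (x + y)‖ ≤ ‖ker h y‖ * (K * (2 * ‖y‖)) :=
              mul_le_mul_of_nonneg_left h2 (norm_nonneg _)
          _ = 2 * K * (‖ker h y‖ * ‖y‖) := by ring
      · have hy' : y ∉ {x : E2 | ‖x‖ ≤ R} := hy
        rw [Set.indicator_of_notMem hy']
        have : J y = 0 := by
          rw [hJ]; simp only
          rw [hfminus y (not_le.1 hy), hfplus y (not_le.1 hy)]; simp
        rw [this]; simp
    refine lt_of_le_of_lt h1 ?_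
    rw [lintegral_const_mul _ (by fun_prop)]
    exact ENNReal.mul_lt_top ENNReal.ofReal_lt_top (ker_lint_norm hh hs hfin R)
  -- the truncated integrals
  have hI : ∀ ε : ℝ, 0 < ε → ∫ y in {y : E2 | ε < ‖y‖}, ker h y * f (x - y) =
      (1 / 2) * ∫ y in {y : E2 | ε < ‖y‖}, J y := by
    intro ε hε
    have hm : MeasurableSet {y : E2 | ε < ‖y‖} :=
      measurableSet_lt measurable_const measurable_norm
    have hint : ∀ φ : E2 → ℝ, Measurable φ → (∀ y, ‖φ y‖ ≤ M) → (∀ y, R < ‖y‖ → φ y = 0) →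
        IntegrableOn (fun y => ker h y * φ y) {y : E2 | ε < ‖y‖} := by
      intro φ hφm hφb hφ0
      have h1 := ker_integrableOn_annulus hh hs hfin ε R hε
      have h2 : IntegrableOn (fun y => ker h y * φ y) {x : E2 | ε ≤ ‖x‖ ∧ ‖x‖ ≤ R} := by
        refine Integrable.mul_bdd (c := M) h1 hφm.aestronglyMeasurable ?_
        exact Eventually.of_forall hφb
      have h3 : MeasurableSet {x : E2 | ε ≤ ‖x‖ ∧ ‖x‖ ≤ R} :=
        (measurableSet_le measurable_const measurable_norm).inter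
          (measurableSet_le measurable_norm measurable_const)
      rw [← integrable_indicator_iff h3] at h2
      refine (h2.integrableOn (s := {y : E2 | ε < ‖y‖})).congr_fun ?_ hm
      intro y hy
      have hy' : ε < ‖y‖ := hy
      by_cases hyR : ‖y‖ ≤ R
      · have : y ∈ {x : E2 | ε ≤ ‖x‖ ∧ ‖x‖ ≤ R} := ⟨hy'.le, hyR⟩
        simp only
        rw [Set.indicator_of_mem this]
      · have : y ∉ {x : E2 | ε ≤ ‖x‖ ∧ ‖x‖ ≤ R} := fun h => hyR h.2
        simp only
        rw [Set.indicator_of_notMem this, hφ0 y (not_le.1 hyR), mul_zero]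
    have h1 := hint (fun y => f (x - y)) (hfm.comp (by fun_prop)) (fun y => hM _) hfminus
    have h2 := hint (fun y => f (x + y)) (hfm.comp (by fun_prop)) (fun y => hM _) hfplus
    have h3 : ∫ y in {y : E2 | ε < ‖y‖}, J y =
        (∫ y in {y : E2 | ε < ‖y‖}, ker h y * f (x - y)) -
        ∫ y in {y : E2 | ε < ‖y‖}, ker h y * f (x + y) := by
      rw [← integral_sub h1 h2]
      refine integral_congr_ae (Eventually.of_forall (fun y => ?_))
      simp only [hJ]; ring
    have h4 : ∫ y in {y : E2 | ε < ‖y‖}, ker h y * f (x + y) =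
        - ∫ y in {y : E2 | ε < ‖y‖}, ker h y * f (x - y) := by
      rw [setIntegral_reflect, ← integral_neg]
      refine integral_congr_ae (Eventually.of_forall (fun y => ?_))
      simp only [ker_neg, ← sub_eq_add_neg]; ring
    rw [h3, h4]; ring
  refine ⟨(1 / 2) * ∫ y, J y, ?_⟩
  have hlim : Tendsto (fun ε : ℝ => ∫ y in {y : E2 | ε < ‖y‖}, J y) (𝓝[>] 0) (𝓝 (∫ y, J y)) := by
    have h1 : ∀ ε : ℝ, ∫ y in {y : E2 | ε < ‖y‖}, J y =
        ∫ y, Set.indicator {y : E2 | ε < ‖y‖} J y := fun ε =>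
      (integral_indicator (measurableSet_lt measurable_const measurable_norm)).symm
    simp only [h1]
    refine tendsto_integral_filter_of_dominated_convergence (fun y => ‖J y‖) ?_ ?_ hJint.norm ?_
    · exact Eventually.of_forall (fun ε => (hJm.indicator
        (measurableSet_lt measurable_const measurable_norm)).aestronglyMeasurable)
    · refine Eventually.of_forall (fun ε => Eventually.of_forall (fun y => ?_))
      exact norm_indicator_le_norm_self _ _
    · refine Eventually.of_forall (fun y => ?_)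
      by_cases hy : y = 0
      · have : J y = 0 := by rw [hy, hJ]; simp
        have h2 : ∀ ε : ℝ, Set.indicator {y : E2 | ε < ‖y‖} J y = J y := by
          intro ε
          rw [this]
          by_cases h3 : y ∈ {y : E2 | ε < ‖y‖}
          · rw [Set.indicator_of_mem h3, this]
          · rw [Set.indicator_of_notMem h3]
        simp only [h2]
        exact tendsto_const_nhds
      · have hy' : 0 < ‖y‖ := norm_pos_iff.2 hy
        refine tendsto_const_nhds.congr' ?_
        have : ∀ᶠ ε : ℝ in 𝓝[>] 0, ε < ‖y‖ := by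
          refine nhdsWithin_le_nhds ?_
          exact gt_mem_nhds hy'
        filter_upwards [this] with ε hε
        have h3 : y ∈ {y : E2 | ε < ‖y‖} := hε
        rw [Set.indicator_of_mem h3]
  refine (hlim.const_mul (1 / 2)).congr' ?_
  filter_upwards [self_mem_nhdsWithin] with ε hε
  exact (hI ε hε).symm


lemma ker_mean_zero (h : ℝ → ℝ) (s : Set E2) (hs : MeasurableSet s) (hneg : ∀ x, x ∈ s ↔ -x ∈ s) :
    ∫ x in s, ker h x = 0 := by
  have h1 : ∫ x in s, ker h x = - ∫ x in s, ker h x := by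
    rw [← integral_indicator hs]
    conv_lhs => rw [← integral_neg_eq_self]
    rw [← integral_neg]
    refine integral_congr_ae (Eventually.of_forall (fun x => ?_))
    by_cases hx : x ∈ s
    · have hx' : -x ∈ s := (hneg x).1 hx
      simp only
      rw [Set.indicator_of_mem hx, Set.indicator_of_mem hx', ker_neg]
    · have hx' : -x ∉ s := fun h => hx ((hneg x).2 h)
      simp only
      rw [Set.indicator_of_notMem hx, Set.indicator_of_notMem hx', neg_zero]
  linarith

/-- dyadic level of a slope -/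
noncomputable def lev (v : ℝ) : ℕ := ⌊-Real.logb 2 v⌋₊

lemma lev_spec {v : ℝ} (h0 : 0 < v) (h1 : v ≤ 1) :
    (1 / 2 : ℝ) ^ (lev v + 1) < v ∧ v ≤ (1 / 2 : ℝ) ^ (lev v) := by
  set t := -Real.logb 2 v with ht
  have ht0 : 0 ≤ t := by
    rw [ht, neg_nonneg]
    exact Real.logb_nonpos (by norm_num) h0.le h1
  have hv : v = (1 / 2 : ℝ) ^ t := by
    rw [ht, one_div, Real.inv_rpow (by norm_num), ← Real.rpow_neg (by norm_num), neg_neg,
      Real.rpow_logb (by norm_num) (by norm_num) h0]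
  have hfl : ((lev v : ℕ) : ℝ) ≤ t := Nat.floor_le ht0
  have hfl2 : t < (lev v : ℕ) + 1 := Nat.lt_floor_add_one t
  constructor
  · rw [← Real.rpow_natCast]
    conv_rhs => rw [hv]
    apply Real.rpow_lt_rpow_of_exponent_gt (by norm_num) (by norm_num)
    push_cast
    exact hfl2
  · rw [← Real.rpow_natCast]
    conv_lhs => rw [hv]
    apply Real.rpow_le_rpow_of_exponent_ge (by norm_num) (by norm_num)
    exact hfl

lemma lev_eq {v : ℝ} {m : ℕ} (h1 : (1 / 2 : ℝ) ^ (m + 1) < v) (h2 : v ≤ (1 / 2 : ℝ) ^ m) :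
    lev v = m := by
  have h0 : 0 < v := lt_trans (by positivity) h1
  have h3 : v ≤ 1 := h2.trans (pow_le_one₀ (by norm_num) (by norm_num))
  obtain ⟨h4, h5⟩ := lev_spec h0 h3
  have h6 : (1 / 2 : ℝ) ^ (m + 1) < (1 / 2 : ℝ) ^ (lev v) := lt_of_lt_of_le h1 h5
  have h7 : (1 / 2 : ℝ) ^ (lev v + 1) < (1 / 2 : ℝ) ^ m := lt_of_lt_of_le h4 h2
  have h8 : lev v < m + 1 := by
    by_contra hc
    exact absurd (pow_le_pow_of_le_one (by norm_num) (by norm_num) (not_lt.1 hc))
      (not_le.2 h6)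
  have h9 : m < lev v + 1 := by
    by_contra hc
    exact absurd (pow_le_pow_of_le_one (by norm_num) (by norm_num) (not_lt.1 hc))
      (not_le.2 h7)
  omega

/-- frequencies -/
noncomputable def lam (m j : ℕ) : ℝ := 1024 ^ (m + 1 + j)

/-- lacunary sums; `τ` is the cosine or the sine -/
noncomputable def lac (τ : ℝ → ℝ) (m : ℕ) (v : ℝ) : ℝ :=
  ∑ j ∈ Finset.range (16 ^ m), τ (lam m j * v)

/-- the profile -/
noncomputable def prof (τ : ℝ → ℝ) (v : ℝ) : ℝ :=
  if 0 < v ∧ v ≤ 1 then (1 / 4) ^ (lev v) * lac τ (lev v) v else 0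

lemma prof_supp (τ : ℝ → ℝ) : Supp01 (prof τ) := fun v hv => by
  unfold prof; rw [if_neg hv]

lemma measurable_lev : Measurable lev := by
  unfold lev
  exact Nat.measurable_floor.comp (by unfold Real.logb; fun_prop)

lemma measurable_prof {τ : ℝ → ℝ} (hτ : Measurable τ) : Measurable (prof τ) := by
  unfold prof
  refine Measurable.ite (measurableSet_Ioc) ?_ measurable_const
  have h1 : Measurable (fun p : ℕ × ℝ => (1 / 4 : ℝ) ^ p.1 * lac τ p.1 p.2) := by
    refine measurable_from_prod_countable_right (fun m => ?_)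
    have h2 : Measurable (fun v => lac τ m v) := by
      unfold lac
      exact Finset.measurable_sum _ (fun j _ => hτ.comp (by fun_prop))
    exact h2.const_mul ((1 / 4 : ℝ) ^ m)
  exact h1.comp (measurable_lev.prodMk measurable_id)

lemma lam_pos (m j : ℕ) : 0 < lam m j := by unfold lam; positivity

lemma lac_sq (m : ℕ) (v : ℝ) : lac Real.cos m v ^ 2 + lac Real.sin m v ^ 2 =
    ∑ i ∈ Finset.range (16 ^ m), ∑ j ∈ Finset.range (16 ^ m), Real.cos ((lam m i - lam m j) * v) := by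
  unfold lac
  rw [sq, sq, Finset.sum_mul_sum, Finset.sum_mul_sum, ← Finset.sum_add_distrib]
  refine Finset.sum_congr rfl (fun i _ => ?_)
  rw [← Finset.sum_add_distrib]
  refine Finset.sum_congr rfl (fun j _ => ?_)
  rw [sub_mul, Real.cos_sub]

lemma integral_cos_le (c a b : ℝ) (hc : c ≠ 0) :
    ∫ v in a..b, Real.cos (c * v) ≤ 2 / |c| := by
  rw [intervalIntegral.integral_comp_mul_left (fun v => Real.cos v) hc, integral_cos, smul_eq_mul]
  have h1 : |c⁻¹ * (Real.sin (c * b) - Real.sin (c * a))| ≤ 2 / |c| := by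
    rw [abs_mul, abs_inv, div_eq_inv_mul]
    refine mul_le_mul_of_nonneg_left ?_ (by positivity)
    have h2 := Real.abs_sin_le_one (c * b)
    have h3 := Real.abs_sin_le_one (c * a)
    calc |Real.sin (c * b) - Real.sin (c * a)| ≤ |Real.sin (c * b)| + |Real.sin (c * a)| := abs_sub _ _
      _ ≤ 2 := by linarith
  exact (le_abs_self _).trans h1

lemma lam_gap (m i j : ℕ) (hij : i ≠ j) : (1024 : ℝ) ^ (m + 1) ≤ |lam m i - lam m j| := by
  have key : ∀ i j : ℕ, i < j → (1024 : ℝ) ^ (m + 1) ≤ lam m j - lam m i := by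
    intro i j hij
    unfold lam
    have h1 : (1024 : ℝ) ^ (m + 1 + j) = 1024 ^ (m + 1) * 1024 ^ j := pow_add _ _ _
    have h2 : (1024 : ℝ) ^ (m + 1 + i) = 1024 ^ (m + 1) * 1024 ^ i := pow_add _ _ _
    have h3 : (1024 : ℝ) ^ i + 1 ≤ 1024 ^ j := by
      have h4 : (1024 : ℝ) ^ (i + 1) ≤ 1024 ^ j := pow_le_pow_right₀ (by norm_num) hij
      have h5 : (1 : ℝ) ≤ 1024 ^ i := one_le_pow₀ (by norm_num)
      rw [pow_succ] at h4
      linarith
    rw [h1, h2, ← mul_sub]
    have h6 : (0 : ℝ) < 1024 ^ (m + 1) := by positivity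
    nlinarith
  rcases lt_or_gt_of_ne hij with h | h
  · rw [abs_sub_comm]
    exact (key i j h).trans (le_abs_self _)
  · exact (key j i h).trans (le_abs_self _)

lemma lac_integral (m : ℕ) : ∫ v in (1 / 2 : ℝ) ^ (m + 1)..(1 / 2 : ℝ) ^ m,
    (lac Real.cos m v ^ 2 + lac Real.sin m v ^ 2) ≤ 2 * 16 ^ m * (1 / 2) ^ m := by
  simp only [lac_sq]
  have hcont : ∀ c : ℝ, IntervalIntegrable (fun v => Real.cos (c * v)) volume
      ((1 / 2 : ℝ) ^ (m + 1)) ((1 / 2 : ℝ) ^ m) := fun c =>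
    Continuous.intervalIntegrable (by fun_prop) _ _
  rw [intervalIntegral.integral_finsetSum]
  · have h1 : ∀ i ∈ Finset.range (16 ^ m), ∫ v in (1 / 2 : ℝ) ^ (m + 1)..(1 / 2 : ℝ) ^ m,
        ∑ j ∈ Finset.range (16 ^ m), Real.cos ((lam m i - lam m j) * v) ≤
        (1 / 2) ^ m + 16 ^ m * (2 / 1024 ^ (m + 1)) := by
      intro i hi
      rw [intervalIntegral.integral_finsetSum (fun j _ => hcont _)]
      have h2 : ∀ j ∈ Finset.range (16 ^ m), ∫ v in (1 / 2 : ℝ) ^ (m + 1)..(1 / 2 : ℝ) ^ m,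
          Real.cos ((lam m i - lam m j) * v) ≤
          (if i = j then (1 / 2 : ℝ) ^ m else 0) + 2 / 1024 ^ (m + 1) := by
        intro j _
        split_ifs with h
        · rw [h]
          simp only [sub_self, zero_mul, Real.cos_zero]
          rw [intervalIntegral.integral_const, smul_eq_mul, mul_one]
          have : (0:ℝ) < (1 / 2) ^ (m + 1) := by positivity
          have : (0:ℝ) ≤ 2 / 1024 ^ (m + 1) := by positivity
          linarith
        · have hg := lam_gap m i j h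
          have hpos : (0 : ℝ) < 1024 ^ (m + 1) := by positivity
          have hne : lam m i - lam m j ≠ 0 := by
            intro h0
            rw [h0, abs_zero] at hg
            linarith
          refine (integral_cos_le _ _ _ hne).trans ?_
          rw [zero_add]
          exact div_le_div_of_nonneg_left (by norm_num) hpos hg
      refine (Finset.sum_le_sum h2).trans ?_
      rw [Finset.sum_add_distrib, Finset.sum_ite_eq, if_pos hi, Finset.sum_const,
        Finset.card_range, nsmul_eq_mul]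
      push_cast
      exact le_rfl
    refine (Finset.sum_le_sum h1).trans ?_
    rw [Finset.sum_const, Finset.card_range, nsmul_eq_mul]
    push_cast
    have h3 : (16 : ℝ) ^ m * (2 / 1024 ^ (m + 1)) ≤ (1 / 2) ^ m := by
      rw [pow_succ, mul_div_assoc', div_le_iff₀ (by positivity)]
      have e : (1 / 2 : ℝ) ^ m * (1024 ^ m * 1024) = 512 ^ m * 1024 := by
        rw [← mul_assoc, ← mul_pow]; norm_num
      rw [e]
      have h4 : (16 : ℝ) ^ m ≤ 512 ^ m := pow_le_pow_left₀ (by norm_num) (by norm_num) m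
      have h5 : (0 : ℝ) < 16 ^ m := by positivity
      nlinarith
    have h6 : (0 : ℝ) < 16 ^ m := by positivity
    nlinarith
  · intro i _
    exact Continuous.intervalIntegrable (by fun_prop) _ _

/-- square integrability of the profiles -/
lemma prof_sq_lint {τ : ℝ → ℝ} (hτ : Continuous τ)
    (hle : ∀ m v, lac τ m v ^ 2 ≤ lac Real.cos m v ^ 2 + lac Real.sin m v ^ 2) :
    ∫⁻ v, ‖prof τ v‖ₑ ^ 2 < ⊤ := by
  have hm := measurable_prof hτ.measurable
  set Em : ℕ → Set ℝ := fun m => Set.Ioc ((1 / 2 : ℝ) ^ (m + 1)) ((1 / 2 : ℝ) ^ m) with hEm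
  have h1 : ∫⁻ v, ‖prof τ v‖ₑ ^ 2 ≤ ∫⁻ v in ⋃ m, Em m, ‖prof τ v‖ₑ ^ 2 := by
    rw [← lintegral_indicator (MeasurableSet.iUnion (fun m => measurableSet_Ioc))]
    refine lintegral_mono (fun v => ?_)
    by_cases hv : 0 < v ∧ v ≤ 1
    · have : v ∈ ⋃ m, Em m := by
        rw [Set.mem_iUnion]
        exact ⟨lev v, lev_spec hv.1 hv.2⟩
      rw [Set.indicator_of_mem this]
    · rw [prof_supp τ v hv]; simp
  have hlac : ∀ m, Continuous (fun v => lac τ m v) := by
    intro m; unfold lac; fun_prop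
  have h2 : ∀ m, ∫⁻ v in Em m, ‖prof τ v‖ₑ ^ 2 ≤ ENNReal.ofReal (2 * (1 / 2) ^ m) := by
    intro m
    have e1 : ∫⁻ v in Em m, ‖prof τ v‖ₑ ^ 2 =
        ∫⁻ v in Em m, ENNReal.ofReal (((1 / 4 : ℝ) ^ m * lac τ m v) ^ 2) := by
      refine setLIntegral_congr_fun measurableSet_Ioc (fun v hv => ?_)
      have hv0 : 0 < v := lt_trans (by positivity) hv.1
      have hv1 : v ≤ 1 := hv.2.trans (pow_le_one₀ (by norm_num) (by norm_num))
      have hl : lev v = m := lev_eq hv.1 hv.2
      unfold prof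
      rw [if_pos ⟨hv0, hv1⟩, hl, ← ofReal_norm, ← ENNReal.ofReal_pow (norm_nonneg _),
        Real.norm_eq_abs, sq_abs]
    rw [e1, ← ofReal_integral_eq_lintegral_ofReal]
    · refine ENNReal.ofReal_le_ofReal ?_
      have h3 : (1 / 2 : ℝ) ^ (m + 1) ≤ (1 / 2 : ℝ) ^ m :=
        pow_le_pow_of_le_one (by norm_num) (by norm_num) (by omega)
      rw [← intervalIntegral.integral_of_le h3]
      have h4 : ∫ v in (1 / 2 : ℝ) ^ (m + 1)..(1 / 2 : ℝ) ^ m, ((1 / 4 : ℝ) ^ m * lac τ m v) ^ 2 ≤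
          ∫ v in (1 / 2 : ℝ) ^ (m + 1)..(1 / 2 : ℝ) ^ m,
            (1 / 16 : ℝ) ^ m * (lac Real.cos m v ^ 2 + lac Real.sin m v ^ 2) := by
        refine intervalIntegral.integral_mono_on h3 ?_ ?_ (fun v _ => ?_)
        · exact Continuous.intervalIntegrable ((continuous_const.mul (hlac m)).pow 2) _ _
        · refine Continuous.intervalIntegrable ?_ _ _
          unfold lac; fun_prop
        · rw [mul_pow, ← pow_mul, mul_comm m 2, pow_mul]
          have : ((1 / 4 : ℝ) ^ 2) = 1 / 16 := by norm_num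
          rw [this]
          exact mul_le_mul_of_nonneg_left (hle m v) (by positivity)
      refine h4.trans ?_
      rw [intervalIntegral.integral_const_mul]
      calc (1 / 16 : ℝ) ^ m * _ ≤ (1 / 16 : ℝ) ^ m * (2 * 16 ^ m * (1 / 2) ^ m) :=
            mul_le_mul_of_nonneg_left (lac_integral m) (by positivity)
        _ = 2 * (1 / 2) ^ m := by
            have : (1 / 16 : ℝ) ^ m * 16 ^ m = 1 := by rw [← mul_pow]; norm_num
            calc (1 / 16 : ℝ) ^ m * (2 * 16 ^ m * (1 / 2) ^ m)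
                = ((1 / 16 : ℝ) ^ m * 16 ^ m) * (2 * (1 / 2) ^ m) := by ring
              _ = _ := by rw [this, one_mul]
    · exact (Continuous.integrableOn_Ioc ((continuous_const.mul (hlac m)).pow 2))
    · exact Eventually.of_forall (fun v => sq_nonneg _)
  refine lt_of_le_of_lt (h1.trans ((lintegral_iUnion_le Em _).trans (ENNReal.tsum_le_tsum h2))) ?_
  have hsum : Summable (fun m : ℕ => 2 * (1 / 2 : ℝ) ^ m) :=
    (summable_geometric_of_lt_one (by norm_num) (by norm_num)).mul_left 2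
  rw [← ENNReal.ofReal_tsum_of_nonneg (fun m => by positivity) hsum]
  exact ENNReal.ofReal_lt_top

lemma prof_lint {τ : ℝ → ℝ} (hτ : Continuous τ)
    (hle : ∀ m v, lac τ m v ^ 2 ≤ lac Real.cos m v ^ 2 + lac Real.sin m v ^ 2) :
    ∫⁻ v, ‖prof τ v‖ₑ < ⊤ := by
  have h1 : ∀ v, ‖prof τ v‖ₑ ≤ Set.indicator (Set.Ioc 0 1) (fun _ => 1) v + ‖prof τ v‖ₑ ^ 2 := by
    intro v
    by_cases hv : 0 < v ∧ v ≤ 1
    · have hv' : v ∈ Set.Ioc (0:ℝ) 1 := hv
      rw [Set.indicator_of_mem hv']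
      rcases le_total (‖prof τ v‖ₑ) 1 with h | h
      · exact h.trans le_self_add
      · calc ‖prof τ v‖ₑ = ‖prof τ v‖ₑ * 1 := (mul_one _).symm
          _ ≤ ‖prof τ v‖ₑ * ‖prof τ v‖ₑ := mul_le_mul_right h _
          _ = ‖prof τ v‖ₑ ^ 2 := (sq _).symm
          _ ≤ _ := le_add_self
    · rw [prof_supp τ v hv]; simp
  refine lt_of_le_of_lt (lintegral_mono h1) ?_
  rw [lintegral_add_left (measurable_const.indicator measurableSet_Ioc)]
  refine ENNReal.add_lt_top.2 ⟨?_, prof_sq_lint hτ hle⟩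
  rw [lintegral_indicator measurableSet_Ioc]
  simp


noncomputable def chi (m j : ℕ) : ContDiffBump (-(3 / 2) * lam m j : ℝ) where
  rIn := lam m j / 4
  rOut := lam m j / 2
  rIn_pos := by have := lam_pos m j; linarith
  rIn_lt_rOut := by have := lam_pos m j; linarith

noncomputable def rho (m : ℕ) : ContDiffBump ((3 / 4) * (1 / 2) ^ m : ℝ) where
  rIn := (1 / 2) ^ m / 16
  rOut := (1 / 2) ^ m / 8
  rIn_pos := by positivity
  rIn_lt_rOut := by
    have : (0:ℝ) < (1 / 2) ^ m := by positivity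
    linarith

/-- one piece of the test function -/
noncomputable def piece (τ : ℝ → ℝ) (m j : ℕ) (z : E2) : ℝ :=
  chi m j (z 0) * (rho m (z 1 / z 0) * τ (lam m j * (z 1 / z 0)))

/-- the test function -/
noncomputable def tf (τ : ℝ → ℝ) (m : ℕ) (z : E2) : ℝ :=
  ∑ j ∈ Finset.range (16 ^ m), piece τ m j z

/-- the good region for scale `j` -/
def Good (m j : ℕ) (z : E2) : Prop :=
  -(2 * lam m j) < z 0 ∧ z 0 < - lam m j ∧ |z 1 / z 0 - (3 / 4) * (1 / 2) ^ m| < (1 / 2) ^ m / 8

lemma chi_ne_zero {m j : ℕ} {t : ℝ} (h : chi m j t ≠ 0) : -(2 * lam m j) < t ∧ t < - lam m j := by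
  have h1 : t ∈ Function.support (chi m j) := h
  rw [ContDiffBump.support_eq, mem_ball, Real.dist_eq] at h1
  have h2 : |t - -(3 / 2) * lam m j| < lam m j / 2 := h1
  rw [abs_lt] at h2
  constructor <;> linarith [h2.1, h2.2]

lemma piece_ne_zero {τ : ℝ → ℝ} {m j : ℕ} {z : E2} (h : piece τ m j z ≠ 0) : Good m j z := by
  unfold piece at h
  have h1 : chi m j (z 0) ≠ 0 := left_ne_zero_of_mul h
  have h2 : rho m (z 1 / z 0) ≠ 0 := left_ne_zero_of_mul (right_ne_zero_of_mul h)
  obtain ⟨h3, h4⟩ := chi_ne_zero h1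
  refine ⟨h3, h4, ?_⟩
  have h5 : z 1 / z 0 ∈ Function.support (rho m) := h2
  rw [ContDiffBump.support_eq, mem_ball, Real.dist_eq] at h5
  exact h5

lemma lam_lt {m i j : ℕ} (hij : i < j) : 2 * lam m i ≤ lam m j := by
  unfold lam
  have h1 : (1024 : ℝ) ^ (m + 1 + i) * 1024 ≤ 1024 ^ (m + 1 + j) := by
    rw [← pow_succ]
    exact pow_le_pow_right₀ (by norm_num) (by omega)
  have h2 : (0 : ℝ) < 1024 ^ (m + 1 + i) := by positivity
  linarith

lemma shell_unique {m i j : ℕ} {t : ℝ} (hi : -(2 * lam m i) < t ∧ t < - lam m i)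
    (hj : -(2 * lam m j) < t ∧ t < - lam m j) : i = j := by
  rcases lt_trichotomy i j with h | h | h
  · have := lam_lt (m := m) h
    linarith [hi.1, hi.2, hj.1, hj.2]
  · exact h
  · have := lam_lt (m := m) h
    linarith [hi.1, hi.2, hj.1, hj.2]

lemma good_unique {m i j : ℕ} {z : E2} (hi : Good m i z) (hj : Good m j z) : i = j :=
  shell_unique ⟨hi.1, hi.2.1⟩ ⟨hj.1, hj.2.1⟩

lemma tf_eq {τ : ℝ → ℝ} {m j : ℕ} {z : E2} (hj : j < 16 ^ m) (hz : Good m j z) :
    tf τ m z = piece τ m j z := by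
  unfold tf
  refine Finset.sum_eq_single j (fun i _ hij => ?_) (fun h => absurd (Finset.mem_range.2 hj) h)
  by_contra h
  exact hij (good_unique (piece_ne_zero h) hz)

lemma tf_ne_zero {τ : ℝ → ℝ} {m : ℕ} {z : E2} (h : tf τ m z ≠ 0) : ∃ j < 16 ^ m, Good m j z := by
  unfold tf at h
  obtain ⟨j, hj, hne⟩ := Finset.exists_ne_zero_of_sum_ne_zero h
  exact ⟨j, Finset.mem_range.1 hj, piece_ne_zero hne⟩

lemma abs_piece_le {τ : ℝ → ℝ} (hτ : ∀ t, |τ t| ≤ 1) (m j : ℕ) (z : E2) : |piece τ m j z| ≤ 1 := by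
  unfold piece
  rw [abs_mul, abs_mul]
  have h1 : |chi m j (z 0)| ≤ 1 := by
    rw [abs_of_nonneg (ContDiffBump.nonneg _)]; exact ContDiffBump.le_one _
  have h2 : |rho m (z 1 / z 0)| ≤ 1 := by
    rw [abs_of_nonneg (ContDiffBump.nonneg _)]; exact ContDiffBump.le_one _
  have h3 := hτ (lam m j * (z 1 / z 0))
  exact mul_le_one₀ h1 (by positivity) (mul_le_one₀ h2 (abs_nonneg _) h3)

lemma abs_tf_le {τ : ℝ → ℝ} (hτ : ∀ t, |τ t| ≤ 1) (m : ℕ) (z : E2) : |tf τ m z| ≤ 1 := by
  by_cases h : tf τ m z = 0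
  · rw [h]; simp
  · obtain ⟨j, hj, hz⟩ := tf_ne_zero h
    rw [tf_eq hj hz]
    exact abs_piece_le hτ m j z

lemma contDiff_piece {τ : ℝ → ℝ} (hτ : ContDiff ℝ 1 τ) (m j : ℕ) : ContDiff ℝ 1 (piece τ m j) := by
  have h0 : ContDiff ℝ 1 (fun z : E2 => z 0) := by fun_prop
  have h1 : ContDiff ℝ 1 (fun z : E2 => z 1) := by fun_prop
  rw [contDiff_iff_contDiffAt]
  intro z
  by_cases hz : z 0 = 0
  · have h2 : ∀ᶠ y : E2 in 𝓝 z, piece τ m j y = 0 := by
      have hc : ContinuousAt (fun z : E2 => z 0) z := h0.continuous.continuousAt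
      have h3 : ∀ᶠ y : E2 in 𝓝 z, - lam m j < y 0 := by
        apply hc.eventually
        refine lt_mem_nhds ?_
        show - lam m j < z 0
        rw [hz]
        have := lam_pos m j
        linarith
      filter_upwards [h3] with y hy
      by_contra hne
      have := (piece_ne_zero hne).2.1
      linarith
    exact contDiffAt_const.congr_of_eventuallyEq h2
  · unfold piece
    have hdiv : ContDiffAt ℝ 1 (fun z : E2 => z 1 / z 0) z :=
      h1.contDiffAt.div h0.contDiffAt hz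
    refine ContDiffAt.mul ?_ (ContDiffAt.mul ?_ ?_)
    · exact (chi m j).contDiff.contDiffAt.comp z h0.contDiffAt
    · exact (rho m).contDiff.contDiffAt.comp z hdiv
    · exact hτ.contDiffAt.comp z (contDiffAt_const.mul hdiv)

lemma contDiff_tf {τ : ℝ → ℝ} (hτ : ContDiff ℝ 1 τ) (m : ℕ) : ContDiff ℝ 1 (tf τ m) := by
  unfold tf
  exact ContDiff.sum (fun j _ => contDiff_piece hτ m j)

lemma good_slope {m j : ℕ} {z : E2} (h : Good m j z) :
    (5 / 8) * (1 / 2 : ℝ) ^ m < z 1 / z 0 ∧ z 1 / z 0 < (7 / 8) * (1 / 2) ^ m := by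
  have := abs_lt.1 h.2.2
  constructor <;> linarith [this.1, this.2]

lemma half_pow_le (m : ℕ) : (1 / 2 : ℝ) ^ m ≤ 1 := pow_le_one₀ (by norm_num) (by norm_num)

lemma good_norm {m j : ℕ} {z : E2} (h : Good m j z) : ‖z‖ ≤ 4 * lam m j := by
  obtain ⟨h1, h2⟩ := good_slope h
  have hl := lam_pos m j
  have hz0 : z 0 < 0 := by linarith [h.2.1]
  have hpos : (0:ℝ) < (1 / 2) ^ m := by positivity
  have hle := half_pow_le m
  have h3 : |z 1| ≤ |z 0| := by
    have h4 : |z 1 / z 0| ≤ 1 := by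
      rw [abs_of_pos (by linarith)]; linarith
    rwa [abs_div, div_le_one (abs_pos.2 hz0.ne)] at h4
  have h5 : |z 0| ≤ 2 * lam m j := by
    rw [abs_of_neg hz0]; linarith [h.1]
  have h6 := norm_sq_E2 z
  have h7 : z 1 ^ 2 ≤ z 0 ^ 2 := sq_le_sq.2 h3
  have h8 : z 0 ^ 2 ≤ (2 * lam m j) ^ 2 := by
    rw [← sq_abs (z 0)]; exact pow_le_pow_left₀ (abs_nonneg _) h5 2
  refine le_of_sq_le_sq ?_ (by positivity)
  rw [h6]
  nlinarith

lemma lam_mono {m i j : ℕ} (hij : i ≤ j) : lam m i ≤ lam m j := by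
  unfold lam; exact pow_le_pow_right₀ (by norm_num) (by omega)

lemma support_tf_subset (τ : ℝ → ℝ) (m : ℕ) :
    Function.support (tf τ m) ⊆ closedBall 0 (4 * lam m (16 ^ m)) := by
  intro z hz
  obtain ⟨j, hj, hg⟩ := tf_ne_zero hz
  rw [mem_closedBall_zero_iff]
  have := lam_mono (m := m) hj.le
  linarith [good_norm hg]

lemma hasCompactSupport_tf (τ : ℝ → ℝ) (m : ℕ) : HasCompactSupport (tf τ m) :=
  HasCompactSupport.of_support_subset_isCompact (isCompact_closedBall 0 _)
    (support_tf_subset τ m)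

lemma lam_ge (m j : ℕ) : 1024 * 1024 ^ m ≤ lam m j := by
  unfold lam
  rw [pow_add, pow_succ]
  have h1 : (1 : ℝ) ≤ 1024 ^ j := one_le_pow₀ (by norm_num)
  have h2 : (0 : ℝ) < 1024 ^ m := by positivity
  nlinarith

lemma lam_ge' (m j : ℕ) : 1024 ≤ lam m j := by
  have h1 := lam_ge m j
  have h2 : (1 : ℝ) ≤ 1024 ^ m := one_le_pow₀ (by norm_num)
  linarith

/-- evaluation of the kernel -/
lemma ker_eval (τ : ℝ → ℝ) {m j : ℕ} {z : E2} (hz : Good m j z) {s b : ℝ} (hs0 : 0 ≤ s)
    (hs1 : s ≤ 1) (hb0 : 0 ≤ b) (hb1 : b ≤ 5) :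
    ker (prof τ) (pt s b - z) =
      (1 / 4) ^ m * lac τ m ((b - z 1) / (s - z 0)) / (s - z 0) ^ 2 := by
  obtain ⟨h1, h2⟩ := good_slope hz
  have hl := lam_ge m j
  have hl' := lam_ge' m j
  have hz0 : z 0 < - lam m j := hz.2.1
  have hu : lam m j < s - z 0 := by linarith
  have hu0 : 0 < s - z 0 := by linarith
  set w := z 1 / z 0 with hw
  have hz1 : z 1 = w * z 0 := by rw [hw]; field_simp [show z 0 ≠ 0 by linarith]
  have hpos : (0:ℝ) < (1 / 2) ^ m := by positivity
  have hle := half_pow_le m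
  have hv : (b - z 1) / (s - z 0) = w + (b - s * w) / (s - z 0) := by
    rw [hz1]; field_simp; ring
  have hw0 : 0 < w := by linarith
  have hw1 : w < 1 := by linarith
  have hsw : 0 ≤ s * w := by positivity
  have hsw1 : s * w ≤ 1 := by nlinarith
  have hpert : |(b - s * w) / (s - z 0)| ≤ (1 / 2) ^ m / 8 := by
    rw [abs_div, abs_of_pos hu0, div_le_iff₀ hu0]
    have h3 : |b - s * w| ≤ 5 := by rw [abs_le]; constructor <;> linarith
    have h4 : (1 / 2 : ℝ) ^ m * 1024 ^ m = 512 ^ m := by rw [← mul_pow]; norm_num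
    have h5 : (1 : ℝ) ≤ 512 ^ m := one_le_pow₀ (by norm_num)
    have h6 : (1 / 2 : ℝ) ^ m / 8 * (1024 * 1024 ^ m) ≤ (1 / 2 : ℝ) ^ m / 8 * (s - z 0) :=
      mul_le_mul_of_nonneg_left (by linarith) (by positivity)
    have h7 : (1 / 2 : ℝ) ^ m / 8 * (1024 * 1024 ^ m) = 128 * 512 ^ m := by
      rw [← h4]; ring
    linarith
  rw [abs_le] at hpert
  set v := (b - z 1) / (s - z 0) with hvdef
  have hv1 : (1 / 2 : ℝ) ^ (m + 1) < v := by
    rw [pow_succ]; rw [hv]; linarith [hpert.1]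
  have hv2 : v ≤ (1 / 2 : ℝ) ^ m := by rw [hv]; linarith [hpert.2]
  have hlev := lev_eq hv1 hv2
  unfold ker
  have e0 : (pt s b - z) 0 = s - z 0 := rfl
  have e1 : (pt s b - z) 1 = b - z 1 := rfl
  rw [e0, e1, ← hvdef, abs_of_pos hu0, ← sq]
  unfold prof
  have hv0 : 0 < v := lt_trans (by positivity) hv1
  rw [if_pos ⟨hv0, hv2.trans hle⟩, hlev]


lemma geo1 (j : ℕ) : ∑ i ∈ Finset.range j, (1024 : ℝ) ^ i ≤ 1024 ^ j / 1023 := by
  induction j with
  | zero => simp
  | succ j ih =>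
    rw [Finset.sum_range_succ, pow_succ]
    linarith

lemma geo2 (k : ℕ) : ∑ i ∈ Finset.range k, (1 / 1024 : ℝ) ^ i ≤ 1024 / 1023 := by
  have h : ∑ i ∈ Finset.range k, (1 / 1024 : ℝ) ^ i = (1024 / 1023) * (1 - (1 / 1024) ^ k) := by
    induction k with
    | zero => simp
    | succ k ih => rw [Finset.sum_range_succ, ih, pow_succ]; ring
  rw [h]
  have : (0:ℝ) < (1 / 1024) ^ k := by positivity
  linarith

/-- the oscillatory sum -/
noncomputable def osc (m j : ℕ) (z : E2) (s b : ℝ) : ℝ :=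
  ∑ i ∈ Finset.range (16 ^ m),
    Real.cos (lam m i * ((b - z 1) / (s - z 0)) - lam m j * (z 1 / z 0))

lemma inner_bound {m j : ℕ} (hm : 3 ≤ m) (hj : j < 16 ^ m) {z : E2} (hz : Good m j z) {s : ℝ}
    (hs0 : 0 ≤ s) (hs1 : s ≤ 1) :
    1 / 32 ≤ ∫ b in (0:ℝ)..(1 / 8), (osc m j z s b - osc m j z s (b + 4)) := by
  obtain ⟨h1, h2⟩ := good_slope hz
  have hlj := lam_ge' m j
  have hz0 : z 0 < - lam m j := hz.2.1
  have hz0' : -(2 * lam m j) < z 0 := hz.1
  set u := s - z 0 with hu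
  have hu1 : lam m j < u := by linarith
  have hu2 : u < 2 * lam m j + 1 := by linarith
  have hu0 : 0 < u := by linarith
  set w := z 1 / z 0 with hw
  have hz1 : z 1 = w * z 0 := by rw [hw]; field_simp [show z 0 ≠ 0 by linarith]
  have hpos : (0:ℝ) < (1 / 2) ^ m := by positivity
  have h8 : (1 / 2 : ℝ) ^ m ≤ 1 / 8 := by
    calc (1 / 2 : ℝ) ^ m ≤ (1 / 2) ^ 3 := pow_le_pow_of_le_one (by norm_num) (by norm_num) hm
      _ = 1 / 8 := by norm_num
  have hw0 : 0 < w := by linarith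
  have hw1 : w ≤ 1 / 8 := by linarith
  -- individual terms
  set φ : ℕ → ℝ → ℝ := fun i b => Real.cos (lam m i * ((b - z 1) / u) - lam m j * w) with hφ
  have hφc : ∀ i, Continuous (φ i) := by
    intro i; rw [hφ]; fun_prop
  set a : ℕ → ℝ := fun i => ∫ b in (0:ℝ)..(1 / 8), (φ i b - φ i (b + 4)) with ha
  have hsum : ∫ b in (0:ℝ)..(1 / 8), (osc m j z s b - osc m j z s (b + 4)) =
      ∑ i ∈ Finset.range (16 ^ m), a i := by
    rw [ha]
    simp only
    rw [← intervalIntegral.integral_finsetSum]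
    · refine intervalIntegral.integral_congr (fun b _ => ?_)
      simp only [osc, hφ]
      rw [← Finset.sum_sub_distrib]
    · intro i _
      exact Continuous.intervalIntegrable ((hφc i).sub ((hφc i).comp (by fun_prop))) _ _
  have hii : ∀ i, IntervalIntegrable (fun b => φ i b - φ i (b + 4)) volume 0 (1 / 8) := fun i =>
    Continuous.intervalIntegrable ((hφc i).sub ((hφc i).comp (by fun_prop))) _ _
  -- diagonal
  have hdiag : 31 / 256 ≤ a j := by
    have hc : ∀ b ∈ Set.Icc (0:ℝ) (1 / 8), 31 / 32 ≤ φ j b - φ j (b + 4) := by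
      intro b hb
      have hθ : lam m j * ((b - z 1) / u) - lam m j * w = lam m j * (b - s * w) / u := by
        rw [hz1, hu]
        have : s - z 0 ≠ 0 := by rw [← hu]; exact hu0.ne'
        field_simp
        ring
      have hθ' : lam m j * ((b + 4 - z 1) / u) - lam m j * w =
          lam m j * (b - s * w) / u + 4 * (lam m j / u) := by
        rw [← hθ]; ring
      have hsw : 0 ≤ s * w := by positivity
      have hsw1 : s * w ≤ 1 / 8 := by nlinarith
      have hr : lam m j / u ≤ 1 := by rw [div_le_one hu0]; exact hu1.le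
      have hr0 : 0 < lam m j / u := div_pos (lam_pos m j) hu0
      have hr2 : 499 / 1000 ≤ lam m j / u := by
        rw [le_div_iff₀ hu0]; linarith
      have hb1 : |b - s * w| ≤ 1 / 8 := by
        rw [abs_le]; constructor <;> linarith [hb.1, hb.2]
      have hθb : |lam m j * (b - s * w) / u| ≤ 1 / 8 := by
        have : lam m j * (b - s * w) / u = (lam m j / u) * (b - s * w) := by ring
        rw [this, abs_mul, abs_of_pos hr0]
        nlinarith [abs_nonneg (b - s * w)]
      simp only [hφ]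
      rw [hθ, hθ']
      set θ := lam m j * (b - s * w) / u
      obtain ⟨h3, h4⟩ := abs_le.1 hθb
      have h5 : 1 - θ ^ 2 / 2 ≤ Real.cos θ := Real.one_sub_sq_div_two_le_cos
      have h6 : Real.cos (θ + 4 * (lam m j / u)) ≤ 0 := by
        refine Real.cos_nonpos_of_pi_div_two_le_of_le ?_ ?_
        · have := Real.pi_lt_d2; linarith
        · have := Real.pi_gt_d2; linarith
      nlinarith
    have h3 : ∫ b in (0:ℝ)..(1 / 8), (31 / 32 : ℝ) ≤ a j := by
      rw [ha]
      exact intervalIntegral.integral_mono_on (by norm_num) (by simp) (hii j) hc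
    rw [intervalIntegral.integral_const, smul_eq_mul] at h3
    linarith
  -- lower frequencies
  have hlow : ∀ i, i < j → - (12 * (1024 ^ i / 1024 ^ j)) ≤ a i := by
    intro i hij
    have hli := lam_pos m i
    have hratio : lam m i / u ≤ 1024 ^ i / 1024 ^ j := by
      rw [div_le_div_iff₀ hu0 (by positivity)]
      have : lam m i * 1024 ^ j = 1024 ^ i * lam m j := by unfold lam; ring
      rw [this]
      exact mul_le_mul_of_nonneg_left hu1.le (by positivity)
    have hc : ∀ b ∈ Set.Icc (0:ℝ) (1 / 8), -(4 * (1024 ^ i / 1024 ^ j)) ≤ φ i b - φ i (b + 4) := by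
      intro b _
      simp only [hφ]
      have h3 : |Real.cos (lam m i * ((b - z 1) / u) - lam m j * w) -
          Real.cos (lam m i * ((b + 4 - z 1) / u) - lam m j * w)| ≤
          |(lam m i * ((b - z 1) / u) - lam m j * w) -
          (lam m i * ((b + 4 - z 1) / u) - lam m j * w)| := by
        have := Real.lipschitzWith_cos.dist_le_mul (lam m i * ((b - z 1) / u) - lam m j * w)
          (lam m i * ((b + 4 - z 1) / u) - lam m j * w)
        simpa [Real.dist_eq] using this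
      have h4 : (lam m i * ((b - z 1) / u) - lam m j * w) -
          (lam m i * ((b + 4 - z 1) / u) - lam m j * w) = -(4 * (lam m i / u)) := by
        field_simp; ring
      have h4' : |(lam m i * ((b - z 1) / u) - lam m j * w) -
          (lam m i * ((b + 4 - z 1) / u) - lam m j * w)| = 4 * (lam m i / u) := by
        rw [h4, abs_neg, abs_of_pos (by positivity)]
      rw [h4'] at h3
      have h5 := (abs_le.1 h3).1
      linarith
    have h3 : ∫ b in (0:ℝ)..(1 / 8), (-(4 * (1024 ^ i / 1024 ^ j)) : ℝ) ≤ a i := by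
      rw [ha]
      exact intervalIntegral.integral_mono_on (by norm_num) (by simp) (hii i) hc
    rw [intervalIntegral.integral_const, smul_eq_mul] at h3
    have : (0:ℝ) < 1024 ^ i / 1024 ^ j := by positivity
    linarith
  -- higher frequencies
  have hhigh : ∀ i, j < i → - (12 * (1024 ^ j * (1 / 1024) ^ i)) ≤ a i := by
    intro i hij
    have hli := lam_pos m i
    have hne : lam m i / u ≠ 0 := (div_pos hli hu0).ne'
    have hcos : ∀ β : ℝ, |∫ b in (0:ℝ)..(1 / 8), Real.cos (lam m i / u * b + β)| ≤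
        2 * (u / lam m i) := by
      intro β
      rw [intervalIntegral.integral_comp_mul_add (fun x => Real.cos x) hne, integral_cos,
        smul_eq_mul, abs_mul, abs_inv, abs_of_pos (div_pos hli hu0), inv_div]
      have h3 := Real.abs_sin_le_one (lam m i / u * (1 / 8) + β)
      have h4 := Real.abs_sin_le_one (lam m i / u * 0 + β)
      have h5 : |Real.sin (lam m i / u * (1 / 8) + β) - Real.sin (lam m i / u * 0 + β)| ≤ 2 :=
        (abs_sub _ _).trans (by linarith)
      have h6 : 0 < u / lam m i := div_pos hu0 hli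
      nlinarith
    have e1 : ∀ b, φ i b = Real.cos (lam m i / u * b + (-(lam m i / u * z 1) - lam m j * w)) := by
      intro b; simp only [hφ]; congr 1; ring
    have e2 : ∀ b, φ i (b + 4) =
        Real.cos (lam m i / u * b + (4 * (lam m i / u) - (lam m i / u * z 1) - lam m j * w)) := by
      intro b; simp only [hφ]; congr 1; ring
    have h3 : a i = (∫ b in (0:ℝ)..(1 / 8), φ i b) - ∫ b in (0:ℝ)..(1 / 8), φ i (b + 4) := by
      rw [ha]
      simp only
      have hψ : Continuous (fun b => φ i (b + 4)) := (hφc i).comp (by fun_prop)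
      rw [intervalIntegral.integral_sub (Continuous.intervalIntegrable (hφc i) _ _)
        (Continuous.intervalIntegrable hψ _ _)]
    have h4 := hcos (-(lam m i / u * z 1) - lam m j * w)
    have h5 := hcos (4 * (lam m i / u) - (lam m i / u * z 1) - lam m j * w)
    simp only [← e1, ← e2] at h4 h5
    have h6 := (abs_le.1 h4).1
    have h7 := (abs_le.1 h5).2
    have hratio : u / lam m i ≤ 3 * (1024 ^ j * (1 / 1024) ^ i) := by
      rw [div_le_iff₀ hli]
      have e3 : 3 * ((1024:ℝ) ^ j * (1 / 1024) ^ i) * lam m i = 3 * lam m j := by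
        unfold lam
        rw [one_div, inv_pow, pow_add, pow_add]
        field_simp
        ring
      rw [e3]
      linarith
    rw [h3]
    linarith
  rw [hsum, Finset.range_eq_Ico, ← Finset.sum_Ico_consecutive a (Nat.zero_le j) hj.le,
    Finset.sum_eq_sum_Ico_succ_bot hj, ← Finset.range_eq_Ico]
  have hs1 : -(12 / 1023 : ℝ) ≤ ∑ i ∈ Finset.range j, a i := by
    have h3 : ∑ i ∈ Finset.range j, (-(12 * ((1024:ℝ) ^ i / 1024 ^ j))) ≤ ∑ i ∈ Finset.range j, a i :=
      Finset.sum_le_sum (fun i hi => hlow i (Finset.mem_range.1 hi))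
    refine le_trans ?_ h3
    rw [Finset.sum_neg_distrib, ← Finset.mul_sum, ← Finset.sum_div]
    have h4 := geo1 j
    have h5 : (∑ i ∈ Finset.range j, (1024:ℝ) ^ i) / 1024 ^ j ≤ 1 / 1023 := by
      rw [div_le_iff₀ (by positivity)]; linarith
    linarith
  have hs2 : -(12 / 1023 : ℝ) ≤ ∑ i ∈ Finset.Ico (j + 1) (16 ^ m), a i := by
    have h3 : ∑ i ∈ Finset.Ico (j + 1) (16 ^ m), (-(12 * ((1024:ℝ) ^ j * (1 / 1024) ^ i))) ≤
        ∑ i ∈ Finset.Ico (j + 1) (16 ^ m), a i :=
      Finset.sum_le_sum (fun i hi => hhigh i (by have := (Finset.mem_Ico.1 hi).1; omega))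
    refine le_trans ?_ h3
    rw [Finset.sum_neg_distrib, ← Finset.mul_sum, ← Finset.mul_sum, Finset.sum_Ico_eq_sum_range]
    have h4 : ∑ k ∈ Finset.range (16 ^ m - (j + 1)), (1 / 1024 : ℝ) ^ (j + 1 + k) =
        (1 / 1024) ^ (j + 1) * ∑ k ∈ Finset.range (16 ^ m - (j + 1)), (1 / 1024 : ℝ) ^ k := by
      rw [Finset.mul_sum]
      exact Finset.sum_congr rfl (fun k _ => pow_add _ _ _)
    rw [h4]
    have h5 := geo2 (16 ^ m - (j + 1))
    have h6 : (1024:ℝ) ^ j * (1 / 1024) ^ (j + 1) = 1 / 1024 := by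
      rw [pow_succ, ← mul_assoc, ← mul_pow]; norm_num
    rw [← mul_assoc ((1024:ℝ) ^ j), h6]
    linarith
  have := hdiag
  linarith


/-- the first rectangle -/
def Q1 : Set E2 := {x | x 0 ∈ Set.Icc (0:ℝ) 1 ∧ x 1 ∈ Set.Icc (0:ℝ) (1 / 8)}

lemma Q1_eq : Q1 = eqv ⁻¹' (Set.Icc (0:ℝ) 1 ×ˢ Set.Icc (0:ℝ) (1 / 8)) := rfl

lemma measurableSet_Q1 : MeasurableSet Q1 := by
  rw [Q1_eq]
  exact eqv.measurable (measurableSet_Icc.prod measurableSet_Icc)

lemma volume_rect (a b c d : ℝ) :
    volume {x : E2 | x 0 ∈ Set.Icc a b ∧ x 1 ∈ Set.Icc c d} =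
      ENNReal.ofReal (b - a) * ENNReal.ofReal (d - c) := by
  have h : {x : E2 | x 0 ∈ Set.Icc a b ∧ x 1 ∈ Set.Icc c d} =
      eqv ⁻¹' (Set.Icc a b ×ˢ Set.Icc c d) := rfl
  rw [h, eqv_mp.measure_preimage (measurableSet_Icc.prod measurableSet_Icc).nullMeasurableSet]
  have h2 : (volume : Measure (ℝ × ℝ)) = (volume : Measure ℝ).prod volume := rfl
  rw [h2, Measure.prod_prod, Real.volume_Icc, Real.volume_Icc]

lemma volume_Q1 : volume Q1 = ENNReal.ofReal (1 / 8) := by
  have := volume_rect 0 1 0 (1 / 8)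
  simp only [sub_zero, ENNReal.ofReal_one, one_mul] at this
  exact this

/-- vertical translation vector -/
noncomputable def av : E2 := pt 0 4

/-- integrand -/
noncomputable def Ph (τ : ℝ → ℝ) (m : ℕ) (x z : E2) : ℝ := tf τ m z * ker (prof τ) (x - z)

/-- the big rectangle -/
def QB : Set E2 := {x | x 0 ∈ Set.Icc (0:ℝ) 1 ∧ x 1 ∈ Set.Icc (0:ℝ) 5}

lemma Q1_sub_QB {x : E2} (hx : x ∈ Q1) : x ∈ QB :=
  ⟨hx.1, hx.2.1, by linarith [hx.2.2]⟩

lemma Q1_add_QB {x : E2} (hx : x ∈ Q1) : x + av ∈ QB := by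
  have e0 : (x + av) 0 = x 0 + 0 := rfl
  have e1 : (x + av) 1 = x 1 + 4 := rfl
  refine ⟨?_, ?_⟩
  · rw [e0, add_zero]; exact hx.1
  · rw [e1]; exact ⟨by linarith [hx.2.1], by linarith [hx.2.2]⟩

lemma abs_lac_le {τ : ℝ → ℝ} (hτ : ∀ t, |τ t| ≤ 1) (m : ℕ) (v : ℝ) : |lac τ m v| ≤ 16 ^ m := by
  unfold lac
  refine (Finset.abs_sum_le_sum_abs _ _).trans ?_
  refine (Finset.sum_le_sum (fun i _ => hτ _)).trans ?_
  simp

lemma ker_le {τ : ℝ → ℝ} (hτ : ∀ t, |τ t| ≤ 1) {m j : ℕ} {x z : E2} (hx : x ∈ QB)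
    (hz : Good m j z) : |ker (prof τ) (x - z)| ≤ 4 ^ m := by
  have h := ker_eval τ hz hx.1.1 hx.1.2 hx.2.1 hx.2.2
  rw [pt_eta] at h
  rw [h, abs_div, abs_mul, abs_of_pos (show (0:ℝ) < (1 / 4) ^ m by positivity)]
  have h1 := abs_lac_le hτ m ((x 1 - z 1) / (x 0 - z 0))
  have hl := lam_ge' m j
  have hu : 1 ≤ x 0 - z 0 := by linarith [hx.1.1, hz.2.1]
  have h2 : 1 ≤ |(x 0 - z 0) ^ 2| := by
    rw [abs_of_nonneg (sq_nonneg _)]; nlinarith
  rw [div_le_iff₀ (by linarith)]
  have h3 : (1 / 4 : ℝ) ^ m * 16 ^ m = 4 ^ m := by rw [← mul_pow]; norm_num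
  calc (1 / 4 : ℝ) ^ m * |lac τ m ((x 1 - z 1) / (x 0 - z 0))| ≤ (1 / 4) ^ m * 16 ^ m :=
        mul_le_mul_of_nonneg_left h1 (by positivity)
    _ = 4 ^ m * 1 := by rw [h3, mul_one]
    _ ≤ 4 ^ m * |(x 0 - z 0) ^ 2| := mul_le_mul_of_nonneg_left h2 (by positivity)

lemma Ph_bound {τ : ℝ → ℝ} (hτ : ∀ t, |τ t| ≤ 1) (m : ℕ) {x : E2} (hx : x ∈ QB) (z : E2) :
    |Ph τ m x z| ≤ Set.indicator (closedBall (0 : E2) (4 * lam m (16 ^ m))) (fun _ => (4:ℝ) ^ m) z := by
  unfold Ph
  by_cases h : tf τ m z = 0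
  · rw [h, zero_mul, abs_zero]
    exact Set.indicator_nonneg (fun _ _ => by positivity) _
  · have hz := support_tf_subset τ m h
    rw [Set.indicator_of_mem hz]
    obtain ⟨j, hj, hg⟩ := tf_ne_zero h
    rw [abs_mul]
    calc |tf τ m z| * |ker (prof τ) (x - z)| ≤ 1 * 4 ^ m :=
          mul_le_mul (abs_tf_le hτ m z) (ker_le hτ hx hg) (abs_nonneg _) zero_le_one
      _ = 4 ^ m := one_mul _

lemma measurable_Ph {τ : ℝ → ℝ} (hτ : ContDiff ℝ 1 τ) (m : ℕ) :
    Measurable (fun p : E2 × E2 => Ph τ m p.1 p.2) := by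
  unfold Ph
  refine Measurable.mul ?_ ?_
  · exact (contDiff_tf hτ m).continuous.measurable.comp measurable_snd
  · exact (measurable_ker (measurable_prof hτ.continuous.measurable)).comp
      (measurable_fst.sub measurable_snd)

instance : IsFiniteMeasure (volume.restrict Q1) := by
  constructor
  rw [Measure.restrict_apply_univ, volume_Q1]
  exact ENNReal.ofReal_lt_top

lemma dPh_bound {τ : ℝ → ℝ} (hτ : ∀ t, |τ t| ≤ 1) (m : ℕ) {x : E2} (hx : x ∈ Q1) (z : E2) :
    |Ph τ m x z - Ph τ m (x + av) z| ≤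
      Set.indicator (closedBall (0 : E2) (4 * lam m (16 ^ m))) (fun _ => 2 * (4:ℝ) ^ m) z := by
  have h1 := Ph_bound hτ m (Q1_sub_QB hx) z
  have h2 := Ph_bound hτ m (Q1_add_QB hx) z
  have h3 : Set.indicator (closedBall (0 : E2) (4 * lam m (16 ^ m))) (fun _ => 2 * (4:ℝ) ^ m) z =
      2 * Set.indicator (closedBall (0 : E2) (4 * lam m (16 ^ m))) (fun _ => (4:ℝ) ^ m) z := by
    by_cases h : z ∈ closedBall (0 : E2) (4 * lam m (16 ^ m))
    · rw [Set.indicator_of_mem h, Set.indicator_of_mem h]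
    · rw [Set.indicator_of_notMem h, Set.indicator_of_notMem h, mul_zero]
  rw [h3]
  calc _ ≤ |Ph τ m x z| + |Ph τ m (x + av) z| := abs_sub _ _
    _ ≤ _ := by linarith

lemma integrable_dPh {τ : ℝ → ℝ} (hτ : ContDiff ℝ 1 τ) (hτ1 : ∀ t, |τ t| ≤ 1) (m : ℕ) :
    Integrable (fun p : E2 × E2 => Ph τ m p.1 p.2 - Ph τ m (p.1 + av) p.2)
      ((volume.restrict Q1).prod volume) := by
  have hm := measurable_Ph hτ m
  have hm2 : Measurable (fun p : E2 × E2 => Ph τ m (p.1 + av) p.2) :=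
    hm.comp ((measurable_fst.add_const av).prodMk measurable_snd)
  have hdom : Integrable (fun p : E2 × E2 => (1 : ℝ) *
      Set.indicator (closedBall (0 : E2) (4 * lam m (16 ^ m))) (fun _ => 2 * (4:ℝ) ^ m) p.2)
      ((volume.restrict Q1).prod volume) := by
    refine Integrable.mul_prod (f := fun _ : E2 => (1:ℝ)) (integrable_const _) ?_
    rw [integrable_indicator_iff measurableSet_closedBall]
    refine integrableOn_const ?_
    exact measure_closedBall_lt_top.ne
  refine hdom.mono' (hm.sub hm2).aestronglyMeasurable ?_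
  have h1 : ∀ᵐ p : E2 × E2 ∂((volume.restrict Q1).prod volume), p.1 ∈ Q1 := by
    have : ∀ᵐ x ∂(volume.restrict Q1), x ∈ Q1 := ae_restrict_mem measurableSet_Q1
    exact Measure.quasiMeasurePreserving_fst.ae this
  filter_upwards [h1] with p hp
  rw [one_mul]
  exact dPh_bound hτ1 m hp p.2

lemma setIntegral_Q1 (F : E2 → ℝ) (hF : IntegrableOn F Q1) :
    ∫ x in Q1, F x = ∫ s in Set.Icc (0:ℝ) 1, ∫ b in Set.Icc (0:ℝ) (1 / 8), F (pt s b) ∧
    IntegrableOn (fun s => ∫ b in Set.Icc (0:ℝ) (1 / 8), F (pt s b)) (Set.Icc (0:ℝ) 1) := by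
  have hF' : IntegrableOn (fun p => F (eqv.symm p)) (Set.Icc (0:ℝ) 1 ×ˢ Set.Icc (0:ℝ) (1 / 8)) := by
    rw [← eqv_mp.integrableOn_comp_preimage eqv.measurableEmbedding]
    have : ((fun p => F (eqv.symm p)) ∘ eqv) = F := by
      funext x; simp
    rw [this, ← Q1_eq]
    exact hF
  have h1 : ∫ x in Q1, F x = ∫ p in Set.Icc (0:ℝ) 1 ×ˢ Set.Icc (0:ℝ) (1 / 8), F (eqv.symm p) := by
    rw [← eqv_mp.setIntegral_preimage_emb eqv.measurableEmbedding, ← Q1_eq]
    simp
  have h2 : (volume : Measure (ℝ × ℝ)) = (volume : Measure ℝ).prod volume := rfl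
  rw [h2] at h1 hF'
  rw [setIntegral_prod _ hF'] at h1
  constructor
  · rw [h1]
    simp only [eqv_symm]
  · have h3 : Integrable (fun p => F (eqv.symm p))
      ((volume.restrict (Set.Icc (0:ℝ) 1)).prod (volume.restrict (Set.Icc (0:ℝ) (1 / 8)))) := by
      rw [Measure.prod_restrict]; exact hF'
    have h4 := h3.integral_prod_left
    simp only [eqv_symm] at h4
    exact h4


lemma pt_add_av (s b : ℝ) : pt s b + av = pt s (b + 4) := by
  ext i
  fin_cases i
  · show s + 0 = s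
    simp
  · rfl

lemma P_eval {m j : ℕ} (hj : j < 16 ^ m) {z : E2} (hz : Good m j z) {s b : ℝ} (hs0 : 0 ≤ s)
    (hs1 : s ≤ 1) (hb0 : 0 ≤ b) (hb1 : b ≤ 5) :
    Ph Real.cos m (pt s b) z + Ph Real.sin m (pt s b) z =
      (chi m j (z 0) * rho m (z 1 / z 0) * ((1 / 4) ^ m / (s - z 0) ^ 2)) * osc m j z s b := by
  unfold Ph
  rw [tf_eq hj hz, tf_eq hj hz, ker_eval _ hz hs0 hs1 hb0 hb1, ker_eval _ hz hs0 hs1 hb0 hb1]
  unfold piece
  have h : osc m j z s b = Real.cos (lam m j * (z 1 / z 0)) * lac Real.cos m ((b - z 1) / (s - z 0)) +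
      Real.sin (lam m j * (z 1 / z 0)) * lac Real.sin m ((b - z 1) / (s - z 0)) := by
    unfold osc lac
    rw [Finset.mul_sum, Finset.mul_sum, ← Finset.sum_add_distrib]
    refine Finset.sum_congr rfl (fun i _ => ?_)
    rw [Real.cos_sub]; ring
  rw [h]; ring

/-- the inner double integral -/
noncomputable def DD (m : ℕ) (z : E2) : ℝ :=
  ∫ x in Q1, ((Ph Real.cos m x z - Ph Real.cos m (x + av) z) +
    (Ph Real.sin m x z - Ph Real.sin m (x + av) z))

lemma meas_Ph_x {τ : ℝ → ℝ} (hτ : ContDiff ℝ 1 τ) (m : ℕ) (z : E2) :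
    Measurable (fun x : E2 => Ph τ m x z) := by
  have h1 : Measurable (fun x : E2 => ker (prof τ) (x - z)) :=
    (measurable_ker (measurable_prof hτ.continuous.measurable)).comp (measurable_sub_const z)
  have h2 : (fun x : E2 => Ph τ m x z) = fun x => tf τ m z * ker (prof τ) (x - z) := rfl
  rw [h2]
  exact h1.const_mul (tf τ m z)

lemma meas_Ph_x' {τ : ℝ → ℝ} (hτ : ContDiff ℝ 1 τ) (m : ℕ) (z : E2) :
    Measurable (fun x : E2 => Ph τ m (x + av) z) :=
  (meas_Ph_x hτ m z).comp (measurable_add_const av)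

lemma integrableOn_dPh_x {τ : ℝ → ℝ} (hτ : ContDiff ℝ 1 τ) (hτ1 : ∀ t, |τ t| ≤ 1) (m : ℕ) (z : E2) :
    IntegrableOn (fun x => Ph τ m x z - Ph τ m (x + av) z) Q1 := by
  have h3 : Integrable (fun _ : E2 => Set.indicator (closedBall (0 : E2) (4 * lam m (16 ^ m)))
    (fun _ => 2 * (4:ℝ) ^ m) z) (volume.restrict Q1) := integrable_const _
  have h4 : ∀ᵐ x ∂(volume.restrict Q1), ‖Ph τ m x z - Ph τ m (x + av) z‖ ≤
      Set.indicator (closedBall (0 : E2) (4 * lam m (16 ^ m))) (fun _ => 2 * (4:ℝ) ^ m) z := by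
    filter_upwards [ae_restrict_mem measurableSet_Q1] with x hx
    rw [Real.norm_eq_abs]
    exact dPh_bound hτ1 m hx z
  exact h3.mono' ((meas_Ph_x hτ m z).sub (meas_Ph_x' hτ m z)).aestronglyMeasurable h4

lemma DD_lower {m j : ℕ} (hm : 3 ≤ m) (hj : j < 16 ^ m) {z : E2} (hz : Good m j z) :
    chi m j (z 0) * rho m (z 1 / z 0) * ((1 / 4) ^ m / (288 * lam m j ^ 2)) ≤ DD m z := by
  set F : E2 → ℝ := fun x => ((Ph Real.cos m x z - Ph Real.cos m (x + av) z) +
    (Ph Real.sin m x z - Ph Real.sin m (x + av) z)) with hF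
  have hFint : IntegrableOn F Q1 :=
    (integrableOn_dPh_x Real.contDiff_cos Real.abs_cos_le_one m z).add
      (integrableOn_dPh_x Real.contDiff_sin Real.abs_sin_le_one m z)
  obtain ⟨e1, e2⟩ := setIntegral_Q1 F hFint
  have hlj := lam_ge' m j
  have hz0 : z 0 < - lam m j := hz.2.1
  have hz0' : -(2 * lam m j) < z 0 := hz.1
  set A := chi m j (z 0) * rho m (z 1 / z 0) with hA
  have hA0 : 0 ≤ A := mul_nonneg (ContDiffBump.nonneg _) (ContDiffBump.nonneg _)
  have hge : ∀ s ∈ Set.Icc (0:ℝ) 1, A * ((1 / 4) ^ m / (288 * lam m j ^ 2)) ≤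
      ∫ b in Set.Icc (0:ℝ) (1 / 8), F (pt s b) := by
    intro s hs
    have h1 : ∫ b in Set.Icc (0:ℝ) (1 / 8), F (pt s b) =
        ∫ b in (0:ℝ)..(1 / 8), (A * ((1 / 4) ^ m / (s - z 0) ^ 2)) *
          (osc m j z s b - osc m j z s (b + 4)) := by
      rw [integral_Icc_eq_integral_Ioc, ← intervalIntegral.integral_of_le (by norm_num)]
      refine intervalIntegral.integral_congr (fun b hb => ?_)
      rw [Set.uIcc_of_le (by norm_num)] at hb
      simp only [hF]
      rw [pt_add_av]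
      have p1 := P_eval hj hz hs.1 hs.2 hb.1 (by linarith [hb.2] : b ≤ 5)
      have p2 := P_eval hj hz hs.1 hs.2 (by linarith [hb.1] : 0 ≤ b + 4) (by linarith [hb.2] : b + 4 ≤ 5)
      calc _ = (Ph Real.cos m (pt s b) z + Ph Real.sin m (pt s b) z) -
            (Ph Real.cos m (pt s (b + 4)) z + Ph Real.sin m (pt s (b + 4)) z) := by ring
        _ = _ := by rw [p1, p2]; ring
    rw [h1, intervalIntegral.integral_const_mul]
    have h2 := inner_bound hm hj hz hs.1 hs.2
    have h3 : (1 / 4 : ℝ) ^ m / (9 * lam m j ^ 2) ≤ (1 / 4) ^ m / (s - z 0) ^ 2 := by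
      have hu0 : 0 < s - z 0 := by linarith [hs.1]
      refine div_le_div_of_nonneg_left (by positivity) (by positivity) ?_
      have hu : s - z 0 ≤ 3 * lam m j := by linarith [hs.2]
      calc (s - z 0) ^ 2 ≤ (3 * lam m j) ^ 2 := pow_le_pow_left₀ hu0.le hu 2
        _ = 9 * lam m j ^ 2 := by ring
    have h4 : 0 ≤ A * ((1 / 4 : ℝ) ^ m / (s - z 0) ^ 2) := mul_nonneg hA0 (by positivity)
    calc A * ((1 / 4 : ℝ) ^ m / (288 * lam m j ^ 2)) =
          A * ((1 / 4 : ℝ) ^ m / (9 * lam m j ^ 2)) * (1 / 32) := by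
          rw [show (288 : ℝ) * lam m j ^ 2 = (9 * lam m j ^ 2) * 32 by ring, ← div_div]
          ring
      _ ≤ A * ((1 / 4 : ℝ) ^ m / (s - z 0) ^ 2) * (1 / 32) := by
          refine mul_le_mul_of_nonneg_right ?_ (by norm_num)
          exact mul_le_mul_of_nonneg_left h3 hA0
      _ ≤ _ := mul_le_mul_of_nonneg_left h2 h4
  have h5 : ∫ s in Set.Icc (0:ℝ) 1, A * ((1 / 4 : ℝ) ^ m / (288 * lam m j ^ 2)) ≤
      ∫ s in Set.Icc (0:ℝ) 1, ∫ b in Set.Icc (0:ℝ) (1 / 8), F (pt s b) :=
    setIntegral_mono_on (integrableOn_const (by simp)) e2 measurableSet_Icc hge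
  rw [setIntegral_const] at h5
  have h6 : DD m z = ∫ x in Q1, F x := rfl
  rw [h6, e1]
  refine le_trans (le_of_eq ?_) h5
  simp

/-- boxes on which both cut-offs equal one -/
def box (m j : ℕ) : Set E2 := {z | z 0 ∈ Set.Icc (-(3 / 2) * lam m j - lam m j / 100) (-(3 / 2) * lam m j) ∧
  z 1 ∈ Set.Icc (-(9 / 8) * (lam m j * (1 / 2) ^ m) - lam m j * (1 / 2) ^ m / 100)
    (-(9 / 8) * (lam m j * (1 / 2) ^ m))}

lemma measurableSet_box (m j : ℕ) : MeasurableSet (box m j) := by
  have h : box m j = eqv ⁻¹' ((Set.Icc (-(3 / 2) * lam m j - lam m j / 100) (-(3 / 2) * lam m j)) ×ˢ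
    (Set.Icc (-(9 / 8) * (lam m j * (1 / 2) ^ m) - lam m j * (1 / 2) ^ m / 100)
    (-(9 / 8) * (lam m j * (1 / 2) ^ m)))) := rfl
  rw [h]
  exact eqv.measurable (measurableSet_Icc.prod measurableSet_Icc)

lemma volume_box (m j : ℕ) : volume.real (box m j) = lam m j ^ 2 * (1 / 2) ^ m / 10000 := by
  have hl := lam_pos m j
  unfold Measure.real box
  rw [volume_rect, ENNReal.toReal_mul, ENNReal.toReal_ofReal, ENNReal.toReal_ofReal]
  · ring
  · have : (0:ℝ) < lam m j * (1 / 2) ^ m := by positivity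
    linarith
  · linarith

lemma box_spec {m j : ℕ} {z : E2} (hz : z ∈ box m j) :
    Good m j z ∧ chi m j (z 0) = 1 ∧ rho m (z 1 / z 0) = 1 := by
  obtain ⟨⟨h1, h2⟩, h3, h4⟩ := hz
  have hl := lam_pos m j
  have hpos : (0:ℝ) < (1 / 2) ^ m := by positivity
  set h : ℝ := (1 / 2) ^ m with hh
  have hz0 : z 0 < 0 := by linarith
  have hlh : 0 < lam m j * h := by positivity
  have hw1 : z 1 / z 0 ≤ (3 / 4) * h + h / 16 := by
    rw [div_le_iff_of_neg hz0]
    nlinarith
  have hw2 : (3 / 4) * h - h / 16 ≤ z 1 / z 0 := by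
    rw [le_div_iff_of_neg hz0]
    nlinarith
  have hw : |z 1 / z 0 - (3 / 4) * h| ≤ h / 16 := by
    rw [abs_le]; constructor <;> linarith
  refine ⟨⟨by linarith, by linarith, by linarith⟩, ?_, ?_⟩
  · apply ContDiffBump.one_of_mem_closedBall
    rw [mem_closedBall, Real.dist_eq]
    show |z 0 - -(3 / 2) * lam m j| ≤ lam m j / 4
    rw [abs_le]; constructor <;> linarith
  · apply ContDiffBump.one_of_mem_closedBall
    rw [mem_closedBall, Real.dist_eq]
    exact hw

lemma DD_ge {m : ℕ} (hm : 3 ≤ m) (z : E2) :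
    ∑ j ∈ Finset.range (16 ^ m), Set.indicator (box m j)
      (fun _ => (1 / 4 : ℝ) ^ m / (288 * lam m j ^ 2)) z ≤ DD m z := by
  by_cases h : ∃ j ∈ Finset.range (16 ^ m), z ∈ box m j
  · obtain ⟨j, hj, hzj⟩ := h
    obtain ⟨hg, hc, hr⟩ := box_spec hzj
    rw [Finset.sum_eq_single j]
    · rw [Set.indicator_of_mem hzj]
      have := DD_lower hm (Finset.mem_range.1 hj) hg
      rw [hc, hr, one_mul, one_mul] at this
      exact this
    · intro i _ hij
      refine Set.indicator_of_notMem (fun hzi => hij ?_) _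
      exact good_unique (box_spec hzi).1 hg
    · intro h; exact absurd hj h
  · rw [Finset.sum_eq_zero]
    · by_cases h2 : ∃ j < 16 ^ m, Good m j z
      · obtain ⟨j, hj, hg⟩ := h2
        refine le_trans ?_ (DD_lower hm hj hg)
        have h3 : 0 ≤ chi m j (z 0) * rho m (z 1 / z 0) :=
          mul_nonneg (ContDiffBump.nonneg _) (ContDiffBump.nonneg _)
        have := lam_pos m j
        positivity
      · have h4 : ∀ τ : ℝ → ℝ, tf τ m z = 0 := by
          intro τ
          by_contra hne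
          exact h2 (tf_ne_zero hne)
        unfold DD Ph
        simp [h4]
    · intro j hj
      exact Set.indicator_of_notMem (fun hz => h ⟨j, hj, hz⟩) _

lemma integrable_DD (m : ℕ) : Integrable (DD m) := by
  have h1 := (integrable_dPh Real.contDiff_cos Real.abs_cos_le_one m).add
    (integrable_dPh Real.contDiff_sin Real.abs_sin_le_one m)
  exact h1.integral_prod_right

lemma integral_DD_ge {m : ℕ} (hm : 3 ≤ m) : (2:ℝ) ^ m / 2880000 ≤ ∫ z, DD m z := by
  have hvol : ∀ j, volume (box m j) ≠ ⊤ := by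
    intro j
    unfold box
    rw [volume_rect]
    exact ENNReal.mul_ne_top ENNReal.ofReal_ne_top ENNReal.ofReal_ne_top
  have hint : ∀ j ∈ Finset.range (16 ^ m), Integrable (Set.indicator (box m j)
      (fun _ => (1 / 4 : ℝ) ^ m / (288 * lam m j ^ 2))) := by
    intro j _
    rw [integrable_indicator_iff (measurableSet_box m j)]
    exact integrableOn_const (hvol j)
  have h1 : ∫ z, ∑ j ∈ Finset.range (16 ^ m), Set.indicator (box m j)
      (fun _ => (1 / 4 : ℝ) ^ m / (288 * lam m j ^ 2)) z ≤ ∫ z, DD m z :=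
    integral_mono (integrable_finsetSum _ hint) (integrable_DD m) (DD_ge hm)
  refine le_trans (le_of_eq ?_) h1
  rw [integral_finsetSum _ hint]
  have h2 : ∀ j ∈ Finset.range (16 ^ m), ∫ z, Set.indicator (box m j)
      (fun _ => (1 / 4 : ℝ) ^ m / (288 * lam m j ^ 2)) z = (1 / 8) ^ m / 2880000 := by
    intro j _
    have hl := lam_pos m j
    rw [integral_indicator (measurableSet_box m j), setIntegral_const, volume_box, smul_eq_mul]
    have h3 : (1 / 8 : ℝ) ^ m = (1 / 2) ^ m * (1 / 4) ^ m := by rw [← mul_pow]; norm_num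
    rw [h3]
    field_simp
    ring
  rw [Finset.sum_congr rfl h2, Finset.sum_const, Finset.card_range, nsmul_eq_mul]
  push_cast
  have h3 : (16 : ℝ) ^ m * (1 / 8) ^ m = 2 ^ m := by rw [← mul_pow]; norm_num
  rw [← h3]; ring


lemma integrable_Ph_z {τ : ℝ → ℝ} (hτ : ContDiff ℝ 1 τ) (hτ1 : ∀ t, |τ t| ≤ 1) (m : ℕ) {x : E2}
    (hx : x ∈ QB) : Integrable (fun z => Ph τ m x z) := by
  have h1 : Measurable (fun z : E2 => Ph τ m x z) := by
    have h2 : Measurable (fun z : E2 => ker (prof τ) (x - z)) :=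
      (measurable_ker (measurable_prof hτ.continuous.measurable)).comp (measurable_const_sub x)
    exact ((contDiff_tf hτ m).continuous.measurable).mul h2
  have h3 : Integrable (fun z : E2 => Set.indicator (closedBall (0 : E2) (4 * lam m (16 ^ m)))
      (fun _ => (4:ℝ) ^ m) z) := by
    rw [integrable_indicator_iff measurableSet_closedBall]
    exact integrableOn_const measure_closedBall_lt_top.ne
  exact h3.mono' h1.aestronglyMeasurable (Eventually.of_forall (fun z => Ph_bound hτ1 m hx z))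

/-- the principal value near the origin -/
lemma pv_near {τ : ℝ → ℝ} (m : ℕ) {x : E2} (hx : x ∈ QB) {L : ℝ}
    (hL : Tendsto (fun ε : ℝ => ∫ y in {y : E2 | ε < ‖y‖}, ker (prof τ) y * tf τ m (x - y))
      (𝓝[>] 0) (𝓝 L)) : L = ∫ z, Ph τ m x z := by
  have h1 : ∀ ε : ℝ, ε < 1 → ∫ y in {y : E2 | ε < ‖y‖}, ker (prof τ) y * tf τ m (x - y) =
      ∫ z, Ph τ m x z := by
    intro ε hε
    rw [setIntegral_eq_integral_of_forall_compl_eq_zero]
    · rw [← integral_sub_left_eq_self (fun z => Ph τ m x z) volume x]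
      refine integral_congr_ae (Eventually.of_forall (fun y => ?_))
      simp only [Ph, sub_sub_cancel]
      ring
    · intro y hy
      have hy' : ‖y‖ ≤ ε := not_lt.1 hy
      have : tf τ m (x - y) = 0 := by
        by_contra hne
        obtain ⟨j, _, hg⟩ := tf_ne_zero hne
        have e : (x - y) 0 = x 0 - y 0 := rfl
        have h2 := hg.2.1
        rw [e] at h2
        have h3 := lam_ge' m j
        have h4 := abs_zero_le y
        have h5 := le_abs_self (y 0)
        have h6 := hx.1.1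
        linarith
      rw [this, mul_zero]
  have h2 : Tendsto (fun ε : ℝ => ∫ y in {y : E2 | ε < ‖y‖}, ker (prof τ) y * tf τ m (x - y))
      (𝓝[>] 0) (𝓝 (∫ z, Ph τ m x z)) := by
    refine tendsto_const_nhds.congr' ?_
    have : ∀ᶠ ε : ℝ in 𝓝[>] 0, ε < 1 := nhdsWithin_le_nhds (gt_mem_nhds one_pos)
    filter_upwards [this] with ε hε
    exact (h1 ε hε).symm
  exact tendsto_nhds_unique hL h2

lemma QB_sub_ball {x : E2} (hx : x ∈ QB) : x ∈ ball (0 : E2) 10 := by
  rw [mem_ball_zero_iff]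
  have h := norm_sq_E2 x
  obtain ⟨⟨h1, h2⟩, h3, h4⟩ := hx
  have h5 : x 0 ^ 2 ≤ 1 := by nlinarith
  have h6 : x 1 ^ 2 ≤ 25 := by nlinarith
  by_contra hc
  have := not_lt.1 hc
  nlinarith

/-- oscillation controls the difference functional -/
lemma osc_functional (g : E2 → ℝ) (C : ℝ) (hg : IntegrableOn g (ball 0 10))
    (hC : (⨍ x in ball (0 : E2) 10, |g x - ⨍ y in ball (0 : E2) 10, g y|) ≤ C) :
    ∫ x in Q1, (g x - g (x + av)) ≤ 2 * (volume.real (ball (0 : E2) 10) * C) := by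
  set c := ⨍ y in ball (0 : E2) 10, g y with hc
  set B := ball (0 : E2) 10 with hB
  have hBm : MeasurableSet B := measurableSet_ball
  have hBfin : volume B ≠ ⊤ := measure_ball_lt_top.ne
  have hG : IntegrableOn (fun x => |g x - c|) B := by
    have : IntegrableOn (fun x => g x - c) B := hg.sub (integrableOn_const hBfin)
    exact this.norm
  have hGi : Integrable (Set.indicator B (fun x => |g x - c|)) := by
    rw [integrable_indicator_iff hBm]; exact hG
  have hGi2 : Integrable (fun x => Set.indicator B (fun x => |g x - c|) (x + av)) :=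
    hGi.comp_add_right av
  have hBint : ∫ x, Set.indicator B (fun x => |g x - c|) x = volume.real B *
      (⨍ x in B, |g x - c|) := by
    rw [integral_indicator hBm, setAverage_eq, smul_eq_mul, ← mul_assoc, mul_inv_cancel₀, one_mul]
    rw [Measure.real, ENNReal.toReal_ne_zero]
    exact ⟨(measure_ball_pos volume 0 (by norm_num)).ne', hBfin⟩
  have h1 : ∀ x ∈ Q1, g x - g (x + av) ≤ Set.indicator B (fun x => |g x - c|) x +
      Set.indicator B (fun x => |g x - c|) (x + av) := by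
    intro x hx
    rw [Set.indicator_of_mem (QB_sub_ball (Q1_sub_QB hx)),
      Set.indicator_of_mem (QB_sub_ball (Q1_add_QB hx))]
    have h2 := le_abs_self (g x - c)
    have h3 := neg_abs_le (g (x + av) - c)
    linarith
  have hsum : Integrable (fun x => Set.indicator B (fun x => |g x - c|) x +
      Set.indicator B (fun x => |g x - c|) (x + av)) := hGi.add hGi2
  have hnn : ∀ x, 0 ≤ Set.indicator B (fun x => |g x - c|) x :=
    fun x => Set.indicator_nonneg (fun _ _ => abs_nonneg _) x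
  have hQ1g : IntegrableOn g Q1 := hg.mono_set (fun x hx => QB_sub_ball (Q1_sub_QB hx))
  have hQ1g2 : IntegrableOn (fun x => g (x + av)) Q1 := by
    have h5 : Integrable (Set.indicator B g) := by
      rw [integrable_indicator_iff hBm]; exact hg
    have h6 : Integrable (fun x => Set.indicator B g (x + av)) := h5.comp_add_right av
    refine (h6.integrableOn (s := Q1)).congr_fun ?_ measurableSet_Q1
    intro x hx
    simp only
    rw [Set.indicator_of_mem (QB_sub_ball (Q1_add_QB hx))]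
  calc ∫ x in Q1, (g x - g (x + av)) ≤ ∫ x in Q1, (Set.indicator B (fun x => |g x - c|) x +
        Set.indicator B (fun x => |g x - c|) (x + av)) :=
        setIntegral_mono_on (hQ1g.sub hQ1g2) hsum.integrableOn measurableSet_Q1 h1
    _ ≤ ∫ x, (Set.indicator B (fun x => |g x - c|) x +
        Set.indicator B (fun x => |g x - c|) (x + av)) :=
        setIntegral_le_integral hsum (Eventually.of_forall (fun x => add_nonneg (hnn _) (hnn _)))
    _ = 2 * ∫ x, Set.indicator B (fun x => |g x - c|) x := by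
        rw [integral_add hGi hGi2, integral_add_right_eq_self
          (fun x => Set.indicator B (fun x => |g x - c|) x) av]
        ring
    _ ≤ _ := by
        rw [hBint]
        have := measureReal_nonneg (μ := (volume : Measure E2)) (s := B)
        have h7 := mul_le_mul_of_nonneg_left hC this
        linarith

/-- the difference functional of the principal value -/
lemma functional_eq {τ : ℝ → ℝ} (hτ : ContDiff ℝ 1 τ) (hτ1 : ∀ t, |τ t| ≤ 1) (m : ℕ) (g : E2 → ℝ)
    (hg : ∀ x ∈ QB, g x = ∫ z, Ph τ m x z) :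
    ∫ x in Q1, (g x - g (x + av)) = ∫ z, ∫ x in Q1, (Ph τ m x z - Ph τ m (x + av) z) := by
  rw [← integral_integral_swap (integrable_dPh hτ hτ1 m)]
  refine setIntegral_congr_fun measurableSet_Q1 (fun x hx => ?_)
  rw [hg x (Q1_sub_QB hx), hg _ (Q1_add_QB hx),
    integral_sub (integrable_Ph_z hτ hτ1 m (Q1_sub_QB hx)) (integrable_Ph_z hτ hτ1 m (Q1_add_QB hx))]

end Pool.Agent.Helper107.RoughKernel
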