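import Mathlib

set_option autoImplicit false
open MeasureTheory Filter Topology Metric

namespace Pool.Agent.Helper107.Spike

abbrev E2 := EuclideanSpace ℝ (Fin 2)

lemma vol_ball (x : E2) (r : ℝ) (hr : 0 ≤ r) : volume.real (ball x r) = Real.pi * r ^ 2 := by
  rw [Measure.real, EuclideanSpace.volume_ball_fin_two, ENNReal.toReal_mul, ENNReal.toReal_pow,
    ENNReal.toReal_ofReal hr]
  rw [mul_comm]
  first
    | rfl
    | rw [ENNReal.toReal_ofReal Real.pi_pos.le]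

/-- logarithmic pile of balls at `x` -/
noncomputable def sp (K : ℕ) (ρ : ℝ) (x y : E2) : ℝ :=
  ∑ k ∈ Finset.range K, (4:ℝ) ^ k * Set.indicator (ball x (ρ / 2 ^ k)) (fun _ => (1:ℝ)) y

lemma sp_nonneg (K : ℕ) (ρ : ℝ) (x y : E2) : 0 ≤ sp K ρ x y :=
  Finset.sum_nonneg (fun k _ => mul_nonneg (by positivity)
    (Set.indicator_nonneg (fun _ _ => zero_le_one) _))

lemma sp_far {K : ℕ} {ρ : ℝ} (hρ : 0 < ρ) {x y : E2} (h : ρ ≤ dist y x) : sp K ρ x y = 0 := by
  unfold sp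
  refine Finset.sum_eq_zero (fun k _ => ?_)
  rw [Set.indicator_of_notMem, mul_zero]
  rw [mem_ball, not_lt]
  refine le_trans ?_ h
  exact div_le_self hρ.le (one_le_pow₀ (by norm_num))

lemma sp_near {K : ℕ} {ρ : ℝ} {x y : E2} {k : ℕ} (hk : k < K) (h : dist y x < ρ / 2 ^ k) :
    (4:ℝ) ^ k ≤ sp K ρ x y := by
  unfold sp
  have h1 : (4:ℝ) ^ k * Set.indicator (ball x (ρ / 2 ^ k)) (fun _ => (1:ℝ)) y = 4 ^ k := by
    rw [Set.indicator_of_mem (mem_ball.2 h), mul_one]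
  calc (4:ℝ) ^ k = (4:ℝ) ^ k * Set.indicator (ball x (ρ / 2 ^ k)) (fun _ => (1:ℝ)) y := h1.symm
    _ ≤ _ := Finset.single_le_sum
      (f := fun k => (4:ℝ) ^ k * Set.indicator (ball x (ρ / 2 ^ k)) (fun _ => (1:ℝ)) y)
      (fun k _ => mul_nonneg (by positivity) (Set.indicator_nonneg (fun _ _ => zero_le_one) _))
      (Finset.mem_range.2 hk)

lemma integrable_ind (x : E2) (r : ℝ) :
    Integrable (Set.indicator (ball x r) (fun _ => (1:ℝ))) := by
  rw [integrable_indicator_iff measurableSet_ball]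
  exact integrableOn_const measure_ball_lt_top.ne

lemma integrable_sp (K : ℕ) (ρ : ℝ) (x : E2) : Integrable (sp K ρ x) := by
  unfold sp
  exact integrable_finsetSum _ (fun k _ => (integrable_ind x _).const_mul _)

lemma measurable_sp (K : ℕ) (ρ : ℝ) (x : E2) : Measurable (sp K ρ x) := by
  unfold sp
  exact Finset.measurable_sum _ (fun k _ =>
    ((measurable_const.indicator measurableSet_ball).const_mul _))

/-- the key one-scale estimate -/
lemma scale_bound (ρ r : ℝ) (hρ : 0 < ρ) (_hr : 0 < r) (K : ℕ) (x y₀ : E2) (hy : dist y₀ x < 4 * r) :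
    ∀ k : ℕ, k < K → ρ / 2 ^ k < 2 * r → ρ ^ 2 ≤ 64 * r ^ 2 * (1 + sp K ρ x y₀) := by
  have hsp := sp_nonneg K ρ x y₀
  intro k
  induction k with
  | zero =>
    intro _ h
    rw [pow_zero, div_one] at h
    have h1 : ρ ^ 2 ≤ (2 * r) ^ 2 := pow_le_pow_left₀ hρ.le h.le 2
    nlinarith [sq_nonneg r, mul_nonneg (sq_nonneg r) hsp]
  | succ k ih =>
    intro hk h
    by_cases h2 : ρ / 2 ^ k < 2 * r
    · exact ih (by omega) h2
    · have h3 := not_lt.1 h2
      have hk2 : (0:ℝ) < 2 ^ k := by positivity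
      have h4 : ρ < 4 * r * 2 ^ k := by
        rw [div_lt_iff₀ (by positivity), pow_succ] at h
        linarith
      have h5 : ρ ^ 2 ≤ 16 * r ^ 2 * 4 ^ k := by
        have h6 := pow_le_pow_left₀ hρ.le h4.le 2
        have h7 : (4 * r * 2 ^ k) ^ 2 = 16 * r ^ 2 * 4 ^ k := by
          rw [mul_pow, mul_pow, ← pow_mul, mul_comm k 2, pow_mul]; norm_num
        rwa [h7] at h6
      rcases Nat.eq_zero_or_pos k with h0 | h0
      · subst h0
        rw [pow_zero, mul_one] at h5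
        nlinarith [sq_nonneg r, mul_nonneg (sq_nonneg r) hsp]
      · obtain ⟨j, rfl⟩ : ∃ j, k = j + 1 := ⟨k - 1, by omega⟩
        have h8 : dist y₀ x < ρ / 2 ^ j := by
          refine hy.trans_le ?_
          rw [pow_succ] at h3
          rw [le_div_iff₀ (by positivity)]
          rw [le_div_iff₀ (by positivity)] at h3
          linarith
        have h9 := sp_near (K := K) (by omega) h8
        have h11 : (4:ℝ) ^ (j + 1) = 4 ^ j * 4 := pow_succ _ _
        rw [h11] at h5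
        have h10 : r ^ 2 * 4 ^ j ≤ r ^ 2 * (1 + sp K ρ x y₀) :=
          mul_le_mul_of_nonneg_left (by linarith) (sq_nonneg r)
        linarith

lemma one_scale (ρ r : ℝ) (hρ : 0 < ρ) (hr : 0 < r) (K : ℕ) (x c y₀ : E2) (hy : y₀ ∈ ball c r)
    (k : ℕ) (hk : k < K) :
    (4:ℝ) ^ k * volume.real (ball c r ∩ ball x (ρ / 2 ^ k)) ≤
      64 * volume.real (ball c r) * (1 + sp K ρ x y₀) := by
  have hsp := sp_nonneg K ρ x y₀
  have hvol := vol_ball c r hr.le
  have hpi := Real.pi_pos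
  by_cases hne : (ball c r ∩ ball x (ρ / 2 ^ k)).Nonempty
  · obtain ⟨y₁, hy1, hy1'⟩ := hne
    rw [mem_ball] at hy hy1 hy1'
    have hd : dist y₀ x < ρ / 2 ^ k + 2 * r := by
      have h1 := dist_triangle y₀ y₁ x
      have h2 := dist_triangle y₀ c y₁
      rw [dist_comm c y₁] at h2
      linarith
    by_cases h2 : ρ / 2 ^ k < 2 * r
    · have h3 := scale_bound ρ r hρ hr K x y₀ (by linarith) k hk h2
      have h4 : volume.real (ball c r ∩ ball x (ρ / 2 ^ k)) ≤ Real.pi * (ρ / 2 ^ k) ^ 2 := by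
        rw [← vol_ball x (ρ / 2 ^ k) (by positivity)]
        exact measureReal_mono Set.inter_subset_right measure_ball_lt_top.ne
      have h5 : (4:ℝ) ^ k * (Real.pi * (ρ / 2 ^ k) ^ 2) = Real.pi * ρ ^ 2 := by
        rw [div_pow, ← pow_mul, mul_comm k 2, pow_mul]
        norm_num
        field_simp
      calc (4:ℝ) ^ k * volume.real (ball c r ∩ ball x (ρ / 2 ^ k)) ≤
            (4:ℝ) ^ k * (Real.pi * (ρ / 2 ^ k) ^ 2) := mul_le_mul_of_nonneg_left h4 (by positivity)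
        _ = Real.pi * ρ ^ 2 := h5
        _ ≤ Real.pi * (64 * r ^ 2 * (1 + sp K ρ x y₀)) := mul_le_mul_of_nonneg_left h3 hpi.le
        _ = _ := by rw [hvol]; ring
    · have h3 := not_lt.1 h2
      have h4 : volume.real (ball c r ∩ ball x (ρ / 2 ^ k)) ≤ volume.real (ball c r) :=
        measureReal_mono Set.inter_subset_left measure_ball_lt_top.ne
      have h5 : (4:ℝ) ^ k ≤ 4 * (1 + sp K ρ x y₀) := by
        rcases Nat.eq_zero_or_pos k with h0 | h0
        · subst h0; rw [pow_zero]; linarith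
        · obtain ⟨j, rfl⟩ : ∃ j, k = j + 1 := ⟨k - 1, by omega⟩
          have h6 : dist y₀ x < ρ / 2 ^ j := by
            have : ρ / 2 ^ j = 2 * (ρ / 2 ^ (j + 1)) := by rw [pow_succ]; field_simp
            linarith
          have h7 := sp_near (K := K) (by omega) h6
          rw [pow_succ]; linarith
      have h6 : 0 ≤ volume.real (ball c r) := measureReal_nonneg
      calc (4:ℝ) ^ k * volume.real (ball c r ∩ ball x (ρ / 2 ^ k)) ≤
            (4 * (1 + sp K ρ x y₀)) * volume.real (ball c r) := by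
            refine mul_le_mul h5 h4 measureReal_nonneg (by positivity)
        _ ≤ 64 * volume.real (ball c r) * (1 + sp K ρ x y₀) := by
            have : 0 ≤ volume.real (ball c r) * (1 + sp K ρ x y₀) := by positivity
            linarith
  · rw [Set.not_nonempty_iff_eq_empty] at hne
    rw [hne]
    simp only [measureReal_empty, mul_zero]
    positivity

lemma integral_sp_on (K : ℕ) (ρ : ℝ) (x : E2) (s : Set E2) :
    ∫ y in s, sp K ρ x y = ∑ k ∈ Finset.range K, (4:ℝ) ^ k * volume.real (s ∩ ball x (ρ / 2 ^ k)) := by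
  unfold sp
  rw [integral_finsetSum _ (fun k _ => ((integrable_ind x _).const_mul _).integrableOn)]
  refine Finset.sum_congr rfl (fun k _ => ?_)
  rw [integral_const_mul, integral_indicator measurableSet_ball, setIntegral_const, smul_eq_mul,
    mul_one, Measure.real, Measure.restrict_apply measurableSet_ball, Set.inter_comm]
  rfl

lemma sp_A1 (ρ r : ℝ) (hρ : 0 < ρ) (hr : 0 < r) (K : ℕ) (x c y₀ : E2) (hy : y₀ ∈ ball c r) :
    ∫ y in ball c r, sp K ρ x y ≤ 64 * K * volume.real (ball c r) * (1 + sp K ρ x y₀) := by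
  rw [integral_sp_on]
  refine (Finset.sum_le_sum (fun k hk => one_scale ρ r hρ hr K x c y₀ hy k
    (Finset.mem_range.1 hk))).trans (le_of_eq ?_)
  rw [Finset.sum_const, Finset.card_range, nsmul_eq_mul]
  ring

lemma integral_sp (K : ℕ) (ρ : ℝ) (hρ : 0 ≤ ρ) (x : E2) : ∫ y, sp K ρ x y = K * (Real.pi * ρ ^ 2) := by
  have h := integral_sp_on K ρ x Set.univ
  rw [setIntegral_univ] at h
  rw [h]
  have : ∀ k ∈ Finset.range K, (4:ℝ) ^ k * volume.real (Set.univ ∩ ball x (ρ / 2 ^ k)) =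
      Real.pi * ρ ^ 2 := by
    intro k _
    rw [Set.univ_inter, vol_ball x _ (by positivity), div_pow, ← pow_mul, mul_comm k 2, pow_mul]
    norm_num
    field_simp
  rw [Finset.sum_congr rfl this, Finset.sum_const, Finset.card_range, nsmul_eq_mul]


noncomputable def Us (K : ℕ) (ρ : ℝ) (X : Finset E2) (y : E2) : ℝ := 1 + ∑ x ∈ X, sp K ρ x y

lemma Us_ge_one (K : ℕ) (ρ : ℝ) (X : Finset E2) (y : E2) : 1 ≤ Us K ρ X y := by
  unfold Us
  have := Finset.sum_nonneg (fun x (_ : x ∈ X) => sp_nonneg K ρ x y)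
  linarith

lemma Us_pos (K : ℕ) (ρ : ℝ) (X : Finset E2) (y : E2) : 0 < Us K ρ X y :=
  lt_of_lt_of_le one_pos (Us_ge_one K ρ X y)

lemma measurable_Us (K : ℕ) (ρ : ℝ) (X : Finset E2) : Measurable (Us K ρ X) := by
  unfold Us
  exact measurable_const.add (Finset.measurable_sum _ (fun x _ => measurable_sp K ρ x))

lemma Us_integrableOn (K : ℕ) (ρ : ℝ) (X : Finset E2) (c : E2) (r : ℝ) :
    IntegrableOn (Us K ρ X) (ball c r) := by
  unfold Us
  refine Integrable.add ?_ ?_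
  · exact integrableOn_const measure_ball_lt_top.ne
  · exact (integrable_finsetSum _ (fun x _ => integrable_sp K ρ x)).integrableOn

lemma Us_eq_one {K : ℕ} {ρ : ℝ} (hρ : 0 < ρ) {X : Finset E2} {y : E2}
    (h : ∀ x ∈ X, ρ ≤ dist y x) : Us K ρ X y = 1 := by
  unfold Us
  rw [Finset.sum_eq_zero (fun x hx => sp_far hρ (h x hx)), add_zero]

lemma Us_eq_single {K : ℕ} {ρ : ℝ} (hρ : 0 < ρ) {X : Finset E2} {y p : E2} (hp : p ∈ X)
    (h : ∀ x ∈ X, x ≠ p → ρ ≤ dist y x) : Us K ρ X y = 1 + sp K ρ p y := by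
  unfold Us
  rw [Finset.sum_eq_single p (fun x hx hne => sp_far hρ (h x hx hne)) (fun h => absurd hp h)]

/-- the weight -/
noncomputable def wt (K : ℕ) (ρ : ℝ) (X Z : Finset E2) (y : E2) : ℝ := Us K ρ X y / Us K ρ Z y

lemma wt_pos (K : ℕ) (ρ : ℝ) (X Z : Finset E2) (y : E2) : 0 < wt K ρ X Z y :=
  div_pos (Us_pos _ _ _ _) (Us_pos _ _ _ _)

lemma wt_inv (K : ℕ) (ρ : ℝ) (X Z : Finset E2) (y : E2) : (wt K ρ X Z y)⁻¹ = wt K ρ Z X y := by
  unfold wt
  rw [inv_div]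

lemma wt_le (K : ℕ) (ρ : ℝ) (X Z : Finset E2) (y : E2) : wt K ρ X Z y ≤ Us K ρ X y :=
  div_le_self (Us_pos _ _ _ _).le (Us_ge_one _ _ _ _)

lemma measurable_wt (K : ℕ) (ρ : ℝ) (X Z : Finset E2) : Measurable (wt K ρ X Z) :=
  (measurable_Us K ρ X).div (measurable_Us K ρ Z)

lemma wt_integrableOn (K : ℕ) (ρ : ℝ) (X Z : Finset E2) (c : E2) (r : ℝ) :
    IntegrableOn (wt K ρ X Z) (ball c r) := by
  refine (Us_integrableOn K ρ X c r).mono' (measurable_wt K ρ X Z).aestronglyMeasurable ?_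
  refine Eventually.of_forall (fun y => ?_)
  rw [Real.norm_of_nonneg (wt_pos _ _ _ _ _).le]
  exact wt_le _ _ _ _ _

/-- packing -/
lemma packing (X : Finset E2) (hsep : ∀ p ∈ X, ∀ q ∈ X, p ≠ q → 1 ≤ dist p q) (c : E2) (R : ℝ)
    (hR : 0 < R) (hX : ∀ p ∈ X, dist p c < R) : (X.card : ℝ) ≤ 4 * (R + 1 / 2) ^ 2 := by
  have hdisj : (X : Set E2).PairwiseDisjoint (fun p => ball p (1/2)) := by
    intro p hp q hq hpq
    refine Set.disjoint_left.2 (fun y hy hy' => ?_)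
    have h1 := hsep p hp q hq hpq
    rw [mem_ball] at hy hy'
    have h2 := dist_triangle_left p q y
    linarith
  have h1 : volume.real (⋃ p ∈ X, ball p (1/2)) = ∑ p ∈ X, volume.real (ball p (1/2 : ℝ)) :=
    measureReal_biUnion_finset hdisj (fun p _ => measurableSet_ball)
      (fun p _ => measure_ball_lt_top.ne)
  have h2 : volume.real (⋃ p ∈ X, ball p (1/2)) ≤ volume.real (ball c (R + 1/2)) := by
    refine measureReal_mono ?_ measure_ball_lt_top.ne
    refine Set.iUnion₂_subset (fun p hp => ?_)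
    refine ball_subset_ball' ?_
    have := hX p hp
    linarith
  rw [h1, vol_ball c _ (by positivity)] at h2
  rw [Finset.sum_congr rfl (fun p _ => vol_ball p (1/2) (by norm_num)), Finset.sum_const,
    nsmul_eq_mul] at h2
  have hpi := Real.pi_pos
  have h3 : Real.pi * ((X.card : ℝ) / 4) ≤ Real.pi * (R + 1/2) ^ 2 := by
    calc Real.pi * ((X.card : ℝ) / 4) = (X.card : ℝ) * (Real.pi * (1/2) ^ 2) := by ring
      _ ≤ _ := h2
  have h4 := le_of_mul_le_mul_left h3 hpi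
  linarith

lemma int_one_add (c : E2) (r : ℝ) (g : E2 → ℝ) (hg : IntegrableOn g (ball c r)) :
    ∫ y in ball c r, (1 + g y) = volume.real (ball c r) + ∫ y in ball c r, g y := by
  have h1 : Integrable (fun _ : E2 => (1:ℝ)) (volume.restrict (ball c r)) :=
    integrableOn_const measure_ball_lt_top.ne
  have h2 := integral_add h1 hg
  rw [h2, setIntegral_const, smul_eq_mul, mul_one]

lemma int_Us_large (K : ℕ) (ρ : ℝ) (hρ : 0 < ρ) (hρ' : ρ ≤ 1/4) (X : Finset E2)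
    (hsep : ∀ p ∈ X, ∀ q ∈ X, p ≠ q → 1 ≤ dist p q) (c : E2) (r : ℝ) (hr : 1/8 ≤ r) :
    ∫ y in ball c r, Us K ρ X y ≤ (1 + 196 * K * ρ ^ 2) * volume.real (ball c r) := by
  classical
  have hr0 : 0 < r := by linarith
  set X' := X.filter (fun p => dist p c < r + 1/4) with hX'
  have hcard : (X'.card : ℝ) ≤ 196 * r ^ 2 := by
    have h1 := packing X' (fun p hp q hq h => hsep p (Finset.mem_filter.1 hp).1 q
      (Finset.mem_filter.1 hq).1 h) c (r + 1/4) (by linarith)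
      (fun p hp => (Finset.mem_filter.1 hp).2)
    have h2 : r + 1/4 + 1/2 ≤ 7 * r := by linarith
    have h3 : (r + 1/4 + 1/2) ^ 2 ≤ (7 * r) ^ 2 := pow_le_pow_left₀ (by linarith) h2 2
    nlinarith
  have hsum : ∀ p ∈ X, ∫ y in ball c r, sp K ρ p y ≤ if dist p c < r + 1/4 then K * (Real.pi * ρ ^ 2) else 0 := by
    intro p _
    split_ifs with h
    · rw [← integral_sp K ρ hρ.le p]
      exact setIntegral_le_integral (integrable_sp K ρ p)
        (Eventually.of_forall (fun y => sp_nonneg K ρ p y))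
    · refine le_of_eq ?_
      rw [setIntegral_congr_fun (g := fun _ => (0:ℝ)) measurableSet_ball]
      · simp
      · intro y hy
        rw [mem_ball] at hy
        refine sp_far hρ ?_
        have h1 := dist_triangle_left p c y
        rw [not_lt] at h
        linarith
  unfold Us
  rw [int_one_add c r _ (integrable_finsetSum _ (fun x _ => integrable_sp K ρ x)).integrableOn,
    integral_finsetSum _ (fun x _ => (integrable_sp K ρ x).integrableOn)]
  have h1 : ∑ p ∈ X, ∫ y in ball c r, sp K ρ p y ≤ X'.card * (K * (Real.pi * ρ ^ 2)) := by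
    refine (Finset.sum_le_sum hsum).trans (le_of_eq ?_)
    rw [← Finset.sum_filter, Finset.sum_const, nsmul_eq_mul]
  have h2 : (X'.card : ℝ) * (K * (Real.pi * ρ ^ 2)) ≤ (196 * r ^ 2) * (K * (Real.pi * ρ ^ 2)) :=
    mul_le_mul_of_nonneg_right hcard (by have := Real.pi_pos; positivity)
  have h3 : (196 * r ^ 2) * (K * (Real.pi * ρ ^ 2)) = (196 * K * ρ ^ 2) * volume.real (ball c r) := by
    rw [vol_ball c r hr0.le]; ring
  linarith

lemma A2_single (K : ℕ) (ρ : ℝ) (hρ : 0 < ρ) (p c : E2) (r : ℝ) (hr : 0 < r) :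
    (∫ y in ball c r, (1 + sp K ρ p y)) * (∫ y in ball c r, (1 + sp K ρ p y)⁻¹) ≤
      (64 * K + 1) * volume.real (ball c r) ^ 2 := by
  have hV : 0 ≤ volume.real (ball c r) := measureReal_nonneg
  have h1 : ∀ y₀ ∈ ball c r, ∫ y in ball c r, (1 + sp K ρ p y) ≤
      (64 * K + 1) * volume.real (ball c r) * (1 + sp K ρ p y₀) := by
    intro y₀ hy₀
    rw [int_one_add c r _ (integrable_sp K ρ p).integrableOn]
    have h2 := sp_A1 ρ r hρ hr K p c y₀ hy₀
    have h3 : 0 ≤ volume.real (ball c r) * sp K ρ p y₀ := mul_nonneg hV (sp_nonneg _ _ _ _)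
    nlinarith
  rw [← integral_const_mul]
  have h2 : ∫ y in ball c r, (∫ y in ball c r, (1 + sp K ρ p y)) * (1 + sp K ρ p y)⁻¹ ≤
      ∫ y in ball c r, (64 * K + 1) * volume.real (ball c r) := by
    refine setIntegral_mono_on ?_ (integrableOn_const measure_ball_lt_top.ne) measurableSet_ball ?_
    · refine Integrable.const_mul ?_ _
      refine Integrable.mono' (g := fun _ => (1:ℝ)) (integrableOn_const measure_ball_lt_top.ne)
        ((measurable_const.add (measurable_sp K ρ p)).inv).aestronglyMeasurable ?_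
      refine Eventually.of_forall (fun y => ?_)
      have := sp_nonneg K ρ p y
      rw [Real.norm_of_nonneg (by positivity)]
      exact inv_le_one_of_one_le₀ (by linarith)
    · intro y₀ hy₀
      have hpos : 0 < 1 + sp K ρ p y₀ := by have := sp_nonneg K ρ p y₀; linarith
      rw [← div_eq_mul_inv, div_le_iff₀ hpos]
      exact h1 y₀ hy₀
  refine h2.trans (le_of_eq ?_)
  rw [setIntegral_const, smul_eq_mul]
  ring

lemma A2_small (K : ℕ) (ρ : ℝ) (hρ : 0 < ρ) (hρ' : ρ ≤ 1/4) (X Z : Finset E2)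
    (hXZ : Disjoint X Z) (hsep : ∀ p ∈ X ∪ Z, ∀ q ∈ X ∪ Z, p ≠ q → 1 ≤ dist p q) (c : E2) (r : ℝ)
    (hr : 0 < r) (hr' : r < 1/8) (p : E2) (hp : p ∈ X) (hpc : dist p c < r + ρ) :
    (∫ y in ball c r, wt K ρ X Z y) * (∫ y in ball c r, (wt K ρ X Z y)⁻¹) ≤
      (64 * K + 1) * volume.real (ball c r) ^ 2 := by
  have hfar : ∀ q ∈ X ∪ Z, q ≠ p → ∀ y ∈ ball c r, ρ ≤ dist y q := by
    intro q hq hqp y hy
    have h1 := hsep q hq p (Finset.mem_union_left _ hp) hqp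
    rw [mem_ball] at hy
    have h2 := dist_triangle_left q p y
    have h3 := dist_triangle y c p
    rw [dist_comm c p] at h3
    linarith
  have h1 : ∀ y ∈ ball c r, wt K ρ X Z y = 1 + sp K ρ p y := by
    intro y hy
    unfold wt
    rw [Us_eq_single hρ hp (fun x hx hne => hfar x (Finset.mem_union_left _ hx) hne y hy),
      Us_eq_one hρ (fun z hz => hfar z (Finset.mem_union_right _ hz) (fun h => by
        subst h; exact Finset.disjoint_left.1 hXZ hp hz) y hy), div_one]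
  rw [setIntegral_congr_fun measurableSet_ball (g := fun y => 1 + sp K ρ p y) h1,
    setIntegral_congr_fun measurableSet_ball (f := fun y => (wt K ρ X Z y)⁻¹)
      (g := fun y => (1 + sp K ρ p y)⁻¹) (fun y hy => by
      show (wt K ρ X Z y)⁻¹ = _
      rw [h1 y hy])]
  exact A2_single K ρ hρ p c r hr

lemma A2_bound (K : ℕ) (ρ : ℝ) (hρ : 0 < ρ) (hρ' : ρ ≤ 1/4) (X Z : Finset E2)
    (hXZ : Disjoint X Z) (hsep : ∀ p ∈ X ∪ Z, ∀ q ∈ X ∪ Z, p ≠ q → 1 ≤ dist p q) (c : E2) (r : ℝ)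
    (hr : 0 < r) :
    (∫ y in ball c r, wt K ρ X Z y) * (∫ y in ball c r, (wt K ρ X Z y)⁻¹) ≤
      ((64 * K + 1) + (1 + 196 * K * ρ ^ 2) ^ 2) * volume.real (ball c r) ^ 2 := by
  have hV : 0 ≤ volume.real (ball c r) := measureReal_nonneg
  rcases lt_or_ge r (1/8) with h8 | h8
  · have hmain : (∫ y in ball c r, wt K ρ X Z y) * (∫ y in ball c r, (wt K ρ X Z y)⁻¹) ≤
      (64 * K + 1) * volume.real (ball c r) ^ 2 := by
      by_cases hx : ∃ p ∈ X, dist p c < r + ρ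
      · obtain ⟨p, hp, hpc⟩ := hx
        exact A2_small K ρ hρ hρ' X Z hXZ hsep c r hr h8 p hp hpc
      by_cases hz : ∃ p ∈ Z, dist p c < r + ρ
      · obtain ⟨p, hp, hpc⟩ := hz
        have h := A2_small K ρ hρ hρ' Z X hXZ.symm (by rw [Finset.union_comm]; exact hsep) c r hr
          h8 p hp hpc
        simp only [wt_inv] at h ⊢
        rw [mul_comm]
        exact h
      push Not at hx hz
      have hfar : ∀ q : E2, r + ρ ≤ dist q c → ∀ y ∈ ball c r, ρ ≤ dist y q := by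
        intro q hq y hy
        rw [mem_ball] at hy
        have h1 := dist_triangle_left q c y
        linarith
      have h1 : ∀ y ∈ ball c r, wt K ρ X Z y = 1 := by
        intro y hy
        unfold wt
        rw [Us_eq_one hρ (fun x hxm => hfar x (hx x hxm) y hy),
          Us_eq_one hρ (fun x hxm => hfar x (hz x hxm) y hy), div_one]
      rw [setIntegral_congr_fun measurableSet_ball (g := fun y => (1:ℝ)) h1,
        setIntegral_congr_fun measurableSet_ball (f := fun y => (wt K ρ X Z y)⁻¹)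
          (g := fun y => (1:ℝ)) (fun y hy => by
          show (wt K ρ X Z y)⁻¹ = _
          rw [h1 y hy, inv_one])]
      rw [setIntegral_const, smul_eq_mul, mul_one]
      have : 0 ≤ 64 * (K:ℝ) * volume.real (ball c r) ^ 2 := by positivity
      nlinarith
    have : 0 ≤ (1 + 196 * K * ρ ^ 2) ^ 2 * volume.real (ball c r) ^ 2 := by positivity
    linarith
  · have h1 : ∫ y in ball c r, wt K ρ X Z y ≤ (1 + 196 * K * ρ ^ 2) * volume.real (ball c r) :=
      (setIntegral_mono (wt_integrableOn K ρ X Z c r) (Us_integrableOn K ρ X c r)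
        (fun y => wt_le K ρ X Z y)).trans
      (int_Us_large K ρ hρ hρ' X (fun p hp q hq => hsep p (Finset.mem_union_left _ hp) q
        (Finset.mem_union_left _ hq)) c r h8)
    have h2 : ∫ y in ball c r, (wt K ρ X Z y)⁻¹ ≤ (1 + 196 * K * ρ ^ 2) * volume.real (ball c r) := by
      simp only [wt_inv]
      exact (setIntegral_mono (wt_integrableOn K ρ Z X c r) (Us_integrableOn K ρ Z c r)
        (fun y => wt_le K ρ Z X y)).trans
        (int_Us_large K ρ hρ hρ' Z (fun p hp q hq => hsep p (Finset.mem_union_right _ hp) q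
        (Finset.mem_union_right _ hq)) c r h8)
    have h3 : 0 ≤ ∫ y in ball c r, (wt K ρ X Z y)⁻¹ :=
      setIntegral_nonneg measurableSet_ball (fun y _ => (inv_pos.2 (wt_pos _ _ _ _ _)).le)
    have h4 : (∫ y in ball c r, wt K ρ X Z y) * (∫ y in ball c r, (wt K ρ X Z y)⁻¹) ≤
      ((1 + 196 * K * ρ ^ 2) * volume.real (ball c r)) *
        ((1 + 196 * K * ρ ^ 2) * volume.real (ball c r)) :=
      mul_le_mul h1 h2 h3 (by positivity)
    have h5 : 0 ≤ (64 * (K:ℝ) + 1) * volume.real (ball c r) ^ 2 := by positivity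
    linarith [h4, h5, (by ring : ((1 + 196 * K * ρ ^ 2) * volume.real (ball c r)) *
        ((1 + 196 * K * ρ ^ 2) * volume.real (ball c r)) = (1 + 196 * K * ρ ^ 2) ^ 2 *
          volume.real (ball c r) ^ 2)]


lemma norm_sq_E2 (x : E2) : ‖x‖ ^ 2 = x 0 ^ 2 + x 1 ^ 2 := by
  rw [EuclideanSpace.norm_sq_eq, Fin.sum_univ_two]
  simp [sq_abs]

/-- rotation by 90 degrees as a linear map -/
noncomputable def RotL : E2 →ₗ[ℝ] E2 where
  toFun y := !₂[-(y 1), y 0]
  map_add' x y := by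
    ext i
    fin_cases i
    · simp; ring
    · simp
  map_smul' c x := by
    ext i
    fin_cases i <;> simp

lemma RotL_zero (y : E2) : RotL y 0 = - y 1 := rfl
lemma RotL_one (y : E2) : RotL y 1 = y 0 := rfl

noncomputable def RotI : E2 →ₗᵢ[ℝ] E2 where
  toLinearMap := RotL
  norm_map' y := by
    have h : ‖RotL y‖ ^ 2 = ‖y‖ ^ 2 := by
      rw [norm_sq_E2, norm_sq_E2, RotL_zero, RotL_one]; ring
    exact (pow_left_inj₀ (norm_nonneg _) (norm_nonneg _) two_ne_zero).1 h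

noncomputable def Rot : E2 ≃ₗᵢ[ℝ] E2 := RotI.toLinearIsometryEquiv rfl

@[simp] lemma Rot_zero (y : E2) : Rot y 0 = - y 1 := rfl
@[simp] lemma Rot_one (y : E2) : Rot y 1 = y 0 := rfl

lemma Rot_Rot (y : E2) : Rot (Rot y) = -y := by
  ext i
  fin_cases i
  · show Rot (Rot y) 0 = (-y) 0
    simp
  · show Rot (Rot y) 1 = (-y) 1
    simp

lemma Rot_smul (t : ℝ) (y : E2) : Rot (t • y) = t • Rot y := map_smul Rot t y

lemma norm_sub_Rot (y : E2) : ‖y - Rot y‖ ≤ 2 * ‖y‖ := by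
  have h := norm_sub_le y (Rot y)
  rw [Rot.norm_map] at h
  linarith

/-- change of variables on annuli complement -/
lemma setIntegral_Rot (F : E2 → ℝ) (s : Set E2) (hs : ∀ y, Rot y ∈ s ↔ y ∈ s) :
    ∫ y in s, F (Rot y) = ∫ y in s, F y := by
  have h := Rot.measurePreserving.setIntegral_preimage_emb
    Rot.toHomeomorph.measurableEmbedding F s
  have h2 : (Rot ⁻¹' s : Set E2) = s := by
    ext y; exact hs y
  rw [h2] at h
  exact h

lemma mean_zero_Rot (Ω : E2 → ℝ) (hΩ : ∀ y, Ω (Rot y) = - Ω y) (s : Set E2)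
    (hs : ∀ y, Rot y ∈ s ↔ y ∈ s) : ∫ y in s, Ω y = 0 := by
  have h := setIntegral_Rot Ω s hs
  simp only [hΩ] at h
  rw [integral_neg] at h
  linarith

/-- integrable majorant -/
lemma integrable_of_bound (G : E2 → ℝ) (hG : Measurable G) (L R : ℝ) (hb : ∀ y, |G y| ≤ L * ‖y‖⁻¹)
    (h0 : ∀ y, R ≤ ‖y‖ → G y = 0) : Integrable G := by
  have hfin : Module.finrank ℝ E2 = 2 := by simp
  have h1 : IntegrableOn G (ball 0 R) := by
    refine integrableOn_ball_of_norm_le_rpow (C := L) (α := 1) ?_ ?_ ?_ hG.aestronglyMeasurable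
    · rw [hfin]; norm_num
    · rw [hfin]; norm_num
    · refine Eventually.of_forall (fun y => ?_)
      rw [Real.norm_eq_abs, Real.rpow_neg_one]
      exact hb y
  rwa [integrableOn_iff_integrable_of_support_subset] at h1
  intro y hy
  rw [mem_ball_zero_iff]
  by_contra h
  exact hy (h0 y (not_lt.1 h))

/-- existence of principal values -/
lemma pv_exists_Rot (Ω : E2 → ℝ) (hΩm : Measurable Ω) (M : ℝ) (hΩb : ∀ y, |Ω y| ≤ M)
    (hΩ : ∀ y, Ω (Rot y) = - Ω y) (f : E2 → ℝ) (L : ℝ) (hL : ∀ x y, |f x - f y| ≤ L * ‖x - y‖)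
    (hf : HasCompactSupport f) (x : E2) :
    ∃ t : ℝ, Tendsto (fun ε : ℝ => ∫ y in {y : E2 | ε < ‖y‖}, f (x - y) * Ω y / ‖y‖ ^ 2)
      (𝓝[>] 0) (𝓝 t) := by
  have hM : 0 ≤ M := (abs_nonneg _).trans (hΩb 0)
  have hfc : Continuous f := by
    have hL0 : 0 ≤ L := by
      by_contra hneg
      push Not at hneg
      have h1 := hL (!₂[1,0]) 0
      have h2 : ‖((!₂[1,0] : E2) - 0)‖ = 1 := by
        rw [sub_zero]
        have : ‖(!₂[1,0] : E2)‖ ^ 2 = 1 := by rw [norm_sq_E2]; simp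
        nlinarith [norm_nonneg (!₂[1,0] : E2)]
      rw [h2] at h1
      have := abs_nonneg (f (!₂[1,0]) - f 0)
      linarith
    have : LipschitzWith ⟨L, hL0⟩ f := by
      refine LipschitzWith.of_dist_le_mul (fun a b => ?_)
      rw [Real.dist_eq, dist_eq_norm]
      exact hL a b
    exact this.continuous
  obtain ⟨R, hRpos, hR⟩ : ∃ R : ℝ, 0 < R ∧ ∀ y, R ≤ ‖y‖ → f (x - y) = 0 := by
    obtain ⟨R, hR⟩ := hf.isCompact.isBounded.exists_norm_le
    refine ⟨max R 0 + ‖x‖ + 1, by positivity, fun y hy => ?_⟩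
    by_contra hne
    have h1 := hR (x - y) (subset_tsupport _ hne)
    have h2 : ‖y‖ ≤ ‖x‖ + ‖x - y‖ := by
      have := norm_sub_le x (x - y)
      rwa [sub_sub_cancel] at this
    have := le_max_left R 0
    linarith
  set g : E2 → ℝ := fun y => f (x - y) * Ω y / ‖y‖ ^ 2 with hg
  set G : E2 → ℝ := fun y => (f (x - y) - f (x - Rot y)) * Ω y / ‖y‖ ^ 2 / 2 with hG
  have hRotc : Continuous Rot := Rot.continuous
  have hGm : Measurable G := by
    have h1 : Measurable (fun y => f (x - y)) := (hfc.comp (continuous_const.sub continuous_id)).measurable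
    have h2 : Measurable (fun y => f (x - Rot y)) :=
      (hfc.comp (continuous_const.sub hRotc)).measurable
    exact (((h1.sub h2).mul hΩm).div (measurable_norm.pow_const 2)).div_const 2
  have hgm : Measurable g := by
    have h1 : Measurable (fun y => f (x - y)) := (hfc.comp (continuous_const.sub continuous_id)).measurable
    exact ((h1.mul hΩm).div (measurable_norm.pow_const 2))
  have hGint : Integrable G := by
    refine integrable_of_bound G hGm (L * M) R (fun y => ?_) (fun y hy => ?_)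
    · simp only [hG]
      rcases eq_or_ne y 0 with h0 | h0
      · subst h0; simp
      have hn : 0 < ‖y‖ := norm_pos_iff.2 h0
      rw [abs_div, abs_div, abs_mul, abs_of_pos (show (0:ℝ) < ‖y‖ ^ 2 by positivity),
        abs_of_pos (show (0:ℝ) < 2 by norm_num)]
      have h1 : |f (x - y) - f (x - Rot y)| ≤ L * (2 * ‖y‖) := by
        refine (hL _ _).trans ?_
        have h2 : x - y - (x - Rot y) = -(y - Rot y) := by abel
        rw [h2, norm_neg]
        have hL0 : 0 ≤ L := by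
          have h3 := hL (!₂[1,0]) 0
          have h4 : ‖((!₂[1,0] : E2) - 0)‖ = 1 := by
            rw [sub_zero]
            have : ‖(!₂[1,0] : E2)‖ ^ 2 = 1 := by rw [norm_sq_E2]; simp
            nlinarith [norm_nonneg (!₂[1,0] : E2)]
          rw [h4] at h3
          have := abs_nonneg (f (!₂[1,0]) - f 0)
          linarith
        exact mul_le_mul_of_nonneg_left (norm_sub_Rot y) hL0
      have h2 : |f (x - y) - f (x - Rot y)| * |Ω y| ≤ L * (2 * ‖y‖) * M :=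
        mul_le_mul h1 (hΩb y) (abs_nonneg _) ((abs_nonneg _).trans h1)
      calc |f (x - y) - f (x - Rot y)| * |Ω y| / ‖y‖ ^ 2 / 2 ≤ L * (2 * ‖y‖) * M / ‖y‖ ^ 2 / 2 := by
            gcongr
        _ = L * M * ‖y‖⁻¹ := by field_simp
    · simp only [hG]
      rw [hR y hy, hR (Rot y) (by rw [Rot.norm_map]; exact hy)]
      simp
  have hgint : ∀ ε : ℝ, 0 < ε → IntegrableOn g {y : E2 | ε < ‖y‖} := by
    intro ε hε
    obtain ⟨B, hB⟩ := hfc.bounded_above_of_compact_support hf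
    have hB0 : 0 ≤ B := (norm_nonneg _).trans (hB 0)
    have h1 : IntegrableOn (fun _ : E2 => B * M / ε ^ 2) (ball (0:E2) R ∩ {y : E2 | ε < ‖y‖}) :=
      integrableOn_const ((measure_mono Set.inter_subset_left).trans_lt measure_ball_lt_top).ne
    have hms : MeasurableSet {y : E2 | ε < ‖y‖} := measurableSet_lt measurable_const measurable_norm
    have h2 : IntegrableOn g (ball (0:E2) R ∩ {y : E2 | ε < ‖y‖}) := by
      refine h1.mono' hgm.aestronglyMeasurable ?_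
      refine (ae_restrict_iff' (measurableSet_ball.inter hms)).2 (Eventually.of_forall (fun y hy => ?_))
      have hy2 : ε < ‖y‖ := hy.2
      simp only [hg]
      rw [norm_div, norm_mul, norm_pow, norm_norm]
      have h3 := hB (x - y)
      have h4 : ‖Ω y‖ ≤ M := hΩb y
      gcongr
    have h5 : IntegrableOn g (ball (0:E2) R) (volume.restrict {y : E2 | ε < ‖y‖}) := by
      rw [IntegrableOn, Measure.restrict_restrict measurableSet_ball]
      exact h2
    refine (integrableOn_iff_integrable_of_support_subset ?_).1 h5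
    intro y hy
    rw [mem_ball_zero_iff]
    by_contra h
    refine hy ?_
    simp only [hg]
    rw [hR y (not_lt.1 h)]; simp
  have hset : ∀ (ε : ℝ) (y : E2), Rot y ∈ {y : E2 | ε < ‖y‖} ↔ y ∈ {y : E2 | ε < ‖y‖} := by
    intro ε y
    simp only [Set.mem_ofPred_eq, Rot.norm_map]
  have hms : ∀ ε : ℝ, MeasurableSet {y : E2 | ε < ‖y‖} := fun ε =>
    measurableSet_lt measurable_const measurable_norm
  have hsym : ∀ ε : ℝ, 0 < ε → ∫ y in {y : E2 | ε < ‖y‖}, g y = ∫ y in {y : E2 | ε < ‖y‖}, G y := by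
    intro ε hε
    have h1 := setIntegral_Rot g {y : E2 | ε < ‖y‖} (hset ε)
    have h2 : IntegrableOn (fun y => g (Rot y)) {y : E2 | ε < ‖y‖} := by
      have h3 := (Rot.measurePreserving.integrableOn_comp_preimage
        Rot.toHomeomorph.measurableEmbedding (f := g) (s := {y : E2 | ε < ‖y‖})).2 (hgint ε hε)
      have h4 : (Rot ⁻¹' {y : E2 | ε < ‖y‖} : Set E2) = {y : E2 | ε < ‖y‖} := by
        ext y; exact hset ε y
      rw [h4] at h3
      exact h3
    have h3 : ∀ y, G y = (g y + g (Rot y)) / 2 := by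
      intro y
      simp only [hG, hg, hΩ, Rot.norm_map]
      ring
    simp only [h3]
    rw [integral_div, integral_add (hgint ε hε) h2, h1]
    ring
  refine ⟨∫ y, G y, ?_⟩
  have hcongr : (fun ε : ℝ => ∫ y in {y : E2 | ε < ‖y‖}, G y) =ᶠ[𝓝[>] 0]
      (fun ε : ℝ => ∫ y in {y : E2 | ε < ‖y‖}, g y) := by
    filter_upwards [self_mem_nhdsWithin] with ε hε
    exact (hsym ε hε).symm
  refine Tendsto.congr' hcongr ?_
  have hind : (fun ε : ℝ => ∫ y in {y : E2 | ε < ‖y‖}, G y) =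
      (fun ε : ℝ => ∫ y, Set.indicator {y : E2 | ε < ‖y‖} G y) := by
    funext ε
    rw [integral_indicator (hms ε)]
  rw [hind]
  refine tendsto_integral_filter_of_dominated_convergence (fun y => ‖G y‖) ?_ ?_ hGint.norm ?_
  · exact Eventually.of_forall (fun ε => (hGm.indicator (hms ε)).aestronglyMeasurable)
  · exact Eventually.of_forall (fun ε => Eventually.of_forall (fun y => norm_indicator_le_norm_self _ _))
  · refine Eventually.of_forall (fun y => ?_)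
    rcases eq_or_ne y 0 with h0 | h0
    · subst h0
      have : ∀ ε : ℝ, Set.indicator {y : E2 | ε < ‖y‖} G 0 = G 0 := by
        intro ε
        have hG0 : G 0 = 0 := by simp [hG]
        rw [hG0]
        by_cases h : (0:E2) ∈ {y : E2 | ε < ‖y‖}
        · rw [Set.indicator_of_mem h, hG0]
        · rw [Set.indicator_of_notMem h]
      simp only [this]
      exact tendsto_const_nhds
    · have hn : 0 < ‖y‖ := norm_pos_iff.2 h0
      refine tendsto_const_nhds.congr' ?_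
      filter_upwards [Ioo_mem_nhdsGT hn] with ε hε
      rw [Set.indicator_of_mem]
      exact hε.2


lemma vol_closedBall (x : E2) (r : ℝ) (hr : 0 ≤ r) :
    volume.real (closedBall x r) = Real.pi * r ^ 2 := by
  rw [← vol_ball x r hr, Measure.real, Measure.real, Measure.addHaar_closedBall_eq_addHaar_ball]

noncomputable def bmp (ρ : ℝ) (hρ : 0 < ρ) (k : ℕ) (z : E2) : ContDiffBump z where
  rIn := ρ / 2 ^ (k + 1)
  rOut := ρ / 2 ^ k
  rIn_pos := by positivity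
  rIn_lt_rOut := by
    rw [pow_succ]
    have h2 : (0:ℝ) < 2 ^ k := by positivity
    rw [div_lt_div_iff₀ (by positivity) (by positivity)]
    nlinarith

noncomputable def Fz (m : ℕ) (ρ : ℝ) (hρ : 0 < ρ) (z y : E2) : ℝ :=
  ∑ k ∈ Finset.Ico m (2 * m), (4:ℝ) ^ k * bmp ρ hρ k z y

lemma Fz_nonneg (m : ℕ) (ρ : ℝ) (hρ : 0 < ρ) (z y : E2) : 0 ≤ Fz m ρ hρ z y :=
  Finset.sum_nonneg (fun k _ => mul_nonneg (by positivity) (bmp ρ hρ k z).nonneg)

lemma bmp_le_ind (ρ : ℝ) (hρ : 0 < ρ) (k : ℕ) (z y : E2) :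
    bmp ρ hρ k z y ≤ Set.indicator (ball z (ρ / 2 ^ k)) (fun _ => (1:ℝ)) y := by
  by_cases h : y ∈ ball z (ρ / 2 ^ k)
  · rw [Set.indicator_of_mem h]
    exact (bmp ρ hρ k z).le_one
  · rw [Set.indicator_of_notMem h]
    rw [mem_ball, not_lt] at h
    exact ((bmp ρ hρ k z).zero_of_le_dist h).le

lemma Fz_le_sp (m : ℕ) (ρ : ℝ) (hρ : 0 < ρ) (z y : E2) : Fz m ρ hρ z y ≤ sp (2 * m) ρ z y := by
  unfold Fz sp
  calc ∑ k ∈ Finset.Ico m (2 * m), (4:ℝ) ^ k * bmp ρ hρ k z y ≤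
      ∑ k ∈ Finset.Ico m (2 * m), (4:ℝ) ^ k * Set.indicator (ball z (ρ / 2 ^ k)) (fun _ => (1:ℝ)) y :=
        Finset.sum_le_sum (fun k _ => mul_le_mul_of_nonneg_left (bmp_le_ind ρ hρ k z y) (by positivity))
    _ ≤ _ := by
        refine Finset.sum_le_sum_of_subset_of_nonneg ?_ (fun k _ _ => mul_nonneg (by positivity)
          (Set.indicator_nonneg (fun _ _ => zero_le_one) _))
        intro k hk
        exact Finset.mem_range.2 (Finset.mem_Ico.1 hk).2

lemma Fz_zero {m : ℕ} {ρ : ℝ} (hρ : 0 < ρ) {z y : E2} (h : ρ / 2 ^ m ≤ dist y z) :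
    Fz m ρ hρ z y = 0 := by
  unfold Fz
  refine Finset.sum_eq_zero (fun k hk => ?_)
  rw [(bmp ρ hρ k z).zero_of_le_dist, mul_zero]
  refine le_trans ?_ h
  show ρ / 2 ^ k ≤ ρ / 2 ^ m
  have hmk := (Finset.mem_Ico.1 hk).1
  gcongr
  norm_num

lemma Fz_contDiff (m : ℕ) (ρ : ℝ) (hρ : 0 < ρ) (z : E2) : ContDiff ℝ (⊤ : ℕ∞) (Fz m ρ hρ z) := by
  unfold Fz
  exact ContDiff.sum (fun k _ => contDiff_const.mul (bmp ρ hρ k z).contDiff)

lemma Fz_compact (m : ℕ) (ρ : ℝ) (hρ : 0 < ρ) (z : E2) : HasCompactSupport (Fz m ρ hρ z) := by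
  refine HasCompactSupport.intro (isCompact_closedBall z (ρ / 2 ^ m)) (fun y hy => ?_)
  refine Fz_zero hρ ?_
  rw [mem_closedBall, not_le] at hy
  exact hy.le

lemma Fz_integrable (m : ℕ) (ρ : ℝ) (hρ : 0 < ρ) (z : E2) : Integrable (Fz m ρ hρ z) :=
  (Fz_contDiff m ρ hρ z).continuous.integrable_of_hasCompactSupport (Fz_compact m ρ hρ z)

lemma pow_four_scale (ρ : ℝ) (k : ℕ) : (4:ℝ) ^ k * (Real.pi * (ρ / 2 ^ k) ^ 2) = Real.pi * ρ ^ 2 := by
  rw [div_pow, ← pow_mul, mul_comm k 2, pow_mul]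
  norm_num
  field_simp

lemma Fz_int_le (m : ℕ) (ρ : ℝ) (hρ : 0 < ρ) (z : E2) :
    ∫ y, Fz m ρ hρ z y ≤ m * (Real.pi * ρ ^ 2) := by
  unfold Fz
  rw [integral_finsetSum _ (fun k _ => (bmp ρ hρ k z).integrable.const_mul _)]
  have : ∀ k ∈ Finset.Ico m (2 * m), ∫ y, (4:ℝ) ^ k * bmp ρ hρ k z y ≤ Real.pi * ρ ^ 2 := by
    intro k _
    rw [integral_const_mul, ← pow_four_scale ρ k]
    refine mul_le_mul_of_nonneg_left ?_ (by positivity)
    have h := (bmp ρ hρ k z).integral_le_measure_closedBall volume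
    rw [show (bmp ρ hρ k z).rOut = ρ / 2 ^ k from rfl, vol_closedBall z _ (by positivity)] at h
    exact h
  refine (Finset.sum_le_sum this).trans (le_of_eq ?_)
  rw [Finset.sum_const, Nat.card_Ico, nsmul_eq_mul]
  congr 2
  omega

lemma Fz_int_ge (m : ℕ) (ρ : ℝ) (hρ : 0 < ρ) (z : E2) :
    m * (Real.pi * ρ ^ 2) / 4 ≤ ∫ y, Fz m ρ hρ z y := by
  unfold Fz
  rw [integral_finsetSum _ (fun k _ => (bmp ρ hρ k z).integrable.const_mul _)]
  have : ∀ k ∈ Finset.Ico m (2 * m), Real.pi * ρ ^ 2 / 4 ≤ ∫ y, (4:ℝ) ^ k * bmp ρ hρ k z y := by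
    intro k _
    have h0 : Real.pi * ρ ^ 2 / 4 = (4:ℝ) ^ k * (Real.pi * (ρ / 2 ^ (k + 1)) ^ 2) := by
      have h1 := pow_four_scale ρ (k + 1)
      have h2 : (4:ℝ) ^ (k + 1) = 4 ^ k * 4 := pow_succ _ _
      rw [h2] at h1
      linarith
    rw [integral_const_mul, h0]
    refine mul_le_mul_of_nonneg_left ?_ (by positivity)
    have h := (bmp ρ hρ k z).measure_closedBall_le_integral volume
    rw [show (bmp ρ hρ k z).rIn = ρ / 2 ^ (k + 1) from rfl, vol_closedBall z _ (by positivity)] at h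
    exact h
  refine le_trans (le_of_eq ?_) (Finset.sum_le_sum this)
  rw [Finset.sum_const, Nat.card_Ico, nsmul_eq_mul]
  have : 2 * m - m = m := by omega
  rw [this]
  ring

noncomputable def ft (m : ℕ) (ρ : ℝ) (hρ : 0 < ρ) (Z : Finset E2) (y : E2) : ℝ :=
  ∑ z ∈ Z, Fz m ρ hρ z y

lemma ft_contDiff (m : ℕ) (ρ : ℝ) (hρ : 0 < ρ) (Z : Finset E2) :
    ContDiff ℝ (⊤ : ℕ∞) (ft m ρ hρ Z) := by
  unfold ft
  exact ContDiff.sum (fun z _ => Fz_contDiff m ρ hρ z)

lemma ft_nonneg (m : ℕ) (ρ : ℝ) (hρ : 0 < ρ) (Z : Finset E2) (y : E2) : 0 ≤ ft m ρ hρ Z y :=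
  Finset.sum_nonneg (fun z _ => Fz_nonneg m ρ hρ z y)

lemma ft_compact (m : ℕ) (ρ : ℝ) (hρ : 0 < ρ) (Z : Finset E2) :
    HasCompactSupport (ft m ρ hρ Z) := by
  refine HasCompactSupport.intro
    (Z.isCompact_biUnion (fun z _ => isCompact_closedBall z (ρ / 2 ^ m))) (fun y hy => ?_)
  refine Finset.sum_eq_zero (fun z hz => ?_)
  refine Fz_zero hρ ?_
  have h : y ∉ closedBall z (ρ / 2 ^ m) := fun h => hy (Set.mem_biUnion hz h)
  rw [mem_closedBall, not_le] at h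
  exact h.le

lemma ft_integrable (m : ℕ) (ρ : ℝ) (hρ : 0 < ρ) (Z : Finset E2) : Integrable (ft m ρ hρ Z) :=
  (ft_contDiff m ρ hρ Z).continuous.integrable_of_hasCompactSupport (ft_compact m ρ hρ Z)

lemma ft_int_le (m : ℕ) (ρ : ℝ) (hρ : 0 < ρ) (Z : Finset E2) :
    ∫ y, ft m ρ hρ Z y ≤ Z.card * (m * (Real.pi * ρ ^ 2)) := by
  unfold ft
  rw [integral_finsetSum _ (fun z _ => Fz_integrable m ρ hρ z)]
  refine (Finset.sum_le_sum (fun z _ => Fz_int_le m ρ hρ z)).trans (le_of_eq ?_)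
  rw [Finset.sum_const, nsmul_eq_mul]

lemma div_pow_le (ρ : ℝ) (hρ : 0 < ρ) (m : ℕ) : ρ / 2 ^ m ≤ ρ :=
  div_le_self hρ.le (one_le_pow₀ (by norm_num))

/-- separation consequence -/
lemma far_of_near {ρ : ℝ} (hρ' : ρ ≤ 1/4) {S : Finset E2}
    (hsep : ∀ p ∈ S, ∀ q ∈ S, p ≠ q → 1 ≤ dist p q) {z : E2} (hz : z ∈ S) {y : E2}
    (hy : dist y z < ρ) (q : E2) (hq : q ∈ S) (hqz : q ≠ z) : ρ ≤ dist y q := by
  have h1 := hsep q hq z hz hqz
  have h2 := dist_triangle_left q z y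
  linarith

lemma ft_sq_wt (m : ℕ) (ρ : ℝ) (hρ : 0 < ρ) (hρ' : ρ ≤ 1/4) (X Z : Finset E2)
    (hXZ : Disjoint X Z) (hsep : ∀ p ∈ X ∪ Z, ∀ q ∈ X ∪ Z, p ≠ q → 1 ≤ dist p q) (y : E2) :
    (ft m ρ hρ Z y) ^ 2 * wt (2 * m) ρ X Z y ≤ ft m ρ hρ Z y := by
  by_cases h : ∃ z ∈ Z, dist y z < ρ
  · obtain ⟨z, hz, hyz⟩ := h
    have hfar := far_of_near hρ' hsep (Finset.mem_union_right _ hz) hyz
    have h1 : ft m ρ hρ Z y = Fz m ρ hρ z y := by
      unfold ft
      rw [Finset.sum_eq_single z (fun x hx hne => Fz_zero hρ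
        ((div_pow_le ρ hρ m).trans (hfar x (Finset.mem_union_right _ hx) hne)))
        (fun h => absurd hz h)]
    have h2 : wt (2 * m) ρ X Z y = (1 + sp (2 * m) ρ z y)⁻¹ := by
      unfold wt
      rw [Us_eq_one hρ (fun x hx => hfar x (Finset.mem_union_left _ hx) (fun h => by
        subst h; exact Finset.disjoint_left.1 hXZ hx hz)),
        Us_eq_single hρ hz (fun x hx hne => hfar x (Finset.mem_union_right _ hx) hne), one_div]
    rw [h1, h2]
    have h3 := Fz_nonneg m ρ hρ z y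
    have h4 := Fz_le_sp m ρ hρ z y
    have h5 : 0 < 1 + sp (2 * m) ρ z y := by linarith
    rw [← div_eq_mul_inv, div_le_iff₀ h5]
    nlinarith
  · push Not at h
    have h1 : ft m ρ hρ Z y = 0 :=
      Finset.sum_eq_zero (fun z hz => Fz_zero hρ ((div_pow_le ρ hρ m).trans (h z hz)))
    rw [h1]; simp

lemma lint_ft_sq (m : ℕ) (ρ : ℝ) (hρ : 0 < ρ) (hρ' : ρ ≤ 1/4) (X Z : Finset E2)
    (hXZ : Disjoint X Z) (hsep : ∀ p ∈ X ∪ Z, ∀ q ∈ X ∪ Z, p ≠ q → 1 ≤ dist p q) :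
    ∫⁻ y, ENNReal.ofReal ((ft m ρ hρ Z y) ^ 2 * wt (2 * m) ρ X Z y) ≤
      ENNReal.ofReal (Z.card * (m * (Real.pi * ρ ^ 2))) := by
  calc ∫⁻ y, ENNReal.ofReal ((ft m ρ hρ Z y) ^ 2 * wt (2 * m) ρ X Z y) ≤
      ∫⁻ y, ENNReal.ofReal (ft m ρ hρ Z y) :=
        lintegral_mono (fun y => ENNReal.ofReal_le_ofReal (ft_sq_wt m ρ hρ hρ' X Z hXZ hsep y))
    _ = ENNReal.ofReal (∫ y, ft m ρ hρ Z y) :=
        (ofReal_integral_eq_lintegral_ofReal (ft_integrable m ρ hρ Z)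
          (Eventually.of_forall (fun y => ft_nonneg m ρ hρ Z y))).symm
    _ ≤ _ := ENNReal.ofReal_le_ofReal (ft_int_le m ρ hρ Z)

lemma wt_mass (m : ℕ) (ρ : ℝ) (hρ : 0 < ρ) (hρ' : ρ ≤ 1/4) (X Z : Finset E2)
    (hXZ : Disjoint X Z) (hsep : ∀ p ∈ X ∪ Z, ∀ q ∈ X ∪ Z, p ≠ q → 1 ≤ dist p q) (x : E2)
    (hx : x ∈ X) :
    ENNReal.ofReal (m * (Real.pi * ρ ^ 2)) ≤
      ∫⁻ y in ball x (ρ / 2 ^ m), ENNReal.ofReal (wt (2 * m) ρ X Z y) := by
  have h1 : ∀ y ∈ ball x (ρ / 2 ^ m), sp (2 * m) ρ x y ≤ wt (2 * m) ρ X Z y := by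
    intro y hy
    have hy' : dist y x < ρ := (mem_ball.1 hy).trans_le (div_pow_le ρ hρ m)
    have hfar := far_of_near hρ' hsep (Finset.mem_union_left _ hx) hy'
    unfold wt
    rw [Us_eq_single hρ hx (fun z hz hne => hfar z (Finset.mem_union_left _ hz) hne),
      Us_eq_one hρ (fun z hz => hfar z (Finset.mem_union_right _ hz) (fun h => by
        subst h; exact Finset.disjoint_left.1 hXZ hx hz)), div_one]
    linarith
  have h2 : m * (Real.pi * ρ ^ 2) ≤ ∫ y in ball x (ρ / 2 ^ m), sp (2 * m) ρ x y := by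
    rw [integral_sp_on]
    have h3 : ∑ k ∈ Finset.Ico m (2 * m), (4:ℝ) ^ k *
        volume.real (ball x (ρ / 2 ^ m) ∩ ball x (ρ / 2 ^ k)) ≤
        ∑ k ∈ Finset.range (2 * m), (4:ℝ) ^ k *
        volume.real (ball x (ρ / 2 ^ m) ∩ ball x (ρ / 2 ^ k)) := by
      refine Finset.sum_le_sum_of_subset_of_nonneg ?_ (fun k _ _ => by positivity)
      intro k hk
      exact Finset.mem_range.2 (Finset.mem_Ico.1 hk).2
    refine le_trans (le_of_eq ?_) h3
    have h4 : ∀ k ∈ Finset.Ico m (2 * m), (4:ℝ) ^ k *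
        volume.real (ball x (ρ / 2 ^ m) ∩ ball x (ρ / 2 ^ k)) = Real.pi * ρ ^ 2 := by
      intro k hk
      have hmk := (Finset.mem_Ico.1 hk).1
      have h5 : ball x (ρ / 2 ^ k) ⊆ ball x (ρ / 2 ^ m) := by
        refine ball_subset_ball ?_
        gcongr
        norm_num
      rw [Set.inter_eq_self_of_subset_right h5, vol_ball x _ (by positivity), pow_four_scale]
    rw [Finset.sum_congr rfl h4, Finset.sum_const, Nat.card_Ico, nsmul_eq_mul]
    have : 2 * m - m = m := by omega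
    rw [this]
  calc ENNReal.ofReal (m * (Real.pi * ρ ^ 2)) ≤
      ENNReal.ofReal (∫ y in ball x (ρ / 2 ^ m), sp (2 * m) ρ x y) := ENNReal.ofReal_le_ofReal h2
    _ = ∫⁻ y in ball x (ρ / 2 ^ m), ENNReal.ofReal (sp (2 * m) ρ x y) :=
      ofReal_integral_eq_lintegral_ofReal (integrable_sp _ _ _).integrableOn
        (Eventually.of_forall (fun y => sp_nonneg _ _ _ _))
    _ ≤ _ := setLIntegral_mono' measurableSet_ball
        (fun y hy => ENNReal.ofReal_le_ofReal (h1 y hy))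

lemma lint_T_ge (m : ℕ) (ρ : ℝ) (hρ : 0 < ρ) (hρ' : ρ ≤ 1/4) (X Z : Finset E2)
    (hXZ : Disjoint X Z) (hsep : ∀ p ∈ X ∪ Z, ∀ q ∈ X ∪ Z, p ≠ q → 1 ≤ dist p q) (T : E2 → ℝ)
    (τ : ℝ) (hτ : 0 ≤ τ) (hT : ∀ x ∈ X, ∀ y ∈ ball x (ρ / 2 ^ m), τ ≤ T y) :
    (X.card : ENNReal) * (ENNReal.ofReal (τ ^ 2) * ENNReal.ofReal (m * (Real.pi * ρ ^ 2))) ≤
      ∫⁻ y, ENNReal.ofReal ((T y) ^ 2 * wt (2 * m) ρ X Z y) := by
  have hdisj : (X : Set E2).PairwiseDisjoint (fun x => ball x (ρ / 2 ^ m)) := by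
    intro p hp q hq hpq
    refine Set.disjoint_left.2 (fun y hy hy' => ?_)
    have h1 := hsep p (Finset.mem_union_left _ hp) q (Finset.mem_union_left _ hq) hpq
    have h3 := div_pow_le ρ hρ m
    rw [mem_ball] at hy hy'
    have h2 := dist_triangle_left p q y
    linarith
  have h1 : ∫⁻ y in ⋃ x ∈ X, ball x (ρ / 2 ^ m), ENNReal.ofReal ((T y) ^ 2 * wt (2 * m) ρ X Z y) =
      ∑ x ∈ X, ∫⁻ y in ball x (ρ / 2 ^ m), ENNReal.ofReal ((T y) ^ 2 * wt (2 * m) ρ X Z y) :=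
    lintegral_biUnion_finset hdisj (fun x _ => measurableSet_ball) _
  refine le_trans ?_ (setLIntegral_le_lintegral (⋃ x ∈ X, ball x (ρ / 2 ^ m)) _)
  rw [h1]
  have h2 : ∀ x ∈ X, ENNReal.ofReal (τ ^ 2) * ENNReal.ofReal (m * (Real.pi * ρ ^ 2)) ≤
      ∫⁻ y in ball x (ρ / 2 ^ m), ENNReal.ofReal ((T y) ^ 2 * wt (2 * m) ρ X Z y) := by
    intro x hx
    calc ENNReal.ofReal (τ ^ 2) * ENNReal.ofReal (m * (Real.pi * ρ ^ 2)) ≤
        ENNReal.ofReal (τ ^ 2) * ∫⁻ y in ball x (ρ / 2 ^ m), ENNReal.ofReal (wt (2 * m) ρ X Z y) :=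
          mul_le_mul_right (wt_mass m ρ hρ hρ' X Z hXZ hsep x hx) _
      _ = ∫⁻ y in ball x (ρ / 2 ^ m), ENNReal.ofReal (τ ^ 2) *
            ENNReal.ofReal (wt (2 * m) ρ X Z y) :=
          (lintegral_const_mul _ (measurable_wt _ _ _ _).ennreal_ofReal).symm
      _ ≤ _ := by
          refine setLIntegral_mono' measurableSet_ball (fun y hy => ?_)
          rw [← ENNReal.ofReal_mul (sq_nonneg τ)]
          refine ENNReal.ofReal_le_ofReal ?_
          refine mul_le_mul_of_nonneg_right ?_ (wt_pos _ _ _ _ _).le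
          exact pow_le_pow_left₀ hτ (hT x hx y hy) 2
  refine le_trans (le_of_eq ?_) (Finset.sum_le_sum h2)
  rw [Finset.sum_const, nsmul_eq_mul]


/-- lower bound for the principal value near a spike -/
lemma T_lower (m : ℕ) (ρ : ℝ) (hρ : 0 < ρ) (hδ : 4 * (ρ / 2 ^ m) ≤ 1) (Z : Finset E2) (x : E2)
    (hxz : ∀ z ∈ Z, 1 ≤ ‖x - z‖) (Ω : E2 → ℝ) (hΩm : Measurable Ω) (hΩb : ∀ y, |Ω y| ≤ 1)
    (hΩ1 : ∀ z ∈ Z, ∀ u, ‖u - (x - z)‖ < 2 * (ρ / 2 ^ m) → Ω u = 1)
    (x' : E2) (hx' : x' ∈ ball x (ρ / 2 ^ m)) (t : ℝ)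
    (ht : Tendsto (fun ε : ℝ => ∫ y in {y : E2 | ε < ‖y‖},
      ft m ρ hρ Z (x' - y) * Ω y / ‖y‖ ^ 2) (𝓝[>] 0) (𝓝 t)) :
    m * (Real.pi * ρ ^ 2) / 4 * ∑ z ∈ Z, 1 / (4 * ‖x - z‖ ^ 2) ≤ t := by
  have hms : ∀ ε : ℝ, MeasurableSet {y : E2 | ε < ‖y‖} := fun ε =>
    measurableSet_lt measurable_const measurable_norm
  refine ge_of_tendsto ht ?_
  have hI : Set.Ioo (0:ℝ) (1/2) ∈ 𝓝[>] (0:ℝ) := Ioo_mem_nhdsGT (by norm_num)
  filter_upwards [hI] with ε hε
  rw [← integral_indicator (hms ε)]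
  have hint1 : ∀ z ∈ Z, Integrable (fun y => Fz m ρ hρ z (x' - y) * (1 / (4 * ‖x - z‖ ^ 2))) :=
    fun z _ => ((Fz_integrable m ρ hρ z).comp_sub_left x').mul_const _
  have hpt : ∀ y, ∑ z ∈ Z, Fz m ρ hρ z (x' - y) * (1 / (4 * ‖x - z‖ ^ 2)) ≤
      Set.indicator {y : E2 | ε < ‖y‖} (fun y => ft m ρ hρ Z (x' - y) * Ω y / ‖y‖ ^ 2) y := by
    intro y
    have hterm : ∀ z ∈ Z, Fz m ρ hρ z (x' - y) * (1 / (4 * ‖x - z‖ ^ 2)) ≤
        Set.indicator {y : E2 | ε < ‖y‖} (fun y => Fz m ρ hρ z (x' - y) * Ω y / ‖y‖ ^ 2) y := by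
      intro z hz
      by_cases h0 : Fz m ρ hρ z (x' - y) = 0
      · rw [h0, zero_mul]
        by_cases hy : y ∈ {y : E2 | ε < ‖y‖}
        · rw [Set.indicator_of_mem hy]
          simp only [h0, zero_mul, zero_div, le_refl]
        · rw [Set.indicator_of_notMem hy]
      · have hd : dist (x' - y) z < ρ / 2 ^ m := by
          by_contra h
          exact h0 (Fz_zero hρ (not_lt.1 h))
        have hu : ‖y - (x - z)‖ < 2 * (ρ / 2 ^ m) := by
          rw [mem_ball, dist_eq_norm] at hx'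
          rw [dist_eq_norm] at hd
          have h1 : y - (x - z) = (x' - x) - (x' - y - z) := by abel
          rw [h1]
          have h2 := norm_sub_le (x' - x) (x' - y - z)
          linarith
        have hΩy := hΩ1 z hz y hu
        have h1 := hxz z hz
        have hup : ‖y‖ ≤ 2 * ‖x - z‖ := by
          have h2 := norm_add_le (y - (x - z)) (x - z)
          rw [sub_add_cancel] at h2
          linarith
        have hlo : 1/2 ≤ ‖y‖ := by
          have h2 := norm_sub_norm_le (x - z) y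
          have h3 : ‖x - z - y‖ = ‖y - (x - z)‖ := norm_sub_rev _ _
          linarith
        have hy : y ∈ {y : E2 | ε < ‖y‖} := lt_of_lt_of_le hε.2 hlo
        rw [Set.indicator_of_mem hy, hΩy, mul_one, ← mul_one_div (Fz m ρ hρ z (x' - y)) (‖y‖ ^ 2)]
        refine mul_le_mul_of_nonneg_left ?_ (Fz_nonneg m ρ hρ z _)
        have h3 : ‖y‖ ^ 2 ≤ 4 * ‖x - z‖ ^ 2 := by
          have := pow_le_pow_left₀ (norm_nonneg y) hup 2
          linarith [mul_pow 2 ‖x - z‖ 2]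
        exact one_div_le_one_div_of_le (by positivity) h3
    refine (Finset.sum_le_sum hterm).trans (le_of_eq ?_)
    by_cases hy : y ∈ {y : E2 | ε < ‖y‖}
    · simp only [Set.indicator_of_mem hy]
      unfold ft
      rw [Finset.sum_mul, Finset.sum_div]
    · simp only [Set.indicator_of_notMem hy, Finset.sum_const_zero]
  have hftc : Continuous (ft m ρ hρ Z) := (ft_contDiff m ρ hρ Z).continuous
  have hint2 : Integrable (Set.indicator {y : E2 | ε < ‖y‖}
      (fun y => ft m ρ hρ Z (x' - y) * Ω y / ‖y‖ ^ 2)) := by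
    have h1 : Integrable (fun y => ft m ρ hρ Z (x' - y) * (1 / ε ^ 2)) :=
      ((ft_integrable m ρ hρ Z).comp_sub_left x').mul_const _
    refine h1.mono' ?_ (Eventually.of_forall (fun y => ?_))
    · have h2 : Measurable (fun y => ft m ρ hρ Z (x' - y)) :=
        (hftc.comp (continuous_const.sub continuous_id)).measurable
      exact (((h2.mul hΩm).div (measurable_norm.pow_const 2)).indicator (hms ε)).aestronglyMeasurable
    · have hf0 := ft_nonneg m ρ hρ Z (x' - y)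
      by_cases hy : y ∈ {y : E2 | ε < ‖y‖}
      · rw [Set.indicator_of_mem hy, norm_div, norm_mul, norm_pow, norm_norm,
          Real.norm_of_nonneg hf0, Real.norm_eq_abs, ← mul_one_div (_ * _) (‖y‖ ^ 2)]
        have hy' : ε < ‖y‖ := hy
        have h3 : 1 / ‖y‖ ^ 2 ≤ 1 / ε ^ 2 :=
          one_div_le_one_div_of_le (by have := hε.1; positivity)
            (pow_le_pow_left₀ hε.1.le hy'.le 2)
        refine mul_le_mul ?_ h3 (by positivity) hf0
        exact mul_le_of_le_one_right hf0 (hΩb y)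
      · rw [Set.indicator_of_notMem hy, norm_zero]
        have := hε.1
        positivity
  have hmain := integral_mono (integrable_finsetSum Z hint1) hint2 hpt
  refine le_trans ?_ hmain
  rw [integral_finsetSum Z hint1, Finset.mul_sum]
  refine Finset.sum_le_sum (fun z hz => ?_)
  rw [integral_mul_const]
  refine mul_le_mul_of_nonneg_right ?_ (by positivity)
  rw [integral_sub_left_eq_self (Fz m ρ hρ z) volume x']
  exact Fz_int_ge m ρ hρ z

/-! ### the homogeneous function -/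

/-- sector union -/
def Upr (H : ℕ) : Set E2 :=
  {y | ∃ p q : ℤ, Odd p ∧ Even q ∧ |p| ≤ H ∧ |q| ≤ H ∧
    |y 0 * (q:ℝ) - y 1 * (p:ℝ)| * (8 * H) < ‖y‖}

lemma measurable_coord (i : Fin 2) : Measurable (fun y : E2 => y i) := by fun_prop

lemma measurableSet_Upr (H : ℕ) : MeasurableSet (Upr H) := by
  have : Upr H = ⋃ p : ℤ, ⋃ q : ℤ, ({y : E2 | Odd p ∧ Even q ∧ |p| ≤ H ∧ |q| ≤ H} ∩
    {y : E2 | |y 0 * (q:ℝ) - y 1 * (p:ℝ)| * (8 * H) < ‖y‖}) := by
    ext y
    simp only [Upr, Set.mem_ofPred_eq, Set.mem_iUnion, Set.mem_inter_iff]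
    constructor
    · rintro ⟨p, q, h1, h2, h3, h4, h5⟩; exact ⟨p, q, ⟨h1, h2, h3, h4⟩, h5⟩
    · rintro ⟨p, q, ⟨h1, h2, h3, h4⟩, h5⟩; exact ⟨p, q, h1, h2, h3, h4, h5⟩
  rw [this]
  refine MeasurableSet.iUnion (fun p => MeasurableSet.iUnion (fun q => ?_))
  refine (MeasurableSet.const _).inter (measurableSet_lt ?_ measurable_norm)
  have h0 := measurable_coord 0
  have h1 := measurable_coord 1
  have h2 : Measurable (fun y : E2 => |y 0 * (q:ℝ) - y 1 * (p:ℝ)|) := by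
    have := ((h0.mul_const (q:ℝ)).sub (h1.mul_const (p:ℝ))).norm
    exact this
  exact h2.mul_const _

open Classical in
noncomputable def Om (H : ℕ) (y : E2) : ℝ :=
  Set.indicator (Upr H) (fun _ => (1:ℝ)) y - Set.indicator (Upr H) (fun _ => (1:ℝ)) (Rot y)

lemma measurable_Om (H : ℕ) : Measurable (Om H) := by
  have h1 : Measurable (Set.indicator (Upr H) (fun _ : E2 => (1:ℝ))) :=
    measurable_const.indicator (measurableSet_Upr H)
  exact h1.sub (h1.comp Rot.continuous.measurable)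

lemma abs_Om_le (H : ℕ) (y : E2) : |Om H y| ≤ 1 := by
  unfold Om
  have h : ∀ y : E2, Set.indicator (Upr H) (fun _ => (1:ℝ)) y = 0 ∨
      Set.indicator (Upr H) (fun _ => (1:ℝ)) y = 1 := by
    intro y
    by_cases h : y ∈ Upr H
    · right; rw [Set.indicator_of_mem h]
    · left; rw [Set.indicator_of_notMem h]
  rcases h y with h1 | h1 <;> rcases h (Rot y) with h2 | h2 <;> rw [h1, h2] <;> norm_num

lemma Upr_smul (H : ℕ) (t : ℝ) (ht : 0 < t) (y : E2) : t • y ∈ Upr H ↔ y ∈ Upr H := by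
  unfold Upr
  simp only [Set.mem_ofPred_eq]
  have h : ∀ p q : ℤ, |(t • y) 0 * (q:ℝ) - (t • y) 1 * (p:ℝ)| * (8 * H) < ‖t • y‖ ↔
      |y 0 * (q:ℝ) - y 1 * (p:ℝ)| * (8 * H) < ‖y‖ := by
    intro p q
    have h1 : (t • y) 0 * (q:ℝ) - (t • y) 1 * (p:ℝ) = t * (y 0 * (q:ℝ) - y 1 * (p:ℝ)) := by
      simp only [PiLp.smul_apply, smul_eq_mul]; ring
    rw [h1, abs_mul, abs_of_pos ht, norm_smul, Real.norm_of_nonneg ht.le, mul_assoc]
    exact mul_lt_mul_iff_right₀ ht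
  simp only [h]

lemma Upr_neg (H : ℕ) (y : E2) : -y ∈ Upr H ↔ y ∈ Upr H := by
  unfold Upr
  simp only [Set.mem_ofPred_eq]
  have h : ∀ p q : ℤ, |(-y) 0 * (q:ℝ) - (-y) 1 * (p:ℝ)| * (8 * H) < ‖-y‖ ↔
      |y 0 * (q:ℝ) - y 1 * (p:ℝ)| * (8 * H) < ‖y‖ := by
    intro p q
    have h1 : (-y) 0 * (q:ℝ) - (-y) 1 * (p:ℝ) = -(y 0 * (q:ℝ) - y 1 * (p:ℝ)) := by
      simp only [PiLp.neg_apply]; ring
    rw [h1, abs_neg, norm_neg]
  simp only [h]

lemma Om_smul (H : ℕ) (y : E2) (t : ℝ) (ht : 0 < t) : Om H (t • y) = Om H y := by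
  unfold Om
  have h : ∀ y : E2, Set.indicator (Upr H) (fun _ => (1:ℝ)) (t • y) =
      Set.indicator (Upr H) (fun _ => (1:ℝ)) y := by
    intro y
    by_cases hy : y ∈ Upr H
    · rw [Set.indicator_of_mem hy, Set.indicator_of_mem ((Upr_smul H t ht y).2 hy)]
    · rw [Set.indicator_of_notMem hy, Set.indicator_of_notMem (fun h => hy ((Upr_smul H t ht y).1 h))]
  rw [Rot_smul, h, h]

lemma Om_Rot (H : ℕ) (y : E2) : Om H (Rot y) = - Om H y := by
  unfold Om
  rw [Rot_Rot]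
  have h : Set.indicator (Upr H) (fun _ => (1:ℝ)) (-y) =
      Set.indicator (Upr H) (fun _ => (1:ℝ)) y := by
    by_cases hy : y ∈ Upr H
    · rw [Set.indicator_of_mem hy, Set.indicator_of_mem ((Upr_neg H y).2 hy)]
    · rw [Set.indicator_of_notMem hy, Set.indicator_of_notMem (fun h => hy ((Upr_neg H y).1 h))]
  rw [h]; ring

lemma Om_mean (H : ℕ) : ∫ y in {y : E2 | 1 ≤ ‖y‖ ∧ ‖y‖ ≤ 2}, Om H y = 0 := by
  refine mean_zero_Rot (Om H) (Om_Rot H) _ (fun y => ?_)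
  simp only [Set.mem_ofPred_eq, Rot.norm_map]

lemma abs_coord_le (x : E2) (i : Fin 2) : |x i| ≤ ‖x‖ := by
  have h := norm_sq_E2 x
  refine abs_le_of_sq_le_sq' ?_ (norm_nonneg x) |> abs_le.2
  fin_cases i
  · show x 0 ^ 2 ≤ _
    nlinarith [sq_nonneg (x 1)]
  · show x 1 ^ 2 ≤ _
    nlinarith [sq_nonneg (x 0)]

lemma Om_eval (H : ℕ) (hH : 1 ≤ H) (δ : ℝ) (hδ : 32 * δ * H ^ 2 < 1) (v : E2)
    (p q : ℤ) (hp : Odd p) (hq : Even q) (hpH : |p| ≤ H) (hqH : |q| ≤ H) (hv0 : v 0 = p)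
    (hv1 : v 1 = q) (u : E2) (hu : ‖u - v‖ < δ) : Om H u = 1 := by
  have hHr : (1:ℝ) ≤ H := by exact_mod_cast hH
  have hδ0 : 0 < δ := (norm_nonneg _).trans_lt hu
  have hpr : |(p:ℝ)| ≤ H := by exact_mod_cast hpH
  have hqr : |(q:ℝ)| ≤ H := by exact_mod_cast hqH
  have hH2 : (1:ℝ) ≤ (H:ℝ) ^ 2 := one_le_pow₀ hHr
  have hδ' : δ < 1/32 := by nlinarith
  have hp1 : (1:ℝ) ≤ |(p:ℝ)| := by
    have h1 : p ≠ 0 := by rintro rfl; simp at hp
    have h2 : 1 ≤ |p| := Int.one_le_abs h1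
    exact_mod_cast h2
  have hvn : 1 ≤ ‖v‖ := hp1.trans (by rw [← hv0]; exact abs_coord_le v 0)
  have hun : 31/32 < ‖u‖ := by
    have h1 := norm_sub_norm_le v u
    rw [norm_sub_rev] at h1
    linarith
  have hu0 : |u 0 - p| < δ := by
    have := abs_coord_le (u - v) 0
    rw [PiLp.sub_apply, hv0] at this
    exact this.trans_lt hu
  have hu1 : |u 1 - q| < δ := by
    have := abs_coord_le (u - v) 1
    rw [PiLp.sub_apply, hv1] at this
    exact this.trans_lt hu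
  have hmem : u ∈ Upr H := by
    refine ⟨p, q, hp, hq, hpH, hqH, ?_⟩
    have h1 : u 0 * (q:ℝ) - u 1 * (p:ℝ) = (u 0 - p) * q - (u 1 - q) * p := by ring
    have h2 : |(u 0 - p) * q - (u 1 - q) * p| ≤ 2 * δ * H := by
      calc |(u 0 - p) * q - (u 1 - q) * p| ≤ |(u 0 - p) * q| + |(u 1 - q) * p| := abs_sub _ _
        _ ≤ δ * H + δ * H := by
            rw [abs_mul, abs_mul]
            exact add_le_add (mul_le_mul hu0.le hqr (abs_nonneg _) hδ0.le)
              (mul_le_mul hu1.le hpr (abs_nonneg _) hδ0.le)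
        _ = 2 * δ * H := by ring
    rw [h1]
    calc |(u 0 - p) * q - (u 1 - q) * p| * (8 * H) ≤ 2 * δ * H * (8 * H) :=
          mul_le_mul_of_nonneg_right h2 (by positivity)
      _ = 16 * δ * H ^ 2 := by ring
      _ < ‖u‖ := by linarith
  have hnot : Rot u ∉ Upr H := by
    rintro ⟨p', q', hp', hq', hpH', hqH', h'⟩
    obtain ⟨a, b, ha, hb, haH, hbH, h⟩ := hmem
    rw [Rot.norm_map, Rot_zero, Rot_one] at h'
    have har : |(a:ℝ)| ≤ H := by exact_mod_cast haH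
    have hbr : |(b:ℝ)| ≤ H := by exact_mod_cast hbH
    have hpr' : |(p':ℝ)| ≤ H := by exact_mod_cast hpH'
    have hqr' : |(q':ℝ)| ≤ H := by exact_mod_cast hqH'
    have hodd : Odd (a * p' + b * q') := (ha.mul hp').add_even (hb.mul_right q')
    have hD : (1:ℝ) ≤ |((a * p' + b * q' : ℤ) : ℝ)| := by
      have h1 : a * p' + b * q' ≠ 0 := by intro h0; rw [h0] at hodd; simp at hodd
      have h2 : 1 ≤ |a * p' + b * q'| := Int.one_le_abs h1
      exact_mod_cast h2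
    push_cast at hD
    set s : ℝ := u 0 * b - u 1 * a with hs
    set s' : ℝ := - u 1 * q' - u 0 * p' with hs'
    have hH8 : (0:ℝ) < 8 * H := by positivity
    have h3 : |s| * H < ‖u‖ / 8 := by nlinarith
    have h4 : |s'| * H < ‖u‖ / 8 := by nlinarith
    have e0 : ((a:ℝ) * p' + b * q') * u 0 = - a * s' + q' * s := by rw [hs, hs']; ring
    have e1 : ((a:ℝ) * p' + b * q') * u 1 = - b * s' - p' * s := by rw [hs, hs']; ring
    have b0 : |u 0| ≤ ‖u‖ / 4 := by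
      calc |u 0| ≤ |(a:ℝ) * p' + b * q'| * |u 0| := le_mul_of_one_le_left (abs_nonneg _) hD
        _ = |- a * s' + q' * s| := by rw [← abs_mul, e0]
        _ ≤ |- a * s'| + |q' * s| := abs_add_le _ _
        _ ≤ H * |s'| + H * |s| := by
            rw [abs_mul, abs_mul, abs_neg]
            exact add_le_add (mul_le_mul_of_nonneg_right har (abs_nonneg _))
              (mul_le_mul_of_nonneg_right hqr' (abs_nonneg _))
        _ ≤ ‖u‖ / 4 := by linarith
    have b1 : |u 1| ≤ ‖u‖ / 4 := by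
      calc |u 1| ≤ |(a:ℝ) * p' + b * q'| * |u 1| := le_mul_of_one_le_left (abs_nonneg _) hD
        _ = |- b * s' - p' * s| := by rw [← abs_mul, e1]
        _ ≤ |- b * s'| + |p' * s| := abs_sub _ _
        _ ≤ H * |s'| + H * |s| := by
            rw [abs_mul, abs_mul, abs_neg]
            exact add_le_add (mul_le_mul_of_nonneg_right hbr (abs_nonneg _))
              (mul_le_mul_of_nonneg_right hpr' (abs_nonneg _))
        _ ≤ ‖u‖ / 4 := by linarith
    have hsq := norm_sq_E2 u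
    have c0 : u 0 ^ 2 ≤ (‖u‖ / 4) ^ 2 := by rw [← sq_abs]; exact pow_le_pow_left₀ (abs_nonneg _) b0 2
    have c1 : u 1 ^ 2 ≤ (‖u‖ / 4) ^ 2 := by rw [← sq_abs]; exact pow_le_pow_left₀ (abs_nonneg _) b1 2
    nlinarith
  unfold Om
  rw [Set.indicator_of_mem hmem, Set.indicator_of_notMem hnot, sub_zero]


/-! ### the grid -/

noncomputable def gp (a b : ℕ) : E2 := !₂[(a:ℝ), (b:ℝ)]

@[simp] lemma gp_zero (a b : ℕ) : gp a b 0 = a := rfl
@[simp] lemma gp_one (a b : ℕ) : gp a b 1 = b := rfl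

lemma gp_inj {a b a' b' : ℕ} (h : gp a b = gp a' b') : a = a' ∧ b = b' := by
  have h0 : gp a b 0 = gp a' b' 0 := by rw [h]
  have h1 : gp a b 1 = gp a' b' 1 := by rw [h]
  simp only [gp_zero, gp_one, Nat.cast_inj] at h0 h1
  exact ⟨h0, h1⟩

lemma gp_dist {a b a' b' : ℕ} (h : gp a b ≠ gp a' b') : 1 ≤ dist (gp a b) (gp a' b') := by
  rw [dist_eq_norm]
  have key : ∀ c c' : ℕ, c ≠ c' → (1:ℝ) ≤ |(c:ℝ) - c'| := by
    intro c c' hcc
    have h1 : ((c:ℤ) - c') ≠ 0 := by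
      intro h0
      exact hcc (by exact_mod_cast sub_eq_zero.1 h0)
    have h2 : (1:ℤ) ≤ |(c:ℤ) - c'| := Int.one_le_abs h1
    exact_mod_cast h2
  by_cases ha : a = a'
  · have hb : b ≠ b' := by rintro rfl; subst ha; exact h rfl
    refine (key b b' hb).trans ?_
    have := abs_coord_le (gp a b - gp a' b') 1
    rwa [PiLp.sub_apply, gp_one, gp_one] at this
  · refine (key a a' ha).trans ?_
    have := abs_coord_le (gp a b - gp a' b') 0
    rwa [PiLp.sub_apply, gp_zero, gp_zero] at this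

open Classical in
noncomputable def XX (n : ℕ) : Finset E2 :=
  (Finset.range (2 * n) ×ˢ Finset.range (2 * n)).image (fun ab => gp (2 * ab.1 + 1) (2 * ab.2))

open Classical in
noncomputable def ZZ (n : ℕ) : Finset E2 :=
  (Finset.range (2 * n) ×ˢ Finset.range (2 * n)).image (fun ab => gp (2 * ab.1) (2 * ab.2))

lemma mem_XX {n : ℕ} {x : E2} (hx : x ∈ XX n) :
    ∃ a b : ℕ, a < 2 * n ∧ b < 2 * n ∧ x = gp (2 * a + 1) (2 * b) := by
  unfold XX at hx
  obtain ⟨⟨a, b⟩, hab, rfl⟩ := Finset.mem_image.1 hx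
  rw [Finset.mem_product, Finset.mem_range, Finset.mem_range] at hab
  exact ⟨a, b, hab.1, hab.2, rfl⟩

lemma mem_ZZ {n : ℕ} {x : E2} (hx : x ∈ ZZ n) :
    ∃ a b : ℕ, a < 2 * n ∧ b < 2 * n ∧ x = gp (2 * a) (2 * b) := by
  unfold ZZ at hx
  obtain ⟨⟨a, b⟩, hab, rfl⟩ := Finset.mem_image.1 hx
  rw [Finset.mem_product, Finset.mem_range, Finset.mem_range] at hab
  exact ⟨a, b, hab.1, hab.2, rfl⟩

lemma card_XX (n : ℕ) : (XX n).card = (2 * n) * (2 * n) := by
  unfold XX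
  rw [Finset.card_image_of_injective, Finset.card_product, Finset.card_range]
  rintro ⟨a, b⟩ ⟨a', b'⟩ h
  have := gp_inj h
  simp only [Prod.mk.injEq]
  omega

lemma ZZ_inj : Function.Injective (fun ab : ℕ × ℕ => gp (2 * ab.1) (2 * ab.2)) := by
  rintro ⟨a, b⟩ ⟨a', b'⟩ h
  have := gp_inj h
  simp only [Prod.mk.injEq]
  omega

lemma card_ZZ (n : ℕ) : (ZZ n).card = (2 * n) * (2 * n) := by
  unfold ZZ
  rw [Finset.card_image_of_injective _ ZZ_inj, Finset.card_product, Finset.card_range]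

lemma disj_XZ (n : ℕ) : Disjoint (XX n) (ZZ n) := by
  refine Finset.disjoint_left.2 (fun x hx hz => ?_)
  obtain ⟨a, b, _, _, rfl⟩ := mem_XX hx
  obtain ⟨a', b', _, _, h⟩ := mem_ZZ hz
  have := gp_inj h
  omega

lemma sep_XZ (n : ℕ) : ∀ p ∈ XX n ∪ ZZ n, ∀ q ∈ XX n ∪ ZZ n, p ≠ q → 1 ≤ dist p q := by
  have h : ∀ p ∈ XX n ∪ ZZ n, ∃ a b : ℕ, p = gp a b := by
    intro p hp
    rcases Finset.mem_union.1 hp with h | h
    · obtain ⟨a, b, _, _, rfl⟩ := mem_XX h; exact ⟨_, _, rfl⟩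
    · obtain ⟨a, b, _, _, rfl⟩ := mem_ZZ h; exact ⟨_, _, rfl⟩
  intro p hp q hq hpq
  obtain ⟨a, b, rfl⟩ := h p hp
  obtain ⟨a', b', rfl⟩ := h q hq
  exact gp_dist hpq

/-- one dimensional injection -/
lemma sum_shift (n a c : ℕ) (ha : a < 2 * n) (hc : c ≤ 1) (g : ℕ → ℝ) (hg : ∀ i, 0 ≤ g i) :
    ∑ s ∈ Finset.range n, g (if a < n then a + c + s else a - s) ≤
      ∑ i ∈ Finset.range (2 * n), g i := by
  classical
  set φ : ℕ → ℕ := fun s => if a < n then a + c + s else a - s with hφ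
  have hinj : ∀ s ∈ Finset.range n, ∀ t ∈ Finset.range n, φ s = φ t → s = t := by
    intro s hs t ht h
    rw [Finset.mem_range] at hs ht
    simp only [hφ] at h
    split_ifs at h with h1
    · omega
    · omega
  have h1 : ∑ s ∈ Finset.range n, g (φ s) = ∑ i ∈ (Finset.range n).image φ, g i :=
    (Finset.sum_image hinj).symm
  rw [h1]
  refine Finset.sum_le_sum_of_subset_of_nonneg ?_ (fun i _ _ => hg i)
  intro i hi
  obtain ⟨s, hs, rfl⟩ := Finset.mem_image.1 hi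
  rw [Finset.mem_range] at hs ⊢
  simp only [hφ]
  split_ifs with h2
  · omega
  · omega

lemma norm_gp_sub (a b a' b' : ℕ) :
    ‖gp a b - gp a' b'‖ ^ 2 = ((a:ℝ) - a') ^ 2 + ((b:ℝ) - b') ^ 2 := by
  rw [norm_sq_E2]; rfl

lemma grid_sum (n a b : ℕ) (ha : a < 2 * n) (hb : b < 2 * n) :
    Real.log (n + 1) / 32 ≤ ∑ z ∈ ZZ n, 1 / (4 * ‖gp (2 * a + 1) (2 * b) - z‖ ^ 2) := by
  classical
  unfold ZZ
  rw [Finset.sum_image (fun x _ y _ h => ZZ_inj h), Finset.sum_product]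
  simp only [norm_gp_sub]
  have h1 : ∀ a' : ℕ, ∑ t ∈ Finset.range n, 1 / (4 * ((((2 * a + 1 : ℕ):ℝ) - ((2 * a' : ℕ):ℝ)) ^ 2 +
      (2 * (t:ℝ)) ^ 2)) ≤
      ∑ b' ∈ Finset.range (2 * n), 1 / (4 * ((((2 * a + 1 : ℕ):ℝ) - ((2 * a' : ℕ):ℝ)) ^ 2 +
      (((2 * b : ℕ):ℝ) - ((2 * b' : ℕ):ℝ)) ^ 2)) := by
    intro a'
    refine le_trans (le_of_eq ?_) (sum_shift n b 0 hb (by norm_num)
      (fun b' => 1 / (4 * ((((2 * a + 1 : ℕ):ℝ) - ((2 * a' : ℕ):ℝ)) ^ 2 +
      (((2 * b : ℕ):ℝ) - ((2 * b' : ℕ):ℝ)) ^ 2))) (fun i => by positivity))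
    refine Finset.sum_congr rfl (fun t ht => ?_)
    rw [Finset.mem_range] at ht
    have : (((2 * b : ℕ):ℝ) - ((2 * (if b < n then b + 0 + t else b - t) : ℕ):ℝ)) ^ 2 =
        (2 * (t:ℝ)) ^ 2 := by
      split_ifs with h
      · push_cast; ring
      · rw [Nat.cast_mul 2 (b - t), Nat.cast_sub (by omega)]; push_cast; ring
    simp only [this]
  have h2 : ∑ s ∈ Finset.range n, ∑ t ∈ Finset.range n, 1 / (4 * ((2 * (s:ℝ) + 1) ^ 2 +
      (2 * (t:ℝ)) ^ 2)) ≤ ∑ a' ∈ Finset.range (2 * n), ∑ t ∈ Finset.range n,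
        1 / (4 * ((((2 * a + 1 : ℕ):ℝ) - ((2 * a' : ℕ):ℝ)) ^ 2 + (2 * (t:ℝ)) ^ 2)) := by
    refine le_trans (le_of_eq ?_) (sum_shift n a 1 ha le_rfl
      (fun a' => ∑ t ∈ Finset.range n,
        1 / (4 * ((((2 * a + 1 : ℕ):ℝ) - ((2 * a' : ℕ):ℝ)) ^ 2 + (2 * (t:ℝ)) ^ 2)))
      (fun i => Finset.sum_nonneg (fun t _ => by positivity)))
    refine Finset.sum_congr rfl (fun s hs => Finset.sum_congr rfl (fun t ht => ?_))
    rw [Finset.mem_range] at hs
    have : (((2 * a + 1 : ℕ):ℝ) - ((2 * (if a < n then a + 1 + s else a - s) : ℕ):ℝ)) ^ 2 =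
        (2 * (s:ℝ) + 1) ^ 2 := by
      split_ifs with h
      · push_cast; ring
      · rw [Nat.cast_mul 2 (a - s), Nat.cast_sub (by omega)]; push_cast; ring
    simp only [this]
  refine le_trans ?_ (h2.trans (Finset.sum_le_sum (fun a' _ => h1 a')))
  have h3 : ∀ s ∈ Finset.range n, ((s:ℝ) + 1)⁻¹ / 32 ≤ ∑ t ∈ Finset.range n,
      1 / (4 * ((2 * (s:ℝ) + 1) ^ 2 + (2 * (t:ℝ)) ^ 2)) := by
    intro s hs
    rw [Finset.mem_range] at hs
    have h4 : ∑ t ∈ Finset.range (s + 1), 1 / (4 * ((2 * (s:ℝ) + 1) ^ 2 + (2 * (t:ℝ)) ^ 2)) ≤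
        ∑ t ∈ Finset.range n, 1 / (4 * ((2 * (s:ℝ) + 1) ^ 2 + (2 * (t:ℝ)) ^ 2)) := by
      refine Finset.sum_le_sum_of_subset_of_nonneg ?_ (fun t _ _ => by positivity)
      intro t ht
      rw [Finset.mem_range] at ht ⊢
      omega
    refine le_trans ?_ h4
    have h5 : ∀ t ∈ Finset.range (s + 1), 1 / (32 * ((s:ℝ) + 1) ^ 2) ≤
        1 / (4 * ((2 * (s:ℝ) + 1) ^ 2 + (2 * (t:ℝ)) ^ 2)) := by
      intro t ht
      rw [Finset.mem_range] at ht
      have ht' : (t:ℝ) ≤ s := by exact_mod_cast Nat.lt_succ_iff.1 ht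
      have hs0 : (0:ℝ) ≤ s := Nat.cast_nonneg _
      have ht0 : (0:ℝ) ≤ t := Nat.cast_nonneg _
      refine one_div_le_one_div_of_le (by positivity) ?_
      nlinarith
    refine le_trans (le_of_eq ?_) (Finset.sum_le_sum h5)
    rw [Finset.sum_const, Finset.card_range, nsmul_eq_mul]
    push_cast
    have hs0 : (0:ℝ) < (s:ℝ) + 1 := by positivity
    field_simp
  refine le_trans ?_ (Finset.sum_le_sum h3)
  rw [← Finset.sum_div]
  refine div_le_div_of_nonneg_right ?_ (by norm_num)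
  have h6 := log_add_one_le_harmonic n
  have h7 : ((harmonic n : ℚ) : ℝ) = ∑ s ∈ Finset.range n, ((s:ℝ) + 1)⁻¹ := by
    unfold harmonic
    push_cast
    rfl
  rw [h7] at h6
  push_cast at h6
  exact h6


/-- the core inequality obtained from a (hypothetical) bound -/
lemma core (m n : ℕ) (hm : 1 ≤ m) (hn : 1 ≤ n) (ρ : ℝ) (hρ : 0 < ρ) (hρ' : ρ ≤ 1/4)
    (hsmall : 1024 * ρ * n ^ 2 < 2 ^ m) (B : ℝ) (hB : 0 ≤ B)
    (h : ∀ T : E2 → ℝ, (∀ x, Tendsto (fun ε : ℝ => ∫ y in {y : E2 | ε < ‖y‖},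
        ft m ρ hρ (ZZ n) (x - y) * Om (4 * n) y / ‖y‖ ^ 2) (𝓝[>] 0) (𝓝 (T x))) →
      ∫⁻ x, ENNReal.ofReal ((T x) ^ 2 * wt (2 * m) ρ (XX n) (ZZ n) x) ≤
        ENNReal.ofReal (B ^ 2) *
          ∫⁻ x, ENNReal.ofReal ((ft m ρ hρ (ZZ n) x) ^ 2 * wt (2 * m) ρ (XX n) (ZZ n) x)) :
    m * (Real.pi * ρ ^ 2) / 4 * (Real.log (n + 1) / 32) ≤ B := by
  have hpi := Real.pi_pos
  have hmr : (1:ℝ) ≤ m := by exact_mod_cast hm
  have hnr : (1:ℝ) ≤ n := by exact_mod_cast hn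
  have h2m : (0:ℝ) < 2 ^ m := by positivity
  obtain ⟨L, hL⟩ := (ft_contDiff m ρ hρ (ZZ n)).lipschitzWith_of_hasCompactSupport
    (ft_compact m ρ hρ (ZZ n)) (by simp)
  have hL' : ∀ x y : E2, |ft m ρ hρ (ZZ n) x - ft m ρ hρ (ZZ n) y| ≤ (L:ℝ) * ‖x - y‖ := by
    intro x y
    have := hL.dist_le_mul x y
    rwa [Real.dist_eq, dist_eq_norm] at this
  have hex := pv_exists_Rot (Om (4 * n)) (measurable_Om _) 1 (abs_Om_le _) (Om_Rot _)
    (ft m ρ hρ (ZZ n)) L hL' (ft_compact m ρ hρ (ZZ n))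
  choose T hT using hex
  have hineq := h T hT
  set τ : ℝ := m * (Real.pi * ρ ^ 2) / 4 * (Real.log (n + 1) / 32) with hτdef
  have hlog : 0 ≤ Real.log ((n:ℝ) + 1) := Real.log_nonneg (by linarith)
  have hτ : 0 ≤ τ := by rw [hτdef]; positivity
  have hδ : 4 * (ρ / 2 ^ m) ≤ 1 := by
    have : ρ / 2 ^ m ≤ ρ := div_pow_le ρ hρ m
    linarith
  have hTlow : ∀ x ∈ XX n, ∀ y ∈ ball x (ρ / 2 ^ m), τ ≤ T y := by
    intro x hx y hy
    obtain ⟨a, b, ha, hb, rfl⟩ := mem_XX hx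
    have hfar : ∀ z ∈ ZZ n, 1 ≤ ‖gp (2 * a + 1) (2 * b) - z‖ := by
      intro z hz
      rw [← dist_eq_norm]
      refine sep_XZ n _ (Finset.mem_union_left _ hx) _ (Finset.mem_union_right _ hz) ?_
      rintro rfl
      exact Finset.disjoint_left.1 (disj_XZ n) hx hz
    have hΩ1 : ∀ z ∈ ZZ n, ∀ u, ‖u - (gp (2 * a + 1) (2 * b) - z)‖ < 2 * (ρ / 2 ^ m) →
        Om (4 * n) u = 1 := by
      intro z hz u hu
      obtain ⟨a', b', ha', hb', rfl⟩ := mem_ZZ hz
      have hpH : |2 * ((a:ℤ) - a') + 1| ≤ ((4 * n : ℕ) : ℤ) := by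
        rw [abs_le]; push_cast; constructor <;> omega
      have hqH : |2 * ((b:ℤ) - b')| ≤ ((4 * n : ℕ) : ℤ) := by
        rw [abs_le]; push_cast; constructor <;> omega
      refine Om_eval (4 * n) (by omega) (2 * (ρ / 2 ^ m)) ?_ _ (2 * ((a:ℤ) - a') + 1)
        (2 * ((b:ℤ) - b')) ⟨(a:ℤ) - a', by ring⟩ ⟨(b:ℤ) - b', by ring⟩ hpH hqH ?_ ?_ u hu
      · push_cast
        rw [show 32 * (2 * (ρ / 2 ^ m)) * (4 * (n:ℝ)) ^ 2 = (1024 * ρ * n ^ 2) / 2 ^ m by ring,
          div_lt_one h2m]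
        exact hsmall
      · rw [PiLp.sub_apply, gp_zero, gp_zero]; push_cast; ring
      · rw [PiLp.sub_apply, gp_one, gp_one]; push_cast; ring
    have h1 := T_lower m ρ hρ hδ (ZZ n) (gp (2 * a + 1) (2 * b)) hfar (Om (4 * n))
      (measurable_Om _) (abs_Om_le _) hΩ1 y hy (T y) (hT y)
    refine le_trans ?_ h1
    rw [hτdef]
    exact mul_le_mul_of_nonneg_left (grid_sum n a b ha hb) (by positivity)
  have h1 := lint_T_ge m ρ hρ hρ' (XX n) (ZZ n) (disj_XZ n) (sep_XZ n) T τ hτ hTlow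
  have h2 := lint_ft_sq m ρ hρ hρ' (XX n) (ZZ n) (disj_XZ n) (sep_XZ n)
  have h3 := h1.trans (hineq.trans (mul_le_mul_right h2 _))
  rw [card_XX, card_ZZ] at h3
  set N : ℝ := ((2 * n * (2 * n) : ℕ) : ℝ) with hN
  have hNpos : 0 < N := by rw [hN]; push_cast; positivity
  set c : ℝ := m * (Real.pi * ρ ^ 2) with hc
  have hcpos : 0 < c := by rw [hc]; positivity
  have h4 : ((2 * n * (2 * n) : ℕ) : ENNReal) = ENNReal.ofReal N := by
    rw [hN, ENNReal.ofReal_natCast]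
  rw [h4, ← ENNReal.ofReal_mul (sq_nonneg τ), ← ENNReal.ofReal_mul hNpos.le,
    ← ENNReal.ofReal_mul (sq_nonneg B), ENNReal.ofReal_le_ofReal_iff (by positivity)] at h3
  have h5 : τ ^ 2 * (N * c) ≤ B ^ 2 * (N * c) := by linarith
  have h6 := le_of_mul_le_mul_right h5 (by positivity)
  exact (pow_le_pow_iff_left₀ hτ hB two_ne_zero).1 h6

end Pool.Agent.Helper107.Spike
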