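import Mathlib

set_option autoImplicit false
set_option linter.unusedSectionVars false
set_option linter.unusedSimpArgs false

namespace Pool.Agent.Helper107.WS

open Finset

/-- The translation invariant operator on functions on a finite group with kernel `k`. -/
noncomputable def conv {G : Type} [AddCommGroup G] [Fintype G] (k f : G → ℂ) (x : G) : ℂ :=
  ∑ y, k y * f (x + y)

/-- Weak type (4,4) bound for the operator with kernel `k`, with constant `W` for fourth powers. -/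
def WeakB {G : Type} [AddCommGroup G] [Fintype G] (k : G → ℂ) (W : ℝ) : Prop :=
  ∀ (f : G → ℂ) (t : ℝ), 0 < t →
    t ^ 4 * ∑ x, (if t < ‖conv k f x‖ then (1 : ℝ) else 0) ≤ W * ∑ x, ‖f x‖ ^ 4

section basic

variable {G : Type} [AddCommGroup G] [Fintype G]

lemma conv_add (k f g : G → ℂ) (x : G) : conv k (f + g) x = conv k f x + conv k g x := by
  unfold conv
  rw [← Finset.sum_add_distrib]
  refine Finset.sum_congr rfl fun y _ => ?_
  simp only [Pi.add_apply]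
  ring

lemma conv_le_sum (k f : G → ℂ) (x : G) : ‖conv k f x‖ ≤ ∑ y, ‖k y‖ * ‖f (x + y)‖ := by
  unfold conv
  refine (norm_sum_le _ _).trans (Finset.sum_le_sum fun y _ => ?_)
  rw [norm_mul]

lemma conv_sup (k f : G → ℂ) (l : ℝ) (h : ∀ y, ‖f y‖ ≤ l) (x : G) :
    ‖conv k f x‖ ≤ (∑ y, ‖k y‖) * l := by
  refine (conv_le_sum k f x).trans ?_
  rw [Finset.sum_mul]
  exact Finset.sum_le_sum fun y _ => mul_le_mul_of_nonneg_left (h _) (norm_nonneg _)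

lemma sum_shift (F : G → ℝ) (y : G) : ∑ x, F (x + y) = ∑ x, F x :=
  Equiv.sum_comp (Equiv.addRight y) F

lemma conv_l2 (k f : G → ℂ) : ∑ x, ‖conv k f x‖ ^ 2 ≤ (∑ y, ‖k y‖) ^ 2 * ∑ x, ‖f x‖ ^ 2 := by
  have h1 : ∀ x, ‖conv k f x‖ ^ 2 ≤ (∑ y, ‖k y‖) * ∑ y, ‖k y‖ * ‖f (x + y)‖ ^ 2 := by
    intro x
    refine (pow_le_pow_left₀ (norm_nonneg _) (conv_le_sum k f x) 2).trans ?_
    refine Finset.sum_sq_le_sum_mul_sum_of_sq_le_mul _ (fun y _ => norm_nonneg _)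
      (fun y _ => by positivity) (fun y _ => le_of_eq (by ring))
  refine (Finset.sum_le_sum fun x _ => h1 x).trans ?_
  rw [← Finset.mul_sum, Finset.sum_comm]
  have h2 : ∑ y, ∑ x, ‖k y‖ * ‖f (x + y)‖ ^ 2 = (∑ y, ‖k y‖) * ∑ x, ‖f x‖ ^ 2 := by
    rw [Finset.sum_mul]
    refine Finset.sum_congr rfl fun y _ => ?_
    rw [← Finset.mul_sum, sum_shift (fun x => ‖f x‖ ^ 2) y]
  rw [h2]
  apply le_of_eq
  ring

end basic

section chirp

/-- The quadratic chirp on `ZMod N`. -/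
noncomputable def chirp (N : ℕ) [NeZero N] (w : ZMod N) : ℂ := ZMod.stdAddChar (w * w)

lemma chirp_norm (N : ℕ) [NeZero N] (w : ZMod N) : ‖chirp N w‖ = 1 := by
  unfold chirp
  exact AddChar.norm_apply _ _

lemma chi_conj (N : ℕ) [NeZero N] (a : ZMod N) :
    (starRingEnd ℂ) (ZMod.stdAddChar a) = ZMod.stdAddChar (-a) :=
  (AddChar.map_neg_eq_conj _ _).symm

lemma chi_sum (N : ℕ) [NeZero N] (b : ZMod N) :
    ∑ z : ZMod N, (ZMod.stdAddChar (z * b) : ℂ) = if b = 0 then (N : ℂ) else 0 := by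
  have h := AddChar.sum_mulShift b (ZMod.isPrimitive_stdAddChar N)
  rw [h]
  simp [ZMod.card]

lemma two_mul_zero (N : ℕ) (hN : Odd N) (a : ZMod N) (h : 2 * a = 0) : a = 0 := by
  have h2 : IsUnit (2 : ZMod N) := by
    have : ((2 : ℕ) : ZMod N) = 2 := by norm_num
    rw [← this, ZMod.isUnit_iff_coprime]
    exact (Nat.coprime_two_left).2 hN
  exact (h2.mul_right_eq_zero).1 h

lemma chirp_l2 (N : ℕ) [NeZero N] (hN : Odd N) (g : ZMod N → ℂ) :
    ∑ z, ‖conv (chirp N) g z‖ ^ 2 = N * ∑ z, ‖g z‖ ^ 2 := by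
  have h0 : ∀ z, conv (chirp N) g z = ∑ u, chirp N (u - z) * g u := by
    intro z
    unfold conv
    rw [← Equiv.sum_comp (Equiv.addLeft z) (fun u => chirp N (u - z) * g u)]
    refine Finset.sum_congr rfl fun y _ => ?_
    simp
  have h1 : ((∑ z, ‖conv (chirp N) g z‖ ^ 2 : ℝ) : ℂ) = ((N * ∑ z, ‖g z‖ ^ 2 : ℝ) : ℂ) := by
    push_cast
    have h2 : ∀ z, ((‖conv (chirp N) g z‖ : ℂ)) ^ 2
        = ∑ u, ∑ v, (g u * (starRingEnd ℂ) (g v)) *
          (ZMod.stdAddChar (u * u - v * v) * ZMod.stdAddChar (z * (2 * (v - u)))) := by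
      intro z
      rw [← Complex.mul_conj', h0, map_sum, Finset.sum_mul_sum]
      refine Finset.sum_congr rfl fun u _ => Finset.sum_congr rfl fun v _ => ?_
      rw [map_mul]
      unfold chirp
      rw [chi_conj, ← AddChar.map_add_eq_mul]
      have e : u * u - v * v + z * (2 * (v - u)) = (u - z) * (u - z) + -((v - z) * (v - z)) := by
        ring
      rw [e, AddChar.map_add_eq_mul]
      ring
    simp_rw [h2]
    rw [Finset.sum_comm]
    rw [Finset.mul_sum]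
    refine Finset.sum_congr rfl fun u _ => ?_
    rw [Finset.sum_comm]
    rw [Finset.sum_eq_single u]
    · rw [← Finset.mul_sum, ← Finset.mul_sum, chi_sum]
      simp [Complex.mul_conj', mul_comm]
    · intro v _ hv
      rw [← Finset.mul_sum, ← Finset.mul_sum, chi_sum]
      rw [if_neg]
      · simp
      · intro h
        exact hv (sub_eq_zero.1 (two_mul_zero N hN _ h))
    · intro h
      exact absurd (Finset.mem_univ _) h
  exact_mod_cast h1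

lemma chirp_sup (N : ℕ) [NeZero N] (g : ZMod N → ℂ) (z : ZMod N) :
    ‖conv (chirp N) g z‖ ^ 2 ≤ N * ∑ z, ‖g z‖ ^ 2 := by
  have h1 : ‖conv (chirp N) g z‖ ≤ ∑ w, ‖g w‖ := by
    refine (conv_le_sum _ _ _).trans (le_of_eq ?_)
    simp_rw [chirp_norm, one_mul]
    rw [Finset.sum_congr rfl (fun y _ => by rw [add_comm z y])]
    exact sum_shift (fun x => ‖g x‖) z
  refine (pow_le_pow_left₀ (norm_nonneg _) h1 2).trans ?_
  have h2 := sq_sum_le_card_mul_sum_sq (s := (Finset.univ : Finset (ZMod N))) (f := fun w => ‖g w‖)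
  simpa [ZMod.card] using h2

lemma chirp_conj (N : ℕ) [NeZero N] (hN : Odd N) (z : ZMod N) :
    conv (chirp N) (fun w => (starRingEnd ℂ) (chirp N w)) z = if z = 0 then (N : ℂ) else 0 := by
  have h1 : ∀ w, chirp N w * (starRingEnd ℂ) (chirp N (z + w))
      = ZMod.stdAddChar (-(z * z)) * ZMod.stdAddChar (w * (2 * (-z))) := by
    intro w
    unfold chirp
    rw [chi_conj, ← AddChar.map_add_eq_mul, ← AddChar.map_add_eq_mul]
    congr 1
    ring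
  unfold conv
  simp_rw [h1]
  rw [← Finset.mul_sum, chi_sum]
  by_cases hz : z = 0
  · subst hz
    simp
  · rw [if_neg hz, if_neg, mul_zero]
    intro h
    exact hz (neg_eq_zero.1 (two_mul_zero N hN _ h))

end chirp

section tau

/-- The normalised chirp kernel on `ZMod (n ^ 4)`. -/
noncomputable def tau (n : ℕ) [NeZero n] (w : ZMod (n ^ 4)) : ℂ := ((n : ℂ)⁻¹) ^ 3 * chirp (n ^ 4) w

variable (n : ℕ) [NeZero n]

lemma npos : (0 : ℝ) < n := by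
  have := Nat.pos_of_ne_zero (NeZero.ne n)
  exact_mod_cast this

lemma tau_conv (g : ZMod (n ^ 4) → ℂ) (z : ZMod (n ^ 4)) :
    conv (tau n) g z = ((n : ℂ)⁻¹) ^ 3 * conv (chirp (n ^ 4)) g z := by
  unfold conv tau
  rw [Finset.mul_sum]
  exact Finset.sum_congr rfl fun y _ => by ring

lemma tau_norm (w : ZMod (n ^ 4)) : ‖tau n w‖ = ((n : ℝ)⁻¹) ^ 3 := by
  unfold tau
  rw [norm_mul, chirp_norm, norm_pow, norm_inv]
  simp

lemma tau_sum : ∑ w, ‖tau n w‖ = n := by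
  simp_rw [tau_norm]
  have := npos n
  simp [ZMod.card]
  field_simp

lemma tau_l2 (hn : Odd n) (g : ZMod (n ^ 4) → ℂ) :
    ∑ z, ‖conv (tau n) g z‖ ^ 2 = ((n : ℝ)⁻¹) ^ 2 * ∑ z, ‖g z‖ ^ 2 := by
  have h1 : ∀ z, ‖conv (tau n) g z‖ ^ 2 = ((n : ℝ)⁻¹) ^ 6 * ‖conv (chirp (n ^ 4)) g z‖ ^ 2 := by
    intro z
    rw [tau_conv, norm_mul, norm_pow, norm_inv, Complex.norm_natCast]
    ring
  simp_rw [h1]
  rw [← Finset.mul_sum, chirp_l2 _ (hn.pow)]
  have := npos n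
  push_cast
  field_simp

lemma tau_sup2 (g : ZMod (n ^ 4) → ℂ) (z : ZMod (n ^ 4)) :
    ‖conv (tau n) g z‖ ^ 2 ≤ ((n : ℝ)⁻¹) ^ 2 * ∑ z, ‖g z‖ ^ 2 := by
  have h1 : ‖conv (tau n) g z‖ ^ 2 = ((n : ℝ)⁻¹) ^ 6 * ‖conv (chirp (n ^ 4)) g z‖ ^ 2 := by
    rw [tau_conv, norm_mul, norm_pow, norm_inv, Complex.norm_natCast]
    ring
  rw [h1]
  have h2 := chirp_sup (n ^ 4) g z
  have := npos n
  calc ((n : ℝ)⁻¹) ^ 6 * ‖conv (chirp (n ^ 4)) g z‖ ^ 2
      ≤ ((n : ℝ)⁻¹) ^ 6 * (((n ^ 4 : ℕ) : ℝ) * ∑ z, ‖g z‖ ^ 2) :=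
        mul_le_mul_of_nonneg_left h2 (by positivity)
    _ = ((n : ℝ)⁻¹) ^ 2 * ∑ z, ‖g z‖ ^ 2 := by
        push_cast
        field_simp

lemma tau_l4 (hn : Odd n) (g : ZMod (n ^ 4) → ℂ) :
    ∑ z, ‖conv (tau n) g z‖ ^ 4 ≤ ∑ z, ‖g z‖ ^ 4 := by
  have hp := npos n
  have h1 : ∀ z, ‖conv (tau n) g z‖ ^ 4
      ≤ (((n : ℝ)⁻¹) ^ 2 * ∑ z, ‖g z‖ ^ 2) * ‖conv (tau n) g z‖ ^ 2 := by
    intro z
    have := mul_le_mul_of_nonneg_right (tau_sup2 n g z) (sq_nonneg ‖conv (tau n) g z‖)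
    calc ‖conv (tau n) g z‖ ^ 4 = ‖conv (tau n) g z‖ ^ 2 * ‖conv (tau n) g z‖ ^ 2 := by ring
      _ ≤ _ := this
  refine (Finset.sum_le_sum fun z _ => h1 z).trans ?_
  rw [← Finset.mul_sum, tau_l2 n hn]
  have h2 : (∑ z, ‖g z‖ ^ 2) ^ 2 ≤ (n : ℝ) ^ 4 * ∑ z, ‖g z‖ ^ 4 := by
    have h3 := sq_sum_le_card_mul_sum_sq (s := (Finset.univ : Finset (ZMod (n ^ 4))))
      (f := fun w => ‖g w‖ ^ 2)
    simpa [ZMod.card, ← pow_mul] using h3
  calc ((n : ℝ)⁻¹) ^ 2 * (∑ z, ‖g z‖ ^ 2) * (((n : ℝ)⁻¹) ^ 2 * ∑ z, ‖g z‖ ^ 2)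
      = ((n : ℝ)⁻¹) ^ 4 * (∑ z, ‖g z‖ ^ 2) ^ 2 := by ring
    _ ≤ ((n : ℝ)⁻¹) ^ 4 * ((n : ℝ) ^ 4 * ∑ z, ‖g z‖ ^ 4) :=
        mul_le_mul_of_nonneg_left h2 (by positivity)
    _ = ∑ z, ‖g z‖ ^ 4 := by
        field_simp

end tau

section prod

variable {G : Type} [AddCommGroup G] [Fintype G]
variable {H : Type} [AddCommGroup H] [Fintype H]

/-- The operator with kernel `k` acting in the first variable. -/
noncomputable def opA (k : G → ℂ) (f : G × H → ℂ) (p : G × H) : ℂ :=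
  conv k (fun x => f (x, p.2)) p.1

/-- The operator with kernel `k` acting in the second variable. -/
noncomputable def opB (k : H → ℂ) (f : G × H → ℂ) (p : G × H) : ℂ :=
  conv k (fun x => f (p.1, x)) p.2

lemma opA_add (k : G → ℂ) (f g : G × H → ℂ) (p : G × H) :
    opA k (f + g) p = opA k f p + opA k g p := conv_add _ _ _ _

lemma opB_add (k : H → ℂ) (f g : G × H → ℂ) (p : G × H) :
    opB k (f + g) p = opB k f p + opB k g p := conv_add _ _ _ _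

lemma opA_sup (k : G → ℂ) (f : G × H → ℂ) (l : ℝ) (h : ∀ y, ‖f y‖ ≤ l) (p : G × H) :
    ‖opA k f p‖ ≤ (∑ y, ‖k y‖) * l := conv_sup _ _ _ (fun _ => h _) _

lemma opB_sup (k : H → ℂ) (f : G × H → ℂ) (l : ℝ) (h : ∀ y, ‖f y‖ ≤ l) (p : G × H) :
    ‖opB k f p‖ ≤ (∑ y, ‖k y‖) * l := conv_sup _ _ _ (fun _ => h _) _

lemma opA_l2 (k : G → ℂ) (f : G × H → ℂ) :
    ∑ p, ‖opA k f p‖ ^ 2 ≤ (∑ y, ‖k y‖) ^ 2 * ∑ p, ‖f p‖ ^ 2 := by
  rw [Fintype.sum_prod_type_right, Fintype.sum_prod_type_right, Finset.mul_sum]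
  exact Finset.sum_le_sum fun z _ => conv_l2 k (fun x => f (x, z))

lemma opA_weak (k : G → ℂ) (W : ℝ) (hk : WeakB k W) (f : G × H → ℂ) (t : ℝ) (ht : 0 < t) :
    t ^ 4 * ∑ p, (if t < ‖opA k f p‖ then (1 : ℝ) else 0) ≤ W * ∑ p, ‖f p‖ ^ 4 := by
  rw [Fintype.sum_prod_type_right, Fintype.sum_prod_type_right, Finset.mul_sum, Finset.mul_sum]
  exact Finset.sum_le_sum fun z _ => hk (fun x => f (x, z)) t ht

lemma opB_l2 (n : ℕ) [NeZero n] (hn : Odd n) (f : G × ZMod (n ^ 4) → ℂ) :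
    ∑ p, ‖opB (tau n) f p‖ ^ 2 = ((n : ℝ)⁻¹) ^ 2 * ∑ p, ‖f p‖ ^ 2 := by
  rw [Fintype.sum_prod_type, Fintype.sum_prod_type, Finset.mul_sum]
  exact Finset.sum_congr rfl fun z _ => tau_l2 n hn (fun x => f (z, x))

lemma opB_l4 (n : ℕ) [NeZero n] (hn : Odd n) (f : G × ZMod (n ^ 4) → ℂ) :
    ∑ p, ‖opB (tau n) f p‖ ^ 4 ≤ ∑ p, ‖f p‖ ^ 4 := by
  rw [Fintype.sum_prod_type, Fintype.sum_prod_type]
  exact Finset.sum_le_sum fun z _ => tau_l4 n hn (fun x => f (z, x))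

/-- The kernel of the identity plus the normalised chirp operator. -/
noncomputable def qker (n : ℕ) [NeZero n] (w : ZMod (n ^ 4)) : ℂ := (if w = 0 then 1 else 0) + tau n w

lemma conv_qker (n : ℕ) [NeZero n] (g : ZMod (n ^ 4) → ℂ) (z : ZMod (n ^ 4)) :
    conv (qker n) g z = g z + conv (tau n) g z := by
  unfold conv qker
  simp_rw [add_mul, Finset.sum_add_distrib]
  simp

lemma conv_prod (k : G → ℂ) (q : H → ℂ) (f : G × H → ℂ) (p : G × H) :
    conv (fun r : G × H => k r.1 * q r.2) f p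
      = conv k (fun x => conv q (fun z => f (x, z)) p.2) p.1 := by
  unfold conv
  rw [Fintype.sum_prod_type]
  refine Finset.sum_congr rfl fun y _ => ?_
  rw [Finset.mul_sum]
  refine Finset.sum_congr rfl fun z _ => ?_
  simp only [Prod.fst_add, Prod.snd_add]
  rw [mul_assoc]
  rfl

lemma conv_prod_qker (k : G → ℂ) (n : ℕ) [NeZero n] (f : G × ZMod (n ^ 4) → ℂ)
    (p : G × ZMod (n ^ 4)) :
    conv (fun r : G × ZMod (n ^ 4) => k r.1 * qker n r.2) f p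
      = opA k (f + opB (tau n) f) p := by
  rw [conv_prod]
  unfold opA opB
  congr 1
  funext x
  rw [conv_qker]
  rfl

end prod

end Pool.Agent.Helper107.WS
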