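import Mathlib
import Pool.Agent.Helper107.WSa

set_option autoImplicit false
set_option linter.unusedSectionVars false
set_option linter.unusedSimpArgs false

namespace Pool.Agent.Helper107.WS

open Finset

section step

variable {G : Type} [AddCommGroup G] [Fintype G]

lemma pow4_add (a b : ℂ) : ‖a + b‖ ^ 4 ≤ 8 * (‖a‖ ^ 4 + ‖b‖ ^ 4) := by
  have h1 := norm_add_le a b
  have h2 := pow_le_pow_left₀ (norm_nonneg _) h1 4
  refine h2.trans ?_
  have ha := norm_nonneg a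
  have hb := norm_nonneg b
  generalize ‖a‖ = x at *
  generalize ‖b‖ = y at *
  nlinarith [sq_nonneg (x ^ 2 - y ^ 2), sq_nonneg (x - y), mul_nonneg ha hb,
    mul_nonneg (sq_nonneg (x - y)) (sq_nonneg (x + y)), sq_nonneg ((x - y) ^ 2),
    mul_nonneg (sq_nonneg (x - y)) (mul_nonneg ha hb)]

/-- One step of the construction, weak bound. Parameters: `b` bounds the kernel sum, `d` is the small
loss, `R` is large. -/
lemma weak_core (k : G → ℂ) (W b d R : ℝ) (hW : 0 ≤ W) (hk : WeakB k W) (hb : ∑ y, ‖k y‖ ≤ b)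
    (hb1 : 1 ≤ b) (hd : 0 < d) (hd1 : 3 * d < 1) (hR : 1 ≤ R) (_hdR : d ≤ 1)
    (n : ℕ) [NeZero n] (hn : Odd n) (hnR : R * b / d ≤ n)
    (f : G × ZMod (n ^ 4) → ℂ) (t : ℝ) (ht : 0 < t) :
    t ^ 4 * ∑ p, (if t < ‖conv (fun r : G × ZMod (n ^ 4) => k r.1 * qker n r.2) f p‖
      then (1 : ℝ) else 0) ≤ (8 * W / (1 - 3 * d) ^ 4 + b ^ 2 / (R ^ 2 * d ^ 2)) *
        ∑ p, ‖f p‖ ^ 4 := by
  have hn0 := npos n
  have hb0 : 0 < b := by linarith
  have hR0 : 0 < R := by linarith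
  set l0 : ℝ := d * t / (n * b) with hl0
  set l1 : ℝ := d * t / b with hl1
  set l2 : ℝ := R * t / n with hl2
  have hl0pos : 0 < l0 := by positivity
  have hl1pos : 0 < l1 := by positivity
  have hl2pos : 0 < l2 := by positivity
  have h21 : l2 ≤ l1 := by
    rw [hl2, hl1, div_le_div_iff₀ hn0 hb0]
    have : R * b ≤ n * d := by rwa [div_le_iff₀ hd] at hnR
    nlinarith
  have h02 : l0 ≤ l2 := by
    rw [hl2, hl0, div_le_div_iff₀ (by positivity) hn0]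
    have : d ≤ R * b := by nlinarith
    have h3 : 0 < t * n := by positivity
    nlinarith
  set fh : G × ZMod (n ^ 4) → ℂ := fun p => if l1 < ‖f p‖ then f p else 0 with hfh
  set fr : G × ZMod (n ^ 4) → ℂ := fun p => if l1 < ‖f p‖ then 0 else f p with hfr
  set fl : G × ZMod (n ^ 4) → ℂ := fun p => if ‖f p‖ ≤ l0 then f p else 0 with hfl
  set fm : G × ZMod (n ^ 4) → ℂ := fun p => if l0 < ‖f p‖ ∧ ‖f p‖ ≤ l2 then f p else 0 with hfm
  set ft : G × ZMod (n ^ 4) → ℂ := fun p => if l2 < ‖f p‖ then f p else 0 with hft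
  have e1 : f = fh + fr := by
    funext p
    simp only [hfh, hfr, Pi.add_apply]
    split_ifs <;> simp
  have e2 : f = fl + (fm + ft) := by
    funext p
    simp only [hfl, hfm, hft, Pi.add_apply]
    rcases le_or_gt ‖f p‖ l0 with h | h
    · rw [if_pos h, if_neg (fun hh => absurd hh.1 (not_lt.2 h)),
        if_neg (not_lt.2 (h.trans h02))]
      simp
    · rw [if_neg (not_le.2 h)]
      rcases le_or_gt ‖f p‖ l2 with h' | h'
      · rw [if_pos ⟨h, h'⟩, if_neg (not_lt.2 h')]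
        simp
      · rw [if_neg (fun hh => absurd hh.2 (not_le.2 h')), if_pos h']
        simp
  set phi : G × ZMod (n ^ 4) → ℂ := fh + opB (tau n) fm with hphi
  set ht' : G × ZMod (n ^ 4) → ℂ := opB (tau n) ft with hht'
  have e3 : f + opB (tau n) f = phi + (fr + (opB (tau n) fl + ht')) := by
    funext p
    have q1 : opB (tau n) f p = opB (tau n) fl p + (opB (tau n) fm p + opB (tau n) ft p) := by
      conv_lhs => rw [e2]
      rw [opB_add, opB_add]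
    have q2 : f p = fh p + fr p := by
      conv_lhs => rw [e1]
      rfl
    simp only [hphi, hht', Pi.add_apply]
    rw [q1, q2]
    ring
  have b1 : ∀ p, ‖opA k fr p‖ ≤ d * t := by
    intro p
    have := opA_sup k fr l1 (fun y => by
      simp only [hfr]
      split_ifs with h
      · simpa using hl1pos.le
      · exact not_lt.1 h) p
    refine this.trans ?_
    refine (mul_le_mul_of_nonneg_right hb hl1pos.le).trans (le_of_eq ?_)
    rw [hl1]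
    field_simp
  have b2 : ∀ p, ‖opA k (opB (tau n) fl) p‖ ≤ d * t := by
    intro p
    have h1 := opB_sup (tau n) fl l0 (fun y => by
      simp only [hfl]
      split_ifs with h
      · exact h
      · simpa using hl0pos.le)
    rw [tau_sum] at h1
    have := opA_sup k (opB (tau n) fl) _ h1 p
    refine this.trans ?_
    refine (mul_le_mul_of_nonneg_right hb (by positivity)).trans (le_of_eq ?_)
    rw [hl0]
    field_simp
  have key : ∀ p, (if t < ‖conv (fun r : G × ZMod (n ^ 4) => k r.1 * qker n r.2) f p‖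
      then (1 : ℝ) else 0) ≤ (if (1 - 3 * d) * t < ‖opA k phi p‖ then (1 : ℝ) else 0)
        + ‖opA k ht' p‖ ^ 2 / (d * t) ^ 2 := by
    intro p
    have hnn : 0 ≤ ‖opA k ht' p‖ ^ 2 / (d * t) ^ 2 := by positivity
    split_ifs with h1 h2 h3
    · linarith
    · rw [conv_prod_qker, e3, opA_add k phi, opA_add k fr, opA_add k (opB (tau n) fl)] at h1
      have c1 := b1 p
      have c2 := b2 p
      have c3 := norm_add_le (opA k phi p) (opA k fr p + (opA k (opB (tau n) fl) p + opA k ht' p))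
      have c4 := norm_add_le (opA k fr p) (opA k (opB (tau n) fl) p + opA k ht' p)
      have c5 := norm_add_le (opA k (opB (tau n) fl) p) (opA k ht' p)
      have c6 : d * t < ‖opA k ht' p‖ := by
        push Not at h2
        nlinarith
      rw [zero_add, le_div_iff₀ (by positivity), one_mul]
      exact pow_le_pow_left₀ (by positivity) c6.le 2
    · linarith
    · linarith
  have hphi4 : ∑ p, ‖phi p‖ ^ 4 ≤ 8 * ∑ p, ‖f p‖ ^ 4 := by
    have h1 : ∑ p, ‖phi p‖ ^ 4 ≤ ∑ p, 8 * (‖fh p‖ ^ 4 + ‖opB (tau n) fm p‖ ^ 4) :=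
      Finset.sum_le_sum fun p _ => pow4_add _ _
    refine h1.trans ?_
    rw [← Finset.mul_sum, Finset.sum_add_distrib]
    have h2 := opB_l4 n hn fm
    have h3 : ∑ p, ‖fh p‖ ^ 4 + ∑ p, ‖fm p‖ ^ 4 ≤ ∑ p, ‖f p‖ ^ 4 := by
      rw [← Finset.sum_add_distrib]
      refine Finset.sum_le_sum fun p _ => ?_
      simp only [hfh, hfm]
      rcases le_or_gt ‖f p‖ l2 with h' | h'
      · rw [if_neg (not_lt.2 (h'.trans h21))]
        split_ifs
        · simp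
        · simp
      · have : ¬ (l0 < ‖f p‖ ∧ ‖f p‖ ≤ l2) := fun hh => absurd hh.2 (not_le.2 h')
        rw [if_neg this]
        split_ifs
        · simp
        · simp
    linarith
  have hmain : t ^ 4 * ∑ p, (if (1 - 3 * d) * t < ‖opA k phi p‖ then (1 : ℝ) else 0)
      ≤ W / (1 - 3 * d) ^ 4 * ∑ p, ‖phi p‖ ^ 4 := by
    have hd3 : 0 < 1 - 3 * d := by linarith
    have h1 := opA_weak k W hk phi ((1 - 3 * d) * t) (by positivity)
    rw [div_mul_eq_mul_div, le_div_iff₀ (by positivity)]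
    calc _ = ((1 - 3 * d) * t) ^ 4 *
        ∑ p, (if (1 - 3 * d) * t < ‖opA k phi p‖ then (1 : ℝ) else 0) := by ring
      _ ≤ _ := h1
  have htop : t ^ 4 * ∑ p, ‖opA k ht' p‖ ^ 2 / (d * t) ^ 2
      ≤ b ^ 2 / (R ^ 2 * d ^ 2) * ∑ p, ‖f p‖ ^ 4 := by
    have h1 := opA_l2 k ht'
    have h2 : ∑ p, ‖ht' p‖ ^ 2 = ((n : ℝ)⁻¹) ^ 2 * ∑ p, ‖ft p‖ ^ 2 := opB_l2 n hn ft
    have h3 : l2 ^ 2 * ∑ p, ‖ft p‖ ^ 2 ≤ ∑ p, ‖f p‖ ^ 4 := by
      rw [Finset.mul_sum]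
      refine Finset.sum_le_sum fun p _ => ?_
      simp only [hft]
      split_ifs with h
      · have : l2 ^ 2 ≤ ‖f p‖ ^ 2 := pow_le_pow_left₀ hl2pos.le h.le 2
        calc l2 ^ 2 * ‖f p‖ ^ 2 ≤ ‖f p‖ ^ 2 * ‖f p‖ ^ 2 :=
              mul_le_mul_of_nonneg_right this (sq_nonneg _)
          _ = ‖f p‖ ^ 4 := by ring
      · simp
    have h4 : ∑ p, ‖ft p‖ ^ 2 ≤ (n ^ 2 / (R ^ 2 * t ^ 2)) * ∑ p, ‖f p‖ ^ 4 := by
      rw [hl2] at h3
      rw [div_mul_eq_mul_div, le_div_iff₀ (by positivity)]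
      have : (R * t / n) ^ 2 * n ^ 2 = R ^ 2 * t ^ 2 := by field_simp
      calc (∑ p, ‖ft p‖ ^ 2) * (R ^ 2 * t ^ 2)
          = ((R * t / n) ^ 2 * ∑ p, ‖ft p‖ ^ 2) * n ^ 2 := by rw [← this]; ring
        _ ≤ (∑ p, ‖f p‖ ^ 4) * n ^ 2 := mul_le_mul_of_nonneg_right h3 (by positivity)
        _ = _ := by ring
    have h5 : ∑ p, ‖opA k ht' p‖ ^ 2 ≤ b ^ 2 / (R ^ 2 * t ^ 2) * ∑ p, ‖f p‖ ^ 4 := by
      have hs0 : 0 ≤ ∑ y, ‖k y‖ := Finset.sum_nonneg fun y _ => norm_nonneg _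
      calc ∑ p, ‖opA k ht' p‖ ^ 2 ≤ (∑ y, ‖k y‖) ^ 2 * ∑ p, ‖ht' p‖ ^ 2 := h1
        _ ≤ b ^ 2 * ∑ p, ‖ht' p‖ ^ 2 :=
            mul_le_mul_of_nonneg_right (pow_le_pow_left₀ hs0 hb 2)
              (Finset.sum_nonneg fun p _ => sq_nonneg _)
        _ = b ^ 2 * (((n : ℝ)⁻¹) ^ 2 * ∑ p, ‖ft p‖ ^ 2) := by rw [h2]
        _ ≤ b ^ 2 * (((n : ℝ)⁻¹) ^ 2 * ((n ^ 2 / (R ^ 2 * t ^ 2)) * ∑ p, ‖f p‖ ^ 4)) := by
            gcongr
        _ = b ^ 2 / (R ^ 2 * t ^ 2) * ∑ p, ‖f p‖ ^ 4 := by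
            field_simp
    rw [← Finset.sum_div]
    calc t ^ 4 * ((∑ p, ‖opA k ht' p‖ ^ 2) / (d * t) ^ 2)
        ≤ t ^ 4 * ((b ^ 2 / (R ^ 2 * t ^ 2) * ∑ p, ‖f p‖ ^ 4) / (d * t) ^ 2) := by gcongr
      _ = b ^ 2 / (R ^ 2 * d ^ 2) * ∑ p, ‖f p‖ ^ 4 := by field_simp
  have hfin : t ^ 4 * ∑ p, (if t < ‖conv (fun r : G × ZMod (n ^ 4) => k r.1 * qker n r.2) f p‖
      then (1 : ℝ) else 0) ≤ W / (1 - 3 * d) ^ 4 * ∑ p, ‖phi p‖ ^ 4
        + b ^ 2 / (R ^ 2 * d ^ 2) * ∑ p, ‖f p‖ ^ 4 := by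
    refine le_trans ?_ (add_le_add hmain htop)
    rw [← mul_add, ← Finset.sum_add_distrib]
    exact mul_le_mul_of_nonneg_left (Finset.sum_le_sum fun p _ => key p) (by positivity)
  have hd3 : 0 < 1 - 3 * d := by linarith
  have hc : 0 ≤ W / (1 - 3 * d) ^ 4 := by positivity
  calc t ^ 4 * ∑ p, (if t < ‖conv (fun r : G × ZMod (n ^ 4) => k r.1 * qker n r.2) f p‖
      then (1 : ℝ) else 0) ≤ W / (1 - 3 * d) ^ 4 * ∑ p, ‖phi p‖ ^ 4
        + b ^ 2 / (R ^ 2 * d ^ 2) * ∑ p, ‖f p‖ ^ 4 := hfin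
    _ ≤ W / (1 - 3 * d) ^ 4 * (8 * ∑ p, ‖f p‖ ^ 4)
        + b ^ 2 / (R ^ 2 * d ^ 2) * ∑ p, ‖f p‖ ^ 4 := by
        have := mul_le_mul_of_nonneg_left hphi4 hc
        linarith
    _ = (8 * W / (1 - 3 * d) ^ 4 + b ^ 2 / (R ^ 2 * d ^ 2)) * ∑ p, ‖f p‖ ^ 4 := by ring

/-- For all large odd `n` the weak constant grows by at most the factor `33 / 4`. -/
lemma weak_step (k : G → ℂ) (W : ℝ) (hW : 0 < W) (hk : WeakB k W) :
    ∃ n0 : ℕ, ∀ (n : ℕ) [NeZero n], Odd n → n0 ≤ n →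
      WeakB (fun r : G × ZMod (n ^ 4) => k r.1 * qker n r.2) (33 / 4 * W) := by
  obtain ⟨b, hb⟩ : ∃ b : ℝ, b = 1 + ∑ y, ‖k y‖ := ⟨_, rfl⟩
  have hs0 : 0 ≤ ∑ y, ‖k y‖ := Finset.sum_nonneg fun y _ => norm_nonneg _
  have hb1 : 1 ≤ b := by linarith
  obtain ⟨d, hd⟩ : ∃ d : ℝ, d = 1 / 1000 := ⟨_, rfl⟩
  have hd0 : 0 < d := by rw [hd]; norm_num
  obtain ⟨R, hR⟩ : ∃ R : ℝ, R = 1 + 20 * b ^ 2 / (d ^ 2 * W) := ⟨_, rfl⟩
  have hR1 : 1 ≤ R := by
    have : 0 ≤ 20 * b ^ 2 / (d ^ 2 * W) := by positivity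
    linarith
  obtain ⟨n0, hn0⟩ := exists_nat_ge (R * b / d)
  refine ⟨n0, fun n _ hn hnn f t ht => ?_⟩
  have h1 := weak_core k W b d R hW.le hk (by linarith) hb1 (by norm_num [hd]) (by norm_num [hd])
    hR1 (by norm_num [hd]) n hn (hn0.trans (by exact_mod_cast hnn)) f t ht
  refine h1.trans (mul_le_mul_of_nonneg_right ?_ (Finset.sum_nonneg fun p _ => by positivity))
  have h2 : 8 * W / (1 - 3 * d) ^ 4 ≤ 41 / 5 * W := by
    rw [hd, div_le_iff₀ (by norm_num)]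
    have : (8 : ℝ) ≤ 41 / 5 * (1 - 3 * (1 / 1000)) ^ 4 := by norm_num
    nlinarith
  have h3 : b ^ 2 / (R ^ 2 * d ^ 2) ≤ 1 / 20 * W := by
    have hR0 : 0 < R := by linarith
    rw [div_le_iff₀ (by positivity)]
    have h4 : 20 * b ^ 2 / (d ^ 2 * W) ≤ R := by linarith
    rw [div_le_iff₀ (by positivity)] at h4
    have h5 : R ≤ R ^ 2 := by nlinarith
    have h6 : 0 < d ^ 2 * W := by positivity
    have h7 := h4.trans (mul_le_mul_of_nonneg_right h5 h6.le)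
    have h8 : b ^ 2 ≤ 1 / 20 * (R ^ 2 * (d ^ 2 * W)) := by linarith
    refine h8.trans (le_of_eq (by ring))
  linarith

end step

section strong

lemma qker_test (n : ℕ) [NeZero n] (hn : Odd n) (hn1 : 1000 ≤ n) :
    ∃ f : ZMod (n ^ 4) → ℂ, 0 < ∑ z, ‖f z‖ ^ 4 ∧
      42 / 5 * ∑ z, ‖f z‖ ^ 4 ≤ ∑ z, ‖conv (qker n) f z‖ ^ 4 := by
  have hn0 := npos n
  have hnR : (1000 : ℝ) ≤ n := by exact_mod_cast hn1
  set e : ZMod (n ^ 4) → ℂ := fun z => if z = 0 then 1 else 0 with he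
  set F : ZMod (n ^ 4) → ℂ := fun z => (n : ℂ)⁻¹ * (starRingEnd ℂ) (chirp (n ^ 4) z) with hF
  have hFn : ∀ z, ‖F z‖ = (n : ℝ)⁻¹ := by
    intro z
    simp only [hF]
    rw [norm_mul, RCLike.norm_conj, chirp_norm, norm_inv, Complex.norm_natCast, mul_one]
  have hF0 : F 0 = (n : ℂ)⁻¹ := by
    simp [hF, chirp]
  have hTe : ∀ z, ‖conv (tau n) e z‖ = ((n : ℝ)⁻¹) ^ 3 := by
    intro z
    have : conv (tau n) e z = tau n (-z) := by
      unfold conv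
      rw [Finset.sum_eq_single (-z)]
      · simp [he]
      · intro b _ hb
        have : z + b ≠ 0 := fun h => hb (by rw [eq_neg_iff_add_eq_zero, add_comm]; exact h)
        simp [he, this]
      · intro h
        exact absurd (Finset.mem_univ _) h
    rw [this, tau_norm]
  have hTF : ∀ z, conv (tau n) F z = e z := by
    intro z
    rw [tau_conv]
    have h1 : conv (chirp (n ^ 4)) F z
        = (n : ℂ)⁻¹ * conv (chirp (n ^ 4)) (fun w => (starRingEnd ℂ) (chirp (n ^ 4) w)) z := by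
      unfold conv
      rw [Finset.mul_sum]
      exact Finset.sum_congr rfl fun y _ => by simp only [hF]; ring
    rw [h1, chirp_conj _ (hn.pow)]
    have hnc : (n : ℂ) ≠ 0 := by exact_mod_cast (NeZero.ne n)
    simp only [he]
    split_ifs
    · push_cast
      field_simp
    · simp
  refine ⟨F + e, ?_, ?_⟩
  · refine lt_of_lt_of_le ?_ (Finset.single_le_sum (f := fun z => ‖(F + e) z‖ ^ 4)
      (fun z _ => by positivity) (Finset.mem_univ 0))
    have : (F + e) 0 = (((n : ℝ)⁻¹ + 1 : ℝ) : ℂ) := by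
      simp [hF0, he]
    simp only [this]
    rw [Complex.norm_real, Real.norm_of_nonneg (by positivity)]
    positivity
  · have hcard : ((Finset.univ.erase (0 : ZMod (n ^ 4))).card : ℝ) = (n : ℝ) ^ 4 - 1 := by
      rw [Finset.card_erase_of_mem (Finset.mem_univ _), Finset.card_univ, ZMod.card]
      rw [Nat.cast_sub (Nat.one_le_iff_ne_zero.2 (NeZero.ne _))]
      push_cast
      ring
    have hup : ∑ z, ‖(F + e) z‖ ^ 4 ≤ ((n : ℝ)⁻¹ + 1) ^ 4 + 1 := by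
      rw [← Finset.add_sum_erase _ _ (Finset.mem_univ (0 : ZMod (n ^ 4)))]
      have h1 : (F + e) 0 = (((n : ℝ)⁻¹ + 1 : ℝ) : ℂ) := by
        simp [hF0, he]
      have h2 : ‖(F + e) 0‖ = (n : ℝ)⁻¹ + 1 := by
        rw [h1, Complex.norm_real, Real.norm_of_nonneg (by positivity)]
      rw [h2]
      have h3 : ∑ z ∈ Finset.univ.erase (0 : ZMod (n ^ 4)), ‖(F + e) z‖ ^ 4
          = ((n : ℝ) ^ 4 - 1) * ((n : ℝ)⁻¹) ^ 4 := by
        rw [← hcard, ← nsmul_eq_mul, ← Finset.sum_const]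
        refine Finset.sum_congr rfl fun z hz => ?_
        have hz0 : z ≠ 0 := Finset.ne_of_mem_erase hz
        have : (F + e) z = F z := by simp [he, hz0]
        rw [this, hFn]
      rw [h3]
      have h4 : ((n : ℝ) ^ 4 - 1) * ((n : ℝ)⁻¹) ^ 4 ≤ 1 := by
        have : (n : ℝ) ^ 4 * ((n : ℝ)⁻¹) ^ 4 = 1 := by
          rw [← mul_pow, mul_inv_cancel₀ hn0.ne', one_pow]
        have h5 : 0 ≤ ((n : ℝ)⁻¹) ^ 4 := by positivity
        nlinarith
      linarith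
    have hlow : 16 + ((n : ℝ) ^ 4 - 1) * ((n : ℝ)⁻¹ - ((n : ℝ)⁻¹) ^ 3) ^ 4
        ≤ ∑ z, ‖conv (qker n) (F + e) z‖ ^ 4 := by
      rw [← Finset.add_sum_erase _ _ (Finset.mem_univ (0 : ZMod (n ^ 4)))]
      have hq : ∀ z, conv (qker n) (F + e) z = F z + 2 * e z + conv (tau n) e z := by
        intro z
        rw [conv_qker, conv_add, hTF]
        simp only [Pi.add_apply]
        ring
      refine add_le_add ?_ ?_
      · rw [hq]
        have h1 : F 0 + 2 * e 0 = (((n : ℝ)⁻¹ + 2 : ℝ) : ℂ) := by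
          simp [hF0, he]
        have h2 := norm_sub_norm_le (F 0 + 2 * e 0) (-(conv (tau n) e 0))
        rw [norm_neg, hTe, sub_neg_eq_add, h1, Complex.norm_real,
          Real.norm_of_nonneg (by positivity)] at h2
        have h3 : (2 : ℝ) ≤ ‖(((n : ℝ)⁻¹ + 2 : ℝ) : ℂ) + conv (tau n) e 0‖ := by
          refine le_trans ?_ h2
          have h4 : ((n : ℝ)⁻¹) ^ 3 ≤ (n : ℝ)⁻¹ := by
            have h5 : (n : ℝ)⁻¹ ≤ 1 := inv_le_one_of_one_le₀ (by linarith)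
            have h6 : 0 < (n : ℝ)⁻¹ := by positivity
            calc ((n : ℝ)⁻¹) ^ 3 ≤ ((n : ℝ)⁻¹) ^ 1 := pow_le_pow_of_le_one h6.le h5 (by norm_num)
              _ = _ := pow_one _
          linarith
        rw [h1]
        calc (16 : ℝ) = 2 ^ 4 := by norm_num
          _ ≤ _ := pow_le_pow_left₀ (by norm_num) h3 4
      · rw [← hcard, ← nsmul_eq_mul, ← Finset.sum_const]
        refine Finset.sum_le_sum fun z hz => ?_
        have hz0 : z ≠ 0 := Finset.ne_of_mem_erase hz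
        rw [hq]
        have h1 : e z = 0 := by simp [he, hz0]
        rw [h1, mul_zero, add_zero]
        have h2 := norm_sub_norm_le (F z) (-(conv (tau n) e z))
        rw [norm_neg, hTe, sub_neg_eq_add, hFn] at h2
        refine pow_le_pow_left₀ ?_ h2 4
        have h5 : (n : ℝ)⁻¹ ≤ 1 := inv_le_one_of_one_le₀ (by linarith)
        have h6 : 0 < (n : ℝ)⁻¹ := by positivity
        have : ((n : ℝ)⁻¹) ^ 3 ≤ ((n : ℝ)⁻¹) ^ 1 := pow_le_pow_of_le_one h6.le h5 (by norm_num)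
        rw [pow_one] at this
        linarith
    refine le_trans (mul_le_mul_of_nonneg_left hup (by norm_num)) (le_trans ?_ hlow)
    have hi : (n : ℝ)⁻¹ ≤ 1 / 1000 := by
      rw [inv_eq_one_div]
      exact one_div_le_one_div_of_le (by norm_num) hnR
    have hi0 : 0 < (n : ℝ)⁻¹ := by positivity
    have e1 : ((n : ℝ) ^ 4 - 1) * ((n : ℝ)⁻¹ - ((n : ℝ)⁻¹) ^ 3) ^ 4
        = (1 - ((n : ℝ)⁻¹) ^ 4) * (1 - ((n : ℝ)⁻¹) ^ 2) ^ 4 := by
      field_simp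
    rw [e1]
    have g1 : ((n : ℝ)⁻¹ + 1) ^ 4 ≤ (1 / 1000 + 1) ^ 4 :=
      pow_le_pow_left₀ (by positivity) (by linarith) 4
    have g2 : ((n : ℝ)⁻¹) ^ 4 ≤ (1 / 1000) ^ 4 := pow_le_pow_left₀ hi0.le hi 4
    have g3 : ((n : ℝ)⁻¹) ^ 2 ≤ (1 / 1000) ^ 2 := pow_le_pow_left₀ hi0.le hi 2
    have g4 : (1 - (1 / 1000) ^ 2 : ℝ) ^ 4 ≤ (1 - ((n : ℝ)⁻¹) ^ 2) ^ 4 :=
      pow_le_pow_left₀ (by norm_num) (by linarith) 4
    have g5 : (1 - (1 / 1000) ^ 4 : ℝ) * (1 - (1 / 1000) ^ 2 : ℝ) ^ 4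
        ≤ (1 - ((n : ℝ)⁻¹) ^ 4) * (1 - ((n : ℝ)⁻¹) ^ 2) ^ 4 := by
      refine mul_le_mul (by linarith) g4 (by norm_num) ?_
      have : (1 / 1000 : ℝ) ^ 4 ≤ 1 := by norm_num
      linarith
    refine le_trans ?_ (add_le_add_right g5 16)
    refine le_trans (mul_le_mul_of_nonneg_left (add_le_add_left g1 1) (by norm_num)) ?_
    norm_num

end strong

section equiv

variable {G : Type} [AddCommGroup G] [Fintype G]
variable {H : Type} [AddCommGroup H] [Fintype H]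

lemma conv_equiv (e : G ≃+ H) (k : H → ℂ) (f : G → ℂ) (x : G) :
    conv (fun y => k (e y)) f x = conv k (fun z => f (e.symm z)) (e x) := by
  unfold conv
  rw [← Equiv.sum_comp e.toEquiv]
  refine Finset.sum_congr rfl fun y _ => ?_
  simp

lemma WeakB_equiv (e : G ≃+ H) (k : H → ℂ) (W : ℝ) (h : WeakB k W) :
    WeakB (fun y => k (e y)) W := by
  intro f t ht
  have h1 := h (fun z => f (e.symm z)) t ht
  have e1 : ∑ x, (if t < ‖conv (fun y => k (e y)) f x‖ then (1 : ℝ) else 0)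
      = ∑ z, (if t < ‖conv k (fun z => f (e.symm z)) z‖ then (1 : ℝ) else 0) := by
    rw [← Equiv.sum_comp e.toEquiv]
    refine Finset.sum_congr rfl fun y _ => ?_
    rw [conv_equiv]
    rfl
  have e2 : ∑ z, ‖f (e.symm z)‖ ^ 4 = ∑ x, ‖f x‖ ^ 4 :=
    Equiv.sum_comp e.symm.toEquiv (fun x => ‖f x‖ ^ 4)
  rw [e1, ← e2]
  exact h1

lemma conv_tensor (k : G → ℂ) (q : H → ℂ) (φ : G → ℂ) (f : H → ℂ) (p : G × H) :
    conv (fun r : G × H => k r.1 * q r.2) (fun r => φ r.1 * f r.2) p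
      = conv k φ p.1 * conv q f p.2 := by
  rw [conv_prod]
  unfold conv
  rw [Finset.sum_mul_sum]
  refine Finset.sum_congr rfl fun y _ => ?_
  simp only
  rw [Finset.mul_sum]
  exact Finset.sum_congr rfl fun z _ => by ring

/-- The group `G` carries a kernel whose strong constant exceeds `ρ` times its weak constant. -/
def GoodG (G : Type) [AddCommGroup G] [Fintype G] (ρ : ℝ) : Prop :=
  ∃ (k : G → ℂ) (W : ℝ) (φ : G → ℂ), 0 < W ∧ WeakB k W ∧ 0 < ∑ x, ‖φ x‖ ^ 4 ∧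
    ρ * W * ∑ x, ‖φ x‖ ^ 4 ≤ ∑ x, ‖conv k φ x‖ ^ 4

lemma GoodG_equiv (e : G ≃+ H) (ρ : ℝ) (h : GoodG H ρ) : GoodG G ρ := by
  obtain ⟨k, W, φ, hW, hk, hφ, hS⟩ := h
  have h1 : ∑ x, ‖φ (e x)‖ ^ 4 = ∑ x, ‖φ x‖ ^ 4 :=
    Equiv.sum_comp e.toEquiv (fun x => ‖φ x‖ ^ 4)
  have h2 : ∑ x, ‖conv (fun y => k (e y)) (fun y => φ (e y)) x‖ ^ 4
      = ∑ x, ‖conv k φ x‖ ^ 4 := by
    rw [← Equiv.sum_comp e.toEquiv (fun x => ‖conv k φ x‖ ^ 4)]
    refine Finset.sum_congr rfl fun x _ => ?_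
    rw [conv_equiv]
    have h3 : (fun z => φ (e (e.symm z))) = φ := by
      funext z
      simp
    rw [h3]
    rfl
  refine ⟨fun y => k (e y), W, fun y => φ (e y), hW, WeakB_equiv e _ _ hk, ?_, ?_⟩
  · rw [h1]
    exact hφ
  · rw [h1, h2]
    exact hS

lemma GoodG_prod (k : G → ℂ) (q : H → ℂ) (φ : G → ℂ) (f : H → ℂ) (W W' s ρ : ℝ)
    (hρ : 0 ≤ ρ) (hs : 0 ≤ s) (hW : 0 < W) (hW' : 0 < W')
    (hk : WeakB (fun r : G × H => k r.1 * q r.2) W') (hφ : 0 < ∑ x, ‖φ x‖ ^ 4)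
    (hf : 0 < ∑ x, ‖f x‖ ^ 4)
    (h1 : ρ * W * ∑ x, ‖φ x‖ ^ 4 ≤ ∑ x, ‖conv k φ x‖ ^ 4)
    (h2 : s * ∑ x, ‖f x‖ ^ 4 ≤ ∑ x, ‖conv q f x‖ ^ 4) :
    GoodG (G × H) (ρ * s * W / W') := by
  have e1 : ∑ p : G × H, ‖φ p.1 * f p.2‖ ^ 4 = (∑ x, ‖φ x‖ ^ 4) * ∑ z, ‖f z‖ ^ 4 := by
    rw [Fintype.sum_prod_type, Finset.sum_mul_sum]
    refine Finset.sum_congr rfl fun x _ => Finset.sum_congr rfl fun z _ => ?_
    rw [norm_mul, mul_pow]
  have e2 : ∑ p : G × H, ‖conv (fun r : G × H => k r.1 * q r.2)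
      (fun r : G × H => φ r.1 * f r.2) p‖ ^ 4
      = (∑ x, ‖conv k φ x‖ ^ 4) * ∑ z, ‖conv q f z‖ ^ 4 := by
    rw [Fintype.sum_prod_type, Finset.sum_mul_sum]
    refine Finset.sum_congr rfl fun x _ => Finset.sum_congr rfl fun z _ => ?_
    rw [conv_tensor, norm_mul, mul_pow]
  refine ⟨fun r : G × H => k r.1 * q r.2, W', fun r : G × H => φ r.1 * f r.2, hW', hk, ?_, ?_⟩
  · rw [e1]
    positivity
  · rw [e1, e2]
    have h4 : 0 ≤ ρ * W * ∑ x, ‖φ x‖ ^ 4 := by positivity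
    calc ρ * s * W / W' * W' * ((∑ x, ‖φ x‖ ^ 4) * ∑ z, ‖f z‖ ^ 4)
        = (ρ * W * ∑ x, ‖φ x‖ ^ 4) * (s * ∑ z, ‖f z‖ ^ 4) := by
          field_simp
      _ ≤ (∑ x, ‖conv k φ x‖ ^ 4) * ∑ z, ‖conv q f z‖ ^ 4 :=
          mul_le_mul h1 h2 (by positivity) (h4.trans h1)

lemma good_step (M : ℕ) [NeZero M] (ρ : ℝ) (hρ : 0 ≤ ρ) (h : GoodG (ZMod M) ρ) :
    ∃ (M' : ℕ) (_ : NeZero M'), GoodG (ZMod M') (56 / 55 * ρ) := by
  obtain ⟨k, W, φ, hW, hk, hφ, hS⟩ := h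
  obtain ⟨n0, hn0⟩ := weak_step k W hW hk
  have hM : 0 < M := Nat.pos_of_ne_zero (NeZero.ne M)
  obtain ⟨n, hn⟩ : ∃ n : ℕ, n = 2 * M * (n0 + 1000) + 1 := ⟨_, rfl⟩
  have hodd : Odd n := ⟨M * (n0 + 1000), by rw [hn]; ring⟩
  have : NeZero n := ⟨by omega⟩
  have hge : n0 + 1000 ≤ n := by
    have h1 : n0 + 1000 ≤ M * (n0 + 1000) := Nat.le_mul_of_pos_left _ hM
    have h2 : 2 * M * (n0 + 1000) = 2 * (M * (n0 + 1000)) := by ring
    omega
  have hcop : Nat.Coprime M (n ^ 4) := by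
    refine Nat.Coprime.pow_right 4 ?_
    have : n = M * (2 * (n0 + 1000)) + 1 := by rw [hn]; ring
    rw [this]
    simp
  have hweak := hn0 n hodd (by omega)
  obtain ⟨f, hf, hfS⟩ := qker_test n hodd (by omega)
  have hg := GoodG_prod k (qker n) φ f W (33 / 4 * W) (42 / 5) ρ hρ (by norm_num) hW
    (by positivity) hweak hφ hf hS hfS
  have hr : ρ * (42 / 5) * W / (33 / 4 * W) = 56 / 55 * ρ := by
    field_simp
    ring
  rw [hr] at hg
  have : NeZero (M * n ^ 4) := ⟨Nat.mul_ne_zero (NeZero.ne M) (NeZero.ne (n ^ 4))⟩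
  exact ⟨M * n ^ 4, this, GoodG_equiv (ZMod.chineseRemainder hcop).toAddEquiv _ hg⟩

lemma good_pow (j : ℕ) : ∃ (M : ℕ) (_ : NeZero M), GoodG (ZMod M) ((56 / 55 : ℝ) ^ j) := by
  induction j with
  | zero =>
    refine ⟨1, inferInstance, fun _ => 1, 1, fun _ => 1, one_pos, ?_, ?_, ?_⟩
    · intro f t ht
      have h1 : ∀ x, conv (fun _ => 1) f x = f x := by
        intro x
        unfold conv
        simp only [one_mul, Finset.univ_unique, Finset.sum_singleton]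
        exact congrArg f (Subsingleton.elim _ _)
      simp only [h1, Finset.univ_unique, Finset.sum_singleton]
      split_ifs with h
      · rw [mul_one, one_mul]
        exact pow_le_pow_left₀ ht.le h.le 4
      · simp
    · simp
    · simp [conv]
  | succ j ih =>
    obtain ⟨M, hM, h⟩ := ih
    obtain ⟨M', hM', h'⟩ := good_step M _ (by positivity) h
    refine ⟨M', hM', ?_⟩
    rw [pow_succ, mul_comm]
    exact h'

/-- The ratio of the strong and the weak constant is unbounded over the cyclic groups. -/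
theorem good_all (ρ : ℝ) : ∃ (M : ℕ) (_ : NeZero M) (k : ZMod M → ℂ) (φ : ZMod M → ℂ),
    WeakB k 1 ∧ 0 < ∑ x, ‖φ x‖ ^ 4 ∧ ρ * ∑ x, ‖φ x‖ ^ 4 ≤ ∑ x, ‖conv k φ x‖ ^ 4 := by
  obtain ⟨j, hj⟩ := pow_unbounded_of_one_lt ρ (by norm_num : (1 : ℝ) < 56 / 55)
  obtain ⟨M, hM, k, W, φ, hW, hk, hφ, hS⟩ := good_pow j
  obtain ⟨s, hs0, hs⟩ : ∃ s : ℝ, 0 < s ∧ s ^ 4 = W⁻¹ := by
    refine ⟨(W⁻¹) ^ ((1 : ℝ) / 4), Real.rpow_pos_of_pos (by positivity) _, ?_⟩
    rw [← Real.rpow_natCast, ← Real.rpow_mul (by positivity)]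
    norm_num
  have hc : ∀ f x, ‖conv (fun y => (s : ℂ) * k y) f x‖ = s * ‖conv k f x‖ := by
    intro f x
    have : conv (fun y => (s : ℂ) * k y) f x = s * conv k f x := by
      unfold conv
      rw [Finset.mul_sum]
      exact Finset.sum_congr rfl fun y _ => by ring
    rw [this, norm_mul, Complex.norm_real, Real.norm_of_nonneg hs0.le]
  refine ⟨M, hM, fun y => (s : ℂ) * k y, φ, ?_, hφ, ?_⟩
  · intro f t ht
    have h1 := hk f (t / s) (by positivity)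
    have h2 : ∀ x, (if t < ‖conv (fun y => (s : ℂ) * k y) f x‖ then (1 : ℝ) else 0)
        = if t / s < ‖conv k f x‖ then (1 : ℝ) else 0 := by
      intro x
      rw [hc]
      have : t < s * ‖conv k f x‖ ↔ t / s < ‖conv k f x‖ := by
        rw [div_lt_iff₀ hs0, mul_comm]
      simp only [this]
    simp_rw [h2]
    have h3 : t ^ 4 = s ^ 4 * (t / s) ^ 4 := by
      field_simp
    rw [h3, hs, mul_assoc, one_mul, inv_mul_le_iff₀ hW]
    exact h1
  · have h1 : ∑ x, ‖conv (fun y => (s : ℂ) * k y) φ x‖ ^ 4 = W⁻¹ * ∑ x, ‖conv k φ x‖ ^ 4 := by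
      rw [Finset.mul_sum]
      refine Finset.sum_congr rfl fun x _ => ?_
      rw [hc, mul_pow, hs]
    rw [h1, le_inv_mul_iff₀ hW]
    refine le_trans ?_ hS
    have h2 : 0 ≤ W * ∑ x, ‖φ x‖ ^ 4 := by positivity
    nlinarith

end equiv

end Pool.Agent.Helper107.WS
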