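import Mathlib
import Pool.Agent.Helper107.WSb

set_option autoImplicit false
set_option linter.unusedSectionVars false
set_option linter.unusedSimpArgs false

namespace Pool.Agent.Helper107.WS

open Finset MeasureTheory

/-- The exponential of frequency `n`. -/
noncomputable def ex (n : ℤ) (x : ℝ) : ℂ :=
  Complex.exp (2 * (Real.pi : ℂ) * Complex.I * (n : ℂ) * (x : ℂ))

/-- The trigonometric polynomial with coefficients `c` on `S`. -/
noncomputable def tp (S : Finset ℤ) (c : ℤ → ℂ) (x : ℝ) : ℂ := ∑ n ∈ S, c n * ex n x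

lemma ex_cont (n : ℤ) : Continuous (ex n) := by
  unfold ex
  fun_prop

lemma tp_cont (S : Finset ℤ) (c : ℤ → ℂ) : Continuous (tp S c) := by
  unfold tp
  exact continuous_finsetSum _ fun n _ => continuous_const.mul (ex_cont n)

lemma ex_add (n : ℤ) (x y : ℝ) : ex n (x + y) = ex n x * ex n y := by
  unfold ex
  rw [← Complex.exp_add]
  congr 1
  push_cast
  ring

lemma ex_add_freq (n m : ℤ) (x : ℝ) : ex (n + m) x = ex n x * ex m x := by
  unfold ex
  rw [← Complex.exp_add]
  congr 1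
  push_cast
  ring

lemma ex_one (n : ℤ) : ex n 1 = 1 := by
  unfold ex
  rw [Complex.exp_eq_one_iff]
  exact ⟨n, by push_cast; ring⟩

lemma ex_norm (n : ℤ) (x : ℝ) : ‖ex n x‖ = 1 := by
  unfold ex
  rw [Complex.norm_exp]
  simp

lemma ex_period (n : ℤ) (x : ℝ) : ex n (x + 1) = ex n x := by
  rw [ex_add, ex_one, mul_one]

lemma tp_period (S : Finset ℤ) (c : ℤ → ℂ) (x : ℝ) : tp S c (x + 1) = tp S c x := by
  unfold tp
  exact Finset.sum_congr rfl fun n _ => by rw [ex_period]

section fib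

variable (M : ℕ) [NeZero M]

lemma ex_frac (n : ℤ) (j : ZMod M) :
    ex n ((j.val : ℝ) / M) = ZMod.stdAddChar ((n : ZMod M) * j) := by
  have h1 : ((n * (j.val : ℤ) : ℤ) : ZMod M) = (n : ZMod M) * j := by
    push_cast
    rw [ZMod.natCast_zmod_val]
  rw [← h1, ZMod.stdAddChar_coe]
  unfold ex
  congr 1
  push_cast
  ring

lemma ex_shift (n : ℤ) (x : ℝ) (j : ZMod M) :
    ex n (x + (j.val : ℝ) / M) = ex n x * ZMod.stdAddChar ((n : ZMod M) * j) := by
  rw [ex_add, ex_frac]

/-- The multiplier on the integers attached to a kernel on `ZMod M`. -/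
noncomputable def mult (k : ZMod M → ℂ) (n : ℤ) : ℂ :=
  ∑ r, k r * ZMod.stdAddChar ((n : ZMod M) * r)

lemma conv_fib (k : ZMod M → ℂ) (S : Finset ℤ) (c : ℤ → ℂ) (x : ℝ) (h : ZMod M) :
    conv k (fun j => tp S c (x + (j.val : ℝ) / M)) h
      = tp S (fun n => mult M k n * c n) (x + (h.val : ℝ) / M) := by
  unfold conv tp mult
  simp_rw [ex_shift, Finset.mul_sum, Finset.sum_mul]
  rw [Finset.sum_comm]
  refine Finset.sum_congr rfl fun n _ => Finset.sum_congr rfl fun r _ => ?_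
  rw [mul_add, AddChar.map_add_eq_mul]
  ring

lemma ii_sum (F : ZMod M → ℝ → ℝ) (h : ∀ j, IntervalIntegrable (F j) volume 0 1) :
    IntervalIntegrable (fun x => ∑ j, F j x) volume 0 1 := by
  have := IntervalIntegrable.sum (Finset.univ : Finset (ZMod M)) (f := F) (fun j _ => h j)
  refine this.congr fun x _ => ?_
  simp

lemma avg_shift (g : ℝ → ℝ) (hg : ∀ x, g (x + 1) = g x) (a : ℝ) :
    ∫ x in (0 : ℝ)..1, g (x + a) = ∫ x in (0 : ℝ)..1, g x := by
  rw [intervalIntegral.integral_comp_add_right]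
  have hp : Function.Periodic g 1 := hg
  have := hp.intervalIntegral_add_eq a 0
  rw [zero_add, add_comm 1 a]
  rw [this, zero_add]

lemma avg_sum (g : ℝ → ℝ) (hg : ∀ x, g (x + 1) = g x)
    (hi : ∀ a, IntervalIntegrable (fun x => g (x + a)) volume 0 1) :
    ∫ x in (0 : ℝ)..1, ∑ j : ZMod M, g (x + (j.val : ℝ) / M) = M * ∫ x in (0 : ℝ)..1, g x := by
  rw [intervalIntegral.integral_finsetSum (fun j _ => hi _)]
  simp_rw [avg_shift g hg]
  simp [ZMod.card]

lemma weak_transfer (k : ZMod M → ℂ) (hk : WeakB k 1) (S : Finset ℤ) (c : ℤ → ℂ) (t : ℝ)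
    (ht : 0 < t) :
    volume {x : ℝ | x ∈ Set.Icc (0:ℝ) 1 ∧ t < ‖tp S (fun n => mult M k n * c n) x‖}
      ≤ ENNReal.ofReal ((∫ x in (0:ℝ)..1, ‖tp S c x‖ ^ 4) / t ^ 4) := by
  have hMpos : (0 : ℝ) < M := by
    have := Nat.pos_of_ne_zero (NeZero.ne M)
    exact_mod_cast this
  set F : ℝ → ℂ := tp S (fun n => mult M k n * c n) with hF
  have hFc : Continuous F := tp_cont _ _
  set A : Set ℝ := {x | t < ‖F x‖} with hA
  have hAo : IsOpen A := isOpen_lt continuous_const hFc.norm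
  set g : ℝ → ℝ := fun x => if t < ‖F x‖ then (1 : ℝ) else 0 with hg
  have hgA : g = A.indicator (fun _ => (1 : ℝ)) := by
    funext x
    simp only [hg, hA, Set.indicator, Set.mem_ofPred_eq]
  have hgm : Measurable g := by
    rw [hgA]
    exact measurable_const.indicator hAo.measurableSet
  have hgp : ∀ x, g (x + 1) = g x := by
    intro x
    simp only [hg, hF, tp_period]
  have hgi : ∀ a, IntervalIntegrable (fun x => g (x + a)) volume 0 1 := by
    intro a
    rw [intervalIntegrable_iff_integrableOn_Ioc_of_le zero_le_one]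
    refine Measure.integrableOn_of_bounded (M := 1) (by simp) ?_ ?_
    · exact (hgm.comp (measurable_id.add_const a)).aestronglyMeasurable
    · refine Filter.Eventually.of_forall fun x => ?_
      simp only [hg]
      split_ifs <;> simp
  have h1 := avg_sum M g hgp hgi
  have hfp : ∀ x, ‖tp S c (x + 1)‖ ^ 4 = ‖tp S c x‖ ^ 4 := fun x => by rw [tp_period]
  have hfi : ∀ a, IntervalIntegrable (fun x => ‖tp S c (x + a)‖ ^ 4) volume 0 1 := by
    intro a
    refine Continuous.intervalIntegrable ?_ _ _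
    exact ((tp_cont S c).comp (continuous_id.add continuous_const)).norm.pow 4
  have h2 := avg_sum M (fun x => ‖tp S c x‖ ^ 4) hfp hfi
  have h3 : ∫ x in (0 : ℝ)..1, ∑ j : ZMod M, g (x + (j.val : ℝ) / M)
      ≤ ∫ x in (0 : ℝ)..1, (t ^ 4)⁻¹ * ∑ j : ZMod M, ‖tp S c (x + (j.val : ℝ) / M)‖ ^ 4 := by
    refine intervalIntegral.integral_mono_on zero_le_one ?_ ?_ ?_
    · exact ii_sum M _ fun j => hgi _
    · exact (ii_sum M _ fun j => hfi _).const_mul _
    · intro x _
      have h4 := hk (fun j => tp S c (x + (j.val : ℝ) / M)) t ht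
      rw [one_mul] at h4
      rw [le_inv_mul_iff₀ (by positivity)]
      refine le_trans (le_of_eq ?_) h4
      congr 1
      refine Finset.sum_congr rfl fun j _ => ?_
      rw [conv_fib]
  rw [h1, intervalIntegral.integral_const_mul, h2] at h3
  have h4 : ∫ x in (0 : ℝ)..1, g x ≤ (∫ x in (0:ℝ)..1, ‖tp S c x‖ ^ 4) / t ^ 4 := by
    rw [div_eq_inv_mul]
    have : (M : ℝ) * ∫ x in (0 : ℝ)..1, g x
        ≤ M * ((t ^ 4)⁻¹ * ∫ x in (0:ℝ)..1, ‖tp S c x‖ ^ 4) := by
      refine h3.trans (le_of_eq ?_)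
      ring
    exact le_of_mul_le_mul_left this hMpos
  have h5 : volume {x : ℝ | x ∈ Set.Icc (0:ℝ) 1 ∧ t < ‖F x‖}
      = ENNReal.ofReal (∫ x in (0 : ℝ)..1, g x) := by
    have e1 : {x : ℝ | x ∈ Set.Icc (0:ℝ) 1 ∧ t < ‖F x‖} = Set.Icc 0 1 ∩ A := rfl
    rw [e1, intervalIntegral.integral_of_le zero_le_one, hgA,
      ← MeasureTheory.integral_Icc_eq_integral_Ioc,
      MeasureTheory.setIntegral_indicator hAo.measurableSet, MeasureTheory.setIntegral_const,
      smul_eq_mul, mul_one, Measure.real, ENNReal.ofReal_toReal]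
    refine ne_of_lt (lt_of_le_of_lt (measure_mono Set.inter_subset_left) ?_)
    simp
  rw [h5]
  exact ENNReal.ofReal_le_ofReal h4

/-- The trigonometric polynomial attached to a finitely supported family, after the multiplier. -/
noncomputable def linT (m : ℤ → ℂ) (x : ℝ) (c : ℤ →₀ ℂ) : ℂ :=
  Finsupp.linearCombination ℂ (fun n => m n * ex n x) c

lemma linT_eq (m : ℤ → ℂ) (c : ℤ →₀ ℂ) (x : ℝ) :
    linT m x c = tp c.support (fun n => m n * c n) x := by
  unfold linT tp
  rw [Finsupp.linearCombination_apply, Finsupp.sum]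
  refine Finset.sum_congr rfl fun n _ => ?_
  rw [smul_eq_mul]
  ring

/-- Multiplication by a peak function, on coefficients. -/
noncomputable def pk (c : ℤ →₀ ℂ) : ℤ →₀ ℂ :=
  (1 / 2 : ℂ) • c + ((1 / 4 : ℂ) • c.mapDomain (· + (M : ℤ)) + (1 / 4 : ℂ) • c.mapDomain (· + (-(M : ℤ))))

/-- The peak function. -/
noncomputable def dd (x : ℝ) : ℝ := 1 / 2 + Real.cos (2 * Real.pi * M * x) / 2

lemma ex_pair (x : ℝ) : ex (M : ℤ) x + ex (-(M : ℤ)) x = ((2 * Real.cos (2 * Real.pi * M * x) : ℝ) : ℂ) := by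
  unfold ex
  push_cast
  rw [Complex.two_cos]
  congr 2 <;> ring

lemma linT_pk (m : ℤ → ℂ) (hm : ∀ n, m (n + M) = m n) (c : ℤ →₀ ℂ) (x : ℝ) :
    linT m x (pk M c) = (dd M x : ℂ) * linT m x c := by
  have h1 : ∀ l : ℤ, (∀ n, m (n + l) = m n) →
      linT m x (c.mapDomain (· + l)) = ex l x * linT m x c := by
    intro l hl
    unfold linT
    rw [Finsupp.linearCombination_mapDomain, Finsupp.linearCombination_apply,
      Finsupp.linearCombination_apply, Finsupp.sum, Finsupp.sum, Finset.mul_sum]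
    refine Finset.sum_congr rfl fun n _ => ?_
    simp only [Function.comp_apply, smul_eq_mul]
    rw [hl, ex_add_freq]
    ring
  have h2 : ∀ n, m (n + (-(M : ℤ))) = m n := by
    intro n
    have := hm (n + (-(M : ℤ)))
    rw [← this]
    congr 1
    ring
  have h3 : linT m x (pk M c) = (1 / 2 : ℂ) * linT m x c + ((1 / 4 : ℂ) * (ex M x * linT m x c)
      + (1 / 4 : ℂ) * (ex (-(M : ℤ)) x * linT m x c)) := by
    rw [← h1 M hm, ← h1 _ h2]
    unfold linT pk
    rw [map_add, map_add, map_smul, map_smul, map_smul]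
    rfl
  rw [h3]
  have h4 : (1 / 2 : ℂ) * linT m x c + ((1 / 4 : ℂ) * (ex M x * linT m x c)
      + (1 / 4 : ℂ) * (ex (-(M : ℤ)) x * linT m x c))
      = (1 / 2 + 1 / 4 * (ex (M : ℤ) x + ex (-(M : ℤ)) x)) * linT m x c := by ring
  rw [h4, ex_pair]
  unfold dd
  push_cast
  ring

lemma linT_pk_iter (m : ℤ → ℂ) (hm : ∀ n, m (n + M) = m n) (c : ℤ →₀ ℂ) (x : ℝ) (L : ℕ) :
    linT m x ((pk M)^[L] c) = (dd M x : ℂ) ^ L * linT m x c := by
  induction L with
  | zero => simp
  | succ L ih =>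
    rw [Function.iterate_succ_apply', linT_pk M m hm, ih, pow_succ]
    ring

lemma dd_nonneg (x : ℝ) : 0 ≤ dd M x := by
  unfold dd
  have := Real.neg_one_le_cos (2 * Real.pi * M * x)
  linarith

lemma dd_zero : dd M 0 = 1 := by
  unfold dd
  simp
  norm_num

lemma dd_cont : Continuous (dd M) := by
  unfold dd
  fun_prop

lemma dd_period (x : ℝ) (j : ℤ) : dd M (x + (j : ℝ) / M) = dd M x := by
  unfold dd
  have hM : (M : ℝ) ≠ 0 := by exact_mod_cast (NeZero.ne M)
  have : 2 * Real.pi * M * (x + (j : ℝ) / M) = 2 * Real.pi * M * x + j * (2 * Real.pi) := by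
    field_simp
  rw [this, Real.cos_add_int_mul_two_pi]

lemma dd_lt (x : ℝ) (hx : x ∈ Set.Icc (-(1 / (2 * (M : ℝ)))) (1 / (2 * (M : ℝ)))) (h0 : x ≠ 0) :
    dd M x < 1 := by
  unfold dd
  have hM : (0 : ℝ) < M := by
    have := Nat.pos_of_ne_zero (NeZero.ne M)
    exact_mod_cast this
  have h1 : |x| ≤ 1 / (2 * (M : ℝ)) := abs_le.2 hx
  have h2 : 0 < |x| := abs_pos.2 h0
  have hpi := Real.pi_pos
  have h3 : 2 * Real.pi * M * |x| ≤ Real.pi := by
    calc 2 * Real.pi * M * |x| ≤ 2 * Real.pi * M * (1 / (2 * (M : ℝ))) :=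
          mul_le_mul_of_nonneg_left h1 (by positivity)
      _ = Real.pi := by field_simp
  have h4 := Real.cos_lt_cos_of_nonneg_of_le_pi le_rfl h3 (by positivity)
  rw [Real.cos_zero] at h4
  have h5 : Real.cos (2 * Real.pi * M * x) = Real.cos (2 * Real.pi * M * |x|) := by
    rw [← Real.cos_abs, abs_mul, abs_of_pos (by positivity : 0 < 2 * Real.pi * (M : ℝ))]
  rw [h5]
  linarith

lemma mult_period (k : ZMod M → ℂ) (n : ℤ) : mult M k (n + M) = mult M k n := by
  unfold mult
  refine Finset.sum_congr rfl fun r _ => ?_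
  push_cast
  rw [ZMod.natCast_self, add_zero]

/-- Interpolation of a function on `ZMod M` by a trigonometric polynomial. -/
lemma interp (φ : ZMod M → ℂ) : ∃ c : ℤ →₀ ℂ, ∀ h : ZMod M,
    linT (fun _ => 1) ((h.val : ℝ) / M) c = φ h := by
  refine ⟨∑ j : ZMod M, Finsupp.single (j.val : ℤ)
    ((M : ℂ)⁻¹ * ∑ h, φ h * ZMod.stdAddChar (-(j * h))), fun h => ?_⟩
  unfold linT
  rw [map_sum]
  simp_rw [Finsupp.linearCombination_single, smul_eq_mul, one_mul, ex_frac]
  have hM : (M : ℂ) ≠ 0 := by exact_mod_cast (NeZero.ne M)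
  have h1 : ∀ j : ZMod M, ((M : ℂ)⁻¹ * ∑ h, φ h * ZMod.stdAddChar (-(j * h))) *
      ZMod.stdAddChar ((((j.val : ℤ)) : ZMod M) * h)
      = ∑ h', (M : ℂ)⁻¹ * φ h' * ZMod.stdAddChar (j * (h - h')) := by
    intro j
    have e1 : (((j.val : ℤ)) : ZMod M) = j := by
      push_cast
      rw [ZMod.natCast_zmod_val]
    rw [e1, Finset.mul_sum, Finset.sum_mul]
    refine Finset.sum_congr rfl fun h' _ => ?_
    have e2 : j * (h - h') = -(j * h') + j * h := by ring
    rw [e2, AddChar.map_add_eq_mul]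
    ring
  simp_rw [h1]
  rw [Finset.sum_comm, Finset.sum_eq_single h]
  · rw [← Finset.mul_sum, sub_self, chi_sum, if_pos rfl]
    field_simp
  · intro h' _ hh
    rw [← Finset.mul_sum, chi_sum, if_neg (sub_ne_zero.2 (Ne.symm hh)), mul_zero]
  · intro hh
    exact absurd (Finset.mem_univ _) hh

lemma tp_step (S : Finset ℤ) (c : ℤ → ℂ) (x : ℝ) (j : ZMod M) :
    tp S c (x + 1 / M + (j.val : ℝ) / M) = tp S c (x + ((j + 1).val : ℝ) / M) := by
  unfold tp
  refine Finset.sum_congr rfl fun n _ => ?_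
  rw [ex_shift, ex_shift, ex_add]
  have h1 : ex n (1 / (M : ℝ)) = ZMod.stdAddChar (n : ZMod M) := by
    rw [ZMod.stdAddChar_coe]
    unfold ex
    congr 1
    push_cast
    ring
  rw [h1, mul_add, mul_one, AddChar.map_add_eq_mul]
  ring

lemma strong_transfer (k φ : ZMod M → ℂ) (C : ℝ)
    (hC : ∀ (S : Finset ℤ) (c : ℤ → ℂ),
      (∫ x in (0:ℝ)..1, ‖tp S (fun n => mult M k n * c n) x‖ ^ 4)
        ≤ C * ∫ x in (0:ℝ)..1, ‖tp S c x‖ ^ 4) :
    ∑ x, ‖conv k φ x‖ ^ 4 ≤ C * ∑ x, ‖φ x‖ ^ 4 := by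
  have hMpos : (0 : ℝ) < M := by
    have := Nat.pos_of_ne_zero (NeZero.ne M)
    exact_mod_cast this
  obtain ⟨c, hc⟩ := interp M φ
  set P : ℝ → ℂ := tp c.support c with hP
  set Q : ℝ → ℂ := tp c.support (fun n => mult M k n * c n) with hQ
  have hPc : Continuous P := tp_cont _ _
  have hQc : Continuous Q := tp_cont _ _
  have hP1 : ∀ x, linT (fun _ => 1) x c = P x := by
    intro x
    rw [linT_eq]
    simp only [one_mul]
    rfl
  have hQ1 : ∀ x, linT (mult M k) x c = Q x := fun x => linT_eq _ _ _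
  set g : ℕ → ℝ → ℝ := fun L x => (dd M x ^ 4) ^ L * (C * ‖P x‖ ^ 4 - ‖Q x‖ ^ 4) with hg
  have hgc : ∀ L, Continuous (g L) := by
    intro L
    simp only [hg]
    exact (((dd_cont M).pow 4).pow L).mul ((continuous_const.mul (hPc.norm.pow 4)).sub
      (hQc.norm.pow 4))
  have hg0 : ∀ L, 0 ≤ ∫ x in (0:ℝ)..1, g L x := by
    intro L
    have h1 := hC ((pk M)^[L] c).support ((pk M)^[L] c)
    have h2 : ∀ x, ‖tp ((pk M)^[L] c).support (fun n => mult M k n * ((pk M)^[L] c) n) x‖ ^ 4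
        = (dd M x ^ 4) ^ L * ‖Q x‖ ^ 4 := by
      intro x
      rw [← linT_eq, linT_pk_iter M _ (mult_period M k), hQ1, norm_mul, norm_pow,
        Complex.norm_real, Real.norm_of_nonneg (dd_nonneg M x)]
      ring
    have h3 : ∀ x, ‖tp ((pk M)^[L] c).support ((pk M)^[L] c) x‖ ^ 4
        = (dd M x ^ 4) ^ L * ‖P x‖ ^ 4 := by
      intro x
      have e := linT_eq (fun _ => 1) ((pk M)^[L] c) x
      simp only [one_mul] at e
      rw [← e, linT_pk_iter M _ (fun _ => rfl), hP1, norm_mul, norm_pow,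
        Complex.norm_real, Real.norm_of_nonneg (dd_nonneg M x)]
      ring
    simp_rw [h2, h3] at h1
    have i1 : IntervalIntegrable (fun x => (dd M x ^ 4) ^ L * ‖P x‖ ^ 4) volume 0 1 :=
      ((((dd_cont M).pow 4).pow L).mul (hPc.norm.pow 4)).intervalIntegrable _ _
    have i2 : IntervalIntegrable (fun x => (dd M x ^ 4) ^ L * ‖Q x‖ ^ 4) volume 0 1 :=
      ((((dd_cont M).pow 4).pow L).mul (hQc.norm.pow 4)).intervalIntegrable _ _
    have h4 : ∫ x in (0:ℝ)..1, g L x = C * (∫ x in (0:ℝ)..1, (dd M x ^ 4) ^ L * ‖P x‖ ^ 4)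
        - ∫ x in (0:ℝ)..1, (dd M x ^ 4) ^ L * ‖Q x‖ ^ 4 := by
      rw [← intervalIntegral.integral_const_mul, ← intervalIntegral.integral_sub
        (i1.const_mul C) i2]
      refine intervalIntegral.integral_congr fun x _ => ?_
      simp only [hg]
      ring
    rw [h4]
    linarith
  set Ht : ℝ → ℝ := fun x => ∑ j : ZMod M, (C * ‖P (x + (j.val : ℝ) / M)‖ ^ 4
    - ‖Q (x + (j.val : ℝ) / M)‖ ^ 4) with hHt
  have hHtc : Continuous Ht := by
    simp only [hHt]
    refine continuous_finsetSum _ fun j _ => ?_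
    have e1 : Continuous fun x : ℝ => x + (j.val : ℝ) / M := continuous_id.add continuous_const
    exact (continuous_const.mul ((hPc.comp e1).norm.pow 4)).sub ((hQc.comp e1).norm.pow 4)
  have hgp : ∀ L x, g L (x + 1) = g L x := by
    intro L x
    simp only [hg, hP, hQ, tp_period]
    have : dd M (x + 1) = dd M x := by
      have h := dd_period M x (M : ℤ)
      have e : (((M : ℤ) : ℝ)) / M = 1 := by
        push_cast
        exact div_self hMpos.ne'
      rw [e] at h
      exact h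
    rw [this]
  have hfold : ∀ L, 0 ≤ ∫ x in (0:ℝ)..1, (dd M x ^ 4) ^ L * Ht x := by
    intro L
    have h1 := avg_sum M (g L) (hgp L) (fun a => by
      refine Continuous.intervalIntegrable ?_ _ _
      exact (hgc L).comp (continuous_id.add continuous_const))
    have h2 : ∫ x in (0:ℝ)..1, (dd M x ^ 4) ^ L * Ht x
        = ∫ x in (0 : ℝ)..1, ∑ j : ZMod M, g L (x + (j.val : ℝ) / M) := by
      refine intervalIntegral.integral_congr fun x _ => ?_
      simp only [hg, hHt]
      rw [Finset.mul_sum]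
      refine Finset.sum_congr rfl fun j _ => ?_
      have := dd_period M x (j.val : ℤ)
      push_cast at this
      rw [this]
    rw [h2, h1]
    exact mul_nonneg hMpos.le (hg0 L)
  have hper : ∀ L, Function.Periodic (fun x => (dd M x ^ 4) ^ L * Ht x) (1 / (M : ℝ)) := by
    intro L x
    have h1 := dd_period M x 1
    push_cast at h1
    have h2 : Ht (x + 1 / M) = Ht x := by
      simp only [hHt]
      rw [← Equiv.sum_comp (Equiv.addRight (1 : ZMod M)) (fun j : ZMod M =>
        (C * ‖P (x + (j.val : ℝ) / M)‖ ^ 4 - ‖Q (x + (j.val : ℝ) / M)‖ ^ 4))]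
      refine Finset.sum_congr rfl fun j _ => ?_
      simp only [hP, hQ, tp_step, Equiv.coe_addRight]
    simp only
    rw [h1, h2]
  set a : ℝ := -(1 / (2 * (M : ℝ))) with ha
  have hnn : ∀ L, 0 ≤ ∫ x in a..(1 / (2 * (M : ℝ))), (dd M x ^ 4) ^ L * Ht x := by
    intro L
    have hc1 : Continuous (fun x => (dd M x ^ 4) ^ L * Ht x) :=
      (((dd_cont M).pow 4).pow L).mul hHtc
    have h1 := (hper L).intervalIntegral_add_zsmul_eq (M : ℤ) 0
      (fun _ _ => hc1.intervalIntegrable _ _)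
    have h2 := (hper L).intervalIntegral_add_eq 0 a
    have e1 : (0 : ℝ) + (M : ℤ) • (1 / (M : ℝ)) = 1 := by
      rw [zsmul_eq_mul]
      push_cast
      field_simp
      ring
    have e2 : a + 1 / (M : ℝ) = 1 / (2 * (M : ℝ)) := by
      rw [ha]
      field_simp
      ring
    rw [e1, h2, e2] at h1
    have h3 := hfold L
    rw [h1, zsmul_eq_mul] at h3
    push_cast at h3
    exact nonneg_of_mul_nonneg_right h3 hMpos
  have hab : a ≤ 1 / (2 * (M : ℝ)) := by
    rw [ha]
    have : 0 < 1 / (2 * (M : ℝ)) := by positivity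
    linarith
  have h0mem : (0 : ℝ) ∈ interior (Set.Icc a (1 / (2 * (M : ℝ)))) := by
    rw [interior_Icc, ha]
    have : 0 < 1 / (2 * (M : ℝ)) := by positivity
    exact ⟨by linarith, this⟩
  have hlim := tendsto_setIntegral_pow_smul_of_unique_maximum_of_isCompact_of_continuousOn
    (μ := volume) (isCompact_Icc (a := a) (b := 1 / (2 * (M : ℝ))))
    (c := fun x => dd M x ^ 4) (x₀ := (0 : ℝ)) (g := Ht) ((dd_cont M).pow 4).continuousOn
    (fun y hy hy0 => by
      have h1 := dd_lt M y hy hy0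
      rw [dd_zero]
      exact pow_lt_pow_left₀ h1 (dd_nonneg M y) (by norm_num))
    (fun x _ => by positivity) (by rw [dd_zero]; norm_num)
    (subset_closure h0mem) hHtc.continuousOn
  have hge : 0 ≤ Ht 0 := by
    refine ge_of_tendsto' hlim fun L => ?_
    have h1 : 0 ≤ ∫ x in Set.Icc a (1 / (2 * (M : ℝ))), (dd M x ^ 4) ^ L := by
      refine MeasureTheory.setIntegral_nonneg measurableSet_Icc fun x _ => by positivity
    have h2 : 0 ≤ ∫ x in Set.Icc a (1 / (2 * (M : ℝ))), (dd M x ^ 4) ^ L • Ht x := by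
      have := hnn L
      rw [intervalIntegral.integral_of_le hab, ← MeasureTheory.integral_Icc_eq_integral_Ioc] at this
      exact this
    simp only [smul_eq_mul] at *
    positivity
  have hval : Ht 0 = C * ∑ x, ‖φ x‖ ^ 4 - ∑ x, ‖conv k φ x‖ ^ 4 := by
    simp only [hHt]
    rw [Finset.sum_sub_distrib, ← Finset.mul_sum]
    have e1 : ∀ j : ZMod M, P (0 + (j.val : ℝ) / M) = φ j := by
      intro j
      rw [zero_add, ← hP1, hc]
    have e2 : ∀ j : ZMod M, Q (0 + (j.val : ℝ) / M) = conv k φ j := by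
      intro j
      have := conv_fib M k c.support c 0 j
      rw [hQ, ← this]
      congr 1
      funext i
      exact e1 i
    simp_rw [e1, e2]
  linarith [hval ▸ hge]

end fib

end Pool.Agent.Helper107.WS
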