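import Mathlib
import Pool.Agent.Helper107.WSc

set_option autoImplicit false
set_option linter.unusedSectionVars false
set_option linter.unusedSimpArgs false

namespace Pool.Agent.Helper107.WS

open Finset MeasureTheory

/-- Weak type bound for a multiplier on the circle. -/
def WT (m : ℤ → ℂ) (C : ℝ) : Prop :=
  ∀ (S : Finset ℤ) (c : ℤ → ℂ) (t : ℝ), 0 < t →
    volume {x : ℝ | x ∈ Set.Icc (0:ℝ) 1 ∧ t < ‖tp S (fun n => m n * c n) x‖}
      ≤ ENNReal.ofReal (C * (∫ x in (0:ℝ)..1, ‖tp S c x‖ ^ 4) / t ^ 4)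

/-- Strong type bound for a multiplier on the circle. -/
def ST (m : ℤ → ℂ) (C : ℝ) : Prop :=
  ∀ (S : Finset ℤ) (c : ℤ → ℂ),
    (∫ x in (0:ℝ)..1, ‖tp S (fun n => m n * c n) x‖ ^ 4) ≤ C * ∫ x in (0:ℝ)..1, ‖tp S c x‖ ^ 4

lemma WT_bdd (m : ℤ → ℂ) (h : WT m 1) (n : ℤ) : ‖m n‖ ≤ 1 := by
  by_contra hcon
  push Not at hcon
  obtain ⟨t, ht1, ht2⟩ := exists_between hcon
  have h1 := h {n} (fun _ => 1) t (by linarith)
  have h2 : {x : ℝ | x ∈ Set.Icc (0:ℝ) 1 ∧ t < ‖tp {n} (fun k => m k * 1) x‖} = Set.Icc 0 1 := by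
    ext x
    simp only [tp, Finset.sum_singleton, norm_mul, ex_norm, mul_one, Set.mem_ofPred_eq]
    exact ⟨fun h => h.1, fun h => ⟨h, ht2⟩⟩
  have h3 : ∫ x in (0:ℝ)..1, ‖tp {n} (fun _ => (1 : ℂ)) x‖ ^ 4 = 1 := by
    simp [tp, ex_norm]
  rw [h2, h3] at h1
  simp only [Real.volume_Icc] at h1
  have h4 : (1 : ℝ) * 1 / t ^ 4 < 1 - 0 := by
    rw [div_lt_iff₀ (by positivity)]
    have : 1 < t ^ 4 := one_lt_pow₀ ht1 (by norm_num)
    linarith
  have h5 := (ENNReal.ofReal_lt_ofReal_iff (by norm_num : (0 : ℝ) < 1 - 0)).2 h4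
  exact absurd h1 (not_le.2 h5)

lemma family (ρ : ℝ) : ∃ m : ℤ → ℂ, WT m 1 ∧ ∀ C, ST m C → ρ ≤ C := by
  obtain ⟨M, hM, k, φ, hk, hφ, hS⟩ := good_all ρ
  refine ⟨mult M k, ?_, ?_⟩
  · intro S c t ht
    have := weak_transfer M k hk S c t ht
    rw [one_mul]
    exact this
  · intro C hC
    have := strong_transfer M k φ C hC
    exact le_of_mul_le_mul_right (hS.trans this) hφ

section comb

variable (μ : ℕ → ℤ → ℂ)

/-- Weights. -/
noncomputable def wt (a : ℕ → Bool) (i : ℕ) : ℂ := if a i then ((1 / 4 : ℂ)) ^ i else 0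

/-- The combined multiplier. -/
noncomputable def comb (a : ℕ → Bool) (n : ℤ) : ℂ := ∑' i, wt a i * μ i n

lemma wt_norm (a : ℕ → Bool) (i : ℕ) : ‖wt a i‖ ≤ (1 / 4 : ℝ) ^ i := by
  unfold wt
  split_ifs
  · rw [norm_pow]
    norm_num
  · simp

lemma wt_cont (i : ℕ) : Continuous fun a : ℕ → Bool => wt a i := by
  have h : Continuous fun b : Bool => (if b then ((1 / 4 : ℂ)) ^ i else 0) :=
    continuous_of_discreteTopology
  exact h.comp (continuous_apply i)

variable (hμ : ∀ i n, ‖μ i n‖ ≤ 1)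

include hμ

lemma term_norm (a : ℕ → Bool) (i : ℕ) (n : ℤ) : ‖wt a i * μ i n‖ ≤ (1 / 4 : ℝ) ^ i := by
  rw [norm_mul]
  calc ‖wt a i‖ * ‖μ i n‖ ≤ (1 / 4 : ℝ) ^ i * 1 :=
        mul_le_mul (wt_norm a i) (hμ i n) (norm_nonneg _) (by positivity)
    _ = _ := mul_one _

lemma geo_summable : Summable fun i : ℕ => (1 / 4 : ℝ) ^ i :=
  summable_geometric_of_lt_one (by norm_num) (by norm_num)

lemma term_summable (a : ℕ → Bool) (n : ℤ) : Summable fun i => wt a i * μ i n :=
  Summable.of_norm_bounded (geo_summable μ hμ) (fun i => term_norm μ hμ a i n)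

lemma comb_cont (n : ℤ) : Continuous fun a => comb μ a n := by
  unfold comb
  exact continuous_tsum (fun i => (wt_cont i).mul continuous_const) (geo_summable μ hμ)
    (fun i a => term_norm μ hμ a i n)

lemma comb_tp (a : ℕ → Bool) (S : Finset ℤ) (c : ℤ → ℂ) (x : ℝ) :
    HasSum (fun i => wt a i * tp S (fun n => μ i n * c n) x)
      (tp S (fun n => comb μ a n * c n) x) := by
  unfold tp
  have h : ∀ n ∈ S, HasSum (fun i => wt a i * μ i n * (c n * ex n x))
      (comb μ a n * (c n * ex n x)) := fun n _ =>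
    (term_summable μ hμ a n).hasSum.mul_right _
  have h2 := hasSum_sum h
  have e1 : (fun i => ∑ n ∈ S, wt a i * μ i n * (c n * ex n x))
      = fun i => wt a i * ∑ n ∈ S, μ i n * c n * ex n x := by
    funext i
    rw [Finset.mul_sum]
    exact Finset.sum_congr rfl fun n _ => by ring
  have e2 : ∑ n ∈ S, comb μ a n * (c n * ex n x) = ∑ n ∈ S, comb μ a n * c n * ex n x :=
    Finset.sum_congr rfl fun n _ => by ring
  rw [e1, e2] at h2
  exact h2

lemma comb_weak (hw : ∀ i, WT (μ i) 1) (a : ℕ → Bool) : WT (comb μ a) (256 / 15) := by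
  intro S c t ht
  set I : ℝ := ∫ x in (0:ℝ)..1, ‖tp S c x‖ ^ 4 with hI
  have hI0 : 0 ≤ I := intervalIntegral.integral_nonneg zero_le_one fun x _ => by positivity
  have hsub : {x : ℝ | x ∈ Set.Icc (0:ℝ) 1 ∧ t < ‖tp S (fun n => comb μ a n * c n) x‖}
      ⊆ ⋃ i : ℕ, {x : ℝ | x ∈ Set.Icc (0:ℝ) 1 ∧
        t * 2 ^ i / 2 < ‖tp S (fun n => μ i n * c n) x‖} := by
    intro x hx
    by_contra hcon
    simp only [Set.mem_iUnion, Set.mem_ofPred_eq, not_exists, not_and, not_lt] at hcon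
    have h1 := comb_tp μ hμ a S c x
    have h2 : HasSum (fun i : ℕ => t / 2 * (1 / 2 : ℝ) ^ i) (t / 2 * 2) := by
      have := hasSum_geometric_two
      exact this.mul_left (t / 2)
    have h3 : ∀ i, ‖wt a i * tp S (fun n => μ i n * c n) x‖ ≤ t / 2 * (1 / 2 : ℝ) ^ i := by
      intro i
      rw [norm_mul]
      calc ‖wt a i‖ * ‖tp S (fun n => μ i n * c n) x‖ ≤ (1 / 4 : ℝ) ^ i * (t * 2 ^ i / 2) :=
            mul_le_mul (wt_norm a i) (hcon i hx.1) (norm_nonneg _) (by positivity)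
        _ = t / 2 * (1 / 2 : ℝ) ^ i := by
            have : (1 / 4 : ℝ) ^ i * 2 ^ i = (1 / 2 : ℝ) ^ i := by
              rw [← mul_pow]
              norm_num
            rw [← this]
            ring
    have h4 : ‖tp S (fun n => comb μ a n * c n) x‖ ≤ t / 2 * 2 := by
      rw [← h1.tsum_eq]
      exact tsum_of_norm_bounded h2 h3
    have h5 := hx.2
    linarith
  refine (measure_mono hsub).trans ((measure_iUnion_le _).trans ?_)
  have hb : ∀ i : ℕ, volume {x : ℝ | x ∈ Set.Icc (0:ℝ) 1 ∧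
        t * 2 ^ i / 2 < ‖tp S (fun n => μ i n * c n) x‖}
      ≤ ENNReal.ofReal (16 * I / t ^ 4 * (1 / 16 : ℝ) ^ i) := by
    intro i
    refine (hw i S c (t * 2 ^ i / 2) (by positivity)).trans (le_of_eq ?_)
    congr 1
    rw [← hI, one_mul]
    have : (1 / 16 : ℝ) ^ i = 1 / (2 ^ i) ^ 4 := by
      rw [one_div_pow, ← pow_mul, mul_comm i 4, pow_mul]
      norm_num
    rw [this]
    field_simp
    norm_num
  refine (ENNReal.tsum_le_tsum hb).trans (le_of_eq ?_)
  have hs : HasSum (fun i : ℕ => 16 * I / t ^ 4 * (1 / 16 : ℝ) ^ i)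
      (16 * I / t ^ 4 * (1 - 1 / 16)⁻¹) :=
    (hasSum_geometric_of_lt_one (by norm_num) (by norm_num)).mul_left _
  rw [← ENNReal.ofReal_tsum_of_nonneg (fun i => by positivity) hs.summable, hs.tsum_eq]
  congr 1
  ring

lemma comb_J_cont (S : Finset ℤ) (c : ℤ → ℂ) :
    Continuous fun a => ∫ x in (0:ℝ)..1, ‖tp S (fun n => comb μ a n * c n) x‖ ^ 4 := by
  refine intervalIntegral.continuous_parametric_intervalIntegral_of_continuous' ?_ 0 1
  have : Continuous fun p : (ℕ → Bool) × ℝ => tp S (fun n => comb μ p.1 n * c n) p.2 := by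
    unfold tp
    refine continuous_finsetSum _ fun n _ => ?_
    exact (((comb_cont μ hμ n).comp continuous_fst).mul continuous_const).mul
      ((ex_cont n).comp continuous_snd)
  exact this.norm.pow 4

lemma comb_diff (a b : ℕ → Bool) (i : ℕ) (hab : ∀ j, j ≠ i → a j = b j) (ha : a i = true)
    (hb : b i = false) (n : ℤ) : comb μ a n - comb μ b n = (1 / 4 : ℂ) ^ i * μ i n := by
  unfold comb
  rw [← (term_summable μ hμ a n).tsum_sub (term_summable μ hμ b n)]
  rw [tsum_eq_single i]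
  · simp [wt, ha, hb]
  · intro j hj
    simp [wt, hab j hj]

/-- If the constants of the strong bounds grow fast, some combination is not of strong type. -/
theorem exists_not_strong (hs : ∀ i C, ST (μ i) C → (256 : ℝ) ^ i * i ≤ C) :
    ∃ a : ℕ → Bool, ¬ ∃ C, ST (comb μ a) C := by
  by_contra hcon
  push Not at hcon
  set E : ℕ → Set (ℕ → Bool) := fun N => {a | ST (comb μ a) N} with hE
  have hclosed : ∀ N, IsClosed (E N) := by
    intro N
    have : E N = ⋂ (S : Finset ℤ), ⋂ (c : ℤ → ℂ), {a | (∫ x in (0:ℝ)..1,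
        ‖tp S (fun n => comb μ a n * c n) x‖ ^ 4) ≤ N * ∫ x in (0:ℝ)..1, ‖tp S c x‖ ^ 4} := by
      ext a
      simp only [hE, ST, Set.mem_ofPred_eq, Set.mem_iInter]
    rw [this]
    exact isClosed_iInter fun S => isClosed_iInter fun c =>
      isClosed_le (comb_J_cont μ hμ S c) continuous_const
  have hU : ⋃ N, E N = Set.univ := by
    rw [Set.eq_univ_iff_forall]
    intro a
    obtain ⟨C, hC⟩ := hcon a
    obtain ⟨N, hN⟩ := exists_nat_ge C
    rw [Set.mem_iUnion]
    refine ⟨N, ?_⟩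
    intro S c
    refine (hC S c).trans (mul_le_mul_of_nonneg_right hN ?_)
    exact intervalIntegral.integral_nonneg zero_le_one fun x _ => by positivity
  obtain ⟨N, a0, ha0⟩ := nonempty_interior_of_iUnion_of_closed hclosed hU
  obtain ⟨s, u, hu, hsub⟩ := isOpen_pi_iff.1 isOpen_interior a0 ha0
  obtain ⟨i, hi⟩ : ∃ i : ℕ, i ∉ s ∧ 16 * N < i := by
    refine ⟨s.sup id + 16 * N + 1, ?_, by omega⟩
    intro h
    have := Finset.le_sup (f := id) h
    simp only [id] at this
    omega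
  have hmem : ∀ b : Bool, Function.update a0 i b ∈ E N := by
    intro b
    refine interior_subset (hsub ?_)
    intro j hj
    have hji : j ≠ i := fun h => hi.1 (h ▸ hj)
    rw [Function.update_of_ne hji]
    exact (hu j hj).2
  have h1 := hmem true
  have h2 := hmem false
  have h3 : ST (μ i) ((256 : ℝ) ^ i * (16 * N)) := by
    intro S c
    have g1 := h1 S c
    have g2 := h2 S c
    set A : ℝ → ℂ := tp S (fun n => comb μ (Function.update a0 i true) n * c n) with hA
    set B : ℝ → ℂ := tp S (fun n => comb μ (Function.update a0 i false) n * c n) with hB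
    set I : ℝ := ∫ x in (0:ℝ)..1, ‖tp S c x‖ ^ 4 with hI
    have hp : ∀ x, ‖tp S (fun n => μ i n * c n) x‖ ^ 4
        ≤ (256 : ℝ) ^ i * (8 * (‖A x‖ ^ 4 + ‖B x‖ ^ 4)) := by
      intro x
      have e1 : (1 / 4 : ℂ) ^ i * tp S (fun n => μ i n * c n) x = A x + (-B x) := by
        simp only [hA, hB]
        unfold tp
        rw [← sub_eq_add_neg, ← Finset.sum_sub_distrib, Finset.mul_sum]
        refine Finset.sum_congr rfl fun n _ => ?_
        have := comb_diff μ hμ (Function.update a0 i true) (Function.update a0 i false) i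
          (fun j hj => by rw [Function.update_of_ne hj, Function.update_of_ne hj])
          (by simp) (by simp) n
        calc (1 / 4 : ℂ) ^ i * (μ i n * c n * ex n x)
            = ((1 / 4 : ℂ) ^ i * μ i n) * c n * ex n x := by ring
          _ = _ := by rw [← this]; ring
      have e2 : ‖tp S (fun n => μ i n * c n) x‖ ^ 4
          = (256 : ℝ) ^ i * ‖A x + (-B x)‖ ^ 4 := by
        rw [← e1, norm_mul, mul_pow, norm_pow]
        have e3 : ‖(1 / 4 : ℂ)‖ = 1 / 4 := by norm_num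
        rw [e3, ← mul_assoc]
        have e4 : (256 : ℝ) ^ i * ((1 / 4) ^ i) ^ 4 = 1 := by
          rw [← pow_mul, mul_comm i 4, pow_mul, ← mul_pow]
          norm_num
        rw [e4, one_mul]
      rw [e2]
      refine mul_le_mul_of_nonneg_left ?_ (by positivity)
      have := pow4_add (A x) (-B x)
      rwa [norm_neg] at this
    have hAc : Continuous A := tp_cont _ _
    have hBc : Continuous B := tp_cont _ _
    have iA : IntervalIntegrable (fun x => ‖A x‖ ^ 4) volume 0 1 :=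
      (hAc.norm.pow 4).intervalIntegrable _ _
    have iB : IntervalIntegrable (fun x => ‖B x‖ ^ 4) volume 0 1 :=
      (hBc.norm.pow 4).intervalIntegrable _ _
    calc (∫ x in (0:ℝ)..1, ‖tp S (fun n => μ i n * c n) x‖ ^ 4)
        ≤ ∫ x in (0:ℝ)..1, (256 : ℝ) ^ i * (8 * (‖A x‖ ^ 4 + ‖B x‖ ^ 4)) := by
          refine intervalIntegral.integral_mono_on zero_le_one ?_ ?_ (fun x _ => hp x)
          · exact ((tp_cont _ _).norm.pow 4).intervalIntegrable _ _
          · exact ((iA.add iB).const_mul 8).const_mul _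
      _ = (256 : ℝ) ^ i * (8 * ((∫ x in (0:ℝ)..1, ‖A x‖ ^ 4) + ∫ x in (0:ℝ)..1, ‖B x‖ ^ 4)) := by
          rw [intervalIntegral.integral_const_mul, intervalIntegral.integral_const_mul,
            intervalIntegral.integral_add iA iB]
      _ ≤ (256 : ℝ) ^ i * (8 * (N * I + N * I)) := by
          refine mul_le_mul_of_nonneg_left ?_ (by positivity)
          linarith
      _ = (256 : ℝ) ^ i * (16 * N) * I := by ring
  have h4 := hs i _ h3
  have h5 : (i : ℝ) ≤ 16 * N := le_of_mul_le_mul_left h4 (by positivity)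
  have h6 : i ≤ 16 * N := by exact_mod_cast h5
  omega

end comb

/-- There is a multiplier of weak type (4,4) which is not of strong type (4,4). -/
theorem main : ∃ m : ℤ → ℂ, (∃ C, WT m C) ∧ ¬ ∃ C, ST m C := by
  choose μ hw hs using fun i : ℕ => family ((256 : ℝ) ^ i * i)
  have hμ : ∀ i n, ‖μ i n‖ ≤ 1 := fun i n => WT_bdd (μ i) (hw i) n
  obtain ⟨a, ha⟩ := exists_not_strong μ hμ hs
  exact ⟨comb μ a, ⟨_, comb_weak μ hμ hw a⟩, ha⟩

end Pool.Agent.Helper107.WS
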